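import Pool.Agent.H.MP_83e36b_nt.cm.RegC

/-! Module RegD: the operators of the roots are injective, generic case. -/

namespace CM83

/-- there are injective additive maps to the real numbers -/
theorem exists_real_inj (n : ℕ) : ∃ ζ : V n →+ ℝ, Function.Injective ζ := by
  have hle : (n : Cardinal) ≤ Module.rank ℚ ℝ := by
    rw [Real.rank_rat_real]
    exact (Cardinal.natCast_lt_aleph0 (n := n)).le.trans Cardinal.aleph0_le_continuum
  obtain ⟨f, hf⟩ := exists_linearIndependent_of_le_rank hle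
  refine ⟨(Fintype.linearCombination ℚ f).toAddMonoidHom, ?_⟩
  exact hf.fintypeLinearCombination_injective

namespace RD

variable {n : ℕ} {G : Type} [Group G] (R : RD n G)

/-- the linear polynomial of a vector -/
noncomputable def regD_lin (v : V n) : MvPolynomial (Fin n) ℚ :=
  ∑ i, MvPolynomial.C (v i) * MvPolynomial.X i

/-- evaluation of the polynomials at a point -/
noncomputable def regD_ev {F : Type*} [Field F] [CharZero F] (ξ : V n →+ F) :
    MvPolynomial (Fin n) ℚ →+* F :=
  MvPolynomial.eval₂Hom (Rat.castHom F) fun i => ξ (Pi.single i 1)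

theorem regD_ev_lin {F : Type*} [Field F] [CharZero F] (ξ : V n →+ F) (v : V n) :
    regD_ev ξ (regD_lin v) = ξ v := by
  have h1 : v = ∑ i, v i • (Pi.single i 1 : V n) := by
    rw [← Finset.univ_sum_single v]
    refine Finset.sum_congr rfl fun i _ => ?_
    rw [Finset.univ_sum_single v, ← Pi.single_smul, smul_eq_mul, mul_one]
  conv_rhs => rw [h1, map_sum]
  rw [regD_lin, map_sum]
  refine Finset.sum_congr rfl fun i _ => ?_
  rw [map_q, map_mul, regD_ev, MvPolynomial.coe_eval₂Hom, MvPolynomial.eval₂_C,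
    MvPolynomial.eval₂_X]
  rfl

/-- the matrix of polynomials -/
noncomputable def regD_mat [DecidableEq G] (t : G) : Matrix G G (MvPolynomial (Fin n) ℚ) := fun w w' =>
  ∑ s ∈ R.S, if w * s = w' then
    MvPolynomial.C (R.B (R.a t) (R.a s)) * ∏ r ∈ R.S.erase s, regD_lin (R.ρ w (R.a r)) else 0

theorem regD_mulVec [Fintype G] [DecidableEq G] {F : Type*} [Field F] [CharZero F] {ξ : V n →+ F}
    (hξ : ∀ w, ∀ s ∈ R.S, ξ (R.ρ w (R.a s)) ≠ 0) (t : G) (f : G → F) (w : G) :
    (((regD_ev ξ).mapMatrix (R.regD_mat t)).mulVec f) w =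
      (∏ r ∈ R.S, ξ (R.ρ w (R.a r))) * R.Dop ξ (R.a t) f w := by
  have h1 : ∀ w', ((regD_ev ξ).mapMatrix (R.regD_mat t)) w w' * f w' =
      ∑ s ∈ R.S, if w * s = w' then
        (((R.B (R.a t) (R.a s) : ℚ) : F) * ∏ r ∈ R.S.erase s, ξ (R.ρ w (R.a r))) * f w' else 0 := by
    intro w'
    rw [RingHom.mapMatrix_apply, Matrix.map_apply, regD_mat, map_sum, Finset.sum_mul]
    refine Finset.sum_congr rfl fun s _ => ?_
    split_ifs with h
    · rw [map_mul, map_prod]
      congr 1
      congr 1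
      · simp [regD_ev]
      · refine Finset.prod_congr rfl fun r _ => ?_
        rw [regD_ev_lin]
    · rw [map_zero, zero_mul]
  rw [Matrix.mulVec, dotProduct, Finset.sum_congr rfl fun w' _ => h1 w', Finset.sum_comm]
  show _ = (∏ r ∈ R.S, ξ (R.ρ w (R.a r))) *
    ∑ s ∈ R.S, ((R.B (R.a t) (R.a s) : ℚ) : F) / ξ (R.ρ w (R.a s)) * f (w * s)
  rw [Finset.mul_sum]
  refine Finset.sum_congr rfl fun s hs => ?_
  rw [Finset.sum_ite_eq, if_pos (Finset.mem_univ _), ← Finset.mul_prod_erase R.S _ hs]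
  have := hξ w s hs
  field_simp

theorem regD_iff [Fintype G] [DecidableEq G] {F : Type*} [Field F] [CharZero F] {ξ : V n →+ F}
    (hξ : ∀ w, ∀ s ∈ R.S, ξ (R.ρ w (R.a s)) ≠ 0) (t : G) :
    Function.Injective (R.Dop ξ (R.a t)) ↔ regD_ev ξ (R.regD_mat t).det ≠ 0 := by
  rw [RingHom.map_det, ne_eq, ← Matrix.exists_mulVec_eq_zero_iff, injective_iff_map_eq_zero]
  push Not
  refine forall_congr' fun f => ?_
  have h1 : ((regD_ev ξ).mapMatrix (R.regD_mat t)).mulVec f = 0 ↔ R.Dop ξ (R.a t) f = 0 := by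
    constructor
    · intro h
      funext w
      have h2 := R.regD_mulVec hξ t f w
      rw [h] at h2
      have h3 : (∏ r ∈ R.S, ξ (R.ρ w (R.a r))) ≠ 0 := Finset.prod_ne_zero_iff.2 (hξ w)
      exact (mul_eq_zero.1 h2.symm).resolve_left h3
    · intro h
      funext w
      rw [R.regD_mulVec hξ t f w, h]
      simp
  simp only [ne_eq, h1]
  tauto

end RD

theorem RD.Dop_inj {n : ℕ} {G : Type} [Group G] [Fintype G] (R : RD n G) {k Ω : Type*} [Field k]
    [Field Ω] [CharZero Ω] [Algebra k Ω] {ζ : V n →+ Ω}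
    (hζ : AlgebraicIndependent k fun i => ζ (Pi.single i 1)) {t : G} (ht : t ∈ R.S) :
    Function.Injective (R.Dop ζ (R.a t)) := by
  classical
  obtain ⟨ξ, hξ⟩ := exists_real_inj n
  have h1 := R.Dop_inj_real hξ ht
  rw [R.regD_iff (fun w s hs => R.reg_of_inj hξ w hs)] at h1
  have h2 : (R.regD_mat t).det ≠ 0 := by
    intro h
    apply h1
    rw [h, map_zero]
  have hk : CharZero k := RingHom.charZero (algebraMap k Ω)
  have hinj := inj_of_algInd hζ
  rw [R.regD_iff (fun w s hs => R.reg_of_inj hinj w hs)]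
  have h3 : MvPolynomial.map (Rat.castHom k) (R.regD_mat t).det ≠ 0 := by
    intro h
    apply h2
    apply MvPolynomial.map_injective (Rat.castHom k) (Rat.castHom k).injective
    rw [h, map_zero]
  have h4 : regD_ev ζ (R.regD_mat t).det = MvPolynomial.aeval (fun i => ζ (Pi.single i 1))
      (MvPolynomial.map (Rat.castHom k) (R.regD_mat t).det) := by
    rw [RD.regD_ev, MvPolynomial.coe_eval₂Hom, MvPolynomial.aeval_def, MvPolynomial.eval₂_map]
    congr 1
    exact RingHom.ext_rat _ _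
  rw [h4]
  intro h
  apply h3
  apply hζ
  rw [h, map_zero]

end CM83
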