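import Pool.Agent.H.MP_83e36b_nt.cm.Basic
import Pool.Agent.H.MP_83e36b_nt.cm.RegD

/-! Module Chi: the sign character. -/

namespace CM83

variable {n : ℕ} {G : Type} [Group G] (R : RD n G)

/-- products over the reflections and conjugation -/
theorem RD.chi_prod_conj {M : Type*} [CommMonoid M] (g : G) (f : G → M) :
    ∏ s ∈ R.S, f (g * s * g⁻¹) = ∏ s ∈ R.S, f s := by
  refine Finset.prod_nbij' (fun s => g * s * g⁻¹) (fun s => g⁻¹ * s * g) ?_ ?_ ?_ ?_ ?_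
  · intro s hs
    exact R.conj g s hs
  · intro s hs
    have h := R.conj g⁻¹ s hs
    rwa [inv_inv] at h
  · intro s _
    group
  · intro s _
    group
  · intro s _
    rfl

theorem RD.chi_spec {F : Type*} [Field F] [CharZero F] (ξ : V n →+ F) (g : G) :
    ∏ s ∈ R.S, ξ (R.ρ g (R.a s)) = ((R.chi g : ℚ) : F) * ∏ s ∈ R.S, ξ (R.a s) := by
  rw [← R.chi_prod_conj g (fun s => ξ (R.a s)), RD.chi, Rat.cast_prod, ← Finset.prod_mul_distrib]
  refine Finset.prod_congr rfl fun s hs => ?_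
  obtain ⟨r, hr, he⟩ := R.root_conj g hs
  have hp := (R.norm_pos (R.conj g s hs)).ne'
  have h1 : (R.B (R.ρ g (R.a s)) (R.a (g * s * g⁻¹)) /
      R.B (R.a (g * s * g⁻¹)) (R.a (g * s * g⁻¹))) = r := by
    rw [he, map_smul, LinearMap.smul_apply, smul_eq_mul, mul_div_cancel_right₀ _ hp]
  rw [h1, he, map_q]

theorem RD.chi_prod_ne {F : Type*} [Field F] [CharZero F] (ξ : V n →+ F)
    (hξ : Function.Injective ξ) : ∏ s ∈ R.S, ξ (R.a s) ≠ 0 := by
  rw [Finset.prod_ne_zero_iff]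
  intro s hs h0
  exact R.a_ne s hs (hξ (by rw [h0, map_zero]))

theorem RD.chi_mul (g h : G) : R.chi (g * h) = R.chi g * R.chi h := by
  obtain ⟨ζ, hζ⟩ := exists_real_inj n
  have h0 := R.chi_prod_ne ζ hζ
  have h1 := R.chi_spec ζ (g * h)
  have h2 := R.chi_spec (R.tw ζ g) h
  have h3 := R.chi_spec ζ g
  simp only [RD.tw_apply] at h2
  have h4 : ∏ s ∈ R.S, ζ (R.ρ (g * h) (R.a s)) = ∏ s ∈ R.S, ζ (R.ρ g (R.ρ h (R.a s))) := by
    refine Finset.prod_congr rfl fun s _ => ?_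
    rw [map_mul, Module.End.mul_apply]
  rw [h4, h2, h3, ← mul_assoc] at h1
  have h5 := mul_right_cancel₀ h0 h1
  have h6 : ((R.chi (g * h) : ℚ) : ℝ) = ((R.chi g * R.chi h : ℚ) : ℝ) := by
    rw [← h5, Rat.cast_mul, mul_comm]
  exact_mod_cast h6

theorem RD.chi_one : R.chi 1 = 1 := by
  obtain ⟨ζ, hζ⟩ := exists_real_inj n
  have h0 := R.chi_prod_ne ζ hζ
  have h1 := R.chi_spec ζ 1
  simp only [map_one, Module.End.one_apply] at h1
  have h5 : ((R.chi 1 : ℚ) : ℝ) = 1 := by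
    apply mul_right_cancel₀ h0
    rw [← h1, one_mul]
  exact_mod_cast h5

theorem RD.chi_pow (g : G) (m : ℕ) : R.chi (g ^ m) = R.chi g ^ m := by
  induction m with
  | zero => rw [pow_zero, pow_zero, R.chi_one]
  | succ m ih => rw [pow_succ, pow_succ, R.chi_mul, ih]

theorem RD.chi_sq [Finite G] (g : G) : R.chi g = 1 ∨ R.chi g = -1 := by
  have h1 : R.chi g ^ orderOf g = 1 := by
    rw [← R.chi_pow, pow_orderOf_eq_one, R.chi_one]
  have h2 : |R.chi g| ^ orderOf g = 1 := by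
    rw [← abs_pow, h1, abs_one]
  have h3 : |R.chi g| = 1 :=
    (pow_eq_one_iff_of_nonneg (abs_nonneg _) (orderOf_pos g).ne').1 h2
  exact eq_or_eq_neg_of_abs_eq h3

theorem RD.chi_inv [Finite G] (g : G) : R.chi g⁻¹ = R.chi g := by
  have h1 : R.chi g * R.chi g⁻¹ = 1 := by
    rw [← R.chi_mul, mul_inv_cancel, R.chi_one]
  rcases R.chi_sq g with h | h
  · rw [h] at h1 ⊢
    linarith
  · rw [h] at h1 ⊢
    linarith

/-- if `ξ` is changed into `- ξ` by `g` then `χ(g) = (-1)^N` -/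
theorem RD.chi_neg {F : Type*} [Field F] [CharZero F] (ξ : V n →+ F)
    (hξ : ∀ s ∈ R.S, ξ (R.a s) ≠ 0) {g : G} (hg : ∀ v, ξ (R.ρ g v) = - ξ v) :
    R.chi g = (-1) ^ R.S.card := by
  have h0 : ∏ s ∈ R.S, ξ (R.a s) ≠ 0 := by
    rw [Finset.prod_ne_zero_iff]
    exact hξ
  have h1 := R.chi_spec ξ g
  have h2 : ∏ s ∈ R.S, ξ (R.ρ g (R.a s)) = (-1) ^ R.S.card * ∏ s ∈ R.S, ξ (R.a s) := by
    rw [← Finset.prod_const, ← Finset.prod_mul_distrib]
    refine Finset.prod_congr rfl fun s _ => ?_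
    rw [hg, neg_one_mul]
  rw [h2] at h1
  have h3 := mul_right_cancel₀ h0 h1
  have h4 : ((R.chi g : ℚ) : F) = (((-1) ^ R.S.card : ℚ) : F) := by
    rw [← h3]
    push_cast
    rfl
  exact Rat.cast_injective h4

end CM83
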