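import Pool.Agent.H.MP_83e36b_nt.cm.Basic

/-! Module Tr: transformations of the solutions. -/

namespace CM83

variable {n : ℕ} {G : Type} [Group G] (R : RD n G) {F : Type*} [Field F] [CharZero F]

theorem RD.IsCM.tr {R : RD n G} {ζ lam mu : V n →+ F} {φ : G → F} (h : R.IsCM ζ lam mu φ)
    (w c : G) :
    R.IsCM (R.tw ζ w) (R.tw lam c) (R.tw mu c) (fun x => φ (w * x * c⁻¹)) := by
  have hy : ∀ x : G, ∀ v, R.ρ w (R.ρ x v) = R.ρ (w * x * c⁻¹) (R.ρ c v) := by
    intro x v
    rw [← Module.End.mul_apply, ← map_mul, ← Module.End.mul_apply, ← map_mul]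
    congr 2
    group
  have hs : ∀ x s : G, w * (x * s) * c⁻¹ = w * x * c⁻¹ * (c * s * c⁻¹) := by
    intro x s
    group
  refine ⟨?_, ?_, ?_, ?_⟩
  · intro h0
    apply h.ne
    funext y
    have h1 := congrFun h0 (w⁻¹ * y * c)
    have h2 : w * (w⁻¹ * y * c) * c⁻¹ = y := by group
    simp only [h2] at h1
    exact h1
  · intro s hs'
    obtain ⟨r, hr, he⟩ := R.root_conj c hs'
    rw [RD.tw_apply, he, map_q]
    exact mul_ne_zero (Rat.cast_ne_zero.2 hr) (h.reg _ (R.conj c s hs'))
  · intro u x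
    simp only [RD.tw_apply, hs]
    rw [← h.e1 (R.ρ c u) (w * x * c⁻¹), ← R.sum_conj c (fun t =>
      ((R.B (R.ρ c u) (R.a t) : ℚ) : F) / ζ (R.ρ (w * x * c⁻¹) (R.a t)) *
        φ (w * x * c⁻¹ * t))]
    refine Finset.sum_congr rfl fun s hs' => ?_
    congr 1
    rw [hy]
    exact term_conj R (R.tw ζ (w * x * c⁻¹)) c hs' u
  · intro v x
    simp only [RD.tw_apply, hs]
    rw [hy, h.e2 (R.ρ c v) (w * x * c⁻¹), ← R.sum_conj c (fun t =>
      ((R.B (R.ρ c v) (R.a t) : ℚ) : F) / lam (R.a t) * φ (w * x * c⁻¹ * t))]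
    congr 1
    refine Finset.sum_congr rfl fun s hs' => ?_
    congr 1
    exact (term_conj R lam c hs' v).symm

theorem RD.IsCM.map {R : RD n G} {ζ lam mu : V n →+ F} {φ : G → F} (h : R.IsCM ζ lam mu φ)
    {F' : Type*} [Field F'] [CharZero F'] (τ : F →+* F') :
    R.IsCM (τ.toAddMonoidHom.comp ζ) (τ.toAddMonoidHom.comp lam) (τ.toAddMonoidHom.comp mu)
      (fun x => τ (φ x)) := by
  refine ⟨?_, ?_, ?_, ?_⟩
  · intro h0
    apply h.ne
    funext y
    have h1 := congrFun h0 y
    exact (map_eq_zero τ).1 h1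
  · intro s hs' h0
    exact h.reg s hs' ((map_eq_zero τ).1 h0)
  · intro u x
    have h1 := congrArg τ (h.e1 u x)
    simp only [map_sum, map_mul, map_div₀, map_ratCast] at h1
    exact h1
  · intro v x
    have h1 := congrArg τ (h.e2 v x)
    simp only [map_sum, map_add, map_mul, map_div₀, map_ratCast] at h1
    exact h1

theorem RD.IsCM.smul {R : RD n G} {ζ lam mu : V n →+ F} {φ : G → F} (h : R.IsCM ζ lam mu φ)
    {c : F} (hc : c ≠ 0) : R.IsCM ζ lam mu (fun x => c * φ x) := by
  refine ⟨?_, h.reg, ?_, ?_⟩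
  · intro h0
    apply h.ne
    funext y
    have h1 := congrFun h0 y
    exact (mul_eq_zero.1 h1).resolve_left hc
  · intro u x
    have h1 := congrArg (fun t => c * t) (h.e1 u x)
    simp only [Finset.mul_sum] at h1
    calc _ = _ := Finset.sum_congr rfl fun s _ => by ring
      _ = _ := h1
      _ = _ := by ring
  · intro v x
    have h1 := congrArg (fun t => c * t) (h.e2 v x)
    simp only [mul_add, Finset.mul_sum] at h1
    calc _ = _ := by ring
      _ = _ := h1
      _ = _ := by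
        congr 1
        · ring
        · exact Finset.sum_congr rfl fun s _ => by ring

end CM83
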