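import Pool.Agent.H.MP_83e36b_nt.cm.Span

/-! Module UniqT: the point is determined by its dual point. -/

namespace CM83

variable {n : ℕ} {G : Type} [Group G] {R : RD n G} {F : Type*} [Field F] [CharZero F]

/-- the eigenvalue equation in terms of left translates: the operators depend only on the dual
point -/
theorem RD.IsCM.left_eq {ζ lam mu : V n →+ F} {φ : G → F} (h : R.IsCM ζ lam mu φ) (v : V n)
    (w c : G) : ζ (R.ρ w v) * φ (w * c) = mu (R.ρ c⁻¹ v) * φ (w * c) +
      ∑ s ∈ R.S, ((R.B v (R.a s) : ℚ) : F) / lam (R.ρ c⁻¹ (R.a s)) * φ (w * (s * c)) := by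
  have h1 := h.e2 (R.ρ c⁻¹ v) (w * c)
  rw [map_mul R.ρ w c, Module.End.mul_apply, R.ρ_inv'] at h1
  rw [h1, ← R.sum_conj c (fun s => ((R.B v (R.a s) : ℚ) : F) / lam (R.ρ c⁻¹ (R.a s)) *
    φ (w * (s * c)))]
  congr 1
  refine Finset.sum_congr rfl fun s hs => ?_
  have h2 := R.term_conj (R.tw lam c⁻¹) c hs (R.ρ c⁻¹ v)
  simp only [RD.tw_apply] at h2
  rw [R.ρ_inv, R.ρ_inv'] at h2
  have h3 : w * (c * s * c⁻¹ * c) = w * c * s := by group
  rw [h3, ← h2]

theorem RD.IsCM.uniqT [Fintype G] {ζ ζ' lam mu : V n →+ F} {φ φ' : G → F}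
    (h : R.IsCM ζ lam mu φ) (h' : R.IsCM ζ' lam mu φ') (hζ : Function.Injective ζ) :
    ∃ (w : G) (a : F), a ≠ 0 ∧ (∀ v, ζ' v = ζ (R.ρ w v)) ∧ ∀ x, φ' x = a * φ (w * x) := by
  classical
  obtain ⟨a, ha⟩ := h.span_left hζ φ'
  have key : ∀ v w, a w * (ζ' v - ζ (R.ρ w v)) = 0 := by
    intro v w
    have h1 : (fun w => a w * (ζ' v - ζ (R.ρ w v))) = 0 := by
      refine h.indep_left hζ _ fun c => ?_
      have h2 := h'.left_eq v 1 c
      rw [map_one, Module.End.one_apply, one_mul] at h2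
      have h3 : ∑ w, a w * ζ (R.ρ w v) * φ (w * c) = mu (R.ρ c⁻¹ v) * φ' c +
          ∑ s ∈ R.S, ((R.B v (R.a s) : ℚ) : F) / lam (R.ρ c⁻¹ (R.a s)) * φ' (1 * (s * c)) := by
        have e1 : ∀ s ∈ R.S, ((R.B v (R.a s) : ℚ) : F) / lam (R.ρ c⁻¹ (R.a s)) *
            φ' (1 * (s * c)) = ∑ w, a w * (((R.B v (R.a s) : ℚ) : F) / lam (R.ρ c⁻¹ (R.a s)) *
              φ (w * (s * c))) := by
          intro s _
          rw [one_mul, ha, Finset.mul_sum]
          exact Finset.sum_congr rfl fun w _ => by ring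
        rw [Finset.sum_congr rfl e1, Finset.sum_comm, ha, Finset.mul_sum, ← Finset.sum_add_distrib]
        refine Finset.sum_congr rfl fun w _ => ?_
        rw [mul_assoc, h.left_eq v w c, ← Finset.mul_sum]
        ring
      rw [← h2, ha c, Finset.mul_sum] at h3
      have h4 : ∑ w, a w * (ζ' v - ζ (R.ρ w v)) * φ (w * c) =
          ∑ w, ζ' v * (a w * φ (w * c)) - ∑ w, a w * ζ (R.ρ w v) * φ (w * c) := by
        rw [← Finset.sum_sub_distrib]
        exact Finset.sum_congr rfl fun w _ => by ring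
      rw [h4, h3, sub_self]
    exact congrFun h1 w
  obtain ⟨w, hw⟩ : ∃ w, a w ≠ 0 := by
    by_contra hcon
    push Not at hcon
    apply h'.ne
    funext c
    rw [ha c]
    exact Finset.sum_eq_zero fun w _ => by rw [hcon w, zero_mul]
  have h5 : ∀ v, ζ' v = ζ (R.ρ w v) := by
    intro v
    have h6 := key v w
    rcases mul_eq_zero.1 h6 with h7 | h7
    · exact absurd h7 hw
    · exact sub_eq_zero.1 h7
  refine ⟨w, a w, hw, h5, fun x => ?_⟩
  rw [ha x, Finset.sum_eq_single w]
  · intro w' _ hne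
    have h8 : a w' = 0 := by
      by_contra h9
      obtain ⟨v, hv⟩ := R.sep_of_inj hζ hne
      apply hv
      rcases mul_eq_zero.1 (key v w') with h7 | h7
      · exact absurd h7 h9
      · rw [← h5 v]
        exact (sub_eq_zero.1 h7).symm
    rw [h8, zero_mul]
  · intro h10
    exact absurd (Finset.mem_univ w) h10

/-- the values of `ζ` are algebraic over the field generated by the dual point -/
theorem RD.IsCM.algebraic [Fintype G] {k : Type*} [Field k] [Algebra k F] {ζ lam mu : V n →+ F}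
    {φ : G → F} (h : R.IsCM ζ lam mu φ) (K : IntermediateField k F) (hl : ∀ v, lam v ∈ K)
    (hm : ∀ v, mu v ∈ K) (v : V n) : IsAlgebraic K (ζ v) := by
  have hmem : ∀ (q : F) (_ : q ∈ K) (x : F) (_ : x ∈ Submodule.span K (Set.range φ)),
      q * x ∈ Submodule.span K (Set.range φ) := fun q hq x hx =>
    Submodule.smul_mem _ (⟨q, hq⟩ : K) hx
  refine IsIntegral.isAlgebraic (isIntegral_of_smul_mem_submodule
    (Submodule.span K (Set.range φ)) ?_ (Submodule.fg_span (Set.finite_range φ)) _ ?_)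
  · intro hbot
    rw [Submodule.span_eq_bot] at hbot
    apply h.ne
    funext c
    exact hbot _ ⟨c, rfl⟩
  · intro x hx
    induction hx using Submodule.span_induction with
    | mem x hx =>
      obtain ⟨c, rfl⟩ := hx
      have h1 := h.left_eq v 1 c
      rw [map_one, Module.End.one_apply, one_mul] at h1
      rw [smul_eq_mul, h1]
      refine Submodule.add_mem _ (hmem _ (hm _) _ (Submodule.subset_span ⟨c, rfl⟩))
        (Submodule.sum_mem _ fun s _ => ?_)
      rw [one_mul]
      refine hmem _ (div_mem (SubfieldClass.ratCast_mem K _) (hl _)) _ (Submodule.subset_span ⟨_, rfl⟩)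
    | zero => rw [smul_zero]; exact Submodule.zero_mem _
    | add x y _ _ hx hy => rw [smul_add]; exact Submodule.add_mem _ hx hy
    | smul a x _ hx => rw [smul_comm]; exact Submodule.smul_mem _ _ hx

end CM83
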