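import Pool.Agent.H.MP_83e36b_nt.cm.Pair
import Pool.Agent.H.MP_83e36b_nt.cm.Chi
import Pool.Agent.H.MP_83e36b_nt.cm.UniqT
import Pool.Agent.H.MP_83e36b_nt.cm.Tr

/-! Module Sgn: the square root of `(-1)^N`. -/

namespace CM83

variable {n : ℕ} {G : Type} [Group G] [Fintype G] {R : RD n G} {F : Type*} [Field F] [CharZero F]

theorem sgn_bil_sum (a : G → F) (ha : ∀ x y, a (x * y) = a x * a y) (ha' : ∀ x, a x⁻¹ = a x)
    (φ : G → F) : ∑ c, a c * bil (Rop c φ) φ = (∑ c, a c * φ c) ^ 2 := by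
  have h1 : ∀ w : G, ∑ c, a c * φ (w * c) = a w * ∑ y, a y * φ y := by
    intro w
    rw [Finset.mul_sum, ← Equiv.sum_comp (Equiv.mulLeft w) (fun y => a w * (a y * φ y))]
    refine Finset.sum_congr rfl fun c _ => ?_
    have h2 : a w * a (w * c) = a c := by
      have h3 := ha w⁻¹ (w * c)
      rw [inv_mul_cancel_left, ha'] at h3
      exact h3.symm
    rw [Equiv.coe_mulLeft, ← mul_assoc, h2]
  have h2 : ∑ c, a c * bil (Rop c φ) φ = ∑ w, φ w * ∑ c, a c * φ (w * c) := by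
    simp only [bil, Finset.mul_sum]
    rw [Finset.sum_comm]
    refine Finset.sum_congr rfl fun w _ => Finset.sum_congr rfl fun c _ => ?_
    change a c * (φ (w * c) * φ w) = φ w * (a c * φ (w * c))
    ring
  rw [h2, sq, Finset.sum_mul]
  refine Finset.sum_congr rfl fun w _ => ?_
  rw [h1]
  ring

/-- for the normalised solution `j = ∑ χ(c) φ(c)` satisfies `j² = χ(w1)` -/
theorem RD.IsCM.j_sq {ζ lam mu : V n →+ F} {φ : G → F} (h : R.IsCM ζ lam mu φ)
    (hζ : Function.Injective ζ) (hθ : Function.Injective (lam + mu)) (h1 : ∑ w, φ w = 1) {w1 : G}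
    (hw : ∀ u, lam (R.ρ w1 u) = - lam u) (hw' : ∀ v, mu (R.ρ w1 v) = mu v) :
    (∑ c, ((R.chi c : ℚ) : F) * φ c) ^ 2 = (-1) ^ R.S.card := by
  have ha : ∀ c : G, c ≠ w1⁻¹ → bil (Rop c φ) φ = 0 := by
    intro c hc
    by_contra hne
    obtain ⟨p1, p2⟩ := h.pair h hne
    apply hc
    have h2 : R.ρ c⁻¹ = R.ρ w1 := by
      apply LinearMap.ext
      intro v
      apply hθ
      rw [AddMonoidHom.add_apply, AddMonoidHom.add_apply, p1, p2, hw, hw']
    have h3 := R.inj h2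
    rw [← h3, inv_inv]
  have hb : ∑ c, (1 : F) * bil (Rop c φ) φ = (∑ c, (1 : F) * φ c) ^ 2 :=
    sgn_bil_sum (fun _ => (1 : F)) (by intros; simp) (by intros; rfl) φ
  have hc := sgn_bil_sum (fun c => ((R.chi c : ℚ) : F))
    (by intro x y; simp only [R.chi_mul]; push_cast; rfl) (by intro x; simp only [R.chi_inv]) φ
  rw [Finset.sum_eq_single w1⁻¹ (fun c _ hc => by rw [ha c hc, mul_zero])
    (fun hn => absurd (Finset.mem_univ _) hn)] at hb hc
  simp only [one_mul, h1, one_pow] at hb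
  rw [hb, mul_one] at hc
  rw [← hc, R.chi_inv, R.chi_neg lam h.reg hw]
  push_cast
  rfl

/-- the action of automorphisms on `j` -/
theorem RD.IsCM.j_map {ζ lam mu : V n →+ F} {φ : G → F} (h : R.IsCM ζ lam mu φ)
    (hζ : Function.Injective ζ) (h1 : ∑ w, φ w = 1) (τ : F →+* F) {w c : G}
    (hw : ∀ v, τ (ζ v) = ζ (R.ρ w v)) (hl : ∀ v, τ (lam v) = lam (R.ρ c v))
    (hm : ∀ v, τ (mu v) = mu (R.ρ c v)) :
    τ (∑ x, ((R.chi x : ℚ) : F) * φ x) =
      ((R.chi w * R.chi c : ℚ) : F) * ∑ x, ((R.chi x : ℚ) : F) * φ x := by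
  have e1 : τ.toAddMonoidHom.comp ζ = R.tw ζ w := AddMonoidHom.ext fun v => hw v
  have e2 : τ.toAddMonoidHom.comp lam = R.tw lam c := AddMonoidHom.ext fun v => hl v
  have e3 : τ.toAddMonoidHom.comp mu = R.tw mu c := AddMonoidHom.ext fun v => hm v
  have hmap := h.map τ
  rw [e1, e2, e3] at hmap
  have hinj : Function.Injective (R.tw ζ w) := hζ.comp (R.ρ_injective w)
  obtain ⟨w', a, ha0, hz, hx⟩ := (h.tr w c).uniqT hmap hinj
  have hw1 : w' = 1 := by
    apply R.inj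
    apply LinearMap.ext
    intro v
    rw [map_one, Module.End.one_apply]
    exact (hinj (hz v)).symm
  subst hw1
  simp only [one_mul] at hx
  have hsum : ∀ f : G → F, ∑ x, f (w * x * c⁻¹) = ∑ x, f x := by
    intro f
    rw [← Equiv.sum_comp ((Equiv.mulLeft w).trans (Equiv.mulRight c⁻¹)) f]
    rfl
  have ha1 : a = 1 := by
    have h2 : τ (∑ x, φ x) = a * ∑ x, φ (w * x * c⁻¹) := by
      rw [map_sum, Finset.mul_sum]
      exact Finset.sum_congr rfl fun x _ => hx x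
    rw [hsum φ, h1, map_one, mul_one] at h2
    exact h2.symm
  subst ha1
  simp only [one_mul] at hx
  rw [map_sum, ← hsum (fun x => ((R.chi x : ℚ) : F) * φ x), Finset.mul_sum]
  refine Finset.sum_congr rfl fun x _ => ?_
  rw [map_mul, map_ratCast, hx]
  simp only [R.chi_mul, R.chi_inv]
  push_cast
  have s1 : ((R.chi w : ℚ) : F) * ((R.chi w : ℚ) : F) = 1 := by
    rcases R.chi_sq w with h2 | h2 <;> rw [h2] <;> norm_num
  have s2 : ((R.chi c : ℚ) : F) * ((R.chi c : ℚ) : F) = 1 := by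
    rcases R.chi_sq c with h2 | h2 <;> rw [h2] <;> norm_num
  linear_combination (-((R.chi c : ℚ) : F) * ((R.chi c : ℚ) : F) * ((R.chi x : ℚ) : F) *
    φ (w * x * c⁻¹)) * s1 - ((R.chi x : ℚ) : F) * φ (w * x * c⁻¹) * s2

end CM83
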