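import Pool.Agent.H.MP_83e36b_nt.cm.Exist
import Pool.Agent.H.MP_83e36b_nt.cm.Sgn
import Pool.Agent.H.DiscRat.VInd

/-! Module CoreEx: the main theorem of the general theory. -/

namespace CM83

variable {n : ℕ} {G : Type} [Group G] [Fintype G] (R : RD n G)

/-- the values of an additive map lie in the field generated by the values at the basis -/
private theorem coreEx_mem {k Ω : Type*} [Field k] [Field Ω] [CharZero Ω] [Algebra k Ω]
    (θ : V n →+ Ω) (v : V n) :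
    θ v ∈ IntermediateField.adjoin k (Set.range fun i => θ (Pi.single i 1)) := by
  have h1 : v = ∑ i, v i • (Pi.single i 1 : V n) := by
    funext j
    simp [Finset.sum_apply, Pi.single_apply]
  rw [h1, map_sum]
  refine sum_mem fun i _ => ?_
  rw [map_q]
  refine mul_mem (SubfieldClass.ratCast_mem _ _) ?_
  exact IntermediateField.subset_adjoin _ _ ⟨i, rfl⟩

theorem core_exists {k Ω : Type*} [Field k] [Field Ω] [CharZero Ω] [IsAlgClosed Ω] [Algebra k Ω]
    {ζ : V n →+ Ω} (hζ : AlgebraicIndependent k fun i => ζ (Pi.single i 1)) :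
    ∃ (θ : V n →+ Ω) (w1 : G), Core k R ζ θ w1 := by
  have hinj : Function.Injective ζ := inj_of_algInd hζ
  obtain ⟨lam, mu, φ0, h0⟩ := R.exists_CM hζ
  have hs := h0.sum_ne_zero hinj
  obtain ⟨φ, h, h1⟩ : ∃ φ : G → Ω, R.IsCM ζ lam mu φ ∧ ∑ w, φ w = 1 :=
    ⟨fun x => (∑ w, φ0 w)⁻¹ * φ0 x, h0.smul (inv_ne_zero hs), by
      rw [← Finset.mul_sum, inv_mul_cancel₀ hs]⟩
  obtain ⟨w1, hl1, hm1⟩ := h.exists_w1 hinj
  have hlam : ∀ v, lam v = ((lam + mu) v - (lam + mu) (R.ρ w1 v)) / 2 := by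
    intro v
    rw [AddMonoidHom.add_apply, AddMonoidHom.add_apply, hl1, hm1]
    ring
  have hmu : ∀ v, mu v = ((lam + mu) v + (lam + mu) (R.ρ w1 v)) / 2 := by
    intro v
    rw [AddMonoidHom.add_apply, AddMonoidHom.add_apply, hl1, hm1]
    ring
  have hmem2 : ∀ K : IntermediateField k Ω, (2 : Ω) ∈ K := fun K => by
    simp
  have hlK : ∀ K : IntermediateField k Ω, (∀ v, (lam + mu) v ∈ K) → ∀ v, lam v ∈ K := by
    intro K hK v
    rw [hlam]
    exact div_mem (sub_mem (hK _) (hK _)) (hmem2 K)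
  have hmK : ∀ K : IntermediateField k Ω, (∀ v, (lam + mu) v ∈ K) → ∀ v, mu v ∈ K := by
    intro K hK v
    rw [hmu]
    exact div_mem (add_mem (hK _) (hK _)) (hmem2 K)
  have halg : ∀ K : IntermediateField k Ω, (∀ v, (lam + mu) v ∈ K) → ∀ v, IsAlgebraic K (ζ v) :=
    fun K hK v => h.algebraic K (hlK K hK) (hmK K hK) v
  have hθalg : AlgebraicIndependent k fun i => (lam + mu) (Pi.single i 1) :=
    DiscRat.algInd_of hζ fun i => halg _ (fun v => coreEx_mem (lam + mu) v) _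
  have hθ : Function.Injective (lam + mu) := inj_of_algInd hθalg
  have hτl : ∀ (τ : Ω ≃ₐ[k] Ω) (c : G), c * w1 = w1 * c →
      (∀ v, τ ((lam + mu) v) = (lam + mu) (R.ρ c v)) → ∀ v, τ (lam v) = lam (R.ρ c v) := by
    intro τ c hc hτ v
    have h2 : R.ρ c (R.ρ w1 v) = R.ρ w1 (R.ρ c v) := by
      rw [← Module.End.mul_apply, ← map_mul, hc, map_mul, Module.End.mul_apply]
    rw [hlam v, hlam (R.ρ c v), map_div₀, map_sub, hτ, hτ, h2, map_ofNat]
  have hτm : ∀ (τ : Ω ≃ₐ[k] Ω) (c : G), c * w1 = w1 * c →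
      (∀ v, τ ((lam + mu) v) = (lam + mu) (R.ρ c v)) → ∀ v, τ (mu v) = mu (R.ρ c v) := by
    intro τ c hc hτ v
    have h2 : R.ρ c (R.ρ w1 v) = R.ρ w1 (R.ρ c v) := by
      rw [← Module.End.mul_apply, ← map_mul, hc, map_mul, Module.End.mul_apply]
    rw [hmu v, hmu (R.ρ c v), map_div₀, map_add, hτ, hτ, h2, map_ofNat]
  refine ⟨lam + mu, w1, ?_, ?_, hθ, ?_, ?_, ?_, ?_⟩
  · apply R.inj
    apply LinearMap.ext
    intro v
    apply hθ
    rw [map_mul, Module.End.mul_apply, map_one, Module.End.one_apply, AddMonoidHom.add_apply,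
      AddMonoidHom.add_apply, hl1, hl1, hm1, hm1, neg_neg]
  · intro s hs' he
    apply h.reg s hs'
    have h2 := hl1 (R.a s)
    rw [he] at h2
    exact self_eq_neg.1 h2
  · intro v
    exact halg (IntermediateField.adjoin k (Set.range (lam + mu)))
      (fun u => IntermediateField.subset_adjoin k (Set.range (lam + mu)) (Set.mem_range_self u)) v
  · intro τ w hτ
    have h2 := (h.map (τ : Ω →+* Ω)).tr w⁻¹ 1
    have h3 : R.tw ((τ : Ω →+* Ω).toAddMonoidHom.comp ζ) w⁻¹ = ζ := by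
      refine AddMonoidHom.ext fun v => ?_
      show τ (ζ (R.ρ w⁻¹ v)) = ζ v
      rw [hτ, R.ρ_inv']
    rw [h3] at h2
    obtain ⟨c, hc1, hc2⟩ := h.uniq h2 hinj
    have hc1' : ∀ v, τ (lam v) = lam (R.ρ c v) := by
      intro v
      rw [← hc1 v]
      show τ (lam v) = τ (lam (R.ρ 1 v))
      rw [map_one, Module.End.one_apply]
    have hc2' : ∀ v, τ (mu v) = mu (R.ρ c v) := by
      intro v
      rw [← hc2 v]
      show τ (mu v) = τ (mu (R.ρ 1 v))
      rw [map_one, Module.End.one_apply]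
    refine ⟨c, ?_, ?_⟩
    · apply R.inj
      apply LinearMap.ext
      intro v
      apply hθ
      rw [map_mul, map_mul, Module.End.mul_apply, Module.End.mul_apply, AddMonoidHom.add_apply,
        AddMonoidHom.add_apply, ← hc1', ← hc2', hl1, hm1, hl1, hm1, map_neg, hc1', hc2']
    · intro v
      rw [AddMonoidHom.add_apply, AddMonoidHom.add_apply, map_add, hc1', hc2']
  · intro τ c hc hτ
    have h2 := h.map (τ : Ω →+* Ω)
    have h3 := h.tr 1 c
    have e1 : (τ : Ω →+* Ω).toAddMonoidHom.comp lam = R.tw lam c := by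
      exact AddMonoidHom.ext fun v => hτl τ c hc hτ v
    have e2 : (τ : Ω →+* Ω).toAddMonoidHom.comp mu = R.tw mu c := by
      exact AddMonoidHom.ext fun v => hτm τ c hc hτ v
    have e3 : R.tw ζ 1 = ζ := by
      refine AddMonoidHom.ext fun v => ?_
      rw [RD.tw_apply, map_one, Module.End.one_apply]
    rw [e1, e2] at h2
    rw [e3] at h3
    obtain ⟨w, a, -, hw, -⟩ := h3.uniqT h2 hinj
    exact ⟨w, hw⟩
  · refine ⟨∑ c, ((R.chi c : ℚ) : Ω) * φ c, h.j_sq hinj hθ h1 hl1 hm1, ?_⟩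
    intro τ w c hc hw hτ
    exact h.j_map hinj h1 (τ : Ω →+* Ω) hw (hτl τ c hc hτ) (hτm τ c hc hτ)

theorem Core.conj {k Ω : Type*} [Field k] [Field Ω] [CharZero Ω] [Algebra k Ω]
    {R : RD n G} {ζ θ : V n →+ Ω} {w1 : G} (h : Core k R ζ θ w1) (g : G) :
    Core k R ζ (R.tw θ g) (g⁻¹ * w1 * g) := by
  have hc1 : ∀ c : G, c * w1 = w1 * c →
      (g⁻¹ * c * g) * (g⁻¹ * w1 * g) = (g⁻¹ * w1 * g) * (g⁻¹ * c * g) := by
    intro c hc
    calc (g⁻¹ * c * g) * (g⁻¹ * w1 * g) = g⁻¹ * (c * w1) * g := by group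
      _ = g⁻¹ * (w1 * c) * g := by rw [hc]
      _ = _ := by group
  have hc2 : ∀ c : G, c * (g⁻¹ * w1 * g) = (g⁻¹ * w1 * g) * c →
      (g * c * g⁻¹) * w1 = w1 * (g * c * g⁻¹) := by
    intro c hc
    calc (g * c * g⁻¹) * w1 = g * (c * (g⁻¹ * w1 * g)) * g⁻¹ := by group
      _ = g * ((g⁻¹ * w1 * g) * c) * g⁻¹ := by rw [hc]
      _ = _ := by group
  have hc3 : ∀ (τ : Ω ≃ₐ[k] Ω) (c : G), (∀ v, τ (R.tw θ g v) = R.tw θ g (R.ρ c v)) →
      ∀ v, τ (θ v) = θ (R.ρ (g * c * g⁻¹) v) := by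
    intro τ c hτ v
    have h2 := hτ (R.ρ g⁻¹ v)
    rw [RD.tw_apply, RD.tw_apply, R.ρ_inv'] at h2
    rw [h2, map_mul, map_mul, Module.End.mul_apply, Module.End.mul_apply]
  refine ⟨?_, ?_, ?_, ?_, ?_, ?_, ?_⟩
  · calc g⁻¹ * w1 * g * (g⁻¹ * w1 * g) = g⁻¹ * (w1 * w1) * g := by group
      _ = 1 := by rw [h.sq]; group
  · intro s hs he
    obtain ⟨r, hr, hr'⟩ := R.root_conj g hs
    apply h.root _ (R.conj g s hs)
    have h2 : R.ρ w1 (R.ρ g (R.a s)) = R.ρ g (R.a s) := by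
      conv_rhs => rw [← he]
      rw [map_mul, map_mul, Module.End.mul_apply, Module.End.mul_apply, R.ρ_inv']
    rw [hr', map_smul] at h2
    exact smul_right_injective _ hr h2
  · exact h.inj.comp (R.ρ_injective g)
  · intro v
    have h2 : Set.range (R.tw θ g) = Set.range θ := by
      ext x
      constructor
      · rintro ⟨y, rfl⟩
        exact ⟨R.ρ g y, rfl⟩
      · rintro ⟨y, rfl⟩
        exact ⟨R.ρ g⁻¹ y, by rw [RD.tw_apply, R.ρ_inv']⟩
    rw [h2]
    exact h.alg v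
  · intro τ w hτ
    obtain ⟨c, hc, hc'⟩ := h.fwd τ w hτ
    refine ⟨g⁻¹ * c * g, hc1 c hc, fun v => ?_⟩
    rw [RD.tw_apply, RD.tw_apply, hc', map_mul, map_mul, Module.End.mul_apply,
      Module.End.mul_apply, R.ρ_inv']
  · intro τ c hc hτ
    exact h.bwd τ (g * c * g⁻¹) (hc2 c hc) (hc3 τ c hτ)
  · obtain ⟨j, hj, hj'⟩ := h.sgn
    refine ⟨j, hj, fun τ w c hc hw hτ => ?_⟩
    rw [hj' τ w (g * c * g⁻¹) (hc2 c hc) hw (hc3 τ c hτ)]
    have h2 : R.chi (g * c * g⁻¹) = R.chi c := by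
      rw [R.chi_mul, R.chi_mul, R.chi_inv]
      rcases R.chi_sq g with h3 | h3 <;> rw [h3] <;> ring
    rw [h2]

end CM83
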