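import Pool.Agent.H.MP_83e36b_nt.cm.QDefs

/-! Module QId: identities between the invariants, and roots of cubics and quartics. -/

namespace CM83

variable {F : Type*} [Field F] [CharZero F]

omit [CharZero F] in
theorem QId_u0 (y : Fin 4 → F) : qu y 0 = qs1 y ^ 2 - 4 * qs2 y := rfl

omit [CharZero F] in
theorem QId_u1 (y : Fin 4 → F) : qu y 1 = - qs1 y ^ 2 / 2 + 2 * qs2 y + 12 * qP y := rfl

omit [CharZero F] in
theorem QId_u2 (y : Fin 4 → F) : qu y 2 = - qs1 y ^ 2 / 2 + 2 * qs2 y - 12 * qP y := rfl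

theorem qu_sum (y : Fin 4 → F) : qu y 0 + qu y 1 + qu y 2 = 0 := by
  rw [QId_u0, QId_u1, QId_u2]
  ring

theorem qI_eq (y : Fin 4 → F) : qI y = - qS2 y / 12 - 3 * qA y * qa y := by
  simp only [qI, qS2, qA, qa, QId_u0, QId_u1, QId_u2]
  ring

theorem qJ_eq (y : Fin 4 → F) : qJ y = qS3 y / 8 + qS2 y * qA y ^ 2 / 16 - 27 * qa y ^ 2 +
    9 / 8 * qA y ^ 3 * qa y + qA y ^ 6 / 256 := by
  simp only [qJ, qS3, qS2, qA, qa, QId_u0, QId_u1, QId_u2]
  ring

omit [CharZero F] in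
theorem QId_disc (a b c d : F) :
    27 * ((a - b) * (a - c) * (a - d) * (b - c) * (b - d) * (c - d)) ^ 2 =
      4 * (12 * (a * b * c * d) - 3 * (a + b + c + d) *
        (a * b * c + a * b * d + a * c * d + b * c * d) +
        (a * b + a * c + a * d + b * c + b * d + c * d) ^ 2) ^ 3 -
      (72 * (a * b + a * c + a * d + b * c + b * d + c * d) * (a * b * c * d) +
        9 * (a + b + c + d) * (a * b + a * c + a * d + b * c + b * d + c * d) *
          (a * b * c + a * b * d + a * c * d + b * c * d) -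
        27 * (a * b * c + a * b * d + a * c * d + b * c * d) ^ 2 -
        27 * (a * b * c * d) * (a + b + c + d) ^ 2 -
        2 * (a * b + a * c + a * d + b * c + b * d + c * d) ^ 3) ^ 2 := by
  ring

theorem qDt_sq (y : Fin 4 → F) : 27 * qDt y ^ 2 = 4 * qI y ^ 3 - qJ y ^ 2 := by
  have h := QId_disc (y 0 ^ 2) (y 1 ^ 2) (y 2 ^ 2) (y 3 ^ 2)
  have hP : qP y ^ 2 = y 0 ^ 2 * y 1 ^ 2 * y 2 ^ 2 * y 3 ^ 2 := by
    unfold qP
    ring
  unfold qDt qI qJ
  rw [hP]
  unfold qs1 qs2 qs3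
  exact h

theorem qDu_sq (y : Fin 4 → F) : qDu y ^ 2 = - 4 * qS2 y ^ 3 - 27 * qS3 y ^ 2 := by
  have h : qu y 2 = - qu y 0 - qu y 1 := by
    have := qu_sum y
    linear_combination this
  simp only [qDu, qS2, qS3, h]
  ring

/-- the elementary symmetric functions are determined by `A`, `a` and the `u_j` -/
theorem qs_of_qu {y y' : Fin 4 → F} (hA : qA y = qA y') (ha : qa y = qa y') (hu : qu y = qu y') :
    qs1 y = qs1 y' ∧ qs2 y = qs2 y' ∧ qs3 y = qs3 y' ∧ qP y = qP y' := by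
  have h1 : qs1 y = qs1 y' := hA
  have h0 := congrFun hu 0
  have h1' := congrFun hu 1
  have h2' := congrFun hu 2
  rw [QId_u0, QId_u0] at h0
  rw [QId_u1, QId_u1] at h1'
  rw [QId_u2, QId_u2] at h2'
  have h2 : qs2 y = qs2 y' := by
    have h4 : (4 : F) ≠ 0 := by norm_num
    apply mul_left_cancel₀ h4
    rw [h1] at h0
    linear_combination -h0
  have hP : qP y = qP y' := by
    have h4 : (24 : F) ≠ 0 := by norm_num
    apply mul_left_cancel₀ h4
    linear_combination h1' - h2'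
  refine ⟨h1, h2, ?_, hP⟩
  unfold qa at ha
  rw [h1, h2] at ha
  linear_combination ha

omit [CharZero F] in
theorem QId_perm4 {u u' : Fin 4 → F}
    (h1 : u 0 + u 1 + u 2 + u 3 = u' 0 + u' 1 + u' 2 + u' 3)
    (h2 : u 0 * u 1 + u 0 * u 2 + u 0 * u 3 + u 1 * u 2 + u 1 * u 3 + u 2 * u 3 =
      u' 0 * u' 1 + u' 0 * u' 2 + u' 0 * u' 3 + u' 1 * u' 2 + u' 1 * u' 3 + u' 2 * u' 3)
    (h3 : u 0 * u 1 * u 2 + u 0 * u 1 * u 3 + u 0 * u 2 * u 3 + u 1 * u 2 * u 3 =
      u' 0 * u' 1 * u' 2 + u' 0 * u' 1 * u' 3 + u' 0 * u' 2 * u' 3 + u' 1 * u' 2 * u' 3)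
    (h4 : u 0 * u 1 * u 2 * u 3 = u' 0 * u' 1 * u' 2 * u' 3) (hu : Function.Injective u') :
    ∃ p : Equiv.Perm (Fin 4), ∀ j, u j = u' (p j) := by
  have key : ∀ x : F, (x - u 0) * (x - u 1) * (x - u 2) * (x - u 3) =
      (x - u' 0) * (x - u' 1) * (x - u' 2) * (x - u' 3) := by
    intro x
    linear_combination (-x ^ 3) * h1 + x ^ 2 * h2 - x * h3 + h4
  have hex : ∀ j, ∃ k, u j = u' k := by
    intro j
    have h := key (u j)
    have h0 : (u j - u 0) * (u j - u 1) * (u j - u 2) * (u j - u 3) = 0 := by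
      fin_cases j <;> simp
    rw [h0] at h
    have h := h.symm
    rcases mul_eq_zero.1 h with h | h
    · rcases mul_eq_zero.1 h with h | h
      · rcases mul_eq_zero.1 h with h | h
        · exact ⟨0, sub_eq_zero.1 h⟩
        · exact ⟨1, sub_eq_zero.1 h⟩
      · exact ⟨2, sub_eq_zero.1 h⟩
    · exact ⟨3, sub_eq_zero.1 h⟩
  have hex' : ∀ k, ∃ j, u j = u' k := by
    intro k
    have h := key (u' k)
    have h0 : (u' k - u' 0) * (u' k - u' 1) * (u' k - u' 2) * (u' k - u' 3) = 0 := by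
      fin_cases k <;> simp
    rw [h0] at h
    rcases mul_eq_zero.1 h with h | h
    · rcases mul_eq_zero.1 h with h | h
      · rcases mul_eq_zero.1 h with h | h
        · exact ⟨0, (sub_eq_zero.1 h).symm⟩
        · exact ⟨1, (sub_eq_zero.1 h).symm⟩
      · exact ⟨2, (sub_eq_zero.1 h).symm⟩
    · exact ⟨3, (sub_eq_zero.1 h).symm⟩
  choose p hp using hex
  have hsurj : Function.Surjective p := by
    intro k
    obtain ⟨j, hj⟩ := hex' k
    refine ⟨j, hu ?_⟩
    rw [← hp, hj]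
  refine ⟨Equiv.ofBijective p (Finite.injective_iff_bijective.1
    (Finite.injective_iff_surjective.2 hsurj)), fun j => ?_⟩
  rw [Equiv.ofBijective_apply]
  exact hp j

/-- `y` and `y'` differ by a signed permutation with an even number of signs -/
theorem signed_of_qs {y y' : Fin 4 → F} (h1 : qs1 y = qs1 y') (h2 : qs2 y = qs2 y')
    (h3 : qs3 y = qs3 y') (hP : qP y = qP y') (h0 : qP y' ≠ 0) (hD : qDt y' ≠ 0) :
    ∃ (q : Equiv.Perm (Fin 4)) (η : Fin 4 → ℤ), (∀ i, η i = 1 ∨ η i = -1) ∧ ∏ i, η i = 1 ∧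
      ∀ i, y i = (η i : F) * y' (q i) := by
  have hinj : Function.Injective (fun i => y' i ^ 2) := by
    unfold qDt at hD
    simp only [ne_eq, mul_eq_zero, not_or, sub_eq_zero] at hD
    obtain ⟨⟨⟨⟨⟨a1, a2⟩, a3⟩, a4⟩, a5⟩, a6⟩ := hD
    intro i j hij
    simp only at hij
    fin_cases i <;> fin_cases j <;> first
      | rfl
      | exact absurd hij a1
      | exact absurd hij a2
      | exact absurd hij a3
      | exact absurd hij a4
      | exact absurd hij a5
      | exact absurd hij a6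
      | exact absurd hij.symm a1
      | exact absurd hij.symm a2
      | exact absurd hij.symm a3
      | exact absurd hij.symm a4
      | exact absurd hij.symm a5
      | exact absurd hij.symm a6
  have hP2 : y 0 ^ 2 * y 1 ^ 2 * y 2 ^ 2 * y 3 ^ 2 = y' 0 ^ 2 * y' 1 ^ 2 * y' 2 ^ 2 * y' 3 ^ 2 := by
    unfold qP at hP
    have : (y 0 * y 1 * y 2 * y 3) ^ 2 = (y' 0 * y' 1 * y' 2 * y' 3) ^ 2 := by rw [hP]
    linear_combination this
  obtain ⟨q, hq⟩ := QId_perm4 (u := fun i => y i ^ 2) (u' := fun i => y' i ^ 2) h1 h2 h3 hP2 hinj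
  have hη : ∀ i, ∃ e : ℤ, (e = 1 ∨ e = -1) ∧ y i = (e : F) * y' (q i) := by
    intro i
    rcases sq_eq_sq_iff_eq_or_eq_neg.1 (hq i) with h | h
    · exact ⟨1, Or.inl rfl, by rw [h]; simp⟩
    · exact ⟨-1, Or.inr rfl, by rw [h]; simp⟩
  choose η hη1 hη2 using hη
  refine ⟨q, η, hη1, ?_, hη2⟩
  have e1 : qP y = ∏ i, y i := by
    rw [Fin.prod_univ_four]
    rfl
  have e2 : qP y' = ∏ i, y' i := by
    rw [Fin.prod_univ_four]
    rfl
  have e3 : ∏ i, y i = (∏ i, (η i : F)) * ∏ i, y' i := by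
    rw [← Equiv.prod_comp q y', ← Finset.prod_mul_distrib]
    exact Finset.prod_congr rfl fun i _ => hη2 i
  have e4 : (∏ i, (η i : F)) = 1 := by
    rw [← e1, ← e2, hP] at e3
    have : (∏ i, (η i : F)) * qP y' = 1 * qP y' := by rw [← e3, one_mul]
    exact mul_right_cancel₀ h0 this
  have e5 : ((∏ i, η i : ℤ) : F) = ((1 : ℤ) : F) := by
    push_cast
    exact e4
  exact_mod_cast e5

/-- two triples with the same elementary symmetric functions -/
theorem perm_of_cubic {u u' : Fin 3 → F} (h0 : u 0 + u 1 + u 2 = u' 0 + u' 1 + u' 2)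
    (h1 : u 0 * u 1 + u 0 * u 2 + u 1 * u 2 = u' 0 * u' 1 + u' 0 * u' 2 + u' 1 * u' 2)
    (h2 : u 0 * u 1 * u 2 = u' 0 * u' 1 * u' 2) (hu : Function.Injective u') :
    ∃ p : Equiv.Perm (Fin 3), ∀ j, u j = u' (p j) := by
  have key : ∀ x : F, (x - u 0) * (x - u 1) * (x - u 2) =
      (x - u' 0) * (x - u' 1) * (x - u' 2) := by
    intro x
    linear_combination (-x ^ 2) * h0 + x * h1 - h2
  have hex : ∀ j, ∃ k, u j = u' k := by
    intro j
    have h := key (u j)
    have h0 : (u j - u 0) * (u j - u 1) * (u j - u 2) = 0 := by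
      fin_cases j <;> simp
    rw [h0] at h
    have h := h.symm
    rcases mul_eq_zero.1 h with h | h
    · rcases mul_eq_zero.1 h with h | h
      · exact ⟨0, sub_eq_zero.1 h⟩
      · exact ⟨1, sub_eq_zero.1 h⟩
    · exact ⟨2, sub_eq_zero.1 h⟩
  have hex' : ∀ k, ∃ j, u j = u' k := by
    intro k
    have h := key (u' k)
    have h0 : (u' k - u' 0) * (u' k - u' 1) * (u' k - u' 2) = 0 := by
      fin_cases k <;> simp
    rw [h0] at h
    rcases mul_eq_zero.1 h with h | h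
    · rcases mul_eq_zero.1 h with h | h
      · exact ⟨0, (sub_eq_zero.1 h).symm⟩
      · exact ⟨1, (sub_eq_zero.1 h).symm⟩
    · exact ⟨2, (sub_eq_zero.1 h).symm⟩
  choose p hp using hex
  have hsurj : Function.Surjective p := by
    intro k
    obtain ⟨j, hj⟩ := hex' k
    refine ⟨j, hu ?_⟩
    rw [← hp, hj]
  refine ⟨Equiv.ofBijective p (Finite.injective_iff_bijective.1
    (Finite.injective_iff_surjective.2 hsurj)), fun j => ?_⟩
  rw [Equiv.ofBijective_apply]
  exact hp j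

/-- linear independence of `1, u, u^2` on three points -/
theorem vander3 {u : Fin 3 → F} (hu : Function.Injective u) {d : Fin 3 → F}
    (h0 : d 0 + d 1 + d 2 = 0) (h1 : d 0 * u 0 + d 1 * u 1 + d 2 * u 2 = 0)
    (h2 : d 0 * u 0 ^ 2 + d 1 * u 1 ^ 2 + d 2 * u 2 ^ 2 = 0) : d = 0 := by
  have n01 : u 0 - u 1 ≠ 0 := sub_ne_zero.2 fun h => by simpa using hu h
  have n02 : u 0 - u 2 ≠ 0 := sub_ne_zero.2 fun h => by simpa using hu h
  have n12 : u 1 - u 2 ≠ 0 := sub_ne_zero.2 fun h => by simpa using hu h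
  have a0 : d 0 * ((u 0 - u 1) * (u 0 - u 2)) = 0 := by
    linear_combination h2 - (u 1 + u 2) * h1 + u 1 * u 2 * h0
  have a1 : d 1 * ((u 0 - u 1) * (u 1 - u 2)) = 0 := by
    linear_combination -(h2 - (u 0 + u 2) * h1 + u 0 * u 2 * h0)
  have a2 : d 2 * ((u 0 - u 2) * (u 1 - u 2)) = 0 := by
    linear_combination h2 - (u 0 + u 1) * h1 + u 0 * u 1 * h0
  funext i
  fin_cases i
  · exact (mul_eq_zero.1 a0).resolve_right (mul_ne_zero n01 n02)
  · exact (mul_eq_zero.1 a1).resolve_right (mul_ne_zero n01 n12)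
  · exact (mul_eq_zero.1 a2).resolve_right (mul_ne_zero n02 n12)

end CM83
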