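import Pool.Agent.H.MP_83e36b_nt.cm.E6Fin
import Pool.Agent.H.MP_83e36b_nt.cm.QId

/-! Module E6Del: the product of the roots. -/

namespace CM83

theorem E6Del_toQ_inj : Function.Injective toQ := by
  intro u v h
  funext i
  have h1 := congrFun h i
  simp only [toQ] at h1
  exact_mod_cast h1

theorem E6Del_nodup : (posZ.map toQ).Nodup :=
  List.Nodup.map E6Del_toQ_inj (by decide)

theorem E6Del_prod {M : Type*} [CommMonoid M] (f : V 6 → M) :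
    ∏ α ∈ pos6, f α = (posZ.map fun v => f (toQ v)).prod := by
  rw [pos6, List.prod_toFinset _ E6Del_nodup, List.map_map]
  rfl

/-- the value at a root of a form vanishing on the two-dimensional part -/
def E6Del_L {F : Type*} [Field F] (y : Fin 4 → F) (v : Fin 6 → ℤ) : F :=
  ((v 0 : F) * y 0 + (v 1 : F) * y 1 + (v 2 : F) * y 2 + (v 3 : F) * y 3) / 2

theorem E6Del_val {F : Type*} [Field F] [CharZero F] (lam : V 6 →+ F)
    (h4 : lam (Pi.single 4 1) = 0) (h5 : lam (Pi.single 5 1) = 0) (v : Fin 6 → ℤ) :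
    lam (toQ v) = E6Del_L (y6 lam) v := by
  have h1 : toQ v = ∑ i, (v i : ℚ) • (Pi.single i 1 : V 6) := by
    funext j
    simp [toQ, Finset.sum_apply, Pi.single_apply]
  have h2 : ∀ (q : ℚ) (u : V 6), lam (q • u) = (q : F) * lam u := by
    intro q u
    have h := map_ratCast_smul lam ℚ F q u
    rwa [Rat.cast_id, smul_eq_mul] at h
  rw [h1, map_sum]
  simp only [h2, Fin.sum_univ_six, h4, h5, Rat.cast_intCast, mul_zero, add_zero, E6Del_L, y6]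
  have e0 : (Fin.castLE (by norm_num) (0 : Fin 4) : Fin 6) = 0 := rfl
  have e1 : (Fin.castLE (by norm_num) (1 : Fin 4) : Fin 6) = 1 := rfl
  have e2 : (Fin.castLE (by norm_num) (2 : Fin 4) : Fin 6) = 2 := rfl
  have e3 : (Fin.castLE (by norm_num) (3 : Fin 4) : Fin 6) = 3 := rfl
  rw [e0, e1, e2, e3]
  ring

theorem E6Del_list {F : Type*} [Field F] [CharZero F] (y : Fin 4 → F) :
    (posZ.map (E6Del_L y)).prod =
      (y 0 + y 1) * ((y 0 - y 1) * ((y 0 + y 2) * ((y 0 - y 2) * ((y 0 + y 3) * ((y 0 - y 3) *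
      (y 0 * (y 0 * ((y 1 + y 2) * ((y 1 - y 2) * ((y 1 + y 3) * ((y 1 - y 3) * (y 1 * (y 1 *
      ((y 2 + y 3) * ((y 2 - y 3) * (y 2 * (y 2 * (y 3 * (y 3 * (((y 0 + y 1 + y 2 + y 3) / 2) *
      (((y 0 + y 1 + y 2 - y 3) / 2) * (((y 0 + y 1 - y 2 + y 3) / 2) * (((y 0 + y 1 - y 2 - y
      3) / 2) * (((y 0 - y 1 + y 2 + y 3) / 2) * (((y 0 - y 1 + y 2 - y 3) / 2) * (((y 0 - y 1 -
      y 2 + y 3) / 2) * (((y 0 - y 1 - y 2 - y 3) / 2) * ((-(y 0 - y 1 - y 2 - y 3) / 2) * ((-(y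
      0 - y 1 - y 2 + y 3) / 2) * ((-(y 0 - y 1 + y 2 - y 3) / 2) * ((-(y 0 - y 1 + y 2 + y 3) /
      2) * ((-(y 0 + y 1 - y 2 - y 3) / 2) * ((-(y 0 + y 1 - y 2 + y 3) / 2) * ((-(y 0 + y 1 + y
      2 - y 3) / 2) * ((-(y 0 + y 1 + y 2 + y 3) / 2) * (1)))))))))))))))))))))))))))))))))))) := by
  simp only [posZ, List.map_cons, List.map_nil, List.prod_cons, List.prod_nil]
  have e0 : E6Del_L y ![2, 2, 0, 0, 0, 0] = (y 0 + y 1) := by
    simp [E6Del_L] <;> ring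
  have e1 : E6Del_L y ![2, -2, 0, 0, 0, 0] = (y 0 - y 1) := by
    simp [E6Del_L] <;> ring
  have e2 : E6Del_L y ![2, 0, 2, 0, 0, 0] = (y 0 + y 2) := by
    simp [E6Del_L] <;> ring
  have e3 : E6Del_L y ![2, 0, -2, 0, 0, 0] = (y 0 - y 2) := by
    simp [E6Del_L] <;> ring
  have e4 : E6Del_L y ![2, 0, 0, 2, 0, 0] = (y 0 + y 3) := by
    simp [E6Del_L] <;> ring
  have e5 : E6Del_L y ![2, 0, 0, -2, 0, 0] = (y 0 - y 3) := by
    simp [E6Del_L] <;> ring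
  have e6 : E6Del_L y ![2, 0, 0, 0, 2, 0] = y 0 := by
    simp [E6Del_L] <;> ring
  have e7 : E6Del_L y ![2, 0, 0, 0, -2, 0] = y 0 := by
    simp [E6Del_L] <;> ring
  have e8 : E6Del_L y ![0, 2, 2, 0, 0, 0] = (y 1 + y 2) := by
    simp [E6Del_L] <;> ring
  have e9 : E6Del_L y ![0, 2, -2, 0, 0, 0] = (y 1 - y 2) := by
    simp [E6Del_L] <;> ring
  have e10 : E6Del_L y ![0, 2, 0, 2, 0, 0] = (y 1 + y 3) := by
    simp [E6Del_L] <;> ring
  have e11 : E6Del_L y ![0, 2, 0, -2, 0, 0] = (y 1 - y 3) := by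
    simp [E6Del_L] <;> ring
  have e12 : E6Del_L y ![0, 2, 0, 0, 2, 0] = y 1 := by
    simp [E6Del_L] <;> ring
  have e13 : E6Del_L y ![0, 2, 0, 0, -2, 0] = y 1 := by
    simp [E6Del_L] <;> ring
  have e14 : E6Del_L y ![0, 0, 2, 2, 0, 0] = (y 2 + y 3) := by
    simp [E6Del_L] <;> ring
  have e15 : E6Del_L y ![0, 0, 2, -2, 0, 0] = (y 2 - y 3) := by
    simp [E6Del_L] <;> ring
  have e16 : E6Del_L y ![0, 0, 2, 0, 2, 0] = y 2 := by
    simp [E6Del_L] <;> ring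
  have e17 : E6Del_L y ![0, 0, 2, 0, -2, 0] = y 2 := by
    simp [E6Del_L] <;> ring
  have e18 : E6Del_L y ![0, 0, 0, 2, 2, 0] = y 3 := by
    simp [E6Del_L] <;> ring
  have e19 : E6Del_L y ![0, 0, 0, 2, -2, 0] = y 3 := by
    simp [E6Del_L] <;> ring
  have e20 : E6Del_L y ![1, 1, 1, 1, 1, 3] = ((y 0 + y 1 + y 2 + y 3) / 2) := by
    simp [E6Del_L] <;> ring
  have e21 : E6Del_L y ![1, 1, 1, -1, -1, 3] = ((y 0 + y 1 + y 2 - y 3) / 2) := by
    simp [E6Del_L] <;> ring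
  have e22 : E6Del_L y ![1, 1, -1, 1, -1, 3] = ((y 0 + y 1 - y 2 + y 3) / 2) := by
    simp [E6Del_L] <;> ring
  have e23 : E6Del_L y ![1, 1, -1, -1, 1, 3] = ((y 0 + y 1 - y 2 - y 3) / 2) := by
    simp [E6Del_L] <;> ring
  have e24 : E6Del_L y ![1, -1, 1, 1, -1, 3] = ((y 0 - y 1 + y 2 + y 3) / 2) := by
    simp [E6Del_L] <;> ring
  have e25 : E6Del_L y ![1, -1, 1, -1, 1, 3] = ((y 0 - y 1 + y 2 - y 3) / 2) := by
    simp [E6Del_L] <;> ring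
  have e26 : E6Del_L y ![1, -1, -1, 1, 1, 3] = ((y 0 - y 1 - y 2 + y 3) / 2) := by
    simp [E6Del_L] <;> ring
  have e27 : E6Del_L y ![1, -1, -1, -1, -1, 3] = ((y 0 - y 1 - y 2 - y 3) / 2) := by
    simp [E6Del_L] <;> ring
  have e28 : E6Del_L y ![-1, 1, 1, 1, -1, 3] = (-(y 0 - y 1 - y 2 - y 3) / 2) := by
    simp [E6Del_L] <;> ring
  have e29 : E6Del_L y ![-1, 1, 1, -1, 1, 3] = (-(y 0 - y 1 - y 2 + y 3) / 2) := by
    simp [E6Del_L] <;> ring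
  have e30 : E6Del_L y ![-1, 1, -1, 1, 1, 3] = (-(y 0 - y 1 + y 2 - y 3) / 2) := by
    simp [E6Del_L] <;> ring
  have e31 : E6Del_L y ![-1, 1, -1, -1, -1, 3] = (-(y 0 - y 1 + y 2 + y 3) / 2) := by
    simp [E6Del_L] <;> ring
  have e32 : E6Del_L y ![-1, -1, 1, 1, 1, 3] = (-(y 0 + y 1 - y 2 - y 3) / 2) := by
    simp [E6Del_L] <;> ring
  have e33 : E6Del_L y ![-1, -1, 1, -1, -1, 3] = (-(y 0 + y 1 - y 2 + y 3) / 2) := by
    simp [E6Del_L] <;> ring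
  have e34 : E6Del_L y ![-1, -1, -1, 1, -1, 3] = (-(y 0 + y 1 + y 2 - y 3) / 2) := by
    simp [E6Del_L] <;> ring
  have e35 : E6Del_L y ![-1, -1, -1, -1, 1, 3] = (-(y 0 + y 1 + y 2 + y 3) / 2) := by
    simp [E6Del_L] <;> ring
  rw [e0, e1, e2, e3, e4, e5, e6, e7, e8, e9, e10, e11, e12, e13, e14, e15, e16, e17, e18, e19, e20, e21, e22, e23, e24, e25, e26, e27, e28, e29, e30, e31, e32, e33, e34, e35]

theorem E6Del_f1 {F : Type*} [Field F] [CharZero F] (y : Fin 4 → F) :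
    qDu y = 54 * (y 0 * y 1 * y 2 * y 3) *
      ((y 0 + y 1 + y 2 + y 3) * (y 0 + y 1 + y 2 - y 3) * (y 0 + y 1 - y 2 + y 3) * (y 0 + y 1 - y 2 - y 3) * (y 0 - y 1 + y 2 + y 3) * (y 0 - y 1 + y 2 - y 3) * (y 0 - y 1 - y 2 + y 3) * (y 0 - y 1 - y 2 - y 3)) := by
  have h1 : qu y 0 - qu y 1 = 3 / 2 * ((y 0 + y 1 + y 2 - y 3) * (y 0 + y 1 - y 2 + y 3) * (y 0 - y 1 + y 2 + y 3) * (y 0 - y 1 - y 2 - y 3)) := by
    simp only [qu, qs1, qs2, qP, Matrix.cons_val_zero, Matrix.cons_val_one]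
    ring
  have h2 : qu y 0 - qu y 2 = 3 / 2 * ((y 0 + y 1 + y 2 + y 3) * (y 0 + y 1 - y 2 - y 3) * (y 0 - y 1 + y 2 - y 3) * (y 0 - y 1 - y 2 + y 3)) := by
    simp only [qu, qs1, qs2, qP, Matrix.cons_val_zero, Matrix.cons_val]
    ring
  have h3 : qu y 1 - qu y 2 = 24 * (y 0 * y 1 * y 2 * y 3) := by
    simp only [qu, qs1, qs2, qP, Matrix.cons_val_one, Matrix.cons_val]
    ring
  rw [qDu, h1, h2, h3]
  generalize y 0 + y 1 + y 2 + y 3 = a1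
  generalize y 0 + y 1 + y 2 - y 3 = a2
  generalize y 0 + y 1 - y 2 + y 3 = a3
  generalize y 0 + y 1 - y 2 - y 3 = a4
  generalize y 0 - y 1 + y 2 + y 3 = a5
  generalize y 0 - y 1 + y 2 - y 3 = a6
  generalize y 0 - y 1 - y 2 + y 3 = a7
  generalize y 0 - y 1 - y 2 - y 3 = a8
  ring

theorem E6Del_qDt {F : Type*} [Field F] (y : Fin 4 → F) :
    qDt y = ((y 0 + y 1) * (y 0 - y 1)) * ((y 0 + y 2) * (y 0 - y 2)) *
      ((y 0 + y 3) * (y 0 - y 3)) * ((y 1 + y 2) * (y 1 - y 2)) * ((y 1 + y 3) * (y 1 - y 3)) *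
      ((y 2 + y 3) * (y 2 - y 3)) := by
  simp only [qDt, ← sq_sub_sq]

/-- the product of the roots at a point of the four-dimensional part -/
theorem E6_prod {F : Type*} [Field F] [CharZero F] (lam : V 6 →+ F)
    (h4 : lam (Pi.single 4 1) = 0) (h5 : lam (Pi.single 5 1) = 0) :
    ∏ α ∈ pos6, lam α = qDt (y6 lam) * qDu (y6 lam) ^ 2 / 13824 ^ 2 := by
  rw [E6Del_prod]
  simp only [E6Del_val lam h4 h5]
  rw [E6Del_list, E6Del_f1, E6Del_qDt]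
  generalize y6 lam = y
  generalize y 0 + y 1 = gp01
  generalize y 0 - y 1 = gm01
  generalize y 0 + y 2 = gp02
  generalize y 0 - y 2 = gm02
  generalize y 0 + y 3 = gp03
  generalize y 0 - y 3 = gm03
  generalize y 1 + y 2 = gp12
  generalize y 1 - y 2 = gm12
  generalize y 1 + y 3 = gp13
  generalize y 1 - y 3 = gm13
  generalize y 2 + y 3 = gp23
  generalize y 2 - y 3 = gm23
  generalize y 0 + y 1 + y 2 + y 3 = glppp
  generalize y 0 + y 1 + y 2 - y 3 = glppm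
  generalize y 0 + y 1 - y 2 + y 3 = glpmp
  generalize y 0 + y 1 - y 2 - y 3 = glpmm
  generalize y 0 - y 1 + y 2 + y 3 = glmpp
  generalize y 0 - y 1 + y 2 - y 3 = glmpm
  generalize y 0 - y 1 - y 2 + y 3 = glmmp
  generalize y 0 - y 1 - y 2 - y 3 = glmmm
  generalize y 0 = z0
  generalize y 1 = z1
  generalize y 2 = z2
  generalize y 3 = z3
  ring

end CM83
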