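import Pool.Agent.H.MP_83e36b_nt.cm.Defs

/-! Module Basic: elementary facts on reflections. -/

namespace CM83

theorem map_q {n : ℕ} {F : Type*} [Field F] [CharZero F] (ξ : V n →+ F) (q : ℚ) (v : V n) :
    ξ (q • v) = (q : F) * ξ v := by
  have h := map_ratCast_smul ξ ℚ F q v
  rwa [Rat.cast_id, smul_eq_mul] at h

namespace RD

variable {n : ℕ} {G : Type} [Group G] (R : RD n G)

theorem norm_pos {s : G} (hs : s ∈ R.S) : 0 < R.B (R.a s) (R.a s) :=
  R.pos _ (R.a_ne s hs)

theorem refl_a {s : G} (hs : s ∈ R.S) : R.ρ s (R.a s) = - R.a s := by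
  have h := R.norm_pos hs
  rw [R.refl s hs, mul_div_assoc, div_self h.ne', mul_one, two_smul]
  abel

theorem basic_refl_refl {s : G} (hs : s ∈ R.S) (v : V n) : R.ρ s (R.ρ s v) = v := by
  rw [R.refl s hs v, map_sub, map_smul, R.refl_a hs, R.refl s hs v, smul_neg]
  abel

theorem sq_one {s : G} (hs : s ∈ R.S) : s * s = 1 := by
  apply R.inj
  apply LinearMap.ext
  intro v
  rw [map_mul, map_one, Module.End.mul_apply, Module.End.one_apply, R.basic_refl_refl hs]

theorem inv_self {s : G} (hs : s ∈ R.S) : s⁻¹ = s :=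
  inv_eq_of_mul_eq_one_right (R.sq_one hs)

theorem ne_one {s : G} (hs : s ∈ R.S) : s ≠ 1 := by
  rintro rfl
  have h := R.refl_a hs
  rw [map_one, Module.End.one_apply] at h
  exact R.a_ne 1 hs (self_eq_neg.1 h)

theorem ρ_inv (g : G) (v : V n) : R.ρ g⁻¹ (R.ρ g v) = v := by
  rw [← Module.End.mul_apply, ← map_mul, inv_mul_cancel, map_one, Module.End.one_apply]

theorem ρ_inv' (g : G) (v : V n) : R.ρ g (R.ρ g⁻¹ v) = v := by
  rw [← Module.End.mul_apply, ← map_mul, mul_inv_cancel, map_one, Module.End.one_apply]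

theorem B_inv_left (g : G) (u v : V n) : R.B (R.ρ g⁻¹ u) v = R.B u (R.ρ g v) := by
  have h := R.inv g (R.ρ g⁻¹ u) v
  rw [R.ρ_inv'] at h
  exact h.symm

/-- the root of the conjugate reflection -/
theorem root_conj (g : G) {s : G} (hs : s ∈ R.S) :
    ∃ r : ℚ, r ≠ 0 ∧ R.ρ g (R.a s) = r • R.a (g * s * g⁻¹) := by
  have hs' := R.conj g s hs
  have h1 : R.ρ (g * s * g⁻¹) (R.ρ g (R.a s)) = - R.ρ g (R.a s) := by
    rw [map_mul, map_mul, Module.End.mul_apply, Module.End.mul_apply, R.ρ_inv, R.refl_a hs,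
      map_neg]
  rw [R.refl _ hs'] at h1
  generalize 2 * (R.B (R.ρ g (R.a s))) (R.a (g * s * g⁻¹)) /
    (R.B (R.a (g * s * g⁻¹))) (R.a (g * s * g⁻¹)) = c at h1
  have h2 : R.ρ g (R.a s) = (c / 2) • R.a (g * s * g⁻¹) := by
    have h3 : c • R.a (g * s * g⁻¹) = (2 : ℚ) • R.ρ g (R.a s) := by
      rw [two_smul]
      rw [sub_eq_iff_eq_add] at h1
      exact neg_add_eq_iff_eq_add.1 h1.symm
    rw [div_eq_inv_mul, mul_smul, h3, smul_smul]
    norm_num
  refine ⟨c / 2, ?_, h2⟩
  intro h0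
  rw [h0, zero_smul] at h2
  have h4 := R.ρ_inv g (R.a s)
  rw [h2, map_zero] at h4
  exact R.a_ne s hs h4.symm

/-- roots of different reflections are not proportional -/
theorem not_prop {s t : G} (hs : s ∈ R.S) (ht : t ∈ R.S) (h : s ≠ t) (c : ℚ) :
    R.a s ≠ c • R.a t := by
  intro h'
  have hc : c ≠ 0 := by
    rintro rfl
    rw [zero_smul] at h'
    exact R.a_ne s hs h'
  apply h
  apply R.inj
  apply LinearMap.ext
  intro v
  have hp := (R.norm_pos ht).ne'
  rw [R.refl s hs, R.refl t ht, h']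
  congr 1
  rw [smul_smul]
  congr 1
  simp only [map_smul, LinearMap.smul_apply, smul_eq_mul]
  field_simp

/-- the terms of the Dunkl operators do not depend on the lengths of the roots -/
theorem term_conj {F : Type*} [Field F] [CharZero F] (ξ : V n →+ F) (g : G) {s : G}
    (hs : s ∈ R.S) (u : V n) :
    ((R.B u (R.a s) : ℚ) : F) / ξ (R.ρ g (R.a s)) =
      ((R.B (R.ρ g u) (R.a (g * s * g⁻¹)) : ℚ) : F) / ξ (R.a (g * s * g⁻¹)) := by
  obtain ⟨r, hr, he⟩ := R.root_conj g hs
  have h1 : R.B u (R.a s) = r * R.B (R.ρ g u) (R.a (g * s * g⁻¹)) := by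
    rw [← R.inv g u (R.a s), he, map_smul, smul_eq_mul]
  rw [h1, he, map_q, Rat.cast_mul, mul_div_mul_left]
  exact Rat.cast_ne_zero.2 hr

/-- if `r (s t)` is again in `S` then the root of `r` is a combination of those of `s` and `t` -/
theorem span2 {s t r : G} (hs : s ∈ R.S) (ht : t ∈ R.S) (hr : r ∈ R.S) (hst : s ≠ t)
    (h : r * (s * t) ∈ R.S) : ∃ x y : ℚ, R.a r = x • R.a s + y • R.a t := by
  have h1 : r * (r * (s * t)) = s * t := by
    rw [← mul_assoc, R.sq_one hr, one_mul]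
  generalize r * (s * t) = t' at h h1
  have hne : r ≠ t' := by
    rintro rfl
    rw [R.sq_one hr] at h1
    apply hst
    have h2 := eq_inv_of_mul_eq_one_left h1.symm
    rw [h2, R.inv_self ht]
  obtain ⟨v0, hv0⟩ : ∃ v0, v0 = R.a r - (R.B (R.a r) (R.a t') / R.B (R.a t') (R.a t')) • R.a t' :=
    ⟨_, rfl⟩
  have hp := R.norm_pos h
  have hpr := R.norm_pos hr
  have hz : v0 ≠ 0 := by
    intro h0
    rw [h0] at hv0
    exact R.not_prop hr h hne _ (sub_eq_zero.1 hv0.symm)
  have hB : R.B v0 (R.a t') = 0 := by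
    rw [hv0, map_sub, map_smul, LinearMap.sub_apply, LinearMap.smul_apply, smul_eq_mul,
      div_mul_cancel₀ _ hp.ne', sub_self]
  have hBr : 0 < R.B v0 (R.a r) := by
    have h2 : R.a r = v0 + (R.B (R.a r) (R.a t') / R.B (R.a t') (R.a t')) • R.a t' := by
      rw [hv0]
      abel
    rw [h2, map_add, map_smul, hB, smul_zero, add_zero]
    exact R.pos _ hz
  have e1 : R.ρ (s * t) v0 = v0 - (2 * R.B v0 (R.a r) / R.B (R.a r) (R.a r)) • R.a r := by
    rw [← h1, map_mul, Module.End.mul_apply, R.refl t' h, hB, mul_zero, zero_div, zero_smul,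
      sub_zero, R.refl r hr]
  rw [map_mul, Module.End.mul_apply, R.refl s hs, R.refl t ht] at e1
  generalize 2 * R.B v0 (R.a t) / R.B (R.a t) (R.a t) = x at e1
  generalize 2 * R.B (v0 - x • R.a t) (R.a s) / R.B (R.a s) (R.a s) = y at e1
  have hc : 2 * R.B v0 (R.a r) / R.B (R.a r) (R.a r) ≠ 0 := by positivity
  generalize 2 * R.B v0 (R.a r) / R.B (R.a r) (R.a r) = c at e1 hc
  have e2 : c • R.a r = x • R.a t + y • R.a s := by
    rw [sub_sub] at e1
    exact (sub_right_injective e1).symm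
  refine ⟨c⁻¹ * y, c⁻¹ * x, ?_⟩
  rw [mul_smul, mul_smul, ← smul_add, add_comm (y • R.a s), ← e2, smul_smul, inv_mul_cancel₀ hc,
    one_smul]

/-- sums over the reflections and conjugation -/
theorem sum_conj {M : Type*} [AddCommMonoid M] (g : G) (f : G → M) :
    ∑ s ∈ R.S, f (g * s * g⁻¹) = ∑ s ∈ R.S, f s := by
  refine Finset.sum_nbij' (fun s => g * s * g⁻¹) (fun s => g⁻¹ * s * g) ?_ ?_ ?_ ?_ ?_
  · intro s hs
    exact R.conj g s hs
  · intro s hs
    have h := R.conj g⁻¹ s hs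
    rwa [inv_inv] at h
  · intro s _
    group
  · intro s _
    group
  · intro s _
    rfl

end RD

/-- an injective `ζ` does not vanish at the roots -/
theorem RD.reg_of_inj {n : ℕ} {G : Type} [Group G] (R : RD n G) {F : Type*} [Field F]
    {ζ : V n →+ F} (hζ : Function.Injective ζ) (g : G) {s : G} (hs : s ∈ R.S) :
    ζ (R.ρ g (R.a s)) ≠ 0 := by
  intro h
  have h1 : R.ρ g (R.a s) = 0 := hζ (by rw [h, map_zero])
  have h4 := R.ρ_inv g (R.a s)
  rw [h1, map_zero] at h4
  exact R.a_ne s hs h4.symm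

/-- an injective `ζ` separates the elements of the group -/
theorem RD.sep_of_inj {n : ℕ} {G : Type} [Group G] (R : RD n G) {F : Type*} [Field F]
    {ζ : V n →+ F} (hζ : Function.Injective ζ) {g h : G} (hgh : g ≠ h) :
    ∃ v, ζ (R.ρ g v) ≠ ζ (R.ρ h v) := by
  by_contra hcon
  apply hgh
  apply R.inj
  apply LinearMap.ext
  intro v
  by_contra hv
  exact hcon ⟨v, fun h1 => hv (hζ h1)⟩

theorem RD.ρ_injective {n : ℕ} {G : Type} [Group G] (R : RD n G) (g : G) :
    Function.Injective (R.ρ g) :=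
  Function.LeftInverse.injective (g := R.ρ g⁻¹) (R.ρ_inv g)

/-- algebraically independent values give an injective map -/
theorem inj_of_algInd {k Ω : Type*} [Field k] [Field Ω] [Algebra k Ω] [CharZero Ω] {n : ℕ}
    {ζ : V n →+ Ω} (h : AlgebraicIndependent k fun i => ζ (Pi.single i 1)) :
    Function.Injective ζ := by
  have hk : CharZero k := RingHom.charZero (algebraMap k Ω)
  rw [injective_iff_map_eq_zero]
  intro v hv
  have h1 : v = ∑ i, v i • (Pi.single i 1 : V n) := by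
    funext j
    simp [Finset.sum_apply, Pi.single_apply]
  rw [h1, map_sum] at hv
  have h2 := Fintype.linearIndependent_iff.1 h.linearIndependent (fun i => ((v i : ℚ) : k)) (by
    rw [← hv]
    refine Finset.sum_congr rfl fun i _ => ?_
    rw [map_q, Algebra.smul_def, map_ratCast])
  funext i
  exact Rat.cast_eq_zero.1 (h2 i)

end CM83
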