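import Pool.Agent.H.MP_83e36b_nt.cm.E6Grp
import Pool.Agent.H.MP_83e36b_nt.cm.Basic

/-! Module E6Sgn: some elements of the group. -/

namespace CM83

universe u

/-- the root `2 e_i - 2 e_j` -/
def E6Sgn_m (i j : Fin 6) : Fin 6 → ℤ := fun k => if k = i then 2 else if k = j then -2 else 0

/-- the root `2 e_i + 2 e_j` -/
def E6Sgn_p (i j : Fin 6) : Fin 6 → ℤ := fun k => if k = i then 2 else if k = j then 2 else 0

theorem E6Sgn_m_mem : ∀ i j : Fin 6, i < j → j ≠ 5 → E6Sgn_m i j ∈ posZ := by decide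

theorem E6Sgn_p_mem : ∀ i j : Fin 6, i < j → j ≠ 5 → E6Sgn_p i j ∈ posZ := by decide

theorem E6Sgn_mem_pos {a : Fin 6 → ℤ} (h : a ∈ posZ) : toQ a ∈ pos6 := by
  unfold pos6
  rw [List.mem_toFinset]
  exact List.mem_map.mpr ⟨a, h, rfl⟩

theorem E6Sgn_Bm (v : V 6) : ∀ i j : Fin 6, i < j → j ≠ 5 →
    B6 v (toQ (E6Sgn_m i j)) = 6 * (v i - v j) := by
  intro i j hij hj
  fin_cases i <;> fin_cases j <;> simp [B6_apply, toQ, E6Sgn_m] at hij hj ⊢ <;> ring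

theorem E6Sgn_Bp (v : V 6) : ∀ i j : Fin 6, i < j → j ≠ 5 →
    B6 v (toQ (E6Sgn_p i j)) = 6 * (v i + v j) := by
  intro i j hij hj
  fin_cases i <;> fin_cases j <;> simp [B6_apply, toQ, E6Sgn_p] at hij hj ⊢ <;> ring

theorem E6Sgn_rfm (v : V 6) (i j : Fin 6) (hij : i < j) (hj : j ≠ 5) :
    rf6 (toQ (E6Sgn_m i j)) v = fun k => v (Equiv.swap i j k) := by
  funext k
  unfold rf6
  rw [E6Sgn_Bm v i j hij hj, Pi.sub_apply, Pi.smul_apply, smul_eq_mul, Equiv.swap_apply_def]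
  simp only [toQ, E6Sgn_m]
  by_cases h1 : k = i
  · rw [if_pos h1, if_pos h1, h1]
    push_cast
    ring
  · rw [if_neg h1, if_neg h1]
    by_cases h2 : k = j
    · rw [if_pos h2, if_pos h2, h2]
      push_cast
      ring
    · rw [if_neg h2, if_neg h2]
      push_cast
      ring

theorem E6Sgn_rfp (v : V 6) (i j : Fin 6) (hij : i < j) (hj : j ≠ 5) :
    rf6 (toQ (E6Sgn_p i j)) v = fun k => (if k = i ∨ k = j then -1 else 1) *
      v (Equiv.swap i j k) := by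
  funext k
  unfold rf6
  rw [E6Sgn_Bp v i j hij hj, Pi.sub_apply, Pi.smul_apply, smul_eq_mul, Equiv.swap_apply_def]
  simp only [toQ, E6Sgn_p]
  by_cases h1 : k = i
  · rw [if_pos h1, if_pos h1, if_pos (Or.inl h1), h1]
    push_cast
    ring
  · rw [if_neg h1, if_neg h1]
    by_cases h2 : k = j
    · rw [if_pos h2, if_pos h2, if_pos (Or.inr h2), h2]
      push_cast
      ring
    · rw [if_neg h2, if_neg h2, if_neg (not_or.mpr ⟨h1, h2⟩)]
      push_cast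
      ring

/-- the property of `E6Sgn_mem` with rational signs -/
def E6Sgn_T (q : Equiv.Perm (Fin 4)) (η : Fin 4 → ℚ) : Prop :=
  ∃ g ∈ W6, (∀ i : Fin 4, g (Pi.single (Fin.castLE (by norm_num) i) 1) =
      η i • Pi.single (Fin.castLE (by norm_num) (q i)) 1) ∧
      g (Pi.single 4 1) = Pi.single 4 1 ∧ g (Pi.single 5 1) = Pi.single 5 1

theorem E6Sgn_T_mul {q1 q2 : Equiv.Perm (Fin 4)} {η1 η2 : Fin 4 → ℚ} (h1 : E6Sgn_T q1 η1)
    (h2 : E6Sgn_T q2 η2) : E6Sgn_T (q1 * q2) (fun i => η2 i * η1 (q2 i)) := by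
  obtain ⟨g1, hg1, a1, b1, c1⟩ := h1
  obtain ⟨g2, hg2, a2, b2, c2⟩ := h2
  refine ⟨g1 * g2, W6.mul_mem hg1 hg2, fun i => ?_, ?_, ?_⟩
  · rw [LinearEquiv.mul_apply, a2, map_smul, a1, smul_smul, Equiv.Perm.mul_apply]
  · rw [LinearEquiv.mul_apply, b2, b1]
  · rw [LinearEquiv.mul_apply, c2, c1]

theorem E6Sgn_single (i j m : Fin 6) :
    (fun k => (Pi.single m 1 : V 6) (Equiv.swap i j k)) = Pi.single (Equiv.swap i j m) 1 := by
  funext k
  rw [Pi.single_apply, Pi.single_apply]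
  refine if_congr ?_ rfl rfl
  exact Equiv.swap_apply_eq_iff

theorem E6Sgn_cast : ∀ i j m : Fin 4, Equiv.swap (Fin.castLE (by norm_num : 4 ≤ 6) i)
    (Fin.castLE (by norm_num) j) (Fin.castLE (by norm_num) m) =
      Fin.castLE (by norm_num) (Equiv.swap i j m) := by decide

theorem E6Sgn_fix4 : ∀ i j : Fin 4, Equiv.swap (Fin.castLE (by norm_num : 4 ≤ 6) i)
    (Fin.castLE (by norm_num) j) 4 = 4 := by decide

theorem E6Sgn_fix5 : ∀ i j : Fin 4, Equiv.swap (Fin.castLE (by norm_num : 4 ≤ 6) i)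
    (Fin.castLE (by norm_num) j) 5 = 5 := by decide

theorem E6Sgn_lt : ∀ i j : Fin 4, i < j → (Fin.castLE (by norm_num : 4 ≤ 6) i) <
    (Fin.castLE (by norm_num) j) ∧ Fin.castLE (by norm_num : 4 ≤ 6) j ≠ 5 := by decide

theorem E6Sgn_T_swap {i j : Fin 4} (hij : i < j) : E6Sgn_T (Equiv.swap i j) (fun _ => 1) := by
  obtain ⟨h1, h2⟩ := E6Sgn_lt i j hij
  obtain ⟨g, hg, hgv⟩ := rf6_mem _ (E6Sgn_mem_pos (E6Sgn_m_mem _ _ h1 h2))
  refine ⟨g, hg, fun m => ?_, ?_, ?_⟩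
  · rw [hgv, E6Sgn_rfm _ _ _ h1 h2, E6Sgn_single, E6Sgn_cast, one_smul]
  · rw [hgv, E6Sgn_rfm _ _ _ h1 h2, E6Sgn_single, E6Sgn_fix4]
  · rw [hgv, E6Sgn_rfm _ _ _ h1 h2, E6Sgn_single, E6Sgn_fix5]

theorem E6Sgn_T_swap' {i j : Fin 4} (hij : i < j) : E6Sgn_T (Equiv.swap i j)
    (fun k => if k = i ∨ k = j then -1 else 1) := by
  obtain ⟨h1, h2⟩ := E6Sgn_lt i j hij
  obtain ⟨g, hg, hgv⟩ := rf6_mem _ (E6Sgn_mem_pos (E6Sgn_p_mem _ _ h1 h2))
  have key : ∀ m : Fin 6, g (Pi.single m 1) = fun k =>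
      (if k = Fin.castLE (by norm_num) i ∨ k = Fin.castLE (by norm_num) j then -1 else 1) *
      (Pi.single (Equiv.swap (Fin.castLE (by norm_num) i) (Fin.castLE (by norm_num) j) m) 1 :
        V 6) k := by
    intro m
    rw [hgv, E6Sgn_rfp _ _ _ h1 h2, ← E6Sgn_single]
  refine ⟨g, hg, fun m => ?_, ?_, ?_⟩
  · rw [key, E6Sgn_cast]
    funext k
    rw [Pi.smul_apply, smul_eq_mul, Pi.single_apply]
    by_cases hk : k = Fin.castLE (by norm_num) (Equiv.swap i j m)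
    · rw [if_pos hk, mul_one, mul_one, hk]
      refine if_congr ?_ rfl rfl
      rw [Fin.castLE_inj, Fin.castLE_inj, Equiv.swap_apply_eq_iff, Equiv.swap_apply_left,
        Equiv.swap_apply_eq_iff, Equiv.swap_apply_right]
      tauto
    · rw [if_neg hk, mul_zero, mul_zero]
  · rw [key, E6Sgn_fix4]
    funext k
    rw [Pi.single_apply]
    by_cases hk : k = 4
    · rw [if_pos hk, mul_one, hk]
      have : ∀ i j : Fin 4, ¬ ((4 : Fin 6) = Fin.castLE (by norm_num) i ∨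
        (4 : Fin 6) = Fin.castLE (by norm_num) j) := by decide
      rw [if_neg (this i j)]
    · rw [if_neg hk, mul_zero]
  · rw [key, E6Sgn_fix5]
    funext k
    rw [Pi.single_apply]
    by_cases hk : k = 5
    · rw [if_pos hk, mul_one, hk]
      have : ∀ i j : Fin 4, ¬ ((5 : Fin 6) = Fin.castLE (by norm_num) i ∨
        (5 : Fin 6) = Fin.castLE (by norm_num) j) := by decide
      rw [if_neg (this i j)]
    · rw [if_neg hk, mul_zero]

theorem E6Sgn_T_pair {i j : Fin 4} (hij : i < j) : E6Sgn_T 1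
    (fun k => if k = i ∨ k = j then -1 else 1) := by
  have h := E6Sgn_T_mul (E6Sgn_T_swap hij) (E6Sgn_T_swap' hij)
  rw [Equiv.swap_mul_self] at h
  simpa using h

theorem E6Sgn_T_perm (q : Equiv.Perm (Fin 4)) : E6Sgn_T q (fun _ => 1) := by
  induction q using Equiv.Perm.swap_induction_on with
  | one =>
    refine ⟨1, W6.one_mem, fun i => ?_, rfl, rfl⟩
    rw [one_smul]
    rfl
  | swap_mul f x y hxy hf =>
    rcases lt_or_gt_of_ne hxy with h | h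
    · have h1 := E6Sgn_T_mul (E6Sgn_T_swap h) hf
      simpa using h1
    · have h1 := E6Sgn_T_mul (E6Sgn_T_swap h) hf
      rw [Equiv.swap_comm]
      simpa using h1

theorem E6Sgn_T_congr {η η' : Fin 4 → ℚ} (h : E6Sgn_T 1 η) (he : ∀ i, η' i = η i) :
    E6Sgn_T 1 η' := by
  rwa [show η' = η from funext he]

theorem E6Sgn_T_sgn (η : Fin 4 → ℤ) (hη : ∀ i, η i = 1 ∨ η i = -1) (hη' : ∏ i, η i = 1) :
    E6Sgn_T 1 (fun i => (η i : ℚ)) := by
  have h01 := E6Sgn_T_pair (i := 0) (j := 1) (by decide)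
  have h02 := E6Sgn_T_pair (i := 0) (j := 2) (by decide)
  have h03 := E6Sgn_T_pair (i := 0) (j := 3) (by decide)
  have h12 := E6Sgn_T_pair (i := 1) (j := 2) (by decide)
  have h13 := E6Sgn_T_pair (i := 1) (j := 3) (by decide)
  have h23 := E6Sgn_T_pair (i := 2) (j := 3) (by decide)
  have h0123 := E6Sgn_T_mul h01 h23
  have h00 := E6Sgn_T_mul h01 h01
  rw [mul_one] at h0123 h00
  have hv : η = ![η 0, η 1, η 2, η 3] := by
    funext i; fin_cases i <;> rfl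
  rw [Fin.prod_univ_four] at hη'
  have e0 := hη 0
  have e1 := hη 1
  have e2 := hη 2
  have e3 := hη 3
  generalize η 0 = x0 at *
  generalize η 1 = x1 at *
  generalize η 2 = x2 at *
  generalize η 3 = x3 at *
  subst hv
  rcases e0 with rfl | rfl <;> rcases e1 with rfl | rfl <;> rcases e2 with rfl | rfl <;>
    rcases e3 with rfl | rfl <;> norm_num at hη' <;>
    first
    | (refine E6Sgn_T_congr h00 ?_; intro i; fin_cases i <;> simp; done)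
    | (refine E6Sgn_T_congr h01 ?_; intro i; fin_cases i <;> simp; done)
    | (refine E6Sgn_T_congr h02 ?_; intro i; fin_cases i <;> simp; done)
    | (refine E6Sgn_T_congr h03 ?_; intro i; fin_cases i <;> simp; done)
    | (refine E6Sgn_T_congr h12 ?_; intro i; fin_cases i <;> simp; done)
    | (refine E6Sgn_T_congr h13 ?_; intro i; fin_cases i <;> simp; done)
    | (refine E6Sgn_T_congr h23 ?_; intro i; fin_cases i <;> simp; done)
    | (refine E6Sgn_T_congr h0123 ?_; intro i; fin_cases i <;> simp)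

/-- signed permutations of the first four coordinates with an even number of signs -/
theorem E6Sgn_mem (q : Equiv.Perm (Fin 4)) (η : Fin 4 → ℤ) (hη : ∀ i, η i = 1 ∨ η i = -1)
    (hη' : ∏ i, η i = 1) : ∃ g ∈ W6, (∀ i : Fin 4, g (Pi.single (Fin.castLE (by norm_num) i) 1) =
      (η i : ℚ) • Pi.single (Fin.castLE (by norm_num) (q i)) 1) ∧
      g (Pi.single 4 1) = Pi.single 4 1 ∧ g (Pi.single 5 1) = Pi.single 5 1 := by
  have h := E6Sgn_T_mul (E6Sgn_T_perm q) (E6Sgn_T_sgn η hη hη')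
  rw [mul_one] at h
  simpa [E6Sgn_T] using h

theorem E6Sgn_lin {F : Type*} [Field F] [CharZero F] (θ : V 6 →+ F) (v : V 6) :
    θ v = (v 0 : F) * θ (Pi.single 0 1) + (v 1 : F) * θ (Pi.single 1 1) +
      (v 2 : F) * θ (Pi.single 2 1) + (v 3 : F) * θ (Pi.single 3 1) +
      (v 4 : F) * θ (Pi.single 4 1) + (v 5 : F) * θ (Pi.single 5 1) := by
  have h1 : v = ∑ i, v i • (Pi.single i 1 : V 6) := by
    rw [← Finset.univ_sum_single v]
    refine Finset.sum_congr rfl fun i _ => ?_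
    rw [Finset.univ_sum_single v, ← Pi.single_smul, smul_eq_mul, mul_one]
  conv_lhs => rw [h1]
  rw [Fin.sum_univ_six]
  simp only [map_add, map_q]

/-- the property of `E6Sgn_s3` -/
def E6Sgn_Q (p : Equiv.Perm (Fin 3)) : Prop :=
  ∃ g ∈ W6, (∀ v, g (io6 v) = io6 (g v)) ∧
    ∀ (F : Type u) [Field F] [CharZero F] (θ θ' : V 6 →+ F), (∀ v, θ' v = θ (g v)) →
      (∀ j, nu6 θ' j = nu6 θ (p j)) ∧ (∀ j, qu (y6 θ') j = qu (y6 θ) (p j)) ∧
      qA (y6 θ') = qA (y6 θ) ∧ qa (y6 θ') = qa (y6 θ)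

theorem E6Sgn_Q_mul {p p' : Equiv.Perm (Fin 3)} (h : E6Sgn_Q.{u} p) (h' : E6Sgn_Q.{u} p') :
    E6Sgn_Q.{u} (p * p') := by
  obtain ⟨g, hg, hc, hF⟩ := h
  obtain ⟨g', hg', hc', hF'⟩ := h'
  refine ⟨g * g', W6.mul_mem hg hg', fun v => ?_, fun F _ _ θ θ'' h => ?_⟩
  · rw [LinearEquiv.mul_apply, LinearEquiv.mul_apply, hc', hc]
  · obtain ⟨a1, a2, a3, a4⟩ := hF F θ (θ.comp g.toLinearMap.toAddMonoidHom) (fun v => rfl)
    obtain ⟨b1, b2, b3, b4⟩ := hF' F (θ.comp g.toLinearMap.toAddMonoidHom) θ'' (fun v => h v)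
    refine ⟨fun j => ?_, fun j => ?_, ?_, ?_⟩
    · rw [b1, a1, Equiv.Perm.mul_apply]
    · rw [b2, a2, Equiv.Perm.mul_apply]
    · rw [b3, a3]
    · rw [b4, a4]

theorem E6Sgn_Q_one : E6Sgn_Q.{u} 1 := by
  refine ⟨1, W6.one_mem, fun v => rfl, fun F _ _ θ θ' h => ?_⟩
  have h1 : θ' = θ := AddMonoidHom.ext h
  rw [h1]
  exact ⟨fun _ => rfl, fun _ => rfl, rfl, rfl⟩

theorem E6Sgn_y6 {F : Type*} [Field F] (θ : V 6 →+ F) : y6 θ = ![2 * θ (Pi.single 0 1),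
    2 * θ (Pi.single 1 1), 2 * θ (Pi.single 2 1), 2 * θ (Pi.single 3 1)] := by
  funext i
  fin_cases i <;> rfl

theorem E6Sgn_Q_a : E6Sgn_Q.{u} (Equiv.swap 1 2) := by
  obtain ⟨g1, hg1, hv1⟩ := rf6_mem _ (E6Sgn_mem_pos (E6Sgn_m_mem 0 4 (by decide) (by decide)))
  obtain ⟨g2, hg2, hv2⟩ := rf6_mem _ (E6Sgn_mem_pos (E6Sgn_p_mem 0 4 (by decide) (by decide)))
  have key : ∀ v, (g1 * g2) v = ![- v 0, v 1, v 2, v 3, - v 4, v 5] := by
    intro v
    rw [LinearEquiv.mul_apply, hv2, hv1]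
    funext k
    fin_cases k <;> simp [rf6, B6_apply, toQ, E6Sgn_m, E6Sgn_p] <;> ring
  refine ⟨g1 * g2, W6.mul_mem hg1 hg2, fun v => ?_, fun F _ _ θ θ' h => ?_⟩
  · rw [key, key]
    funext k
    fin_cases k <;> simp [io6]
  · have e0 : θ' (Pi.single 0 1) = - θ (Pi.single 0 1) := by
      rw [h, key, E6Sgn_lin θ]; simp
    have e1 : θ' (Pi.single 1 1) = θ (Pi.single 1 1) := by
      rw [h, key, E6Sgn_lin θ]; simp
    have e2 : θ' (Pi.single 2 1) = θ (Pi.single 2 1) := by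
      rw [h, key, E6Sgn_lin θ]; simp
    have e3 : θ' (Pi.single 3 1) = θ (Pi.single 3 1) := by
      rw [h, key, E6Sgn_lin θ]; simp
    have e4 : θ' (Pi.single 4 1) = - θ (Pi.single 4 1) := by
      rw [h, key, E6Sgn_lin θ]; simp
    have e5 : θ' (Pi.single 5 1) = θ (Pi.single 5 1) := by
      rw [h, key, E6Sgn_lin θ]; simp
    have n0 : nu6 θ' 0 = nu6 θ 0 := by simp [nu6, e5]
    have n1 : nu6 θ' 1 = nu6 θ 2 := by simp [nu6, e5, e4]
    have n2 : nu6 θ' 2 = nu6 θ 1 := by simp [nu6, e5, e4]; ring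
    have s1 : qs1 (y6 θ') = qs1 (y6 θ) := by
      simp [qs1, E6Sgn_y6, e0, e1, e2, e3]
    have s2 : qs2 (y6 θ') = qs2 (y6 θ) := by
      simp [qs2, E6Sgn_y6, e0, e1, e2, e3]
    have s3 : qs3 (y6 θ') = qs3 (y6 θ) := by
      simp [qs3, E6Sgn_y6, e0, e1, e2, e3]
    have s4 : qP (y6 θ') = - qP (y6 θ) := by
      simp [qP, E6Sgn_y6, e0, e1, e2, e3]
    have u0 : qu (y6 θ') 0 = qu (y6 θ) 0 := by simp [qu, s1, s2]
    have u1 : qu (y6 θ') 1 = qu (y6 θ) 2 := by simp [qu, s1, s2, s4]; ring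
    have u2 : qu (y6 θ') 2 = qu (y6 θ) 1 := by simp [qu, s1, s2, s4]
    refine ⟨fun j => ?_, fun j => ?_, ?_, ?_⟩
    · fin_cases j
      · exact n0
      · exact n1
      · exact n2
    · fin_cases j
      · exact u0
      · exact u1
      · exact u2
    · rw [qA, qA, s1]
    · rw [qa, qa, s1, s2, s3]

theorem E6Sgn_Q_b : E6Sgn_Q.{u} (Equiv.swap 0 2) := by
  obtain ⟨g1, hg1, hv1⟩ := rf6_mem _ (E6Sgn_mem_pos (a := ![1, 1, 1, 1, 1, 3]) (by decide))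
  obtain ⟨g2, hg2, hv2⟩ := rf6_mem _ (E6Sgn_mem_pos (a := ![-1, -1, -1, -1, 1, 3]) (by decide))
  have key : ∀ v, (g1 * g2) v = ![v 0 - (v 0 + v 1 + v 2 + v 3) / 2,
      v 1 - (v 0 + v 1 + v 2 + v 3) / 2, v 2 - (v 0 + v 1 + v 2 + v 3) / 2,
      v 3 - (v 0 + v 1 + v 2 + v 3) / 2, (v 4 - v 5) / 2, - (3 * v 4 + v 5) / 2] := by
    intro v
    rw [LinearEquiv.mul_apply, hv2, hv1]
    funext k
    fin_cases k <;> simp [rf6, B6_apply, toQ] <;> ring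
  refine ⟨g1 * g2, W6.mul_mem hg1 hg2, fun v => ?_, fun F _ _ θ θ' h => ?_⟩
  · rw [key, key]
    funext k
    fin_cases k <;> simp [io6] <;> ring
  · obtain ⟨x0, hx0⟩ : ∃ x, x = θ (Pi.single 0 1) := ⟨_, rfl⟩
    obtain ⟨x1, hx1⟩ : ∃ x, x = θ (Pi.single 1 1) := ⟨_, rfl⟩
    obtain ⟨x2, hx2⟩ : ∃ x, x = θ (Pi.single 2 1) := ⟨_, rfl⟩
    obtain ⟨x3, hx3⟩ : ∃ x, x = θ (Pi.single 3 1) := ⟨_, rfl⟩
    obtain ⟨x4, hx4⟩ : ∃ x, x = θ (Pi.single 4 1) := ⟨_, rfl⟩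
    obtain ⟨x5, hx5⟩ : ∃ x, x = θ (Pi.single 5 1) := ⟨_, rfl⟩
    have e0 : θ' (Pi.single 0 1) = x0 - (x0 + x1 + x2 + x3) / 2 := by
      rw [h, key, E6Sgn_lin θ, ← hx0, ← hx1, ← hx2, ← hx3, ← hx4, ← hx5]; simp; ring
    have e1 : θ' (Pi.single 1 1) = x1 - (x0 + x1 + x2 + x3) / 2 := by
      rw [h, key, E6Sgn_lin θ, ← hx0, ← hx1, ← hx2, ← hx3, ← hx4, ← hx5]; simp; ring
    have e2 : θ' (Pi.single 2 1) = x2 - (x0 + x1 + x2 + x3) / 2 := by
      rw [h, key, E6Sgn_lin θ, ← hx0, ← hx1, ← hx2, ← hx3, ← hx4, ← hx5]; simp; ring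
    have e3 : θ' (Pi.single 3 1) = x3 - (x0 + x1 + x2 + x3) / 2 := by
      rw [h, key, E6Sgn_lin θ, ← hx0, ← hx1, ← hx2, ← hx3, ← hx4, ← hx5]; simp; ring
    have e4 : θ' (Pi.single 4 1) = (x4 - 3 * x5) / 2 := by
      rw [h, key, E6Sgn_lin θ, ← hx0, ← hx1, ← hx2, ← hx3, ← hx4, ← hx5]; simp; ring
    have e5 : θ' (Pi.single 5 1) = - (x4 + x5) / 2 := by
      rw [h, key, E6Sgn_lin θ, ← hx0, ← hx1, ← hx2, ← hx3, ← hx4, ← hx5]; simp; ring
    have n0 : nu6 θ' 0 = nu6 θ 2 := by simp [nu6, e5, ← hx4, ← hx5]; ring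
    have n1 : nu6 θ' 1 = nu6 θ 1 := by simp [nu6, e5, e4, ← hx4, ← hx5]; ring
    have n2 : nu6 θ' 2 = nu6 θ 0 := by simp [nu6, e5, e4, ← hx4, ← hx5]; ring
    have u0 : qu (y6 θ') 0 = qu (y6 θ) 2 := by
      simp [qu, qs1, qs2, qP, E6Sgn_y6, e0, e1, e2, e3, ← hx0, ← hx1, ← hx2, ← hx3]; ring
    have u1 : qu (y6 θ') 1 = qu (y6 θ) 1 := by
      simp [qu, qs1, qs2, qP, E6Sgn_y6, e0, e1, e2, e3, ← hx0, ← hx1, ← hx2, ← hx3]; ring
    have u2 : qu (y6 θ') 2 = qu (y6 θ) 0 := by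
      simp [qu, qs1, qs2, qP, E6Sgn_y6, e0, e1, e2, e3, ← hx0, ← hx1, ← hx2, ← hx3]; ring
    refine ⟨fun j => ?_, fun j => ?_, ?_, ?_⟩
    · fin_cases j
      · exact n0
      · exact n1
      · exact n2
    · fin_cases j
      · exact u0
      · exact u1
      · exact u2
    · simp [qA, qs1, E6Sgn_y6, e0, e1, e2, e3, ← hx0, ← hx1, ← hx2, ← hx3]; ring
    · simp [qa, qs1, qs2, qs3, E6Sgn_y6, e0, e1, e2, e3, ← hx0, ← hx1, ← hx2, ← hx3]; ring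

theorem E6Sgn_all : ∀ p : Equiv.Perm (Fin 3), p = 1 ∨ p = Equiv.swap 1 2 ∨ p = Equiv.swap 0 2 ∨
    p = Equiv.swap 1 2 * Equiv.swap 0 2 ∨ p = Equiv.swap 0 2 * Equiv.swap 1 2 ∨
    p = Equiv.swap 1 2 * Equiv.swap 0 2 * Equiv.swap 1 2 := by decide

/-- the elements of the centralizer of the involution permute the three pairs `(ν_j, u_j)`
arbitrarily -/
theorem E6Sgn_s3 (p : Equiv.Perm (Fin 3)) : ∃ g ∈ W6, (∀ v, g (io6 v) = io6 (g v)) ∧
    ∀ (F : Type u) [Field F] [CharZero F] (θ θ' : V 6 →+ F), (∀ v, θ' v = θ (g v)) →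
      (∀ j, nu6 θ' j = nu6 θ (p j)) ∧ (∀ j, qu (y6 θ') j = qu (y6 θ) (p j)) ∧
      qA (y6 θ') = qA (y6 θ) ∧ qa (y6 θ') = qa (y6 θ) := by
  have ha := E6Sgn_Q_a.{u}
  have hb := E6Sgn_Q_b.{u}
  rcases E6Sgn_all p with rfl | rfl | rfl | rfl | rfl | rfl
  · exact E6Sgn_Q_one
  · exact ha
  · exact hb
  · exact E6Sgn_Q_mul ha hb
  · exact E6Sgn_Q_mul hb ha
  · exact E6Sgn_Q_mul (E6Sgn_Q_mul ha hb) ha

end CM83
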