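import Pool.Agent.H.MP_83e36b_nt.cm.E6C
import Pool.Agent.H.MP_83e36b_nt.cm.E6Sgn

/-! Module E6Fix: invariance of the generators and its converse. -/

namespace CM83

universe u

variable {Ω : Type u} [Field Ω] [CharZero Ω]

theorem E6Fix_q (ξ : V 6 →+ Ω) (q : ℚ) (v : V 6) : ξ (q • v) = (q : Ω) * ξ v := by
  have h := map_ratCast_smul ξ ℚ Ω q v
  rwa [Rat.cast_id, smul_eq_mul] at h

theorem E6Fix_basis (v : V 6) : v = v 0 • Pi.single 0 1 + v 1 • Pi.single 1 1 +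
    v 2 • Pi.single 2 1 + v 3 • Pi.single 3 1 + v 4 • Pi.single 4 1 + v 5 • Pi.single 5 1 := by
  have h := (pi_eq_sum_univ' v)
  rw [Fin.sum_univ_six] at h
  conv_lhs => rw [h]

theorem E6Fix_expand (θ : V 6 →+ Ω) (v : V 6) : θ v = (v 0 : Ω) * θ (Pi.single 0 1) +
    (v 1 : Ω) * θ (Pi.single 1 1) + (v 2 : Ω) * θ (Pi.single 2 1) +
    (v 3 : Ω) * θ (Pi.single 3 1) + (v 4 : Ω) * θ (Pi.single 4 1) +
    (v 5 : Ω) * θ (Pi.single 5 1) := by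
  conv_lhs => rw [E6Fix_basis v]
  simp only [map_add, E6Fix_q]

theorem E6Fix_y0 (θ : V 6 →+ Ω) : y6 θ 0 = 2 * θ (Pi.single 0 1) := rfl
theorem E6Fix_y1 (θ : V 6 →+ Ω) : y6 θ 1 = 2 * θ (Pi.single 1 1) := rfl
theorem E6Fix_y2 (θ : V 6 →+ Ω) : y6 θ 2 = 2 * θ (Pi.single 2 1) := rfl
theorem E6Fix_y3 (θ : V 6 →+ Ω) : y6 θ 3 = 2 * θ (Pi.single 3 1) := rfl

theorem E6Fix_ne {θ : V 6 →+ Ω} (hθ : Function.Injective θ) (a b c d : ℤ)
    (h : ¬ (a = 0 ∧ b = 0 ∧ c = 0 ∧ d = 0)) :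
    (a : Ω) * y6 θ 0 + (b : Ω) * y6 θ 1 + (c : Ω) * y6 θ 2 + (d : Ω) * y6 θ 3 ≠ 0 := by
  intro h0
  apply h
  have h1 : θ ![2 * (a : ℚ), 2 * (b : ℚ), 2 * (c : ℚ), 2 * (d : ℚ), 0, 0] = 0 := by
    rw [E6Fix_expand θ]
    rw [E6Fix_y0, E6Fix_y1, E6Fix_y2, E6Fix_y3] at h0
    have e0 : (![2 * (a : ℚ), 2 * (b : ℚ), 2 * (c : ℚ), 2 * (d : ℚ), 0, 0] : V 6) 0 = 2 * a := rfl
    have e1 : (![2 * (a : ℚ), 2 * (b : ℚ), 2 * (c : ℚ), 2 * (d : ℚ), 0, 0] : V 6) 1 = 2 * b := rfl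
    have e2 : (![2 * (a : ℚ), 2 * (b : ℚ), 2 * (c : ℚ), 2 * (d : ℚ), 0, 0] : V 6) 2 = 2 * c := rfl
    have e3 : (![2 * (a : ℚ), 2 * (b : ℚ), 2 * (c : ℚ), 2 * (d : ℚ), 0, 0] : V 6) 3 = 2 * d := rfl
    have e4 : (![2 * (a : ℚ), 2 * (b : ℚ), 2 * (c : ℚ), 2 * (d : ℚ), 0, 0] : V 6) 4 = 0 := rfl
    have e5 : (![2 * (a : ℚ), 2 * (b : ℚ), 2 * (c : ℚ), 2 * (d : ℚ), 0, 0] : V 6) 5 = 0 := rfl
    rw [e0, e1, e2, e3, e4, e5]
    push_cast
    linear_combination h0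
  have h2 := hθ (h1.trans (map_zero θ).symm)
  have e0 := congrFun h2 0
  have e1 := congrFun h2 1
  have e2 := congrFun h2 2
  have e3 := congrFun h2 3
  refine ⟨?_, ?_, ?_, ?_⟩
  · have : 2 * (a : ℚ) = 0 := e0
    exact_mod_cast (mul_eq_zero.1 this).resolve_left two_ne_zero
  · have : 2 * (b : ℚ) = 0 := e1
    exact_mod_cast (mul_eq_zero.1 this).resolve_left two_ne_zero
  · have : 2 * (c : ℚ) = 0 := e2
    exact_mod_cast (mul_eq_zero.1 this).resolve_left two_ne_zero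
  · have : 2 * (d : ℚ) = 0 := e3
    exact_mod_cast (mul_eq_zero.1 this).resolve_left two_ne_zero

theorem E6_qP_ne {θ : V 6 →+ Ω} (hθ : Function.Injective θ) : qP (y6 θ) ≠ 0 := by
  have h0 := E6Fix_ne hθ 1 0 0 0 (by norm_num)
  have h1 := E6Fix_ne hθ 0 1 0 0 (by norm_num)
  have h2 := E6Fix_ne hθ 0 0 1 0 (by norm_num)
  have h3 := E6Fix_ne hθ 0 0 0 1 (by norm_num)
  push_cast at h0 h1 h2 h3
  simp only [one_mul, zero_mul, add_zero, zero_add] at h0 h1 h2 h3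
  unfold qP
  exact mul_ne_zero (mul_ne_zero (mul_ne_zero h0 h1) h2) h3

theorem E6_qDt_ne {θ : V 6 →+ Ω} (hθ : Function.Injective θ) : qDt (y6 θ) ≠ 0 := by
  have key : ∀ a b c d a' b' c' d' : ℤ, ¬ (a = 0 ∧ b = 0 ∧ c = 0 ∧ d = 0) →
      ¬ (a' = 0 ∧ b' = 0 ∧ c' = 0 ∧ d' = 0) →
      ((a : Ω) * y6 θ 0 + (b : Ω) * y6 θ 1 + (c : Ω) * y6 θ 2 + (d : Ω) * y6 θ 3) *
      ((a' : Ω) * y6 θ 0 + (b' : Ω) * y6 θ 1 + (c' : Ω) * y6 θ 2 + (d' : Ω) * y6 θ 3) ≠ 0 :=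
    fun a b c d a' b' c' d' h h' => mul_ne_zero (E6Fix_ne hθ a b c d h) (E6Fix_ne hθ a' b' c' d' h')
  have h01 := key 1 (-1) 0 0 1 1 0 0 (by norm_num) (by norm_num)
  have h02 := key 1 0 (-1) 0 1 0 1 0 (by norm_num) (by norm_num)
  have h03 := key 1 0 0 (-1) 1 0 0 1 (by norm_num) (by norm_num)
  have h12 := key 0 1 (-1) 0 0 1 1 0 (by norm_num) (by norm_num)
  have h13 := key 0 1 0 (-1) 0 1 0 1 (by norm_num) (by norm_num)
  have h23 := key 0 0 1 (-1) 0 0 1 1 (by norm_num) (by norm_num)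
  have h := mul_ne_zero (mul_ne_zero (mul_ne_zero (mul_ne_zero (mul_ne_zero h01 h02) h03) h12)
    h13) h23
  convert h using 1
  unfold qDt
  push_cast
  ring

/-- the three numbers `u_j` are different -/
theorem E6_qu_inj {θ : V 6 →+ Ω} (hθ : Function.Injective θ) :
    Function.Injective (qu (y6 θ)) := by
  have n01 : qu (y6 θ) 0 - qu (y6 θ) 1 ≠ 0 := by
    have h1 := E6Fix_ne hθ 1 1 1 (-1) (by norm_num)
    have h2 := E6Fix_ne hθ 1 1 (-1) 1 (by norm_num)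
    have h3 := E6Fix_ne hθ 1 (-1) 1 1 (by norm_num)
    have h4 := E6Fix_ne hθ 1 (-1) (-1) (-1) (by norm_num)
    have h5 : (3 / 2 : Ω) ≠ 0 := by norm_num
    have h := mul_ne_zero (mul_ne_zero (mul_ne_zero (mul_ne_zero h1 h2) h3) h4) h5
    intro h0
    apply h
    rw [← h0]
    simp only [qu, Matrix.cons_val_zero, Matrix.cons_val_one]
    unfold qs1 qs2 qP
    push_cast
    ring
  have n02 : qu (y6 θ) 0 - qu (y6 θ) 2 ≠ 0 := by
    have h1 := E6Fix_ne hθ 1 1 1 1 (by norm_num)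
    have h2 := E6Fix_ne hθ 1 1 (-1) (-1) (by norm_num)
    have h3 := E6Fix_ne hθ 1 (-1) 1 (-1) (by norm_num)
    have h4 := E6Fix_ne hθ 1 (-1) (-1) 1 (by norm_num)
    have h5 : (3 / 2 : Ω) ≠ 0 := by norm_num
    have h := mul_ne_zero (mul_ne_zero (mul_ne_zero (mul_ne_zero h1 h2) h3) h4) h5
    intro h0
    apply h
    rw [← h0]
    show _ = (qs1 (y6 θ) ^ 2 - 4 * qs2 (y6 θ)) -
      (- qs1 (y6 θ) ^ 2 / 2 + 2 * qs2 (y6 θ) - 12 * qP (y6 θ))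
    unfold qs1 qs2 qP
    push_cast
    ring
  have n12 : qu (y6 θ) 1 - qu (y6 θ) 2 ≠ 0 := by
    have h := mul_ne_zero (show (24 : Ω) ≠ 0 by norm_num) (E6_qP_ne hθ)
    intro h0
    apply h
    rw [← h0]
    show _ = (- qs1 (y6 θ) ^ 2 / 2 + 2 * qs2 (y6 θ) + 12 * qP (y6 θ)) -
      (- qs1 (y6 θ) ^ 2 / 2 + 2 * qs2 (y6 θ) - 12 * qP (y6 θ))
    ring
  intro i j hij
  fin_cases i <;> fin_cases j
  · rfl
  · exact absurd (sub_eq_zero.2 hij) n01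
  · exact absurd (sub_eq_zero.2 hij) n02
  · exact absurd (sub_eq_zero.2 hij.symm) n01
  · rfl
  · exact absurd (sub_eq_zero.2 hij) n12
  · exact absurd (sub_eq_zero.2 hij.symm) n02
  · exact absurd (sub_eq_zero.2 hij.symm) n12
  · rfl

theorem E6Fix_S2 (y : Fin 4 → Ω) : qS2 y = ((∑ j, qu y j) ^ 2 - ∑ j, qu y j ^ 2) / 2 := by
  rw [Fin.sum_univ_three, Fin.sum_univ_three]
  unfold qS2
  ring

theorem E6Fix_S3 (y : Fin 4 → Ω) : qS3 y = ∏ j, qu y j := by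
  rw [Fin.prod_univ_three]
  rfl

theorem E6Fix_m1 (θ : V 6 →+ Ω) : m1 θ = ∑ j, nu6 θ j * qu (y6 θ) j := by
  rw [Fin.sum_univ_three]
  rfl

theorem E6Fix_m2 (θ : V 6 →+ Ω) : m2 θ = ∑ j, nu6 θ j * qu (y6 θ) j ^ 2 := by
  rw [Fin.sum_univ_three]
  rfl

theorem E6Fix_nu (θ : V 6 →+ Ω) : ∑ j, nu6 θ j = 0 := by
  rw [Fin.sum_univ_three]
  show -2 * θ (Pi.single 5 1) + (θ (Pi.single 5 1) - θ (Pi.single 4 1)) +
    (θ (Pi.single 5 1) + θ (Pi.single 4 1)) = 0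
  ring

/-- the generators are invariant under the centralizer of the involution -/
theorem E6_invariant (θ θ' : V 6 →+ Ω) {g : V 6 ≃ₗ[ℚ] V 6} (hg : g ∈ W6)
    (hio : ∀ v, g (io6 v) = io6 (g v)) (hθ' : ∀ v, θ' v = θ (g v)) :
    qA (y6 θ') = qA (y6 θ) ∧ qa (y6 θ') = qa (y6 θ) ∧ qI (y6 θ') = qI (y6 θ) ∧
      qJ (y6 θ') = qJ (y6 θ) ∧ m1 θ' = m1 θ ∧ m2 θ' = m2 θ := by
  obtain ⟨p, hp⟩ := E6C.{u} hg hio
  obtain ⟨hν, hu, hA, ha⟩ := hp Ω θ θ' hθ'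
  have hS2 : qS2 (y6 θ') = qS2 (y6 θ) := by
    rw [E6Fix_S2, E6Fix_S2]
    have e1 : ∑ j, qu (y6 θ') j = ∑ j, qu (y6 θ) j := by
      rw [← Equiv.sum_comp p (fun j => qu (y6 θ) j)]
      exact Finset.sum_congr rfl fun j _ => hu j
    have e2 : ∑ j, qu (y6 θ') j ^ 2 = ∑ j, qu (y6 θ) j ^ 2 := by
      rw [← Equiv.sum_comp p (fun j => qu (y6 θ) j ^ 2)]
      exact Finset.sum_congr rfl fun j _ => by rw [hu j]
    rw [e1, e2]
  have hS3 : qS3 (y6 θ') = qS3 (y6 θ) := by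
    rw [E6Fix_S3, E6Fix_S3, ← Equiv.prod_comp p (fun j => qu (y6 θ) j)]
    exact Finset.prod_congr rfl fun j _ => hu j
  refine ⟨hA, ha, ?_, ?_, ?_, ?_⟩
  · rw [qI_eq, qI_eq, hS2, hA, ha]
  · rw [qJ_eq, qJ_eq, hS2, hS3, hA, ha]
  · rw [E6Fix_m1, E6Fix_m1, ← Equiv.sum_comp p (fun j => nu6 θ j * qu (y6 θ) j)]
    exact Finset.sum_congr rfl fun j _ => by rw [hu j, hν j]
  · rw [E6Fix_m2, E6Fix_m2, ← Equiv.sum_comp p (fun j => nu6 θ j * qu (y6 θ) j ^ 2)]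
    exact Finset.sum_congr rfl fun j _ => by rw [hu j, hν j]

theorem E6Fix_y_map (θ : V 6 →+ Ω) (τ : Ω →+* Ω) (i : Fin 4) :
    y6 (τ.toAddMonoidHom.comp θ) i = τ (y6 θ i) := by
  unfold y6
  rw [map_mul, map_ofNat]
  rfl

theorem E6Fix_nu_map (θ : V 6 →+ Ω) (τ : Ω →+* Ω) (i : Fin 3) :
    nu6 (τ.toAddMonoidHom.comp θ) i = τ (nu6 θ i) := by
  fin_cases i
  · show -2 * τ (θ (Pi.single 5 1)) = τ (-2 * θ (Pi.single 5 1))
    rw [map_mul, map_neg, map_ofNat]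
  · show τ (θ (Pi.single 5 1)) - τ (θ (Pi.single 4 1)) =
      τ (θ (Pi.single 5 1) - θ (Pi.single 4 1))
    rw [map_sub]
  · show τ (θ (Pi.single 5 1)) + τ (θ (Pi.single 4 1)) =
      τ (θ (Pi.single 5 1) + θ (Pi.single 4 1))
    rw [map_add]

theorem E6Fix_s1_map (y y' : Fin 4 → Ω) (τ : Ω →+* Ω) (h : ∀ i, y' i = τ (y i)) :
    qs1 y' = τ (qs1 y) := by
  unfold qs1
  simp only [h, map_add, map_pow]

theorem E6Fix_s2_map (y y' : Fin 4 → Ω) (τ : Ω →+* Ω) (h : ∀ i, y' i = τ (y i)) :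
    qs2 y' = τ (qs2 y) := by
  unfold qs2
  simp only [h, map_add, map_mul, map_pow]

theorem E6Fix_s3_map (y y' : Fin 4 → Ω) (τ : Ω →+* Ω) (h : ∀ i, y' i = τ (y i)) :
    qs3 y' = τ (qs3 y) := by
  unfold qs3
  simp only [h, map_add, map_mul, map_pow]

theorem E6Fix_P_map (y y' : Fin 4 → Ω) (τ : Ω →+* Ω) (h : ∀ i, y' i = τ (y i)) :
    qP y' = τ (qP y) := by
  unfold qP
  simp only [h, map_mul]

theorem E6Fix_u_map (y y' : Fin 4 → Ω) (τ : Ω →+* Ω) (h : ∀ i, y' i = τ (y i)) (j : Fin 3) :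
    qu y' j = τ (qu y j) := by
  have h1 := E6Fix_s1_map y y' τ h
  have h2 := E6Fix_s2_map y y' τ h
  have h3 := E6Fix_P_map y y' τ h
  fin_cases j
  · show qs1 y' ^ 2 - 4 * qs2 y' = τ (qs1 y ^ 2 - 4 * qs2 y)
    simp only [h1, h2, map_sub, map_mul, map_pow, map_ofNat]
  · show - qs1 y' ^ 2 / 2 + 2 * qs2 y' + 12 * qP y' =
      τ (- qs1 y ^ 2 / 2 + 2 * qs2 y + 12 * qP y)
    simp only [h1, h2, h3, map_add, map_neg, map_div₀, map_mul, map_pow, map_ofNat]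
  · show - qs1 y' ^ 2 / 2 + 2 * qs2 y' - 12 * qP y' =
      τ (- qs1 y ^ 2 / 2 + 2 * qs2 y - 12 * qP y)
    simp only [h1, h2, h3, map_sub, map_add, map_neg, map_div₀, map_mul, map_pow, map_ofNat]

/-- the generators commute with homomorphisms -/
theorem E6_map (θ : V 6 →+ Ω) (τ : Ω →+* Ω) :
    qA (y6 (τ.toAddMonoidHom.comp θ)) = τ (qA (y6 θ)) ∧
    qa (y6 (τ.toAddMonoidHom.comp θ)) = τ (qa (y6 θ)) ∧
    qI (y6 (τ.toAddMonoidHom.comp θ)) = τ (qI (y6 θ)) ∧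
    qJ (y6 (τ.toAddMonoidHom.comp θ)) = τ (qJ (y6 θ)) ∧
    m1 (τ.toAddMonoidHom.comp θ) = τ (m1 θ) ∧ m2 (τ.toAddMonoidHom.comp θ) = τ (m2 θ) := by
  have hy := E6Fix_y_map θ τ
  have h1 := E6Fix_s1_map _ _ τ hy
  have h2 := E6Fix_s2_map _ _ τ hy
  have h3 := E6Fix_s3_map _ _ τ hy
  have h4 := E6Fix_P_map _ _ τ hy
  have h5 := E6Fix_u_map _ _ τ hy
  have h6 := E6Fix_nu_map θ τ
  refine ⟨h1, ?_, ?_, ?_, ?_, ?_⟩
  · unfold qa
    simp only [h1, h2, h3, map_sub, map_add, map_div₀, map_mul, map_pow, map_ofNat]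
  · unfold qI
    simp only [h1, h2, h3, h4, map_sub, map_add, map_mul, map_pow, map_ofNat]
  · unfold qJ
    simp only [h1, h2, h3, h4, map_sub, map_add, map_mul, map_pow, map_ofNat]
  · unfold m1
    simp only [h5, h6, map_add, map_mul]
  · unfold m2
    simp only [h5, h6, map_add, map_mul, map_pow]

/-- the involution as a linear map -/
def E6Fix_io : V 6 →ₗ[ℚ] V 6 where
  toFun := io6
  map_add' u v := by
    funext i
    fin_cases i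
    · show -(u 0 + v 0) = - u 0 + - v 0
      ring
    · show -(u 1 + v 1) = - u 1 + - v 1
      ring
    · show -(u 2 + v 2) = - u 2 + - v 2
      ring
    · show -(u 3 + v 3) = - u 3 + - v 3
      ring
    · rfl
    · rfl
  map_smul' c v := by
    funext i
    fin_cases i
    · show -(c * v 0) = c * (- v 0)
      ring
    · show -(c * v 1) = c * (- v 1)
      ring
    · show -(c * v 2) = c * (- v 2)
      ring
    · show -(c * v 3) = c * (- v 3)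
      ring
    · rfl
    · rfl

theorem E6Fix_io_lt (i : Fin 4) :
    E6Fix_io (Pi.single (Fin.castLE (by norm_num) i) 1) =
      - Pi.single (Fin.castLE (by norm_num) i) 1 := by
  fin_cases i <;> funext j <;> fin_cases j <;> decide +kernel

theorem E6Fix_io_4 : E6Fix_io (Pi.single 4 1) = Pi.single 4 1 := by
  funext j
  fin_cases j <;> decide +kernel

theorem E6Fix_io_5 : E6Fix_io (Pi.single 5 1) = Pi.single 5 1 := by
  funext j
  fin_cases j <;> decide +kernel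

theorem E6Fix_comm {g : V 6 ≃ₗ[ℚ] V 6} {q : Equiv.Perm (Fin 4)} {η : Fin 4 → ℤ}
    (h : ∀ i : Fin 4, g (Pi.single (Fin.castLE (by norm_num) i) 1) =
      (η i : ℚ) • Pi.single (Fin.castLE (by norm_num) (q i)) 1)
    (h4 : g (Pi.single 4 1) = Pi.single 4 1) (h5 : g (Pi.single 5 1) = Pi.single 5 1) (v : V 6) :
    g (io6 v) = io6 (g v) := by
  have key : g.toLinearMap ∘ₗ E6Fix_io = E6Fix_io ∘ₗ g.toLinearMap := by
    have hlt : ∀ i : Fin 4, g (E6Fix_io (Pi.single (Fin.castLE (by norm_num) i) 1)) =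
        E6Fix_io (g (Pi.single (Fin.castLE (by norm_num) i) 1)) := by
      intro i
      rw [E6Fix_io_lt, map_neg, h i, map_smul, E6Fix_io_lt, smul_neg]
    apply (Pi.basisFun ℚ (Fin 6)).ext
    intro i
    rw [Pi.basisFun_apply]
    show g (E6Fix_io (Pi.single i 1)) = E6Fix_io (g (Pi.single i 1))
    fin_cases i
    · exact hlt 0
    · exact hlt 1
    · exact hlt 2
    · exact hlt 3
    · show g (E6Fix_io (Pi.single 4 1)) = E6Fix_io (g (Pi.single 4 1))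
      rw [E6Fix_io_4, h4, E6Fix_io_4]
    · show g (E6Fix_io (Pi.single 5 1)) = E6Fix_io (g (Pi.single 5 1))
      rw [E6Fix_io_5, h5, E6Fix_io_5]
  exact LinearMap.congr_fun key v

/-- if the generators agree then the points are in the same orbit of the centralizer -/
theorem E6_fix {θ θ' : V 6 →+ Ω} (hθ : Function.Injective θ) (h1 : qA (y6 θ') = qA (y6 θ))
    (h2 : qa (y6 θ') = qa (y6 θ)) (h3 : qI (y6 θ') = qI (y6 θ))
    (h4 : qJ (y6 θ') = qJ (y6 θ)) (h5 : m1 θ' = m1 θ) (h6 : m2 θ' = m2 θ) :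
    ∃ g ∈ W6, (∀ v, g (io6 v) = io6 (g v)) ∧ ∀ v, θ' v = θ (g v) := by
  have hS2 : qS2 (y6 θ') = qS2 (y6 θ) := by
    rw [qI_eq, qI_eq, h1, h2] at h3
    linear_combination (-12 : Ω) * h3
  have hS3 : qS3 (y6 θ') = qS3 (y6 θ) := by
    rw [qJ_eq, qJ_eq, h1, h2, hS2] at h4
    linear_combination (8 : Ω) * h4
  have hinj := E6_qu_inj hθ
  obtain ⟨p, hp⟩ := perm_of_cubic (u := qu (y6 θ')) (u' := qu (y6 θ))
    (by rw [qu_sum, qu_sum]) hS2 hS3 hinj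
  have hinj' : Function.Injective (qu (y6 θ')) := by
    intro i j hij
    rw [hp i, hp j] at hij
    exact p.injective (hinj hij)
  have hd : (fun j => nu6 θ' j - nu6 θ (p j)) = 0 := by
    refine vander3 hinj' ?_ ?_ ?_
    · have e1 := E6Fix_nu θ'
      have e2 := E6Fix_nu θ
      rw [← Equiv.sum_comp p] at e2
      rw [Fin.sum_univ_three] at e1 e2
      linear_combination e1 - e2
    · have e1 := E6Fix_m1 θ'
      have e2 := E6Fix_m1 θ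
      rw [← Equiv.sum_comp p] at e2
      rw [Fin.sum_univ_three] at e1 e2
      simp only [hp] at e1 ⊢
      linear_combination h5 - e1 + e2
    · have e1 := E6Fix_m2 θ'
      have e2 := E6Fix_m2 θ
      rw [← Equiv.sum_comp p] at e2
      rw [Fin.sum_univ_three] at e1 e2
      simp only [hp] at e1 ⊢
      linear_combination h6 - e1 + e2
  have hν : ∀ j, nu6 θ' j = nu6 θ (p j) := fun j => sub_eq_zero.1 (congrFun hd j)
  obtain ⟨g0, hg0, hc0, hall⟩ := E6Sgn_s3.{u} p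
  obtain ⟨a1, a2, a3, a4⟩ := hall Ω θ (θ.comp g0.toLinearMap.toAddMonoidHom) fun v => rfl
  have hθ0 : Function.Injective (θ.comp g0.toLinearMap.toAddMonoidHom) :=
    hθ.comp g0.injective
  generalize hdef : θ.comp g0.toLinearMap.toAddMonoidHom = θ0 at a1 a2 a3 a4 hθ0
  obtain ⟨b1, b2, b3, b4⟩ := qs_of_qu (y := y6 θ') (y' := y6 θ0) (h1.trans a3.symm)
    (h2.trans a4.symm) (funext fun j => (hp j).trans (a2 j).symm)
  obtain ⟨q, η, hη, hη', hy⟩ := signed_of_qs b1 b2 b3 b4 (E6_qP_ne hθ0) (E6_qDt_ne hθ0)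
  obtain ⟨g1, hg1, c1, c4, c5⟩ := E6Sgn_mem q η hη hη'
  have hc1 := E6Fix_comm c1 c4 c5
  have hlt : ∀ i : Fin 4, θ' (Pi.single (Fin.castLE (by norm_num) i) 1) =
      θ0 (g1 (Pi.single (Fin.castLE (by norm_num) i) 1)) := by
    intro i
    rw [c1 i, E6Fix_q]
    have e := hy i
    unfold y6 at e
    have e2 : (2 : Ω) ≠ 0 := two_ne_zero
    apply mul_left_cancel₀ e2
    rw [e]
    push_cast
    ring
  have h05 : θ' (Pi.single 5 1) = θ0 (Pi.single 5 1) := by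
    have e : nu6 θ' 0 = nu6 θ0 0 := (hν 0).trans (a1 0).symm
    have e' : -2 * θ' (Pi.single 5 1) = -2 * θ0 (Pi.single 5 1) := e
    have e2 : (-2 : Ω) ≠ 0 := neg_ne_zero.2 two_ne_zero
    exact mul_left_cancel₀ e2 e'
  have h04 : θ' (Pi.single 4 1) = θ0 (Pi.single 4 1) := by
    have e : nu6 θ' 1 = nu6 θ0 1 := (hν 1).trans (a1 1).symm
    have e' : θ' (Pi.single 5 1) - θ' (Pi.single 4 1) =
      θ0 (Pi.single 5 1) - θ0 (Pi.single 4 1) := e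
    rw [h05] at e'
    exact sub_right_injective e'
  have hfin : ∀ v, θ' v = θ0 (g1 v) := by
    intro v
    have e1 := E6Fix_expand θ' v
    have e2 := E6Fix_expand (θ0.comp g1.toLinearMap.toAddMonoidHom) v
    have k0 := hlt 0
    have k1 := hlt 1
    have k2 := hlt 2
    have k3 := hlt 3
    have k4 : θ' (Pi.single 4 1) = θ0 (g1 (Pi.single 4 1)) := by rw [c4, h04]
    have k5 : θ' (Pi.single 5 1) = θ0 (g1 (Pi.single 5 1)) := by rw [c5, h05]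
    show θ' v = (θ0.comp g1.toLinearMap.toAddMonoidHom) v
    rw [e1, e2]
    show _ = (v 0 : Ω) * θ0 (g1 (Pi.single 0 1)) +
      (v 1 : Ω) * θ0 (g1 (Pi.single 1 1)) + (v 2 : Ω) * θ0 (g1 (Pi.single 2 1)) +
      (v 3 : Ω) * θ0 (g1 (Pi.single 3 1)) + (v 4 : Ω) * θ0 (g1 (Pi.single 4 1)) +
      (v 5 : Ω) * θ0 (g1 (Pi.single 5 1))
    rw [← k4, ← k5]
    have k0' : θ' (Pi.single 0 1) = θ0 (g1 (Pi.single 0 1)) := k0
    have k1' : θ' (Pi.single 1 1) = θ0 (g1 (Pi.single 1 1)) := k1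
    have k2' : θ' (Pi.single 2 1) = θ0 (g1 (Pi.single 2 1)) := k2
    have k3' : θ' (Pi.single 3 1) = θ0 (g1 (Pi.single 3 1)) := k3
    rw [← k0', ← k1', ← k2', ← k3']
  refine ⟨g0 * g1, mul_mem hg0 hg1, fun v => ?_, fun v => ?_⟩
  · rw [LinearEquiv.mul_apply, LinearEquiv.mul_apply, hc1, hc0]
  · rw [hfin v, ← hdef]
    rfl

end CM83
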