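import Pool.Agent.H.MP_83e36b_nt.cm.E6Grp
import Pool.Agent.H.MP_83e36b_nt.cm.E6Sgn

/-! Module E6W1: involutions without fixed roots are conjugate to `diag(-1,-1,-1,-1,1,1)`. -/

namespace CM83

/-- an involution fixes a weight, as their number is odd -/
theorem E6W1_fix {w : V 6 ≃ₗ[ℚ] V 6} (hw : w ∈ W6) (h2 : ∀ v, w (w v) = v) :
    ∃ ω ∈ wt6, w ω = ω := by
  by_contra hcon
  push Not at hcon
  have h1 : ∑ ω ∈ wt6, (1 : ZMod 2) = 0 := by
    refine Finset.sum_involution (fun ω _ => w ω) (fun ω hω => ?_) (fun ω hω _ => hcon ω hω)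
      (fun ω hω => W6_wt hw ω hω) (fun ω hω => h2 ω)
    decide
  rw [Finset.sum_const, wt6_card] at h1
  exact absurd h1 (by decide)

theorem E6W1_wt {v : V 6} (h : v ∈ wt6) : ∃ x ∈ wtZ, toQ x = v := by
  unfold wt6 at h
  rw [List.mem_toFinset] at h
  exact List.mem_map.mp h

theorem E6W1_wt' {x : Fin 6 → ℤ} (h : x ∈ wtZ) : toQ x ∈ wt6 := by
  unfold wt6
  rw [List.mem_toFinset]
  exact List.mem_map.mpr ⟨x, h, rfl⟩

/-- the vector `2 e_i - 2 e_5` -/
def E6W1_v (i : Fin 5) : Fin 6 → ℤ := fun k => if k = i.castSucc then 2 else if k = 5 then -2 else 0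

theorem E6W1_v_mem : ∀ i : Fin 5, E6W1_v i ∈ wtZ := by decide

theorem E6W1_insp : ∀ x ∈ wtZ, x 5 = -2 → ∃ j : Fin 5,
    (∀ k, x k = if k = j.castSucc then 2 else if k = 5 then -2 else 0) ∨
    (∀ k, x k = if k = j.castSucc then -2 else if k = 5 then -2 else 0) := by decide

theorem E6W1_insp' : ∀ x ∈ wtZ, x 5 = 1 → x 0 * x 1 * x 2 * x 3 * x 4 = -1 := by decide

theorem E6W1_five : ∀ c : Fin 5, (5 : Fin 6) ≠ c.castSucc := by decide

theorem E6W1_toQ (i : Fin 5) : toQ (E6W1_v i) = (2 : ℚ) • (Pi.single i.castSucc 1 : V 6) -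
    (2 : ℚ) • (Pi.single 5 1 : V 6) := by
  funext k
  simp only [toQ, E6W1_v, Pi.sub_apply, Pi.smul_apply, smul_eq_mul, Pi.single_apply]
  fin_cases i <;> fin_cases k <;> simp

/-- elements fixing the weight `(0, 4)` are signed permutations with an even number of signs -/
theorem E6W1_signed {w : V 6 ≃ₗ[ℚ] V 6} (hw : w ∈ W6)
    (h0 : w ![0, 0, 0, 0, 0, 4] = ![0, 0, 0, 0, 0, 4]) :
    ∃ (p : Fin 5 → Fin 5) (η : Fin 5 → ℚ), (∀ i, η i = 1 ∨ η i = -1) ∧ ∏ i, η i = 1 ∧
      ∀ i : Fin 5, w (Pi.single i.castSucc 1) = η i • Pi.single (p i).castSucc 1 := by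
  have e5 : w (Pi.single 5 1) = Pi.single 5 1 := by
    have h1 : (![0, 0, 0, 0, 0, 4] : V 6) = (4 : ℚ) • (Pi.single 5 1 : V 6) := by
      funext k; fin_cases k <;> simp
    rw [h1, map_smul] at h0
    exact smul_right_injective _ (by norm_num : (4 : ℚ) ≠ 0) h0
  have hmain : ∀ i : Fin 5, ∃ (j : Fin 5) (s : ℚ), (s = 1 ∨ s = -1) ∧
      w (Pi.single i.castSucc 1) = s • Pi.single j.castSucc 1 := by
    intro i
    have h1 := E6W1_wt' (E6W1_v_mem i)
    obtain ⟨x, hx, hxw⟩ := E6W1_wt (W6_wt hw _ h1)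
    have h2 : B6 (w (toQ (E6W1_v i))) (w ![0, 0, 0, 0, 0, 4]) =
        B6 (toQ (E6W1_v i)) ![0, 0, 0, 0, 0, 4] := W6_B hw _ _
    rw [h0, ← hxw, B6_apply, B6_apply] at h2
    have h3 : toQ (E6W1_v i) 5 = -2 := by
      fin_cases i <;> simp [toQ, E6W1_v]
    have h4 : (toQ x) 5 = (x 5 : ℚ) := rfl
    rw [h3, h4] at h2
    simp at h2
    have h5 : x 5 = -2 := by
      have h6 : (x 5 : ℚ) = ((-2 : ℤ) : ℚ) := by push_cast; linarith
      exact_mod_cast h6
    obtain ⟨j, hj⟩ := E6W1_insp x hx h5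
    have h7 : (2 : ℚ) • w (Pi.single i.castSucc 1) = toQ x + (2 : ℚ) • (Pi.single 5 1 : V 6) := by
      rw [hxw, E6W1_toQ, map_sub, map_smul, map_smul, e5]
      abel
    rcases hj with hj | hj
    · refine ⟨j, 1, Or.inl rfl, ?_⟩
      have h8 : toQ x + (2 : ℚ) • (Pi.single 5 1 : V 6) =
          (2 : ℚ) • ((1 : ℚ) • (Pi.single j.castSucc 1 : V 6)) := by
        funext k
        simp only [toQ, hj, Pi.add_apply, Pi.smul_apply, smul_eq_mul, Pi.single_apply]
        fin_cases j <;> fin_cases k <;> simp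
      rw [h8] at h7
      exact smul_right_injective _ (by norm_num : (2 : ℚ) ≠ 0) h7
    · refine ⟨j, -1, Or.inr rfl, ?_⟩
      have h8 : toQ x + (2 : ℚ) • (Pi.single 5 1 : V 6) =
          (2 : ℚ) • ((-1 : ℚ) • (Pi.single j.castSucc 1 : V 6)) := by
        funext k
        simp only [toQ, hj, Pi.add_apply, Pi.smul_apply, smul_eq_mul, Pi.single_apply]
        fin_cases j <;> fin_cases k <;> simp
      rw [h8] at h7
      exact smul_right_injective _ (by norm_num : (2 : ℚ) ≠ 0) h7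
  choose p η hη hp using hmain
  have hη0 : ∀ i, η i ≠ 0 := by
    intro i
    rcases hη i with h | h <;> rw [h] <;> norm_num
  have hinj : Function.Injective p := by
    intro i j hij
    by_contra hne
    have h1 : w ((η j) • (Pi.single i.castSucc 1 : V 6)) =
        w ((η i) • (Pi.single j.castSucc 1 : V 6)) := by
      rw [map_smul, map_smul, hp, hp, hij, smul_smul, smul_smul, mul_comm]
    have h2 := congrFun (w.injective h1) i.castSucc
    rw [Pi.smul_apply, Pi.smul_apply, Pi.single_eq_same, Pi.single_eq_of_ne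
      (fun h => hne (Fin.castSucc_injective _ h)), smul_eq_mul, smul_eq_mul, mul_one,
      mul_zero] at h2
    exact hη0 j h2
  have hbij : Function.Bijective p := Finite.injective_iff_bijective.mp hinj
  refine ⟨p, η, hη, ?_, hp⟩
  have h1 := E6W1_wt' (show (![-1, -1, -1, -1, -1, 1] : Fin 6 → ℤ) ∈ wtZ by decide)
  obtain ⟨x, hx, hxw⟩ := E6W1_wt (W6_wt hw _ h1)
  have h2 : toQ ![-1, -1, -1, -1, -1, 1] =
      (Pi.single 5 1 : V 6) - ∑ i : Fin 5, (Pi.single i.castSucc 1 : V 6) := by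
    rw [Fin.sum_univ_five]
    funext k
    fin_cases k <;> simp [toQ, Pi.single_apply]
  rw [h2, map_sub, map_sum, e5] at hxw
  simp only [hp] at hxw
  have h3 : x 5 = 1 := by
    have h4 := congrFun hxw 5
    rw [Pi.sub_apply, Finset.sum_apply, Pi.single_eq_same] at h4
    have h5 : ∑ c : Fin 5, (η c • (Pi.single (p c).castSucc 1 : V 6)) 5 = 0 := by
      refine Finset.sum_eq_zero fun c _ => ?_
      rw [Pi.smul_apply, Pi.single_eq_of_ne (E6W1_five (p c)), smul_zero]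
    rw [h5, sub_zero] at h4
    have h6 : (x 5 : ℚ) = ((1 : ℤ) : ℚ) := by push_cast; exact h4
    exact_mod_cast h6
  have h4 := E6W1_insp' x hx h3
  have h5 : ∏ j : Fin 5, (x j.castSucc : ℚ) = -1 := by
    rw [Fin.prod_univ_five]
    have h6 : ((x 0 * x 1 * x 2 * x 3 * x 4 : ℤ) : ℚ) = ((-1 : ℤ) : ℚ) := by rw [h4]
    push_cast at h6
    exact h6
  have h6 : ∀ i : Fin 5, (x (p i).castSucc : ℚ) = - η i := by
    intro i
    have h7 := congrFun hxw (p i).castSucc
    rw [Pi.sub_apply, Finset.sum_apply, Pi.single_eq_of_ne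
      (E6W1_five (p i)).symm] at h7
    rw [Finset.sum_eq_single i] at h7
    · rw [Pi.smul_apply, Pi.single_eq_same, smul_eq_mul, mul_one, zero_sub] at h7
      exact h7
    · intro c _ hc
      rw [Pi.smul_apply, Pi.single_eq_of_ne
        (fun h => hc (hinj (Fin.castSucc_injective _ h)).symm), smul_zero]
    · intro h
      exact absurd (Finset.mem_univ i) h
  rw [← Equiv.prod_comp (Equiv.ofBijective p hbij)] at h5
  simp only [Equiv.ofBijective_apply, h6] at h5
  rw [Finset.prod_neg, Finset.card_univ, Fintype.card_fin] at h5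
  linarith

/-- `2 e_i ± 2 e_j` is a root up to sign -/
theorem E6W1_root (i j : Fin 5) (hij : i ≠ j) (s : ℚ) (hs : s = 1 ∨ s = -1) :
    ∃ α ∈ pos6, (2 : ℚ) • ((Pi.single i.castSucc 1 : V 6) + s • (Pi.single j.castSucc 1 : V 6)) = α ∨
    (2 : ℚ) • ((Pi.single i.castSucc 1 : V 6) + s • (Pi.single j.castSucc 1 : V 6)) = - α := by
  have hlt : ∀ i j : Fin 5, i < j → (i.castSucc : Fin 6) < j.castSucc ∧ j.castSucc ≠ 5 := by
    decide
  rcases lt_or_gt_of_ne hij with h | h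
  · obtain ⟨h1, h2⟩ := hlt i j h
    rcases hs with rfl | rfl
    · refine ⟨_, E6Sgn_mem_pos (E6Sgn_p_mem _ _ h1 h2), Or.inl ?_⟩
      funext k
      simp only [toQ, E6Sgn_p, Pi.add_apply, Pi.smul_apply, smul_eq_mul, Pi.single_apply]
      by_cases h3 : k = i.castSucc
      · have h4 : ¬ (k = j.castSucc) := fun h5 => h1.ne (h3.symm.trans h5)
        simp [h3, h1.ne]
      · by_cases h4 : k = j.castSucc
        · simp [h4, h1.ne']
        · simp [h3, h4]
    · refine ⟨_, E6Sgn_mem_pos (E6Sgn_m_mem _ _ h1 h2), Or.inl ?_⟩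
      funext k
      simp only [toQ, E6Sgn_m, Pi.add_apply, Pi.smul_apply, smul_eq_mul, Pi.single_apply]
      by_cases h3 : k = i.castSucc
      · simp [h3, h1.ne]
      · by_cases h4 : k = j.castSucc
        · simp [h4, h1.ne']
        · simp [h3, h4]
  · obtain ⟨h1, h2⟩ := hlt j i h
    rcases hs with rfl | rfl
    · refine ⟨_, E6Sgn_mem_pos (E6Sgn_p_mem _ _ h1 h2), Or.inl ?_⟩
      funext k
      simp only [toQ, E6Sgn_p, Pi.add_apply, Pi.smul_apply, smul_eq_mul, Pi.single_apply]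
      by_cases h3 : k = i.castSucc
      · simp [h3, h1.ne']
      · by_cases h4 : k = j.castSucc
        · simp [h4, h1.ne]
        · simp [h3, h4]
    · refine ⟨_, E6Sgn_mem_pos (E6Sgn_m_mem _ _ h1 h2), Or.inr ?_⟩
      funext k
      simp only [toQ, E6Sgn_m, Pi.add_apply, Pi.smul_apply, smul_eq_mul, Pi.single_apply,
        Pi.neg_apply]
      by_cases h3 : k = i.castSucc
      · simp [h3, h1.ne']
      · by_cases h4 : k = j.castSucc
        · simp [h4, h1.ne]
        · simp [h3, h4]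

theorem E6W1_diag {w : V 6 ≃ₗ[ℚ] V 6} (η : Fin 6 → ℚ)
    (h : ∀ i, w (Pi.single i 1) = η i • Pi.single i 1) (v : V 6) (k : Fin 6) :
    w v k = η k * v k := by
  have h1 : v = ∑ i, v i • (Pi.single i 1 : V 6) := by
    rw [← Finset.univ_sum_single v]
    refine Finset.sum_congr rfl fun i _ => ?_
    rw [Finset.univ_sum_single v, ← Pi.single_smul, smul_eq_mul, mul_one]
  conv_lhs => rw [h1]
  rw [map_sum, Finset.sum_apply, Finset.sum_eq_single k]
  · rw [map_smul, h, Pi.smul_apply, Pi.smul_apply, Pi.single_eq_same, smul_eq_mul, smul_eq_mul]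
    ring
  · intro i _ hi
    rw [map_smul, h, Pi.smul_apply, Pi.smul_apply, Pi.single_eq_of_ne (Ne.symm hi), smul_zero,
      smul_zero]
  · intro h2
    exact absurd (Finset.mem_univ k) h2

theorem E6W1 {w : V 6 ≃ₗ[ℚ] V 6} (hw : w ∈ W6) (h2 : ∀ v, w (w v) = v)
    (hr : ∀ α ∈ pos6, w α ≠ α) : ∃ g ∈ W6, ∀ v, w (g v) = g (io6 v) := by
  obtain ⟨ω, hω, hwω⟩ := E6W1_fix hw h2
  obtain ⟨g0, hg0, hg0ω⟩ := W6_trans ω hω
  have hinv1 : ∀ v, g0 (g0⁻¹ v) = v := fun v => by
    rw [← LinearEquiv.mul_apply, mul_inv_cancel]; rfl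
  have hinv2 : ∀ v, g0⁻¹ (g0 v) = v := fun v => by
    rw [← LinearEquiv.mul_apply, inv_mul_cancel]; rfl
  obtain ⟨w', hw'⟩ : ∃ w', w' = g0 * w * g0⁻¹ := ⟨_, rfl⟩
  have hw'v : ∀ v, w' v = g0 (w (g0⁻¹ v)) := fun v => by rw [hw']; rfl
  have hw'm : w' ∈ W6 := by
    rw [hw']
    exact W6.mul_mem (W6.mul_mem hg0 hw) (W6.inv_mem hg0)
  have hw'0 : w' ![0, 0, 0, 0, 0, 4] = ![0, 0, 0, 0, 0, 4] := by
    rw [hw'v, ← hg0ω, hinv2, hwω]
  have hw'2 : ∀ v, w' (w' v) = v := by
    intro v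
    rw [hw'v, hw'v, hinv2, h2, hinv1]
  have hw'r : ∀ α ∈ pos6, w' α ≠ α := by
    intro α hα hc
    rw [hw'v] at hc
    have h3 : w (g0⁻¹ α) = g0⁻¹ α := by
      rw [← hinv2 (w (g0⁻¹ α)), hc]
    rcases W6_root (W6.inv_mem hg0) α hα with h4 | h4
    · exact hr _ h4 h3
    · exact hr _ h4 (by rw [map_neg, h3])
  obtain ⟨p, η, hη, hη1, hp⟩ := E6W1_signed hw'm hw'0
  have e5 : w' (Pi.single 5 1) = Pi.single 5 1 := by
    have h1 : (![0, 0, 0, 0, 0, 4] : V 6) = (4 : ℚ) • (Pi.single 5 1 : V 6) := by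
      funext k; fin_cases k <;> simp
    rw [h1, map_smul] at hw'0
    exact smul_right_injective _ (by norm_num : (4 : ℚ) ≠ 0) hw'0
  have hηη : ∀ i, η i * η i = 1 := by
    intro i
    rcases hη i with h | h <;> rw [h] <;> norm_num
  have hnofix : ∀ i j : Fin 5, i ≠ j → ∀ s : ℚ, s = 1 ∨ s = -1 →
      w' ((Pi.single i.castSucc 1 : V 6) + s • (Pi.single j.castSucc 1 : V 6)) ≠
        (Pi.single i.castSucc 1 : V 6) + s • (Pi.single j.castSucc 1 : V 6) := by
    intro i j hij s hs hc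
    obtain ⟨α, hα, h3⟩ := E6W1_root i j hij s hs
    have h4 : w' ((2 : ℚ) • ((Pi.single i.castSucc 1 : V 6) +
        s • (Pi.single j.castSucc 1 : V 6))) = (2 : ℚ) • ((Pi.single i.castSucc 1 : V 6) +
        s • (Pi.single j.castSucc 1 : V 6)) := by rw [map_smul, hc]
    rcases h3 with h3 | h3
    · rw [h3] at h4
      exact hw'r α hα h4
    · rw [h3, map_neg, neg_inj] at h4
      exact hw'r α hα h4
  have hpid : ∀ i, p i = i := by
    intro i
    by_contra hne
    have h3 : w' (Pi.single (p i).castSucc 1) = η i • (Pi.single i.castSucc 1 : V 6) := by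
      have h4 := hw'2 (Pi.single i.castSucc 1)
      rw [hp i, map_smul] at h4
      rw [← h4, smul_smul, hηη, one_smul]
    apply hnofix i (p i) (Ne.symm hne) (η i) (hη i)
    rw [map_add, map_smul, h3, hp i, smul_smul, hηη, one_smul, add_comm]
  have hone : ∀ i j, i ≠ j → η i = 1 → η j = 1 → False := by
    intro i j hij h3 h4
    apply hnofix i j hij 1 (Or.inl rfl)
    rw [map_add, map_smul, hp i, hp j, hpid, hpid, h3, h4, one_smul, one_smul]
  have hex : ∃ i0, η i0 = 1 := by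
    by_contra hcon
    push Not at hcon
    have h3 : ∀ i, η i = -1 := fun i => (hη i).resolve_left (hcon i)
    simp only [h3, Finset.prod_const, Finset.card_univ, Fintype.card_fin] at hη1
    norm_num at hη1
  obtain ⟨i0, hi0⟩ := hex
  have hother : ∀ i, i ≠ i0 → η i = -1 := fun i hi =>
    (hη i).resolve_left (fun h => hone i i0 hi h hi0)
  -- the action of `w'`
  have hact : ∀ (v : V 6) (k : Fin 6), w' v k =
      (if k = i0.castSucc ∨ k = 5 then 1 else -1) * v k := by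
    refine E6W1_diag (fun k => if k = i0.castSucc ∨ k = 5 then 1 else -1) (fun i => ?_)
    induction i using Fin.lastCases with
    | last =>
      change w' (Pi.single 5 1) = (if (5 : Fin 6) = i0.castSucc ∨ (5 : Fin 6) = 5 then (1 : ℚ) else
        -1) • (Pi.single 5 1 : V 6)
      rw [if_pos (Or.inr rfl), one_smul, e5]
    | cast i =>
      rw [hp, hpid]
      by_cases hi : i = i0
      · rw [hi, hi0, if_pos (Or.inl rfl)]
      · rw [hother i hi, if_neg]
        rw [not_or]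
        exact ⟨fun h => hi (Fin.castSucc_injective _ h), (Fin.castSucc_lt_last i).ne⟩
  -- the swap
  have hswap : ∃ g1 ∈ W6, ∀ v : V 6, g1 v = fun k => v (Equiv.swap i0.castSucc 4 k) := by
    by_cases h3 : i0.castSucc = (4 : Fin 6)
    · refine ⟨1, W6.one_mem, fun v => ?_⟩
      rw [h3, Equiv.swap_self]
      rfl
    · have h4' : ∀ i : Fin 5, ¬ (i.castSucc = (4 : Fin 6)) → i.castSucc < (4 : Fin 6) := by decide
      have h4 := h4' i0 h3
      obtain ⟨g, hg, hgv⟩ := rf6_mem _ (E6Sgn_mem_pos (E6Sgn_m_mem i0.castSucc 4 h4 (by decide)))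
      exact ⟨g, hg, fun v => by rw [hgv, E6Sgn_rfm _ _ _ h4 (by decide)]⟩
  obtain ⟨g1, hg1, hg1v⟩ := hswap
  refine ⟨g0⁻¹ * g1, W6.mul_mem (W6.inv_mem hg0) hg1, fun v => ?_⟩
  have h3 : w' (g1 v) = g1 (io6 v) := by
    funext k
    rw [hact, hg1v, hg1v]
    have h4 : ∀ (i : Fin 5) (k : Fin 6), (k = i.castSucc ∨ k = 5) ↔
        (Equiv.swap i.castSucc 4 k = 4 ∨ Equiv.swap i.castSucc 4 k = 5) := by decide
    have h5 : ∀ l : Fin 6, io6 v l = (if l = 4 ∨ l = 5 then 1 else -1) * v l := by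
      intro l
      fin_cases l <;> simp [io6]
    change (if k = i0.castSucc ∨ k = 5 then 1 else -1) * v (Equiv.swap i0.castSucc 4 k) =
      io6 v (Equiv.swap i0.castSucc 4 k)
    rw [h5]
    congr 1
    exact if_congr (h4 i0 k) rfl rfl
  rw [LinearEquiv.mul_apply, LinearEquiv.mul_apply, ← h3, hw'v, hinv2]

end CM83
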