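import Pool.Agent.H.MP_83e36b_nt.cm.WDefs
import Pool.Agent.H.DiscRat.VInd

/-! Module WBasic: simple reflections exist; a criterion. -/

namespace CM83

universe u

variable {k : Type u} [Field k] {n : ℕ}

theorem xv_algInd : AlgebraicIndependent k (xv k : Fin n → RF k n) := by
  have h := (MvPolynomial.algebraicIndependent_X (Fin n) k).map'
    (f := IsScalarTower.toAlgHom k (MvPolynomial (Fin n) k) (RF k n))
    (IsFractionRing.injective _ _)
  exact h

theorem adjoin_xv : IntermediateField.adjoin k (Set.range (xv k : Fin n → RF k n)) = ⊤ := by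
  rw [eq_top_iff]
  intro f _
  have key : ∀ a : MvPolynomial (Fin n) k, algebraMap (MvPolynomial (Fin n) k) (RF k n) a ∈
      IntermediateField.adjoin k (Set.range (xv k : Fin n → RF k n)) := by
    intro a
    induction a using MvPolynomial.induction_on with
    | C c =>
      have h : algebraMap (MvPolynomial (Fin n) k) (RF k n) (MvPolynomial.C c)
          = algebraMap k (RF k n) c := by
        rw [IsScalarTower.algebraMap_apply k (MvPolynomial (Fin n) k) (RF k n)]
        rfl
      rw [h]
      exact IntermediateField.algebraMap_mem _ _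
    | add p q hp hq =>
      rw [map_add]
      exact add_mem hp hq
    | mul_X p i hp =>
      rw [map_mul]
      exact mul_mem hp (IntermediateField.subset_adjoin k _ ⟨i, rfl⟩)
  obtain ⟨a, b, _, rfl⟩ := IsFractionRing.div_surjective (MvPolynomial (Fin n) k) f
  exact div_mem (key a) (key b)

/-- homomorphisms are determined by the images of the variables -/
theorem hom_ext {L : Type*} [Field L] [Algebra k L] {f g : RF k n →ₐ[k] L}
    (h : ∀ i, f (xv k i) = g (xv k i)) : f = g := by
  have h1 : f.comp (IsScalarTower.toAlgHom k (MvPolynomial (Fin n) k) (RF k n))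
      = g.comp (IsScalarTower.toAlgHom k (MvPolynomial (Fin n) k) (RF k n)) :=
    MvPolynomial.algHom_ext fun i => h i
  have h2 : ∀ a : MvPolynomial (Fin n) k,
      f (algebraMap (MvPolynomial (Fin n) k) (RF k n) a)
      = g (algebraMap (MvPolynomial (Fin n) k) (RF k n) a) := fun a => DFunLike.congr_fun h1 a
  refine AlgHom.ext fun x => ?_
  obtain ⟨a, b, _, rfl⟩ := IsFractionRing.div_surjective (MvPolynomial (Fin n) k) x
  rw [map_div₀, map_div₀, h2, h2]

/-- the polynomial simple reflection -/
noncomputable def wbasicRefl (k : Type u) [Field k] {n : ℕ} (A : Matrix (Fin n) (Fin n) ℤ)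
    (j : Fin n) : MvPolynomial (Fin n) k →ₐ[k] MvPolynomial (Fin n) k :=
  MvPolynomial.aeval fun i => MvPolynomial.X i - (A i j : MvPolynomial (Fin n) k) *
    MvPolynomial.X j

theorem wbasic_refl (A : Matrix (Fin n) (Fin n) ℤ) (j : Fin n) (hj : A j j = 2) :
    (wbasicRefl k A j).comp (wbasicRefl k A j) = AlgHom.id k _ := by
  apply MvPolynomial.algHom_ext
  intro i
  have h1 : ∀ i, wbasicRefl k A j (MvPolynomial.X i) =
      MvPolynomial.X i - (A i j : MvPolynomial (Fin n) k) * MvPolynomial.X j := fun i => by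
    unfold wbasicRefl
    rw [MvPolynomial.aeval_X]
  rw [AlgHom.comp_apply, h1, map_sub, map_mul, map_intCast, h1, h1, hj, AlgHom.id_apply]
  push_cast
  ring

theorem exists_simpleRefl (A : Matrix (Fin n) (Fin n) ℤ) (j : Fin n) (hj : A j j = 2) :
    ∃ σ : RF k n ≃ₐ[k] RF k n, IsSimpleRefl k A j σ := by
  refine ⟨IsFractionRing.algEquivOfAlgEquiv (AlgEquiv.ofAlgHom (wbasicRefl k A j)
    (wbasicRefl k A j) (wbasic_refl A j hj) (wbasic_refl A j hj)), ?_⟩
  intro i
  unfold xv
  rw [IsFractionRing.algEquivOfAlgEquiv_algebraMap]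
  change algebraMap _ _ (wbasicRefl k A j (MvPolynomial.X i)) = _
  unfold wbasicRefl
  rw [MvPolynomial.aeval_X, map_sub, map_mul, map_intCast]

theorem wbasic_ext {σ σ' : RF k n ≃ₐ[k] RF k n} (h : ∀ i, σ (xv k i) = σ' (xv k i)) :
    σ = σ' := by
  have h1 : (σ : RF k n →ₐ[k] RF k n) = (σ' : RF k n →ₐ[k] RF k n) := hom_ext h
  ext x
  exact DFunLike.congr_fun h1 x

theorem IsSimpleRefl.unique {A : Matrix (Fin n) (Fin n) ℤ} {j : Fin n}
    {σ σ' : RF k n ≃ₐ[k] RF k n} (h : IsSimpleRefl k A j σ) (h' : IsSimpleRefl k A j σ') :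
    σ = σ' :=
  wbasic_ext fun i => by rw [h i, h' i]

theorem IsSimpleRefl.sq {A : Matrix (Fin n) (Fin n) ℤ} {j : Fin n} (hj : A j j = 2)
    {σ : RF k n ≃ₐ[k] RF k n} (h : IsSimpleRefl k A j σ) : σ * σ = 1 := by
  apply wbasic_ext
  intro i
  rw [AlgEquiv.mul_apply, AlgEquiv.one_apply, h i, map_sub, map_mul, map_intCast, h i, h j, hj]
  push_cast
  ring

theorem wbasic_mem (S : Set (RF k n ≃ₐ[k] RF k n)) (f : RF k n) :
    f ∈ IntermediateField.fixedField (Subgroup.closure S) ↔ ∀ σ ∈ S, σ f = f := by
  rw [IntermediateField.mem_fixedField_iff]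
  constructor
  · intro h σ hσ
    exact h σ (Subgroup.subset_closure hσ)
  · intro h σ hσ
    induction hσ using Subgroup.closure_induction with
    | mem x hx => exact h x hx
    | one => rfl
    | mul x y _ _ h1 h2 => rw [AlgEquiv.mul_apply, h2, h1]
    | inv x _ h1 =>
      have h3 : x⁻¹ (x f) = f := by
        rw [← AlgEquiv.mul_apply, inv_mul_cancel, AlgEquiv.one_apply]
      rwa [h1] at h3

theorem mem_fixed_iff (A : Matrix (Fin n) (Fin n) ℤ) (f : RF k n) :
    f ∈ IntermediateField.fixedField (weylGroup k A) ↔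
      ∀ j σ, IsSimpleRefl k A j σ → σ f = f := by
  unfold weylGroup
  rw [wbasic_mem]
  constructor
  · intro h j σ hσ
    exact h σ ⟨j, hσ⟩
  · rintro h σ ⟨j, hσ⟩
    exact h j σ hσ

/-- the criterion -/
theorem good_of [CharZero k] (A : Matrix (Fin n) (Fin n) ℤ) (t : Fin n → RF k n) (d : RF k n)
    (i0 : Fin n) (h1 : ∀ i j σ, IsSimpleRefl k A j σ → σ (t i) = t i) (hd : d ^ 2 = t i0)
    (hd' : ∀ j σ, IsSimpleRefl k A j σ → σ d = - d)
    (halg : ∀ i, IsAlgebraic (IntermediateField.adjoin k (Set.range t)) (xv k i : RF k n))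
    (h2 : ∀ τ : AlgebraicClosure (RF k n) ≃ₐ[k] AlgebraicClosure (RF k n),
      (∀ i, τ (algebraMap _ _ (t i)) = algebraMap _ _ (t i)) →
      ∃ w ∈ weylGroup k A, ∀ i, τ (algebraMap (RF k n) _ (xv k i)) =
        algebraMap (RF k n) _ (w (xv k i))) :
    Good k A := by
  refine ⟨t, d, i0, DiscRat.algInd_of xv_algInd halg, ?_, hd, hd'⟩
  apply le_antisymm
  · rw [IntermediateField.adjoin_le_iff]
    rintro _ ⟨i, rfl⟩
    exact (mem_fixed_iff A _).2 fun j σ h => h1 i j σ h
  · intro f hf
    rw [IntermediateField.mem_fixedField_iff] at hf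
    set E := IntermediateField.adjoin k (Set.range t) with hE
    have hcz : CharZero E := charZero_of_injective_algebraMap (algebraMap k E).injective
    have hEK : Algebra.IsAlgebraic E (RF k n) := by
      have hle : (⊤ : IntermediateField k (RF k n)) ≤
          (algebraicClosure E (RF k n)).restrictScalars k := by
        rw [← adjoin_xv, IntermediateField.adjoin_le_iff]
        rintro _ ⟨i, rfl⟩
        rw [SetLike.mem_coe, IntermediateField.mem_restrictScalars, mem_algebraicClosure_iff]
        exact halg i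
      refine ⟨fun x => ?_⟩
      have hx := hle (IntermediateField.mem_top (x := x))
      rwa [IntermediateField.mem_restrictScalars, mem_algebraicClosure_iff] at hx
    have hEO : Algebra.IsAlgebraic E (AlgebraicClosure (RF k n)) :=
      Algebra.IsAlgebraic.trans E (RF k n) (AlgebraicClosure (RF k n))
    have : IsAlgClosure E (AlgebraicClosure (RF k n)) := ⟨inferInstance, inferInstance⟩
    have : Normal E (AlgebraicClosure (RF k n)) := IsAlgClosure.normal E _
    have : IsGalois E (AlgebraicClosure (RF k n)) := ⟨⟩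
    have hfix : ∀ τ : AlgebraicClosure (RF k n) ≃ₐ[E] AlgebraicClosure (RF k n),
        τ (algebraMap (RF k n) _ f) = algebraMap (RF k n) _ f := by
      intro τ
      obtain ⟨w, hw, hwx⟩ := h2 (τ.restrictScalars k) (fun i => by
        have hti : t i ∈ E := IntermediateField.subset_adjoin k _ ⟨i, rfl⟩
        exact τ.commutes (⟨t i, hti⟩ : E))
      have h3 : ((τ.restrictScalars k : AlgebraicClosure (RF k n) →ₐ[k]
          AlgebraicClosure (RF k n)).comp
            (IsScalarTower.toAlgHom k (RF k n) (AlgebraicClosure (RF k n))))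
          = (IsScalarTower.toAlgHom k (RF k n) (AlgebraicClosure (RF k n))).comp
            (w : RF k n →ₐ[k] RF k n) := hom_ext hwx
      have h4 := DFunLike.congr_fun h3 f
      have h5 : τ (algebraMap (RF k n) _ f) = algebraMap (RF k n) _ (w f) := h4
      rw [h5, hf w hw]
    obtain ⟨y, hy⟩ := (InfiniteGalois.mem_range_algebraMap_iff_fixed _).2 hfix
    have h6 : (y : RF k n) = f := (algebraMap (RF k n) (AlgebraicClosure (RF k n))).injective hy
    rw [← h6]
    exact y.2

/-- the invariants of the rotation subgroup -/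
theorem rot_of_good [CharZero k] {A : Matrix (Fin n) (Fin n) ℤ} (hA : ∀ j, A j j = 2)
    {t : Fin n → RF k n} {d : RF k n} {i0 : Fin n} (ht : AlgebraicIndependent k t)
    (hg : IntermediateField.adjoin k (Set.range t) =
      IntermediateField.fixedField (weylGroup k A))
    (hd : d ^ 2 = t i0) (hd' : ∀ j σ, IsSimpleRefl k A j σ → σ d = - d) :
    AlgebraicIndependent k (Function.update t i0 d) ∧
    IntermediateField.adjoin k (Set.range (Function.update t i0 d)) =
      IntermediateField.fixedField (rotGroup k A) := by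
  have hcz : CharZero (RF k n) := charZero_of_injective_algebraMap
    (algebraMap k (RF k n)).injective
  have ht0 : t i0 ≠ 0 := ht.ne_zero i0
  have hd0 : d ≠ 0 := by
    rintro rfl
    apply ht0
    rw [← hd]
    ring
  set L := IntermediateField.adjoin k (Set.range (Function.update t i0 d)) with hL
  have hdL : d ∈ L := IntermediateField.subset_adjoin k _ ⟨i0, Function.update_self i0 d t⟩
  have htL : ∀ i, t i ∈ L := by
    intro i
    by_cases hi : i = i0
    · rw [hi, ← hd]
      exact pow_mem hdL 2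
    · exact IntermediateField.subset_adjoin k _ ⟨i, Function.update_of_ne hi d t⟩
  have hle : IntermediateField.adjoin k (Set.range t) ≤ L := by
    rw [IntermediateField.adjoin_le_iff]
    rintro _ ⟨i, rfl⟩
    exact htL i
  have hti : ∀ i j σ, IsSimpleRefl k A j σ → σ (t i) = t i := by
    intro i
    have h : t i ∈ IntermediateField.fixedField (weylGroup k A) := by
      rw [← hg]
      exact IntermediateField.subset_adjoin k _ ⟨i, rfl⟩
    exact (mem_fixed_iff A _).1 h
  refine ⟨DiscRat.algInd_of ht fun i => isAlgebraic_algebraMap (⟨t i, htL i⟩ : L), ?_⟩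
  apply le_antisymm
  · rw [hL, IntermediateField.adjoin_le_iff]
    rintro _ ⟨i, rfl⟩
    unfold rotGroup
    rw [SetLike.mem_coe, wbasic_mem]
    rintro _ ⟨i', j', σ, σ', h1, h2, rfl⟩
    rw [AlgEquiv.mul_apply]
    by_cases hi : i = i0
    · subst hi
      rw [Function.update_self, hd' _ _ h2, map_neg, hd' _ _ h1, neg_neg]
    · rw [Function.update_of_ne hi, hti _ _ _ h2, hti _ _ _ h1]
  · intro f hf
    unfold rotGroup at hf
    rw [wbasic_mem] at hf
    have hf2 : ∀ i j σ σ', IsSimpleRefl k A i σ → IsSimpleRefl k A j σ' → σ (σ' f) = f :=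
      fun i j σ σ' h1 h2 => by
        have := hf (σ * σ') ⟨i, j, σ, σ', h1, h2, rfl⟩
        rwa [AlgEquiv.mul_apply] at this
    obtain ⟨σ0, hσ0⟩ := exists_simpleRefl (k := k) A i0 (hA i0)
    have hf3 : ∀ j σ, IsSimpleRefl k A j σ → σ f = σ0 f := by
      intro j σ hσ
      have h1 := hf2 j i0 σ σ0 hσ hσ0
      have h2 : σ (σ (σ0 f)) = σ0 f := by
        rw [← AlgEquiv.mul_apply, hσ.sq (hA j), AlgEquiv.one_apply]
      rwa [h1] at h2
    have hg1 : f + σ0 f ∈ L := by
      apply hle
      rw [hg, mem_fixed_iff]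
      intro j σ hσ
      rw [map_add, hf3 j σ hσ, hf2 j i0 σ σ0 hσ hσ0, add_comm]
    have hg2 : (f - σ0 f) / d ∈ L := by
      apply hle
      rw [hg, mem_fixed_iff]
      intro j σ hσ
      rw [map_div₀, map_sub, hf3 j σ hσ, hf2 j i0 σ σ0 hσ hσ0, hd' j σ hσ, div_neg, ← neg_div,
        neg_sub]
    have h3 : f = (f + σ0 f + d * ((f - σ0 f) / d)) / 2 := by
      field_simp
      ring
    rw [h3]
    exact div_mem (add_mem hg1 (mul_mem hdL hg2)) (ofNat_mem L 2)

/-- every element of the Weyl group acts linearly on the variables; automorphisms extend to the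
algebraic closure -/
theorem exists_extend [CharZero k] (σ : RF k n ≃ₐ[k] RF k n) :
    ∃ τ : AlgebraicClosure (RF k n) ≃ₐ[k] AlgebraicClosure (RF k n),
      ∀ f, τ (algebraMap _ _ f) = algebraMap _ _ (σ f) := by
  have h : ∀ f : RF k n, (IsAlgClosure.equivOfEquiv (AlgebraicClosure (RF k n))
      (AlgebraicClosure (RF k n)) (σ : RF k n ≃+* RF k n))
        (algebraMap (RF k n) (AlgebraicClosure (RF k n)) f)
      = algebraMap (RF k n) (AlgebraicClosure (RF k n)) (σ f) := fun f =>
    IsAlgClosure.equivOfEquiv_algebraMap _ _ _ f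
  refine ⟨AlgEquiv.ofRingEquiv (f := IsAlgClosure.equivOfEquiv (AlgebraicClosure (RF k n))
      (AlgebraicClosure (RF k n)) (σ : RF k n ≃+* RF k n)) ?_, h⟩
  intro x
  rw [IsScalarTower.algebraMap_apply k (RF k n) (AlgebraicClosure (RF k n)), h, σ.commutes]

end CM83
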