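import Pool.Agent.H.MP_83e36b_nt.cm.E6RD
import Pool.Agent.H.MP_83e36b_nt.cm.E6W1
import Pool.Agent.H.MP_83e36b_nt.cm.E6Fix
import Pool.Agent.H.MP_83e36b_nt.cm.E6Del
import Pool.Agent.H.MP_83e36b_nt.cm.CoreEx
import Pool.Agent.H.MP_83e36b_nt.cm.WBasic

/-! Module E6Main: the main theorem for the type `E_6`. -/

namespace CM83

universe u

variable (k : Type u) [Field k] [CharZero k]

/-- the coordinates of `v` with respect to the simple roots -/
def co6 (v : V 6) : Fin 6 → ℚ :=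
  let c0 := v 5 / 3
  let c5 := (v 4 + c0) / 2
  let c4 := (v 3 + c0 + 2 * c5) / 2
  let c3 := (v 2 + c0 + 2 * c4) / 2
  ![c0, (v 0 + v 1 + 2 * c3) / 4, (v 1 - v 0 + 2 * c0 + 2 * c3) / 4, c3, c4, c5]

theorem E6Main_co6_add (u v : V 6) (i : Fin 6) : co6 (u + v) i = co6 u i + co6 v i := by
  fin_cases i <;> simp [co6] <;> ring

theorem E6Main_co6_zero (i : Fin 6) : co6 0 i = 0 := by
  fin_cases i <;> simp [co6]

theorem E6Main_co6_sr (i j : Fin 6) : co6 (sr j) i = if i = j then 1 else 0 := by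
  revert i j
  decide +kernel

theorem E6Main_expand (v : V 6) : ∑ i, co6 v i • sr i = v := by
  funext j
  rw [Finset.sum_apply]
  simp only [Fin.sum_univ_six, Pi.smul_apply, smul_eq_mul]
  fin_cases j <;> simp [co6, sr] <;> ring

theorem E6Main_val {F : Type*} [Field F] [CharZero F] (f : V 6 →+ F) (v : V 6) :
    f v = ∑ i, ((co6 v i : ℚ) : F) * f (sr i) := by
  conv_lhs => rw [← E6Main_expand v]
  rw [map_sum]
  exact Finset.sum_congr rfl fun i _ => map_q f _ _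

theorem E6Main_ext {F : Type*} [Field F] [CharZero F] {f g : V 6 →+ F}
    (h : ∀ i, f (sr i) = g (sr i)) (v : V 6) : f v = g v := by
  rw [E6Main_val f, E6Main_val g]
  exact Finset.sum_congr rfl fun i _ => by rw [h]

theorem E6Main_cartan (i j : Fin 6) : B6 (sr i) (sr j) / 12 = (CartanMatrix.E₆ i j : ℚ) := by
  rw [B6_apply]
  revert i j
  decide +kernel

/-- the vector `v` as a linear form in the variables -/
theorem exists_z6 : ∃ ζ : V 6 →+ RF k 6, (∀ j, ζ (sr j) = xv k j) ∧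
    AlgebraicIndependent k (fun i => ζ (Pi.single i 1)) ∧
    ∀ j σ, IsSimpleRefl k CartanMatrix.E₆ j σ → ∀ v, σ (ζ v) = ζ (rf6 (sr j) v) := by
  have : CharZero (RF k 6) := algebraRat.charZero _
  let ζ : V 6 →+ RF k 6 := AddMonoidHom.mk' (fun v => ∑ i, ((co6 v i : ℚ) : RF k 6) * xv k i) (by
    intro u v
    rw [← Finset.sum_add_distrib]
    refine Finset.sum_congr rfl fun i _ => ?_
    rw [E6Main_co6_add, Rat.cast_add, add_mul])
  have hζ : ∀ v, ζ v = ∑ i, ((co6 v i : ℚ) : RF k 6) * xv k i := fun v => rfl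
  have h1 : ∀ j, ζ (sr j) = xv k j := by
    intro j
    rw [hζ]
    simp only [E6Main_co6_sr, apply_ite (Rat.cast : ℚ → RF k 6), Rat.cast_one, Rat.cast_zero,
      ite_mul, one_mul, zero_mul, Finset.sum_ite_eq', Finset.mem_univ, if_true]
  refine ⟨ζ, h1, ?_, ?_⟩
  · refine DiscRat.algInd_of (xv_algInd (k := k) (n := 6)) fun j => ?_
    have h2 : (xv k j : RF k 6) ∈
        IntermediateField.adjoin k (Set.range fun i => ζ (Pi.single i 1)) := by
      rw [← h1 j]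
      have h3 : sr j = ∑ i, sr j i • (Pi.single i 1 : V 6) := by
        funext l
        simp [Finset.sum_apply, Pi.single_apply]
      rw [h3, map_sum]
      refine sum_mem fun i _ => ?_
      rw [map_q]
      refine mul_mem (SubfieldClass.ratCast_mem _ _) ?_
      exact IntermediateField.subset_adjoin _ _ ⟨i, rfl⟩
    exact isAlgebraic_algebraMap (⟨_, h2⟩ :
      IntermediateField.adjoin k (Set.range fun i => ζ (Pi.single i 1)))
  · intro j σ hσ v
    let r : V 6 →+ V 6 := AddMonoidHom.mk' (rf6 (sr j)) (rf6_add (sr j))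
    have h2 : ∀ v, (σ : RF k 6 →+* RF k 6).toAddMonoidHom.comp ζ v = ζ.comp r v := by
      apply E6Main_ext
      intro i
      change σ (ζ (sr i)) = ζ (rf6 (sr j) (sr i))
      rw [h1, hσ i, rf6, map_sub, map_q, h1, h1, E6Main_cartan, Rat.cast_intCast]
    exact h2 v

/-- elements of the linear group and automorphisms -/
theorem z6_group {ζ : V 6 →+ RF k 6} (hζ : ∀ j, ζ (sr j) = xv k j)
    (h : ∀ j σ, IsSimpleRefl k CartanMatrix.E₆ j σ → ∀ v, σ (ζ v) = ζ (rf6 (sr j) v))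
    {g : V 6 ≃ₗ[ℚ] V 6} (hg : g ∈ W6) :
    ∃ w ∈ weylGroup k CartanMatrix.E₆, ∀ v, w (ζ v) = ζ (g v) := by
  induction hg using Subgroup.closure_induction with
  | mem g hg =>
    obtain ⟨j, hj⟩ := hg
    have hA : CartanMatrix.E₆ j j = 2 := by
      fin_cases j <;> rfl
    obtain ⟨σ, hσ⟩ := exists_simpleRefl (k := k) CartanMatrix.E₆ j hA
    exact ⟨σ, Subgroup.subset_closure ⟨j, hσ⟩, fun v => by rw [h j σ hσ v, hj v]⟩
  | one => exact ⟨1, one_mem _, fun v => rfl⟩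
  | mul g1 g2 _ _ h1 h2 =>
    obtain ⟨w1, hw1, e1⟩ := h1
    obtain ⟨w2, hw2, e2⟩ := h2
    exact ⟨w1 * w2, mul_mem hw1 hw2, fun v => by
      rw [AlgEquiv.mul_apply, e2, e1, LinearEquiv.mul_apply]⟩
  | inv g _ h1 =>
    obtain ⟨w, hw, e⟩ := h1
    refine ⟨w⁻¹, inv_mem hw, fun v => ?_⟩
    have h2 : g (g⁻¹ v) = v := by
      rw [← LinearEquiv.mul_apply, mul_inv_cancel, LinearEquiv.coe_one, id]
    conv_lhs => rw [← h2, ← e (g⁻¹ v)]
    rw [← AlgEquiv.mul_apply, inv_mul_cancel, AlgEquiv.one_apply]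

theorem E6Main_refl (j : Fin 6) : ∃ s : W6, ∀ v, (s : V 6 ≃ₗ[ℚ] V 6) v = rf6 (sr j) v := by
  rcases sr_mem j with h | h
  · obtain ⟨g, hg, h1⟩ := rf6_mem _ h
    exact ⟨⟨g, hg⟩, h1⟩
  · obtain ⟨g, hg, h1⟩ := rf6_mem _ h
    refine ⟨⟨g, hg⟩, fun v => ?_⟩
    change g v = _
    rw [h1 v, rf6, rf6, map_neg, smul_neg, neg_div, neg_smul, neg_neg]

section

variable {Ω : Type u} [Field Ω] [CharZero Ω] [Algebra k Ω]

/-- the generators at `θ` -/
def E6T {F : Type*} [Field F] (θ : V 6 →+ F) : Fin 6 → F :=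
  ![qA (y6 θ), qa (y6 θ), qI (y6 θ), qJ (y6 θ), m1 θ, m2 θ]

theorem E6Main_core [IsAlgClosed Ω] {ζ : V 6 →+ Ω}
    (hζ : AlgebraicIndependent k fun i => ζ (Pi.single i 1)) :
    ∃ (θ : V 6 →+ Ω) (w1 : W6), Core k R6 ζ θ w1 ∧
      ∀ v, (w1 : V 6 ≃ₗ[ℚ] V 6) v = io6 v := by
  have : Finite W6 := W6_finite
  have := Fintype.ofFinite W6
  obtain ⟨θ0, w0, h0⟩ := core_exists R6 hζ
  have hsq : ∀ v, (w0 : V 6 ≃ₗ[ℚ] V 6) ((w0 : V 6 ≃ₗ[ℚ] V 6) v) = v := by
    intro v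
    have h1 := congrArg (fun g : W6 => (g : V 6 ≃ₗ[ℚ] V 6) v) h0.sq
    simpa using h1
  have hroot : ∀ α ∈ pos6, (w0 : V 6 ≃ₗ[ℚ] V 6) α ≠ α := by
    intro α hα
    obtain ⟨s, hs, rfl⟩ := R6_surj hα
    have h1 := h0.root s hs
    rwa [R6_ρ] at h1
  obtain ⟨g, hg, h1⟩ := E6W1 w0.2 hsq hroot
  refine ⟨R6.tw θ0 ⟨g, hg⟩, (⟨g, hg⟩ : W6)⁻¹ * w0 * ⟨g, hg⟩, h0.conj ⟨g, hg⟩, fun v => ?_⟩
  change g⁻¹ ((w0 : V 6 ≃ₗ[ℚ] V 6) (g v)) = io6 v
  rw [h1 v, ← LinearEquiv.mul_apply, inv_mul_cancel, LinearEquiv.coe_one, id]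

variable {k}

theorem E6Main_S2 (y : Fin 4 → Ω) : qS2 y = -12 * (qI y + 3 * qA y * qa y) := by
  have h := qI_eq y
  linear_combination (12 : Ω) * h

theorem E6Main_S3 (y : Fin 4 → Ω) : qS3 y = 8 * (qJ y + 3 / 4 * (qI y + 3 * qA y * qa y) *
    qA y ^ 2 + 27 * qa y ^ 2 - 9 / 8 * qA y ^ 3 * qa y - qA y ^ 6 / 256) := by
  have h := qJ_eq y
  rw [E6Main_S2] at h
  linear_combination (-8 : Ω) * h

theorem E6Main_qDu_sq (y : Fin 4 → Ω) : qDu y ^ 2 =
    - 4 * (-12 * (qI y + 3 * qA y * qa y)) ^ 3 -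
    27 * (8 * (qJ y + 3 / 4 * (qI y + 3 * qA y * qa y) *
    qA y ^ 2 + 27 * qa y ^ 2 - 9 / 8 * qA y ^ 3 * qa y - qA y ^ 6 / 256)) ^ 2 := by
  rw [qDu_sq, E6Main_S2, E6Main_S3]

/-- the automorphisms over the group fix the generators -/
theorem E6Main_fixed {ζ θ : V 6 →+ Ω} {w1 : W6} (h : Core k R6 ζ θ w1)
    (hw1 : ∀ v, (w1 : V 6 ≃ₗ[ℚ] V 6) v = io6 v) (τ : Ω ≃ₐ[k] Ω) (w : W6)
    (hτ : ∀ v, τ (ζ v) = ζ (R6.ρ w v)) :
    (∀ i, τ (E6T θ i) = E6T θ i) ∧ τ (qDt (y6 θ)) = ((R6.chi w : ℚ) : Ω) * qDt (y6 θ) := by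
  have : Finite W6 := W6_finite
  obtain ⟨c, hc, hc'⟩ := h.fwd τ w hτ
  have hio : ∀ v, (c : V 6 ≃ₗ[ℚ] V 6) (io6 v) = io6 ((c : V 6 ≃ₗ[ℚ] V 6) v) := by
    intro v
    have h1 := congrArg (fun g : W6 => (g : V 6 ≃ₗ[ℚ] V 6) v) hc
    change (c : V 6 ≃ₗ[ℚ] V 6) ((w1 : V 6 ≃ₗ[ℚ] V 6) v) =
      (w1 : V 6 ≃ₗ[ℚ] V 6) ((c : V 6 ≃ₗ[ℚ] V 6) v) at h1
    rwa [hw1, hw1] at h1
  have hθ' : ∀ v, ((τ : Ω →+* Ω).toAddMonoidHom.comp θ) v = θ ((c : V 6 ≃ₗ[ℚ] V 6) v) := by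
    intro v
    rw [← R6_ρ]
    exact hc' v
  obtain ⟨m1', m2', m3', m4', m5', m6'⟩ := E6_map θ (τ : Ω →+* Ω)
  obtain ⟨n1, n2, n3, n4, n5, n6⟩ := E6_invariant θ _ c.2 hio hθ'
  have f1 : τ (qA (y6 θ)) = qA (y6 θ) := m1'.symm.trans n1
  have f2 : τ (qa (y6 θ)) = qa (y6 θ) := m2'.symm.trans n2
  have f3 : τ (qI (y6 θ)) = qI (y6 θ) := m3'.symm.trans n3
  have f4 : τ (qJ (y6 θ)) = qJ (y6 θ) := m4'.symm.trans n4
  have f5 : τ (m1 θ) = m1 θ := m5'.symm.trans n5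
  have f6 : τ (m2 θ) = m2 θ := m6'.symm.trans n6
  refine ⟨?_, ?_⟩
  · intro i
    fin_cases i
    exacts [f1, f2, f3, f4, f5, f6]
  · let lam : V 6 →+ Ω := AddMonoidHom.mk' (fun v => (θ v - θ ((w1 : V 6 ≃ₗ[ℚ] V 6) v)) / 2) (by
      intro u v
      rw [map_add, map_add, map_add]
      ring)
    have hlam : ∀ v, lam v = (θ v - θ ((w1 : V 6 ≃ₗ[ℚ] V 6) v)) / 2 := fun v => rfl
    have hio4 : ∀ i : Fin 4, io6 (Pi.single (Fin.castLE (by norm_num) i) 1) =
        - (Pi.single (Fin.castLE (by norm_num) i) 1 : V 6) := by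
      decide +kernel
    have hio5 : io6 (Pi.single 4 1) = (Pi.single 4 1 : V 6) := by decide +kernel
    have hio6 : io6 (Pi.single 5 1) = (Pi.single 5 1 : V 6) := by decide +kernel
    have hy : y6 lam = y6 θ := by
      funext i
      rw [y6, y6, hlam, hw1, hio4, map_neg]
      ring
    have h4 : lam (Pi.single 4 1) = 0 := by
      rw [hlam, hw1, hio5, sub_self, zero_div]
    have h5 : lam (Pi.single 5 1) = 0 := by
      rw [hlam, hw1, hio6, sub_self, zero_div]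
    have hτl : ∀ v, τ (lam v) = lam (R6.ρ c v) := by
      intro v
      rw [hlam, hlam, map_div₀, map_sub, hc', hc', map_ofNat, R6_ρ, R6_ρ]
      have h1 := congrArg (fun g : W6 => (g : V 6 ≃ₗ[ℚ] V 6) v) hc
      change (c : V 6 ≃ₗ[ℚ] V 6) ((w1 : V 6 ≃ₗ[ℚ] V 6) v) =
        (w1 : V 6 ≃ₗ[ℚ] V 6) ((c : V 6 ≃ₗ[ℚ] V 6) v) at h1
      rw [h1]
    have hprod := E6_prod lam h4 h5
    rw [← R6_prod, hy] at hprod
    have hchi := R6.chi_spec lam c
    have h6 : τ (∏ s ∈ R6.S, lam (R6.a s)) =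
        ((R6.chi c : ℚ) : Ω) * ∏ s ∈ R6.S, lam (R6.a s) := by
      rw [← hchi, map_prod]
      exact Finset.prod_congr rfl fun s _ => hτl _
    have hDu : τ (qDu (y6 θ) ^ 2) = qDu (y6 θ) ^ 2 := by
      rw [E6Main_qDu_sq]
      simp only [map_sub, map_mul, map_pow, map_add, map_neg, map_div₀, map_ofNat, f1, f2, f3, f4]
    have hDu0 : qDu (y6 θ) ≠ 0 := by
      have hi := E6_qu_inj h.inj
      rw [qDu]
      refine mul_ne_zero (mul_ne_zero ?_ ?_) ?_
      · exact sub_ne_zero.2 (hi.ne (by decide))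
      · exact sub_ne_zero.2 (hi.ne (by decide))
      · exact sub_ne_zero.2 (hi.ne (by decide))
    rw [hprod, map_div₀, map_mul, hDu, map_pow, map_ofNat, ← mul_div_assoc, ← mul_assoc] at h6
    have h13 : (13824 : Ω) ^ 2 ≠ 0 := pow_ne_zero _ (by norm_num)
    have h7 := (div_left_inj' h13).1 h6
    have h8 := mul_right_cancel₀ (pow_ne_zero 2 hDu0) h7
    rw [h8]
    congr 1
    obtain ⟨j, hj, hj'⟩ := h.sgn
    have hj2 := hj' τ w c hc hτ hc'
    rw [R6_card] at hj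
    have hj1 : j ^ 2 = 1 := by
      rw [hj]
      norm_num
    have hj3 : τ j = j := by
      rcases mul_self_eq_one_iff.1 ((sq j).symm.trans hj1) with h | h
      · rw [h, map_one]
      · rw [h, map_neg, map_one]
    have hj0 : j ≠ 0 := by
      rintro rfl
      norm_num at hj1
    rw [hj3] at hj2
    have h9 : ((R6.chi w * R6.chi c : ℚ) : Ω) = 1 := by
      apply mul_right_cancel₀ hj0
      rw [← hj2, one_mul]
    have h10 : R6.chi w * R6.chi c = 1 := by exact_mod_cast h9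
    rcases R6.chi_sq c with h11 | h11
    · rw [h11, mul_one] at h10
      rw [h11, h10]
    · rw [h11] at h10
      have h12 : R6.chi w = -1 := by linarith
      rw [h11, h12]

end

section

variable {Ω : Type u} [Field Ω] [CharZero Ω] [Algebra k Ω] {k}

/-- everything is algebraic over the generators -/
theorem E6Main_alg {ζ θ : V 6 →+ Ω} {w1 : W6} (h : Core k R6 ζ θ w1) (v : V 6) :
    IsAlgebraic (IntermediateField.adjoin k (Set.range (E6T θ))) (ζ v) := by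
  set E := IntermediateField.adjoin k (Set.range (E6T θ)) with hE
  set M := algebraicClosure E Ω with hM
  have hEM : ∀ x ∈ E, x ∈ M := fun x hx => by
    have h1 := M.algebraMap_mem ⟨x, hx⟩
    exact h1
  have hT : ∀ i, E6T θ i ∈ M := fun i => hEM _ (IntermediateField.subset_adjoin _ _ ⟨i, rfl⟩)
  have hq : ∀ q : ℚ, (q : Ω) ∈ M := fun q => SubfieldClass.ratCast_mem _ _
  -- elements algebraic over `M` belong to `M`
  have hcl : ∀ (x : Ω) (P : Polynomial M), P ≠ 0 → Polynomial.aeval x P = 0 → x ∈ M := by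
    intro x P hP hx
    have h1 : IsAlgebraic M x := ⟨P, hP, hx⟩
    have h2 : IsAlgebraic E x := h1.restrictScalars E
    exact mem_algebraicClosure_iff.2 h2
  have hA : qA (y6 θ) ∈ M := hT 0
  have ha : qa (y6 θ) ∈ M := hT 1
  have hI : qI (y6 θ) ∈ M := hT 2
  have hJ : qJ (y6 θ) ∈ M := hT 3
  have hm1 : m1 θ ∈ M := hT 4
  have hm2 : m2 θ ∈ M := hT 5
  have hS2 : qS2 (y6 θ) ∈ M := by
    rw [E6Main_S2]
    have h1 : (12 : Ω) ∈ M := by simp
    have h2 : (3 : Ω) ∈ M := by simp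
    exact mul_mem (neg_mem h1) (add_mem hI (mul_mem (mul_mem h2 hA) ha))
  have hS3 : qS3 (y6 θ) ∈ M := by
    rw [E6Main_S3]
    have h1 : (8 : Ω) ∈ M := by simp
    have h2 : (3 : Ω) ∈ M := by simp
    have h3 : (4 : Ω) ∈ M := by simp
    have h4 : (27 : Ω) ∈ M := by simp
    have h5 : (9 : Ω) ∈ M := by simp
    have h6 : (256 : Ω) ∈ M := by simp
    exact mul_mem h1 (sub_mem (sub_mem (add_mem (add_mem hJ (mul_mem (mul_mem (div_mem h2 h3)
      (add_mem hI (mul_mem (mul_mem h2 hA) ha))) (pow_mem hA 2))) (mul_mem h4 (pow_mem ha 2)))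
      (mul_mem (mul_mem (div_mem h5 h1) (pow_mem hA 3)) ha)) (div_mem (pow_mem hA 6) h6))
  have hu : ∀ j, qu (y6 θ) j ∈ M := by
    intro j
    have h1 : qu (y6 θ) j ^ 3 + qS2 (y6 θ) * qu (y6 θ) j - qS3 (y6 θ) = 0 := by
      have h2 := qu_sum (y6 θ)
      have h3 : qu (y6 θ) 2 = - qu (y6 θ) 0 - qu (y6 θ) 1 := by linear_combination h2
      rw [qS2, qS3]
      fin_cases j
      · change qu (y6 θ) 0 ^ 3 + _ * qu (y6 θ) 0 - _ = 0
        rw [h3]
        ring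
      · change qu (y6 θ) 1 ^ 3 + _ * qu (y6 θ) 1 - _ = 0
        rw [h3]
        ring
      · change qu (y6 θ) 2 ^ 3 + _ * qu (y6 θ) 2 - _ = 0
        rw [h3]
        ring
    refine hcl _ (Polynomial.X ^ 3 + Polynomial.C (⟨_, hS2⟩ : M) * Polynomial.X -
      Polynomial.C (⟨_, hS3⟩ : M)) ?_ ?_
    · intro h2
      have h3 := congrArg (fun P => Polynomial.coeff P 3) h2
      simp at h3
    · simp only [map_sub, map_add, map_mul, map_pow, Polynomial.aeval_X, Polynomial.aeval_C]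
      exact h1
  have h2' : (2 : Ω) ∈ M := by simp
  have h4' : (4 : Ω) ∈ M := by simp
  have h24' : (24 : Ω) ∈ M := by simp
  have h6' : (6 : Ω) ∈ M := by simp
  have h48' : (48 : Ω) ∈ M := by simp
  have hs1 : qs1 (y6 θ) ∈ M := hA
  have hs2 : qs2 (y6 θ) ∈ M := by
    have h1 : qs2 (y6 θ) = (qs1 (y6 θ) ^ 2 - qu (y6 θ) 0) / 4 := by
      simp only [qu, Matrix.cons_val_zero]
      ring
    rw [h1]
    exact div_mem (sub_mem (pow_mem hs1 2) (hu 0)) h4'
  have hP : qP (y6 θ) ∈ M := by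
    have h1 : qP (y6 θ) = (qu (y6 θ) 1 - qu (y6 θ) 2) / 24 := by
      simp only [qu, Matrix.cons_val_zero, Matrix.cons_val_one, Matrix.cons_val]
      ring
    rw [h1]
    exact div_mem (sub_mem (hu 1) (hu 2)) h24'
  have hs3 : qs3 (y6 θ) ∈ M := by
    have h1 : qs3 (y6 θ) = qa (y6 θ) + qs1 (y6 θ) * qs2 (y6 θ) / 6 - qs1 (y6 θ) ^ 3 / 48 := by
      rw [qa]
      ring
    rw [h1]
    exact sub_mem (add_mem ha (div_mem (mul_mem hs1 hs2) h6')) (div_mem (pow_mem hs1 3) h48')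
  have hy : ∀ i, y6 θ i ∈ M := by
    intro i
    generalize y6 θ = y at *
    have h1 : y i ^ 8 - qs1 y * y i ^ 6 + qs2 y * y i ^ 4 - qs3 y * y i ^ 2 + qP y ^ 2 = 0 := by
      fin_cases i <;> simp only [qs1, qs2, qs3, qP, Fin.zero_eta, Fin.mk_one, Fin.reduceFinMk] <;>
        ring
    refine hcl _ (Polynomial.X ^ 8 - Polynomial.C (⟨_, hs1⟩ : M) * Polynomial.X ^ 6 +
      Polynomial.C (⟨_, hs2⟩ : M) * Polynomial.X ^ 4 -
      Polynomial.C (⟨_, hs3⟩ : M) * Polynomial.X ^ 2 + Polynomial.C (⟨_, hP⟩ : M) ^ 2) ?_ ?_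
    · intro h2
      have h3 := congrArg (fun P => Polynomial.coeff P 8) h2
      simp [← Polynomial.C_pow, Polynomial.coeff_X_pow] at h3
    · simp only [map_sub, map_add, map_mul, map_pow, Polynomial.aeval_X, Polynomial.aeval_C]
      exact h1
  have hinj := E6_qu_inj h.inj
  have hν : ∀ a b c : Fin 3, a ≠ b → a ≠ c → b ≠ c →
      nu6 θ a + nu6 θ b + nu6 θ c = 0 →
      nu6 θ a * qu (y6 θ) a + nu6 θ b * qu (y6 θ) b + nu6 θ c * qu (y6 θ) c = m1 θ →
      nu6 θ a * qu (y6 θ) a ^ 2 + nu6 θ b * qu (y6 θ) b ^ 2 + nu6 θ c * qu (y6 θ) c ^ 2 = m2 θ →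
      nu6 θ a ∈ M := by
    intro a b c hab hac hbc e0 e1 e2
    have h1 : (qu (y6 θ) a - qu (y6 θ) b) * (qu (y6 θ) a - qu (y6 θ) c) ≠ 0 :=
      mul_ne_zero (sub_ne_zero.2 (hinj.ne hab)) (sub_ne_zero.2 (hinj.ne hac))
    have h2 : nu6 θ a = (m2 θ - (qu (y6 θ) b + qu (y6 θ) c) * m1 θ) /
        ((qu (y6 θ) a - qu (y6 θ) b) * (qu (y6 θ) a - qu (y6 θ) c)) := by
      rw [eq_div_iff h1, ← e1, ← e2]
      linear_combination (qu (y6 θ) b * qu (y6 θ) c) * e0
    rw [h2]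
    exact div_mem (sub_mem hm2 (mul_mem (add_mem (hu b) (hu c)) hm1))
      (mul_mem (sub_mem (hu a) (hu b)) (sub_mem (hu a) (hu c)))
  have hsum : nu6 θ 0 + nu6 θ 1 + nu6 θ 2 = 0 := by
    simp only [nu6, Matrix.cons_val_zero, Matrix.cons_val_one, Matrix.cons_val]
    ring
  have hν0 : nu6 θ 0 ∈ M := by
    refine hν 0 1 2 (by decide) (by decide) (by decide) hsum rfl rfl
  have hν1 : nu6 θ 1 ∈ M := by
    refine hν 1 0 2 (by decide) (by decide) (by decide) ?_ ?_ ?_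
    · rw [← hsum]; ring
    · rw [m1]; ring
    · rw [m2]; ring
  have h5 : θ (Pi.single 5 1) ∈ M := by
    have h1 : θ (Pi.single 5 1) = - nu6 θ 0 / 2 := by
      simp only [nu6, Matrix.cons_val_zero]
      ring
    rw [h1]
    exact div_mem (neg_mem hν0) h2'
  have h4 : θ (Pi.single 4 1) ∈ M := by
    have h1 : θ (Pi.single 4 1) = θ (Pi.single 5 1) - nu6 θ 1 := by
      simp only [nu6, Matrix.cons_val_one, Matrix.cons_val_zero]
      ring
    rw [h1]
    exact sub_mem h5 hν1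
  have hi4 : ∀ i : Fin 4, θ (Pi.single (Fin.castLE (by norm_num) i) 1) ∈ M := by
    intro i
    have h1 : θ (Pi.single (Fin.castLE (by norm_num) i) 1) = y6 θ i / 2 := by
      rw [y6]
      ring
    rw [h1]
    exact div_mem (hy i) h2'
  have hi : ∀ i : Fin 6, θ (Pi.single i 1) ∈ M := by
    intro i
    fin_cases i
    exacts [hi4 0, hi4 1, hi4 2, hi4 3, h4, h5]
  have hθ : ∀ v, θ v ∈ M := by
    intro v
    have h1 : v = ∑ i, v i • (Pi.single i 1 : V 6) := by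
      funext j
      simp [Finset.sum_apply, Pi.single_apply]
    rw [h1, map_sum]
    refine sum_mem fun i _ => ?_
    rw [map_q]
    exact mul_mem (hq _) (hi i)
  have hle : IntermediateField.adjoin k (Set.range θ) ≤ M.restrictScalars k := by
    rw [IntermediateField.adjoin_le_iff]
    rintro _ ⟨v, rfl⟩
    exact hθ v
  obtain ⟨P, hP0, hP1⟩ := h.alg v
  have h1 : ζ v ∈ M := by
    let φ : IntermediateField.adjoin k (Set.range θ) →+* M :=
      { toFun := fun x => ⟨x.1, hle x.2⟩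
        map_one' := rfl
        map_zero' := rfl
        map_mul' := fun _ _ => rfl
        map_add' := fun _ _ => rfl }
    have hφ : Function.Injective φ := φ.injective
    refine hcl _ (P.map φ) ((Polynomial.map_ne_zero_iff hφ).2 hP0) ?_
    have h2 : (algebraMap M Ω).comp φ = algebraMap _ Ω := rfl
    rw [Polynomial.aeval_def, Polynomial.eval₂_map, h2]
    exact hP1
  exact mem_algebraicClosure_iff.1 h1

end

theorem E6Main_gen {Ω : Type u} [Field Ω] [CharZero Ω] [IsAlgClosed Ω] [Algebra k Ω]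
    [Algebra (RF k 6) Ω] [IsScalarTower k (RF k 6) Ω] [Algebra.IsAlgebraic (RF k 6) Ω]
    (hext : ∀ σ : RF k 6 ≃ₐ[k] RF k 6, ∃ τ : Ω ≃ₐ[k] Ω,
      ∀ f, τ (algebraMap (RF k 6) Ω f) = algebraMap (RF k 6) Ω (σ f)) :
    ∃ (t : Fin 6 → RF k 6) (p : RF k 6),
    (∀ i j σ, IsSimpleRefl k CartanMatrix.E₆ j σ → σ (t i) = t i) ∧
    (∀ j σ, IsSimpleRefl k CartanMatrix.E₆ j σ → σ p = - p) ∧
    27 * p ^ 2 = 4 * t 2 ^ 3 - t 3 ^ 2 ∧
    (∀ i, IsAlgebraic (IntermediateField.adjoin k (Set.range t)) (xv k i : RF k 6)) ∧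
    ∀ τ : Ω ≃ₐ[k] Ω,
      (∀ i, τ (algebraMap (RF k 6) Ω (t i)) = algebraMap (RF k 6) Ω (t i)) →
      ∃ w ∈ weylGroup k CartanMatrix.E₆, ∀ i, τ (algebraMap (RF k 6) Ω (xv k i)) =
        algebraMap (RF k 6) Ω (w (xv k i)) := by
  have hc0 : CharZero (RF k 6) := algebraRat.charZero _
  obtain ⟨ζ, hζ1, hζ2, hζ3⟩ := exists_z6 k
  let ι : RF k 6 →ₐ[k] Ω := IsScalarTower.toAlgHom k (RF k 6) Ω
  have hι : ∀ x, algebraMap (RF k 6) Ω x = ι x := fun x => rfl
  have hιi : Function.Injective ι := (algebraMap (RF k 6) Ω).injective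
  let Z : V 6 →+ Ω := (ι : RF k 6 →+* Ω).toAddMonoidHom.comp ζ
  have hZ : ∀ v, Z v = ι (ζ v) := fun v => rfl
  have hZa : AlgebraicIndependent k (fun i => Z (Pi.single i 1)) := hζ2.map' hιi
  obtain ⟨θ, w1, hC, hw1⟩ := E6Main_core k hZa
  -- fixed elements
  have hfix : ∀ x : Ω, (∀ τ : Ω ≃ₐ[RF k 6] Ω, τ x = x) → ∃ y, ι y = x := by
    intro x hx
    have : IsAlgClosure (RF k 6) Ω := ⟨inferInstance, inferInstance⟩
    have : Normal (RF k 6) Ω := IsAlgClosure.normal (RF k 6) Ω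
    have : IsGalois (RF k 6) Ω := ⟨⟩
    obtain ⟨y, hy⟩ := (InfiniteGalois.mem_range_algebraMap_iff_fixed x).2 hx
    exact ⟨y, hy⟩
  have hK : ∀ τ : Ω ≃ₐ[RF k 6] Ω, (∀ i, τ (E6T θ i) = E6T θ i) ∧
      τ (qDt (y6 θ)) = qDt (y6 θ) := by
    intro τ
    have h1 := E6Main_fixed hC hw1 (τ.restrictScalars k) 1 (fun v => by
      rw [map_one, Module.End.one_apply, hZ]
      exact τ.commutes _)
    rw [R6.chi_one, Rat.cast_one, one_mul] at h1
    exact h1
  choose t ht using fun i => hfix (E6T θ i) fun τ => (hK τ).1 i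
  obtain ⟨p, hp⟩ := hfix (qDt (y6 θ)) fun τ => (hK τ).2
  -- simple reflections
  have hs : ∀ j σ, IsSimpleRefl k CartanMatrix.E₆ j σ → (∀ i, σ (t i) = t i) ∧ σ p = - p := by
    intro j σ hσ
    obtain ⟨s, hs⟩ := E6Main_refl j
    obtain ⟨τ, hτ⟩ := hext σ
    obtain ⟨h1, h2⟩ := E6Main_fixed hC hw1 τ s (fun v => by
      rw [R6_ρ, hs, hZ, hZ, ← hζ3 j σ hσ v]
      exact hτ _)
    rw [R6_chi hs, Rat.cast_neg, Rat.cast_one, neg_one_mul] at h2
    refine ⟨fun i => hιi ?_, hιi ?_⟩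
    · rw [ht i, ← h1 i, ← ht i]
      exact (hτ _).symm
    · rw [map_neg, hp, ← h2, ← hp]
      exact (hτ _).symm
  refine ⟨t, p, fun i j σ hσ => (hs j σ hσ).1 i, fun j σ hσ => (hs j σ hσ).2, ?_, ?_, ?_⟩
  · apply hιi
    rw [map_sub, map_mul, map_mul, map_pow, map_pow, map_pow, map_ofNat, map_ofNat, hp, ht, ht]
    exact qDt_sq (y6 θ)
  · intro i
    have h1 := E6Main_alg hC (sr i)
    rw [hZ, hζ1] at h1
    have h2 : IntermediateField.adjoin k (Set.range (E6T θ)) =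
        (IntermediateField.adjoin k (Set.range t)).map ι := by
      rw [IntermediateField.adjoin_map, ← Set.range_comp]
      congr 2
      funext i
      exact (ht i).symm
    rw [h2] at h1
    let f := IntermediateField.equivMap (IntermediateField.adjoin k (Set.range t)) ι
    exact h1.of_ringHom_of_comp_eq (f := f) (g := ι) f.surjective hιi rfl
  · intro τ hτ
    have hθ' : ∀ i, E6T ((τ : Ω →+* Ω).toAddMonoidHom.comp θ) i = E6T θ i := by
      intro i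
      obtain ⟨m1', m2', m3', m4', m5', m6'⟩ := E6_map θ (τ : Ω →+* Ω)
      have h0 : ∀ i, τ (E6T θ i) = E6T θ i := fun i => by
        rw [← ht i]
        exact hτ i
      fin_cases i
      exacts [m1'.trans (h0 0), m2'.trans (h0 1), m3'.trans (h0 2), m4'.trans (h0 3),
        m5'.trans (h0 4), m6'.trans (h0 5)]
    obtain ⟨g, hg, hgi, hg'⟩ := E6_fix hC.inj (hθ' 0) (hθ' 1) (hθ' 2) (hθ' 3) (hθ' 4) (hθ' 5)
    obtain ⟨w, hw⟩ := hC.bwd τ ⟨g, hg⟩ (by
      apply Subtype.ext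
      apply LinearEquiv.ext
      intro v
      change g ((w1 : V 6 ≃ₗ[ℚ] V 6) v) = (w1 : V 6 ≃ₗ[ℚ] V 6) (g v)
      rw [hw1, hw1, hgi]) (fun v => by
      rw [R6_ρ]
      exact hg' v)
    obtain ⟨w', hw', hw''⟩ := z6_group k hζ1 hζ3 w.2
    refine ⟨w', hw', fun i => ?_⟩
    have h1 := hw (sr i)
    rw [R6_ρ, hZ, hZ, ← hw'', hζ1] at h1
    exact h1

/-- The generators before the last change: they come from a generic point `θ` of the dual side.
There are `A, a, I, J, m1, m2` in `k(x)^W` and `e` in `k(x)^W` such that the product of the roots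
is `e` times an element `p` of the field `k(x)` with `27 p^2 = 4 I^3 - J^2`. -/
theorem E6_generators : ∃ (t : Fin 6 → RF k 6) (p : RF k 6),
    (∀ i j σ, IsSimpleRefl k CartanMatrix.E₆ j σ → σ (t i) = t i) ∧
    (∀ j σ, IsSimpleRefl k CartanMatrix.E₆ j σ → σ p = - p) ∧
    27 * p ^ 2 = 4 * t 2 ^ 3 - t 3 ^ 2 ∧
    (∀ i, IsAlgebraic (IntermediateField.adjoin k (Set.range t)) (xv k i : RF k 6)) ∧
    ∀ τ : AlgebraicClosure (RF k 6) ≃ₐ[k] AlgebraicClosure (RF k 6),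
      (∀ i, τ (algebraMap _ _ (t i)) = algebraMap _ _ (t i)) →
      ∃ w ∈ weylGroup k CartanMatrix.E₆, ∀ i, τ (algebraMap (RF k 6) _ (xv k i)) =
        algebraMap (RF k 6) _ (w (xv k i)) := by
  have hcΩ : CharZero (AlgebraicClosure (RF k 6)) := algebraRat.charZero _
  exact E6Main_gen k fun σ => exists_extend σ

theorem good_E6 : Good k CartanMatrix.E₆ := by
  have hc0 : CharZero (RF k 6) := algebraRat.charZero _
  obtain ⟨t, p, h1, h2, h3, h4, h5⟩ := E6_generators k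
  have hind : AlgebraicIndependent k t := DiscRat.algInd_of (xv_algInd (k := k) (n := 6)) h4
  have hI : t 2 ≠ 0 := hind.ne_zero 2
  let t' : Fin 6 → RF k 6 :=
    ![3 * (4 * t 2 - (t 3 / t 2) ^ 2), t 0, t 1, t 4, t 5, t 3 / t 2]
  have e2 : t 2 = (t' 0 / 3 + t' 5 ^ 2) / 4 := by
    change t 2 = (3 * (4 * t 2 - (t 3 / t 2) ^ 2) / 3 + (t 3 / t 2) ^ 2) / 4
    ring
  have e3 : t 3 = t' 5 * t 2 := by
    change t 3 = t 3 / t 2 * t 2
    field_simp
  have hle : IntermediateField.adjoin k (Set.range t) ≤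
      IntermediateField.adjoin k (Set.range t') := by
    rw [IntermediateField.adjoin_le_iff]
    have hm : ∀ i, t' i ∈ IntermediateField.adjoin k (Set.range t') := fun i =>
      IntermediateField.subset_adjoin _ _ ⟨i, rfl⟩
    have hm2 : t 2 ∈ IntermediateField.adjoin k (Set.range t') := by
      rw [e2]
      exact div_mem (add_mem (div_mem (hm 0) (by simp)) (pow_mem (hm 5) 2)) (by simp)
    have hm3 : t 3 ∈ IntermediateField.adjoin k (Set.range t') := by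
      rw [e3]
      exact mul_mem (hm 5) hm2
    rintro _ ⟨i, rfl⟩
    fin_cases i
    exacts [hm 1, hm 2, hm2, hm3, hm 3, hm 4]
  refine good_of CartanMatrix.E₆ t' (9 * p / t 2) 0 ?_ ?_ ?_ ?_ ?_
  · intro i j σ hσ
    have hi := fun i => h1 i j σ hσ
    fin_cases i
    · change σ (3 * (4 * t 2 - (t 3 / t 2) ^ 2)) = 3 * (4 * t 2 - (t 3 / t 2) ^ 2)
      simp only [map_mul, map_sub, map_pow, map_div₀, map_ofNat, hi]
    · exact hi 0
    · exact hi 1
    · exact hi 4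
    · exact hi 5
    · change σ (t 3 / t 2) = t 3 / t 2
      rw [map_div₀, hi, hi]
  · change (9 * p / t 2) ^ 2 = 3 * (4 * t 2 - (t 3 / t 2) ^ 2)
    field_simp
    linear_combination 3 * h3
  · intro j σ hσ
    rw [map_div₀, map_mul, map_ofNat, h2 j σ hσ, h1 2 j σ hσ]
    ring
  · intro i
    obtain ⟨P, hP0, hP1⟩ := h4 i
    let φ : IntermediateField.adjoin k (Set.range t) →+*
        IntermediateField.adjoin k (Set.range t') :=
      { toFun := fun x => ⟨x.1, hle x.2⟩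
        map_one' := rfl
        map_zero' := rfl
        map_mul' := fun _ _ => rfl
        map_add' := fun _ _ => rfl }
    have hφ : Function.Injective φ := φ.injective
    refine ⟨P.map φ, (Polynomial.map_ne_zero_iff hφ).2 hP0, ?_⟩
    have h6 : (algebraMap (IntermediateField.adjoin k (Set.range t')) (RF k 6)).comp
        φ = algebraMap _ (RF k 6) := rfl
    rw [Polynomial.aeval_def, Polynomial.eval₂_map, h6]
    exact hP1
  · intro τ hτ
    apply h5 τ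
    have m2' : τ (algebraMap _ _ (t 2)) = algebraMap _ _ (t 2) := by
      rw [e2]
      simp only [map_div₀, map_add, map_pow, map_ofNat, hτ]
    have m3' : τ (algebraMap _ _ (t 3)) = algebraMap _ _ (t 3) := by
      rw [e3, map_mul, map_mul, hτ, m2']
    intro i
    fin_cases i
    exacts [hτ 1, hτ 2, m2', m3', hτ 3, hτ 4]

end CM83
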