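import Pool.Agent.H.MP_83e36b_nt.cm.OddC

/-! Module E7Main: the type `E_7`. -/

namespace CM83

universe u

/-- the simple reflections on integral vectors (coordinates with respect to the simple roots) -/
def E7Main_rf (j : Fin 7) (c : Fin 7 → ℤ) : Fin 7 → ℤ := fun i =>
  if i = j then c i - (c 0 * CartanMatrix.E₇ 0 j + c 1 * CartanMatrix.E₇ 1 j +
    c 2 * CartanMatrix.E₇ 2 j + c 3 * CartanMatrix.E₇ 3 j + c 4 * CartanMatrix.E₇ 4 j +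
    c 5 * CartanMatrix.E₇ 5 j + c 6 * CartanMatrix.E₇ 6 j) else c i

/-- the roots of `E_7` -/
def E7Main_roots : List (Fin 7 → ℤ) :=
  [![1, 0, 0, 0, 0, 0, 0], ![0, 1, 0, 0, 0, 0, 0], ![0, 0, 1, 0, 0, 0, 0], ![0, 0, 0, 1, 0, 0, 0],
    ![0, 0, 0, 0, 1, 0, 0], ![0, 0, 0, 0, 0, 1, 0], ![0, 0, 0, 0, 0, 0, 1],
    ![-1, 0, 0, 0, 0, 0, 0], ![1, 0, 1, 0, 0, 0, 0], ![0, -1, 0, 0, 0, 0, 0],
    ![0, 1, 0, 1, 0, 0, 0], ![0, 0, -1, 0, 0, 0, 0], ![0, 0, 1, 1, 0, 0, 0],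
    ![0, 0, 0, -1, 0, 0, 0], ![0, 0, 0, 1, 1, 0, 0], ![0, 0, 0, 0, -1, 0, 0],
    ![0, 0, 0, 0, 1, 1, 0], ![0, 0, 0, 0, 0, -1, 0], ![0, 0, 0, 0, 0, 1, 1],
    ![0, 0, 0, 0, 0, 0, -1], ![-1, 0, -1, 0, 0, 0, 0], ![1, 0, 1, 1, 0, 0, 0],
    ![0, -1, 0, -1, 0, 0, 0], ![0, 1, 1, 1, 0, 0, 0], ![0, 1, 0, 1, 1, 0, 0],
    ![0, 0, -1, -1, 0, 0, 0], ![0, 0, 1, 1, 1, 0, 0], ![0, 0, 0, -1, -1, 0, 0],
    ![0, 0, 0, 1, 1, 1, 0], ![0, 0, 0, 0, -1, -1, 0], ![0, 0, 0, 0, 1, 1, 1],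
    ![0, 0, 0, 0, 0, -1, -1], ![-1, 0, -1, -1, 0, 0, 0], ![1, 1, 1, 1, 0, 0, 0],
    ![1, 0, 1, 1, 1, 0, 0], ![0, -1, -1, -1, 0, 0, 0], ![0, -1, 0, -1, -1, 0, 0],
    ![0, 1, 1, 1, 1, 0, 0], ![0, 1, 0, 1, 1, 1, 0], ![0, 0, -1, -1, -1, 0, 0],
    ![0, 0, 1, 1, 1, 1, 0], ![0, 0, 0, -1, -1, -1, 0], ![0, 0, 0, 1, 1, 1, 1],
    ![0, 0, 0, 0, -1, -1, -1], ![-1, -1, -1, -1, 0, 0, 0], ![-1, 0, -1, -1, -1, 0, 0],
    ![1, 1, 1, 1, 1, 0, 0], ![1, 0, 1, 1, 1, 1, 0], ![0, -1, -1, -1, -1, 0, 0],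
    ![0, -1, 0, -1, -1, -1, 0], ![0, 1, 1, 2, 1, 0, 0], ![0, 1, 1, 1, 1, 1, 0],
    ![0, 1, 0, 1, 1, 1, 1], ![0, 0, -1, -1, -1, -1, 0], ![0, 0, 1, 1, 1, 1, 1],
    ![0, 0, 0, -1, -1, -1, -1], ![-1, -1, -1, -1, -1, 0, 0], ![-1, 0, -1, -1, -1, -1, 0],
    ![1, 1, 1, 2, 1, 0, 0], ![1, 1, 1, 1, 1, 1, 0], ![1, 0, 1, 1, 1, 1, 1],
    ![0, -1, -1, -2, -1, 0, 0], ![0, -1, -1, -1, -1, -1, 0], ![0, -1, 0, -1, -1, -1, -1],
    ![0, 1, 1, 2, 1, 1, 0], ![0, 1, 1, 1, 1, 1, 1], ![0, 0, -1, -1, -1, -1, -1],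
    ![-1, -1, -1, -2, -1, 0, 0], ![-1, -1, -1, -1, -1, -1, 0], ![-1, 0, -1, -1, -1, -1, -1],
    ![1, 1, 2, 2, 1, 0, 0], ![1, 1, 1, 2, 1, 1, 0], ![1, 1, 1, 1, 1, 1, 1],
    ![0, -1, -1, -2, -1, -1, 0], ![0, -1, -1, -1, -1, -1, -1], ![0, 1, 1, 2, 2, 1, 0],
    ![0, 1, 1, 2, 1, 1, 1], ![-1, -1, -2, -2, -1, 0, 0], ![-1, -1, -1, -2, -1, -1, 0],
    ![-1, -1, -1, -1, -1, -1, -1], ![1, 1, 2, 2, 1, 1, 0], ![1, 1, 1, 2, 2, 1, 0],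
    ![1, 1, 1, 2, 1, 1, 1], ![0, -1, -1, -2, -2, -1, 0], ![0, -1, -1, -2, -1, -1, -1],
    ![0, 1, 1, 2, 2, 1, 1], ![-1, -1, -2, -2, -1, -1, 0], ![-1, -1, -1, -2, -2, -1, 0],
    ![-1, -1, -1, -2, -1, -1, -1], ![1, 1, 2, 2, 2, 1, 0], ![1, 1, 2, 2, 1, 1, 1],
    ![1, 1, 1, 2, 2, 1, 1], ![0, -1, -1, -2, -2, -1, -1], ![0, 1, 1, 2, 2, 2, 1],
    ![-1, -1, -2, -2, -2, -1, 0], ![-1, -1, -2, -2, -1, -1, -1], ![-1, -1, -1, -2, -2, -1, -1],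
    ![1, 1, 2, 3, 2, 1, 0], ![1, 1, 2, 2, 2, 1, 1], ![1, 1, 1, 2, 2, 2, 1],
    ![0, -1, -1, -2, -2, -2, -1], ![-1, -1, -2, -3, -2, -1, 0], ![-1, -1, -2, -2, -2, -1, -1],
    ![-1, -1, -1, -2, -2, -2, -1], ![1, 2, 2, 3, 2, 1, 0], ![1, 1, 2, 3, 2, 1, 1],
    ![1, 1, 2, 2, 2, 2, 1], ![-1, -2, -2, -3, -2, -1, 0], ![-1, -1, -2, -3, -2, -1, -1],
    ![-1, -1, -2, -2, -2, -2, -1], ![1, 2, 2, 3, 2, 1, 1], ![1, 1, 2, 3, 2, 2, 1],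
    ![-1, -2, -2, -3, -2, -1, -1], ![-1, -1, -2, -3, -2, -2, -1], ![1, 2, 2, 3, 2, 2, 1],
    ![1, 1, 2, 3, 3, 2, 1], ![-1, -2, -2, -3, -2, -2, -1], ![-1, -1, -2, -3, -3, -2, -1],
    ![1, 2, 2, 3, 3, 2, 1], ![-1, -2, -2, -3, -3, -2, -1], ![1, 2, 2, 4, 3, 2, 1],
    ![-1, -2, -2, -4, -3, -2, -1], ![1, 2, 3, 4, 3, 2, 1], ![-1, -2, -3, -4, -3, -2, -1],
    ![2, 2, 3, 4, 3, 2, 1], ![-2, -2, -3, -4, -3, -2, -1]]

/-- the Coxeter element -/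
def E7Main_cox (c : Fin 7 → ℤ) : Fin 7 → ℤ :=
  E7Main_rf 0 (E7Main_rf 1 (E7Main_rf 2 (E7Main_rf 3 (E7Main_rf 4 (E7Main_rf 5
    (E7Main_rf 6 c))))))

/-- the images of the simple roots under the powers of the Coxeter element -/
def E7Main_tab : Fin 10 → Fin 7 → Fin 7 → ℤ :=
  ![![![1, 0, 0, 0, 0, 0, 0], ![0, 1, 0, 0, 0, 0, 0], ![0, 0, 1, 0, 0, 0, 0],
      ![0, 0, 0, 1, 0, 0, 0], ![0, 0, 0, 0, 1, 0, 0], ![0, 0, 0, 0, 0, 1, 0],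
      ![0, 0, 0, 0, 0, 0, 1]],
    ![![0, 0, 1, 0, 0, 0, 0], ![1, 0, 1, 1, 0, 0, 0], ![0, 1, 0, 1, 0, 0, 0],
      ![0, 0, 0, 0, 1, 0, 0], ![0, 0, 0, 0, 0, 1, 0], ![0, 0, 0, 0, 0, 0, 1],
      ![-1, -1, -1, -1, -1, -1, -1]],
    ![![0, 1, 0, 1, 0, 0, 0], ![0, 1, 1, 1, 1, 0, 0], ![1, 0, 1, 1, 1, 0, 0],
      ![0, 0, 0, 0, 0, 1, 0], ![0, 0, 0, 0, 0, 0, 1], ![-1, -1, -1, -1, -1, -1, -1],
      ![0, 0, -1, -1, 0, 0, 0]],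
    ![![1, 0, 1, 1, 1, 0, 0], ![1, 1, 1, 2, 1, 1, 0], ![0, 1, 1, 1, 1, 1, 0],
      ![0, 0, 0, 0, 0, 0, 1], ![-1, -1, -1, -1, -1, -1, -1], ![0, 0, -1, -1, 0, 0, 0],
      ![0, -1, 0, -1, -1, 0, 0]],
    ![![0, 1, 1, 1, 1, 1, 0], ![1, 1, 2, 2, 2, 1, 1], ![1, 1, 1, 2, 1, 1, 1],
      ![-1, -1, -1, -1, -1, -1, -1], ![0, 0, -1, -1, 0, 0, 0], ![0, -1, 0, -1, -1, 0, 0],
      ![-1, 0, -1, -1, -1, -1, 0]],
    ![![1, 1, 1, 2, 1, 1, 1], ![0, 1, 1, 2, 1, 1, 0], ![0, 0, 1, 1, 1, 0, 0],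
      ![0, 0, -1, -1, 0, 0, 0], ![0, -1, 0, -1, -1, 0, 0], ![-1, 0, -1, -1, -1, -1, 0],
      ![0, -1, -1, -1, -1, -1, -1]],
    ![![0, 0, 1, 1, 1, 0, 0], ![1, 1, 1, 2, 2, 1, 1], ![0, 1, 0, 1, 1, 1, 0],
      ![0, -1, 0, -1, -1, 0, 0], ![-1, 0, -1, -1, -1, -1, 0], ![0, -1, -1, -1, -1, -1, -1],
      ![0, 0, 0, -1, 0, 0, 0]],
    ![![0, 1, 0, 1, 1, 1, 0], ![0, 0, 1, 1, 1, 1, 0], ![1, 0, 1, 1, 1, 1, 1],
      ![-1, 0, -1, -1, -1, -1, 0], ![0, -1, -1, -1, -1, -1, -1], ![0, 0, 0, -1, 0, 0, 0],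
      ![0, 0, 0, 0, -1, 0, 0]],
    ![![1, 0, 1, 1, 1, 1, 1], ![0, 1, 0, 1, 1, 1, 1], ![-1, 0, 0, 0, 0, 0, 0],
      ![0, -1, -1, -1, -1, -1, -1], ![0, 0, 0, -1, 0, 0, 0], ![0, 0, 0, 0, -1, 0, 0],
      ![0, 0, 0, 0, 0, -1, 0]],
    ![![-1, 0, 0, 0, 0, 0, 0], ![0, -1, 0, 0, 0, 0, 0], ![0, 0, -1, 0, 0, 0, 0],
      ![0, 0, 0, -1, 0, 0, 0], ![0, 0, 0, 0, -1, 0, 0], ![0, 0, 0, 0, 0, -1, 0],
      ![0, 0, 0, 0, 0, 0, -1]]]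

theorem E7Main_closed : ∀ c ∈ E7Main_roots, ∀ j, E7Main_rf j c ∈ E7Main_roots := by
  decide +kernel

theorem E7Main_single : ∀ i j : Fin 7,
    E7Main_tab 0 i ∈ E7Main_roots ∧ E7Main_tab 0 i j = if i = j then 1 else 0 := by
  decide +kernel

theorem E7Main_tab9 : ∀ i j : Fin 7, E7Main_tab 9 i j = if i = j then -1 else 0 := by
  decide +kernel

theorem E7Main_step : ∀ s : Fin 9, ∀ i : Fin 7,
    E7Main_cox (E7Main_tab s.castSucc i) = E7Main_tab s.succ i := by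
  decide +kernel

/-- the linear form with coefficients `c` -/
noncomputable def E7Main_lf (k : Type u) [Field k] (c : Fin 7 → ℤ) : RF k 7 :=
  ∑ i, (c i : RF k 7) * xv k i

theorem E7Main_lf_rf (k : Type u) [Field k] {j : Fin 7} {σ : RF k 7 ≃ₐ[k] RF k 7}
    (hσ : IsSimpleRefl k CartanMatrix.E₇ j σ) (c : Fin 7 → ℤ) :
    σ (E7Main_lf k c) = E7Main_lf k (E7Main_rf j c) := by
  have hs : ∀ i, ((E7Main_rf j c i : ℤ) : RF k 7) = (c i : RF k 7) - (if i = j then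
      ∑ l, (c l : RF k 7) * (CartanMatrix.E₇ l j : RF k 7) else 0) := by
    intro i
    unfold E7Main_rf
    rw [Fin.sum_univ_seven]
    split_ifs
    · push_cast
      ring
    · push_cast
      ring
  unfold E7Main_lf
  rw [map_sum]
  have h1 : ∀ i, σ ((c i : RF k 7) * xv k i) =
      (c i : RF k 7) * xv k i - (c i : RF k 7) * (CartanMatrix.E₇ i j : RF k 7) * xv k j := by
    intro i
    rw [map_mul, map_intCast, hσ i]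
    ring
  have h2 : ∀ i, ((E7Main_rf j c i : ℤ) : RF k 7) * xv k i = (c i : RF k 7) * xv k i -
      (if i = j then (∑ l, (c l : RF k 7) * (CartanMatrix.E₇ l j : RF k 7)) * xv k i else 0) := by
    intro i
    rw [hs i, sub_mul, ite_mul, zero_mul]
  rw [Finset.sum_congr rfl fun i _ => h1 i, Finset.sum_sub_distrib, ← Finset.sum_mul,
    Finset.sum_congr rfl fun i _ => h2 i, Finset.sum_sub_distrib,
    Finset.sum_ite_eq' Finset.univ j, if_pos (Finset.mem_univ j)]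

theorem E7Main_lf_single (k : Type u) [Field k] (i : Fin 7) :
    E7Main_lf k (E7Main_tab 0 i) = xv k i := by
  unfold E7Main_lf
  rw [Finset.sum_congr rfl fun l _ => by rw [(E7Main_single i l).2]]
  simp

theorem E7Main_lf_neg (k : Type u) [Field k] (i : Fin 7) :
    E7Main_lf k (E7Main_tab 9 i) = - xv k i := by
  unfold E7Main_lf
  rw [Finset.sum_congr rfl fun l _ => by rw [E7Main_tab9 i l]]
  simp

/-- the set of roots, as linear forms -/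
noncomputable def E7Main_Phi (k : Type u) [Field k] : Set (RF k 7) :=
  E7Main_lf k '' {c | c ∈ E7Main_roots}

theorem E7Main_Phi_finite (k : Type u) [Field k] : (E7Main_Phi k).Finite :=
  (List.finite_toSet E7Main_roots).image _

theorem E7Main_maps (k : Type u) [Field k] {w : RF k 7 ≃ₐ[k] RF k 7}
    (hw : w ∈ weylGroup k CartanMatrix.E₇) : ∀ f ∈ E7Main_Phi k, w f ∈ E7Main_Phi k := by
  unfold weylGroup at hw
  induction hw using Subgroup.closure_induction with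
  | mem x hx =>
    obtain ⟨j, hj⟩ := hx
    rintro _ ⟨c, hc, rfl⟩
    exact ⟨E7Main_rf j c, E7Main_closed c hc j, (E7Main_lf_rf k hj c).symm⟩
  | one => intro f hf; exact hf
  | mul x y _ _ h1 h2 =>
    intro f hf
    rw [AlgEquiv.mul_apply]
    exact h1 _ (h2 _ hf)
  | inv x _ h1 =>
    intro f hf
    have hfin : Finite (E7Main_Phi k) := (E7Main_Phi_finite k).to_subtype
    have hinj : Function.Injective (fun g : E7Main_Phi k =>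
        (⟨x g.1, h1 g.1 g.2⟩ : E7Main_Phi k)) := by
      intro a b hab
      exact Subtype.ext (x.injective (congrArg Subtype.val hab))
    obtain ⟨g, hg⟩ := (Finite.injective_iff_surjective.1 hinj) ⟨f, hf⟩
    have hg' : x g.1 = f := congrArg Subtype.val hg
    have h3 : x⁻¹ f = g.1 := by
      rw [← hg', ← AlgEquiv.mul_apply, inv_mul_cancel, AlgEquiv.one_apply]
    rw [h3]
    exact g.2

theorem E7_finite (k : Type u) [Field k] [CharZero k] :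
    Finite (weylGroup k CartanMatrix.E₇) := by
  have hfin : Finite (E7Main_Phi k) := (E7Main_Phi_finite k).to_subtype
  have hx : ∀ i, xv k i ∈ E7Main_Phi k := fun i =>
    ⟨_, (E7Main_single i i).1, E7Main_lf_single k i⟩
  refine Finite.of_injective (fun w : weylGroup k CartanMatrix.E₇ => fun i : Fin 7 =>
    (⟨w.1 (xv k i), E7Main_maps k w.2 _ (hx i)⟩ : E7Main_Phi k)) ?_
  intro w w' h
  apply Subtype.ext
  apply wbasic_ext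
  intro i
  exact congrArg Subtype.val (congrFun h i)

/-- the ninth power of the Coxeter element is `-1` -/
theorem E7_neg (k : Type u) [Field k] [CharZero k] :
    ∃ w ∈ weylGroup k CartanMatrix.E₇, ∀ i, w (xv k i) = - xv k i := by
  have hex : ∀ j : Fin 7, ∃ σ : RF k 7 ≃ₐ[k] RF k 7, IsSimpleRefl k CartanMatrix.E₇ j σ :=
    fun j => exists_simpleRefl _ j (by fin_cases j <;> rfl)
  choose s hs using hex
  have hmem : ∀ j, s j ∈ weylGroup k CartanMatrix.E₇ := fun j =>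
    Subgroup.subset_closure ⟨j, hs j⟩
  set c : RF k 7 ≃ₐ[k] RF k 7 := s 0 * (s 1 * (s 2 * (s 3 * (s 4 * (s 5 * s 6))))) with hc
  have hcm : c ∈ weylGroup k CartanMatrix.E₇ :=
    mul_mem (hmem 0) (mul_mem (hmem 1) (mul_mem (hmem 2) (mul_mem (hmem 3)
      (mul_mem (hmem 4) (mul_mem (hmem 5) (hmem 6))))))
  have hcl : ∀ v, c (E7Main_lf k v) = E7Main_lf k (E7Main_cox v) := by
    intro v
    rw [hc]
    simp only [AlgEquiv.mul_apply]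
    rw [E7Main_lf_rf k (hs 6), E7Main_lf_rf k (hs 5), E7Main_lf_rf k (hs 4),
      E7Main_lf_rf k (hs 3), E7Main_lf_rf k (hs 2), E7Main_lf_rf k (hs 1),
      E7Main_lf_rf k (hs 0)]
    rfl
  have hpow : ∀ n : ℕ, ∀ hn : n < 10, ∀ i,
      (c ^ n) (xv k i) = E7Main_lf k (E7Main_tab ⟨n, hn⟩ i) := by
    intro n
    induction n with
    | zero =>
      intro hn i
      rw [pow_zero, AlgEquiv.one_apply]
      exact (E7Main_lf_single k i).symm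
    | succ n ih =>
      intro hn i
      rw [pow_succ', AlgEquiv.mul_apply, ih (by omega) i, hcl]
      have := E7Main_step ⟨n, by omega⟩ i
      exact congrArg (E7Main_lf k) this
  refine ⟨c ^ 9, pow_mem hcm 9, fun i => ?_⟩
  rw [hpow 9 (by norm_num) i]
  exact E7Main_lf_neg k i

theorem good_E7 (k : Type u) [Field k] [CharZero k] : Good k CartanMatrix.E₇ :=
  good_odd _ (fun j => by fin_cases j <;> rfl) (E7_finite k) (E7_neg k) (by decide)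

end CM83
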