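import Mathlib

/-! Module F4Alg: the change of generators for the type `F_4`.

Let `a, S, R` be given and `I = S - 3 a`, `J = R - 3/4 S - 27 a^2 + 9/8 a + 1/256`,
`ρ = R / S`, `j = J / I`, `P1 = 4 S - ρ^2`, `P2 = 4 I - j^2`, `D = j - ρ + 3/4`. -/

namespace CM83

variable {F : Type*} [Field F]

/-- The data of the change of generators. -/
structure F4Data (F : Type*) [Field F] where
  a : F
  S : F
  R : F

namespace F4Data

variable (x : F4Data F)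

def I : F := x.S - 3 * x.a
def J : F := x.R - 3 / 4 * x.S - 27 * x.a ^ 2 + 9 / 8 * x.a + 1 / 256
def ρ : F := x.R / x.S
def j : F := x.J / x.I
def P1 : F := 4 * x.S - x.ρ ^ 2
def P2 : F := 4 * x.I - x.j ^ 2
def D : F := x.j - x.ρ + 3 / 4
def n : F := x.D * x.P1 / (x.P1 - x.P2)
def Y : F := (x.j + 3 / 8 - 18 * x.a - x.n) / (x.D - 1 / 4)
def w : F := x.Y ^ 2 - 1
def X : F := ((1 - 3 * x.D) * x.ρ + ((2 * x.D - 3 / 4) - x.n * (6 * x.D - 5 / 2)) / 2) /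
  (x.D - 1 / 4)
def T : F := 3 * x.n + x.w
def s : F := (x.X - x.w - 1 / 2) / x.T
def t0 : F := x.P2 / x.P1

/-- all denominators are different from zero -/
structure Reg : Prop where
  S : x.S ≠ 0
  I : x.I ≠ 0
  P1 : x.P1 ≠ 0
  z : x.P1 - x.P2 ≠ 0
  D : x.D ≠ 0
  D' : x.D - 1 / 4 ≠ 0
  E : 1 - 3 * x.D ≠ 0
  T : x.T ≠ 0
  st : x.s ^ 2 - x.t0 ≠ 0

end F4Data

theorem F4Alg_SD [CharZero F] (x : F4Data F) (h : x.Reg) :
    x.S * x.D = 3 * x.a * x.j - 27 * x.a ^ 2 + 9 / 8 * x.a + 1 / 256 := by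
  have h1 : x.ρ * x.S = x.R := div_mul_cancel₀ _ h.S
  have h2 : x.j * x.I = x.J := div_mul_cancel₀ _ h.I
  have h3 : x.I = x.S - 3 * x.a := rfl
  have h4 : x.J = x.R - 3 / 4 * x.S - 27 * x.a ^ 2 + 9 / 8 * x.a + 1 / 256 := rfl
  have h5 : x.D = x.j - x.ρ + 3 / 4 := rfl
  rw [h3, h4] at h2
  rw [h5]
  linear_combination h2 - h1

theorem F4Alg_star [CharZero F] (x : F4Data F) (h : x.Reg) :
    x.n * (12 * x.a + x.j ^ 2 - x.ρ ^ 2) =
      4 * (3 * x.a * x.j - 27 * x.a ^ 2 + 9 / 8 * x.a + 1 / 256) - x.ρ ^ 2 * x.D := by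
  have h1 : x.n * (x.P1 - x.P2) = x.D * x.P1 := div_mul_cancel₀ _ h.z
  have h2 := F4Alg_SD x h
  have h3 : x.P1 = 4 * x.S - x.ρ ^ 2 := rfl
  have h4 : x.P2 = 4 * x.I - x.j ^ 2 := rfl
  have h5 : x.I = x.S - 3 * x.a := rfl
  rw [h4, h3, h5] at h1
  linear_combination h1 + 4 * h2

theorem F4Alg_nt0 (x : F4Data F) (h : x.Reg) : x.n * x.t0 = x.n - x.D := by
  have h1 : x.n * (x.P1 - x.P2) = x.D * x.P1 := div_mul_cancel₀ _ h.z
  have h2 : x.t0 * x.P1 = x.P2 := div_mul_cancel₀ _ h.P1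
  apply mul_right_cancel₀ h.P1
  linear_combination x.n * h2 - h1

theorem F4Alg_n_ne (x : F4Data F) (h : x.Reg) : x.n ≠ 0 :=
  div_ne_zero (mul_ne_zero h.D h.P1) h.z

/-- the relation between the new elements -/
theorem F4_rel [CharZero F] (x : F4Data F) (h : x.Reg) :
    x.X ^ 2 = 1 / 4 - (3 * x.n - 1) * x.w + x.t0 * (3 * x.n) * (3 * x.n + x.w) := by
  have h1 := F4Alg_star x h
  have h2 := F4Alg_nt0 x h
  have hY : x.Y * (x.D - 1 / 4) = x.j + 3 / 8 - 18 * x.a - x.n := div_mul_cancel₀ _ h.D'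
  have hX : x.X * (x.D - 1 / 4) =
      (1 - 3 * x.D) * x.ρ + ((2 * x.D - 3 / 4) - x.n * (6 * x.D - 5 / 2)) / 2 :=
    div_mul_cancel₀ _ h.D'
  have h5 : x.D = x.j - x.ρ + 3 / 4 := rfl
  have hw : x.w = x.Y ^ 2 - 1 := rfl
  have h6 : x.t0 * (3 * x.n) * (3 * x.n + x.w) = 3 * (x.n - x.D) * (3 * x.n + x.w) := by
    rw [← h2]
    ring
  rw [h6]
  apply mul_right_cancel₀ (pow_ne_zero 2 h.D')
  rw [← mul_pow, hX]
  have h7 : (1 / 4 - (3 * x.n - 1) * x.w + 3 * (x.n - x.D) * (3 * x.n + x.w)) *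
      (x.D - 1 / 4) ^ 2 = (1 / 4 + 9 * x.n * (x.n - x.D)) * (x.D - 1 / 4) ^ 2 +
      (1 - 3 * x.D) * ((x.Y * (x.D - 1 / 4)) ^ 2 - (x.D - 1 / 4) ^ 2) := by
    rw [hw]
    ring
  rw [h7, hY]
  clear h7 h6 hw hX hY h2
  rw [h5] at h1 ⊢
  linear_combination (-(3 * (1 - 3 * (x.j - x.ρ + 3 / 4)))) * h1

/-- the old elements are rational functions of the new ones -/
theorem F4_back [CharZero F] (x : F4Data F) (h : x.Reg) (K : Subfield F) (h1 : x.t0 ∈ K)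
    (h2 : x.Y ∈ K) (h3 : x.s ∈ K) : x.a ∈ K ∧ x.S ∈ K ∧ x.R ∈ K := by
  have hrel := F4_rel x h
  have hnt := F4Alg_nt0 x h
  have hn := F4Alg_n_ne x h
  have hT : x.T = 3 * x.n + x.w := rfl
  have hs : x.s * x.T = x.X - x.w - 1 / 2 := div_mul_cancel₀ _ h.T
  have hX : x.X = x.s * x.T + x.w + 1 / 2 := by rw [hs]; ring
  have q : ∀ r : ℚ, (r : F) ∈ K := fun r => SubfieldClass.ratCast_mem K r
  have q2 : (1 / 2 : F) ∈ K := by simpa using q (1 / 2)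
  have q4 : (1 / 4 : F) ∈ K := by simpa using q (1 / 4)
  have q34 : (3 / 4 : F) ∈ K := by simpa using q (3 / 4)
  have q38 : (3 / 8 : F) ∈ K := by simpa using q (3 / 8)
  have q52 : (5 / 2 : F) ∈ K := by simpa using q (5 / 2)
  have q3 : (3 : F) ∈ K := by simpa using q 3
  have q2' : (2 : F) ∈ K := by simpa using q 2
  have q6 : (6 : F) ∈ K := by simpa using q 6
  have q18 : (18 : F) ∈ K := by simpa using q 18
  have q27 : (27 : F) ∈ K := by simpa using q 27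
  have q98 : (9 / 8 : F) ∈ K := by simpa using q (9 / 8)
  have q256 : (1 / 256 : F) ∈ K := by simpa using q (1 / 256)
  have q1 : (1 : F) ∈ K := K.one_mem
  have hw : x.w ∈ K := K.sub_mem (K.pow_mem h2 2) q1
  have h3n : 3 * x.n = x.T - x.w := by rw [hT]; ring
  have hTe : x.T * (x.s ^ 2 - x.t0) = -(x.w * (1 + x.t0) + 2 * x.s * (x.w + 1 / 2)) := by
    apply mul_right_cancel₀ h.T
    rw [hX] at hrel
    have e1 : 3 * x.n - 1 = x.T - x.w - 1 := by rw [h3n]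
    rw [e1, ← hT, h3n] at hrel
    linear_combination hrel
  have hTm : x.T ∈ K := by
    have e : x.T = -(x.w * (1 + x.t0) + 2 * x.s * (x.w + 1 / 2)) / (x.s ^ 2 - x.t0) :=
      eq_div_of_mul_eq h.st hTe
    rw [e]
    exact K.div_mem (K.neg_mem (K.add_mem (K.mul_mem hw (K.add_mem q1 h1))
      (K.mul_mem (K.mul_mem q2' h3) (K.add_mem hw q2)))) (K.sub_mem (K.pow_mem h3 2) h1)
  have hXm : x.X ∈ K := by
    rw [hX]
    exact K.add_mem (K.add_mem (K.mul_mem h3 hTm) hw) q2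
  have hnm : x.n ∈ K := by
    have e : x.n = (x.T - x.w) / 3 := by rw [← h3n]; ring
    rw [e]
    exact K.div_mem (K.sub_mem hTm hw) q3
  have hDm : x.D ∈ K := by
    have e : x.D = x.n - x.n * x.t0 := by rw [hnt]; ring
    rw [e]
    exact K.sub_mem hnm (K.mul_mem hnm h1)
  have hρm : x.ρ ∈ K := by
    have hX' : x.X * (x.D - 1 / 4) =
        (1 - 3 * x.D) * x.ρ + ((2 * x.D - 3 / 4) - x.n * (6 * x.D - 5 / 2)) / 2 :=
      div_mul_cancel₀ _ h.D'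
    have e : x.ρ = (x.X * (x.D - 1 / 4) - ((2 * x.D - 3 / 4) - x.n * (6 * x.D - 5 / 2)) / 2) /
        (1 - 3 * x.D) := by
      rw [hX']
      have hE := h.E
      field_simp
      ring
    rw [e]
    exact K.div_mem (K.sub_mem (K.mul_mem hXm (K.sub_mem hDm q4))
      (K.div_mem (K.sub_mem (K.sub_mem (K.mul_mem q2' hDm) q34)
        (K.mul_mem hnm (K.sub_mem (K.mul_mem q6 hDm) q52))) q2'))
      (K.sub_mem q1 (K.mul_mem q3 hDm))
  have hjm : x.j ∈ K := by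
    have h5 : x.D = x.j - x.ρ + 3 / 4 := rfl
    have e : x.j = x.ρ + x.D - 3 / 4 := by rw [h5]; ring
    rw [e]
    exact K.sub_mem (K.add_mem hρm hDm) q34
  have ham : x.a ∈ K := by
    have hY : x.Y * (x.D - 1 / 4) = x.j + 3 / 8 - 18 * x.a - x.n := div_mul_cancel₀ _ h.D'
    have e : x.a = (x.j + 3 / 8 - x.n - x.Y * (x.D - 1 / 4)) / 18 := by
      rw [hY]
      ring
    rw [e]
    exact K.div_mem (K.sub_mem (K.sub_mem (K.add_mem hjm q38) hnm)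
      (K.mul_mem h2 (K.sub_mem hDm q4))) q18
  have hSm : x.S ∈ K := by
    have e : x.S = (3 * x.a * x.j - 27 * x.a ^ 2 + 9 / 8 * x.a + 1 / 256) / x.D :=
      eq_div_of_mul_eq h.D (F4Alg_SD x h)
    rw [e]
    exact K.div_mem (K.add_mem (K.add_mem (K.sub_mem (K.mul_mem (K.mul_mem q3 ham) hjm)
      (K.mul_mem q27 (K.pow_mem ham 2))) (K.mul_mem q98 ham)) q256) hDm
  refine ⟨ham, hSm, ?_⟩
  have e : x.R = x.ρ * x.S := (div_mul_cancel₀ _ h.S).symm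
  rw [e]
  exact K.mul_mem hρm hSm

/-- the new elements are rational functions of the old ones -/
theorem F4_forth [CharZero F] (x : F4Data F) (K : Subfield F) (h1 : x.a ∈ K)
    (h2 : x.S ∈ K) (h3 : x.R ∈ K) : x.t0 ∈ K ∧ x.Y ∈ K ∧ x.s ∈ K := by
  have q : ∀ r : ℚ, (r : F) ∈ K := fun r => SubfieldClass.ratCast_mem K r
  have q2 : (1 / 2 : F) ∈ K := by simpa using q (1 / 2)
  have q4 : (1 / 4 : F) ∈ K := by simpa using q (1 / 4)
  have q34 : (3 / 4 : F) ∈ K := by simpa using q (3 / 4)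
  have q38 : (3 / 8 : F) ∈ K := by simpa using q (3 / 8)
  have q52 : (5 / 2 : F) ∈ K := by simpa using q (5 / 2)
  have q3 : (3 : F) ∈ K := by simpa using q 3
  have q4' : (4 : F) ∈ K := by simpa using q 4
  have q2' : (2 : F) ∈ K := by simpa using q 2
  have q6 : (6 : F) ∈ K := by simpa using q 6
  have q18 : (18 : F) ∈ K := by simpa using q 18
  have q27 : (27 : F) ∈ K := by simpa using q 27
  have q98 : (9 / 8 : F) ∈ K := by simpa using q (9 / 8)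
  have q256 : (1 / 256 : F) ∈ K := by simpa using q (1 / 256)
  have q1 : (1 : F) ∈ K := K.one_mem
  have hI : x.I ∈ K := K.sub_mem h2 (K.mul_mem q3 h1)
  have hJ : x.J ∈ K := K.add_mem (K.add_mem (K.sub_mem (K.sub_mem h3 (K.mul_mem q34 h2))
    (K.mul_mem q27 (K.pow_mem h1 2))) (K.mul_mem q98 h1)) q256
  have hρ : x.ρ ∈ K := K.div_mem h3 h2
  have hj : x.j ∈ K := K.div_mem hJ hI
  have hP1 : x.P1 ∈ K := K.sub_mem (K.mul_mem q4' h2) (K.pow_mem hρ 2)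
  have hP2 : x.P2 ∈ K := K.sub_mem (K.mul_mem q4' hI) (K.pow_mem hj 2)
  have hD : x.D ∈ K := K.add_mem (K.sub_mem hj hρ) q34
  have hn : x.n ∈ K := K.div_mem (K.mul_mem hD hP1) (K.sub_mem hP1 hP2)
  have hY : x.Y ∈ K := K.div_mem (K.sub_mem (K.sub_mem (K.add_mem hj q38) (K.mul_mem q18 h1)) hn)
    (K.sub_mem hD q4)
  have hw : x.w ∈ K := K.sub_mem (K.pow_mem hY 2) q1
  have hX : x.X ∈ K := K.div_mem (K.add_mem (K.mul_mem (K.sub_mem q1 (K.mul_mem q3 hD)) hρ)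
    (K.div_mem (K.sub_mem (K.sub_mem (K.mul_mem q2' hD) q34)
      (K.mul_mem hn (K.sub_mem (K.mul_mem q6 hD) q52))) q2')) (K.sub_mem hD q4)
  have hT : x.T ∈ K := K.add_mem (K.mul_mem q3 hn) hw
  exact ⟨K.div_mem hP2 hP1, hY, K.div_mem (K.sub_mem (K.sub_mem hX hw) q2) hT⟩

end CM83
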