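import Pool.Agent.H.MP_83e36b_nt.cm.F4Gal
import Pool.Agent.H.MP_83e36b_nt.cm.F4Alg

/-! Module F4Main: the main theorem for the type `F_4`. -/

namespace CM83

universe u

section poly

variable {A : Type*} [CommRing A]

def F4Main_eI (a S : A) : A := S - 3 * a

def F4Main_eJ (a S R : A) : A := 256 * R - 192 * S - 6912 * a ^ 2 + 288 * a + 1

def F4Main_eD (q a S R : A) : A :=
  F4Main_eJ a S R * S - 256 * R * F4Main_eI a S + q * F4Main_eI a S * S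

def F4Main_e1 (S R : A) : A := 4 * S ^ 3 - R ^ 2

def F4Main_e2 (a S R : A) : A := 4 * 65536 * F4Main_eI a S ^ 3 - F4Main_eJ a S R ^ 2

def F4Main_eZ (a S R : A) : A := 65536 * 12 * a * F4Main_eI a S ^ 2 * S ^ 2 +
  F4Main_eJ a S R ^ 2 * S ^ 2 - 65536 * R ^ 2 * F4Main_eI a S ^ 2

def F4Main_ej (a S R : A) : A :=
  8 * F4Main_eJ a S R + 256 * (3 - 144 * a) * F4Main_eI a S

def F4Main_eT (a S R : A) : A :=
  49152 * F4Main_eI a S * F4Main_eD 192 a S R * F4Main_e1 S R * F4Main_eZ a S R *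
    F4Main_eD 128 a S R ^ 2 +
  S * (F4Main_ej a S R * F4Main_eZ a S R * S -
    524288 * F4Main_eI a S ^ 2 * F4Main_eD 192 a S R * F4Main_e1 S R) ^ 2 -
  64 * S * F4Main_eZ a S R ^ 2 * F4Main_eD 128 a S R ^ 2

end poly

section reg

variable {k : Type u} [Field k] [CharZero k] {F : Type u} [Field F] [Algebra k F]

omit [CharZero k] in
/-- polynomials in algebraically independent elements are different from zero -/
theorem F4Main_nz {x : Fin 3 → F} (hx : AlgebraicIndependent k x)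
    (P : MvPolynomial (Fin 3) k) (v : Fin 3 → k) (hv : MvPolynomial.eval v P ≠ 0) :
    MvPolynomial.aeval x P ≠ 0 := by
  intro h
  have h1 : P = 0 := by
    apply hx
    rw [h, map_zero]
  rw [h1, map_zero] at hv
  exact hv rfl

variable (x : F4Data F) (hx : AlgebraicIndependent k (![x.a, x.S, x.R] : Fin 3 → F))

include hx

omit [CharZero k] in
theorem F4Main_S : x.S ≠ 0 := by
  have h := F4Main_nz hx (MvPolynomial.X 1) ![0, 1, 0] (by simp)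
  simpa using h

omit [CharZero k] in
theorem F4Main_I : x.I ≠ 0 := by
  have h := F4Main_nz hx (F4Main_eI (MvPolynomial.X 0) (MvPolynomial.X 1)) ![0, 1, 0]
    (by simp [F4Main_eI])
  have h' : x.S - 3 * x.a ≠ 0 := by simpa [F4Main_eI] using h
  exact h'

theorem F4Main_n1 : F4Main_e1 x.S x.R ≠ 0 := by
  have h := F4Main_nz hx (F4Main_e1 (MvPolynomial.X 1) (MvPolynomial.X 2)) ![0, 1, 0]
    (by simp [F4Main_e1])
  simpa [F4Main_e1] using h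

theorem F4Main_n2 : F4Main_e2 x.a x.S x.R ≠ 0 := by
  have h := F4Main_nz hx (F4Main_e2 (MvPolynomial.X 0) (MvPolynomial.X 1) (MvPolynomial.X 2))
    ![0, 1, 0] (by simp [F4Main_e2, F4Main_eI, F4Main_eJ]; norm_num)
  simpa [F4Main_e2, F4Main_eI, F4Main_eJ] using h

theorem F4Main_nD1 : F4Main_eD 192 x.a x.S x.R ≠ 0 := by
  have h := F4Main_nz hx (F4Main_eD 192 (MvPolynomial.X 0) (MvPolynomial.X 1)
    (MvPolynomial.X 2)) ![0, 1, 0] (by simp [F4Main_eD, F4Main_eI, F4Main_eJ])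
  simpa [F4Main_eD, F4Main_eI, F4Main_eJ] using h

theorem F4Main_nD2 : F4Main_eD 128 x.a x.S x.R ≠ 0 := by
  have h := F4Main_nz hx (F4Main_eD 128 (MvPolynomial.X 0) (MvPolynomial.X 1)
    (MvPolynomial.X 2)) ![0, 1, 0] (by simp [F4Main_eD, F4Main_eI, F4Main_eJ]; norm_num)
  simpa [F4Main_eD, F4Main_eI, F4Main_eJ] using h

theorem F4Main_nD3 : 256 * F4Main_eI x.a x.S * x.S - 3 * F4Main_eD 192 x.a x.S x.R ≠ 0 := by
  have h := F4Main_nz hx (256 * F4Main_eI (MvPolynomial.X 0) (MvPolynomial.X 1) *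
    MvPolynomial.X 1 - 3 * F4Main_eD 192 (MvPolynomial.X 0) (MvPolynomial.X 1)
    (MvPolynomial.X 2)) ![0, 1, 0] (by simp [F4Main_eD, F4Main_eI, F4Main_eJ]; norm_num)
  simpa [F4Main_eD, F4Main_eI, F4Main_eJ] using h

theorem F4Main_nZ : F4Main_eZ x.a x.S x.R ≠ 0 := by
  have h := F4Main_nz hx (F4Main_eZ (MvPolynomial.X 0) (MvPolynomial.X 1)
    (MvPolynomial.X 2)) ![0, 1, 0] (by simp [F4Main_eZ, F4Main_eI, F4Main_eJ]; norm_num)
  simpa [F4Main_eZ, F4Main_eI, F4Main_eJ] using h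

theorem F4Main_nT : F4Main_eT x.a x.S x.R ≠ 0 := by
  have h := F4Main_nz hx (F4Main_eT (MvPolynomial.X 0) (MvPolynomial.X 1)
    (MvPolynomial.X 2)) ![0, 1, 0]
    (by simp [F4Main_eT, F4Main_ej, F4Main_e1, F4Main_eD, F4Main_eZ, F4Main_eI, F4Main_eJ]
        norm_num)
  simpa [F4Main_eT, F4Main_ej, F4Main_e1, F4Main_eD, F4Main_eZ, F4Main_eI, F4Main_eJ] using h

end reg

section rel

variable {F : Type u} [Field F] [CharZero F] (x : F4Data F)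

theorem F4Main_rJ : F4Main_eJ x.a x.S x.R = 256 * x.J := by
  unfold F4Main_eJ F4Data.J
  ring

theorem F4Main_rD (hS : x.S ≠ 0) (hI : x.I ≠ 0) :
    F4Main_eD 192 x.a x.S x.R = 256 * x.I * x.S * x.D := by
  have h1 : x.ρ * x.S = x.R := div_mul_cancel₀ _ hS
  have h2 : x.j * x.I = x.J := div_mul_cancel₀ _ hI
  have h3 : F4Main_eI x.a x.S = x.I := rfl
  unfold F4Main_eD F4Data.D
  rw [F4Main_rJ, h3, ← h1, ← h2]
  ring

theorem F4Main_rD' (hS : x.S ≠ 0) (hI : x.I ≠ 0) :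
    F4Main_eD 128 x.a x.S x.R = 256 * x.I * x.S * (x.D - 1 / 4) := by
  have h1 : x.ρ * x.S = x.R := div_mul_cancel₀ _ hS
  have h2 : x.j * x.I = x.J := div_mul_cancel₀ _ hI
  have h3 : F4Main_eI x.a x.S = x.I := rfl
  unfold F4Main_eD F4Data.D
  rw [F4Main_rJ, h3, ← h1, ← h2]
  ring

theorem F4Main_r1 (hS : x.S ≠ 0) : F4Main_e1 x.S x.R = x.S ^ 2 * x.P1 := by
  have h1 : x.ρ * x.S = x.R := div_mul_cancel₀ _ hS
  unfold F4Main_e1 F4Data.P1
  rw [← h1]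
  ring

theorem F4Main_r2 (hI : x.I ≠ 0) : F4Main_e2 x.a x.S x.R = 65536 * x.I ^ 2 * x.P2 := by
  have h2 : x.j * x.I = x.J := div_mul_cancel₀ _ hI
  have h3 : F4Main_eI x.a x.S = x.I := rfl
  unfold F4Main_e2 F4Data.P2
  rw [F4Main_rJ, h3, ← h2]
  ring

theorem F4Main_rZ (hS : x.S ≠ 0) (hI : x.I ≠ 0) :
    F4Main_eZ x.a x.S x.R = 65536 * x.I ^ 2 * x.S ^ 2 * (x.P1 - x.P2) := by
  have h1 : x.ρ * x.S = x.R := div_mul_cancel₀ _ hS
  have h2 : x.j * x.I = x.J := div_mul_cancel₀ _ hI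
  have h3 : F4Main_eI x.a x.S = x.I := rfl
  have h4 : x.I = x.S - 3 * x.a := rfl
  have h5 : x.P1 - x.P2 = 12 * x.a + x.j ^ 2 - x.ρ ^ 2 := by
    unfold F4Data.P1 F4Data.P2
    rw [h4]
    ring
  unfold F4Main_eZ
  rw [F4Main_rJ, h3, ← h1, ← h2, h5]
  ring

theorem F4Main_rj (hI : x.I ≠ 0) :
    F4Main_ej x.a x.S x.R = 2048 * x.I * (x.j + 3 / 8 - 18 * x.a) := by
  have h2 : x.j * x.I = x.J := div_mul_cancel₀ _ hI
  have h3 : F4Main_eI x.a x.S = x.I := rfl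
  unfold F4Main_ej
  rw [F4Main_rJ, h3, ← h2]
  ring

theorem F4Main_rT (hS : x.S ≠ 0) (hI : x.I ≠ 0) (hz : x.P1 - x.P2 ≠ 0)
    (hD : x.D - 1 / 4 ≠ 0) : F4Main_eT x.a x.S x.R = 18014398509481984 * x.I ^ 6 * x.S ^ 7 *
      (x.T * (x.P1 - x.P2) ^ 2 * (x.D - 1 / 4) ^ 2) := by
  have hn : x.n * (x.P1 - x.P2) = x.D * x.P1 := div_mul_cancel₀ _ hz
  have hY : x.Y * (x.D - 1 / 4) = x.j + 3 / 8 - 18 * x.a - x.n := div_mul_cancel₀ _ hD
  have hT : x.T = 3 * x.n + (x.Y ^ 2 - 1) := rfl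
  have h3 : F4Main_eI x.a x.S = x.I := rfl
  have e : x.T * (x.P1 - x.P2) ^ 2 * (x.D - 1 / 4) ^ 2 =
      3 * (x.D * x.P1) * (x.P1 - x.P2) * (x.D - 1 / 4) ^ 2 +
      ((x.j + 3 / 8 - 18 * x.a) * (x.P1 - x.P2) - x.D * x.P1) ^ 2 -
      (x.P1 - x.P2) ^ 2 * (x.D - 1 / 4) ^ 2 := by
    have e2 : (x.j + 3 / 8 - 18 * x.a) * (x.P1 - x.P2) - x.D * x.P1 =
        x.Y * (x.D - 1 / 4) * (x.P1 - x.P2) := by
      rw [hY, ← hn]
      ring
    rw [e2, ← hn, hT]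
    ring
  rw [e]
  unfold F4Main_eT
  rw [F4Main_rD x hS hI, F4Main_rD' x hS hI, F4Main_r1 x hS, F4Main_rZ x hS hI,
    F4Main_rj x hI, h3]
  generalize x.D - 1 / 4 = d
  generalize x.P1 - x.P2 = z
  generalize x.j + 3 / 8 - 18 * x.a = y
  ring

end rel

section reg2

variable {k : Type u} [Field k] [CharZero k] {F : Type u} [Field F] [Algebra k F] [CharZero F]

/-- the denominators (except the last one) are different from zero -/
theorem F4Main_reg (x : F4Data F)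
    (hx : AlgebraicIndependent k (![x.a, x.S, x.R] : Fin 3 → F)) :
    x.P1 ≠ 0 ∧ x.P2 ≠ 0 ∧ x.P1 - x.P2 ≠ 0 ∧ x.D ≠ 0 ∧ x.D - 1 / 4 ≠ 0 ∧ 1 - 3 * x.D ≠ 0 ∧
      x.T ≠ 0 := by
  have hS := F4Main_S x hx
  have hI := F4Main_I x hx
  have h1 := F4Main_n1 x hx
  have h2 := F4Main_n2 x hx
  have h3 := F4Main_nD1 x hx
  have h4 := F4Main_nD2 x hx
  have h5 := F4Main_nD3 x hx
  have h6 := F4Main_nZ x hx
  have h7 := F4Main_nT x hx
  rw [F4Main_r1 x hS] at h1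
  rw [F4Main_r2 x hI] at h2
  rw [F4Main_rD x hS hI] at h3
  rw [F4Main_rD' x hS hI] at h4
  rw [F4Main_rD x hS hI] at h5
  rw [F4Main_rZ x hS hI] at h6
  have hz : x.P1 - x.P2 ≠ 0 := right_ne_zero_of_mul h6
  have hD : x.D - 1 / 4 ≠ 0 := right_ne_zero_of_mul h4
  rw [F4Main_rT x hS hI hz hD] at h7
  refine ⟨right_ne_zero_of_mul h1, right_ne_zero_of_mul h2, hz, right_ne_zero_of_mul h3, hD,
    ?_, left_ne_zero_of_mul (left_ne_zero_of_mul (right_ne_zero_of_mul h7))⟩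
  intro h0
  apply h5
  have h8 : F4Main_eI x.a x.S = x.I := rfl
  rw [h8]
  linear_combination (256 * x.I * x.S) * h0

end reg2

variable (k : Type u) [Field k] [CharZero k]

/-- the normalised data -/
noncomputable def x4 : F4Data (RF k 4) where
  a := qa (y4 k) / qA (y4 k) ^ 3
  S := - qS2 (y4 k) / 12 / qA (y4 k) ^ 4
  R := qS3 (y4 k) / 8 / qA (y4 k) ^ 6

theorem F4Main_A : qA (y4 k) ≠ 0 := by
  have h := (F4_algInd (k := k)).ne_zero 0
  exact h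

theorem F4Main_ea : qa (y4 k) = (x4 k).a * qA (y4 k) ^ 3 :=
  (div_mul_cancel₀ _ (pow_ne_zero 3 (F4Main_A k))).symm

theorem F4Main_eS : qS2 (y4 k) = - 12 * ((x4 k).S * qA (y4 k) ^ 4) := by
  have h : (x4 k).S * qA (y4 k) ^ 4 = - qS2 (y4 k) / 12 :=
    div_mul_cancel₀ _ (pow_ne_zero 4 (F4Main_A k))
  rw [h]
  ring

theorem F4Main_eR : qS3 (y4 k) = 8 * ((x4 k).R * qA (y4 k) ^ 6) := by
  have h : (x4 k).R * qA (y4 k) ^ 6 = qS3 (y4 k) / 8 :=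
    div_mul_cancel₀ _ (pow_ne_zero 6 (F4Main_A k))
  rw [h]
  ring

theorem F4Main_mem (L : Subfield (RF k 4)) (hA : qA (y4 k) ∈ L) (ha : (x4 k).a ∈ L)
    (hS : (x4 k).S ∈ L) (hR : (x4 k).R ∈ L) :
    qa (y4 k) ∈ L ∧ qS2 (y4 k) ∈ L ∧ qS3 (y4 k) ∈ L := by
  refine ⟨?_, ?_, ?_⟩
  · rw [F4Main_ea]
    exact L.mul_mem ha (L.pow_mem hA 3)
  · rw [F4Main_eS]
    exact L.mul_mem (L.neg_mem (ofNat_mem L 12)) (L.mul_mem hS (L.pow_mem hA 4))
  · rw [F4Main_eR]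
    exact L.mul_mem (ofNat_mem L 8) (L.mul_mem hR (L.pow_mem hA 6))

theorem x4_algInd : AlgebraicIndependent k (![(x4 k).a, (x4 k).S, (x4 k).R] : Fin 3 → RF k 4) := by
  have h4 : AlgebraicIndependent k
      (![qA (y4 k), (x4 k).a, (x4 k).S, (x4 k).R] : Fin 4 → RF k 4) := by
    apply DiscRat.algInd_of (a := ![qA (y4 k), qa (y4 k), qS2 (y4 k), qS3 (y4 k)]) F4_algInd
    have hm : ∀ i, (![qA (y4 k), (x4 k).a, (x4 k).S, (x4 k).R] : Fin 4 → RF k 4) i ∈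
        IntermediateField.adjoin k
          (Set.range (![qA (y4 k), (x4 k).a, (x4 k).S, (x4 k).R] : Fin 4 → RF k 4)) :=
      fun i => IntermediateField.subset_adjoin k _ ⟨i, rfl⟩
    have h := F4Main_mem k (IntermediateField.adjoin k
          (Set.range (![qA (y4 k), (x4 k).a, (x4 k).S, (x4 k).R] : Fin 4 → RF k 4))).toSubfield
          (hm 0) (hm 1) (hm 2) (hm 3)
    intro i
    have hi : (![qA (y4 k), qa (y4 k), qS2 (y4 k), qS3 (y4 k)] : Fin 4 → RF k 4) i ∈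
        IntermediateField.adjoin k
          (Set.range (![qA (y4 k), (x4 k).a, (x4 k).S, (x4 k).R] : Fin 4 → RF k 4)) := by
      fin_cases i
      · exact hm 0
      · exact h.1
      · exact h.2.1
      · exact h.2.2
    exact isAlgebraic_algebraMap (⟨_, hi⟩ : IntermediateField.adjoin k
          (Set.range (![qA (y4 k), (x4 k).a, (x4 k).S, (x4 k).R] : Fin 4 → RF k 4)))
  have h5 := h4.comp Fin.succ (Fin.succ_injective 3)
  have h6 : (![qA (y4 k), (x4 k).a, (x4 k).S, (x4 k).R] : Fin 4 → RF k 4) ∘ Fin.succ =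
      ![(x4 k).a, (x4 k).S, (x4 k).R] := by
    funext i
    fin_cases i <;> rfl
  rw [h6] at h5
  exact h5

/-- the square root of `t0` -/
noncomputable def d4 : RF k 4 := qDt (y4 k) * qDu (y4 k) /
  (8 * qA (y4 k) ^ 12 * (x4 k).I * (x4 k).S * (x4 k).P1)

theorem d4_sq (h1 : (x4 k).I ≠ 0) (h2 : (x4 k).S ≠ 0) (h3 : (x4 k).P1 ≠ 0) :
    d4 k ^ 2 = (x4 k).t0 := by
  have hA := F4Main_A k
  have hI : qI (y4 k) = (x4 k).I * qA (y4 k) ^ 4 := by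
    rw [qI_eq, F4Main_eS, F4Main_ea]
    unfold F4Data.I
    ring
  have hJ : qJ (y4 k) = (x4 k).J * qA (y4 k) ^ 6 := by
    rw [qJ_eq, F4Main_eS, F4Main_ea, F4Main_eR]
    unfold F4Data.J
    ring
  have e1 := qDt_sq (y4 k)
  have e2 := qDu_sq (y4 k)
  rw [hI, hJ] at e1
  rw [F4Main_eS, F4Main_eR] at e2
  have r1 : (x4 k).ρ * (x4 k).S = (x4 k).R := div_mul_cancel₀ _ h2
  have r2 : (x4 k).j * (x4 k).I = (x4 k).J := div_mul_cancel₀ _ h1
  have p1 : (x4 k).P1 = 4 * (x4 k).S - (x4 k).ρ ^ 2 := rfl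
  have p2 : (x4 k).P2 = 4 * (x4 k).I - (x4 k).j ^ 2 := rfl
  have e3 : 27 * qDt (y4 k) ^ 2 = qA (y4 k) ^ 12 * ((x4 k).I ^ 2 * (x4 k).P2) := by
    rw [e1, p2, ← r2]
    ring
  have e4 : qDu (y4 k) ^ 2 = 1728 * qA (y4 k) ^ 12 * ((x4 k).S ^ 2 * (x4 k).P1) := by
    rw [e2, p1, ← r1]
    ring
  have e5 : (qDt (y4 k) * qDu (y4 k)) ^ 2 =
      64 * qA (y4 k) ^ 24 * (x4 k).I ^ 2 * (x4 k).S ^ 2 * (x4 k).P1 * (x4 k).P2 := by
    have h27 : (27 : RF k 4) ≠ 0 := by norm_num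
    apply mul_left_cancel₀ h27
    calc 27 * (qDt (y4 k) * qDu (y4 k)) ^ 2 = (27 * qDt (y4 k) ^ 2) * qDu (y4 k) ^ 2 := by ring
      _ = 27 * (64 * qA (y4 k) ^ 24 * (x4 k).I ^ 2 * (x4 k).S ^ 2 * (x4 k).P1 *
          (x4 k).P2) := by
        rw [e3, e4]
        ring
  have e6 : (x4 k).t0 = (x4 k).P2 / (x4 k).P1 := rfl
  have h8 : (8 : RF k 4) ≠ 0 := by norm_num
  unfold d4
  rw [div_pow, e5, e6, div_eq_div_iff (pow_ne_zero 2 (mul_ne_zero (mul_ne_zero (mul_ne_zero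
    (mul_ne_zero h8 (pow_ne_zero 12 hA)) h1) h2) h3)) h3]
  ring

theorem x4_inv {j : Fin 4} {σ : RF k 4 ≃ₐ[k] RF k 4} (h : IsSimpleRefl k CartanMatrix.F₄ j σ) :
    σ (x4 k).a = (x4 k).a ∧ σ (x4 k).S = (x4 k).S ∧ σ (x4 k).R = (x4 k).R ∧
      σ (d4 k) = - d4 k := by
  obtain ⟨hA, ha, hS, hR⟩ := F4_inv h
  have hd := F4_anti h
  have e1 : σ (x4 k).a = (x4 k).a := by
    show σ (qa (y4 k) / qA (y4 k) ^ 3) = qa (y4 k) / qA (y4 k) ^ 3
    rw [map_div₀, map_pow, ha, hA]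
  have e2 : σ (x4 k).S = (x4 k).S := by
    show σ (- qS2 (y4 k) / 12 / qA (y4 k) ^ 4) = - qS2 (y4 k) / 12 / qA (y4 k) ^ 4
    rw [map_div₀, map_pow, map_div₀, map_neg, hS, hA, map_ofNat]
  have e3 : σ (x4 k).R = (x4 k).R := by
    show σ (qS3 (y4 k) / 8 / qA (y4 k) ^ 6) = qS3 (y4 k) / 8 / qA (y4 k) ^ 6
    rw [map_div₀, map_pow, map_div₀, hR, hA, map_ofNat]
  have e4 : σ (x4 k).I = (x4 k).I := by
    show σ ((x4 k).S - 3 * (x4 k).a) = (x4 k).S - 3 * (x4 k).a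
    rw [map_sub, map_mul, e1, e2, map_ofNat]
  have e5 : σ (x4 k).P1 = (x4 k).P1 := by
    show σ (4 * (x4 k).S - ((x4 k).R / (x4 k).S) ^ 2) = 4 * (x4 k).S - ((x4 k).R / (x4 k).S) ^ 2
    rw [map_sub, map_mul, map_pow, map_div₀, e2, e3, map_ofNat]
  refine ⟨e1, e2, e3, ?_⟩
  unfold d4
  rw [map_div₀, hd, map_mul, map_mul, map_mul, map_mul, map_pow, map_ofNat, hA, e4, e2, e5]
  ring

/-- the elements fixed by an automorphism -/
theorem F4Main_fix {j : Fin 4} {σ : RF k 4 ≃ₐ[k] RF k 4}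
    (h : IsSimpleRefl k CartanMatrix.F₄ j σ) :
    σ (x4 k).t0 = (x4 k).t0 ∧ σ (x4 k).Y = (x4 k).Y ∧ σ (x4 k).s = (x4 k).s := by
  obtain ⟨h1, h2, h3, _⟩ := x4_inv k h
  exact F4_forth (x4 k) (RingHom.eqLocusField (σ : RF k 4 →+* RF k 4) (RingHom.id _)) h1 h2 h3

theorem x4_reg : (x4 k).Reg := by
  have hx := x4_algInd k
  have hS := F4Main_S (x4 k) hx
  have hI := F4Main_I (x4 k) hx
  obtain ⟨h1, h2, h3, h4, h5, h6, h7⟩ := F4Main_reg (x4 k) hx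
  refine ⟨hS, hI, h1, h3, h4, h5, h6, h7, ?_⟩
  intro h0
  have hd := d4_sq k hI hS h1
  obtain ⟨σ, hσ⟩ := exists_simpleRefl (k := k) CartanMatrix.F₄ 0 (by decide)
  have hs := (F4Main_fix k hσ).2.2
  have hd2 := (x4_inv k hσ).2.2.2
  have h8 : (x4 k).s ^ 2 = d4 k ^ 2 := by
    rw [hd]
    exact sub_eq_zero.1 h0
  have h9 : σ (d4 k) = d4 k := by
    rcases sq_eq_sq_iff_eq_or_eq_neg.1 h8 with h | h
    · rw [← h, hs]
    · have h' : d4 k = - (x4 k).s := by rw [h, neg_neg]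
      rw [h', map_neg, hs]
  have h10 : d4 k = 0 := by
    rw [h9] at hd2
    have h11 : 2 * d4 k = 0 := by linear_combination hd2
    rcases mul_eq_zero.1 h11 with h12 | h12
    · exact absurd h12 (by norm_num)
    · exact h12
  rw [h10] at hd
  have h13 : (x4 k).P2 / (x4 k).P1 = 0 := by
    have h14 : (x4 k).t0 = (x4 k).P2 / (x4 k).P1 := rfl
    rw [← h14, ← hd]
    ring
  rcases div_eq_zero_iff.1 h13 with h | h
  · exact h2 h
  · exact h1 h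

theorem good_F4 : Good k CartanMatrix.F₄ := by
  have hreg := x4_reg k
  apply good_of CartanMatrix.F₄ ![(x4 k).t0, qA (y4 k), (x4 k).Y, (x4 k).s] (d4 k) 0
  · intro i j σ h
    obtain ⟨h1, h2, h3⟩ := F4Main_fix k h
    have hA := (F4_inv h).1
    fin_cases i
    · exact h1
    · exact hA
    · exact h2
    · exact h3
  · exact d4_sq k hreg.I hreg.S hreg.P1
  · intro j σ h
    exact (x4_inv k h).2.2.2
  · intro i
    have hm : ∀ i, (![(x4 k).t0, qA (y4 k), (x4 k).Y, (x4 k).s] : Fin 4 → RF k 4) i ∈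
        IntermediateField.adjoin k
          (Set.range (![(x4 k).t0, qA (y4 k), (x4 k).Y, (x4 k).s] : Fin 4 → RF k 4)) :=
      fun i => IntermediateField.subset_adjoin k _ ⟨i, rfl⟩
    obtain ⟨h1, h2, h3⟩ := F4_back (x4 k) hreg (IntermediateField.adjoin k
          (Set.range (![(x4 k).t0, qA (y4 k), (x4 k).Y, (x4 k).s] : Fin 4 → RF k 4))).toSubfield
          (hm 0) (hm 2) (hm 3)
    obtain ⟨h4, h5, h6⟩ := F4Main_mem k _ (hm 1) h1 h2 h3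
    exact F4_alg _ (hm 1) h4 h5 h6 i
  · intro τ hτ
    let K : Subfield (RF k 4) := RingHom.eqLocusField
      ((τ : AlgebraicClosure (RF k 4) →+* AlgebraicClosure (RF k 4)).comp
        (algebraMap (RF k 4) (AlgebraicClosure (RF k 4))))
      (algebraMap (RF k 4) (AlgebraicClosure (RF k 4)))
    have h0 : (x4 k).t0 ∈ K := hτ 0
    have hA : qA (y4 k) ∈ K := hτ 1
    have hY : (x4 k).Y ∈ K := hτ 2
    have hs : (x4 k).s ∈ K := hτ 3
    obtain ⟨h1, h2, h3⟩ := F4_back (x4 k) hreg K h0 hY hs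
    obtain ⟨h4, h5, h6⟩ := F4Main_mem k K hA h1 h2 h3
    exact F4_gal τ hA h4 h5 h6

end CM83
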