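import Pool.Agent.H.MP_83e36b_nt.cm.WBasic
import Pool.Agent.H.MP_83e36b_nt.cm.QId

/-! Module G2Main: the main theorem for the type `G_2`. -/

namespace CM83

universe u

section

variable (k : Type u) [Field k]

/-- the three linear forms -/
noncomputable def G2_z : Fin 3 → RF k 2 :=
  ![xv k 1, xv k 1 + xv k 0, -2 * xv k 1 - xv k 0]

noncomputable def G2_e2 : RF k 2 := G2_z k 0 * G2_z k 1 + G2_z k 0 * G2_z k 2 + G2_z k 1 * G2_z k 2

noncomputable def G2_e3 : RF k 2 := G2_z k 0 * G2_z k 1 * G2_z k 2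

noncomputable def G2_D : RF k 2 :=
  (G2_z k 0 - G2_z k 1) * (G2_z k 0 - G2_z k 2) * (G2_z k 1 - G2_z k 2)

noncomputable def G2_t : Fin 2 → RF k 2 :=
  ![(-4 * G2_e2 k ^ 3 - 27 * G2_e3 k ^ 2) / G2_e3 k ^ 2, G2_e2 k]

/-- the pair `(e, p)` is realised by the Weyl group -/
def G2_P (e : ℤ) (p : Equiv.Perm (Fin 3)) : Prop :=
  ∃ w ∈ weylGroup k CartanMatrix.G₂, ∀ j, w (G2_z k j) = (e : RF k 2) * G2_z k (p j)

end

section

variable {k : Type u} [Field k]

theorem G2_sum : G2_z k 0 + G2_z k 1 + G2_z k 2 = 0 := by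
  simp only [G2_z, Matrix.cons_val_zero, Matrix.cons_val_one, Matrix.cons_val]
  ring

theorem G2_disc : G2_D k ^ 2 = -4 * G2_e2 k ^ 3 - 27 * G2_e3 k ^ 2 := by
  have h : G2_z k 2 = - G2_z k 0 - G2_z k 1 := by linear_combination G2_sum (k := k)
  simp only [G2_D, G2_e2, G2_e3]
  rw [h]
  ring

theorem G2_s0 {σ : RF k 2 ≃ₐ[k] RF k 2} (h : IsSimpleRefl k CartanMatrix.G₂ 0 σ) (j : Fin 3) :
    σ (G2_z k j) = G2_z k (Equiv.swap 0 1 j) := by
  have h0 := h 0
  have h1 := h 1
  simp [CartanMatrix.G₂] at h0 h1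
  have h2 : σ (2 : RF k 2) = 2 := map_ofNat σ 2
  fin_cases j
  · simp [G2_z, h1]
  · simp [G2_z, h1, h0]
    ring
  · have : (Equiv.swap (0 : Fin 3) 1) 2 = 2 := by decide
    simp [G2_z, this, h1, h0, h2]
    ring

theorem G2_s1 {σ : RF k 2 ≃ₐ[k] RF k 2} (h : IsSimpleRefl k CartanMatrix.G₂ 1 σ) (j : Fin 3) :
    σ (G2_z k j) = - G2_z k (Equiv.swap 1 2 j) := by
  have h0 := h 0
  have h1 := h 1
  simp [CartanMatrix.G₂] at h0 h1
  have h2 : σ (2 : RF k 2) = 2 := map_ofNat σ 2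
  fin_cases j
  · have : (Equiv.swap (1 : Fin 3) 2) 0 = 0 := by decide
    simp [G2_z, this, h1]
    ring
  · simp [G2_z, h1, h0]
    ring
  · simp [G2_z, h1, h0, h2]
    ring

theorem G2_P_mul {e e' : ℤ} {p p' : Equiv.Perm (Fin 3)} (h : G2_P k e p) (h' : G2_P k e' p') :
    G2_P k (e * e') (p * p') := by
  obtain ⟨w, hw, h⟩ := h
  obtain ⟨w', hw', h'⟩ := h'
  refine ⟨w * w', mul_mem hw hw', fun j => ?_⟩
  rw [AlgEquiv.mul_apply, h', map_mul, h, map_intCast, Equiv.Perm.mul_apply]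
  push_cast
  ring

theorem G2_P_all {e : ℤ} (he : e = 1 ∨ e = -1) (p : Equiv.Perm (Fin 3)) : G2_P k e p := by
  have ha : G2_P k 1 (Equiv.swap 0 1) := by
    obtain ⟨σ, hσ⟩ := exists_simpleRefl (k := k) CartanMatrix.G₂ 0 (by decide)
    refine ⟨σ, Subgroup.subset_closure ⟨0, hσ⟩, fun j => ?_⟩
    rw [G2_s0 hσ]
    simp
  have hb : G2_P k (-1) (Equiv.swap 1 2) := by
    obtain ⟨σ, hσ⟩ := exists_simpleRefl (k := k) CartanMatrix.G₂ 1 (by decide)
    refine ⟨σ, Subgroup.subset_closure ⟨1, hσ⟩, fun j => ?_⟩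
    rw [G2_s1 hσ]
    simp
  have hab := G2_P_mul ha hb
  have hm : G2_P k (-1) 1 := by
    have h3 := G2_P_mul hab (G2_P_mul hab hab)
    have e1 : (Equiv.swap (0 : Fin 3) 1 * Equiv.swap 1 2 *
      (Equiv.swap 0 1 * Equiv.swap 1 2 * (Equiv.swap 0 1 * Equiv.swap 1 2))) = 1 := by decide
    rw [e1] at h3
    simpa using h3
  have h1 : G2_P k 1 1 := by
    have := G2_P_mul hm hm
    simpa using this
  have key : ∀ p : Equiv.Perm (Fin 3), G2_P k 1 p := by
    have hb' : G2_P k 1 (Equiv.swap 1 2) := by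
      have := G2_P_mul hm hb
      simpa using this
    intro p
    have hp : p = 1 ∨ p = Equiv.swap 0 1 ∨ p = Equiv.swap 1 2 ∨
        p = Equiv.swap 0 1 * Equiv.swap 1 2 ∨ p = Equiv.swap 1 2 * Equiv.swap 0 1 ∨
        p = Equiv.swap 0 1 * (Equiv.swap 1 2 * Equiv.swap 0 1) := by
      revert p
      decide
    rcases hp with rfl | rfl | rfl | rfl | rfl | rfl
    · exact h1
    · exact ha
    · exact hb'
    · simpa using G2_P_mul ha hb'
    · simpa using G2_P_mul hb' ha
    · simpa using G2_P_mul ha (G2_P_mul hb' ha)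
  rcases he with rfl | rfl
  · exact key p
  · simpa using G2_P_mul hm (key p)

theorem G2_e2_inv {j : Fin 2} {σ : RF k 2 ≃ₐ[k] RF k 2} (h : IsSimpleRefl k CartanMatrix.G₂ j σ) :
    σ (G2_e2 k) = G2_e2 k := by
  have e0 : (Equiv.swap (0 : Fin 3) 1) 2 = 2 := by decide
  have e1 : (Equiv.swap (1 : Fin 3) 2) 0 = 0 := by decide
  fin_cases j
  · simp only [G2_e2, map_add, map_mul, G2_s0 h, Equiv.swap_apply_left, Equiv.swap_apply_right, e0]
    ring
  · simp only [G2_e2, map_add, map_mul, G2_s1 h, Equiv.swap_apply_left, Equiv.swap_apply_right, e1]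
    ring

theorem G2_e3_sq_inv {j : Fin 2} {σ : RF k 2 ≃ₐ[k] RF k 2}
    (h : IsSimpleRefl k CartanMatrix.G₂ j σ) : σ (G2_e3 k) ^ 2 = G2_e3 k ^ 2 := by
  have e0 : (Equiv.swap (0 : Fin 3) 1) 2 = 2 := by decide
  have e1 : (Equiv.swap (1 : Fin 3) 2) 0 = 0 := by decide
  fin_cases j
  · simp only [G2_e3, map_mul, G2_s0 h, Equiv.swap_apply_left, Equiv.swap_apply_right, e0]
    ring
  · simp only [G2_e3, map_mul, G2_s1 h, Equiv.swap_apply_left, Equiv.swap_apply_right, e1]
    ring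

theorem G2_d_anti {j : Fin 2} {σ : RF k 2 ≃ₐ[k] RF k 2}
    (h : IsSimpleRefl k CartanMatrix.G₂ j σ) : σ (G2_D k / G2_e3 k) = - (G2_D k / G2_e3 k) := by
  have e0 : (Equiv.swap (0 : Fin 3) 1) 2 = 2 := by decide
  have e1 : (Equiv.swap (1 : Fin 3) 2) 0 = 0 := by decide
  fin_cases j
  · have a1 : σ (G2_D k) = - G2_D k := by
      simp only [G2_D, map_sub, map_mul, G2_s0 h, Equiv.swap_apply_left,
        Equiv.swap_apply_right, e0]
      ring
    have a2 : σ (G2_e3 k) = G2_e3 k := by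
      simp only [G2_e3, map_mul, G2_s0 h, Equiv.swap_apply_left, Equiv.swap_apply_right, e0]
      ring
    rw [map_div₀, a1, a2, neg_div]
  · have a1 : σ (G2_D k) = G2_D k := by
      simp only [G2_D, map_sub, map_mul, G2_s1 h, Equiv.swap_apply_left,
        Equiv.swap_apply_right, e1]
      ring
    have a2 : σ (G2_e3 k) = - G2_e3 k := by
      simp only [G2_e3, map_mul, G2_s1 h, Equiv.swap_apply_left, Equiv.swap_apply_right, e1]
      ring
    rw [map_div₀, a1, a2, div_neg]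

theorem G2_ne (q : MvPolynomial (Fin 2) k) (v : Fin 2 → k) (h : MvPolynomial.eval v q ≠ 0) :
    MvPolynomial.aeval (xv k) q ≠ 0 := by
  intro h0
  have := (algebraicIndependent_iff.1 (xv_algInd (k := k) (n := 2))) q h0
  rw [this] at h
  exact h (by simp)

variable [CharZero k]

theorem G2_e2_ne : G2_e2 k ≠ 0 := by
  have h := G2_ne (k := k) (-3 * MvPolynomial.X 1 ^ 2 - 3 * MvPolynomial.X 0 * MvPolynomial.X 1 -
    MvPolynomial.X 0 ^ 2) ![1, 0] (by simp)
  convert h using 1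
  simp only [G2_e2, G2_z, Matrix.cons_val_zero, Matrix.cons_val_one, Matrix.cons_val, map_sub,
    map_mul, map_pow, MvPolynomial.aeval_X, map_neg, map_ofNat]
  ring

theorem G2_e3_ne : G2_e3 k ≠ 0 := by
  have h := G2_ne (k := k) (MvPolynomial.X 1 * (MvPolynomial.X 1 + MvPolynomial.X 0) *
    (-2 * MvPolynomial.X 1 - MvPolynomial.X 0)) ![1, 1] (by
      simp only [map_sub, map_mul, map_add, MvPolynomial.eval_X, map_neg, map_ofNat,
        Matrix.cons_val_zero, Matrix.cons_val_one]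
      norm_num)
  convert h using 1
  simp only [G2_e3, G2_z, Matrix.cons_val_zero, Matrix.cons_val_one, Matrix.cons_val, map_sub,
    map_mul, map_add, MvPolynomial.aeval_X, map_neg, map_ofNat]

theorem G2_D_ne : G2_D k ≠ 0 := by
  have h := G2_ne (k := k) ((MvPolynomial.X 1 - (MvPolynomial.X 1 + MvPolynomial.X 0)) *
    (MvPolynomial.X 1 - (-2 * MvPolynomial.X 1 - MvPolynomial.X 0)) *
    ((MvPolynomial.X 1 + MvPolynomial.X 0) - (-2 * MvPolynomial.X 1 - MvPolynomial.X 0)))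
      ![1, 1] (by
      simp only [map_sub, map_mul, map_add, MvPolynomial.eval_X, map_neg, map_ofNat,
        Matrix.cons_val_zero, Matrix.cons_val_one]
      norm_num)
  convert h using 1
  simp only [G2_D, G2_z, Matrix.cons_val_zero, Matrix.cons_val_one, Matrix.cons_val, map_sub,
    map_mul, map_add, MvPolynomial.aeval_X, map_neg, map_ofNat]

theorem G2_charZero : CharZero (RF k 2) :=
  (RingHom.charZero_iff (algebraMap k (RF k 2)).injective).1 inferInstance

theorem G2_rel : (G2_t k 0 + 27) * G2_e3 k ^ 2 = -4 * G2_e2 k ^ 3 := by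
  have h := G2_e3_ne (k := k)
  simp only [G2_t, Matrix.cons_val_zero]
  field_simp
  ring

theorem G2_t0_ne : G2_t k 0 + 27 ≠ 0 := by
  have := G2_charZero (k := k)
  intro h
  have h1 := G2_rel (k := k)
  rw [h, zero_mul] at h1
  have h2 : (-4 * G2_e2 k ^ 3) ≠ 0 :=
    mul_ne_zero (by norm_num) (pow_ne_zero _ G2_e2_ne)
  exact h2 h1.symm

theorem G2_cubic (j : Fin 3) :
    (G2_z k j ^ 3 + G2_e2 k * G2_z k j) ^ 2 - G2_e3 k ^ 2 = 0 := by
  have h : G2_z k 2 = - G2_z k 0 - G2_z k 1 := by linear_combination G2_sum (k := k)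
  have : G2_z k j ^ 3 + G2_e2 k * G2_z k j = G2_e3 k := by
    fin_cases j
    · simp only [G2_e2, G2_e3, h, Fin.zero_eta]
      ring
    · simp only [G2_e2, G2_e3, h, Fin.mk_one]
      ring
    · simp only [G2_e2, G2_e3, Fin.reduceFinMk]
      rw [h]
      ring
  rw [this, sub_self]

theorem G2_alg_z (j : Fin 3) :
    IsAlgebraic (IntermediateField.adjoin k (Set.range (G2_t k))) (G2_z k j) := by
  set K := IntermediateField.adjoin k (Set.range (G2_t k)) with hK
  have m0 : G2_t k 0 ∈ K := IntermediateField.subset_adjoin _ _ ⟨0, rfl⟩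
  have m1 : G2_e2 k ∈ K := IntermediateField.subset_adjoin _ _ ⟨1, rfl⟩
  have m2 : G2_e3 k ^ 2 ∈ K := by
    have : G2_e3 k ^ 2 = -4 * G2_e2 k ^ 3 / (G2_t k 0 + 27) := by
      rw [← G2_rel (k := k), mul_comm, mul_div_assoc, div_self G2_t0_ne, mul_one]
    rw [this]
    have h27 : (27 : RF k 2) ∈ K := by
      have := K.algebraMap_mem (27 : k)
      simpa using this
    have h4 : (4 : RF k 2) ∈ K := by
      have := K.algebraMap_mem (4 : k)
      simpa using this
    exact K.div_mem (K.mul_mem (K.neg_mem h4) (K.pow_mem m1 3)) (K.add_mem m0 h27)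
  let a : K := ⟨G2_e2 k, m1⟩
  let b : K := ⟨G2_e3 k ^ 2, m2⟩
  refine ⟨(Polynomial.X ^ 3 + Polynomial.C a * Polynomial.X) ^ 2 - Polynomial.C b, ?_, ?_⟩
  · intro h0
    have h1 : ((Polynomial.X ^ 3 + Polynomial.C a * Polynomial.X) ^ 2 -
      Polynomial.C b).Monic := by monicity!
    rw [h0] at h1
    exact Polynomial.not_monic_zero h1
  · simp only [map_sub, map_pow, map_add, map_mul, Polynomial.aeval_X, Polynomial.aeval_C]
    exact G2_cubic j

theorem G2_x0 : xv k (0 : Fin 2) = G2_z k 1 - G2_z k 0 := by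
  simp only [G2_z, Matrix.cons_val_zero, Matrix.cons_val_one]
  ring

theorem G2_x1 : xv k (1 : Fin 2) = G2_z k 0 := by
  simp only [G2_z, Matrix.cons_val_zero]

theorem good_G2' : Good k CartanMatrix.G₂ := by
  refine good_of CartanMatrix.G₂ (G2_t k) (G2_D k / G2_e3 k) 0 ?_ ?_ ?_ ?_ ?_
  · intro i j σ h
    fin_cases i
    · simp only [G2_t, Matrix.cons_val_zero, Fin.zero_eta, map_div₀, map_sub, map_mul, map_neg,
        map_pow, map_ofNat, G2_e2_inv h, G2_e3_sq_inv h]
    · show σ (G2_e2 k) = G2_e2 k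
      exact G2_e2_inv h
  · simp only [G2_t, Matrix.cons_val_zero]
    rw [div_pow, G2_disc]
  · intro j σ h
    exact G2_d_anti h
  · intro i
    fin_cases i
    · show IsAlgebraic _ (xv k 0)
      rw [G2_x0]
      exact (G2_alg_z 1).sub (G2_alg_z 0)
    · show IsAlgebraic _ (xv k 1)
      rw [G2_x1]
      exact G2_alg_z 0
  · intro τ hτ
    have hinj : Function.Injective (algebraMap (RF k 2) (AlgebraicClosure (RF k 2))) :=
      (algebraMap (RF k 2) (AlgebraicClosure (RF k 2))).injective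
    set f := algebraMap (RF k 2) (AlgebraicClosure (RF k 2)) with hf
    have f27 : f 27 = 27 := map_ofNat f 27
    have f4 : f 4 = 4 := map_ofNat f 4
    have h0 : τ (f (G2_t k 0)) = f (G2_t k 0) := hτ 0
    have h1 : τ (f (G2_e2 k)) = f (G2_e2 k) := hτ 1
    have h3 : τ (f (G2_e3 k)) ^ 2 = f (G2_e3 k) ^ 2 := by
      have e1 : (f (G2_t k 0) + 27) * f (G2_e3 k) ^ 2 = -4 * f (G2_e2 k) ^ 3 := by
        have := congrArg f (G2_rel (k := k))
        simpa [f27, f4] using this
      have e2 := congrArg τ e1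
      rw [map_mul, map_add, h0, map_mul, map_pow, map_pow, h1, map_neg, map_ofNat, map_ofNat,
        ← e1] at e2
      have hne : f (G2_t k 0) + 27 ≠ 0 := by
        have : f (G2_t k 0) + 27 = f (G2_t k 0 + 27) := by rw [map_add, f27]
        rw [this]
        intro h
        exact G2_t0_ne (hinj (h.trans (map_zero f).symm))
      exact mul_left_cancel₀ hne e2
    have h4 : ∃ e : ℤ, (e = 1 ∨ e = -1) ∧ τ (f (G2_e3 k)) = e * f (G2_e3 k) := by
      rcases sq_eq_sq_iff_eq_or_eq_neg.1 h3 with h | h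
      · exact ⟨1, Or.inl rfl, by rw [h]; simp⟩
      · exact ⟨-1, Or.inr rfl, by rw [h]; simp⟩
    obtain ⟨e, he, h4⟩ := h4
    have hee : (e : AlgebraicClosure (RF k 2)) * e = 1 := by
      rcases he with rfl | rfl <;> simp
    have hD : G2_z k 0 ≠ G2_z k 1 ∧ G2_z k 0 ≠ G2_z k 2 ∧ G2_z k 1 ≠ G2_z k 2 := by
      have := G2_D_ne (k := k)
      simp only [G2_D, mul_ne_zero_iff, sub_ne_zero] at this
      exact ⟨this.1.1, this.1.2, this.2⟩
    have hzinj : Function.Injective (fun j => f (G2_z k j)) := by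
      intro i j hij
      have hij' := hinj hij
      fin_cases i <;> fin_cases j <;> first
        | rfl
        | exact absurd hij' hD.1
        | exact absurd hij' hD.2.1
        | exact absurd hij' hD.2.2
        | exact absurd hij'.symm hD.1
        | exact absurd hij'.symm hD.2.1
        | exact absurd hij'.symm hD.2.2
    have s1 : f (G2_z k 0) + f (G2_z k 1) + f (G2_z k 2) = 0 := by
      rw [← map_add, ← map_add, G2_sum, map_zero]
    have s2 : f (G2_e2 k) = f (G2_z k 0) * f (G2_z k 1) + f (G2_z k 0) * f (G2_z k 2) +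
        f (G2_z k 1) * f (G2_z k 2) := by
      simp [G2_e2]
    have s3 : f (G2_e3 k) = f (G2_z k 0) * f (G2_z k 1) * f (G2_z k 2) := by
      simp [G2_e3]
    have t1 := congrArg τ s1
    have t2 := h1
    rw [s2] at t2
    have t3 := h4
    rw [s3] at t3
    simp only [map_add, map_mul, map_zero] at t1 t2 t3
    obtain ⟨p, hp⟩ := perm_of_cubic (u := fun j => (e : AlgebraicClosure (RF k 2)) *
        τ (f (G2_z k j))) (u' := fun j => f (G2_z k j)) (by
          show e * τ (f (G2_z k 0)) + e * τ (f (G2_z k 1)) + e * τ (f (G2_z k 2)) = _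
          rw [s1]
          linear_combination (e : AlgebraicClosure (RF k 2)) * t1) (by
          show e * τ (f (G2_z k 0)) * (e * τ (f (G2_z k 1))) + e * τ (f (G2_z k 0)) *
            (e * τ (f (G2_z k 2))) + e * τ (f (G2_z k 1)) * (e * τ (f (G2_z k 2))) = _
          rw [← t2]
          linear_combination (τ (f (G2_z k 0)) * τ (f (G2_z k 1)) +
            τ (f (G2_z k 0)) * τ (f (G2_z k 2)) + τ (f (G2_z k 1)) * τ (f (G2_z k 2))) * hee) (by
          show e * τ (f (G2_z k 0)) * (e * τ (f (G2_z k 1))) * (e * τ (f (G2_z k 2))) =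
            f (G2_z k 0) * f (G2_z k 1) * f (G2_z k 2)
          linear_combination ((e : AlgebraicClosure (RF k 2)) * (e * e)) * t3 +
            (e * e + 1) * (f (G2_z k 0) * f (G2_z k 1) * f (G2_z k 2)) * hee) hzinj
    have hz : ∀ j, τ (f (G2_z k j)) = e * f (G2_z k (p j)) := by
      intro j
      have h5 : e * τ (f (G2_z k j)) = f (G2_z k (p j)) := hp j
      rw [← h5, ← mul_assoc, hee, one_mul]
    obtain ⟨w, hw, hwz⟩ := G2_P_all (k := k) he p
    refine ⟨w, hw, ?_⟩
    have hfw : ∀ j, τ (f (G2_z k j)) = f (w (G2_z k j)) := by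
      intro j
      rw [hz, hwz]
      simp
    intro i
    fin_cases i
    · show τ (f (xv k 0)) = f (w (xv k 0))
      rw [G2_x0, map_sub, map_sub, map_sub, map_sub, hfw, hfw]
    · show τ (f (xv k 1)) = f (w (xv k 1))
      rw [G2_x1, hfw]

end

theorem good_G2 (k : Type u) [Field k] [CharZero k] : Good k CartanMatrix.G₂ := by
  exact good_G2'

end CM83
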