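import Pool.Agent.H.MP_83e36b_nt.cm.Prod2

/-! Module Prod3: renumbering the simple roots. -/

namespace CM83

universe u

variable {k : Type u} [Field k] [CharZero k] {n : ℕ}

theorem good_reindex {A : Matrix (Fin n) (Fin n) ℤ} (hA : ∀ j, A j j = 2)
    (e : Equiv.Perm (Fin n)) (h : Good k A) : Good k (A.submatrix e e) := by
  obtain ⟨t, d, i0, ht, hg, hd, hd'⟩ := h
  obtain ⟨ε, hε⟩ := exists_emb (k := k) (e : Fin n → Fin n) e.injective
  obtain ⟨ε', hε'⟩ := exists_emb (k := k) (e.symm : Fin n → Fin n) e.symm.injective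
  have e1 : ε.comp ε' = AlgHom.id k _ := by
    apply hom_ext
    intro i
    rw [AlgHom.comp_apply, hε', hε, Equiv.apply_symm_apply, AlgHom.id_apply]
  have e2 : ε'.comp ε = AlgHom.id k _ := by
    apply hom_ext
    intro i
    rw [AlgHom.comp_apply, hε, hε', Equiv.symm_apply_apply, AlgHom.id_apply]
  obtain ⟨π, hπ⟩ : ∃ π : RF k n ≃ₐ[k] RF k n, ∀ f, π f = ε f :=
    ⟨AlgEquiv.ofAlgHom ε ε' e1 e2, fun f => rfl⟩
  have hπx : ∀ i, π (xv k i) = xv k (e i) := fun i => by rw [hπ, hε]
  have hπs : ∀ i, π.symm (xv k (e i)) = xv k i := fun i => by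
    rw [← hπx, AlgEquiv.symm_apply_apply]
  have hπs' : ∀ i, π.symm (xv k i) = xv k (e.symm i) := fun i => by
    have h := hπs (e.symm i)
    rwa [Equiv.apply_symm_apply] at h
  -- conjugation of the simple reflections
  have conj : ∀ j σ, IsSimpleRefl k (A.submatrix e e) j σ →
      IsSimpleRefl k A (e j) ((π.symm.trans σ).trans π) := by
    intro j σ hσ i
    change π (σ (π.symm (xv k i))) = _
    rw [hπs', hσ, map_sub, map_mul, map_intCast, hπx, hπx, Matrix.submatrix_apply,
      Equiv.apply_symm_apply]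
  have fixA : ∀ i j σ, IsSimpleRefl k A j σ → σ (t i) = t i := fun i => by
    have h : t i ∈ IntermediateField.fixedField (weylGroup k A) := by
      rw [← hg]
      exact IntermediateField.subset_adjoin k _ ⟨i, rfl⟩
    exact (mem_fixed_iff A _).1 h
  have tr : ∀ j σ, IsSimpleRefl k (A.submatrix e e) j σ → ∀ f,
      π (σ (π.symm f)) = ((π.symm.trans σ).trans π) f := fun j σ _ f => rfl
  refine ⟨fun i => π.symm (t i), π.symm d, i0, ?_, ?_, ?_, ?_⟩
  · exact ht.map' (f := (π.symm : RF k n →ₐ[k] RF k n)) π.symm.injective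
  · have hr : Set.range (fun i => π.symm (t i)) = (π.symm : RF k n →ₐ[k] RF k n) '' Set.range t := by
      rw [← Set.range_comp]
      rfl
    rw [hr, ← IntermediateField.adjoin_map, hg]
    ext f
    rw [IntermediateField.mem_map, mem_fixed_iff]
    constructor
    · rintro ⟨z, hz, rfl⟩ j σ hσ
      rw [mem_fixed_iff] at hz
      have h1 := hz _ _ (conj j σ hσ)
      change σ (π.symm z) = π.symm z
      rw [← tr j σ hσ] at h1
      have h2 := congrArg π.symm h1
      rwa [AlgEquiv.symm_apply_apply] at h2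
    · intro hf
      refine ⟨π f, ?_, ?_⟩
      · rw [mem_fixed_iff]
        intro j σ hσ
        obtain ⟨σ', hσ'⟩ := exists_simpleRefl (k := k) (A.submatrix e e) (e.symm j)
          (by rw [Matrix.submatrix_apply]; exact hA _)
        have h1 := conj _ _ hσ'
        rw [Equiv.apply_symm_apply] at h1
        rw [hσ.unique h1, ← tr _ _ hσ', AlgEquiv.symm_apply_apply, hf _ _ hσ']
      · change π.symm (π f) = f
        rw [AlgEquiv.symm_apply_apply]
  · rw [← map_pow, hd]
  · intro j σ hσ
    have h1 := hd' _ _ (conj j σ hσ)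
    rw [← tr j σ hσ] at h1
    have h2 := congrArg π.symm h1
    rwa [AlgEquiv.symm_apply_apply, map_neg] at h2

end CM83
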