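import Pool.Agent.H.MP_83e36b_nt.cm.ClsAlg

/-! Module TypeBC: the theorem for the types `B_n` and `C_n`. -/

namespace CM83

universe u

variable {k : Type u} [Field k] [CharZero k] {n : ℕ}

/-- functions on natural numbers -/
noncomputable def clsX (X : Fin n → RF k n) (m : ℕ) : RF k n := if h : m < n then X ⟨m, h⟩ else 0

/-- sums of the last variables -/
noncomputable def clsZ (X : Fin n → RF k n) (m : ℕ) : RF k n := ∑ l ∈ Finset.Ico m n, clsX X l

theorem clsX_lt (X : Fin n → RF k n) (i : Fin n) : clsX X i = X i := by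
  unfold clsX
  rw [dif_pos i.2]

theorem clsZ_step (X : Fin n → RF k n) {m : ℕ} (hm : m < n) :
    clsZ X m = clsX X m + clsZ X (m + 1) := by
  unfold clsZ
  rw [Finset.sum_eq_sum_Ico_succ_bot hm]

theorem clsZ_top (X : Fin n → RF k n) : clsZ X n = 0 := by
  unfold clsZ
  rw [Finset.Ico_self, Finset.sum_empty]

theorem cls_B_entry (i j : Fin n) : CartanMatrix.B n i j =
    if (i : ℕ) = j then 2 else if (i : ℕ) + 1 = j then (if (j : ℕ) + 1 = n then -2 else -1)
    else if (j : ℕ) + 1 = i then -1 else 0 := by
  have hj := j.2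
  simp only [CartanMatrix.B, Matrix.of_apply, Fin.ext_iff]
  split_ifs <;> first | rfl | omega

/-- the action on the coordinates, swap -/
theorem clsB_swap (X : Fin n → RF k n) (σ : RF k n ≃ₐ[k] RF k n) (j : Fin n)
    (hj : (j : ℕ) + 1 < n)
    (hσ : ∀ i, σ (X i) = X i - (CartanMatrix.B n i j : RF k n) * X j) (m : ℕ) (hm : m ≤ n) :
    σ (clsZ X m) = if m = (j : ℕ) then clsZ X ((j : ℕ) + 1)
      else if m = (j : ℕ) + 1 then clsZ X j else clsZ X m := by
  have key : ∀ d m : ℕ, m + d = n → σ (clsZ X m) = if m = (j : ℕ) then clsZ X ((j : ℕ) + 1)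
      else if m = (j : ℕ) + 1 then clsZ X j else clsZ X m := by
    intro d
    induction d with
    | zero =>
      intro m hm
      rw [add_zero] at hm
      rw [hm, clsZ_top, map_zero, if_neg (by omega), if_neg (by omega)]
    | succ d ih =>
      intro m hm
      have hmn : m < n := by omega
      have h1 := clsX_lt X ⟨m, hmn⟩
      have h2 := clsX_lt X j
      have h3 : X j = clsZ X j - clsZ X ((j : ℕ) + 1) := by
        rw [clsZ_step X j.2, h2]; ring
      have h4 : X ⟨m, hmn⟩ = clsZ X m - clsZ X (m + 1) := by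
        rw [clsZ_step X hmn, h1]; ring
      rw [clsZ_step X hmn, map_add, h1, hσ, ih (m + 1) (by omega), h3, h4, cls_B_entry]
      simp only
      by_cases c1 : m = (j : ℕ)
      · subst c1
        rw [if_pos rfl, if_pos rfl, if_neg (by omega), if_pos rfl]
        push_cast
        ring
      · by_cases c2 : m = (j : ℕ) + 1
        · subst c2
          rw [if_neg (by omega), if_neg (by omega), if_pos rfl, if_neg (by omega), if_neg (by omega),
            if_neg (by omega), if_pos rfl]
          push_cast
          ring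
        · by_cases c3 : m + 1 = (j : ℕ)
          · rw [if_neg c1, if_pos c3, if_neg (by omega), if_pos c3, if_neg c1, if_neg c2, c3]
            push_cast
            ring
          · rw [if_neg c1, if_neg c3, if_neg (by omega), if_neg c3, if_neg (by omega),
              if_neg c1, if_neg c2]
            push_cast
            ring
  exact key (n - m) m (by omega)

/-- the action on the coordinates, sign change -/
theorem clsB_flip (X : Fin n → RF k n) (σ : RF k n ≃ₐ[k] RF k n) (j : Fin n)
    (hj : (j : ℕ) + 1 = n)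
    (hσ : ∀ i, σ (X i) = X i - (CartanMatrix.B n i j : RF k n) * X j) (m : ℕ) (hm : m ≤ n) :
    σ (clsZ X m) = if m = (j : ℕ) then - clsZ X j else clsZ X m := by
  have key : ∀ d m : ℕ, m + d = n →
      σ (clsZ X m) = if m = (j : ℕ) then - clsZ X j else clsZ X m := by
    intro d
    induction d with
    | zero =>
      intro m hm
      rw [add_zero] at hm
      rw [hm, clsZ_top, map_zero, if_neg (by omega)]
    | succ d ih =>
      intro m hm
      have hmn : m < n := by omega
      have h1 := clsX_lt X ⟨m, hmn⟩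
      have h2 := clsX_lt X j
      have h3 : X j = clsZ X j := by
        rw [clsZ_step X j.2, h2, hj, clsZ_top]; ring
      have h4 : X ⟨m, hmn⟩ = clsZ X m - clsZ X (m + 1) := by
        rw [clsZ_step X hmn, h1]; ring
      rw [clsZ_step X hmn, map_add, h1, hσ, ih (m + 1) (by omega), h3, h4, cls_B_entry]
      simp only
      by_cases c1 : m = (j : ℕ)
      · subst c1
        rw [if_pos rfl, if_pos rfl, if_neg (by omega), hj, clsZ_top]
        push_cast
        ring
      · by_cases c3 : m + 1 = (j : ℕ)
        · rw [if_neg c1, if_pos c3, if_pos hj, if_pos c3, if_neg c1, c3]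
          push_cast
          ring
        · rw [if_neg c1, if_neg c3, if_neg (by omega), if_neg c3, if_neg c1]
          push_cast
          ring
  exact key (n - m) m (by omega)

/-- the theorem for a system of simple roots `X` of type `B_n`, proportional to the variables -/
theorem good_of_B (hn : 1 ≤ n) {A : Matrix (Fin n) (Fin n) ℤ} (hA : ∀ j, A j j = 2)
    (X : Fin n → RF k n) (hX : ∀ i, ∃ c : k, xv k i = c • X i)
    (hσ : ∀ j σ, IsSimpleRefl k A j σ → ∀ i, σ (X i) = X i -
      (CartanMatrix.B n i j : RF k n) * X j) : Good k A := by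
  obtain ⟨z, hz⟩ : ∃ z : Fin n → RF k n, z = fun i : Fin n => clsZ X (i : ℕ) := ⟨_, rfl⟩
  have hzi : ∀ i : Fin n, z i = clsZ X (i : ℕ) := fun i => by rw [hz]
  have hlin : ∀ i, ∃ c : Fin n → k, xv k i = ∑ l, c l • z l := by
    intro i
    have h1 : xv k i ∈ Submodule.span k (Set.range z) := by
      obtain ⟨c, hc⟩ := hX i
      rw [hc]
      refine Submodule.smul_mem _ c ?_
      have h2 : X i = clsZ X i - clsZ X ((i : ℕ) + 1) := by
        rw [clsZ_step X i.2, clsX_lt]; ring
      rw [h2]
      refine Submodule.sub_mem _ (Submodule.subset_span ⟨i, hzi i⟩) ?_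
      by_cases h3 : (i : ℕ) + 1 < n
      · exact Submodule.subset_span ⟨⟨(i : ℕ) + 1, h3⟩, hzi _⟩
      · have h4 : (i : ℕ) + 1 = n := by have := i.2; omega
        rw [h4, clsZ_top]
        exact Submodule.zero_mem _
    obtain ⟨c, hc⟩ := (Submodule.mem_span_range_iff_exists_fun k).1 h1
    exact ⟨c, hc.symm⟩
  have hsw : ∀ (j j' : Fin n), (j : ℕ) + 1 = j' → ∀ σ, IsSimpleRefl k A j σ →
      ∀ l, σ (z l) = (((fun _ => 1 : Fin n → ℤ) l : ℤ) : RF k n) * z (Equiv.swap j j' l) := by
    intro j j' hjj σ h l
    have hj' := j'.2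
    rw [hzi, clsB_swap X σ j (by omega) (hσ j σ h) l (by omega), Equiv.swap_apply_def, Int.cast_one,
      one_mul]
    by_cases c1 : l = j
    · rw [if_pos (by rw [c1]), if_pos c1, hzi, hjj]
    · rw [if_neg (fun h' => c1 (Fin.ext h')), if_neg c1]
      by_cases c2 : l = j'
      · rw [if_pos (by rw [c2, hjj]), if_pos c2, hzi]
      · rw [if_neg (fun h' => c2 (Fin.ext (h'.trans hjj))), if_neg c2, hzi]
  have hfl : ∀ j : Fin n, (j : ℕ) + 1 = n → ∀ σ, IsSimpleRefl k A j σ →
      ∀ l, σ (z l) = (((fun l => if l = j then -1 else 1 : Fin n → ℤ) l : ℤ) : RF k n) *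
        z ((1 : Equiv.Perm (Fin n)) l) := by
    intro j hj σ h l
    rw [hzi, clsB_flip X σ j hj (hσ j σ h) l (by omega), Equiv.Perm.one_apply]
    by_cases c1 : l = j
    · rw [if_pos (by rw [c1])]
      simp only [c1, if_true, hzi]
      push_cast
      ring
    · rw [if_neg (fun h' => c1 (Fin.ext h'))]
      simp only [c1, if_false, hzi]
      push_cast
      ring
  refine good_clsB hn hlin ?_ ?_
  · intro j σ h
    by_cases hj : (j : ℕ) + 1 < n
    · refine ⟨fun _ => 1, Equiv.swap j ⟨(j : ℕ) + 1, hj⟩, fun _ => Or.inl rfl, ?_,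
        hsw j ⟨(j : ℕ) + 1, hj⟩ rfl σ h⟩
      rw [Finset.prod_const_one, Equiv.Perm.sign_swap (by
        intro h'
        have := congrArg Fin.val h'
        simp at this)]
      rfl
    · have hj' : (j : ℕ) + 1 = n := by have := j.2; omega
      refine ⟨fun l => if l = j then -1 else 1, 1, fun i => ?_, ?_, hfl j hj' σ h⟩
      · by_cases c : i = j
        · exact Or.inr (if_pos c)
        · exact Or.inl (if_neg c)
      · rw [Finset.prod_ite_eq' Finset.univ j (fun _ => (-1 : ℤ)), if_pos (Finset.mem_univ j),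
          Equiv.Perm.sign_one]
        rfl
  · intro η π hη
    have hp := ClsP_perm (A := A) (z := z) (fun i j hij => by
      obtain ⟨σ, h⟩ := exists_simpleRefl (k := k) A i (hA i)
      exact ⟨σ, Subgroup.subset_closure ⟨i, h⟩, hsw i j hij σ h⟩)
    have hlast : n - 1 < n := by omega
    obtain ⟨σ, h⟩ := exists_simpleRefl (k := k) A ⟨n - 1, hlast⟩ (hA _)
    exact ClsP_all hp (i0 := ⟨n - 1, hlast⟩)
      ⟨σ, Subgroup.subset_closure ⟨_, h⟩, hfl ⟨n - 1, hlast⟩ (by simp; omega) σ h⟩ hη π

variable (k)

/-- type `B_n` -/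
theorem good_B (hn : 1 ≤ n) : Good k (CartanMatrix.B n) := by
  refine good_of_B hn (fun j => CartanMatrix.B_diag n j) (xv k) (fun i => ⟨1, by rw [one_smul]⟩) ?_
  intro j σ h i
  exact h i

/-- type `C_n` -/
theorem good_C (hn : 1 ≤ n) : Good k (CartanMatrix.C n) := by
  have h2 : (2 : k) ≠ 0 := two_ne_zero
  refine good_of_B hn (fun j => CartanMatrix.C_diag n j)
    (fun i => (if (i : ℕ) + 1 = n then (2 : k)⁻¹ else 1) • xv k i) ?_ ?_
  · intro i
    by_cases c : (i : ℕ) + 1 = n
    · exact ⟨2, by rw [if_pos c, smul_smul, mul_inv_cancel₀ h2, one_smul]⟩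
    · exact ⟨1, by rw [if_neg c, smul_smul, one_mul, one_smul]⟩
  · intro j σ h i
    have hcz : CharZero (RF k n) := charZero_of_injective_algebraMap
      (algebraMap k (RF k n)).injective
    have hs : ∀ (c : k) (y : RF k n), σ (c • y) = c • σ y := by
      intro c y
      rw [Algebra.smul_def, map_mul, σ.commutes, ← Algebra.smul_def]
    have hhalf : ∀ y : RF k n, (2 : k)⁻¹ • y = y / 2 := by
      intro y
      rw [Algebra.smul_def, map_inv₀, map_ofNat]
      field_simp
    rw [hs, h i, cls_B_entry]
    have hC : CartanMatrix.C n i j = if (i : ℕ) = j then 2 else if (i : ℕ) + 1 = j then -1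
        else if (j : ℕ) + 1 = i then (if (i : ℕ) + 1 = n then -2 else -1) else 0 := by
      have hi := i.2
      simp only [CartanMatrix.C, Matrix.of_apply, Fin.ext_iff]
      split_ifs <;> first | rfl | omega
    rw [hC]
    have hi := i.2
    have hj := j.2
    by_cases c0 : (i : ℕ) = j
    · have : i = j := Fin.ext c0
      subst this
      rw [if_pos rfl, if_pos rfl]
      by_cases c : (i : ℕ) + 1 = n
      · rw [if_pos c, hhalf, hhalf]
        push_cast
        ring
      · rw [if_neg c, one_smul, one_smul]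
    · rw [if_neg c0, if_neg c0]
      by_cases c1 : (i : ℕ) + 1 = j
      · rw [if_pos c1, if_pos c1, if_neg (by omega : ¬ (i : ℕ) + 1 = n), one_smul, one_smul]
        by_cases c : (j : ℕ) + 1 = n
        · rw [if_pos c, if_pos c, hhalf]
          push_cast
          ring
        · rw [if_neg c, if_neg c, one_smul]
      · rw [if_neg c1, if_neg c1]
        by_cases c2 : (j : ℕ) + 1 = i
        · rw [if_pos c2, if_pos c2, if_neg (by omega : ¬ (j : ℕ) + 1 = n), one_smul]
          by_cases c : (i : ℕ) + 1 = n
          · rw [if_pos c, if_pos c, hhalf, hhalf]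
            push_cast
            ring
          · rw [if_neg c, if_neg c, one_smul, one_smul]
        · rw [if_neg c2, if_neg c2]
          push_cast
          rw [zero_mul, sub_zero, zero_mul, sub_zero]

end CM83
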