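import Pool.Agent.H.MP_83e36b_nt.cm.TypeBC

/-! Module TypeD: the theorem for the type `D_n`. -/

namespace CM83

universe u

variable {k : Type u} [Field k] [CharZero k] {n : ℕ}

/-- the coordinates for type `D` -/
noncomputable def clsW (X : Fin n → RF k n) (m : ℕ) : RF k n :=
  ∑ l ∈ Finset.Ico m (n - 1), clsX X l + (clsX X (n - 1) - clsX X (n - 2)) / 2

omit [CharZero k] in
theorem clsW_step (X : Fin n → RF k n) {m : ℕ} (hm : m + 1 < n) :
    clsW X m = clsX X m + clsW X (m + 1) := by
  unfold clsW
  rw [Finset.sum_eq_sum_Ico_succ_bot (by omega : m < n - 1), add_assoc]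

omit [CharZero k] in
theorem clsW_top (X : Fin n → RF k n) :
    clsW X (n - 1) = (clsX X (n - 1) - clsX X (n - 2)) / 2 := by
  unfold clsW
  rw [Finset.Ico_self, Finset.sum_empty, zero_add]

theorem clsW_last (X : Fin n → RF k n) (hn : 3 ≤ n) :
    clsX X (n - 1) = clsW X (n - 2) + clsW X (n - 1) := by
  have hcz : CharZero (RF k n) := charZero_of_injective_algebraMap
    (algebraMap k (RF k n)).injective
  have h1 := clsW_step X (by omega : n - 2 + 1 < n)
  have h2 : n - 2 + 1 = n - 1 := by omega
  rw [h2] at h1
  rw [h1, clsW_top]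
  field_simp
  ring

theorem cls_D_entry (hn : 3 ≤ n) (i j : Fin n) : CartanMatrix.D n i j =
    if (i : ℕ) = j then 2 else if (i : ℕ) + 1 = j ∧ (j : ℕ) + 1 < n then -1
    else if (j : ℕ) + 1 = i ∧ (i : ℕ) + 1 < n then -1
    else if (i : ℕ) + 3 = n ∧ (j : ℕ) + 1 = n then -1
    else if (j : ℕ) + 3 = n ∧ (i : ℕ) + 1 = n then -1 else 0 := by
  have hi := i.2
  have hj := j.2
  simp only [CartanMatrix.D, Matrix.of_apply, Fin.ext_iff]
  split_ifs <;> first | rfl | omega

/-- the action on the coordinates, swap -/
theorem clsD_swap (hn : 3 ≤ n) (X : Fin n → RF k n) (σ : RF k n ≃ₐ[k] RF k n) (j : Fin n)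
    (hj : (j : ℕ) + 1 < n)
    (hσ : ∀ i, σ (X i) = X i - (CartanMatrix.D n i j : RF k n) * X j) (m : ℕ) (hm : m < n) :
    σ (clsW X m) = if m = (j : ℕ) then clsW X ((j : ℕ) + 1)
      else if m = (j : ℕ) + 1 then clsW X j else clsW X m := by
  have hcz : CharZero (RF k n) := charZero_of_injective_algebraMap
    (algebraMap k (RF k n)).injective
  have h2 := clsX_lt X j
  have h3 : X j = clsW X j - clsW X ((j : ℕ) + 1) := by
    rw [clsW_step X hj, h2]; ring
  have key : ∀ d m : ℕ, m + d + 1 = n → σ (clsW X m) = if m = (j : ℕ) then clsW X ((j : ℕ) + 1)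
      else if m = (j : ℕ) + 1 then clsW X j else clsW X m := by
    intro d
    induction d with
    | zero =>
      intro m hm
      have hm1 : m = n - 1 := by omega
      subst hm1
      have e1 := clsX_lt X ⟨n - 1, by omega⟩
      have e2 := clsX_lt X ⟨n - 2, by omega⟩
      have e1' : clsX X (n - 1) = X ⟨n - 1, by omega⟩ := e1
      have e2' : clsX X (n - 2) = X ⟨n - 2, by omega⟩ := e2
      have hl := clsW_last X hn
      have hs := clsW_step X (by omega : n - 2 + 1 < n)
      have h21 : n - 2 + 1 = n - 1 := by omega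
      rw [h21] at hs
      have hW : σ (clsW X (n - 1)) = (σ (X ⟨n - 1, by omega⟩) - σ (X ⟨n - 2, by omega⟩)) / 2 := by
        rw [clsW_top, e1', e2', map_div₀, map_sub, map_ofNat]
      rw [hW, hσ, hσ, cls_D_entry hn, cls_D_entry hn]
      simp only
      have h4 : ¬ (n - 1 = (j : ℕ)) := by omega
      rw [if_neg h4, if_neg (by omega), if_neg (by omega), if_neg (by omega)]
      by_cases c1 : n - 2 = (j : ℕ)
      · have c2 : n - 1 = (j : ℕ) + 1 := by omega
        rw [if_neg (by omega), if_pos c1, if_neg h4, if_pos c2, ← e1', ← e2', hl, hs, h3, ← c1,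
          h21, hs]
        push_cast
        field_simp
        ring
      · rw [if_neg c1, if_neg h4, if_neg (by omega : ¬ (n - 1 = (j : ℕ) + 1))]
        by_cases c3 : (j : ℕ) + 3 = n
        · rw [if_pos ⟨c3, by omega⟩, if_neg (by omega), if_pos ⟨by omega, by omega⟩, ← e1', ← e2',
            clsW_top]
          push_cast
          ring
        · rw [if_neg (by omega), if_neg (by omega), if_neg (by omega), if_neg (by omega),
            if_neg (by omega), ← e1', ← e2', clsW_top]
          push_cast
          ring
    | succ d ih =>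
      intro m hm
      have hmn : m < n := by omega
      have h1 := clsX_lt X ⟨m, hmn⟩
      have h4 : X ⟨m, hmn⟩ = clsW X m - clsW X (m + 1) := by
        rw [clsW_step X (by omega : m + 1 < n), h1]; ring
      rw [clsW_step X (by omega : m + 1 < n), map_add, h1, hσ, ih (m + 1) (by omega), h3, h4,
        cls_D_entry hn]
      simp only
      by_cases c1 : m = (j : ℕ)
      · subst c1
        rw [if_pos rfl, if_pos rfl, if_neg (by omega), if_pos rfl]
        push_cast
        ring
      · by_cases c2 : m = (j : ℕ) + 1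
        · subst c2
          rw [if_neg (by omega), if_neg (by omega), if_pos ⟨rfl, by omega⟩, if_neg (by omega),
            if_neg (by omega), if_neg (by omega), if_pos rfl]
          push_cast
          ring
        · by_cases c3 : m + 1 = (j : ℕ)
          · rw [if_neg c1, if_pos ⟨c3, hj⟩, if_pos c3, if_neg c1, if_neg c2, c3]
            push_cast
            ring
          · rw [if_neg c1, if_neg (by omega), if_neg (by omega), if_neg (by omega),
              if_neg (by omega), if_neg c3, if_neg (by omega), if_neg c1, if_neg c2]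
            push_cast
            ring
  exact key (n - 1 - m) m (by omega)

/-- the action on the coordinates, last reflection -/
theorem clsD_flip (hn : 3 ≤ n) (X : Fin n → RF k n) (σ : RF k n ≃ₐ[k] RF k n) (j : Fin n)
    (hj : (j : ℕ) + 1 = n)
    (hσ : ∀ i, σ (X i) = X i - (CartanMatrix.D n i j : RF k n) * X j) (m : ℕ) (hm : m < n) :
    σ (clsW X m) = if m = n - 2 then - clsW X (n - 1)
      else if m = n - 1 then - clsW X (n - 2) else clsW X m := by
  have hcz : CharZero (RF k n) := charZero_of_injective_algebraMap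
    (algebraMap k (RF k n)).injective
  have hj1 : (j : ℕ) = n - 1 := by omega
  have h2 := clsX_lt X j
  have hl := clsW_last X hn
  have h3 : X j = clsW X (n - 2) + clsW X (n - 1) := by
    rw [← h2, hj1, hl]
  have hs := clsW_step X (by omega : n - 2 + 1 < n)
  have h21 : n - 2 + 1 = n - 1 := by omega
  rw [h21] at hs
  have key : ∀ d m : ℕ, m + d + 1 = n → σ (clsW X m) = if m = n - 2 then - clsW X (n - 1)
      else if m = n - 1 then - clsW X (n - 2) else clsW X m := by
    intro d
    induction d with
    | zero =>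
      intro m hm
      have hm1 : m = n - 1 := by omega
      subst hm1
      have e1 := clsX_lt X ⟨n - 1, by omega⟩
      have e2 := clsX_lt X ⟨n - 2, by omega⟩
      have e1' : clsX X (n - 1) = X ⟨n - 1, by omega⟩ := e1
      have e2' : clsX X (n - 2) = X ⟨n - 2, by omega⟩ := e2
      have hW : σ (clsW X (n - 1)) = (σ (X ⟨n - 1, by omega⟩) - σ (X ⟨n - 2, by omega⟩)) / 2 := by
        rw [clsW_top, e1', e2', map_div₀, map_sub, map_ofNat]
      have e3 : clsX X (n - 2) = clsW X (n - 2) - clsW X (n - 1) := by rw [hs]; ring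
      rw [hW, hσ, hσ, cls_D_entry hn, cls_D_entry hn]
      simp only
      rw [if_pos (by omega), if_neg (by omega), if_neg (by omega), if_neg (by omega),
        if_neg (by omega), if_neg (by omega), if_neg (by omega), if_pos trivial, ← e1', ← e2',
        h3, hl, e3]
      push_cast
      ring
    | succ d ih =>
      intro m hm
      have hmn : m < n := by omega
      have h1 := clsX_lt X ⟨m, hmn⟩
      have h4 : X ⟨m, hmn⟩ = clsW X m - clsW X (m + 1) := by
        rw [clsW_step X (by omega : m + 1 < n), h1]; ring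
      rw [clsW_step X (by omega : m + 1 < n), map_add, h1, hσ, ih (m + 1) (by omega), h3, h4,
        cls_D_entry hn]
      simp only
      by_cases c1 : m = n - 2
      · subst c1
        rw [if_neg (by omega), if_neg (by omega), if_neg (by omega), if_neg (by omega),
          if_neg (by omega), if_neg (by omega), if_pos h21, if_pos rfl, h21]
        push_cast
        ring
      · by_cases c2 : m + 3 = n
        · have e5 : m + 1 = n - 2 := by omega
          rw [if_neg (by omega), if_neg (by omega), if_neg (by omega), if_pos ⟨c2, hj⟩, if_pos e5,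
            if_neg c1, if_neg (by omega), e5]
          push_cast
          ring
        · rw [if_neg (by omega), if_neg (by omega), if_neg (by omega), if_neg (by omega),
            if_neg (by omega), if_neg (by omega), if_neg (by omega), if_neg (by omega),
            if_neg (by omega)]
          push_cast
          ring
  exact key (n - 1 - m) m (by omega)

variable (k)

/-- type `D_n` -/
theorem good_D (hn : 3 ≤ n) : Good k (CartanMatrix.D n) := by
  have hcz : CharZero (RF k n) := charZero_of_injective_algebraMap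
    (algebraMap k (RF k n)).injective
  obtain ⟨z, hz⟩ : ∃ z : Fin n → RF k n, z = fun i : Fin n => clsW (xv k) (i : ℕ) := ⟨_, rfl⟩
  have hzi : ∀ i : Fin n, z i = clsW (xv k) (i : ℕ) := fun i => by rw [hz]
  have hlin : ∀ i, ∃ c : Fin n → k, xv k i = ∑ l, c l • z l := by
    intro i
    have h1 : xv k i ∈ Submodule.span k (Set.range z) := by
      by_cases h3 : (i : ℕ) + 1 < n
      · have h2 : xv k i = clsW (xv k) i - clsW (xv k) ((i : ℕ) + 1) := by
          rw [clsW_step (xv k) h3, clsX_lt]; ring
        rw [h2]
        exact Submodule.sub_mem _ (Submodule.subset_span ⟨i, hzi i⟩)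
          (Submodule.subset_span ⟨⟨(i : ℕ) + 1, h3⟩, hzi _⟩)
      · have h4 : (i : ℕ) = n - 1 := by have := i.2; omega
        have h2 : xv k i = clsW (xv k) (n - 2) + clsW (xv k) (n - 1) := by
          rw [← clsW_last (xv k) hn, ← h4, clsX_lt]
        rw [h2]
        exact Submodule.add_mem _ (Submodule.subset_span ⟨⟨n - 2, by omega⟩, hzi _⟩)
          (Submodule.subset_span ⟨⟨n - 1, by omega⟩, hzi _⟩)
    obtain ⟨c, hc⟩ := (Submodule.mem_span_range_iff_exists_fun k).1 h1
    exact ⟨c, hc.symm⟩
  have hsw : ∀ (j j' : Fin n), (j : ℕ) + 1 = j' → ∀ σ, IsSimpleRefl k (CartanMatrix.D n) j σ →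
      ∀ l, σ (z l) = (((fun _ => 1 : Fin n → ℤ) l : ℤ) : RF k n) * z (Equiv.swap j j' l) := by
    intro j j' hjj σ h l
    have hj' := j'.2
    rw [hzi, clsD_swap hn (xv k) σ j (by omega) h l l.2, Equiv.swap_apply_def, Int.cast_one,
      one_mul]
    by_cases c1 : l = j
    · rw [if_pos (by rw [c1]), if_pos c1, hzi, hjj]
    · rw [if_neg (fun h' => c1 (Fin.ext h')), if_neg c1]
      by_cases c2 : l = j'
      · rw [if_pos (by rw [c2, hjj]), if_pos c2, hzi]
      · rw [if_neg (fun h' => c2 (Fin.ext (h'.trans hjj))), if_neg c2, hzi]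
  obtain ⟨a, ha⟩ : ∃ a : Fin n, a = ⟨n - 2, by omega⟩ := ⟨_, rfl⟩
  obtain ⟨b, hb⟩ : ∃ b : Fin n, b = ⟨n - 1, by omega⟩ := ⟨_, rfl⟩
  have hav : (a : ℕ) = n - 2 := by rw [ha]
  have hbv : (b : ℕ) = n - 1 := by rw [hb]
  have hab : a ≠ b := by
    intro h
    have := congrArg Fin.val h
    omega
  have hfl : ∀ j : Fin n, (j : ℕ) + 1 = n → ∀ σ, IsSimpleRefl k (CartanMatrix.D n) j σ →
      ∀ l, σ (z l) = (((fun l => if l = a ∨ l = b then -1 else 1 : Fin n → ℤ) l : ℤ) : RF k n) *
        z (Equiv.swap a b l) := by
    intro j hj σ h l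
    rw [hzi, clsD_flip hn (xv k) σ j hj h l l.2, Equiv.swap_apply_def]
    by_cases c1 : l = a
    · rw [if_pos (by rw [c1, hav]), if_pos c1, hzi, hbv]
      simp only [c1, true_or, if_true]
      push_cast
      ring
    · rw [if_neg (fun h' => c1 (Fin.ext (h'.trans hav.symm))), if_neg c1]
      by_cases c2 : l = b
      · rw [if_pos (by rw [c2, hbv]), if_pos c2, hzi, hav]
        simp only [c2, or_true, if_true]
        push_cast
        ring
      · rw [if_neg (fun h' => c2 (Fin.ext (h'.trans hbv.symm))), if_neg c2, hzi]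
        simp only [c1, c2, or_self, if_false]
        push_cast
        ring
  refine good_clsD hn hlin ?_ ?_
  · intro j σ h
    by_cases hj : (j : ℕ) + 1 < n
    · refine ⟨fun _ => 1, Equiv.swap j ⟨(j : ℕ) + 1, hj⟩, fun _ => Or.inl rfl,
        Finset.prod_const_one, ?_, hsw j ⟨(j : ℕ) + 1, hj⟩ rfl σ h⟩
      rw [Equiv.Perm.sign_swap (by
        intro h'
        have := congrArg Fin.val h'
        simp at this)]
      rfl
    · have hj' : (j : ℕ) + 1 = n := by have := j.2; omega
      refine ⟨fun l => if l = a ∨ l = b then -1 else 1, Equiv.swap a b, fun i => ?_, ?_, ?_,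
        hfl j hj' σ h⟩
      · by_cases c : i = a ∨ i = b
        · exact Or.inr (if_pos c)
        · exact Or.inl (if_neg c)
      · have h1 : ∀ l : Fin n, (if l = a ∨ l = b then (-1 : ℤ) else 1) =
            (if l = a then -1 else 1) * (if l = b then -1 else 1) := by
          intro l
          by_cases c1 : l = a
          · rw [if_pos (Or.inl c1), if_pos c1, if_neg (fun h' => hab (c1.symm.trans h'))]
            norm_num
          · by_cases c2 : l = b
            · rw [if_pos (Or.inr c2), if_neg c1, if_pos c2]
              norm_num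
            · rw [if_neg (not_or.2 ⟨c1, c2⟩), if_neg c1, if_neg c2]
              norm_num
        rw [Finset.prod_congr rfl fun l _ => h1 l, Finset.prod_mul_distrib,
          Finset.prod_ite_eq' Finset.univ a (fun _ => (-1 : ℤ)), if_pos (Finset.mem_univ a),
          Finset.prod_ite_eq' Finset.univ b (fun _ => (-1 : ℤ)), if_pos (Finset.mem_univ b)]
        norm_num
      · rw [Equiv.Perm.sign_swap hab]
        rfl
  · intro η π hη hη1
    have hp := ClsP_perm (A := CartanMatrix.D n) (z := z) (fun i j hij => by
      obtain ⟨σ, h⟩ := exists_simpleRefl (k := k) (CartanMatrix.D n) i (CartanMatrix.D_diag n i)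
      exact ⟨σ, Subgroup.subset_closure ⟨i, h⟩, hsw i j hij σ h⟩)
    obtain ⟨σ, h⟩ := exists_simpleRefl (k := k) (CartanMatrix.D n) b (CartanMatrix.D_diag n b)
    have h1 : ClsP (CartanMatrix.D n) z (fun l => if l = a ∨ l = b then -1 else 1)
        (Equiv.swap a b) := ⟨σ, Subgroup.subset_closure ⟨b, h⟩, hfl b (by omega) σ h⟩
    have h2 : ClsP (CartanMatrix.D n) z (fun l => if l = a ∨ l = b then -1 else 1) 1 := by
      refine ((hp (Equiv.swap a b)).mul h1).congr (fun l => ?_) ?_
      · ring
      · rw [Equiv.swap_mul_self]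
    exact ClsP_even hp hab h2 hη hη1 π

end CM83
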