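import Pool.Agent.H.MP_83e36b_nt.cm.TypeA
import Pool.Agent.H.MP_83e36b_nt.cm.TypeBC
import Pool.Agent.H.MP_83e36b_nt.cm.TypeD
import Pool.Agent.H.MP_83e36b_nt.cm.E6Main
import Pool.Agent.H.MP_83e36b_nt.cm.E7Main
import Pool.Agent.H.MP_83e36b_nt.cm.F4Main
import Pool.Agent.H.MP_83e36b_nt.cm.G2Main
import Pool.Agent.H.MP_83e36b_nt.cm.Prod3

/-! Module Final: all Weyl groups without component of type `E_8`. -/

namespace CM83

universe u

/-- the Cartan matrices of the root systems without component of type `E_8` -/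
inductive NoE8 : ∀ {n : ℕ}, Matrix (Fin n) (Fin n) ℤ → Prop
  | A {n : ℕ} (hn : 1 ≤ n) : NoE8 (CartanMatrix.A n)
  | B {n : ℕ} (hn : 2 ≤ n) : NoE8 (CartanMatrix.B n)
  | C {n : ℕ} (hn : 2 ≤ n) : NoE8 (CartanMatrix.C n)
  | D {n : ℕ} (hn : 4 ≤ n) : NoE8 (CartanMatrix.D n)
  | E₆ : NoE8 CartanMatrix.E₆
  | E₇ : NoE8 CartanMatrix.E₇
  | F₄ : NoE8 CartanMatrix.F₄
  | G₂ : NoE8 CartanMatrix.G₂
  | sum {n m : ℕ} {M : Matrix (Fin n) (Fin n) ℤ} {N : Matrix (Fin m) (Fin m) ℤ}
      (hM : NoE8 M) (hN : NoE8 N) : NoE8 (blkM M N)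
  | perm {n : ℕ} {M : Matrix (Fin n) (Fin n) ℤ} (e : Equiv.Perm (Fin n)) (hM : NoE8 M) :
      NoE8 (M.submatrix e e)

theorem NoE8.diag {n : ℕ} {A : Matrix (Fin n) (Fin n) ℤ} (h : NoE8 A) : ∀ j, A j j = 2 := by
  induction h with
  | A hn => intro j; simp [CartanMatrix.A]
  | B hn => intro j; simp [CartanMatrix.B]
  | C hn => intro j; simp [CartanMatrix.C]
  | D hn => intro j; simp [CartanMatrix.D]
  | E₆ => decide
  | E₇ => decide
  | F₄ => decide
  | G₂ => decide
  | sum hM hN h1 h2 =>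
    intro j
    induction j using Fin.addCases with
    | left i => simp [blkM, h1]
    | right i => simp [blkM, h2]
  | perm e hM h1 => intro j; exact h1 _

theorem NoE8.good {k : Type u} [Field k] [CharZero k] {n : ℕ} {A : Matrix (Fin n) (Fin n) ℤ}
    (h : NoE8 A) : Good k A := by
  induction h with
  | A hn => exact good_A k hn
  | B hn => exact good_B k (by omega)
  | C hn => exact good_C k (by omega)
  | D hn => exact good_D k (by omega)
  | E₆ => exact good_E6 k
  | E₇ => exact good_E7 k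
  | F₄ => exact good_F4 k
  | G₂ => exact good_G2 k
  | sum hM hN h1 h2 => exact good_sum hM.diag hN.diag h1 h2
  | perm e hM h1 => exact good_reindex hM.diag e h1

end CM83
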