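import Pool.Agent.H.MP_83e36b_nt.cm.WBasic

/-! Module XDefs: finite groups acting on `L(x_{j,i})`, on the coefficients and through the Weyl
group on blocks of variables. -/

namespace CM83

universe u v w

/-- the field `L(x_{j,i} : j ∈ ι, i < n)` of rational functions in `|ι|` blocks of `n` variables -/
abbrev RFL (L : Type u) [Field L] (ι : Type v) (n : ℕ) : Type (max u v) :=
  FractionRing (MvPolynomial (ι × Fin n) L)

/-- the variable `x_{j,i}` -/
noncomputable def xl (L : Type u) [Field L] {ι : Type v} {n : ℕ} (j : ι) (i : Fin n) : RFL L ι n :=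
  algebraMap (MvPolynomial (ι × Fin n) L) (RFL L ι n) (MvPolynomial.X (j, i))

/-- the matrix of the `l`-th simple reflection `x_i ↦ x_i - A_{il} x_l` -/
def reflMat {n : ℕ} (A : Matrix (Fin n) (Fin n) ℤ) (l : Fin n) : Matrix (Fin n) (Fin n) ℤ :=
  Matrix.of fun i m => (if i = m then 1 else 0) - (if m = l then A i l else 0)

/-- the Weyl group `W`: the products of simple reflections -/
def weylMat {n : ℕ} (A : Matrix (Fin n) (Fin n) ℤ) : Submonoid (Matrix (Fin n) (Fin n) ℤ) :=
  Submonoid.closure (Set.range (reflMat A))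

/-- the rotation group `W^+`: the products of an even number of simple reflections -/
def rotMat {n : ℕ} (A : Matrix (Fin n) (Fin n) ℤ) : Submonoid (Matrix (Fin n) (Fin n) ℤ) :=
  Submonoid.closure {M | ∃ i j, M = reflMat A i * reflMat A j}

/-- The group `G` acts on `L(x_{j,i})` by automorphisms which map `L` to itself and each block of
variables to a block of variables through an element of the Weyl group `W`, and the elements of
`G` which act trivially on `L` are exactly the elements of `(W^+)^ι`. -/
structure WeylAct (L : Type u) [Field L] (ι : Type v) {n : ℕ} (A : Matrix (Fin n) (Fin n) ℤ)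
    (G : Type w) [Group G] [MulSemiringAction G (RFL L ι n)] : Prop where
  coeff : ∀ (g : G) (a : L), ∃ b : L,
    g • algebraMap L (RFL L ι n) a = algebraMap L (RFL L ι n) b
  block : ∀ (g : G) (j : ι), ∃ j' : ι, ∃ M ∈ weylMat A, ∀ i,
    g • xl L j i = ∑ l, (M i l : RFL L ι n) * xl L j' l
  kernel : ∀ g : G, (∀ a : L, g • algebraMap L (RFL L ι n) a = algebraMap L (RFL L ι n) a) →
    ∀ j : ι, ∃ M ∈ rotMat A, ∀ i, g • xl L j i = ∑ l, (M i l : RFL L ι n) * xl L j l
  rot : ∀ M : ι → Matrix (Fin n) (Fin n) ℤ, (∀ j, M j ∈ rotMat A) → ∃ g : G,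
    (∀ a : L, g • algebraMap L (RFL L ι n) a = algebraMap L (RFL L ι n) a) ∧
    ∀ j i, g • xl L j i = ∑ l, (M j i l : RFL L ι n) * xl L j l

/-- the elements of `L` fixed by `G`, for an action of `G` on a field `E` containing `L` -/
def fixedCoeff (L : Type u) [Field L] (E : Type v) [Field E] [Algebra L E] (G : Type w) [Group G]
    [MulSemiringAction G E] : Subfield L where
  carrier := {a | ∀ g : G, g • algebraMap L E a = algebraMap L E a}
  mul_mem' := fun ha hb g => by rw [map_mul, smul_mul', ha g, hb g]
  add_mem' := fun ha hb g => by rw [map_add, smul_add, ha g, hb g]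
  one_mem' := fun g => by rw [map_one, smul_one]
  zero_mem' := fun g => by rw [map_zero, smul_zero]
  neg_mem' := fun ha g => by rw [map_neg, smul_neg, ha g]
  inv_mem' := fun a ha g => by rw [map_inv₀, smul_inv'', ha g]

end CM83
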