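import Pool.Agent.H.MP_83e36b_nt.cm.XDefs

/-! Module XD: semilinear actions of finite groups have bases of invariants. -/

namespace CM83

variable {L E : Type*} [Field L] [CharZero L] [Field E] [Algebra L E] {G : Type*} [Group G]
  [Finite G] [MulSemiringAction G E]

theorem speiser
    (hL : ∀ (g : G) (a : L), ∃ b : L, g • algebraMap L E a = algebraMap L E b)
    (M : Submodule L E) (hM : ∀ g : G, ∀ m ∈ M, g • m ∈ M)
    (hN : ∀ g : G, (∀ a : L, g • algebraMap L E a = algebraMap L E a) → ∀ m ∈ M, g • m = m) :
    M ≤ Submodule.span L {m : E | m ∈ M ∧ ∀ g : G, g • m = m} := by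
  classical
  have fG : Fintype G := Fintype.ofFinite G
  choose χ hχ using hL
  have hinj : Function.Injective (algebraMap L E) := (algebraMap L E).injective
  let χ' : G → (L →* L) := fun g =>
    { toFun := χ g
      map_one' := by
        apply hinj
        rw [← hχ, map_one, smul_one]
      map_mul' := by
        intro a b
        apply hinj
        rw [← hχ, map_mul, smul_mul', hχ, hχ, map_mul] }
  have hχ' : ∀ g a, χ' g a = χ g a := fun _ _ => rfl
  intro m hm
  by_contra hmU
  obtain ⟨ψ, hψ0, hψ⟩ := Submodule.exists_le_ker_of_notMem hmU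
  -- the averages are invariant
  have havg : ∀ a : L, ψ (∑ g : G, g • (algebraMap L E a * m)) = 0 := by
    intro a
    have h1 : (∑ g : G, g • (algebraMap L E a * m)) ∈
        Submodule.span L {m : E | m ∈ M ∧ ∀ g : G, g • m = m} := by
      apply Submodule.subset_span
      refine ⟨Submodule.sum_mem _ fun g _ => hM g _ ?_, fun h => ?_⟩
      · rw [← Algebra.smul_def]
        exact Submodule.smul_mem _ _ hm
      · rw [Finset.smul_sum]
        refine Fintype.sum_equiv (Equiv.mulLeft h) _ _ fun g => ?_
        rw [← mul_smul]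
        rfl
    exact hψ h1
  have hsum : ∀ a : L, ∑ g : G, ψ (g • m) * χ' g a = 0 := by
    intro a
    rw [← havg a, map_sum]
    refine Finset.sum_congr rfl fun g _ => ?_
    rw [smul_mul', hχ, ← Algebra.smul_def, ψ.map_smul, smul_eq_mul, mul_comm, hχ']
  let c : (L →* L) → L := fun θ => ∑ g ∈ Finset.univ.filter fun g => χ' g = θ, ψ (g • m)
  have hlin := linearIndependent_iff'.1 (linearIndependent_monoidHom L L)
    (Finset.univ.image χ') c (by
      funext a
      rw [Finset.sum_apply]
      show ∑ θ ∈ Finset.univ.image χ', c θ * θ a = 0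
      rw [← hsum a, ← Finset.sum_fiberwise_of_maps_to (t := Finset.univ.image χ') (g := χ')
        (fun g _ => Finset.mem_image_of_mem χ' (Finset.mem_univ g))]
      refine Finset.sum_congr rfl fun θ _ => ?_
      show (∑ g ∈ Finset.univ.filter fun g => χ' g = θ, ψ (g • m)) * θ a = _
      rw [Finset.sum_mul]
      refine Finset.sum_congr rfl fun g hg => ?_
      rw [(Finset.mem_filter.1 hg).2]) (χ' 1)
    (Finset.mem_image_of_mem χ' (Finset.mem_univ 1))
  have h1 : ∀ g ∈ Finset.univ.filter (fun g => χ' g = χ' 1), ψ (g • m) = ψ m := by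
    intro g hg
    have hg' := (Finset.mem_filter.1 hg).2
    rw [hN g ?_ m hm]
    intro a
    rw [hχ, ← hχ', hg', hχ', ← hχ, one_smul]
  have h2 : c (χ' 1) = (Finset.univ.filter (fun g => χ' g = χ' 1)).card • ψ m := by
    show ∑ g ∈ Finset.univ.filter fun g => χ' g = χ' 1, ψ (g • m) = _
    rw [Finset.sum_congr rfl h1, Finset.sum_const]
  rw [h2, nsmul_eq_mul] at hlin
  rcases mul_eq_zero.1 hlin with h3 | h3
  · rw [Nat.cast_eq_zero, Finset.card_eq_zero] at h3
    have h4 : (1 : G) ∈ Finset.univ.filter (fun g => χ' g = χ' 1) :=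
      Finset.mem_filter.2 ⟨Finset.mem_univ _, rfl⟩
    rw [h3] at h4
    exact absurd h4 (Finset.notMem_empty _)
  · exact hψ0 h3

theorem exists_fixed_basis
    (hL : ∀ (g : G) (a : L), ∃ b : L, g • algebraMap L E a = algebraMap L E b)
    {κ : Type*} [Finite κ] {S : κ → E} (hS : LinearIndependent L S)
    (hM : ∀ (g : G) (p : κ), g • S p ∈ Submodule.span L (Set.range S))
    (hN : ∀ g : G, (∀ a : L, g • algebraMap L E a = algebraMap L E a) → ∀ p, g • S p = S p) :
    ∃ u : κ → E, (∀ p (g : G), g • u p = u p) ∧
      Submodule.span L (Set.range u) = Submodule.span L (Set.range S) := by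
  classical
  have hM' : ∀ g : G, ∀ m ∈ Submodule.span L (Set.range S), g • m ∈
      Submodule.span L (Set.range S) := by
    intro g m hm
    induction hm using Submodule.span_induction with
    | mem x hx =>
      obtain ⟨p, rfl⟩ := hx
      exact hM g p
    | zero => rw [smul_zero]; exact Submodule.zero_mem _
    | add x y _ _ hx hy => rw [smul_add]; exact Submodule.add_mem _ hx hy
    | smul a x _ hx =>
      obtain ⟨b, hb⟩ := hL g a
      rw [Algebra.smul_def, smul_mul', hb, ← Algebra.smul_def]
      exact Submodule.smul_mem _ _ hx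
  have hN' : ∀ g : G, (∀ a : L, g • algebraMap L E a = algebraMap L E a) →
      ∀ m ∈ Submodule.span L (Set.range S), g • m = m := by
    intro g hg m hm
    induction hm using Submodule.span_induction with
    | mem x hx =>
      obtain ⟨p, rfl⟩ := hx
      exact hN g hg p
    | zero => rw [smul_zero]
    | add x y _ _ hx hy => rw [smul_add, hx, hy]
    | smul a x _ hx => rw [Algebra.smul_def, smul_mul', hg, hx]
  have hsp := speiser hL (Submodule.span L (Set.range S)) hM' hN'
  have hspan : Submodule.span L {m : E | m ∈ Submodule.span L (Set.range S) ∧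
      ∀ g : G, g • m = m} = Submodule.span L (Set.range S) := by
    apply le_antisymm
    · rw [Submodule.span_le]
      exact fun m hm => hm.1
    · exact hsp
  obtain ⟨b, hbV, hbspan, hbli⟩ := exists_linearIndependent L
    {m : E | m ∈ Submodule.span L (Set.range S) ∧ ∀ g : G, g • m = m}
  have hbM : Submodule.span L (Set.range ((↑) : b → E)) = Submodule.span L (Set.range S) := by
    rw [Subtype.range_coe, hbspan, hspan]
  let B1 := Module.Basis.span hS
  let B2 := (Module.Basis.span hbli).map (LinearEquiv.ofEq _ _ hbM)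
  let e := B1.indexEquiv B2
  refine ⟨fun p => (e p : E), fun p g => (hbV (e p).2).2 g, ?_⟩
  have hr : Set.range (fun p => (e p : E)) = Set.range ((↑) : b → E) := by
    ext x
    constructor
    · rintro ⟨p, rfl⟩
      exact ⟨e p, rfl⟩
    · rintro ⟨y, rfl⟩
      refine ⟨e.symm y, ?_⟩
      show ((e (e.symm y) : b) : E) = y
      rw [Equiv.apply_symm_apply]
  rw [hr, hbM]

end CM83
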