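import Pool.Agent.H.MP_83e36b_nt.cm.XDefs

/-! Module XE: invariant rational functions in invariant elements. -/

namespace CM83

section

variable {L E : Type*} [Field L] [CharZero L] [Field E] [Algebra L E] {G : Type*}
    [Group G] [Finite G] [MulSemiringAction G E]

theorem XE_smul {χ : G → L →+* L}
    (hχ : ∀ (g : G) (a : L), g • algebraMap L E a = algebraMap L E (χ g a))
    {κ : Type*} {u : κ → E} (hu : ∀ p (g : G), g • u p = u p) (g : G) (r : MvPolynomial κ L) :
    g • MvPolynomial.aeval u r = MvPolynomial.aeval u (MvPolynomial.map (χ g) r) := by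
  induction r using MvPolynomial.induction_on with
  | C a => rw [MvPolynomial.map_C, MvPolynomial.aeval_C, MvPolynomial.aeval_C, hχ]
  | add p q hp hq => rw [map_add, smul_add, hp, hq, map_add, map_add]
  | mul_X p i hp =>
    rw [map_mul, smul_mul', hp, MvPolynomial.aeval_X, hu, map_mul, map_mul, MvPolynomial.map_X,
      MvPolynomial.aeval_X]

theorem XE_poly {χ : G → L →+* L}
    (hχ : ∀ (g : G) (a : L), g • algebraMap L E a = algebraMap L E (χ g a))
    {κ : Type*} {u : κ → E} (hu : ∀ p (g : G), g • u p = u p) (r : MvPolynomial κ L)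
    (hfix : ∀ g : G, g • MvPolynomial.aeval u r = MvPolynomial.aeval u r) :
    MvPolynomial.aeval u r ∈ IntermediateField.adjoin (fixedCoeff L E G) (Set.range u) := by
  classical
  have fG : Fintype G := Fintype.ofFinite G
  have hinj : Function.Injective (algebraMap L E) := (algebraMap L E).injective
  have hN0 : (Fintype.card G : L) ≠ 0 := by
    rw [Nat.cast_ne_zero]
    exact Fintype.card_ne_zero
  -- the average of a coefficient is invariant
  have hcoef : ∀ a : L, (∑ g : G, χ g a) ∈ fixedCoeff L E G := by
    intro a h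
    rw [map_sum, Finset.smul_sum]
    refine Fintype.sum_equiv (Equiv.mulLeft h) _ _ fun g => ?_
    rw [← hχ, ← mul_smul, hχ]
    rfl
  -- the averaged polynomial
  have havg : (Fintype.card G : E) * MvPolynomial.aeval u r =
      MvPolynomial.aeval u (∑ g : G, MvPolynomial.map (χ g) r) := by
    rw [map_sum, Finset.sum_congr rfl fun g _ => (XE_smul hχ hu g r).symm,
      Finset.sum_congr rfl fun g _ => hfix g, Finset.sum_const, Finset.card_univ, nsmul_eq_mul]
  have hmem : MvPolynomial.aeval u (∑ g : G, MvPolynomial.map (χ g) r) ∈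
      IntermediateField.adjoin (fixedCoeff L E G) (Set.range u) := by
    rw [MvPolynomial.aeval_def, MvPolynomial.eval₂_eq]
    refine sum_mem fun m _ => mul_mem ?_ (prod_mem fun i _ => pow_mem ?_ _)
    · have h1 : MvPolynomial.coeff m (∑ g : G, MvPolynomial.map (χ g) r) =
          ∑ g : G, χ g (MvPolynomial.coeff m r) := by
        rw [MvPolynomial.coeff_sum]
        exact Finset.sum_congr rfl fun g _ => MvPolynomial.coeff_map _ _ _
      rw [h1]
      have h2 := hcoef (MvPolynomial.coeff m r)
      have h3 : algebraMap L E (∑ g : G, χ g (MvPolynomial.coeff m r)) =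
          algebraMap (fixedCoeff L E G) E ⟨_, h2⟩ := rfl
      rw [h3]
      exact IntermediateField.algebraMap_mem _ _
    · exact IntermediateField.subset_adjoin _ _ ⟨i, rfl⟩
  rw [← havg] at hmem
  have hNE : (Fintype.card G : E) ≠ 0 := by
    intro h
    apply hN0
    apply hinj
    rw [map_natCast, h, map_zero]
  have h4 : MvPolynomial.aeval u r = ((Fintype.card G : E) * MvPolynomial.aeval u r) /
      (Fintype.card G : E) := by
    rw [mul_div_cancel_left₀ _ hNE]
  rw [h4]
  exact div_mem hmem (natCast_mem _ _)

end

theorem descent {L E : Type*} [Field L] [CharZero L] [Field E] [Algebra L E] {G : Type*}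
    [Group G] [Finite G] [MulSemiringAction G E]
    (hL : ∀ (g : G) (a : L), ∃ b : L, g • algebraMap L E a = algebraMap L E b)
    {κ : Type*} {u : κ → E} (hu : ∀ p (g : G), g • u p = u p) (f : E)
    (hf : f ∈ IntermediateField.adjoin L (Set.range u)) (hfix : ∀ g : G, g • f = f) :
    f ∈ IntermediateField.adjoin (fixedCoeff L E G) (Set.range u) := by
  classical
  have fG : Fintype G := Fintype.ofFinite G
  choose χ₀ hχ₀ using hL
  have hinj : Function.Injective (algebraMap L E) := (algebraMap L E).injective
  let χ : G → (L →+* L) := fun g =>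
    { toFun := χ₀ g
      map_one' := by
        apply hinj
        rw [← hχ₀, map_one, smul_one]
      map_mul' := by
        intro a b
        apply hinj
        rw [← hχ₀, map_mul, smul_mul', hχ₀, hχ₀, map_mul]
      map_zero' := by
        apply hinj
        rw [← hχ₀, map_zero, smul_zero]
      map_add' := by
        intro a b
        apply hinj
        rw [← hχ₀, map_add, smul_add, hχ₀, hχ₀, map_add] }
  have hχ : ∀ (g : G) (a : L), g • algebraMap L E a = algebraMap L E (χ g a) := hχ₀
  obtain ⟨p, q, hpq⟩ := (IntermediateField.mem_adjoin_range_iff L u f).1 hf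
  by_cases hq : MvPolynomial.aeval u q = (0 : E)
  · rw [hq, div_zero] at hpq
    rw [hpq]
    exact zero_mem _
  -- the norm of the denominator
  have hn : MvPolynomial.aeval u (∏ g : G, MvPolynomial.map (χ g) q) =
      ∏ g : G, g • MvPolynomial.aeval u q := by
    rw [map_prod]
    exact Finset.prod_congr rfl fun g _ => (XE_smul hχ hu g q).symm
  have hn0 : (∏ g : G, g • MvPolynomial.aeval u q) ≠ (0 : E) := by
    rw [Finset.prod_ne_zero_iff]
    intro g _ h
    apply hq
    have h2 : g⁻¹ • g • (MvPolynomial.aeval u q : E) = g⁻¹ • (0 : E) := by rw [h]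
    rwa [inv_smul_smul, smul_zero] at h2
  have hnfix : ∀ h : G, h • (∏ g : G, g • (MvPolynomial.aeval u q : E)) =
      ∏ g : G, g • MvPolynomial.aeval u q := by
    intro h
    rw [Finset.smul_prod']
    refine Fintype.prod_equiv (Equiv.mulLeft h) _ _ fun g => ?_
    rw [← mul_smul]
    rfl
  have h1 : (∏ g : G, g • MvPolynomial.aeval u q : E) ∈
      IntermediateField.adjoin (fixedCoeff L E G) (Set.range u) := by
    rw [← hn]
    apply XE_poly hχ hu
    intro g
    rw [hn, hnfix]
  have h2 : f * (∏ g : G, g • MvPolynomial.aeval u q) = MvPolynomial.aeval u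
      (p * ∏ g ∈ Finset.univ.erase (1 : G), MvPolynomial.map (χ g) q) := by
    rw [map_mul, map_prod, Finset.prod_congr rfl fun g _ => (XE_smul hχ hu g q).symm,
      ← Finset.mul_prod_erase Finset.univ _ (Finset.mem_univ (1 : G)), one_smul, ← mul_assoc, hpq,
      div_mul_cancel₀ _ hq]
  have h3 : f * (∏ g : G, g • MvPolynomial.aeval u q) ∈
      IntermediateField.adjoin (fixedCoeff L E G) (Set.range u) := by
    rw [h2]
    apply XE_poly hχ hu
    intro g
    rw [← h2, smul_mul', hfix, hnfix]
  have h4 : f = (f * (∏ g : G, g • MvPolynomial.aeval u q)) /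
      (∏ g : G, g • MvPolynomial.aeval u q) := by
    rw [mul_div_cancel_right₀ _ hn0]
  rw [h4]
  exact div_mem h3 h1

end CM83
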