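import Pool.Agent.H.MP_83e36b_nt.cm.XC
import Pool.Agent.H.MP_83e36b_nt.cm.XD
import Pool.Agent.H.MP_83e36b_nt.cm.XE

/-! Module XF: the theorem on extensions. -/

namespace CM83

universe u v w

theorem xf_rot_le {k : Type*} [Field k] {n : ℕ} (A : Matrix (Fin n) (Fin n) ℤ) :
    rotGroup k A ≤ weylGroup k A := by
  unfold rotGroup
  rw [Subgroup.closure_le]
  rintro _ ⟨i, j, σ, σ', h1, h2, rfl⟩
  exact mul_mem (Subgroup.subset_closure ⟨i, h1⟩) (Subgroup.subset_closure ⟨j, h2⟩)

theorem xf_span_le {L E : Type*} [Field L] [Field E] [Algebra L E] (X : Set E) {f : E}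
    (hf : f ∈ Submodule.span L X) : f ∈ IntermediateField.adjoin L X := by
  have h : Submodule.span L X ≤
      Subalgebra.toSubmodule (IntermediateField.adjoin L X).toSubalgebra :=
    Submodule.span_le.2 (IntermediateField.subset_adjoin L X)
  exact h hf

theorem xf_fixed {L E : Type*} [Field L] [Field E] [Algebra L E] {G : Type*}
    [Group G] [MulSemiringAction G E] {κ : Type*} {u : κ → E} (hu : ∀ p (g : G), g • u p = u p)
    {f : E} (hf : f ∈ IntermediateField.adjoin (fixedCoeff L E G) (Set.range u)) (g : G) :
    g • f = f := by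
  induction hf using IntermediateField.adjoin_induction with
  | mem x hx => obtain ⟨p, rfl⟩ := hx; exact hu p g
  | algebraMap x => exact x.2 g
  | add x y _ _ h3 h4 => rw [smul_add, h3, h4]
  | inv x _ h3 => rw [smul_inv'', h3]
  | mul x y _ _ h3 h4 => rw [smul_mul', h3, h4]

theorem xf_transfer {L E : Type*} [Field L] [Field E] [Algebra L E] (P : Subfield L)
    (alg : Algebra P E) (h : ∀ a : P, @algebraMap P E _ _ alg a = algebraMap L E (a : L))
    (X : Set E) (f : E) :
    f ∈ @IntermediateField.adjoin P _ E _ alg X ↔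
      f ∈ @IntermediateField.adjoin P _ E _ (Algebra.ofSubsemiring P) X := by
  have h1 : alg = Algebra.ofSubsemiring P := Algebra.algebra_ext _ _ h
  subst h1
  exact Iff.rfl

set_option maxHeartbeats 400000 in
theorem ext_rational {L : Type u} [Field L] [CharZero L] {ι : Type v} [Finite ι] {n : ℕ}
    {A : Matrix (Fin n) (Fin n) ℤ} (hA : ∀ j, A j j = 2)
    {G : Type w} [Group G] [Finite G] [MulSemiringAction G (RFL L ι n)]
    (hgood : Good (fixedCoeff L (RFL L ι n) G) A) (h : WeylAct L ι A G) :
    ∃ u : ι × Fin n → RFL L ι n,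
      AlgebraicIndependent (fixedCoeff L (RFL L ι n) G) u ∧
      ∀ f : RFL L ι n,
        f ∈ IntermediateField.adjoin (fixedCoeff L (RFL L ι n) G) (Set.range u) ↔
          ∀ g : G, g • f = f := by
  classical
  obtain ⟨t, d, i0, ht, hg, hd, hd'⟩ := hgood
  choose e he using fun j : ι =>
    exists_block (P := ↥(fixedCoeff L (RFL L ι n) G)) (L := L) (n := n) j
  let S : ι × Fin n → RFL L ι n := fun p => e p.1 (Function.update t i0 d p.2)
  have hgP : ∀ (g : G) (a : ↥(fixedCoeff L (RFL L ι n) G)),
      (MulSemiringAction.toRingHom G (RFL L ι n) g)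
        (algebraMap L (RFL L ι n) (algebraMap (↥(fixedCoeff L (RFL L ι n) G)) L a)) =
      algebraMap L (RFL L ι n) (algebraMap (↥(fixedCoeff L (RFL L ι n) G)) L a) :=
    fun g a => a.2 g
  have hti : ∀ i, ∀ w ∈ weylGroup (↥(fixedCoeff L (RFL L ι n) G)) A, w (t i) = t i := by
    intro i
    have h1 : t i ∈ IntermediateField.fixedField
        (weylGroup (↥(fixedCoeff L (RFL L ι n) G)) A) := by
      rw [← hg]
      exact IntermediateField.subset_adjoin _ _ ⟨i, rfl⟩
    exact (IntermediateField.mem_fixedField_iff _ _).1 h1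
  have h1 : ∀ (g : G) (p : ι × Fin n), g • S p ∈ Submodule.span L (Set.range S) := by
    intro g p
    obtain ⟨j', M, hM, hgM⟩ := h.block g p.1
    obtain ⟨w, hw, hwM⟩ := weylMat_exists (k := ↥(fixedCoeff L (RFL L ι n) G)) hA hM
    have hact : ∀ f, g • e p.1 f = e j' (w f) := fun f =>
      block_act (he p.1) (he j') (MulSemiringAction.toRingHom G (RFL L ι n) g) (hgP g) hwM hgM f
    have hSj : ∀ i, S (j', i) ∈ Submodule.span L (Set.range S) := fun i =>
      Submodule.subset_span ⟨(j', i), rfl⟩
    show g • e p.1 (Function.update t i0 d p.2) ∈ _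
    rw [hact]
    by_cases hi : p.2 = i0
    · have h2 := hSj i0
      have h3 : S (j', i0) = e j' d := by
        show e j' (Function.update t i0 d i0) = e j' d
        rw [Function.update_self]
      rw [h3] at h2
      rw [hi, Function.update_self]
      rcases weyl_sign hd' hw with h4 | h4
      · rw [h4]
        exact h2
      · rw [h4, map_neg]
        exact Submodule.neg_mem _ h2
    · have h2 := hSj p.2
      have h3 : S (j', p.2) = e j' (t p.2) := by
        show e j' (Function.update t i0 d p.2) = e j' (t p.2)
        rw [Function.update_of_ne hi]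
      rw [h3] at h2
      rw [Function.update_of_ne hi, hti _ w hw]
      exact h2
  have h2 : ∀ g : G, (∀ a : L, g • algebraMap L (RFL L ι n) a = algebraMap L (RFL L ι n) a) →
      ∀ p, g • S p = S p := by
    intro g hga p
    obtain ⟨M, hM, hgM⟩ := h.kernel g hga p.1
    obtain ⟨w, hw, hwM⟩ := rotMat_exists (k := ↥(fixedCoeff L (RFL L ι n) G)) hA hM
    have hact : ∀ f, g • e p.1 f = e p.1 (w f) := fun f =>
      block_act (he p.1) (he p.1) (MulSemiringAction.toRingHom G (RFL L ι n) g) (hgP g) hwM hgM f
    show g • e p.1 (Function.update t i0 d p.2) = e p.1 (Function.update t i0 d p.2)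
    rw [hact]
    by_cases hi : p.2 = i0
    · rw [hi, Function.update_self, rot_sign hd' hw]
    · rw [Function.update_of_ne hi, hti _ w (xf_rot_le A hw)]
  have hs := (rot_of_good hA ht hg hd hd').1
  have hSalg : AlgebraicIndependent L S :=
    algInd_of_fin (xl_algInd (L := L) (ι := ι) (n := n)) (fun p => xc_alg he hs _)
  obtain ⟨u, hu, hspan⟩ := exists_fixed_basis h.coeff hSalg.linearIndependent h1 h2
  have hadj : IntermediateField.adjoin L (Set.range u) =
      IntermediateField.adjoin L (Set.range S) := by
    apply le_antisymm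
    · rw [IntermediateField.adjoin_le_iff]
      rintro _ ⟨p, rfl⟩
      apply xf_span_le
      rw [← hspan]
      exact Submodule.subset_span ⟨p, rfl⟩
    · rw [IntermediateField.adjoin_le_iff]
      rintro _ ⟨p, rfl⟩
      apply xf_span_le
      rw [hspan]
      exact Submodule.subset_span ⟨p, rfl⟩
  have hualg : AlgebraicIndependent L u := by
    refine algInd_of_fin (xl_algInd (L := L) (ι := ι) (n := n)) (fun p => ?_)
    rw [hadj]
    exact xc_alg he hs _
  refine ⟨u, ?_, ?_⟩
  · exact hualg.restrictScalars (algebraMap (↥(fixedCoeff L (RFL L ι n) G)) L).injective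
  · intro f
    constructor
    · intro hf g
      rw [xf_transfer (fixedCoeff L (RFL L ι n) G) inferInstance (fun a => rfl)] at hf
      exact xf_fixed hu hf g
    · intro hfix
      have hfS : f ∈ IntermediateField.adjoin L (Set.range S) := by
        apply xc_fixed hA ht hg hd hd' he f
        intro M hM φ hφL hφx
        obtain ⟨g, hg1, hg2⟩ := h.rot M hM
        have hφ : φ = MulSemiringAction.toRingHom G (RFL L ι n) g := by
          apply rfl_hom_ext
          · intro a
            rw [hφL]
            exact (hg1 a).symm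
          · intro j i
            rw [hφx]
            exact (hg2 j i).symm
        rw [hφ]
        exact hfix g
      rw [← hadj] at hfS
      rw [xf_transfer (fixedCoeff L (RFL L ι n) G) inferInstance (fun a => rfl)]
      exact descent h.coeff hu f hfS hfix

end CM83
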