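import Pool.Agent.H.MP_83e36b_nt.cm.XB

/-! Module XG: existence of the actions in the extension theorem. -/

namespace CM83

universe u v w

section

variable {L : Type u} [Field L] {ι : Type v} {n : ℕ} {G : Type w} [Group G]
  [MulSemiringAction G L] [MulAction G ι]

/-- the action on polynomials -/
noncomputable def xg_pol (M : G → ι → Matrix (Fin n) (Fin n) ℤ) (g : G) :
    MvPolynomial (ι × Fin n) L →+* MvPolynomial (ι × Fin n) L :=
  MvPolynomial.eval₂Hom (MvPolynomial.C.comp (MulSemiringAction.toRingHom G L g))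
    (fun p => ∑ l, (M g p.1 p.2 l : MvPolynomial (ι × Fin n) L) * MvPolynomial.X (g • p.1, l))

theorem xg_pol_C (M : G → ι → Matrix (Fin n) (Fin n) ℤ) (g : G) (a : L) :
    xg_pol M g (MvPolynomial.C a) = MvPolynomial.C (g • a) := by
  unfold xg_pol
  rw [MvPolynomial.coe_eval₂Hom, MvPolynomial.eval₂_C]
  rfl

theorem xg_pol_X (M : G → ι → Matrix (Fin n) (Fin n) ℤ) (g : G) (j : ι) (i : Fin n) :
    xg_pol (L := L) M g (MvPolynomial.X (j, i)) =
      ∑ l, (M g j i l : MvPolynomial (ι × Fin n) L) * MvPolynomial.X (g • j, l) := by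
  unfold xg_pol
  rw [MvPolynomial.coe_eval₂Hom, MvPolynomial.eval₂_X]

theorem xg_pol_one (M : G → ι → Matrix (Fin n) (Fin n) ℤ) (hone : ∀ j, M 1 j = 1) :
    xg_pol (L := L) M 1 = RingHom.id _ := by
  apply MvPolynomial.ringHom_ext
  · intro a
    rw [xg_pol_C, one_smul, RingHom.id_apply]
  · rintro ⟨j, i⟩
    rw [xg_pol_X, RingHom.id_apply, one_smul, hone]
    rw [Finset.sum_eq_single i]
    · rw [Matrix.one_apply_eq, Int.cast_one, one_mul]
    · intro l _ hl
      rw [Matrix.one_apply_ne (Ne.symm hl), Int.cast_zero, zero_mul]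
    · intro h
      exact absurd (Finset.mem_univ i) h

theorem xg_pol_mul (M : G → ι → Matrix (Fin n) (Fin n) ℤ)
    (hmul : ∀ g h j, M (g * h) j = M h j * M g (h • j)) (g h : G) :
    xg_pol (L := L) M (g * h) = (xg_pol M g).comp (xg_pol M h) := by
  apply MvPolynomial.ringHom_ext
  · intro a
    rw [RingHom.comp_apply, xg_pol_C, xg_pol_C, xg_pol_C, mul_smul]
  · rintro ⟨j, i⟩
    rw [RingHom.comp_apply, xg_pol_X, xg_pol_X, map_sum, hmul, mul_smul]
    have h1 : ∀ l, (xg_pol (L := L) M g) (((M h j i l : ℤ) : MvPolynomial (ι × Fin n) L) *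
        MvPolynomial.X (h • j, l)) = ∑ m, ((M h j i l * M g (h • j) l m : ℤ) :
          MvPolynomial (ι × Fin n) L) * MvPolynomial.X (g • h • j, m) := by
      intro l
      rw [map_mul, map_intCast, xg_pol_X, Finset.mul_sum]
      refine Finset.sum_congr rfl fun m _ => ?_
      rw [Int.cast_mul, mul_assoc]
    rw [Finset.sum_congr rfl fun l _ => h1 l, Finset.sum_comm]
    refine Finset.sum_congr rfl fun m _ => ?_
    rw [Matrix.mul_apply, Int.cast_sum, Finset.sum_mul]

/-- the action on polynomials as an instance -/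
@[instance_reducible]
noncomputable def xg_inst (M : G → ι → Matrix (Fin n) (Fin n) ℤ)
    (hone : ∀ j, M 1 j = 1) (hmul : ∀ g h j, M (g * h) j = M h j * M g (h • j)) :
    MulSemiringAction G (MvPolynomial (ι × Fin n) L) where
  smul g f := xg_pol M g f
  one_smul f := by
    change xg_pol M 1 f = f
    rw [xg_pol_one M hone, RingHom.id_apply]
  mul_smul g h f := by
    change xg_pol M (g * h) f = xg_pol M g (xg_pol M h f)
    rw [xg_pol_mul M hmul, RingHom.comp_apply]
  smul_zero g := map_zero (xg_pol M g)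
  smul_add g := map_add (xg_pol M g)
  smul_one g := map_one (xg_pol M g)
  smul_mul g := map_mul (xg_pol M g)

end

/-- An action of `G` on `L`, an action of `G` on `ι` and a cocycle of matrices define an action
of `G` on `L(x_{j,i})`. -/
theorem exists_action {L : Type u} [Field L] {ι : Type v} {n : ℕ} {G : Type w} [Group G]
    [MulSemiringAction G L] [MulAction G ι] (M : G → ι → Matrix (Fin n) (Fin n) ℤ)
    (hone : ∀ j, M 1 j = 1) (hmul : ∀ g h j, M (g * h) j = M h j * M g (h • j)) :
    ∃ inst : MulSemiringAction G (RFL L ι n),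
      (∀ (g : G) (a : L), inst.smul g (algebraMap L (RFL L ι n) a) =
        algebraMap L (RFL L ι n) (g • a)) ∧
      ∀ (g : G) (j : ι) (i : Fin n),
        inst.smul g (xl L j i) = ∑ l, (M g j i l : RFL L ι n) * xl L (g • j) l := by
  letI inst0 : MulSemiringAction G (MvPolynomial (ι × Fin n) L) := xg_inst M hone hmul
  refine ⟨IsFractionRing.mulSemiringAction G (MvPolynomial (ι × Fin n) L) (RFL L ι n), ?_, ?_⟩
  · intro g a
    have h1 : ∀ b : L, algebraMap L (RFL L ι n) b =
        algebraMap (MvPolynomial (ι × Fin n) L) (RFL L ι n) (MvPolynomial.C b) := fun b => by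
      rw [IsScalarTower.algebraMap_apply L (MvPolynomial (ι × Fin n) L) (RFL L ι n)]
      rfl
    change IsFractionRing.ringEquivOfRingEquiv
      (MulSemiringAction.toRingEquiv G (MvPolynomial (ι × Fin n) L) g) _ = _
    rw [h1, IsFractionRing.ringEquivOfRingEquiv_algebraMap, h1]
    congr 1
    exact xg_pol_C M g a
  · intro g j i
    change IsFractionRing.ringEquivOfRingEquiv
      (MulSemiringAction.toRingEquiv G (MvPolynomial (ι × Fin n) L) g) _ = _
    unfold xl
    rw [IsFractionRing.ringEquivOfRingEquiv_algebraMap]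
    have h1 : (MulSemiringAction.toRingEquiv G (MvPolynomial (ι × Fin n) L) g)
        (MvPolynomial.X (j, i)) = ∑ l, (M g j i l : MvPolynomial (ι × Fin n) L) *
          MvPolynomial.X (g • j, l) := xg_pol_X M g j i
    rw [h1, map_sum]
    refine Finset.sum_congr rfl fun l _ => ?_
    rw [map_mul, map_intCast]

/-- The hypotheses of the extension theorem hold for every finite group `G` with an action on `L`,
an action on `ι` and a cocycle with values in the Weyl group such that the kernel of the action on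
`L` acts trivially on `ι` and is mapped bijectively on `(W^+)^ι`. -/
theorem exists_weylAct {L : Type u} [Field L] {ι : Type v} {n : ℕ} {G : Type w} [Group G]
    [MulSemiringAction G L] [MulAction G ι] {A : Matrix (Fin n) (Fin n) ℤ}
    (M : G → ι → Matrix (Fin n) (Fin n) ℤ)
    (hone : ∀ j, M 1 j = 1) (hmul : ∀ g h j, M (g * h) j = M h j * M g (h • j))
    (hW : ∀ g j, M g j ∈ weylMat A)
    (hN : ∀ g : G, (∀ a : L, g • a = a) → ∀ j : ι, g • j = j ∧ M g j ∈ rotMat A)
    (hR : ∀ R : ι → Matrix (Fin n) (Fin n) ℤ, (∀ j, R j ∈ rotMat A) →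
      ∃ g : G, (∀ a : L, g • a = a) ∧ ∀ j, M g j = R j) :
    ∃ inst : MulSemiringAction G (RFL L ι n), WeylAct L ι A G ∧
      (∀ (g : G) (a : L), g • algebraMap L (RFL L ι n) a = algebraMap L (RFL L ι n) (g • a)) ∧
      ∀ (g : G) (j : ι) (i : Fin n),
        g • xl L j i = ∑ l, (M g j i l : RFL L ι n) * xl L (g • j) l := by
  obtain ⟨inst, h1, h2⟩ := exists_action (L := L) M hone hmul
  have h1' : ∀ (g : G) (a : L), g • algebraMap L (RFL L ι n) a =
    algebraMap L (RFL L ι n) (g • a) := h1
  have h2' : ∀ (g : G) (j : ι) (i : Fin n),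
        g • xl L j i = ∑ l, (M g j i l : RFL L ι n) * xl L (g • j) l := h2
  refine ⟨inst, ⟨?_, ?_, ?_, ?_⟩, h1', h2'⟩
  · intro g a
    exact ⟨g • a, h1' g a⟩
  · intro g j
    exact ⟨g • j, M g j, hW g j, h2' g j⟩
  · intro g hg j
    have hg' : ∀ a : L, g • a = a := by
      intro a
      have h3 := hg a
      rw [h1'] at h3
      exact (algebraMap L (RFL L ι n)).injective h3
    obtain ⟨h4, h5⟩ := hN g hg' j
    refine ⟨M g j, h5, fun i => ?_⟩
    have h6 := h2' g j i
    rwa [h4] at h6
  · intro R hRm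
    obtain ⟨g, hg, hgR⟩ := hR R hRm
    refine ⟨g, fun a => ?_, fun j i => ?_⟩
    · rw [h1', hg]
    · rw [h2', (hN g hg j).1, hgR]

end CM83
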