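import Mathlib

/-! Module ChevA: finite linear groups acting on polynomials; averaging. -/

namespace CM83

open MvPolynomial

universe u

/-- automorphisms of the polynomial ring -/
abbrev AutP (k : Type u) [Field k] (n : ℕ) := MvPolynomial (Fin n) k ≃ₐ[k] MvPolynomial (Fin n) k

variable {k : Type u} [Field k] {n : ℕ}

/-- `p` is invariant under `H` -/
def InvP (H : Subgroup (AutP k n)) (p : MvPolynomial (Fin n) k) : Prop := ∀ g ∈ H, g p = p

/-- the elements of `H` act linearly -/
def LinH (H : Subgroup (AutP k n)) : Prop := ∀ g ∈ H, ∀ i, (g (X i)).IsHomogeneous 1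

/-- the Hilbert ideal -/
noncomputable def hilb (H : Subgroup (AutP k n)) : Ideal (MvPolynomial (Fin n) k) :=
  Ideal.span {p | InvP H p ∧ ∃ d, 0 < d ∧ p.IsHomogeneous d}

theorem act_homog {H : Subgroup (AutP k n)} (hl : LinH H) {g : AutP k n} (hg : g ∈ H)
    {p : MvPolynomial (Fin n) k} {d : ℕ} (hp : p.IsHomogeneous d) : (g p).IsHomogeneous d := by
  classical
  rw [p.as_sum, map_sum]
  apply IsHomogeneous.sum
  intro s hs
  have hs' : ∑ i, s i = d := by
    have h1 := hp (mem_support_iff.1 hs)
    rw [← h1]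
    simp [Finsupp.weight_apply, Finsupp.sum_fintype]
  rw [monomial_eq, map_mul]
  have h2 : g (MvPolynomial.C (coeff s p)) = MvPolynomial.C (coeff s p) := by
    rw [← algebraMap_eq, AlgEquiv.commutes]
  have h3 : (s.prod fun i e => (X i : MvPolynomial (Fin n) k) ^ e) = ∏ i, X i ^ s i :=
    Finsupp.prod_fintype _ _ (fun i => pow_zero _)
  rw [h2, h3, map_prod, ← hs']
  have h4 : (∏ i, g (X i ^ s i)).IsHomogeneous (∑ i, s i) := by
    apply IsHomogeneous.prod
    intro i _
    rw [map_pow]
    have := (hl g hg i).pow (s i)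
    rwa [one_mul] at this
  have h5 := (isHomogeneous_C (Fin n) (coeff s p)).mul h4
  rwa [zero_add] at h5

theorem act_component {H : Subgroup (AutP k n)} (hl : LinH H) {g : AutP k n} (hg : g ∈ H)
    (p : MvPolynomial (Fin n) k) (d : ℕ) :
    homogeneousComponent d (g p) = g (homogeneousComponent d p) := by
  have h : g p = ∑ i ∈ Finset.range (p.totalDegree + 1), g (homogeneousComponent i p) := by
    conv_lhs => rw [← sum_homogeneousComponent p]
    rw [map_sum]
  rw [h, map_sum]
  have h1 : ∀ i, homogeneousComponent d (g (homogeneousComponent i p))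
      = if i = d then g (homogeneousComponent i p) else 0 := by
    intro i
    have h2 : (g (homogeneousComponent i p)).IsHomogeneous i :=
      act_homog hl hg (homogeneousComponent_isHomogeneous i p)
    rw [homogeneousComponent_of_mem h2]
    by_cases h : i = d
    · simp [h]
    · have : ¬ d = i := fun h' => h h'.symm
      simp [h, this]
  rw [Finset.sum_congr rfl (fun i _ => h1 i), Finset.sum_ite_eq' (Finset.range _) d]
  split_ifs with h3
  · rfl
  · rw [homogeneousComponent_eq_zero, map_zero]
    rw [Finset.mem_range] at h3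
    omega

theorem InvP.component {H : Subgroup (AutP k n)} (hl : LinH H) {p : MvPolynomial (Fin n) k}
    (hp : InvP H p) (d : ℕ) : InvP H (homogeneousComponent d p) := by
  intro g hg
  rw [← act_component hl hg, hp g hg]

theorem InvP.add {H : Subgroup (AutP k n)} {p q : MvPolynomial (Fin n) k} (hp : InvP H p)
    (hq : InvP H q) : InvP H (p + q) := by
  intro g hg
  rw [map_add, hp g hg, hq g hg]

theorem InvP.mul {H : Subgroup (AutP k n)} {p q : MvPolynomial (Fin n) k} (hp : InvP H p)
    (hq : InvP H q) : InvP H (p * q) := by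
  intro g hg
  rw [map_mul, hp g hg, hq g hg]

theorem InvP.C {H : Subgroup (AutP k n)} (c : k) : InvP H (C c) := by
  intro g _
  rw [← algebraMap_eq, AlgEquiv.commutes]

/-- the average -/
noncomputable def avg (H : Subgroup (AutP k n)) [Finite H] (p : MvPolynomial (Fin n) k) :
    MvPolynomial (Fin n) k :=
  letI := Fintype.ofFinite H
  MvPolynomial.C ((Fintype.card H : k)⁻¹) * ∑ g : H, (g : AutP k n) p

theorem avg_inv (H : Subgroup (AutP k n)) [Finite H] (p : MvPolynomial (Fin n) k) :
    InvP H (avg H p) := by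
  intro h hh
  let _ := Fintype.ofFinite H
  unfold avg
  rw [map_mul, InvP.C (H := H) _ h hh, map_sum]
  congr 1
  exact Equiv.sum_comp (Equiv.mulLeft (⟨h, hh⟩ : H)) (fun g : H => (g : AutP k n) p)

theorem avg_of_inv [CharZero k] {H : Subgroup (AutP k n)} [Finite H]
    {p : MvPolynomial (Fin n) k} (hp : InvP H p) : avg H p = p := by
  let _ := Fintype.ofFinite H
  unfold avg
  have h1 : ∑ g : H, (g : AutP k n) p = MvPolynomial.C (Fintype.card H : k) * p := by
    have h0 : ∀ g : H, (g : AutP k n) p = p := fun g => hp g.1 g.2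
    simp only [h0]
    rw [Finset.sum_const, Finset.card_univ, nsmul_eq_mul, map_natCast]
  have h2 : (Fintype.card H : k) ≠ 0 := Nat.cast_ne_zero.2 Fintype.card_ne_zero
  rw [h1, ← mul_assoc, ← MvPolynomial.C_mul, inv_mul_cancel₀ h2, MvPolynomial.C_1, one_mul]

theorem avg_mul {H : Subgroup (AutP k n)} [Finite H] {q : MvPolynomial (Fin n) k}
    (hq : InvP H q) (p : MvPolynomial (Fin n) k) : avg H (q * p) = q * avg H p := by
  let _ := Fintype.ofFinite H
  unfold avg
  have h1 : ∑ g : H, (g : AutP k n) (q * p) = q * ∑ g : H, (g : AutP k n) p := by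
    rw [Finset.mul_sum]
    apply Finset.sum_congr rfl
    intro g _
    rw [map_mul, hq g g.2]
  rw [h1]
  ring

theorem avg_sum {H : Subgroup (AutP k n)} [Finite H] {ι : Type*} (s : Finset ι)
    (p : ι → MvPolynomial (Fin n) k) : avg H (∑ i ∈ s, p i) = ∑ i ∈ s, avg H (p i) := by
  let _ := Fintype.ofFinite H
  unfold avg
  rw [← Finset.mul_sum, Finset.sum_comm]
  simp only [map_sum]

theorem avg_homog {H : Subgroup (AutP k n)} [Finite H] (hl : LinH H)
    {p : MvPolynomial (Fin n) k} {d : ℕ} (hp : p.IsHomogeneous d) :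
    (avg H p).IsHomogeneous d := by
  let _ := Fintype.ofFinite H
  unfold avg
  have h1 : (∑ g : H, (g : AutP k n) p).IsHomogeneous d :=
    IsHomogeneous.sum _ _ _ (fun g _ => act_homog hl g.2 hp)
  have h2 := (isHomogeneous_C (Fin n) ((Fintype.card H : k)⁻¹)).mul h1
  rwa [zero_add] at h2

/-- if `p - g p` lies in an ideal for all `g` then so does `p - avg p` -/
theorem sub_avg_mem [CharZero k] {H : Subgroup (AutP k n)} [Finite H]
    (I : Ideal (MvPolynomial (Fin n) k)) {p : MvPolynomial (Fin n) k}
    (h : ∀ g ∈ H, p - g p ∈ I) : p - avg H p ∈ I := by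
  let _ := Fintype.ofFinite H
  have h2 : (Fintype.card H : k) ≠ 0 := Nat.cast_ne_zero.2 Fintype.card_ne_zero
  have h1 : p - avg H p
      = MvPolynomial.C ((Fintype.card H : k)⁻¹) * ∑ g : H, (p - (g : AutP k n) p) := by
    unfold avg
    rw [Finset.sum_sub_distrib, mul_sub, Finset.sum_const, Finset.card_univ, nsmul_eq_mul]
    have h3 : MvPolynomial.C ((Fintype.card H : k)⁻¹)
        * ((Fintype.card H : MvPolynomial (Fin n) k) * p) = p := by
      rw [← map_natCast (MvPolynomial.C : k →+* MvPolynomial (Fin n) k), ← mul_assoc,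
        ← MvPolynomial.C_mul, inv_mul_cancel₀ h2, MvPolynomial.C_1, one_mul]
    rw [h3]
  rw [h1]
  exact I.mul_mem_left _ (I.sum_mem (fun g _ => h g g.2))

theorem hilb_stable {H : Subgroup (AutP k n)} {g : AutP k n} (hg : g ∈ H)
    {p : MvPolynomial (Fin n) k} (hp : p ∈ hilb H) : g p ∈ hilb H := by
  unfold hilb at hp ⊢
  induction hp using Submodule.span_induction with
  | mem x hx =>
    rw [hx.1 g hg]
    exact Ideal.subset_span hx
  | zero => rw [map_zero]; exact Ideal.zero_mem _
  | add x y _ _ hx hy => rw [map_add]; exact Ideal.add_mem _ hx hy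
  | smul a x _ hx => rw [smul_eq_mul, map_mul]; exact Ideal.mul_mem_left _ _ hx

end CM83
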