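import Pool.Agent.H.MP_83e36b_nt.cm.ChevA

/-! Module ChevB: minimal generators of the Hilbert ideal generate the invariants. -/

namespace CM83

open MvPolynomial

universe u

variable {k : Type u} [Field k] {n : ℕ}

/-- a minimal system of homogeneous invariant generators of the Hilbert ideal -/
structure MinGens (H : Subgroup (AutP k n)) {m : ℕ} (f : Fin m → MvPolynomial (Fin n) k)
    (d : Fin m → ℕ) : Prop where
  pos : ∀ i, 0 < d i
  hom : ∀ i, (f i).IsHomogeneous (d i)
  inv : ∀ i, InvP H (f i)
  span : Ideal.span (Set.range f) = hilb H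
  min : ∀ i, f i ∉ Ideal.span (f '' {i}ᶜ)

theorem exists_minGens (H : Subgroup (AutP k n)) :
    ∃ (m : ℕ) (f : Fin m → MvPolynomial (Fin n) k) (d : Fin m → ℕ), MinGens H f d := by
  classical
  set S : Set (MvPolynomial (Fin n) k) :=
    {p : MvPolynomial (Fin n) k | InvP H p ∧ ∃ d, 0 < d ∧ p.IsHomogeneous d} with hS
  have hfg : (hilb H).FG := IsNoetherian.noetherian _
  have hex : ∃ N : ℕ, ∃ T : Finset (MvPolynomial (Fin n) k),
      (T : Set (MvPolynomial (Fin n) k)) ⊆ S ∧ Ideal.span (T : Set (MvPolynomial (Fin n) k)) = hilb H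
        ∧ T.card = N := by
    obtain ⟨T, hT, hT2⟩ := (Submodule.fg_span_iff_fg_span_finset_subset S).1 hfg
    exact ⟨T.card, T, hT, hT2.symm, rfl⟩
  obtain ⟨T, hTS, hTH, hTc⟩ := Nat.find_spec hex
  have hmin : ∀ T' : Finset (MvPolynomial (Fin n) k), (T' : Set (MvPolynomial (Fin n) k)) ⊆ S →
      Ideal.span (T' : Set (MvPolynomial (Fin n) k)) = hilb H → T.card ≤ T'.card := by
    intro T' h1 h2
    rw [hTc]
    exact Nat.find_min' hex ⟨T', h1, h2, rfl⟩
  have hd : ∀ i : Fin T.card, ∃ d, 0 < d ∧
      ((T.equivFin.symm i : T) : MvPolynomial (Fin n) k).IsHomogeneous d := by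
    intro i
    exact (hTS (T.equivFin.symm i).2).2
  choose d hd0 hd1 using hd
  refine ⟨T.card, fun i => ((T.equivFin.symm i : T) : MvPolynomial (Fin n) k), d, hd0, hd1,
    fun i => (hTS (T.equivFin.symm i).2).1, ?_, ?_⟩
  · rw [← hTH]
    congr 1
    ext x
    constructor
    · rintro ⟨i, rfl⟩
      exact (T.equivFin.symm i).2
    · intro hx
      exact ⟨T.equivFin ⟨x, hx⟩, by simp⟩
  · intro i hi
    set y : MvPolynomial (Fin n) k := ((T.equivFin.symm i : T) : MvPolynomial (Fin n) k) with hy
    have hyT : y ∈ T := (T.equivFin.symm i).2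
    have himg : (fun i => ((T.equivFin.symm i : T) : MvPolynomial (Fin n) k)) '' {i}ᶜ
        ⊆ ((T.erase y : Finset (MvPolynomial (Fin n) k)) : Set (MvPolynomial (Fin n) k)) := by
      rintro _ ⟨j, hj, rfl⟩
      rw [Finset.mem_coe, Finset.mem_erase]
      refine ⟨?_, (T.equivFin.symm j).2⟩
      intro h
      apply hj
      rw [Set.mem_singleton_iff]
      apply T.equivFin.symm.injective
      exact Subtype.ext h
    have hi' : y ∈ Ideal.span
        ((T.erase y : Finset (MvPolynomial (Fin n) k)) : Set (MvPolynomial (Fin n) k)) :=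
      Ideal.span_mono himg hi
    have h1 : Ideal.span
        ((T.erase y : Finset (MvPolynomial (Fin n) k)) : Set (MvPolynomial (Fin n) k)) = hilb H := by
      rw [← hTH]
      apply le_antisymm
      · exact Ideal.span_mono (Finset.coe_subset.2 (Finset.erase_subset _ _))
      · rw [Ideal.span_le]
        intro x hx
        by_cases hxy : x = y
        · rw [hxy]; exact hi'
        · exact Ideal.subset_span (Finset.mem_coe.2 (Finset.mem_erase.2 ⟨hxy, hx⟩))
    have h2 := hmin (T.erase y) (fun x hx => hTS (Finset.mem_of_mem_erase hx)) h1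
    have h3 := Finset.card_erase_lt_of_mem hyT
    omega

/-- components of a product with a homogeneous factor -/
theorem chevB_comp_mul (a f : MvPolynomial (Fin n) k) {d : ℕ} (hf : f.IsHomogeneous d) (e : ℕ) :
    homogeneousComponent e (a * f)
      = (if d ≤ e then homogeneousComponent (e - d) a else 0) * f := by
  have h : a * f = ∑ i ∈ Finset.range (a.totalDegree + 1), homogeneousComponent i a * f := by
    rw [← Finset.sum_mul, sum_homogeneousComponent a]
  rw [h, map_sum]
  have h1 : ∀ i, homogeneousComponent e (homogeneousComponent i a * f)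
      = if i + d = e then homogeneousComponent i a * f else 0 := by
    intro i
    have h2 : (homogeneousComponent i a * f).IsHomogeneous (i + d) :=
      (homogeneousComponent_isHomogeneous i a).mul hf
    rw [homogeneousComponent_of_mem h2]
    by_cases h : i + d = e
    · rw [if_pos h.symm, if_pos h]
    · rw [if_neg (fun h' => h h'.symm), if_neg h]
  rw [Finset.sum_congr rfl (fun i _ => h1 i)]
  by_cases hde : d ≤ e
  · rw [if_pos hde]
    have h2 : ∀ i, (if i + d = e then homogeneousComponent i a * f else 0)
        = if i = e - d then homogeneousComponent i a * f else 0 := by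
      intro i
      by_cases h : i + d = e
      · rw [if_pos h, if_pos (by omega)]
      · rw [if_neg h, if_neg (by omega)]
    rw [Finset.sum_congr rfl (fun i _ => h2 i), Finset.sum_ite_eq' (Finset.range _) (e - d)]
    split_ifs with h3
    · rfl
    · rw [homogeneousComponent_eq_zero, zero_mul]
      rw [Finset.mem_range] at h3
      omega
  · rw [if_neg hde, zero_mul]
    apply Finset.sum_eq_zero
    intro i _
    rw [if_neg (by omega)]

theorem chevB_homog [CharZero k] {H : Subgroup (AutP k n)} [Finite H] (hl : LinH H) {m : ℕ}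
    {f : Fin m → MvPolynomial (Fin n) k} {d : Fin m → ℕ} (h : MinGens H f d) (e : ℕ) :
    ∀ p : MvPolynomial (Fin n) k, p.IsHomogeneous e → InvP H p →
      p ∈ Algebra.adjoin k (Set.range f) := by
  induction e using Nat.strong_induction_on with
  | _ e ih =>
    intro p hp hpi
    rcases Nat.eq_zero_or_pos e with he | he
    · subst he
      have h1 : p = MvPolynomial.C (coeff 0 p) := by
        rw [← homogeneousComponent_zero, homogeneousComponent_of_mem hp, if_pos rfl]
      rw [h1, ← algebraMap_eq]
      exact Subalgebra.algebraMap_mem _ _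
    · have hph : p ∈ Ideal.span (Set.range f) := by
        rw [h.span]
        exact Ideal.subset_span ⟨hpi, e, he, hp⟩
      obtain ⟨c, hc⟩ := Ideal.mem_span_range_iff_exists_fun.1 hph
      set b : Fin m → MvPolynomial (Fin n) k :=
        fun i => if d i ≤ e then homogeneousComponent (e - d i) (c i) else 0 with hb
      have h1 : p = ∑ i, b i * f i := by
        have h2 : homogeneousComponent e p = p := by
          rw [homogeneousComponent_of_mem hp, if_pos rfl]
        rw [← h2, ← hc, map_sum]
        apply Finset.sum_congr rfl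
        intro i _
        rw [chevB_comp_mul _ _ (h.hom i)]
      have h2 : p = ∑ i, f i * avg H (b i) := by
        rw [← avg_of_inv hpi, h1, avg_sum]
        apply Finset.sum_congr rfl
        intro i _
        rw [mul_comm, avg_mul (h.inv i)]
      rw [h2]
      apply Subalgebra.sum_mem
      intro i _
      apply Subalgebra.mul_mem
      · exact Algebra.subset_adjoin ⟨i, rfl⟩
      · have hbi : (b i).IsHomogeneous (e - d i) := by
          simp only [hb]
          split_ifs
          · exact homogeneousComponent_isHomogeneous _ _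
          · exact isHomogeneous_zero _ _ _
        have := h.pos i
        exact ih (e - d i) (by omega) _ (avg_homog hl hbi) (avg_inv H _)

theorem MinGens.adjoin [CharZero k] {H : Subgroup (AutP k n)} [Finite H] (hl : LinH H) {m : ℕ}
    {f : Fin m → MvPolynomial (Fin n) k} {d : Fin m → ℕ} (h : MinGens H f d)
    {p : MvPolynomial (Fin n) k} (hp : InvP H p) : p ∈ Algebra.adjoin k (Set.range f) := by
  rw [← sum_homogeneousComponent p]
  apply Subalgebra.sum_mem
  intro i _
  exact chevB_homog hl h i _ (homogeneousComponent_isHomogeneous i p) (hp.component hl i)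

end CM83
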