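import Pool.Agent.H.MP_83e36b_nt.cm.ChevA

/-! Module ChevC: the key lemma of Chevalley. -/

namespace CM83

open MvPolynomial

universe u

variable {k : Type u} [Field k] {n : ℕ}

/-- `T` consists of reflections and generates `H` -/
structure ReflGen (H : Subgroup (AutP k n)) (T : Set (AutP k n)) : Prop where
  gen : H = Subgroup.closure T
  refl : ∀ s ∈ T, ∃ l : MvPolynomial (Fin n) k, l ≠ 0 ∧ l.IsHomogeneous 1 ∧ ∀ p, l ∣ p - s p

theorem chevC_zero [CharZero k] {H : Subgroup (AutP k n)} [Finite H] {ι : Type*} [Fintype ι]
    (i0 : ι) (g p : ι → MvPolynomial (Fin n) k) (hg : ∀ i, InvP H (g i))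
    (hsum : ∑ i, g i * p i = 0)
    (hno : ¬ ∃ q : ι → MvPolynomial (Fin n) k, (∀ i, InvP H (q i)) ∧ q i0 = 0 ∧
      g i0 = ∑ i, q i * g i) (c : k) (hc : p i0 = C c) : p i0 = 0 := by
  classical
  by_contra hne
  have hc0 : c ≠ 0 := by
    rintro rfl
    exact hne (by rw [hc, map_zero])
  apply hno
  have hs : ∑ i, g i * avg H (p i) = 0 := by
    have h1 : avg H (∑ i, g i * p i) = 0 := by
      rw [hsum]
      simp [avg]
    rw [avg_sum] at h1
    rw [← h1]
    refine Finset.sum_congr rfl fun i _ => ?_
    rw [avg_mul (hg i)]
  have h0 : avg H (p i0) = C c := by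
    rw [hc]
    exact avg_of_inv (InvP.C c)
  refine ⟨fun i => if i = i0 then 0 else - C c⁻¹ * avg H (p i), fun i => ?_, by simp, ?_⟩
  · by_cases hi : i = i0
    · simp only [hi, if_true]
      intro s _
      simp
    · simp only [hi, if_false]
      refine InvP.mul ?_ (avg_inv H _)
      have := InvP.C (H := H) (-c⁻¹)
      rwa [map_neg] at this
  · have h1 : ∑ i, g i * avg H (p i) = g i0 * C c + ∑ i ∈ Finset.univ.erase i0, g i * avg H (p i) := by
      rw [← h0, Finset.add_sum_erase _ (fun i => g i * avg H (p i)) (Finset.mem_univ i0)]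
    have h2 : ∑ i, (if i = i0 then (0 : MvPolynomial (Fin n) k) else - C c⁻¹ * avg H (p i)) * g i
        = - C c⁻¹ * ∑ i ∈ Finset.univ.erase i0, g i * avg H (p i) := by
      rw [← Finset.add_sum_erase _ (fun i => (if i = i0 then (0 : MvPolynomial (Fin n) k) else
        - C c⁻¹ * avg H (p i)) * g i) (Finset.mem_univ i0)]
      rw [Finset.mul_sum]
      simp only [if_true, zero_mul, zero_add]
      refine Finset.sum_congr rfl fun i hi => ?_
      rw [if_neg (Finset.ne_of_mem_erase hi)]
      ring
    rw [h2]
    rw [hs] at h1
    have h3 : ∑ i ∈ Finset.univ.erase i0, g i * avg H (p i) = - (g i0 * C c) := by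
      linear_combination -h1
    rw [h3]
    have h4 : (C c⁻¹ : MvPolynomial (Fin n) k) * C c = 1 := by
      rw [← C_mul, inv_mul_cancel₀ hc0, C_1]
    linear_combination -(g i0) * h4

theorem chevC_quot {l q r : MvPolynomial (Fin n) k} {e : ℕ} (hl0 : l ≠ 0)
    (hl : l.IsHomogeneous 1) (hr : r.IsHomogeneous (e + 1)) (h : r = l * q) :
    q.IsHomogeneous e := by
  classical
  have hcomp : ∀ d, d ≠ e → homogeneousComponent d q = 0 := by
    intro d hd
    have h1 : homogeneousComponent (1 + d) (l * q) = l * homogeneousComponent d q := by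
      conv_lhs => rw [← MvPolynomial.sum_homogeneousComponent q, Finset.mul_sum, map_sum]
      by_cases hdm : d ∈ Finset.range (q.totalDegree + 1)
      · rw [Finset.sum_eq_single_of_mem d hdm]
        · have : (l * homogeneousComponent d q).IsHomogeneous (1 + d) :=
            hl.mul (homogeneousComponent_isHomogeneous d q)
          rw [homogeneousComponent_of_mem this, if_pos rfl]
        · intro b _ hb
          have : (l * homogeneousComponent b q).IsHomogeneous (1 + b) :=
            hl.mul (homogeneousComponent_isHomogeneous b q)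
          rw [homogeneousComponent_of_mem this, if_neg (by omega)]
      · have hz : homogeneousComponent d q = 0 := by
          apply homogeneousComponent_eq_zero
          rw [Finset.mem_range] at hdm
          omega
        rw [hz, mul_zero]
        apply Finset.sum_eq_zero
        intro b hb
        have : (l * homogeneousComponent b q).IsHomogeneous (1 + b) :=
          hl.mul (homogeneousComponent_isHomogeneous b q)
        rw [homogeneousComponent_of_mem this, if_neg]
        rintro hbe
        have : b = d := by omega
        exact hdm (this ▸ hb)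
    have h2 : homogeneousComponent (1 + d) (l * q) = 0 := by
      rw [← h, homogeneousComponent_of_mem hr, if_neg (by omega)]
    rw [h1] at h2
    rcases mul_eq_zero.mp h2 with h3 | h3
    · exact absurd h3 hl0
    · exact h3
  have hq : q = homogeneousComponent e q := by
    conv_lhs => rw [← MvPolynomial.sum_homogeneousComponent q]
    by_cases hem : e ∈ Finset.range (q.totalDegree + 1)
    · rw [Finset.sum_eq_single_of_mem e hem]
      intro b _ hb
      exact hcomp b hb
    · have hz : homogeneousComponent e q = 0 := by
        apply homogeneousComponent_eq_zero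
        rw [Finset.mem_range] at hem
        omega
      rw [hz]
      apply Finset.sum_eq_zero
      intro b hb
      apply hcomp
      rintro rfl
      exact hem hb
  rw [hq]
  exact homogeneousComponent_isHomogeneous e q

theorem chevC_step [CharZero k] {H : Subgroup (AutP k n)} [Finite H] (hl : LinH H)
    {T : Set (AutP k n)} (hT : ReflGen H T) {e : ℕ} {p : MvPolynomial (Fin n) k}
    (hp : p.IsHomogeneous (e + 1)) (h : ∀ s ∈ T, p - s p ∈ hilb H) : p ∈ hilb H := by
  have hall : ∀ s ∈ H, p - s p ∈ hilb H := by
    intro s hs
    rw [hT.gen] at hs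
    have hsub : ∀ x ∈ Subgroup.closure T, x ∈ H := fun x hx => by rw [hT.gen]; exact hx
    induction hs using Subgroup.closure_induction with
    | mem x hx => exact h x hx
    | one => simp
    | mul x y hx hy ihx ihy =>
      have h1 : p - (x * y) p = (p - x p) + x (p - y p) := by
        rw [map_sub, AlgEquiv.mul_apply]
        ring
      rw [h1]
      exact Ideal.add_mem _ ihx (hilb_stable (hsub x hx) ihy)
    | inv x hx ihx =>
      have h1 : p - x⁻¹ p = - (x⁻¹ (p - x p)) := by
        rw [map_sub]
        have : x⁻¹ (x p) = p := by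
          rw [← AlgEquiv.mul_apply, inv_mul_cancel]
          rfl
        rw [this]
        ring
      rw [h1]
      exact (hilb H).neg_mem (hilb_stable (H.inv_mem (hsub x hx)) ihx)
  have h1 := sub_avg_mem (hilb H) hall
  have h2 : avg H p ∈ hilb H := by
    apply Ideal.subset_span
    exact ⟨avg_inv H p, e + 1, Nat.succ_pos e, avg_homog hl hp⟩
  have h3 := Ideal.add_mem _ h1 h2
  rwa [sub_add_cancel] at h3

theorem chev_key [CharZero k] {H : Subgroup (AutP k n)} [Finite H] (hl : LinH H)
    {T : Set (AutP k n)} (hT : ReflGen H T) {ι : Type*} [Fintype ι] (i0 : ι)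
    (g p : ι → MvPolynomial (Fin n) k) (hg : ∀ i, InvP H (g i)) (hsum : ∑ i, g i * p i = 0)
    (hno : ¬ ∃ q : ι → MvPolynomial (Fin n) k, (∀ i, InvP H (q i)) ∧ q i0 = 0 ∧
      g i0 = ∑ i, q i * g i)
    {e : ℕ} (hp : (p i0).IsHomogeneous e) : p i0 ∈ hilb H := by
  induction e generalizing p with
  | zero =>
    have h1 : p i0 = C (coeff 0 (p i0)) := by
      have := totalDegree_eq_zero_iff_eq_C.mp (Nat.le_zero.mp hp.totalDegree_le)
      exact this
    rw [chevC_zero i0 g p hg hsum hno _ h1]
    exact Ideal.zero_mem _
  | succ e ih =>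
    apply chevC_step hl hT hp
    intro s hs
    obtain ⟨l, hl0, hl1, hdiv⟩ := hT.refl s hs
    have hsH : s ∈ H := by
      rw [hT.gen]
      exact Subgroup.subset_closure hs
    choose p' hp' using fun i => hdiv (p i)
    have hsum' : ∑ i, g i * p' i = 0 := by
      have h1 : l * ∑ i, g i * p' i = 0 := by
        rw [Finset.mul_sum]
        have h2 : ∑ i, g i * s (p i) = 0 := by
          have := congrArg s hsum
          rw [map_sum, map_zero] at this
          rw [← this]
          refine Finset.sum_congr rfl fun i _ => ?_
          rw [map_mul, hg i s hsH]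
        have h3 : ∑ i, l * (g i * p' i) = ∑ i, g i * p i - ∑ i, g i * s (p i) := by
          rw [← Finset.sum_sub_distrib]
          refine Finset.sum_congr rfl fun i _ => ?_
          linear_combination -(g i) * hp' i
        rw [h3, h2, hsum, sub_zero]
      rcases mul_eq_zero.mp h1 with h | h
      · exact absurd h hl0
      · exact h
    have hhom : (p' i0).IsHomogeneous e :=
      chevC_quot hl0 hl1 (hp.sub (act_homog hl hsH hp)) (hp' i0)
    have := ih p' hsum' hhom
    rw [hp' i0]
    exact Ideal.mul_mem_left _ _ this

end CM83
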