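import Pool.Agent.H.MP_83e36b_nt.cm.ChevB
import Pool.Agent.H.MP_83e36b_nt.cm.ChevC

/-! Module ChevD2: minimal subfamilies of invariants. -/

namespace CM83

open MvPolynomial

universe u

variable {k : Type u} [Field k] {n : ℕ}

theorem chevD2_component_mul {p q : MvPolynomial (Fin n) k} {e : ℕ} (hp : p.IsHomogeneous e)
    (N : ℕ) : homogeneousComponent N (q * p) =
      if e ≤ N then homogeneousComponent (N - e) q * p else 0 := by
  let _ := MvPolynomial.gradedAlgebra (σ := Fin n) (R := k)
  have key : ∀ (r : MvPolynomial (Fin n) k) (i : ℕ),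
      (DirectSum.decompose (homogeneousSubmodule (Fin n) k) r i : MvPolynomial (Fin n) k) =
        homogeneousComponent i r := fun r i => decomposition.decompose'_apply r i
  have h := DirectSum.coe_decompose_mul_of_right_mem (𝒜 := homogeneousSubmodule (Fin n) k)
    (a := q) (b := p) N ((mem_homogeneousSubmodule e p).2 hp)
  rw [key, key] at h
  exact h

/-- linear algebra over the invariants: a subfamily of homogeneous invariants which generates
the same ideal of invariants, minimally -/
theorem exists_min_subfamily [CharZero k] {H : Subgroup (AutP k n)} [Finite H] (hl : LinH H)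
    {m : ℕ} (g : Fin m → MvPolynomial (Fin n) k) (hg : ∀ i, InvP H (g i)) (w : ℕ) (d : Fin m → ℕ)
    (hgd : ∀ i, g i ≠ 0 → d i ≤ w ∧ (g i).IsHomogeneous (w - d i)) (hne : ∃ i, g i ≠ 0) :
    ∃ (L : Finset (Fin m)) (a : Fin m → Fin m → MvPolynomial (Fin n) k), L.Nonempty ∧
      (∀ i l, InvP H (a i l)) ∧ (∀ i l, a i l ≠ 0 → d i ≤ d l ∧ (a i l).IsHomogeneous (d l - d i)) ∧
      (∀ i, i ∉ L → g i = ∑ l ∈ L, a i l * g l) ∧
      ∀ l ∈ L, ¬ ∃ q : Fin m → MvPolynomial (Fin n) k, (∀ i, InvP H (q i)) ∧ q l = 0 ∧
        g l = ∑ i ∈ L, q i * g i := by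
  classical
  have hzero : InvP H (0 : MvPolynomial (Fin n) k) := by
    have h := InvP.C (H := H) (0 : k)
    rwa [C_0] at h
  have hone : InvP H (1 : MvPolynomial (Fin n) k) := by
    have h := InvP.C (H := H) (1 : k)
    rwa [C_1] at h
  let good : Finset (Fin m) → Prop := fun L => ∀ i, ∃ q : Fin m → MvPolynomial (Fin n) k,
    (∀ l, InvP H (q l)) ∧ g i = ∑ l ∈ L, q l * g l
  have huniv : good Finset.univ := by
    intro i
    refine ⟨Pi.single i 1, fun l => ?_, ?_⟩
    · by_cases h : l = i
      · subst h
        rw [Pi.single_eq_same]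
        exact hone
      · rw [Pi.single_eq_of_ne h]
        exact hzero
    · rw [Finset.sum_eq_single i]
      · rw [Pi.single_eq_same, one_mul]
      · intro l _ h
        rw [Pi.single_eq_of_ne h, zero_mul]
      · intro h
        exact absurd (Finset.mem_univ i) h
  obtain ⟨L, hL, hmin⟩ := Finset.exists_min_image
    ((Finset.univ : Finset (Finset (Fin m))).filter good) Finset.card
    ⟨Finset.univ, Finset.mem_filter.2 ⟨Finset.mem_univ _, huniv⟩⟩
  have hgood : good L := (Finset.mem_filter.1 hL).2
  choose q hq hgq using hgood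
  refine ⟨L, fun i l => if i ∈ L then 0 else if g i ≠ 0 ∧ g l ≠ 0 ∧ d i ≤ d l then
    homogeneousComponent (d l - d i) (q i l) else 0, ?_, ?_, ?_, ?_, ?_⟩
  · obtain ⟨i, hi⟩ := hne
    rw [Finset.nonempty_iff_ne_empty]
    intro h0
    apply hi
    rw [hgq i, h0, Finset.sum_empty]
  · intro i l
    dsimp only
    split_ifs
    · exact hzero
    · exact InvP.component hl (hq i l) _
    · exact hzero
  · intro i l h
    dsimp only at h ⊢
    split_ifs at h ⊢ with h1 h2
    · exact absurd rfl h
    · exact ⟨h2.2.2, homogeneousComponent_isHomogeneous _ _⟩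
    · exact absurd rfl h
  · intro i hi
    simp only [if_neg hi]
    by_cases hgi : g i = 0
    · rw [hgi]
      symm
      refine Finset.sum_eq_zero fun l _ => ?_
      rw [if_neg (fun h => h.1 rfl), zero_mul]
    · obtain ⟨hdi, hhom⟩ := hgd i hgi
      have h1 : homogeneousComponent (w - d i) (g i) = g i := by
        rw [homogeneousComponent_of_mem hhom, if_pos rfl]
      rw [← h1]
      conv_lhs => rw [hgq i, map_sum]
      refine Finset.sum_congr rfl fun l _ => ?_
      by_cases hgl : g l = 0
      · rw [hgl, mul_zero, mul_zero, map_zero]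
      · obtain ⟨hdl, hhoml⟩ := hgd l hgl
        rw [chevD2_component_mul hhoml]
        by_cases hle : d i ≤ d l
        · rw [if_pos (by omega), if_pos ⟨by rw [h1]; exact hgi, hgl, hle⟩]
          congr 3
          omega
        · rw [if_neg (by omega), if_neg (fun h => hle h.2.2), zero_mul]
  · rintro l hl' ⟨r, hr, hrl, hgl⟩
    have hbad : good (L.erase l) := by
      intro i
      refine ⟨fun j => q i l * r j + q i j, fun j => ((hq i l).mul (hr j)).add (hq i j), ?_⟩
      have h2 : g l = ∑ j ∈ L.erase l, r j * g j := by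
        conv_lhs => rw [hgl, ← Finset.add_sum_erase L _ hl', hrl, zero_mul, zero_add]
      conv_lhs => rw [hgq i, ← Finset.add_sum_erase L _ hl', h2]
      rw [Finset.mul_sum, ← Finset.sum_add_distrib]
      refine Finset.sum_congr rfl fun j _ => ?_
      ring
    have h3 := hmin _ (Finset.mem_filter.2 ⟨Finset.mem_univ _, hbad⟩)
    have h4 := Finset.card_erase_lt_of_mem hl'
    omega

end CM83
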