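import Pool.Agent.H.MP_83e36b_nt.cm.ChevD1
import Pool.Agent.H.MP_83e36b_nt.cm.ChevD2

/-! Module ChevD: the minimal generators are algebraically independent. -/

namespace CM83

open MvPolynomial

universe u

variable {k : Type u} [Field k] {n : ℕ}

theorem chevD_inv {H : Subgroup (AutP k n)} {m : ℕ} {f : Fin m → MvPolynomial (Fin n) k}
    (hf : ∀ i, InvP H (f i)) (Q : MvPolynomial (Fin m) k) : InvP H (aeval f Q) := by
  intro g hg
  have h1 : (g : MvPolynomial (Fin n) k →ₐ[k] MvPolynomial (Fin n) k).comp (aeval f) =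
      aeval f := by
    refine MvPolynomial.algHom_ext fun i => ?_
    simp only [AlgHom.comp_apply, aeval_X]
    exact hf i g hg
  exact DFunLike.congr_fun h1 Q

theorem chevD_low {b f : MvPolynomial (Fin n) k} {D : ℕ} (hf : f.IsHomogeneous D)
    (hb : coeff 0 b = 0) : homogeneousComponent D (b * f) = 0 := by
  classical
  have h1 : b * f = ∑ i ∈ Finset.range (b.totalDegree + 1), homogeneousComponent i b * f := by
    rw [← Finset.sum_mul, sum_homogeneousComponent]
  rw [h1, map_sum]
  refine Finset.sum_eq_zero fun i _ => ?_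
  have h2 : homogeneousComponent i b * f ∈ homogeneousSubmodule (Fin n) k (i + D) :=
    (homogeneousComponent_isHomogeneous i b).mul hf
  rw [homogeneousComponent_of_mem h2]
  split_ifs with h
  · have hi : i = 0 := by omega
    rw [hi, homogeneousComponent_zero, hb, C_0, zero_mul]
  · rfl

attribute [local instance] MvPolynomial.gradedAlgebra in
theorem MinGens.algInd [CharZero k] {H : Subgroup (AutP k n)} [Finite H] (hl : LinH H)
    {T : Set (AutP k n)} (hT : ReflGen H T) {m : ℕ} {f : Fin m → MvPolynomial (Fin n) k}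
    {d : Fin m → ℕ} (h : MinGens H f d) : AlgebraicIndependent k f := by
  classical
  by_contra hnot
  obtain ⟨P, w, hPw, hP0, i0, hi0⟩ := exists_min_relation h.pos h.hom hnot
  set g : Fin m → MvPolynomial (Fin n) k := fun i => aeval f (pderiv i P) with hg
  have hginv : ∀ i, InvP H (g i) := fun i => chevD_inv h.inv _
  have hgd : ∀ i, g i ≠ 0 → d i ≤ w ∧ (g i).IsHomogeneous (w - d i) := by
    intro i hi
    have hne : pderiv i P ≠ 0 := by
      intro h0
      apply hi
      rw [hg]
      simp only
      rw [h0, map_zero]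
    obtain ⟨s, hs⟩ := MvPolynomial.exists_coeff_ne_zero hne
    rw [coeff_pderiv] at hs
    have h1 : coeff (s + Finsupp.single i 1) P ≠ 0 := left_ne_zero_of_mul hs
    have h2 := hPw h1
    have h3 : Finsupp.weight d (s + Finsupp.single i 1) = Finsupp.weight d s + d i := by
      rw [map_add]
      congr 1
      rw [Finsupp.weight_single]
      simp
    rw [h3] at h2
    have h4 : d i ≤ w := by omega
    refine ⟨h4, ?_⟩
    have h5 : (pderiv i P).IsWeightedHomogeneous d (w - d i) := hPw.pderiv (by omega)
    have h6 := chevD1_component h.hom (pderiv i P) (w - d i)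
    rw [weightedHomogeneousComponent_eq_self h5] at h6
    have h7 : g i = homogeneousComponent (w - d i) (aeval f (pderiv i P)) := h6
    rw [h7]
    exact homogeneousComponent_isHomogeneous _ _
  have hchain : ∀ j, ∑ i, g i * pderiv j (f i) = 0 := by
    intro j
    have := pderiv_aeval f P j
    rw [hP0, map_zero] at this
    exact this.symm
  obtain ⟨L, a, hLne, hainv, hadeg, hgL, hLmin⟩ :=
    exists_min_subfamily hl g hginv w d hgd ⟨i0, hi0⟩
  obtain ⟨l0, hl0⟩ := hLne
  set p : Fin n → Fin m → MvPolynomial (Fin n) k := fun j l =>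
    pderiv j (f l) + ∑ i ∈ Lᶜ, a i l * pderiv j (f i) with hp
  have hpsum : ∀ j, ∑ l : L, g l * p j l = 0 := by
    intro j
    rw [Finset.sum_coe_sort L (fun l => g l * p j l)]
    have h1 : ∑ l ∈ L, g l * p j l = ∑ l ∈ L, g l * pderiv j (f l) +
        ∑ i ∈ Lᶜ, g i * pderiv j (f i) := by
      rw [hp]
      simp only [mul_add, Finset.sum_add_distrib, Finset.mul_sum]
      congr 1
      rw [Finset.sum_comm]
      refine Finset.sum_congr rfl fun i hi => ?_
      rw [hgL i (by simpa using hi), Finset.sum_mul]
      exact Finset.sum_congr rfl fun l _ => by ring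
    rw [h1, Finset.sum_add_sum_compl]
    exact hchain j
  have hhom : ∀ j, (p j l0).IsHomogeneous (d l0 - 1) := by
    intro j
    rw [hp]
    simp only
    refine ((h.hom l0).pderiv).add (IsHomogeneous.sum _ _ _ fun i _ => ?_)
    by_cases ha : a i l0 = 0
    · rw [ha, zero_mul]
      exact isHomogeneous_zero _ _ _
    · obtain ⟨h1, h2⟩ := hadeg i l0 ha
      have h3 := h2.mul ((h.hom i).pderiv (i := j))
      have h4 := h.pos i
      have h5 : d l0 - d i + (d i - 1) = d l0 - 1 := by omega
      rwa [h5] at h3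
  have hmem : ∀ j, p j l0 ∈ hilb H := by
    intro j
    refine chev_key hl hT (ι := L) ⟨l0, hl0⟩ (fun l => g l) (fun l => p j l)
      (fun l => hginv l) (hpsum j) ?_ (hhom j)
    rintro ⟨q, hq, hq0, hqs⟩
    apply hLmin l0 hl0
    refine ⟨fun i => if hi : i ∈ L then q ⟨i, hi⟩ else 0, ?_, ?_, ?_⟩
    · intro i
      by_cases hi : i ∈ L
      · simp only [dif_pos hi]
        exact hq _
      · simp only [dif_neg hi]
        intro γ _
        exact map_zero γ
    · simp only [dif_pos hl0]
      exact hq0
    · rw [← Finset.sum_coe_sort L]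
      refine hqs.trans (Finset.sum_congr rfl fun l _ => ?_)
      simp only [dif_pos l.2]
  have hc : ∀ j, ∃ c : Fin m → MvPolynomial (Fin n) k, ∑ t, c t * f t = p j l0 := by
    intro j
    have := hmem j
    rw [← h.span] at this
    exact Ideal.mem_span_range_iff_exists_fun.1 this
  choose c hc using hc
  set b : Fin m → MvPolynomial (Fin n) k := fun t => ∑ j, X j * c j t with hb
  have hkey : (d l0 : MvPolynomial (Fin n) k) * f l0 +
      ∑ i ∈ Lᶜ, a i l0 * ((d i : MvPolynomial (Fin n) k) * f i) = ∑ t, b t * f t := by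
    have h1 : ∑ j, X j * p j l0 = ∑ t, b t * f t := by
      rw [hb]
      simp only [Finset.sum_mul]
      rw [Finset.sum_comm]
      refine Finset.sum_congr rfl fun j _ => ?_
      rw [← hc j, Finset.mul_sum]
      exact Finset.sum_congr rfl fun t _ => by ring
    rw [← h1, hp]
    simp only [mul_add, Finset.sum_add_distrib, Finset.mul_sum]
    rw [euler_rel (h.hom l0)]
    congr 1
    rw [Finset.sum_comm]
    refine Finset.sum_congr rfl fun i _ => ?_
    rw [← euler_rel (h.hom i), Finset.mul_sum]
    exact Finset.sum_congr rfl fun j _ => by ring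
  -- the homogeneous component of degree `d l0`
  set I : Ideal (MvPolynomial (Fin n) k) := Ideal.span (f '' {l0}ᶜ) with hI
  have hIhom : I.IsHomogeneous (homogeneousSubmodule (Fin n) k) := by
    refine Ideal.homogeneous_span _ _ ?_
    rintro _ ⟨t, -, rfl⟩
    exact ⟨d t, h.hom t⟩
  have hfI : ∀ t, t ≠ l0 → f t ∈ I := fun t ht => Ideal.subset_span ⟨t, ht, rfl⟩
  have hR : homogeneousComponent (d l0) (∑ t, b t * f t) ∈ I := by
    rw [map_sum]
    refine Ideal.sum_mem _ fun t _ => ?_
    by_cases ht : t = l0
    · subst ht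
      rw [chevD_low (h.hom t) ?_]
      · exact Ideal.zero_mem _
      · rw [hb]
        simp only
        rw [coeff_sum]
        refine Finset.sum_eq_zero fun j _ => ?_
        have h1 : constantCoeff (X j * c j t) = 0 := by
          rw [map_mul, constantCoeff_X, zero_mul]
        exact h1
    · exact homogeneousComponent_mem_of_mem hIhom (I.mul_mem_left _ (hfI t ht)) _
  have hcast : ∀ (N : ℕ) {q : MvPolynomial (Fin n) k} {e : ℕ}, q.IsHomogeneous e →
      ((N : MvPolynomial (Fin n) k) * q).IsHomogeneous e := by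
    intro N q e hq
    have h1 : (N : MvPolynomial (Fin n) k) = C (N : k) := by rw [map_natCast]
    rw [h1]
    exact hq.C_mul _
  have hLhom : ((d l0 : MvPolynomial (Fin n) k) * f l0 +
      ∑ i ∈ Lᶜ, a i l0 * ((d i : MvPolynomial (Fin n) k) * f i)).IsHomogeneous (d l0) := by
    refine (hcast _ (h.hom l0)).add (IsHomogeneous.sum _ _ _ fun i _ => ?_)
    by_cases ha : a i l0 = 0
    · rw [ha, zero_mul]
      exact isHomogeneous_zero _ _ _
    · obtain ⟨h1, h2⟩ := hadeg i l0 ha
      have h3 := h2.mul (hcast (d i) (h.hom i))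
      have h5 : d l0 - d i + d i = d l0 := by omega
      rwa [h5] at h3
  rw [← hkey, homogeneousComponent_eq_self hLhom] at hR
  have hS : ∑ i ∈ Lᶜ, a i l0 * ((d i : MvPolynomial (Fin n) k) * f i) ∈ I := by
    refine Ideal.sum_mem _ fun i hi => ?_
    refine I.mul_mem_left _ (I.mul_mem_left _ (hfI i ?_))
    rintro rfl
    simp at hi
    exact hi hl0
  have hD : (d l0 : MvPolynomial (Fin n) k) * f l0 ∈ I := by
    have := I.sub_mem hR hS
    simpa using this
  have hd0 : (d l0 : k) ≠ 0 := by
    have := h.pos l0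
    exact_mod_cast this.ne'
  have hfin : f l0 ∈ I := by
    have h1 : C ((d l0 : k)⁻¹) * ((d l0 : MvPolynomial (Fin n) k) * f l0) = f l0 := by
      have h2 : (d l0 : MvPolynomial (Fin n) k) = C (d l0 : k) := by rw [map_natCast]
      rw [h2, ← mul_assoc, ← C_mul, inv_mul_cancel₀ hd0, C_1, one_mul]
    rw [← h1]
    exact I.mul_mem_left _ hD
  exact h.min l0 hfin

end CM83
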