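import Pool.Agent.H.MP_83e36b_nt.cm.ChevB
import Pool.Agent.H.MP_83e36b_nt.cm.ChevC

/-! Module ChevD1: relations of minimal degree. -/

namespace CM83

open MvPolynomial

universe u

variable {k : Type u} [Field k] {n : ℕ}

/-- the chain rule -/
theorem pderiv_aeval {m : ℕ} (f : Fin m → MvPolynomial (Fin n) k) (P : MvPolynomial (Fin m) k)
    (j : Fin n) : pderiv j (aeval f P) = ∑ i, aeval f (pderiv i P) * pderiv j (f i) := by
  induction P using MvPolynomial.induction_on with
  | C a =>
    have h1 : aeval f (C a : MvPolynomial (Fin m) k) = C a := by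
      rw [aeval_C]; rfl
    rw [h1, pderiv_C]
    simp
  | add p q hp hq =>
    rw [map_add, map_add, hp, hq, ← Finset.sum_add_distrib]
    exact Finset.sum_congr rfl fun i _ => by rw [map_add, map_add, add_mul]
  | mul_X p i0 hp =>
    rw [map_mul, aeval_X, pderiv_mul, hp]
    have h1 : ∀ i, aeval f (pderiv i (p * X i0)) * pderiv j (f i) =
        (aeval f (pderiv i p) * pderiv j (f i)) * f i0 +
          (if i0 = i then aeval f p * pderiv j (f i0) else 0) := by
      intro i
      rw [pderiv_mul, map_add, map_mul, map_mul, aeval_X, pderiv_X]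
      by_cases h : i0 = i
      · subst h
        simp
        ring
      · rw [Pi.single_eq_of_ne h, if_neg h]
        simp
        ring
    rw [Finset.sum_congr rfl fun i _ => h1 i, Finset.sum_add_distrib, ← Finset.sum_mul]
    simp

/-- Euler's relation -/
theorem euler_rel {p : MvPolynomial (Fin n) k} {d : ℕ} (hp : p.IsHomogeneous d) :
    ∑ j, X j * pderiv j p = (d : MvPolynomial (Fin n) k) * p := by
  rw [hp.sum_X_mul_pderiv, nsmul_eq_mul]

theorem chevD1_aeval_monomial {m : ℕ} {f : Fin m → MvPolynomial (Fin n) k}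
    {d : Fin m → ℕ} (hf : ∀ i, (f i).IsHomogeneous (d i)) (s : Fin m →₀ ℕ) (a : k) :
    (aeval f (monomial s a)).IsHomogeneous (Finsupp.weight d s) := by
  rw [aeval_monomial, Finsupp.weight_apply, Finsupp.prod_fintype _ _ (by simp),
    Finsupp.sum_fintype _ _ (by simp)]
  have h1 : (algebraMap k (MvPolynomial (Fin n) k) a).IsHomogeneous 0 := isHomogeneous_C _ _
  have h2 : (∏ i, f i ^ s i).IsHomogeneous (∑ i, s i • d i) := by
    refine IsHomogeneous.prod _ _ _ fun i _ => ?_
    have := (hf i).pow (s i)
    rwa [mul_comm, ← smul_eq_mul] at this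
  simpa using h1.mul h2

theorem chevD1_component {m : ℕ} {f : Fin m → MvPolynomial (Fin n) k}
    {d : Fin m → ℕ} (hf : ∀ i, (f i).IsHomogeneous (d i)) (P : MvPolynomial (Fin m) k) (w : ℕ) :
    aeval f (weightedHomogeneousComponent d w P) = homogeneousComponent w (aeval f P) := by
  classical
  induction P using MvPolynomial.induction_on' with
  | monomial s a =>
    have h1 : (monomial s a : MvPolynomial (Fin m) k) ∈
        weightedHomogeneousSubmodule k d (Finsupp.weight d s) :=
      isWeightedHomogeneous_monomial d s a rfl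
    have h2 : aeval f (monomial s a) ∈ homogeneousSubmodule (Fin n) k (Finsupp.weight d s) :=
      chevD1_aeval_monomial hf s a
    rw [weightedHomogeneousComponent_of_mem h1, homogeneousComponent_of_mem h2]
    split_ifs <;> simp
  | add p q hp hq =>
    rw [map_add, map_add, map_add, map_add, hp, hq]

/-- a relation of minimal weighted degree: its derivatives give no relations unless they are
zero -/
theorem exists_min_relation [CharZero k] {m : ℕ} {f : Fin m → MvPolynomial (Fin n) k}
    {d : Fin m → ℕ} (hd : ∀ i, 0 < d i) (hf : ∀ i, (f i).IsHomogeneous (d i))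
    (hnot : ¬ AlgebraicIndependent k f) :
    ∃ (P : MvPolynomial (Fin m) k) (w : ℕ), P.IsWeightedHomogeneous d w ∧ aeval f P = 0 ∧
      ∃ i, aeval f (pderiv i P) ≠ 0 := by
  classical
  rw [algebraicIndependent_iff] at hnot
  push Not at hnot
  obtain ⟨P0, hP0, hP0ne⟩ := hnot
  have hex : ∃ w, ∃ P : MvPolynomial (Fin m) k, P ≠ 0 ∧ P.IsWeightedHomogeneous d w ∧
      aeval f P = 0 := by
    obtain ⟨s, hs⟩ := MvPolynomial.exists_coeff_ne_zero hP0ne
    refine ⟨Finsupp.weight d s, weightedHomogeneousComponent d (Finsupp.weight d s) P0, ?_,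
      weightedHomogeneousComponent_isWeightedHomogeneous _ _, ?_⟩
    · intro h0
      apply hs
      have h1 := coeff_weightedHomogeneousComponent (w := d) (Finsupp.weight d s) P0 s
      rw [h0, if_pos rfl, coeff_zero] at h1
      exact h1.symm
    · rw [chevD1_component hf, hP0, map_zero]
  obtain ⟨P, hP0, hPw, hPf⟩ := Nat.find_spec hex
  set w := Nat.find hex with hw
  have hmin : ∀ v, v < w → ∀ Q : MvPolynomial (Fin m) k, Q ≠ 0 → Q.IsWeightedHomogeneous d v →
      aeval f Q ≠ 0 := by
    intro v hv Q hQ hQv hQf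
    exact Nat.find_min hex hv ⟨Q, hQ, hQv, hQf⟩
  have hi : ∃ i, pderiv i P ≠ 0 := by
    by_contra hcon
    push Not at hcon
    have h1 := hPw.sum_weight_X_mul_pderiv
    simp only [hcon, mul_zero, smul_zero, Finset.sum_const_zero] at h1
    have hw0 : w = 0 := by
      by_contra hw0
      have h2 : (w : MvPolynomial (Fin m) k) * P = 0 := by rw [← nsmul_eq_mul]; exact h1.symm
      rcases mul_eq_zero.1 h2 with h3 | h3
      · exact hw0 (by exact_mod_cast h3)
      · exact hP0 h3
    have hPC : P = C (coeff 0 P) := by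
      ext s
      rw [coeff_C]
      by_cases hs : (0 : Fin m →₀ ℕ) = s
      · rw [if_pos hs, hs]
      · rw [if_neg hs]
        by_contra hne
        have h2 := hPw hne
        rw [hw0, Finsupp.weight_apply, Finsupp.sum_fintype _ _ (by simp)] at h2
        apply hs
        ext i
        have h3 := (Finset.sum_eq_zero_iff.1 h2) i (Finset.mem_univ i)
        have h4 := hd i
        rw [smul_eq_mul, mul_eq_zero] at h3
        rcases h3 with h3 | h3
        · simpa using h3.symm
        · omega
    have h2 : aeval f P = C (coeff 0 P) := by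
      conv_lhs => rw [hPC]
      rw [aeval_C]; rfl
    rw [hPf] at h2
    have h3 : coeff 0 P = 0 := by
      have := h2.symm
      rwa [C_eq_zero] at this
    rw [h3, C_0] at hPC
    exact hP0 hPC
  obtain ⟨i, hi⟩ := hi
  refine ⟨P, w, hPw, hPf, i, ?_⟩
  obtain ⟨s, hs⟩ := MvPolynomial.exists_coeff_ne_zero hi
  rw [coeff_pderiv] at hs
  have h1 : coeff (s + Finsupp.single i 1) P ≠ 0 := left_ne_zero_of_mul hs
  have h2 := hPw h1
  have h3 : Finsupp.weight d (s + Finsupp.single i 1) = Finsupp.weight d s + d i := by
    rw [map_add]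
    congr 1
    rw [Finsupp.weight_single]
    simp
  rw [h3] at h2
  have h4 : d i ≤ w := by omega
  have h5 := hd i
  exact hmin (w - d i) (by omega) _ hi (hPw.pderiv (by omega))

end CM83
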