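import Pool.Agent.H.MP_83e36b_nt.cm.ChevD

/-! Module ChevE: Chevalley's theorem. -/

namespace CM83

open MvPolynomial

universe u

variable {k : Type u} [Field k] {n : ℕ}

/-- if the invariants are generated by algebraically independent elements then their number
is `n` -/
theorem chev_count {H : Subgroup (AutP k n)} [Finite H] {m : ℕ}
    {f : Fin m → MvPolynomial (Fin n) k} (hf : AlgebraicIndependent k f)
    (h : ∀ p, InvP H p → p ∈ Algebra.adjoin k (Set.range f)) : m = n := by
  have hinv : Algebra.IsInvariant (Algebra.adjoin k (Set.range f)) (MvPolynomial (Fin n) k) H := by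
    constructor
    intro b hb
    have hb' : InvP H b := fun g hg => hb ⟨g, hg⟩
    exact ⟨⟨b, h b hb'⟩, rfl⟩
  have hint : Algebra.IsIntegral (Algebra.adjoin k (Set.range f)) (MvPolynomial (Fin n) k) :=
    Algebra.IsInvariant.isIntegral (Algebra.adjoin k (Set.range f)) (MvPolynomial (Fin n) k) H
  have halg : Algebra.IsAlgebraic (Algebra.adjoin k (Set.range f)) (MvPolynomial (Fin n) k) :=
    inferInstance
  have hB : IsTranscendenceBasis k f := (hf.isTranscendenceBasis_iff_isAlgebraic).2 halg
  have hX : IsTranscendenceBasis k (X : Fin n → MvPolynomial (Fin n) k) :=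
    IsTranscendenceBasis.mvPolynomial (Fin n) k
  have hc := hB.cardinalMk_eq hX
  simpa using hc

theorem chevalley [CharZero k] (H : Subgroup (AutP k n)) [Finite H] (hl : LinH H)
    {T : Set (AutP k n)} (hT : ReflGen H T) :
    ∃ (f : Fin n → MvPolynomial (Fin n) k) (d : Fin n → ℕ), (∀ i, 0 < d i) ∧
      (∀ i, (f i).IsHomogeneous (d i)) ∧ (∀ i, InvP H (f i)) ∧ AlgebraicIndependent k f ∧
      ∀ p, InvP H p → p ∈ Algebra.adjoin k (Set.range f) := by
  obtain ⟨m, f, d, hM⟩ := exists_minGens H
  have hA := hM.algInd hl hT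
  have hadj : ∀ p, InvP H p → p ∈ Algebra.adjoin k (Set.range f) := fun p hp => hM.adjoin hl hp
  have hmn := chev_count hA hadj
  subst hmn
  exact ⟨f, d, hM.pos, hM.hom, hM.inv, hA, hadj⟩

end CM83
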