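import Pool.Agent.H.MP_83e36b_nt.cm.ClsGrp
import Pool.Agent.H.WeylRot.RB

/-! Module ClsAlg: the field generators for the classical types. -/

open Polynomial

namespace CM83

open WeylRot DiscRat

universe u

section General

variable {L L' : Type*} [Field L] [Field L'] {n : ℕ}

/-- the squares -/
def csq (z : Fin n → L) : Fin n → L := fun i => z i ^ 2

/-- the anti-invariant of type `B` -/
def dB (z : Fin n → L) : L := (∏ i, z i) * (krb (csq z)).det / hkb (csq z)

/-- the anti-invariant of type `A` in the squares -/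
def dA (z : Fin n → L) : L := (krs (csq z)).det / hks (csq z)

theorem cls_dl_map (φ : L →+* L') (x : Fin n → L) : dl (φ ∘ x) = φ (dl x) := by
  unfold dl
  split_ifs with h
  · rw [am_charpoly_map, coeff_map]
  · rw [map_sum]
    refine Finset.sum_congr rfl fun i _ => ?_
    rw [am_charpoly_map, coeff_map, tm_map, map_mul]

theorem cls_dl_comp (x : Fin n → L) (π : Equiv.Perm (Fin n)) : dl (x ∘ π) = dl x := by
  unfold dl
  simp only [am_charpoly_comp, tm_comp]

theorem csq_map (φ : L →+* L') (z : Fin n → L) : csq (φ ∘ z) = φ ∘ csq z := by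
  funext i
  simp [csq]

theorem dB_map (φ : L →+* L') (z : Fin n → L) : dB (φ ∘ z) = φ (dB z) := by
  unfold dB
  rw [csq_map, krb_det_map, hkb_map, map_div₀, map_mul, map_prod]
  rfl

theorem dA_map (φ : L →+* L') (z : Fin n → L) : dA (φ ∘ z) = φ (dA z) := by
  unfold dA
  rw [csq_map, krs_det_map, hks_map, map_div₀]

/-- signed permutations permute the squares -/
theorem cls_csq {τ : L →+* L} {z : Fin n → L} {η : Fin n → ℤ} {π : Equiv.Perm (Fin n)}
    (hη : ∀ i, η i = 1 ∨ η i = -1) (h : ∀ l, τ (z l) = (η l : L) * z (π l)) :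
    (τ : L → L) ∘ csq z = csq z ∘ π := by
  funext l
  simp only [Function.comp_apply, csq, map_pow, h]
  rcases hη l with h1 | h1 <;> rw [h1] <;> push_cast <;> ring

theorem cls_dB {τ : L →+* L} {z : Fin n → L} {η : Fin n → ℤ} {π : Equiv.Perm (Fin n)}
    (hη : ∀ i, η i = 1 ∨ η i = -1) (h : ∀ l, τ (z l) = (η l : L) * z (π l)) :
    τ (dB z) = (((∏ i, η i) * ((Equiv.Perm.sign π : ℤˣ) : ℤ) : ℤ) : L) * dB z := by
  unfold dB
  rw [map_div₀, map_mul, ← krb_det_map, ← hkb_map, cls_csq hη h, krb_det_comp, hkb_comp, map_prod]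
  simp only [h]
  rw [Finset.prod_mul_distrib, Equiv.prod_comp π z]
  push_cast
  ring

theorem cls_dA {τ : L →+* L} {z : Fin n → L} {η : Fin n → ℤ} {π : Equiv.Perm (Fin n)}
    (hη : ∀ i, η i = 1 ∨ η i = -1) (h : ∀ l, τ (z l) = (η l : L) * z (π l)) :
    τ (dA z) = ((((Equiv.Perm.sign π : ℤˣ) : ℤ) : ℤ) : L) * dA z := by
  unfold dA
  rw [map_div₀, ← krs_det_map, ← hks_map, cls_csq hη h, krs_det_comp, hks_comp]
  ring

theorem cls_dB_sq [CharZero L] {z : Fin n → L} (h : hkb (csq z) ≠ 0) : dB z ^ 2 = dl (csq z) := by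
  have h1 := krb_det_sq (csq z)
  have h2 : ∏ i, csq z i = (∏ i, z i) ^ 2 := by
    rw [← Finset.prod_pow]
    rfl
  rw [h2] at h1
  unfold dB
  rw [div_pow, mul_pow, h1]
  field_simp

theorem cls_dA_sq [CharZero L] {z : Fin n → L} (hinj : Function.Injective (csq z))
    (h : hks (csq z) ≠ 0) : dA z ^ 2 = ql (csq z) := by
  have h1 := krs_det_sq hinj
  unfold dA
  rw [div_pow, h1]
  field_simp

/-- automorphisms fixing the coefficients act as signed permutations -/
theorem cls_signs {z : Fin n → L} (hinj : Function.Injective (csq z)) (τ : L →+* L)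
    (hco : ∀ j, τ ((∏ i, (X - C (csq z i))).coeff j) = (∏ i, (X - C (csq z i))).coeff j) :
    ∃ (η : Fin n → ℤ) (π : Equiv.Perm (Fin n)), (∀ i, η i = 1 ∨ η i = -1) ∧
      ∀ l, τ (z l) = (η l : L) * z (π l) := by
  have h1 : (∏ i, (X - C (csq z i))).map τ = ∏ i, (X - C (csq z i)) := by
    ext j
    rw [coeff_map]
    exact hco j
  have h2 : ∀ i, ∃ j, τ (csq z i) = csq z j := by
    intro i
    have h3 : (∏ i, (X - C (csq z i))).IsRoot (τ (csq z i)) := by
      rw [← h1, Polynomial.map_prod, IsRoot.def, eval_prod]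
      apply Finset.prod_eq_zero (Finset.mem_univ i)
      simp
    rw [IsRoot.def, eval_prod, Finset.prod_eq_zero_iff] at h3
    obtain ⟨j, _, hj⟩ := h3
    refine ⟨j, ?_⟩
    simpa [sub_eq_zero] using hj
  choose π hπ using h2
  have hπi : Function.Injective π := by
    intro i j hij
    apply hinj
    have := (hπ i).trans ((congrArg (csq z) hij).trans (hπ j).symm)
    exact τ.injective this
  have h3 : ∀ l, ∃ e : ℤ, (e = 1 ∨ e = -1) ∧ τ (z l) = (e : L) * z (π l) := by
    intro l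
    have h4 : τ (z l) ^ 2 = z (π l) ^ 2 := by
      rw [← map_pow]
      exact hπ l
    rcases sq_eq_sq_iff_eq_or_eq_neg.1 h4 with h5 | h5
    · exact ⟨1, Or.inl rfl, by rw [h5]; push_cast; ring⟩
    · exact ⟨-1, Or.inr rfl, by rw [h5]; push_cast; ring⟩
  choose η hη using h3
  exact ⟨η, Equiv.ofBijective π (Finite.injective_iff_bijective.1 hπi), fun i => (hη i).1,
    fun l => (hη l).2⟩

end General

section Cls

variable {k : Type u} [Field k] [CharZero k] {n : ℕ} {A : Matrix (Fin n) (Fin n) ℤ}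
  {z : Fin n → RF k n}

theorem cls_lin_mem (hlin : ∀ i, ∃ c : Fin n → k, xv k i = ∑ l, c l • z l)
    (E : IntermediateField k (RF k n)) (hz : ∀ l, z l ∈ E) (i : Fin n) : xv k i ∈ E := by
  obtain ⟨c, hc⟩ := hlin i
  rw [hc]
  exact sum_mem fun l _ => E.smul_mem (hz l)

theorem cls_z_algInd (hlin : ∀ i, ∃ c : Fin n → k, xv k i = ∑ l, c l • z l) :
    AlgebraicIndependent k z := by
  refine algInd_of xv_algInd fun i => ?_
  exact isAlgebraic_algebraMap (⟨xv k i, cls_lin_mem hlin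
    (IntermediateField.adjoin k (Set.range z))
    (fun l => IntermediateField.subset_adjoin k _ ⟨l, rfl⟩) i⟩ :
      IntermediateField.adjoin k (Set.range z))

theorem cls_csq_algInd (hlin : ∀ i, ∃ c : Fin n → k, xv k i = ∑ l, c l • z l) :
    AlgebraicIndependent k (csq z) := by
  refine algInd_of (cls_z_algInd hlin) fun i => ?_
  have h1 : IsAlgebraic (IntermediateField.adjoin k (Set.range (csq z))) (z i ^ 2) :=
    isAlgebraic_algebraMap (⟨z i ^ 2, IntermediateField.subset_adjoin k _ ⟨i, rfl⟩⟩ :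
      IntermediateField.adjoin k (Set.range (csq z)))
  exact h1.of_pow (by norm_num)

theorem cls_ne_zero (hlin : ∀ i, ∃ c : Fin n → k, xv k i = ∑ l, c l • z l) :
    Function.Injective (csq z) ∧ (krb (csq z)).det ≠ 0 ∧ (krs (csq z)).det ≠ 0 ∧
      hkb (csq z) ≠ 0 ∧ hks (csq z) ≠ 0 :=
  krb_ne_zero_of_algInd (k := k) (Ω := RF k n) (n := n) (x := csq z) (cls_csq_algInd hlin)

theorem cls_alg (hlin : ∀ i, ∃ c : Fin n → k, xv k i = ∑ l, c l • z l)
    (K1 : IntermediateField k (RF k n)) (hco : ∀ j, (∏ i, (X - C (csq z i))).coeff j ∈ K1)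
    (i : Fin n) : IsAlgebraic K1 (xv k i : RF k n) := by
  have h1 : ∀ l, IsAlgebraic K1 (z l) := by
    intro l
    have h2 : IsAlgebraic K1 (z l ^ 2) := by
      have h3 : (∏ i, (X - C (csq z i))) ∈ Polynomial.lifts (algebraMap K1 (RF k n)) := by
        rw [Polynomial.lifts_iff_coeff_lifts]
        intro j
        exact ⟨⟨_, hco j⟩, rfl⟩
      obtain ⟨q, hq⟩ := (Polynomial.mem_lifts _).1 h3
      refine ⟨q, ?_, ?_⟩
      · rintro rfl
        rw [Polynomial.map_zero] at hq
        exact (monic_prod_of_monic _ _ fun i _ => monic_X_sub_C (csq z i)).ne_zero hq.symm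
      · rw [aeval_def, eval₂_eq_eval_map, hq, eval_prod]
        apply Finset.prod_eq_zero (Finset.mem_univ l)
        simp [csq]
    exact h2.of_pow (by norm_num)
  have h2 := cls_lin_mem hlin ((algebraicClosure K1 (RF k n)).restrictScalars k) (fun l => by
    rw [IntermediateField.mem_restrictScalars, mem_algebraicClosure_iff]
    exact h1 l) i
  rwa [IntermediateField.mem_restrictScalars, mem_algebraicClosure_iff] at h2

/-- automorphisms of the algebraic closure fixing `t` fix the field generated by `t` -/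
theorem cls_fix {m : ℕ} {t : Fin m → RF k n}
    {τ : AlgebraicClosure (RF k n) ≃ₐ[k] AlgebraicClosure (RF k n)}
    (h : ∀ i, τ (algebraMap _ _ (t i)) = algebraMap _ _ (t i)) {y : RF k n}
    (hy : y ∈ IntermediateField.adjoin k (Set.range t)) :
    τ (algebraMap _ _ y) = algebraMap _ _ y := by
  induction hy using IntermediateField.adjoin_induction with
  | mem x hx =>
    obtain ⟨i, rfl⟩ := hx
    exact h i
  | algebraMap x =>
    rw [← IsScalarTower.algebraMap_apply k (RF k n), τ.commutes]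
  | add x y _ _ hx hy => rw [map_add, map_add, hx, hy]
  | inv x _ hx => rw [map_inv₀, map_inv₀, hx]
  | mul x y _ _ hx hy => rw [map_mul, map_mul, hx, hy]

/-- the Galois part -/
theorem cls_gal (hlin : ∀ i, ∃ c : Fin n → k, xv k i = ∑ l, c l • z l)
    {t : Fin n → RF k n}
    (hco : ∀ j, (∏ i, (X - C (csq z i))).coeff j ∈ IntermediateField.adjoin k (Set.range t))
    {τ : AlgebraicClosure (RF k n) ≃ₐ[k] AlgebraicClosure (RF k n)}
    (h : ∀ i, τ (algebraMap _ _ (t i)) = algebraMap _ _ (t i)) :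
    ∃ (η : Fin n → ℤ) (π : Equiv.Perm (Fin n)), (∀ i, η i = 1 ∨ η i = -1) ∧
      ∀ l, (τ : AlgebraicClosure (RF k n) →+* AlgebraicClosure (RF k n))
        ((algebraMap (RF k n) (AlgebraicClosure (RF k n)) ∘ z) l) =
        (η l : AlgebraicClosure (RF k n)) *
          (algebraMap (RF k n) (AlgebraicClosure (RF k n)) ∘ z) (π l) := by
  set ι := algebraMap (RF k n) (AlgebraicClosure (RF k n)) with hι
  have hinj : Function.Injective (csq z) := (cls_csq_algInd hlin).injective
  have hsq : csq (ι ∘ z) = ι ∘ csq z := csq_map ι z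
  refine cls_signs (z := ι ∘ z) ?_ (τ : AlgebraicClosure (RF k n) →+* AlgebraicClosure (RF k n)) ?_
  · rw [hsq]
    exact ι.injective.comp hinj
  · intro j
    have h1 : (∏ i, (X - C (csq (ι ∘ z) i))) = (∏ i, (X - C (csq z i))).map ι := by
      rw [Polynomial.map_prod, hsq]
      refine Finset.prod_congr rfl fun i _ => ?_
      simp
    rw [h1, coeff_map]
    exact cls_fix h (hco j)

/-- from the coordinates to the variables -/
theorem cls_xv (hlin : ∀ i, ∃ c : Fin n → k, xv k i = ∑ l, c l • z l)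
    {τ : AlgebraicClosure (RF k n) ≃ₐ[k] AlgebraicClosure (RF k n)} {w : RF k n ≃ₐ[k] RF k n}
    (h : ∀ l, τ (algebraMap (RF k n) _ (z l)) = algebraMap (RF k n) _ (w (z l))) (i : Fin n) :
    τ (algebraMap (RF k n) _ (xv k i)) = algebraMap (RF k n) _ (w (xv k i)) := by
  obtain ⟨c, hc⟩ := hlin i
  rw [hc, map_sum, map_sum, map_sum, map_sum]
  refine Finset.sum_congr rfl fun l _ => ?_
  have key : ∀ y : RF k n, algebraMap (RF k n) (AlgebraicClosure (RF k n)) (c l • y) =
      algebraMap k (AlgebraicClosure (RF k n)) (c l) *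
        algebraMap (RF k n) (AlgebraicClosure (RF k n)) y := by
    intro y
    rw [Algebra.smul_def, map_mul, ← IsScalarTower.algebraMap_apply]
  have key2 : w (c l • z l) = c l • w (z l) := by
    rw [Algebra.smul_def, map_mul, w.commutes, ← Algebra.smul_def]
  rw [key, map_mul, τ.commutes, h, key2, key]

/-- the theorem for type `B` or `C` -/
theorem good_clsB (hn : 1 ≤ n) (hlin : ∀ i, ∃ c : Fin n → k, xv k i = ∑ l, c l • z l)
    (hsr : ∀ j σ, IsSimpleRefl k A j σ → ∃ (η : Fin n → ℤ) (π : Equiv.Perm (Fin n)),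
      (∀ i, η i = 1 ∨ η i = -1) ∧ (∏ i, η i) * ((Equiv.Perm.sign π : ℤˣ) : ℤ) = -1 ∧
      ∀ l, σ (z l) = (η l : RF k n) * z (π l))
    (hall : ∀ (η : Fin n → ℤ) (π : Equiv.Perm (Fin n)), (∀ i, η i = 1 ∨ η i = -1) →
      ClsP A z η π) : Good k A := by
  have hcz : CharZero (RF k n) := charZero_of_injective_algebraMap
    (algebraMap k (RF k n)).injective
  obtain ⟨hinj, hkrb, hkrs, hhkb, hhks⟩ := cls_ne_zero hlin
  set x := csq z with hx
  have hdl : dl x ∈ IntermediateField.adjoin k (Set.range (bgen x (dl x))) :=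
    RB_w_mem hn x (dl x)
  have hco : ∀ j, (∏ i, (X - C (x i))).coeff j ∈
      IntermediateField.adjoin k (Set.range (bgen x (dl x))) :=
    fun j => RB_coeff_mem hn hinj hkrb (dl x) hdl j
  refine good_of A (bgen x (dl x)) (dB z) ⟨0, by omega⟩ ?_ ?_ ?_ (fun i => cls_alg hlin _ hco i) ?_
  · intro i j σ hσ
    obtain ⟨η, π, hη, _, hσz⟩ := hsr j σ hσ
    have hcomp := cls_csq (τ := (σ : RF k n →+* RF k n)) hη hσz
    have hdlσ : σ (dl x) = dl x := by
      have h1 := cls_dl_map (σ : RF k n →+* RF k n) x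
      rw [hcomp, cls_dl_comp] at h1
      exact h1.symm
    unfold bgen
    split_ifs with h1 h2
    · exact hdlσ
    · have h3 := am_charpoly_map (σ : RF k n →+* RF k n) x
      rw [hcomp, am_charpoly_comp] at h3
      conv_rhs => rw [h3, coeff_map]
      rfl
    · have h3 := tm_map (σ : RF k n →+* RF k n) x (2 * ((i : ℕ) - n / 2 - n % 2))
      rw [hcomp, tm_comp] at h3
      exact h3.symm
  · rw [cls_dB_sq hhkb]
    simp only [bgen]
    rw [if_pos trivial]
  · intro j σ hσ
    obtain ⟨η, π, hη, hs, hσz⟩ := hsr j σ hσ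
    have h1 := cls_dB (τ := (σ : RF k n →+* RF k n)) hη hσz
    rw [hs] at h1
    have h2 : σ (dB z) = ((-1 : ℤ) : RF k n) * dB z := h1
    rw [h2]
    push_cast
    ring
  · intro τ hτ
    obtain ⟨η, π, hη, h1⟩ := cls_gal hlin hco hτ
    obtain ⟨w, hw, hwz⟩ := hall η π hη
    refine ⟨w, hw, cls_xv hlin fun l => ?_⟩
    rw [hwz, map_mul, map_intCast]
    exact h1 l

/-- the theorem for type `D` -/
theorem good_clsD (hn : 3 ≤ n) (hlin : ∀ i, ∃ c : Fin n → k, xv k i = ∑ l, c l • z l)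
    (hsr : ∀ j σ, IsSimpleRefl k A j σ → ∃ (η : Fin n → ℤ) (π : Equiv.Perm (Fin n)),
      (∀ i, η i = 1 ∨ η i = -1) ∧ (∏ i, η i) = 1 ∧ ((Equiv.Perm.sign π : ℤˣ) : ℤ) = -1 ∧
      ∀ l, σ (z l) = (η l : RF k n) * z (π l))
    (hall : ∀ (η : Fin n → ℤ) (π : Equiv.Perm (Fin n)), (∀ i, η i = 1 ∨ η i = -1) →
      ∏ i, η i = 1 → ClsP A z η π) : Good k A := by
  have hcz : CharZero (RF k n) := charZero_of_injective_algebraMap
    (algebraMap k (RF k n)).injective
  obtain ⟨hinj, hkrb, hkrs, hhkb, hhks⟩ := cls_ne_zero hlin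
  have hz0 : ∏ i, z i ≠ 0 :=
    Finset.prod_ne_zero_iff.2 fun i _ => (cls_z_algInd hlin).ne_zero i
  have hdB0 : dB z ≠ 0 := div_ne_zero (mul_ne_zero hz0 hkrb) hhkb
  have hdA0 : dA z ≠ 0 := div_ne_zero hkrs hhks
  set x := csq z with hx
  set w₂ := dB z * dA z with hw₂
  have hdl : dl x ∈ IntermediateField.adjoin k (Set.range (dgen x (dl x) w₂)) :=
    RD_w₁_mem hn x (dl x) w₂
  have hw₂K : w₂ ∈ IntermediateField.adjoin k (Set.range (dgen x (dl x) w₂)) :=
    RD_w₂_mem hn x (dl x) w₂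
  have hdl0 : dl x ≠ 0 := by
    rw [← cls_dB_sq hhkb]
    exact pow_ne_zero 2 hdB0
  have hql : ql x ∈ IntermediateField.adjoin k (Set.range (dgen x (dl x) w₂)) := by
    have h1 : ql x = w₂ ^ 2 / dl x := by
      rw [hw₂, mul_pow, cls_dB_sq hhkb, cls_dA_sq hinj hhks, ← hx]
      field_simp
    rw [h1]
    exact div_mem (pow_mem hw₂K 2) hdl
  have hco : ∀ j, (∏ i, (X - C (x i))).coeff j ∈
      IntermediateField.adjoin k (Set.range (dgen x (dl x) w₂)) :=
    fun j => RD_coeff_mem hn hinj hkrb (dl x) w₂ hdl hql j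
  refine good_of A (dgen x (dl x) w₂) (dB z) ⟨0, by omega⟩ ?_ ?_ ?_
    (fun i => cls_alg hlin _ hco i) ?_
  · intro i j σ hσ
    obtain ⟨η, π, hη, hη1, hπ, hσz⟩ := hsr j σ hσ
    have hcomp := cls_csq (τ := (σ : RF k n →+* RF k n)) hη hσz
    have hdlσ : σ (dl x) = dl x := by
      have h1 := cls_dl_map (σ : RF k n →+* RF k n) x
      rw [hcomp, cls_dl_comp] at h1
      exact h1.symm
    unfold dgen
    split_ifs with h1 h2 h3
    · exact hdlσ
    · have h4 := cls_dB (τ := (σ : RF k n →+* RF k n)) hη hσz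
      have h5 := cls_dA (τ := (σ : RF k n →+* RF k n)) hη hσz
      rw [hη1, hπ] at h4
      rw [hπ] at h5
      have h6 : σ (dB z) = (((1 : ℤ) * (-1) : ℤ) : RF k n) * dB z := h4
      have h7 : σ (dA z) = ((-1 : ℤ) : RF k n) * dA z := h5
      rw [hw₂, map_mul, h6, h7]
      push_cast
      ring
    · have h4 := am_charpoly_map (σ : RF k n →+* RF k n) x
      rw [hcomp, am_charpoly_comp] at h4
      conv_rhs => rw [h4, coeff_map]
      rfl
    · have h4 := tm_map (σ : RF k n →+* RF k n) x (2 * ((i : ℕ) - n / 2 - n % 2))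
      rw [hcomp, tm_comp] at h4
      exact h4.symm
  · rw [cls_dB_sq hhkb]
    simp only [dgen]
    rw [if_pos trivial]
  · intro j σ hσ
    obtain ⟨η, π, hη, hη1, hπ, hσz⟩ := hsr j σ hσ
    have h1 := cls_dB (τ := (σ : RF k n →+* RF k n)) hη hσz
    rw [hη1, hπ] at h1
    have h2 : σ (dB z) = (((1 : ℤ) * (-1) : ℤ) : RF k n) * dB z := h1
    rw [h2]
    push_cast
    ring
  · intro τ hτ
    obtain ⟨η, π, hη, h1⟩ := cls_gal hlin hco hτ
    set ι := algebraMap (RF k n) (AlgebraicClosure (RF k n)) with hι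
    have hη1 : ∏ i, η i = 1 := by
      have h2 := cls_dB hη h1
      have h3 := cls_dA hη h1
      have h4 : τ (ι w₂) = ι w₂ := cls_fix hτ hw₂K
      rw [hw₂, map_mul, ← dB_map ι z, ← dA_map ι z, map_mul] at h4
      have h5 : τ (dB (ι ∘ z)) = (((∏ i, η i) * ((Equiv.Perm.sign π : ℤˣ) : ℤ) : ℤ) :
        AlgebraicClosure (RF k n)) * dB (ι ∘ z) := h2
      have h6 : τ (dA (ι ∘ z)) = ((((Equiv.Perm.sign π : ℤˣ) : ℤ) : ℤ) :
        AlgebraicClosure (RF k n)) * dA (ι ∘ z) := h3
      rw [h5, h6] at h4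
      have hB0 : dB (ι ∘ z) ≠ 0 := by
        rw [dB_map]
        exact (map_ne_zero ι).2 hdB0
      have hA0 : dA (ι ∘ z) ≠ 0 := by
        rw [dA_map]
        exact (map_ne_zero ι).2 hdA0
      have hs : ((Equiv.Perm.sign π : ℤˣ) : ℤ) * ((Equiv.Perm.sign π : ℤˣ) : ℤ) = 1 := by
        rcases Int.units_eq_one_or (Equiv.Perm.sign π) with h | h <;> rw [h] <;> simp
      have h7 : (((∏ i, η i) * (((Equiv.Perm.sign π : ℤˣ) : ℤ) * ((Equiv.Perm.sign π : ℤˣ) : ℤ)) :
          ℤ) : AlgebraicClosure (RF k n)) * (dB (ι ∘ z) * dA (ι ∘ z)) =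
          1 * (dB (ι ∘ z) * dA (ι ∘ z)) := by
        rw [one_mul]
        conv_rhs => rw [← h4]
        push_cast
        ring
      have h8 := mul_right_cancel₀ (mul_ne_zero hB0 hA0) h7
      rw [hs, mul_one] at h8
      have hczΩ : CharZero (AlgebraicClosure (RF k n)) :=
        charZero_of_injective_algebraMap (algebraMap (RF k n) (AlgebraicClosure (RF k n))).injective
      exact_mod_cast h8
    obtain ⟨w, hw, hwz⟩ := hall η π hη hη1
    refine ⟨w, hw, cls_xv hlin fun l => ?_⟩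
    rw [hwz, map_mul, map_intCast]
    exact h1 l

end Cls

end CM83
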