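import Pool.Agent.H.MP_83e36b_nt.cm.WBasic

/-! Module ClsGrp: signed permutations of coordinates realised by elements of the Weyl group
(classical types). -/

namespace CM83

universe u

variable {k : Type u} [Field k] {n : ℕ}

/-- some element of the Weyl group acts on the coordinates `z` as the signed permutation with the
signs `η` and the permutation `π` -/
def ClsP (A : Matrix (Fin n) (Fin n) ℤ) (z : Fin n → RF k n) (η : Fin n → ℤ)
    (π : Equiv.Perm (Fin n)) : Prop :=
  ∃ w ∈ weylGroup k A, ∀ l, w (z l) = (η l : RF k n) * z (π l)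

variable {A : Matrix (Fin n) (Fin n) ℤ} {z : Fin n → RF k n}

theorem ClsP.mul {η η' : Fin n → ℤ} {π π' : Equiv.Perm (Fin n)} (h : ClsP A z η π)
    (h' : ClsP A z η' π') : ClsP A z (fun l => η' l * η (π' l)) (π * π') := by
  obtain ⟨w, hw, h1⟩ := h
  obtain ⟨w', hw', h2⟩ := h'
  refine ⟨w * w', (weylGroup k A).mul_mem hw hw', fun l => ?_⟩
  rw [AlgEquiv.mul_apply, h2, map_mul, map_intCast, h1, Equiv.Perm.mul_apply]
  push_cast
  ring

theorem ClsP.one : ClsP A z (fun _ => 1) 1 := by
  refine ⟨1, (weylGroup k A).one_mem, fun l => ?_⟩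
  rw [AlgEquiv.one_apply, Equiv.Perm.one_apply]
  push_cast
  ring

theorem ClsP.congr {η η' : Fin n → ℤ} {π π' : Equiv.Perm (Fin n)} (h : ClsP A z η π)
    (h1 : ∀ l, η' l = η l) (h2 : π' = π) : ClsP A z η' π' := by
  rw [h2, show η' = η from funext h1]
  exact h

/-- all permutations from the adjacent transpositions -/
theorem ClsP_perm (h : ∀ i j : Fin n, (i : ℕ) + 1 = j → ClsP A z (fun _ => 1) (Equiv.swap i j))
    (π : Equiv.Perm (Fin n)) : ClsP A z (fun _ => 1) π := by
  cases n with
  | zero =>
    exact ClsP.one.congr (fun _ => rfl) (Subsingleton.elim _ _)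
  | succ m =>
    have h1 : π ∈ Submonoid.closure
        (Set.range fun i : Fin m => Equiv.swap i.castSucc i.succ) := by
      rw [Equiv.Perm.mclosure_swap_castSucc_succ]
      exact Submonoid.mem_top π
    induction h1 using Submonoid.closure_induction with
    | mem x hx =>
      obtain ⟨i, rfl⟩ := hx
      exact h i.castSucc i.succ (by simp)
    | one => exact ClsP.one
    | mul x y _ _ hx hy => exact (hx.mul hy).congr (fun _ => by ring) rfl

/-- conjugation by permutations -/
theorem ClsP_conj (hp : ∀ π, ClsP A z (fun _ => 1) π) {η : Fin n → ℤ} (h : ClsP A z η 1)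
    (π : Equiv.Perm (Fin n)) : ClsP A z (fun l => η (π l)) 1 := by
  have h1 := (hp π⁻¹).mul (h.mul (hp π))
  refine h1.congr (fun l => by ring) ?_
  rw [one_mul, inv_mul_cancel]

/-- products of sign changes -/
theorem ClsP_sgn_mul {η η' : Fin n → ℤ} (h : ClsP A z η 1) (h' : ClsP A z η' 1) :
    ClsP A z (fun l => η l * η' l) 1 := by
  have h1 := h.mul h'
  refine h1.congr (fun l => ?_) (by rw [one_mul])
  rw [Equiv.Perm.one_apply]
  ring

/-- signs and permutation -/
theorem ClsP_sgn_perm {η : Fin n → ℤ} (h : ClsP A z η 1) {π : Equiv.Perm (Fin n)}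
    (h' : ClsP A z (fun _ => 1) π) : ClsP A z η π := by
  have h1 := h'.mul h
  exact h1.congr (fun l => by ring) (by rw [mul_one])

/-- all signed permutations -/
theorem ClsP_all (hp : ∀ π, ClsP A z (fun _ => 1) π) {i0 : Fin n}
    (h0 : ClsP A z (fun l => if l = i0 then -1 else 1) 1) {η : Fin n → ℤ}
    (hη : ∀ i, η i = 1 ∨ η i = -1) (π : Equiv.Perm (Fin n)) : ClsP A z η π := by
  refine ClsP_sgn_perm ?_ (hp π)
  have hflip : ∀ i : Fin n, ClsP A z (fun l => if l = i then -1 else 1) 1 := by
    intro i
    refine (ClsP_conj hp h0 (Equiv.swap i i0)).congr (fun l => ?_) rfl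
    refine if_congr ?_ rfl rfl
    rw [Equiv.swap_apply_eq_iff, Equiv.swap_apply_right]
  have hT : ∀ T : Finset (Fin n), ClsP A z (fun l => if l ∈ T then -1 else 1) 1 := by
    intro T
    induction T using Finset.induction_on with
    | empty => exact ClsP.one.congr (fun l => by simp) rfl
    | insert a T ha ih =>
      refine (ClsP_sgn_mul (hflip a) ih).congr (fun l => ?_) rfl
      by_cases h1 : l = a
      · rw [h1, if_pos (Finset.mem_insert_self a T), if_pos rfl, if_neg ha]
        norm_num
      · rw [if_neg h1, one_mul]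
        refine if_congr ?_ rfl rfl
        rw [Finset.mem_insert]
        exact ⟨fun h => h.resolve_left h1, Or.inr⟩
  refine (hT (Finset.univ.filter fun l => η l = -1)).congr (fun l => ?_) rfl
  by_cases h1 : η l = -1
  · rw [if_pos (by simp [h1]), h1]
  · rw [if_neg (by simp [h1])]
    exact (hη l).resolve_right h1

/-- all signed permutations with an even number of signs -/
theorem ClsP_even (hp : ∀ π, ClsP A z (fun _ => 1) π) {i0 j0 : Fin n} (hij : i0 ≠ j0)
    (h0 : ClsP A z (fun l => if l = i0 ∨ l = j0 then -1 else 1) 1) {η : Fin n → ℤ}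
    (hη : ∀ i, η i = 1 ∨ η i = -1) (hη1 : ∏ i, η i = 1) (π : Equiv.Perm (Fin n)) :
    ClsP A z η π := by
  refine ClsP_sgn_perm ?_ (hp π)
  have hflip : ∀ i : Fin n, i ≠ i0 → ClsP A z (fun l => if l = i ∨ l = i0 then -1 else 1) 1 := by
    intro i hi
    refine (ClsP_conj hp h0 (Equiv.swap i j0)).congr (fun l => ?_) rfl
    refine if_congr ?_ rfl rfl
    rw [Equiv.swap_apply_eq_iff, Equiv.swap_apply_eq_iff, Equiv.swap_apply_right,
      Equiv.swap_apply_of_ne_of_ne (Ne.symm hi) hij]
    tauto
  have hT : ∀ T : Finset (Fin n), i0 ∉ T →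
      ClsP A z (fun l => if l ∈ T then -1 else if l = i0 then (-1) ^ T.card else 1) 1 := by
    intro T
    induction T using Finset.induction_on with
    | empty => exact fun _ => ClsP.one.congr (fun l => by simp) rfl
    | insert a T ha ih =>
      intro hi
      rw [Finset.mem_insert, not_or] at hi
      refine (ClsP_sgn_mul (hflip a (Ne.symm hi.1)) (ih hi.2)).congr (fun l => ?_) rfl
      rw [Finset.card_insert_of_notMem ha]
      by_cases h1 : l = a
      · rw [h1, if_pos (Finset.mem_insert_self a T), if_pos (Or.inl rfl), if_neg ha,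
          if_neg (Ne.symm hi.1)]
        norm_num
      · by_cases h2 : l = i0
        · rw [h2, if_neg (by rw [Finset.mem_insert, not_or]; exact hi), if_pos rfl,
            if_pos (Or.inr rfl), if_neg hi.2, if_pos rfl, pow_succ]
          ring
        · rw [if_neg (not_or.2 ⟨h1, h2⟩), one_mul, if_neg h2, if_neg h2]
          refine if_congr ?_ rfl rfl
          rw [Finset.mem_insert]
          exact ⟨fun h => h.resolve_left h1, Or.inr⟩
  obtain ⟨T, hTdef⟩ : ∃ T : Finset (Fin n), T = (Finset.univ.erase i0).filter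
    fun l => η l = -1 := ⟨_, rfl⟩
  have hi0T : i0 ∉ T := by rw [hTdef]; simp
  have hmem : ∀ l, l ≠ i0 → (l ∈ T ↔ η l = -1) := by
    intro l hl
    rw [hTdef]
    simp [hl]
  have hprod : ∏ l ∈ Finset.univ.erase i0, η l = (-1) ^ T.card := by
    rw [hTdef, ← Finset.prod_const, Finset.prod_filter]
    refine Finset.prod_congr rfl fun l hl => ?_
    by_cases h1 : η l = -1
    · rw [if_pos h1, h1]
    · rw [if_neg h1]
      exact (hη l).resolve_right h1
  have hi0 : η i0 = (-1) ^ T.card := by
    rw [← Finset.mul_prod_erase Finset.univ η (Finset.mem_univ i0), hprod] at hη1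
    rcases hη i0 with h1 | h1
    · rw [h1, one_mul] at hη1
      rw [h1, hη1]
    · rw [h1] at hη1 ⊢
      linarith
  refine (hT T hi0T).congr (fun l => ?_) rfl
  by_cases h1 : l = i0
  · rw [h1, if_neg hi0T, if_pos rfl, hi0]
  · rw [if_neg h1]
    by_cases h2 : η l = -1
    · rw [if_pos ((hmem l h1).2 h2), h2]
    · rw [if_neg (fun h => h2 ((hmem l h1).1 h))]
      exact (hη l).resolve_right h2

end CM83
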