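import Pool.Agent.H.MP_83e36b_nt.cm.Basic

/-! Module Ops: relations between the operators (except commutativity). -/

namespace CM83

variable {n : ℕ} {G : Type} [Group G] (R : RD n G) {F : Type*} [Field F]

theorem Rop_Rop (g h : G) (f : G → F) : Rop g (Rop h f) = Rop (g * h) f := by
  funext w
  show f (w * g * h) = f (w * (g * h))
  rw [mul_assoc]

theorem Rop_one (f : G → F) : Rop (1 : G) f = f := by
  funext w
  show f (w * 1) = f w
  rw [mul_one]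

theorem bil_comm {ι : Type*} [Fintype ι] (f g : ι → F) : bil f g = bil g f := by
  unfold bil
  exact Finset.sum_congr rfl fun w _ => mul_comm _ _

theorem bil_add_left {ι : Type*} [Fintype ι] (f f' g : ι → F) :
    bil (f + f') g = bil f g + bil f' g := by
  unfold bil
  rw [← Finset.sum_add_distrib]
  exact Finset.sum_congr rfl fun w _ => by rw [Pi.add_apply, add_mul]

theorem bil_smul_left {ι : Type*} [Fintype ι] (c : F) (f g : ι → F) :
    bil (c • f) g = c * bil f g := by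
  unfold bil
  rw [Finset.mul_sum]
  exact Finset.sum_congr rfl fun w _ => by rw [Pi.smul_apply, smul_eq_mul, mul_assoc]

theorem bil_Rop [Fintype G] (g : G) (f h : G → F) : bil (Rop g f) h = bil f (Rop g⁻¹ h) := by
  unfold bil
  rw [← Equiv.sum_comp (Equiv.mulRight g) (fun w => f w * (Rop g⁻¹ h) w)]
  refine Finset.sum_congr rfl fun w _ => ?_
  show f (w * g) * h w = f (w * g) * h (w * g * g⁻¹)
  rw [mul_inv_cancel_right]

theorem bil_Rop_Rop [Fintype G] (g : G) (f h : G → F) : bil (Rop g f) (Rop g h) = bil f h := by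
  rw [bil_Rop, Rop_Rop, inv_mul_cancel, Rop_one]

namespace RD

theorem Xop_symm [Fintype G] (ζ : V n →+ F) (v : V n) (f g : G → F) :
    bil (R.Xop ζ v f) g = bil f (R.Xop ζ v g) := by
  unfold bil
  refine Finset.sum_congr rfl fun w _ => ?_
  show ζ (R.ρ w v) * f w * g w = f w * (ζ (R.ρ w v) * g w)
  ring

theorem Xop_Rop (ζ : V n →+ F) (v : V n) (g : G) (f : G → F) :
    R.Xop ζ v (Rop g f) = Rop g (R.Xop ζ (R.ρ g⁻¹ v) f) := by
  funext w
  show ζ (R.ρ w v) * f (w * g) = ζ (R.ρ (w * g) (R.ρ g⁻¹ v)) * f (w * g)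
  rw [map_mul, Module.End.mul_apply, R.ρ_inv']

theorem Dop_add (ζ : V n →+ F) [CharZero F] (u v : V n) (f : G → F) :
    R.Dop ζ (u + v) f = R.Dop ζ u f + R.Dop ζ v f := by
  funext w
  show ∑ s ∈ R.S, ((R.B (u + v) (R.a s) : ℚ) : F) / ζ (R.ρ w (R.a s)) * f (w * s) =
    ∑ s ∈ R.S, ((R.B u (R.a s) : ℚ) : F) / ζ (R.ρ w (R.a s)) * f (w * s) +
    ∑ s ∈ R.S, ((R.B v (R.a s) : ℚ) : F) / ζ (R.ρ w (R.a s)) * f (w * s)
  rw [← Finset.sum_add_distrib]
  refine Finset.sum_congr rfl fun s _ => ?_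
  rw [map_add, LinearMap.add_apply]
  push_cast
  ring

theorem Dop_smul (ζ : V n →+ F) [CharZero F] (q : ℚ) (u : V n) (f : G → F) :
    R.Dop ζ (q • u) f = (q : F) • R.Dop ζ u f := by
  funext w
  show ∑ s ∈ R.S, ((R.B (q • u) (R.a s) : ℚ) : F) / ζ (R.ρ w (R.a s)) * f (w * s) =
    (q : F) * ∑ s ∈ R.S, ((R.B u (R.a s) : ℚ) : F) / ζ (R.ρ w (R.a s)) * f (w * s)
  rw [Finset.mul_sum]
  refine Finset.sum_congr rfl fun s _ => ?_
  rw [map_smul, LinearMap.smul_apply, smul_eq_mul]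
  push_cast
  ring

theorem Rop_Dop [CharZero F] (ζ : V n →+ F) (u : V n) (g : G) (f : G → F) :
    Rop g (R.Dop ζ u f) = R.Dop ζ (R.ρ g u) (Rop g f) := by
  funext w
  show ∑ s ∈ R.S, ((R.B u (R.a s) : ℚ) : F) / ζ (R.ρ (w * g) (R.a s)) * f (w * g * s) =
    ∑ s ∈ R.S, ((R.B (R.ρ g u) (R.a s) : ℚ) : F) / ζ (R.ρ w (R.a s)) * f (w * s * g)
  rw [← R.sum_conj g (fun s => ((R.B (R.ρ g u) (R.a s) : ℚ) : F) / ζ (R.ρ w (R.a s)) *
    f (w * s * g))]
  refine Finset.sum_congr rfl fun s hs => ?_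
  have h1 := R.term_conj (R.tw ζ w) g hs u
  simp only [tw_apply] at h1
  have h2 : w * (g * s * g⁻¹) * g = w * g * s := by group
  rw [h2, ← h1, map_mul, Module.End.mul_apply]

theorem Dop_antisymm [Fintype G] [CharZero F] (ζ : V n →+ F) (u : V n) (f g : G → F) :
    bil (R.Dop ζ u f) g = - bil f (R.Dop ζ u g) := by
  unfold bil
  have e1 : ∑ w, (R.Dop ζ u f) w * g w = ∑ s ∈ R.S, ∑ w,
      ((R.B u (R.a s) : ℚ) : F) / ζ (R.ρ w (R.a s)) * f (w * s) * g w := by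
    rw [Finset.sum_comm]
    refine Finset.sum_congr rfl fun w _ => ?_
    rw [← Finset.sum_mul]
    rfl
  have e2 : ∑ w, f w * (R.Dop ζ u g) w = ∑ s ∈ R.S, ∑ w,
      f w * (((R.B u (R.a s) : ℚ) : F) / ζ (R.ρ w (R.a s)) * g (w * s)) := by
    rw [Finset.sum_comm]
    refine Finset.sum_congr rfl fun w _ => ?_
    rw [← Finset.mul_sum]
    rfl
  rw [e1, e2, ← Finset.sum_neg_distrib]
  refine Finset.sum_congr rfl fun s hs => ?_
  rw [← Finset.sum_neg_distrib, ← Equiv.sum_comp (Equiv.mulRight s)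
    (fun w => ((R.B u (R.a s) : ℚ) : F) / ζ (R.ρ w (R.a s)) * f (w * s) * g w)]
  refine Finset.sum_congr rfl fun w _ => ?_
  show ((R.B u (R.a s) : ℚ) : F) / ζ (R.ρ (w * s) (R.a s)) * f (w * s * s) * g (w * s) =
    -(f w * (((R.B u (R.a s) : ℚ) : F) / ζ (R.ρ w (R.a s)) * g (w * s)))
  rw [map_mul, Module.End.mul_apply, R.refl_a hs, map_neg, map_neg, div_neg, mul_assoc w s s,
    R.sq_one hs, mul_one]
  ring

theorem Dop_Xop [CharZero F] (ζ : V n →+ F) (hζ : ∀ g, ∀ s ∈ R.S, ζ (R.ρ g (R.a s)) ≠ 0)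
    (u v : V n) (f : G → F) :
    R.Dop ζ u (R.Xop ζ v f) = R.Xop ζ v (R.Dop ζ u f) -
      ∑ s ∈ R.S, ((2 * R.B u (R.a s) * R.B v (R.a s) / R.B (R.a s) (R.a s) : ℚ) : F) •
        Rop s f := by
  funext w
  rw [Pi.sub_apply, Finset.sum_apply]
  show ∑ s ∈ R.S, ((R.B u (R.a s) : ℚ) : F) / ζ (R.ρ w (R.a s)) *
      (ζ (R.ρ (w * s) v) * f (w * s)) =
    ζ (R.ρ w v) * (∑ s ∈ R.S, ((R.B u (R.a s) : ℚ) : F) / ζ (R.ρ w (R.a s)) * f (w * s)) -
      ∑ s ∈ R.S, ((2 * R.B u (R.a s) * R.B v (R.a s) / R.B (R.a s) (R.a s) : ℚ) : F) *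
        f (w * s)
  rw [Finset.mul_sum, ← Finset.sum_sub_distrib]
  refine Finset.sum_congr rfl fun s hs => ?_
  have h1 := hζ w s hs
  have h2 : ζ (R.ρ (w * s) v) = ζ (R.ρ w v) -
      ((2 * R.B v (R.a s) / R.B (R.a s) (R.a s) : ℚ) : F) * ζ (R.ρ w (R.a s)) := by
    rw [map_mul, Module.End.mul_apply, R.refl s hs v, map_sub, map_sub, map_smul, map_q]
  rw [h2]
  push_cast
  field_simp

end RD

end CM83
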