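import Pool.Agent.H.MP_83e36b_nt.cm.PL
import Pool.Agent.H.MP_83e36b_nt.cm.Ops

/-! Module Dcomm: the Dunkl operators commute. -/

namespace CM83

theorem Dcomm_formula {n : ℕ} {G : Type} [Group G] (R : RD n G) {F : Type*} [Field F] [CharZero F]
    (ζ : V n →+ F) (u v : V n) (f : G → F) (w : G) :
    R.Dop ζ u (R.Dop ζ v f) w =
      (∑ s ∈ R.S, ∑ t ∈ R.S, ((R.B u (R.a s) * R.B v (R.a t) : ℚ) : F) /
        (R.tw ζ w (R.a s) * R.tw ζ w (R.a t)) * f (w * (t * s))) -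
      ∑ s ∈ R.S, ∑ t ∈ R.S, ((2 / R.B (R.a s) (R.a s) * (R.B u (R.a s) * R.B v (R.a s)) *
        R.B (R.a s) (R.a t) : ℚ) : F) /
        (R.tw ζ w (R.a s) * R.tw ζ w (R.a t)) * f (w * (t * s)) := by
  show ∑ s ∈ R.S, ((R.B u (R.a s) : ℚ) : F) / ζ (R.ρ w (R.a s)) *
    (∑ t ∈ R.S, ((R.B v (R.a t) : ℚ) : F) / ζ (R.ρ (w * s) (R.a t)) * f (w * s * t)) = _
  rw [← Finset.sum_sub_distrib]
  refine Finset.sum_congr rfl fun s hs => ?_
  have hin : ∑ t ∈ R.S, ((R.B v (R.a t) : ℚ) : F) / ζ (R.ρ (w * s) (R.a t)) * f (w * s * t)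
      = ∑ t ∈ R.S, ((R.B (R.ρ s v) (R.a t) : ℚ) : F) / R.tw ζ w (R.a t) * f (w * (t * s)) := by
    rw [← R.sum_conj s (fun t => ((R.B (R.ρ s v) (R.a t) : ℚ) : F) / R.tw ζ w (R.a t) *
      f (w * (t * s)))]
    refine Finset.sum_congr rfl fun t ht => ?_
    have h1 := R.term_conj (R.tw ζ w) s ht v
    have h2 : ζ (R.ρ (w * s) (R.a t)) = R.tw ζ w (R.ρ s (R.a t)) := by
      rw [R.tw_apply, map_mul, Module.End.mul_apply]
    have h3 : w * (s * t * s⁻¹ * s) = w * s * t := by group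
    rw [h2, h1, h3]
  rw [hin, Finset.mul_sum, ← Finset.sum_sub_distrib]
  refine Finset.sum_congr rfl fun t ht => ?_
  have h4 : R.B (R.ρ s v) (R.a t) = R.B v (R.a t) -
      2 * R.B v (R.a s) / R.B (R.a s) (R.a s) * R.B (R.a s) (R.a t) := by
    rw [R.refl s hs v, map_sub, map_smul, LinearMap.sub_apply, LinearMap.smul_apply, smul_eq_mul]
  rw [h4]
  have h5 : ((R.B v (R.a t) - 2 * R.B v (R.a s) / R.B (R.a s) (R.a s) * R.B (R.a s) (R.a t) : ℚ) : F)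
      = ((R.B v (R.a t) : ℚ) : F) - 2 * ((R.B v (R.a s) : ℚ) : F) /
        ((R.B (R.a s) (R.a s) : ℚ) : F) * ((R.B (R.a s) (R.a t) : ℚ) : F) := by
    push_cast
    rfl
  rw [h5, Rat.cast_mul, Rat.cast_mul, Rat.cast_mul, Rat.cast_mul, Rat.cast_div]
  have h6 : ((2 : ℚ) : F) = 2 := by norm_num
  rw [h6]
  show ((R.B u (R.a s) : ℚ) : F) / R.tw ζ w (R.a s) * _ = _
  ring

theorem RD.Dop_comm {n : ℕ} {G : Type} [Group G] (R : RD n G) {F : Type*} [Field F] [CharZero F]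
    (ζ : V n →+ F) (hζ : ∀ g, ∀ s ∈ R.S, ζ (R.ρ g (R.a s)) ≠ 0) (u v : V n) (f : G → F) :
    R.Dop ζ u (R.Dop ζ v f) = R.Dop ζ v (R.Dop ζ u f) := by
  funext w
  rw [Dcomm_formula R ζ u v f w, Dcomm_formula R ζ v u f w]
  have hsec : ∑ s ∈ R.S, ∑ t ∈ R.S, ((2 / R.B (R.a s) (R.a s) * (R.B u (R.a s) * R.B v (R.a s)) *
        R.B (R.a s) (R.a t) : ℚ) : F) /
        (R.tw ζ w (R.a s) * R.tw ζ w (R.a t)) * f (w * (t * s)) =
      ∑ s ∈ R.S, ∑ t ∈ R.S, ((2 / R.B (R.a s) (R.a s) * (R.B v (R.a s) * R.B u (R.a s)) *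
        R.B (R.a s) (R.a t) : ℚ) : F) /
        (R.tw ζ w (R.a s) * R.tw ζ w (R.a t)) * f (w * (t * s)) := by
    refine Finset.sum_congr rfl fun s _ => Finset.sum_congr rfl fun t _ => ?_
    rw [mul_comm (R.B u (R.a s)) (R.B v (R.a s))]
  rw [hsec]
  congr 1
  have hP := R.PL (R.tw ζ w) (fun s hs => hζ w s hs) (fun g => f (w * g)) v u
  rw [Finset.sum_comm] at hP
  rw [← sub_eq_zero, ← Finset.sum_sub_distrib, ← hP]
  refine Finset.sum_congr rfl fun s _ => ?_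
  rw [← Finset.sum_sub_distrib]
  refine Finset.sum_congr rfl fun t _ => ?_
  rw [← sub_mul, ← sub_div, ← Rat.cast_sub]
  rw [mul_comm (R.tw ζ w (R.a t)) (R.tw ζ w (R.a s))]
  rw [mul_comm (R.B v (R.a t)) (R.B u (R.a s)), mul_comm (R.B u (R.a t)) (R.B v (R.a s))]

end CM83
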