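import Mathlib

/-! Module Defs: finite groups with reflections acting on `ℚ ^ n`, the operators on the functions
on the group, and the systems of equations of Calogero–Moser type. -/

namespace CM83

/-- the space `ℚ ^ n` -/
abbrev V (n : ℕ) := Fin n → ℚ

/-- A finite group `G` acting faithfully on `ℚ ^ n`, an invariant positive form `B` and a set `S`
of reflections in `G`, stable under conjugation, with their roots `a s`. -/
structure RD (n : ℕ) (G : Type) [Group G] where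
  ρ : G →* Module.End ℚ (V n)
  inj : Function.Injective ρ
  B : V n →ₗ[ℚ] V n →ₗ[ℚ] ℚ
  symm : ∀ u v, B u v = B v u
  pos : ∀ v, v ≠ 0 → 0 < B v v
  inv : ∀ g u v, B (ρ g u) (ρ g v) = B u v
  S : Finset G
  a : G → V n
  a_ne : ∀ s ∈ S, a s ≠ 0
  refl : ∀ s ∈ S, ∀ v, ρ s v = v - (2 * B v (a s) / B (a s) (a s)) • a s
  conj : ∀ g, ∀ s ∈ S, g * s * g⁻¹ ∈ S

namespace RD

variable {n : ℕ} {G : Type} [Group G] (R : RD n G)

section Maps

variable {F : Type*} [AddCommMonoid F]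

/-- the composition of `ξ` with the action of `g` -/
def tw (ξ : V n →+ F) (g : G) : V n →+ F := ξ.comp (R.ρ g).toAddMonoidHom

@[simp] theorem tw_apply (ξ : V n →+ F) (g : G) (v : V n) : R.tw ξ g v = ξ (R.ρ g v) := rfl

end Maps

/-- the sign character: `∏ ξ(g a_s) = χ(g) ∏ ξ(a_s)` -/
def chi (g : G) : ℚ := ∏ s ∈ R.S,
  (R.B (R.ρ g (R.a s)) (R.a (g * s * g⁻¹)) / R.B (R.a (g * s * g⁻¹)) (R.a (g * s * g⁻¹)))

variable {F : Type*} [Field F]

/-- the Dunkl operator without its derivative -/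
def Dop (ζ : V n →+ F) (u : V n) : (G → F) →ₗ[F] (G → F) where
  toFun f := fun w => ∑ s ∈ R.S, ((R.B u (R.a s) : ℚ) : F) / ζ (R.ρ w (R.a s)) * f (w * s)
  map_add' f g := by
    funext w
    simp only [Pi.add_apply, mul_add, Finset.sum_add_distrib]
  map_smul' c f := by
    funext w
    simp only [Pi.smul_apply, smul_eq_mul, RingHom.id_apply, Finset.mul_sum]
    refine Finset.sum_congr rfl fun s _ => ?_
    ring

/-- multiplication by the coordinate function `w ↦ ζ (w v)` -/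
def Xop (ζ : V n →+ F) (v : V n) : (G → F) →ₗ[F] (G → F) where
  toFun f := fun w => ζ (R.ρ w v) * f w
  map_add' f g := by
    funext w
    simp only [Pi.add_apply, mul_add]
  map_smul' c f := by
    funext w
    simp only [Pi.smul_apply, smul_eq_mul, RingHom.id_apply]
    ring

/-- `φ` is a common eigenvector: the equations of Calogero–Moser type -/
structure IsCM (ζ lam mu : V n →+ F) (φ : G → F) : Prop where
  ne : φ ≠ 0
  reg : ∀ s ∈ R.S, lam (R.a s) ≠ 0
  e1 : ∀ (u : V n) (w : G),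
    ∑ s ∈ R.S, ((R.B u (R.a s) : ℚ) : F) / ζ (R.ρ w (R.a s)) * φ (w * s) = lam u * φ w
  e2 : ∀ (v : V n) (w : G), ζ (R.ρ w v) * φ w = mu v * φ w +
    ∑ s ∈ R.S, ((R.B v (R.a s) : ℚ) : F) / lam (R.a s) * φ (w * s)

end RD

/-- right translation -/
def Rop {G : Type} [Group G] {F : Type*} [Field F] (g : G) : (G → F) →ₗ[F] (G → F) where
  toFun f := fun w => f (w * g)
  map_add' _ _ := rfl
  map_smul' _ _ := rfl

/-- the symmetric bilinear form `∑ f(w) g(w)` -/
def bil {ι : Type*} [Fintype ι] {F : Type*} [Field F] (f g : ι → F) : F := ∑ w, f w * g w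

/-- The relation between a generic point `ζ` and its dual point `θ` (with respect to the
involution `w1`), over the field `k`. -/
structure Core (k : Type*) {Ω : Type*} [Field k] [Field Ω] [Algebra k Ω] {n : ℕ} {G : Type}
    [Group G] (R : RD n G) (ζ θ : V n →+ Ω) (w1 : G) : Prop where
  sq : w1 * w1 = 1
  root : ∀ s ∈ R.S, R.ρ w1 (R.a s) ≠ R.a s
  inj : Function.Injective θ
  alg : ∀ v, IsAlgebraic (IntermediateField.adjoin k (Set.range θ)) (ζ v)
  fwd : ∀ (τ : Ω ≃ₐ[k] Ω) (w : G), (∀ v, τ (ζ v) = ζ (R.ρ w v)) →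
    ∃ c, c * w1 = w1 * c ∧ ∀ v, τ (θ v) = θ (R.ρ c v)
  bwd : ∀ (τ : Ω ≃ₐ[k] Ω) (c : G), c * w1 = w1 * c → (∀ v, τ (θ v) = θ (R.ρ c v)) →
    ∃ w, ∀ v, τ (ζ v) = ζ (R.ρ w v)
  sgn : ∃ j : Ω, j ^ 2 = (-1) ^ R.S.card ∧ ∀ (τ : Ω ≃ₐ[k] Ω) (w c : G), c * w1 = w1 * c →
    (∀ v, τ (ζ v) = ζ (R.ρ w v)) → (∀ v, τ (θ v) = θ (R.ρ c v)) →
    τ j = ((R.chi w * R.chi c : ℚ) : Ω) * j

end CM83
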