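import Pool.Agent.H.MP_83e36b_nt.cm.E6Grp
import Pool.Agent.H.MP_83e36b_nt.cm.QId

/-! Module E6C: the centralizer of the involution permutes the pairs `(ν_j, u_j)`. -/

namespace CM83

universe u

/-- the three weights fixed by the involution -/
def fw6 : Fin 3 → V 6 := ![![0, 0, 0, 0, 0, 4], ![0, 0, 0, 0, 2, -2], ![0, 0, 0, 0, -2, -2]]

/-- integral version of `fw6` -/
def E6C_fz : Fin 3 → (Fin 6 → ℤ) :=
  ![![0, 0, 0, 0, 0, 4], ![0, 0, 0, 0, 2, -2], ![0, 0, 0, 0, -2, -2]]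

theorem E6C_fz_eq (j : Fin 3) : toQ (E6C_fz j) = fw6 j := by
  fin_cases j <;> funext i <;> fin_cases i <;> simp [toQ, E6C_fz, fw6]

theorem E6C_mem_wt6 {ω : V 6} : ω ∈ wt6 ↔ ∃ z ∈ wtZ, toQ z = ω := by
  simp only [wt6, List.mem_toFinset, List.mem_map]

theorem E6C_toQ_inj : Function.Injective toQ := by
  intro u v h
  funext i
  have h1 := congrFun h i
  exact Int.cast_injective (α := ℚ) h1

theorem E6C_B6 (u v : Fin 6 → ℤ) : B6 (toQ u) (toQ v) = ((B6Z u v : ℤ) : ℚ) := by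
  simp only [B6_apply, B6Z, toQ]
  push_cast
  ring

/-- the fixed vectors of the involution -/
def E6C_fix (z : Fin 6 → ℤ) : Prop := z 0 = 0 ∧ z 1 = 0 ∧ z 2 = 0 ∧ z 3 = 0

instance : DecidablePred E6C_fix := fun z => by unfold E6C_fix; infer_instance

theorem E6C_io_iff (z : Fin 6 → ℤ) : io6 (toQ z) = toQ z ↔ E6C_fix z := by
  have key : ∀ q : ℤ, -(q : ℚ) = q ↔ q = 0 := by
    intro q
    rw [neg_eq_self, Int.cast_eq_zero]
  constructor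
  · intro h
    have h0 := congrFun h 0
    have h1 := congrFun h 1
    have h2 := congrFun h 2
    have h3 := congrFun h 3
    exact ⟨(key _).1 h0, (key _).1 h1, (key _).1 h2, (key _).1 h3⟩
  · rintro ⟨h0, h1, h2, h3⟩
    funext i
    fin_cases i
    · exact (key _).2 h0
    · exact (key _).2 h1
    · exact (key _).2 h2
    · exact (key _).2 h3
    · rfl
    · rfl

theorem E6C_fz_mem : ∀ j, E6C_fz j ∈ wtZ := by decide

theorem E6C_fz_fix : ∀ z ∈ wtZ, E6C_fix z ↔ ∃ j, z = E6C_fz j := by decide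

theorem fw6_mem (j : Fin 3) : fw6 j ∈ wt6 :=
  E6C_mem_wt6.2 ⟨_, E6C_fz_mem j, E6C_fz_eq j⟩

theorem fw6_iff {ω : V 6} (h : ω ∈ wt6) : io6 ω = ω ↔ ∃ j, ω = fw6 j := by
  obtain ⟨z, hz, rfl⟩ := E6C_mem_wt6.1 h
  rw [E6C_io_iff, E6C_fz_fix z hz]
  constructor
  · rintro ⟨j, rfl⟩
    exact ⟨j, E6C_fz_eq j⟩
  · rintro ⟨j, hj⟩
    rw [← E6C_fz_eq] at hj
    exact ⟨j, E6C_toQ_inj hj⟩

/-- the eight weights opposite to `fw6 j` which are not fixed by the involution -/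
def blk (j : Fin 3) : Finset (V 6) := wt6.filter fun ω => B6 ω (fw6 j) = -8 ∧ io6 ω ≠ ω

/-- the blocks in integral form -/
def E6C_blkZ : Fin 3 → List (Fin 6 → ℤ) :=
  ![[![2, 0, 0, 0, 0, -2], ![-2, 0, 0, 0, 0, -2],
    ![0, 2, 0, 0, 0, -2], ![0, -2, 0, 0, 0, -2], ![0, 0, 2, 0, 0, -2],
    ![0, 0, -2, 0, 0, -2], ![0, 0, 0, 2, 0, -2], ![0, 0, 0, -2, 0, -2]],
    [![1, 1, 1, 1, -1, 1], ![1, 1, -1, -1, -1, 1], ![1, -1, 1, -1, -1, 1], ![1, -1, -1, 1, -1, 1],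
      ![-1, 1, 1, -1, -1, 1], ![-1, 1, -1, 1, -1, 1], ![-1, -1, 1, 1, -1, 1],
      ![-1, -1, -1, -1, -1, 1]],
    [![1, 1, 1, -1, 1, 1], ![1, 1, -1, 1, 1, 1], ![1, -1, 1, 1, 1, 1], ![1, -1, -1, -1, 1, 1],
      ![-1, 1, 1, 1, 1, 1], ![-1, 1, -1, -1, 1, 1], ![-1, -1, 1, -1, 1, 1],
      ![-1, -1, -1, 1, 1, 1]]]

theorem E6C_blkZ_nodup : ∀ j, (E6C_blkZ j).Nodup := by decide

theorem E6C_blkZ_sub : ∀ j, ∀ z ∈ E6C_blkZ j, z ∈ wtZ := by decide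

theorem E6C_blkZ_iff : ∀ j, ∀ z ∈ wtZ, (B6Z z (E6C_fz j) = -8 ∧ ¬ E6C_fix z) ↔
    z ∈ E6C_blkZ j := by decide

theorem E6C_blk_eq (j : Fin 3) : blk j = ((E6C_blkZ j).map toQ).toFinset := by
  ext ω
  rw [blk, Finset.mem_filter, List.mem_toFinset, List.mem_map]
  constructor
  · rintro ⟨h1, h2, h3⟩
    obtain ⟨z, hz, rfl⟩ := E6C_mem_wt6.1 h1
    refine ⟨z, (E6C_blkZ_iff j z hz).1 ⟨?_, fun h => h3 ((E6C_io_iff z).2 h)⟩, rfl⟩
    rw [← E6C_fz_eq, E6C_B6] at h2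
    exact_mod_cast h2
  · rintro ⟨z, hz, rfl⟩
    have hz' := E6C_blkZ_sub j z hz
    obtain ⟨h1, h2⟩ := (E6C_blkZ_iff j z hz').2 hz
    refine ⟨E6C_mem_wt6.2 ⟨z, hz', rfl⟩, ?_, fun h => h2 ((E6C_io_iff z).1 h)⟩
    rw [← E6C_fz_eq, E6C_B6, h1]
    norm_num

theorem E6C_sum_blk {M : Type*} [AddCommMonoid M] (j : Fin 3) (f : V 6 → M) :
    ∑ ω ∈ blk j, f ω = ((E6C_blkZ j).map fun z => f (toQ z)).sum := by
  rw [E6C_blk_eq, List.sum_toFinset _ ((E6C_blkZ_nodup j).map E6C_toQ_inj), List.map_map]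
  rfl

section

variable {F : Type u} [Field F] [CharZero F] (θ : V 6 →+ F)

omit [CharZero F] in
theorem E6C_map_q (ξ : V 6 →+ F) (q : ℚ) (v : V 6) : ξ (q • v) = (q : F) * ξ v := by
  have h := map_ratCast_smul ξ ℚ F q v
  rwa [Rat.cast_id, smul_eq_mul] at h

theorem E6C_expand (v : V 6) : θ v = (v 0 : F) * θ (Pi.single 0 1) +
    (v 1 : F) * θ (Pi.single 1 1) + (v 2 : F) * θ (Pi.single 2 1) + (v 3 : F) * θ (Pi.single 3 1) +
    (v 4 : F) * θ (Pi.single 4 1) + (v 5 : F) * θ (Pi.single 5 1) := by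
  have h1 : v = v 0 • (Pi.single 0 1 : V 6) + v 1 • (Pi.single 1 1 : V 6) +
      v 2 • (Pi.single 2 1 : V 6) + v 3 • (Pi.single 3 1 : V 6) + v 4 • (Pi.single 4 1 : V 6) +
      v 5 • (Pi.single 5 1 : V 6) := by
    funext i
    fin_cases i <;> simp
  conv_lhs => rw [h1]
  simp only [map_add, E6C_map_q]

theorem nu6_eq (j : Fin 3) : nu6 θ j = - θ (fw6 j) / 2 := by
  rw [E6C_expand θ (fw6 j)]
  fin_cases j
  · simp [nu6, fw6]
    ring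
  · simp [nu6, fw6]
    ring
  · simp [nu6, fw6]
    ring

/-- the linear form attached to a weight -/
def E6C_lam (z : Fin 6 → ℤ) : F := ((z 0 : F) * y6 θ 0 + (z 1 : F) * y6 θ 1 +
  (z 2 : F) * y6 θ 2 + (z 3 : F) * y6 θ 3) / 2

theorem E6C_lam_eq (z : Fin 6 → ℤ) : (θ (toQ z) - θ (io6 (toQ z))) / 2 = E6C_lam θ z := by
  rw [E6C_expand θ (toQ z), E6C_expand θ (io6 (toQ z))]
  have e0 : y6 θ 0 = 2 * θ (Pi.single 0 1) := rfl
  have e1 : y6 θ 1 = 2 * θ (Pi.single 1 1) := rfl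
  have e2 : y6 θ 2 = 2 * θ (Pi.single 2 1) := rfl
  have e3 : y6 θ 3 = 2 * θ (Pi.single 3 1) := rfl
  have t : ∀ i, ((toQ z i : ℚ) : F) = (z i : F) := fun i => by simp [toQ]
  have i0 : ((io6 (toQ z) 0 : ℚ) : F) = - (z 0 : F) := by rw [← t]; simp [io6]
  have i1 : ((io6 (toQ z) 1 : ℚ) : F) = - (z 1 : F) := by rw [← t]; simp [io6]
  have i2 : ((io6 (toQ z) 2 : ℚ) : F) = - (z 2 : F) := by rw [← t]; simp [io6]
  have i3 : ((io6 (toQ z) 3 : ℚ) : F) = - (z 3 : F) := by rw [← t]; simp [io6]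
  have i4 : ((io6 (toQ z) 4 : ℚ) : F) = (z 4 : F) := by rw [← t]; simp [io6]
  have i5 : ((io6 (toQ z) 5 : ℚ) : F) = (z 5 : F) := by rw [← t]; simp [io6]
  rw [E6C_lam, e0, e1, e2, e3, t, t, t, t, t, t, i0, i1, i2, i3, i4, i5]
  ring

theorem E6C_sum_lam (j : Fin 3) (k : ℕ) :
    ∑ ω ∈ blk j, ((θ ω - θ (io6 ω)) / 2) ^ k =
      ((E6C_blkZ j).map fun z => E6C_lam θ z ^ k).sum := by
  rw [E6C_sum_blk]
  simp only [E6C_lam_eq]

/-- power sums over the blocks -/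
theorem blk_two (j : Fin 3) :
    ∑ ω ∈ blk j, ((θ ω - θ (io6 ω)) / 2) ^ 2 = 2 * qA (y6 θ) := by
  rw [E6C_sum_lam]
  fin_cases j
  · simp [E6C_blkZ, E6C_lam, qA, qs1]
    ring
  · simp [E6C_blkZ, E6C_lam, qA, qs1]
    ring
  · simp [E6C_blkZ, E6C_lam, qA, qs1]
    ring

theorem blk_four (j : Fin 3) :
    ∑ ω ∈ blk j, ((θ ω - θ (io6 ω)) / 2) ^ 4 = qu (y6 θ) j + qA (y6 θ) ^ 2 := by
  rw [E6C_sum_lam]
  fin_cases j
  · simp [E6C_blkZ, E6C_lam, qA, qs1, qu, qs2, qP]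
    ring
  · simp [E6C_blkZ, E6C_lam, qA, qs1, qu, qs2, qP]
    ring
  · simp [E6C_blkZ, E6C_lam, qA, qs1, qu, qs2, qP]
    ring

theorem blk_six :
    ∑ j, ∑ ω ∈ blk j, ((θ ω - θ (io6 ω)) / 2) ^ 6 =
      18 * qa (y6 θ) + 15 / 8 * qA (y6 θ) ^ 3 := by
  rw [Fin.sum_univ_three, E6C_sum_lam, E6C_sum_lam, E6C_sum_lam]
  simp [E6C_blkZ, E6C_lam, qA, qs1, qa, qs2, qs3]
  ring

end

theorem E6C_fz_inj : Function.Injective E6C_fz := by decide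

theorem E6C_fw6_inj : Function.Injective fw6 := by
  intro i j h
  rw [← E6C_fz_eq, ← E6C_fz_eq] at h
  exact E6C_fz_inj (E6C_toQ_inj h)

theorem E6C {g : V 6 ≃ₗ[ℚ] V 6} (hg : g ∈ W6) (hio : ∀ v, g (io6 v) = io6 (g v)) :
    ∃ p : Equiv.Perm (Fin 3), ∀ (F : Type u) [Field F] [CharZero F] (θ θ' : V 6 →+ F),
      (∀ v, θ' v = θ (g v)) → (∀ j, nu6 θ' j = nu6 θ (p j)) ∧
      (∀ j, qu (y6 θ') j = qu (y6 θ) (p j)) ∧ qA (y6 θ') = qA (y6 θ) ∧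
      qa (y6 θ') = qa (y6 θ) := by
  have h1 : ∀ j, ∃ j', g (fw6 j) = fw6 j' := by
    intro j
    rw [← fw6_iff (W6_wt hg _ (fw6_mem j)), ← hio, (fw6_iff (fw6_mem j)).2 ⟨j, rfl⟩]
  choose f hf using h1
  have hinj : Function.Injective f := by
    intro i j h
    apply E6C_fw6_inj
    apply g.injective
    rw [hf, hf, h]
  obtain ⟨p, hp⟩ : ∃ p : Equiv.Perm (Fin 3), ∀ j, p j = f j :=
    ⟨Equiv.ofBijective f (Finite.injective_iff_bijective.1 hinj), fun _ => rfl⟩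
  have hgp : ∀ j, g (fw6 j) = fw6 (p j) := fun j => by rw [hf, hp]
  have hg' : g⁻¹ ∈ W6 := inv_mem hg
  have hl : ∀ v, g⁻¹ (g v) = v := fun v => g.symm_apply_apply v
  have hr : ∀ v, g (g⁻¹ v) = v := fun v => g.apply_symm_apply v
  have hB : ∀ u v, B6 (g⁻¹ u) v = B6 u (g v) := by
    intro u v
    rw [← W6_B hg, hr]
  have hio' : ∀ v, g⁻¹ (io6 v) = io6 (g⁻¹ v) := by
    intro v
    apply g.injective
    rw [hr, hio, hr]
  have hsum : ∀ (M : Type u) [AddCommMonoid M] (φ : V 6 → M) (j : Fin 3),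
      ∑ ω ∈ blk j, φ (g ω) = ∑ ω ∈ blk (p j), φ ω := by
    intro M _ φ j
    refine Finset.sum_bij' (fun ω _ => g ω) (fun ω _ => g⁻¹ ω) ?_ ?_ ?_ ?_ ?_
    · intro ω hω
      obtain ⟨a1, a2, a3⟩ := Finset.mem_filter.1 hω
      refine Finset.mem_filter.2 ⟨W6_wt hg _ a1, ?_, fun h => a3 ?_⟩
      · rw [← hgp, W6_B hg, a2]
      · rw [← hio] at h
        exact g.injective h
    · intro ω hω
      obtain ⟨a1, a2, a3⟩ := Finset.mem_filter.1 hω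
      refine Finset.mem_filter.2 ⟨W6_wt hg' _ a1, ?_, fun h => a3 ?_⟩
      · rw [hB, hgp, a2]
      · rw [← hio'] at h
        exact (g⁻¹).injective h
    · intro ω _
      exact hl ω
    · intro ω _
      exact hr ω
    · intro ω _
      rfl
  refine ⟨p, fun F _ _ θ θ' hθ => ?_⟩
  have hpow : ∀ (j : Fin 3) (k : ℕ), ∑ ω ∈ blk j, ((θ' ω - θ' (io6 ω)) / 2) ^ k =
      ∑ ω ∈ blk (p j), ((θ ω - θ (io6 ω)) / 2) ^ k := by
    intro j k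
    rw [← hsum F (fun ω => ((θ ω - θ (io6 ω)) / 2) ^ k) j]
    refine Finset.sum_congr rfl fun ω _ => ?_
    rw [hθ, hθ, hio]
  have hA : qA (y6 θ') = qA (y6 θ) := by
    have h2 := hpow 0 2
    rw [blk_two, blk_two] at h2
    exact mul_left_cancel₀ two_ne_zero h2
  refine ⟨fun j => ?_, fun j => ?_, hA, ?_⟩
  · rw [nu6_eq, nu6_eq, hθ, hgp]
  · have h2 := hpow j 4
    rw [blk_four, blk_four, hA] at h2
    exact add_right_cancel h2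
  · have h2 : ∑ j, ∑ ω ∈ blk j, ((θ' ω - θ' (io6 ω)) / 2) ^ 6 =
        ∑ j, ∑ ω ∈ blk j, ((θ ω - θ (io6 ω)) / 2) ^ 6 := by
      rw [← Equiv.sum_comp p (fun j => ∑ ω ∈ blk j, ((θ ω - θ (io6 ω)) / 2) ^ 6)]
      exact Finset.sum_congr rfl fun j _ => hpow j 6
    rw [blk_six, blk_six, hA] at h2
    have h18 : (18 : F) ≠ 0 := by norm_num
    exact mul_left_cancel₀ h18 (add_right_cancel h2)

end CM83
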