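import Mathlib

/-! Module QDefs: invariants of the Weyl group of type `D_4` and the action of the symmetric
group on three letters. Here `y : Fin 4 → F` are the coordinates and `t_i = y_i^2`. -/

namespace CM83

variable {F : Type*} [Field F]

def qs1 (y : Fin 4 → F) : F := y 0 ^ 2 + y 1 ^ 2 + y 2 ^ 2 + y 3 ^ 2

def qs2 (y : Fin 4 → F) : F := y 0 ^ 2 * y 1 ^ 2 + y 0 ^ 2 * y 2 ^ 2 + y 0 ^ 2 * y 3 ^ 2 +
  y 1 ^ 2 * y 2 ^ 2 + y 1 ^ 2 * y 3 ^ 2 + y 2 ^ 2 * y 3 ^ 2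

def qs3 (y : Fin 4 → F) : F := y 0 ^ 2 * y 1 ^ 2 * y 2 ^ 2 + y 0 ^ 2 * y 1 ^ 2 * y 3 ^ 2 +
  y 0 ^ 2 * y 2 ^ 2 * y 3 ^ 2 + y 1 ^ 2 * y 2 ^ 2 * y 3 ^ 2

def qP (y : Fin 4 → F) : F := y 0 * y 1 * y 2 * y 3

/-- invariant of degree two of `W(F_4)` -/
def qA (y : Fin 4 → F) : F := qs1 y

/-- invariant of degree six of `W(F_4)` -/
def qa (y : Fin 4 → F) : F := qs3 y - qs1 y * qs2 y / 6 + qs1 y ^ 3 / 48

/-- the three invariants of degree four of `W(D_4)`, with sum zero, permuted by `W(F_4)` -/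
def qu (y : Fin 4 → F) : Fin 3 → F :=
  ![qs1 y ^ 2 - 4 * qs2 y, - qs1 y ^ 2 / 2 + 2 * qs2 y + 12 * qP y,
    - qs1 y ^ 2 / 2 + 2 * qs2 y - 12 * qP y]

/-- elementary symmetric functions of the `u_j` -/
def qS2 (y : Fin 4 → F) : F := qu y 0 * qu y 1 + qu y 0 * qu y 2 + qu y 1 * qu y 2

def qS3 (y : Fin 4 → F) : F := qu y 0 * qu y 1 * qu y 2

/-- invariants `I`, `J` of the quartic with the zeros `t_i` -/
def qI (y : Fin 4 → F) : F := 12 * qP y ^ 2 - 3 * qs1 y * qs3 y + qs2 y ^ 2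

def qJ (y : Fin 4 → F) : F := 72 * qs2 y * qP y ^ 2 + 9 * qs1 y * qs2 y * qs3 y -
  27 * qs3 y ^ 2 - 27 * qP y ^ 2 * qs1 y ^ 2 - 2 * qs2 y ^ 3

/-- the product of the differences of the `t_i` -/
def qDt (y : Fin 4 → F) : F := (y 0 ^ 2 - y 1 ^ 2) * (y 0 ^ 2 - y 2 ^ 2) * (y 0 ^ 2 - y 3 ^ 2) *
  (y 1 ^ 2 - y 2 ^ 2) * (y 1 ^ 2 - y 3 ^ 2) * (y 2 ^ 2 - y 3 ^ 2)

/-- the product of the differences of the `u_j` -/
def qDu (y : Fin 4 → F) : F := (qu y 0 - qu y 1) * (qu y 0 - qu y 2) * (qu y 1 - qu y 2)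

end CM83
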