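import Pool.Agent.H.MP_83e36b_nt.cm.Defs
import Pool.Agent.H.MP_83e36b_nt.cm.QDefs

/-! Module E6Defs: the Weyl group of type `E_6`, integral model. -/

namespace CM83

/-- the invariant form; roots have norm 24, weights have norm 16 -/
def B6 : V 6 →ₗ[ℚ] V 6 →ₗ[ℚ] ℚ :=
  LinearMap.mk₂ ℚ (fun u v => 3 * (u 0 * v 0 + u 1 * v 1 + u 2 * v 2 + u 3 * v 3 + u 4 * v 4) +
    u 5 * v 5)
    (fun a b c => by simp only [Pi.add_apply]; ring)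
    (fun c a b => by simp only [Pi.smul_apply, smul_eq_mul]; ring)
    (fun a b c => by simp only [Pi.add_apply]; ring)
    (fun c a b => by simp only [Pi.smul_apply, smul_eq_mul]; ring)

theorem B6_apply (u v : V 6) : B6 u v =
    3 * (u 0 * v 0 + u 1 * v 1 + u 2 * v 2 + u 3 * v 3 + u 4 * v 4) + u 5 * v 5 := rfl

/-- the reflection in the root `α` -/
def rf6 (α v : V 6) : V 6 := v - (B6 v α / 12) • α

/-- the simple roots (Bourbaki numbering) -/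
def sr : Fin 6 → V 6 :=
  ![![1, -1, -1, -1, -1, 3], ![2, 2, 0, 0, 0, 0], ![-2, 2, 0, 0, 0, 0], ![0, -2, 2, 0, 0, 0],
    ![0, 0, -2, 2, 0, 0], ![0, 0, 0, -2, 2, 0]]

/-- the Weyl group -/
def W6 : Subgroup (V 6 ≃ₗ[ℚ] V 6) := Subgroup.closure {g | ∃ j, ∀ v, g v = rf6 (sr j) v}

/-- one root of every pair `α`, `-α` -/
def posZ : List (Fin 6 → ℤ) :=
  [![2, 2, 0, 0, 0, 0], ![2, -2, 0, 0, 0, 0], ![2, 0, 2, 0, 0, 0],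
    ![2, 0, -2, 0, 0, 0], ![2, 0, 0, 2, 0, 0], ![2, 0, 0, -2, 0, 0],
    ![2, 0, 0, 0, 2, 0], ![2, 0, 0, 0, -2, 0], ![0, 2, 2, 0, 0, 0],
    ![0, 2, -2, 0, 0, 0], ![0, 2, 0, 2, 0, 0], ![0, 2, 0, -2, 0, 0],
    ![0, 2, 0, 0, 2, 0], ![0, 2, 0, 0, -2, 0], ![0, 0, 2, 2, 0, 0],
    ![0, 0, 2, -2, 0, 0], ![0, 0, 2, 0, 2, 0], ![0, 0, 2, 0, -2, 0],
    ![0, 0, 0, 2, 2, 0], ![0, 0, 0, 2, -2, 0], ![1, 1, 1, 1, 1, 3],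
    ![1, 1, 1, -1, -1, 3], ![1, 1, -1, 1, -1, 3], ![1, 1, -1, -1, 1, 3],
    ![1, -1, 1, 1, -1, 3], ![1, -1, 1, -1, 1, 3], ![1, -1, -1, 1, 1, 3],
    ![1, -1, -1, -1, -1, 3], ![-1, 1, 1, 1, -1, 3], ![-1, 1, 1, -1, 1, 3],
    ![-1, 1, -1, 1, 1, 3], ![-1, 1, -1, -1, -1, 3], ![-1, -1, 1, 1, 1, 3],
    ![-1, -1, 1, -1, -1, 3], ![-1, -1, -1, 1, -1, 3], ![-1, -1, -1, -1, 1, 3]]

/-- the 27 weights -/
def wtZ : List (Fin 6 → ℤ) :=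
  [![0, 0, 0, 0, 0, 4], ![2, 0, 0, 0, 0, -2], ![-2, 0, 0, 0, 0, -2],
    ![0, 2, 0, 0, 0, -2], ![0, -2, 0, 0, 0, -2], ![0, 0, 2, 0, 0, -2],
    ![0, 0, -2, 0, 0, -2], ![0, 0, 0, 2, 0, -2], ![0, 0, 0, -2, 0, -2],
    ![0, 0, 0, 0, 2, -2], ![0, 0, 0, 0, -2, -2], ![1, 1, 1, 1, -1, 1],
    ![1, 1, 1, -1, 1, 1], ![1, 1, -1, 1, 1, 1], ![1, 1, -1, -1, -1, 1],
    ![1, -1, 1, 1, 1, 1], ![1, -1, 1, -1, -1, 1], ![1, -1, -1, 1, -1, 1],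
    ![1, -1, -1, -1, 1, 1], ![-1, 1, 1, 1, 1, 1], ![-1, 1, 1, -1, -1, 1],
    ![-1, 1, -1, 1, -1, 1], ![-1, 1, -1, -1, 1, 1], ![-1, -1, 1, 1, -1, 1],
    ![-1, -1, 1, -1, 1, 1], ![-1, -1, -1, 1, 1, 1], ![-1, -1, -1, -1, -1, 1]]

/-- the rational vector of an integral vector -/
def toQ (v : Fin 6 → ℤ) : V 6 := fun i => (v i : ℚ)

def pos6 : Finset (V 6) := (posZ.map toQ).toFinset

def wt6 : Finset (V 6) := (wtZ.map toQ).toFinset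

/-- the involution `diag(-1,-1,-1,-1,1,1)` -/
def io6 (v : V 6) : V 6 := ![- v 0, - v 1, - v 2, - v 3, v 4, v 5]

section

variable {F : Type*} [Field F]

/-- the coordinates in the four-dimensional part -/
def y6 (θ : V 6 →+ F) (i : Fin 4) : F := 2 * θ (Pi.single (Fin.castLE (by norm_num) i) 1)

/-- the three linear forms with sum zero in the two-dimensional part -/
def nu6 (θ : V 6 →+ F) : Fin 3 → F :=
  ![-2 * θ (Pi.single 5 1), θ (Pi.single 5 1) - θ (Pi.single 4 1),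
    θ (Pi.single 5 1) + θ (Pi.single 4 1)]

def m1 (θ : V 6 →+ F) : F := nu6 θ 0 * qu (y6 θ) 0 + nu6 θ 1 * qu (y6 θ) 1 +
  nu6 θ 2 * qu (y6 θ) 2

def m2 (θ : V 6 →+ F) : F := nu6 θ 0 * qu (y6 θ) 0 ^ 2 + nu6 θ 1 * qu (y6 θ) 1 ^ 2 +
  nu6 θ 2 * qu (y6 θ) 2 ^ 2

end

end CM83
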