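import Pool.Agent.H.MP_83e36b_nt.cm.E6Defs

/-! Module E6Fin: finite facts about the roots and the weights. -/

namespace CM83

/-- integral version of the form -/
def B6Z (u v : Fin 6 → ℤ) : ℤ :=
  3 * (u 0 * v 0 + u 1 * v 1 + u 2 * v 2 + u 3 * v 3 + u 4 * v 4) + u 5 * v 5

/-- integral reflections -/
def E6Fin_rf (a v : Fin 6 → ℤ) : Fin 6 → ℤ := fun i => v i - B6Z v a / 12 * a i

/-- integral simple roots -/
def E6Fin_sr : Fin 6 → (Fin 6 → ℤ) :=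
  ![![1, -1, -1, -1, -1, 3], ![2, 2, 0, 0, 0, 0], ![-2, 2, 0, 0, 0, 0], ![0, -2, 2, 0, 0, 0],
    ![0, 0, -2, 2, 0, 0], ![0, 0, 0, -2, 2, 0]]

theorem E6Fin_inj : Function.Injective toQ := by
  intro u v h
  funext i
  have h1 := congrFun h i
  unfold toQ at h1
  exact_mod_cast h1

theorem E6Fin_neg (v : Fin 6 → ℤ) : toQ (-v) = - toQ v := by
  funext i
  simp [toQ]

theorem E6Fin_B (u v : Fin 6 → ℤ) : B6 (toQ u) (toQ v) = (B6Z u v : ℚ) := by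
  rw [B6_apply]
  unfold toQ B6Z
  push_cast
  ring

theorem E6Fin_rf_toQ {a v : Fin 6 → ℤ} (h : 12 ∣ B6Z v a) :
    rf6 (toQ a) (toQ v) = toQ (E6Fin_rf a v) := by
  obtain ⟨k, hk⟩ := h
  funext i
  unfold rf6 E6Fin_rf
  rw [E6Fin_B, hk]
  simp only [toQ, Pi.sub_apply, Pi.smul_apply, smul_eq_mul]
  have h1 : (12 * k) / 12 = k := by omega
  rw [h1]
  push_cast
  ring

theorem E6Fin_sr_eq (j : Fin 6) : sr j = toQ (E6Fin_sr j) := by
  fin_cases j <;> (funext i; fin_cases i <;> simp [sr, E6Fin_sr, toQ])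

theorem E6Fin_mem (x : V 6) : x ∈ pos6 ↔ ∃ a ∈ posZ, toQ a = x := by
  unfold pos6
  rw [List.mem_toFinset, List.mem_map]

theorem E6Fin_memw (x : V 6) : x ∈ wt6 ↔ ∃ a ∈ wtZ, toQ a = x := by
  unfold wt6
  rw [List.mem_toFinset, List.mem_map]

theorem E6Fin_norm : ∀ a ∈ posZ, B6Z a a = 24 := by decide +kernel

theorem E6Fin_nodup : posZ.Nodup := by decide +kernel

theorem E6Fin_nodupw : wtZ.Nodup := by decide +kernel

theorem E6Fin_negp : ∀ a ∈ posZ, - a ∉ posZ := by decide +kernel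

theorem E6Fin_rw : ∀ a ∈ posZ, ∀ w ∈ wtZ, 12 ∣ B6Z w a ∧ E6Fin_rf a w ∈ wtZ := by
  decide +kernel

theorem E6Fin_rr : ∀ a ∈ posZ, ∀ b ∈ posZ, 12 ∣ B6Z b a ∧
    (E6Fin_rf a b ∈ posZ ∨ - E6Fin_rf a b ∈ posZ) := by
  decide +kernel

theorem E6Fin_srm : ∀ j, E6Fin_sr j ∈ posZ ∨ - E6Fin_sr j ∈ posZ := by
  decide +kernel

/-- the roots in a suitable order -/
def E6Fin_tab : List (Fin 6 → ℤ) :=
  [![1, -1, -1, -1, -1, 3], ![2, 2, 0, 0, 0, 0], ![2, -2, 0, 0, 0, 0],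
    ![0, 2, -2, 0, 0, 0], ![0, 0, 2, -2, 0, 0], ![0, 0, 0, 2, -2, 0],
    ![-1, 1, -1, -1, -1, 3], ![2, 0, 2, 0, 0, 0], ![2, 0, -2, 0, 0, 0],
    ![0, 2, 0, -2, 0, 0], ![0, 0, 2, 0, -2, 0], ![-1, -1, 1, -1, -1, 3],
    ![0, 2, 2, 0, 0, 0], ![2, 0, 0, 2, 0, 0], ![2, 0, 0, -2, 0, 0],
    ![0, 2, 0, 0, -2, 0], ![1, 1, 1, -1, -1, 3], ![-1, -1, -1, 1, -1, 3],
    ![0, 2, 0, 2, 0, 0], ![2, 0, 0, 0, 2, 0], ![2, 0, 0, 0, -2, 0],
    ![1, 1, -1, 1, -1, 3], ![-1, -1, -1, -1, 1, 3], ![0, 0, 2, 2, 0, 0],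
    ![0, 2, 0, 0, 2, 0], ![1, -1, 1, 1, -1, 3], ![1, 1, -1, -1, 1, 3],
    ![0, 0, 2, 0, 2, 0], ![-1, 1, 1, 1, -1, 3], ![1, -1, 1, -1, 1, 3],
    ![0, 0, 0, 2, 2, 0], ![-1, 1, 1, -1, 1, 3], ![1, -1, -1, 1, 1, 3],
    ![-1, 1, -1, 1, 1, 3], ![-1, -1, 1, 1, 1, 3], ![1, 1, 1, 1, 1, 3]]

theorem E6Fin_tab_len : E6Fin_tab.length = 36 := by decide +kernel

theorem E6Fin_tab_mem : ∀ a ∈ posZ, a ∈ E6Fin_tab := by decide +kernel

theorem E6Fin_chain : ∀ i : Fin 36,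
    (∃ j, E6Fin_tab.getD i.val 0 = E6Fin_sr j ∨ E6Fin_tab.getD i.val 0 = - E6Fin_sr j) ∨
    ∃ k : Fin 36, k < i ∧ ∃ j, 12 ∣ B6Z (E6Fin_tab.getD k.val 0) (E6Fin_sr j) ∧
      E6Fin_tab.getD i.val 0 = E6Fin_rf (E6Fin_sr j) (E6Fin_tab.getD k.val 0) := by
  decide +kernel

theorem E6Fin_tr : ∀ w ∈ wtZ, w = ![0, 0, 0, 0, 0, 4] ∨
    (∃ a ∈ posZ, E6Fin_rf a w = ![0, 0, 0, 0, 0, 4]) ∨
    ∃ a ∈ posZ, ∃ b ∈ posZ, E6Fin_rf b (E6Fin_rf a w) = ![0, 0, 0, 0, 0, 4] := by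
  decide +kernel

theorem E6Fin_w0 : toQ ![0, 0, 0, 0, 0, 4] = ![0, 0, 0, 0, 0, 4] := by
  funext i
  fin_cases i <;> simp [toQ]

/-- normal form and sign of a root -/
def E6Fin_nf (v : Fin 6 → ℤ) : Fin 6 → ℤ := if v ∈ posZ then v else - v

def E6Fin_sg (v : Fin 6 → ℤ) : ℤ := if v ∈ posZ then 1 else -1

theorem E6Fin_perm : ∀ j, (posZ.map fun a => E6Fin_nf (E6Fin_rf (E6Fin_sr j) a)).Perm posZ := by
  decide +kernel

theorem E6Fin_sign : ∀ j, (posZ.map fun a => E6Fin_sg (E6Fin_rf (E6Fin_sr j) a)).prod = -1 := by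
  decide +kernel

theorem E6Fin_div : ∀ j, ∀ a ∈ posZ, 12 ∣ B6Z a (E6Fin_sr j) := by
  decide +kernel

theorem pos6_norm : ∀ α ∈ pos6, B6 α α = 24 := by
  intro α hα
  obtain ⟨a, ha, rfl⟩ := (E6Fin_mem α).1 hα
  rw [E6Fin_B, E6Fin_norm a ha]
  norm_num

theorem pos6_card : pos6.card = 36 := by
  unfold pos6
  rw [List.toFinset_card_of_nodup (E6Fin_nodup.map E6Fin_inj), List.length_map]
  rfl

theorem pos6_neg : ∀ α ∈ pos6, - α ∉ pos6 := by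
  intro α hα hn
  obtain ⟨a, ha, rfl⟩ := (E6Fin_mem α).1 hα
  obtain ⟨b, hb, hab⟩ := (E6Fin_mem _).1 hn
  rw [← E6Fin_neg] at hab
  have := E6Fin_inj hab
  rw [this] at hb
  exact E6Fin_negp a ha hb

theorem wt6_card : wt6.card = 27 := by
  unfold wt6
  rw [List.toFinset_card_of_nodup (E6Fin_nodupw.map E6Fin_inj), List.length_map]
  rfl

/-- reflections preserve the weights -/
theorem rf6_wt : ∀ α ∈ pos6, ∀ ω ∈ wt6, rf6 α ω ∈ wt6 := by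
  intro α hα ω hω
  obtain ⟨a, ha, rfl⟩ := (E6Fin_mem α).1 hα
  obtain ⟨w, hw, rfl⟩ := (E6Fin_memw ω).1 hω
  obtain ⟨h1, h2⟩ := E6Fin_rw a ha w hw
  rw [E6Fin_rf_toQ h1, E6Fin_memw]
  exact ⟨_, h2, rfl⟩

/-- reflections preserve the roots -/
theorem rf6_root : ∀ α ∈ pos6, ∀ β ∈ pos6, rf6 α β ∈ pos6 ∨ - rf6 α β ∈ pos6 := by
  intro α hα β hβ
  obtain ⟨a, ha, rfl⟩ := (E6Fin_mem α).1 hα
  obtain ⟨b, hb, rfl⟩ := (E6Fin_mem β).1 hβ
  obtain ⟨h1, h2⟩ := E6Fin_rr a ha b hb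
  rw [E6Fin_rf_toQ h1, ← E6Fin_neg, E6Fin_mem, E6Fin_mem]
  rcases h2 with h2 | h2
  · exact Or.inl ⟨_, h2, rfl⟩
  · exact Or.inr ⟨_, h2, rfl⟩

/-- the simple roots are roots -/
theorem sr_mem : ∀ j, sr j ∈ pos6 ∨ - sr j ∈ pos6 := by
  intro j
  rw [E6Fin_sr_eq, ← E6Fin_neg, E6Fin_mem, E6Fin_mem]
  rcases E6Fin_srm j with h2 | h2
  · exact Or.inl ⟨_, h2, rfl⟩
  · exact Or.inr ⟨_, h2, rfl⟩

/-- every root is obtained from the simple roots by simple reflections -/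
theorem pos6_induction (P : V 6 → Prop) (h0 : ∀ j, P (sr j)) (hneg : ∀ v, P v → P (- v))
    (hs : ∀ v j, P v → P (rf6 (sr j) v)) : ∀ α ∈ pos6, P α := by
  have key : ∀ n : ℕ, n < 36 → P (toQ (E6Fin_tab.getD n 0)) := by
    intro n
    induction n using Nat.strong_induction_on with
    | _ n ih =>
      intro hn
      rcases E6Fin_chain ⟨n, hn⟩ with ⟨j, h1 | h1⟩ | ⟨k, hk, j, h2, h3⟩
      · rw [h1, ← E6Fin_sr_eq]
        exact h0 j
      · rw [h1, E6Fin_neg, ← E6Fin_sr_eq]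
        exact hneg _ (h0 j)
      · have h4 := ih k.val hk k.isLt
        have h5 := hs _ j h4
        rw [E6Fin_sr_eq, E6Fin_rf_toQ h2] at h5
        rw [h3]
        exact h5
  intro α hα
  obtain ⟨a, ha, rfl⟩ := (E6Fin_mem α).1 hα
  obtain ⟨n, hn, h1⟩ := List.mem_iff_getElem.1 (E6Fin_tab_mem a ha)
  have h2 := key n (by rw [← E6Fin_tab_len]; exact hn)
  rw [List.getD_eq_getElem _ _ hn, h1] at h2
  exact h2

/-- every weight is moved to the first one by at most two reflections in roots -/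
theorem wt6_trans : ∀ ω ∈ wt6, ω = ![0, 0, 0, 0, 0, 4] ∨
    (∃ α ∈ pos6, rf6 α ω = ![0, 0, 0, 0, 0, 4]) ∨
    ∃ α ∈ pos6, ∃ β ∈ pos6, rf6 β (rf6 α ω) = ![0, 0, 0, 0, 0, 4] := by
  intro ω hω
  obtain ⟨w, hw, rfl⟩ := (E6Fin_memw ω).1 hω
  rcases E6Fin_tr w hw with h | ⟨a, ha, h⟩ | ⟨a, ha, b, hb, h⟩
  · left
    rw [h, E6Fin_w0]
  · right; left
    obtain ⟨h1, h2⟩ := E6Fin_rw a ha w hw
    exact ⟨toQ a, (E6Fin_mem _).2 ⟨a, ha, rfl⟩, by rw [E6Fin_rf_toQ h1, h, E6Fin_w0]⟩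
  · right; right
    obtain ⟨h1, h2⟩ := E6Fin_rw a ha w hw
    obtain ⟨h3, h4⟩ := E6Fin_rw b hb _ h2
    exact ⟨toQ a, (E6Fin_mem _).2 ⟨a, ha, rfl⟩, toQ b, (E6Fin_mem _).2 ⟨b, hb, rfl⟩, by
      rw [E6Fin_rf_toQ h1, E6Fin_rf_toQ h3, h, E6Fin_w0]⟩

theorem E6Fin_prod {F : Type*} [Field F] (f : V 6 → F) :
    ∏ α ∈ pos6, f α = (posZ.map fun a => f (toQ a)).prod := by
  unfold pos6
  rw [List.prod_toFinset _ (E6Fin_nodup.map E6Fin_inj), List.map_map]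
  rfl

theorem E6Fin_listprod {F : Type*} [Field F] (l : List (Fin 6 → ℤ)) (g : (Fin 6 → ℤ) → ℤ)
    (h : (Fin 6 → ℤ) → F) :
    (l.map fun a => ((g a : ℤ) : F) * h a).prod =
      (((l.map g).prod : ℤ) : F) * (l.map h).prod := by
  induction l with
  | nil => simp
  | cons a l ih =>
    simp only [List.map_cons, List.prod_cons, ih]
    push_cast
    ring

/-- a simple reflection changes the sign of the product of the roots -/
theorem prod_sr {F : Type*} [Field F] (ξ : V 6 →+ F) (j : Fin 6) :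
    ∏ α ∈ pos6, ξ (rf6 (sr j) α) = - ∏ α ∈ pos6, ξ α := by
  rw [E6Fin_prod (fun α => ξ (rf6 (sr j) α)), E6Fin_prod (fun α => ξ α)]
  have h1 : (posZ.map fun a => ξ (rf6 (sr j) (toQ a))) =
      posZ.map fun a => ((E6Fin_sg (E6Fin_rf (E6Fin_sr j) a) : ℤ) : F) *
        ξ (toQ (E6Fin_nf (E6Fin_rf (E6Fin_sr j) a))) := by
    apply List.map_congr_left
    intro a ha
    rw [E6Fin_sr_eq, E6Fin_rf_toQ (E6Fin_div j a ha)]
    unfold E6Fin_sg E6Fin_nf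
    split_ifs
    · simp
    · rw [E6Fin_neg, map_neg]
      simp
  rw [h1, E6Fin_listprod posZ (fun a => E6Fin_sg (E6Fin_rf (E6Fin_sr j) a))
    (fun a => ξ (toQ (E6Fin_nf (E6Fin_rf (E6Fin_sr j) a)))), E6Fin_sign j]
  have h2 : (posZ.map fun a => ξ (toQ (E6Fin_nf (E6Fin_rf (E6Fin_sr j) a)))).prod =
      (posZ.map fun a => ξ (toQ a)).prod := by
    have h3 := ((E6Fin_perm j).map (fun v => ξ (toQ v))).prod_eq
    rw [List.map_map] at h3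
    exact h3
  rw [h2]
  simp

theorem E6Fin_single (i : Fin 6) : (Pi.single i 1 : V 6) ∈ Submodule.span ℚ (wt6 : Set (V 6)) := by
  have hm : ∀ w ∈ wtZ, toQ w ∈ Submodule.span ℚ (wt6 : Set (V 6)) := fun w hw =>
    Submodule.subset_span (Finset.mem_coe.2 ((E6Fin_memw _).2 ⟨w, hw, rfl⟩))
  have h5 := hm ![0, 0, 0, 0, 0, 4] (by decide +kernel)
  have key : ∀ u v : Fin 6 → ℤ, u ∈ wtZ → v ∈ wtZ → toQ u - toQ v = (4 : ℚ) • Pi.single i 1 →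
      (Pi.single i 1 : V 6) ∈ Submodule.span ℚ (wt6 : Set (V 6)) := by
    intro u v hu hv h
    have h1 : (Pi.single i 1 : V 6) = (1 / 4 : ℚ) • (toQ u - toQ v) := by
      rw [h, smul_smul]
      norm_num
    rw [h1]
    exact Submodule.smul_mem _ _ (Submodule.sub_mem _ (hm u hu) (hm v hv))
  fin_cases i
  · exact key ![2, 0, 0, 0, 0, -2] ![-2, 0, 0, 0, 0, -2] (by decide +kernel) (by decide +kernel)
      (by funext k; fin_cases k <;> simp [toQ, Pi.single_apply] <;> norm_num)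
  · exact key ![0, 2, 0, 0, 0, -2] ![0, -2, 0, 0, 0, -2] (by decide +kernel) (by decide +kernel)
      (by funext k; fin_cases k <;> simp [toQ, Pi.single_apply] <;> norm_num)
  · exact key ![0, 0, 2, 0, 0, -2] ![0, 0, -2, 0, 0, -2] (by decide +kernel) (by decide +kernel)
      (by funext k; fin_cases k <;> simp [toQ, Pi.single_apply] <;> norm_num)
  · exact key ![0, 0, 0, 2, 0, -2] ![0, 0, 0, -2, 0, -2] (by decide +kernel) (by decide +kernel)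
      (by funext k; fin_cases k <;> simp [toQ, Pi.single_apply] <;> norm_num)
  · exact key ![0, 0, 0, 0, 2, -2] ![0, 0, 0, 0, -2, -2] (by decide +kernel) (by decide +kernel)
      (by funext k; fin_cases k <;> simp [toQ, Pi.single_apply] <;> norm_num)
  · have h1 : (Pi.single 5 1 : V 6) = (1 / 4 : ℚ) • toQ ![0, 0, 0, 0, 0, 4] := by
      funext k
      fin_cases k <;> simp [toQ, Pi.single_apply]
    show (Pi.single 5 1 : V 6) ∈ _
    rw [h1]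
    exact Submodule.smul_mem _ _ h5

/-- the weights span the space -/
theorem wt6_span : Submodule.span ℚ (wt6 : Set (V 6)) = ⊤ := by
  rw [Submodule.eq_top_iff']
  intro v
  have h1 : v = ∑ i, v i • (Pi.single i 1 : V 6) := by
    funext k
    rw [Finset.sum_apply]
    simp [Pi.single_apply]
  rw [h1]
  exact Submodule.sum_mem _ fun i _ => Submodule.smul_mem _ _ (E6Fin_single i)

end CM83
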