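import Pool.Agent.H.MP_83e36b_nt.cm.E6Fin

/-! Module E6Grp: the group. -/

namespace CM83

theorem E6Grp_symm (u v : V 6) : B6 u v = B6 v u := by
  rw [B6_apply, B6_apply]
  ring

theorem E6Grp_sub_left (u v w : V 6) : B6 (u - v) w = B6 u w - B6 v w := by
  rw [map_sub, LinearMap.sub_apply]

theorem E6Grp_smul_left (c : ℚ) (u v : V 6) : B6 (c • u) v = c * B6 u v := by
  rw [map_smul, LinearMap.smul_apply, smul_eq_mul]

theorem rf6_add (α u v : V 6) : rf6 α (u + v) = rf6 α u + rf6 α v := by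
  unfold rf6
  rw [map_add, LinearMap.add_apply, add_div, add_smul]
  abel

theorem E6Grp_smul (α : V 6) (c : ℚ) (v : V 6) : rf6 α (c • v) = c • rf6 α v := by
  unfold rf6
  rw [E6Grp_smul_left, smul_sub, smul_smul, mul_div_assoc]

theorem E6Grp_B {α : V 6} (h : B6 α α = 24) (v : V 6) : B6 (rf6 α v) α = - B6 v α := by
  unfold rf6
  rw [E6Grp_sub_left, E6Grp_smul_left, h]
  ring

theorem rf6_invol {α : V 6} (h : B6 α α = 24) (v : V 6) : rf6 α (rf6 α v) = v := by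
  have h1 := E6Grp_B h v
  have h2 : rf6 α (rf6 α v) = rf6 α v - (B6 (rf6 α v) α / 12) • α := rfl
  rw [h2, h1, neg_div, neg_smul, sub_neg_eq_add]
  unfold rf6
  rw [sub_add_cancel]

theorem B6_rf6 {α : V 6} (h : B6 α α = 24) (u v : V 6) : B6 (rf6 α u) (rf6 α v) = B6 u v := by
  have h1 : B6 (rf6 α u) (rf6 α v) = B6 (rf6 α u) v - (B6 v α / 12) * B6 (rf6 α u) α := by
    have : rf6 α v = v - (B6 v α / 12) • α := rfl
    rw [this, map_sub, map_smul, smul_eq_mul]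
  have h2 : B6 (rf6 α u) v = B6 u v - (B6 u α / 12) * B6 α v := by
    unfold rf6
    rw [E6Grp_sub_left, E6Grp_smul_left]
  rw [h1, h2, E6Grp_B h, E6Grp_symm α v]
  ring

theorem E6Grp_neg (α v : V 6) : rf6 (-α) v = rf6 α v := by
  unfold rf6
  rw [map_neg, neg_div, neg_smul_neg]

theorem E6Grp_neg_right (α v : V 6) : rf6 α (-v) = - rf6 α v := by
  have := E6Grp_smul α (-1) v
  rwa [neg_one_smul, neg_one_smul] at this

theorem E6Grp_sr_norm (j : Fin 6) : B6 (sr j) (sr j) = 24 := by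
  rcases sr_mem j with h | h
  · exact pos6_norm _ h
  · have := pos6_norm _ h
    rwa [map_neg, map_neg, LinearMap.neg_apply, neg_neg] at this

theorem E6Grp_inv_apply (g : V 6 ≃ₗ[ℚ] V 6) (u : V 6) : g (g⁻¹ u) = u := by
  have := congrArg (fun h : V 6 ≃ₗ[ℚ] V 6 => h u) (mul_inv_cancel g)
  exact this

theorem E6Grp_inv_apply' (g : V 6 ≃ₗ[ℚ] V 6) (u : V 6) : g⁻¹ (g u) = u := by
  have := congrArg (fun h : V 6 ≃ₗ[ℚ] V 6 => h u) (inv_mul_cancel g)
  exact this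

theorem W6_B {g : V 6 ≃ₗ[ℚ] V 6} (hg : g ∈ W6) (u v : V 6) : B6 (g u) (g v) = B6 u v := by
  have key : ∀ u v : V 6, B6 (g u) (g v) = B6 u v := by
    refine Subgroup.closure_induction
      (p := fun (g : V 6 ≃ₗ[ℚ] V 6) _ => ∀ u v : V 6, B6 (g u) (g v) = B6 u v) ?_ ?_ ?_ ?_ hg
    · rintro g ⟨j, hj⟩ u v
      rw [hj, hj]
      exact B6_rf6 (E6Grp_sr_norm j) u v
    · intro u v
      rfl
    · intro g h _ _ hg hh u v
      exact (hg (h u) (h v)).trans (hh u v)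
    · intro g _ hg u v
      have h1 := hg (g⁻¹ u) (g⁻¹ v)
      rw [E6Grp_inv_apply, E6Grp_inv_apply] at h1
      exact h1.symm
  exact key u v

/-- a finite set mapped into itself by a linear automorphism is mapped onto itself -/
theorem E6Grp_onto (s : Finset (V 6)) (g : V 6 ≃ₗ[ℚ] V 6) (h : ∀ v ∈ s, g v ∈ s) :
    ∀ v ∈ s, g⁻¹ v ∈ s := by
  have h1 : s.image g = s := by
    apply Finset.eq_of_subset_of_card_le
    · intro v hv
      obtain ⟨w, hw, rfl⟩ := Finset.mem_image.1 hv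
      exact h w hw
    · rw [Finset.card_image_of_injective _ g.injective]
  intro v hv
  rw [← h1] at hv
  obtain ⟨w, hw, rfl⟩ := Finset.mem_image.1 hv
  rw [E6Grp_inv_apply']
  exact hw

/-- a finite set preserved by the simple reflections is preserved by the group -/
theorem E6Grp_closure (s : Finset (V 6)) (h : ∀ j, ∀ v ∈ s, rf6 (sr j) v ∈ s)
    {g : V 6 ≃ₗ[ℚ] V 6} (hg : g ∈ W6) : ∀ v ∈ s, g v ∈ s := by
  refine Subgroup.closure_induction
    (p := fun (g : V 6 ≃ₗ[ℚ] V 6) _ => ∀ v ∈ s, g v ∈ s) ?_ ?_ ?_ ?_ hg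
  · rintro g ⟨j, hj⟩ v hv
    rw [hj]
    exact h j v hv
  · intro v hv
    exact hv
  · intro g k _ _ hg hk v hv
    exact hg _ (hk v hv)
  · intro g _ hg
    exact E6Grp_onto s g hg

theorem W6_wt {g : V 6 ≃ₗ[ℚ] V 6} (hg : g ∈ W6) : ∀ ω ∈ wt6, g ω ∈ wt6 := by
  refine E6Grp_closure wt6 ?_ hg
  intro j v hv
  rcases sr_mem j with h | h
  · exact rf6_wt _ h v hv
  · have := rf6_wt _ h v hv
    rwa [E6Grp_neg] at this

/-- all roots -/
def E6Grp_R : Finset (V 6) := pos6 ∪ pos6.image (fun v => -v)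

theorem E6Grp_mem_R (v : V 6) : v ∈ E6Grp_R ↔ v ∈ pos6 ∨ -v ∈ pos6 := by
  unfold E6Grp_R
  rw [Finset.mem_union, Finset.mem_image]
  constructor
  · rintro (h | ⟨w, hw, rfl⟩)
    · exact Or.inl h
    · exact Or.inr (by rwa [neg_neg])
  · rintro (h | h)
    · exact Or.inl h
    · exact Or.inr ⟨-v, h, neg_neg v⟩

theorem W6_root {g : V 6 ≃ₗ[ℚ] V 6} (hg : g ∈ W6) :
    ∀ α ∈ pos6, g α ∈ pos6 ∨ - g α ∈ pos6 := by
  have key : ∀ v ∈ E6Grp_R, g v ∈ E6Grp_R := by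
    refine E6Grp_closure E6Grp_R ?_ hg
    have h0 : ∀ j, ∀ v ∈ pos6, rf6 (sr j) v ∈ pos6 ∨ - rf6 (sr j) v ∈ pos6 := by
      intro j v hv
      rcases sr_mem j with h | h
      · exact rf6_root _ h v hv
      · have := rf6_root _ h v hv
        rwa [E6Grp_neg] at this
    intro j v hv
    rw [E6Grp_mem_R] at hv ⊢
    rcases hv with hv | hv
    · exact h0 j v hv
    · have := h0 j _ hv
      rw [E6Grp_neg_right, neg_neg] at this
      exact this.symm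
  intro α hα
  have := key α ((E6Grp_mem_R α).2 (Or.inl hα))
  exact (E6Grp_mem_R _).1 this

/-- the reflection as a linear automorphism -/
def E6Grp_E (α : V 6) (h : B6 α α = 24) : V 6 ≃ₗ[ℚ] V 6 where
  toFun := rf6 α
  map_add' := rf6_add α
  map_smul' := E6Grp_smul α
  invFun := rf6 α
  left_inv := rf6_invol h
  right_inv := rf6_invol h

theorem E6Grp_E_apply (α : V 6) (h : B6 α α = 24) (v : V 6) : E6Grp_E α h v = rf6 α v := rfl

theorem E6Grp_E_mem (j : Fin 6) : E6Grp_E (sr j) (E6Grp_sr_norm j) ∈ W6 :=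
  Subgroup.subset_closure ⟨j, fun _ => rfl⟩

/-- conjugation of a reflection -/
theorem E6Grp_conj (g : V 6 → V 6) (hadd : ∀ u v, g (u - v) = g u - g v)
    (hsmul : ∀ (c : ℚ) v, g (c • v) = c • g v) (hB : ∀ u v, B6 (g u) (g v) = B6 u v)
    (α x y : V 6) (hy : g y = x) : g (rf6 α y) = rf6 (g α) x := by
  unfold rf6
  rw [hadd, hsmul, hy, ← hB y α, hy]

/-- all reflections in roots belong to the group -/
theorem rf6_mem : ∀ α ∈ pos6, ∃ g ∈ W6, ∀ v, g v = rf6 α v := by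
  have key : ∀ α ∈ pos6, B6 α α = 24 ∧ ∃ g ∈ W6, ∀ v, g v = rf6 α v := by
    apply pos6_induction (fun α => B6 α α = 24 ∧ ∃ g ∈ W6, ∀ v, g v = rf6 α v)
    · intro j
      exact ⟨E6Grp_sr_norm j, _, E6Grp_E_mem j, fun _ => rfl⟩
    · rintro v ⟨h1, g, hg, h2⟩
      refine ⟨?_, g, hg, ?_⟩
      · rw [map_neg, map_neg, LinearMap.neg_apply, neg_neg]
        exact h1
      · intro x
        rw [E6Grp_neg]
        exact h2 x
    · rintro v j ⟨h1, g, hg, h2⟩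
      refine ⟨?_, E6Grp_E (sr j) (E6Grp_sr_norm j) * g * E6Grp_E (sr j) (E6Grp_sr_norm j),
        W6.mul_mem (W6.mul_mem (E6Grp_E_mem j) hg) (E6Grp_E_mem j), ?_⟩
      · rw [B6_rf6 (E6Grp_sr_norm j)]
        exact h1
      · intro x
        change rf6 (sr j) (g (rf6 (sr j) x)) = _
        rw [h2]
        refine E6Grp_conj (rf6 (sr j)) ?_ (E6Grp_smul _) (B6_rf6 (E6Grp_sr_norm j)) v x _
          (rf6_invol (E6Grp_sr_norm j) x)
        intro u w
        rw [sub_eq_add_neg, rf6_add, E6Grp_neg_right, ← sub_eq_add_neg]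
  intro α hα
  exact (key α hα).2

theorem W6_trans : ∀ ω ∈ wt6, ∃ g ∈ W6, g ω = ![0, 0, 0, 0, 0, 4] := by
  intro ω hω
  rcases wt6_trans ω hω with h | ⟨α, hα, h⟩ | ⟨α, hα, β, hβ, h⟩
  · exact ⟨1, W6.one_mem, h⟩
  · obtain ⟨g, hg, hg'⟩ := rf6_mem α hα
    exact ⟨g, hg, by rw [hg', h]⟩
  · obtain ⟨g, hg, hg'⟩ := rf6_mem α hα
    obtain ⟨k, hk, hk'⟩ := rf6_mem β hβ
    refine ⟨k * g, W6.mul_mem hk hg, ?_⟩
    change k (g ω) = _
    rw [hk', hg', h]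

theorem W6_finite : Finite W6 := by
  let f : W6 → (wt6 → wt6) := fun g ω => ⟨(g : V 6 ≃ₗ[ℚ] V 6) ω, W6_wt g.2 ω ω.2⟩
  apply Finite.of_injective f
  intro g h hgh
  apply Subtype.ext
  apply LinearEquiv.toLinearMap_injective
  apply LinearMap.ext_on wt6_span
  intro ω hω
  have h1 := congrFun hgh ⟨ω, hω⟩
  exact congrArg Subtype.val h1

theorem E6Grp_pos (v : V 6) (hv : v ≠ 0) : 0 < B6 v v := by
  rw [B6_apply]
  by_contra hcon
  apply hv
  have h0 := mul_self_nonneg (v 0)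
  have h1 := mul_self_nonneg (v 1)
  have h2 := mul_self_nonneg (v 2)
  have h3 := mul_self_nonneg (v 3)
  have h4 := mul_self_nonneg (v 4)
  have h5 := mul_self_nonneg (v 5)
  have z0 : v 0 = 0 := mul_self_eq_zero.1 (le_antisymm (by linarith) h0)
  have z1 : v 1 = 0 := mul_self_eq_zero.1 (le_antisymm (by linarith) h1)
  have z2 : v 2 = 0 := mul_self_eq_zero.1 (le_antisymm (by linarith) h2)
  have z3 : v 3 = 0 := mul_self_eq_zero.1 (le_antisymm (by linarith) h3)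
  have z4 : v 4 = 0 := mul_self_eq_zero.1 (le_antisymm (by linarith) h4)
  have z5 : v 5 = 0 := mul_self_eq_zero.1 (le_antisymm (by linarith) h5)
  funext i
  fin_cases i
  · exact z0
  · exact z1
  · exact z2
  · exact z3
  · exact z4
  · exact z5

/-- the root of a reflection -/
theorem E6Grp_exists_a : ∃ a : W6 → V 6, ∀ s : W6,
    (∃ α ∈ pos6, ∀ v, (s : V 6 ≃ₗ[ℚ] V 6) v = rf6 α v) →
      a s ∈ pos6 ∧ ∀ v, (s : V 6 ≃ₗ[ℚ] V 6) v = rf6 (a s) v := by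
  classical
  refine ⟨fun s => if h : ∃ α ∈ pos6, ∀ v, (s : V 6 ≃ₗ[ℚ] V 6) v = rf6 α v then h.choose else 0,
    ?_⟩
  intro s hs
  simp only [dif_pos hs]
  exact hs.choose_spec

/-- the reflection data -/
theorem exists_R6 : ∃ R : RD 6 W6, (∀ g : W6, ∀ v, R.ρ g v = (g : V 6 ≃ₗ[ℚ] V 6) v) ∧
    (∀ u v, R.B u v = B6 u v) ∧
    (∀ s : W6, s ∈ R.S ↔ ∃ α ∈ pos6, ∀ v, (s : V 6 ≃ₗ[ℚ] V 6) v = rf6 α v) ∧
    (∀ s ∈ R.S, R.a s ∈ pos6 ∧ ∀ v, (s : V 6 ≃ₗ[ℚ] V 6) v = rf6 (R.a s) v) := by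
  classical
  have hfin := W6_finite
  let _ : Fintype W6 := Fintype.ofFinite W6
  obtain ⟨a, ha⟩ := E6Grp_exists_a
  let S : Finset W6 := Finset.univ.filter
    (fun s => ∃ α ∈ pos6, ∀ v, (s : V 6 ≃ₗ[ℚ] V 6) v = rf6 α v)
  have hS : ∀ s : W6, s ∈ S ↔ ∃ α ∈ pos6, ∀ v, (s : V 6 ≃ₗ[ℚ] V 6) v = rf6 α v := by
    intro s
    simp only [S, Finset.mem_filter, Finset.mem_univ, true_and]
  let ρ : W6 →* Module.End ℚ (V 6) :=
    (LinearEquiv.automorphismGroup.toLinearMapMonoidHom (R := ℚ) (M := V 6)).comp W6.subtype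
  have hρ : ∀ g : W6, ∀ v, ρ g v = (g : V 6 ≃ₗ[ℚ] V 6) v := fun g v => rfl
  refine ⟨{
    ρ := ρ
    inj := ?_
    B := B6
    symm := E6Grp_symm
    pos := E6Grp_pos
    inv := fun g u v => W6_B g.2 u v
    S := S
    a := a
    a_ne := ?_
    refl := ?_
    conj := ?_ }, hρ, fun _ _ => rfl, hS, fun s hs => ha s ((hS s).1 hs)⟩
  · intro g h hgh
    apply Subtype.ext
    apply LinearEquiv.ext
    intro v
    rw [← hρ, ← hρ, hgh]
  · intro s hs h0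
    have h1 := pos6_norm _ (ha s ((hS s).1 hs)).1
    rw [h0, map_zero] at h1
    norm_num at h1
  · intro s hs v
    obtain ⟨h1, h2⟩ := ha s ((hS s).1 hs)
    rw [hρ, h2, pos6_norm _ h1]
    unfold rf6
    congr 2
    ring
  · intro g s hs
    rw [hS] at hs ⊢
    obtain ⟨α, hα, h⟩ := hs
    have key : ∀ v, ((g * s * g⁻¹ : W6) : V 6 ≃ₗ[ℚ] V 6) v =
        rf6 ((g : V 6 ≃ₗ[ℚ] V 6) α) v := by
      intro v
      change (g : V 6 ≃ₗ[ℚ] V 6) ((s : V 6 ≃ₗ[ℚ] V 6) ((g : V 6 ≃ₗ[ℚ] V 6)⁻¹ v)) = _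
      rw [h]
      exact E6Grp_conj (g : V 6 ≃ₗ[ℚ] V 6) (map_sub _) (map_smul _)
        (fun u v => W6_B g.2 u v) α v _ (E6Grp_inv_apply _ v)
    rcases W6_root g.2 α hα with h1 | h1
    · exact ⟨_, h1, key⟩
    · refine ⟨_, h1, fun v => ?_⟩
      rw [E6Grp_neg]
      exact key v

end CM83
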