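import Pool.Agent.H.MP_83e36b_nt.cm.E6Grp
import Pool.Agent.H.MP_83e36b_nt.cm.Chi

/-! Module E6RD: the reflection data of the Weyl group of type `E_6`. -/

namespace CM83

/-- the reflection data -/
noncomputable def R6 : RD 6 W6 := exists_R6.choose

theorem R6_ρ (g : W6) (v : V 6) : R6.ρ g v = (g : V 6 ≃ₗ[ℚ] V 6) v :=
  exists_R6.choose_spec.1 g v

theorem R6_B (u v : V 6) : R6.B u v = B6 u v := exists_R6.choose_spec.2.1 u v

theorem R6_S (s : W6) : s ∈ R6.S ↔ ∃ α ∈ pos6, ∀ v, (s : V 6 ≃ₗ[ℚ] V 6) v = rf6 α v :=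
  exists_R6.choose_spec.2.2.1 s

theorem R6_a {s : W6} (hs : s ∈ R6.S) :
    R6.a s ∈ pos6 ∧ ∀ v, (s : V 6 ≃ₗ[ℚ] V 6) v = rf6 (R6.a s) v :=
  exists_R6.choose_spec.2.2.2 s hs

theorem e6rd_inj {s t : W6} (hs : s ∈ R6.S) (ht : t ∈ R6.S) (h : R6.a s = R6.a t) : s = t := by
  apply Subtype.ext
  apply LinearEquiv.ext
  intro v
  rw [(R6_a hs).2 v, (R6_a ht).2 v, h]

theorem e6rd_surj {α : V 6} (hα : α ∈ pos6) : ∃ s ∈ R6.S, R6.a s = α := by
  obtain ⟨g, hg, hgv⟩ := rf6_mem α hα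
  have hs : (⟨g, hg⟩ : W6) ∈ R6.S := (R6_S _).mpr ⟨α, hα, hgv⟩
  refine ⟨⟨g, hg⟩, hs, ?_⟩
  obtain ⟨ha, hav⟩ := R6_a hs
  generalize R6.a ⟨g, hg⟩ = b at ha hav
  have h1 : rf6 α α = rf6 b α := by rw [← hgv α]; exact hav α
  have hn := pos6_norm α hα
  have hb := pos6_norm b ha
  unfold rf6 at h1
  rw [hn] at h1
  have h2 : α = (B6 α b / 24) • b := by
    have h3 : (2 : ℚ) • α = (B6 α b / 12) • b := by
      have h4 : (24 / 12 : ℚ) = 2 := by norm_num
      rw [h4] at h1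
      exact sub_right_injective h1
    have h5 : α = (2⁻¹ : ℚ) • ((2 : ℚ) • α) := by
      rw [smul_smul]; norm_num
    calc α = (2⁻¹ : ℚ) • ((2 : ℚ) • α) := h5
      _ = (2⁻¹ : ℚ) • ((B6 α b / 12) • b) := by rw [h3]
      _ = (B6 α b / 24) • b := by
        rw [smul_smul]
        congr 1
        ring
  generalize B6 α b / 24 = c at h2
  have h6 : c * c = 1 := by
    have h7 : B6 α α = c * c * B6 b b := by
      rw [h2]
      simp only [map_smul, LinearMap.smul_apply, smul_eq_mul]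
      ring
    rw [hn, hb] at h7
    linarith
  rcases mul_self_eq_one_iff.mp h6 with h8 | h8
  · rw [h8, one_smul] at h2
    exact h2.symm
  · rw [h8, neg_one_smul] at h2
    exfalso
    apply pos6_neg b ha
    rw [← h2]
    exact hα

/-- products over the reflections are products over the roots -/
theorem R6_prod {M : Type*} [CommMonoid M] (f : V 6 → M) :
    ∏ s ∈ R6.S, f (R6.a s) = ∏ α ∈ pos6, f α := by
  refine Finset.prod_bij (fun s _ => R6.a s) (fun s hs => (R6_a hs).1)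
    (fun s hs t ht h => e6rd_inj hs ht h) (fun α hα => ?_) (fun _ _ => rfl)
  obtain ⟨s, hs, h⟩ := e6rd_surj hα
  exact ⟨s, hs, h⟩

theorem R6_card : R6.S.card = 36 := by
  rw [← pos6_card]
  refine Finset.card_bij (fun s _ => R6.a s) (fun s hs => (R6_a hs).1)
    (fun s hs t ht h => e6rd_inj hs ht h) (fun α hα => ?_)
  obtain ⟨s, hs, h⟩ := e6rd_surj hα
  exact ⟨s, hs, h⟩

/-- simple reflections have sign minus one -/
theorem R6_chi {g : W6} {j : Fin 6} (hg : ∀ v, (g : V 6 ≃ₗ[ℚ] V 6) v = rf6 (sr j) v) :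
    R6.chi g = -1 := by
  obtain ⟨ξ, hξ⟩ := exists_real_inj 6
  have h1 := R6.chi_spec ξ g
  have h0 := R6.chi_prod_ne ξ hξ
  rw [R6_prod (fun v => ξ (R6.ρ g v)), R6_prod (fun v => ξ v)] at h1
  rw [R6_prod (fun v => ξ v)] at h0
  have h2 : ∏ α ∈ pos6, ξ (R6.ρ g α) = - ∏ α ∈ pos6, ξ α := by
    rw [← prod_sr ξ j]
    refine Finset.prod_congr rfl fun α _ => ?_
    rw [R6_ρ, hg]
  rw [h2, ← neg_one_mul] at h1
  have h3 := mul_right_cancel₀ h0 h1
  have h4 : ((R6.chi g : ℚ) : ℝ) = ((-1 : ℚ) : ℝ) := by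
    rw [← h3]; norm_num
  exact_mod_cast h4

/-- every root is the root of a reflection -/
theorem R6_surj {α : V 6} (hα : α ∈ pos6) : ∃ s ∈ R6.S, R6.a s = α := e6rd_surj hα

end CM83
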