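import Mathlib

/-! Module JE: common eigenvectors. -/

namespace CM83

theorem joint_eigen_aux {F M ι : Type*} [Field F] [IsAlgClosed F] [AddCommGroup M] [Module F M]
    [FiniteDimensional F M] (A : ι → M →ₗ[F] M) (d : ℕ) : ∀ (E : Submodule F M),
    Module.finrank F E = d → E ≠ ⊥ →
    (∀ i, ∀ x ∈ E, A i x ∈ E) → (∀ i j, ∀ x ∈ E, A i (A j x) = A j (A i x)) →
    ∃ x ∈ E, x ≠ 0 ∧ ∀ i, ∃ c : F, A i x = c • x := by
  induction d using Nat.strong_induction_on with
  | _ d ih =>
    intro E hd hE hA hc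
    by_cases hs : ∀ i, ∃ c : F, ∀ x ∈ E, A i x = c • x
    · obtain ⟨x, hx, hx0⟩ := E.exists_mem_ne_zero_of_ne_bot hE
      refine ⟨x, hx, hx0, fun i => ?_⟩
      obtain ⟨c, hci⟩ := hs i
      exact ⟨c, hci x hx⟩
    · push Not at hs
      obtain ⟨i, hi⟩ := hs
      have hnt : Nontrivial E := Submodule.nontrivial_iff_ne_bot.2 hE
      obtain ⟨c, hcc⟩ := Module.End.exists_eigenvalue ((A i).restrict (hA i))
      obtain ⟨y, hy⟩ := hcc.exists_hasEigenvector
      have hy1 : A i y = c • (y : M) := by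
        have := congrArg Subtype.val hy.apply_eq_smul
        simpa using this
      have hy0 : (y : M) ≠ 0 := fun h => hy.2 (Subtype.ext h)
      have hker : ∀ x, x ∈ E ⊓ LinearMap.ker (A i - c • LinearMap.id) ↔ x ∈ E ∧ A i x = c • x := by
        intro x
        rw [Submodule.mem_inf, LinearMap.mem_ker, LinearMap.sub_apply, LinearMap.smul_apply,
          LinearMap.id_apply, sub_eq_zero]
      obtain ⟨E', hE'⟩ : ∃ E', E' = E ⊓ LinearMap.ker (A i - c • LinearMap.id) := ⟨_, rfl⟩
      rw [← hE'] at hker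
      have hle : E' ≤ E := by rw [hE']; exact inf_le_left
      have hlt : E' < E := by
        refine lt_of_le_of_ne hle fun h => ?_
        obtain ⟨x, hx, hxx⟩ := hi c
        rw [← h] at hx
        exact hxx ((hker x).1 hx).2
      have hbot : E' ≠ ⊥ := by
        intro h
        have h1 : (y : M) ∈ E' := (hker _).2 ⟨y.2, hy1⟩
        rw [h, Submodule.mem_bot] at h1
        exact hy0 h1
      obtain ⟨x, hx, hx0, hxx⟩ := ih (Module.finrank F E')
        (by rw [← hd]; exact Submodule.finrank_lt_finrank_of_lt hlt) E' rfl hbot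
        (fun j x hx => by
          obtain ⟨h1, h2⟩ := (hker x).1 hx
          refine (hker _).2 ⟨hA j x h1, ?_⟩
          rw [hc i j x h1, h2, map_smul])
        (fun j k x hx => hc j k x (hle hx))
      exact ⟨x, hle hx, hx0, hxx⟩

theorem joint_eigen {F M ι : Type*} [Field F] [IsAlgClosed F] [AddCommGroup M] [Module F M]
    [FiniteDimensional F M] (A : ι → M →ₗ[F] M) (E : Submodule F M) (hE : E ≠ ⊥)
    (hA : ∀ i, ∀ x ∈ E, A i x ∈ E) (hc : ∀ i j, ∀ x ∈ E, A i (A j x) = A j (A i x)) :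
    ∃ x ∈ E, x ≠ 0 ∧ ∀ i, ∃ c : F, A i x = c • x :=
  joint_eigen_aux A _ E rfl hE hA hc

end CM83
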