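import Pool.Agent.H.MP_83e36b_nt.cm.Dcomm
import Pool.Agent.H.MP_83e36b_nt.cm.RegD
import Pool.Agent.H.MP_83e36b_nt.cm.JE

/-! Module Exist: existence of the dual data. -/

namespace CM83

/-- the second family of operators -/
noncomputable def exist_Y {n : ℕ} {G : Type} [Group G] (R : RD n G) {Ω : Type*} [Field Ω]
    (ζ lam : V n →+ Ω) (v : V n) : (G → Ω) →ₗ[Ω] (G → Ω) :=
  R.Xop ζ v - ∑ s ∈ R.S, (((R.B v (R.a s) : ℚ) : Ω) / lam (R.a s)) • Rop s

theorem exist_Y_eq {n : ℕ} {G : Type} [Group G] (R : RD n G) {Ω : Type*} [Field Ω]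
    (ζ lam : V n →+ Ω) (v : V n) (f : G → Ω) :
    exist_Y R ζ lam v f =
      R.Xop ζ v f - ∑ s ∈ R.S, (((R.B v (R.a s) : ℚ) : Ω) / lam (R.a s)) • Rop s f := by
  simp only [exist_Y, LinearMap.sub_apply, LinearMap.sum_apply, LinearMap.smul_apply]

theorem exist_Y_apply {n : ℕ} {G : Type} [Group G] (R : RD n G) {Ω : Type*} [Field Ω]
    (ζ lam : V n →+ Ω) (v : V n) (f : G → Ω) (w : G) :
    exist_Y R ζ lam v f w =
      ζ (R.ρ w v) * f w - ∑ s ∈ R.S, ((R.B v (R.a s) : ℚ) : Ω) / lam (R.a s) * f (w * s) := by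
  rw [exist_Y_eq]
  simp only [Pi.sub_apply, Finset.sum_apply, Pi.smul_apply, smul_eq_mul]
  rfl

theorem exist_lam_refl {n : ℕ} {G : Type} [Group G] (R : RD n G) {Ω : Type*} [Field Ω]
    [CharZero Ω] (ξ : V n →+ Ω) {s : G} (hs : s ∈ R.S) (g : G) (u : V n) :
    ξ (R.ρ g (R.ρ s u)) = ξ (R.ρ g u) -
      ((2 * R.B u (R.a s) / R.B (R.a s) (R.a s) : ℚ) : Ω) * ξ (R.ρ g (R.a s)) := by
  rw [R.refl s hs u, map_sub, map_sub, map_smul, map_q]

theorem exist_Y_comm {n : ℕ} {G : Type} [Group G] (R : RD n G) {Ω : Type*} [Field Ω]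
    [CharZero Ω] (ζ lam : V n →+ Ω) (hlam : ∀ s ∈ R.S, lam (R.a s) ≠ 0) (u v : V n)
    (f : G → Ω) :
    exist_Y R ζ lam u (exist_Y R ζ lam v f) = exist_Y R ζ lam v (exist_Y R ζ lam u f) := by
  funext w
  simp only [exist_Y_apply]
  have hPL := R.PL lam hlam (fun g => f (w * g)) u v
  have h1 : ∀ s ∈ R.S, ζ (R.ρ (w * s) u) = ζ (R.ρ w u) -
      ((2 * R.B u (R.a s) / R.B (R.a s) (R.a s) : ℚ) : Ω) * ζ (R.ρ w (R.a s)) := by
    intro s hs
    rw [map_mul]
    exact exist_lam_refl R ζ hs w u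
  have h2 : ∀ s ∈ R.S, ζ (R.ρ (w * s) v) = ζ (R.ρ w v) -
      ((2 * R.B v (R.a s) / R.B (R.a s) (R.a s) : ℚ) : Ω) * ζ (R.ρ w (R.a s)) := by
    intro s hs
    rw [map_mul]
    exact exist_lam_refl R ζ hs w v
  rw [← sub_eq_zero]
  have e1 : ∑ s ∈ R.S, ((R.B u (R.a s) : ℚ) : Ω) / lam (R.a s) *
      (ζ (R.ρ (w * s) v) * f (w * s) -
        ∑ t ∈ R.S, ((R.B v (R.a t) : ℚ) : Ω) / lam (R.a t) * f (w * s * t)) =
      ζ (R.ρ w v) * ∑ s ∈ R.S, ((R.B u (R.a s) : ℚ) : Ω) / lam (R.a s) * f (w * s) -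
      ∑ s ∈ R.S, ((2 * R.B u (R.a s) * R.B v (R.a s) / R.B (R.a s) (R.a s) : ℚ) : Ω) /
        lam (R.a s) * ζ (R.ρ w (R.a s)) * f (w * s) -
      ∑ s ∈ R.S, ∑ t ∈ R.S, ((R.B u (R.a s) * R.B v (R.a t) : ℚ) : Ω) /
        (lam (R.a s) * lam (R.a t)) * f (w * (s * t)) := by
    rw [Finset.mul_sum, ← Finset.sum_sub_distrib, ← Finset.sum_sub_distrib]
    refine Finset.sum_congr rfl fun s hs => ?_
    rw [h2 s hs, mul_sub, Finset.mul_sum]
    congr 1
    · push_cast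
      field_simp [hlam s hs]
    · refine Finset.sum_congr rfl fun t ht => ?_
      rw [mul_assoc w s t]
      push_cast
      field_simp [hlam s hs, hlam t ht]
  have e2 : ∑ s ∈ R.S, ((R.B v (R.a s) : ℚ) : Ω) / lam (R.a s) *
      (ζ (R.ρ (w * s) u) * f (w * s) -
        ∑ t ∈ R.S, ((R.B u (R.a t) : ℚ) : Ω) / lam (R.a t) * f (w * s * t)) =
      ζ (R.ρ w u) * ∑ s ∈ R.S, ((R.B v (R.a s) : ℚ) : Ω) / lam (R.a s) * f (w * s) -
      ∑ s ∈ R.S, ((2 * R.B u (R.a s) * R.B v (R.a s) / R.B (R.a s) (R.a s) : ℚ) : Ω) /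
        lam (R.a s) * ζ (R.ρ w (R.a s)) * f (w * s) -
      ∑ s ∈ R.S, ∑ t ∈ R.S, ((R.B v (R.a s) * R.B u (R.a t) : ℚ) : Ω) /
        (lam (R.a s) * lam (R.a t)) * f (w * (s * t)) := by
    rw [Finset.mul_sum, ← Finset.sum_sub_distrib, ← Finset.sum_sub_distrib]
    refine Finset.sum_congr rfl fun s hs => ?_
    rw [h1 s hs, mul_sub, Finset.mul_sum]
    congr 1
    · push_cast
      field_simp [hlam s hs]
    · refine Finset.sum_congr rfl fun t ht => ?_
      rw [mul_assoc w s t]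
      push_cast
      field_simp [hlam s hs, hlam t ht]
  have e3 : ∑ s ∈ R.S, ∑ t ∈ R.S, ((R.B u (R.a s) * R.B v (R.a t) : ℚ) : Ω) /
        (lam (R.a s) * lam (R.a t)) * f (w * (s * t)) -
      ∑ s ∈ R.S, ∑ t ∈ R.S, ((R.B v (R.a s) * R.B u (R.a t) : ℚ) : Ω) /
        (lam (R.a s) * lam (R.a t)) * f (w * (s * t)) = 0 := by
    rw [← hPL, ← Finset.sum_sub_distrib]
    refine Finset.sum_congr rfl fun s _ => ?_
    rw [← Finset.sum_sub_distrib]
    refine Finset.sum_congr rfl fun t _ => ?_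
    push_cast
    ring
  rw [e1, e2]
  linear_combination e3

theorem exist_Y_mem {n : ℕ} {G : Type} [Group G] (R : RD n G) {Ω : Type*} [Field Ω]
    [CharZero Ω] (ζ lam : V n →+ Ω) (hζ : ∀ g, ∀ s ∈ R.S, ζ (R.ρ g (R.a s)) ≠ 0)
    (hlam : ∀ s ∈ R.S, lam (R.a s) ≠ 0) (v : V n) (f : G → Ω)
    (hf : ∀ u, R.Dop ζ u f = lam u • f) (u : V n) :
    R.Dop ζ u (exist_Y R ζ lam v f) = lam u • exist_Y R ζ lam v f := by
  rw [exist_Y_eq, map_sub, R.Dop_Xop ζ hζ u v f, hf u, map_sum, map_smul, sub_sub,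
    ← Finset.sum_add_distrib, smul_sub, Finset.smul_sum]
  congr 1
  refine Finset.sum_congr rfl fun s hs => ?_
  have hss : R.ρ s (R.ρ s u) = u := by
    have := R.ρ_inv s u
    rwa [R.inv_self hs] at this
  have h1 : R.Dop ζ u (Rop s f) = lam (R.ρ s u) • Rop s f := by
    have := R.Rop_Dop ζ (R.ρ s u) s f
    rw [hss, hf, map_smul] at this
    exact this.symm
  have h2 : lam (R.ρ s u) = lam u -
      ((2 * R.B u (R.a s) / R.B (R.a s) (R.a s) : ℚ) : Ω) * lam (R.a s) := by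
    rw [R.refl s hs u, map_sub, map_q]
  rw [map_smul, h1, h2, smul_smul, smul_smul, ← add_smul]
  congr 1
  have := hlam s hs
  push_cast
  field_simp
  ring

theorem RD.exists_CM {n : ℕ} {G : Type} [Group G] [Fintype G] (R : RD n G) {k Ω : Type*}
    [Field k] [Field Ω] [CharZero Ω] [IsAlgClosed Ω] [Algebra k Ω] {ζ : V n →+ Ω}
    (hζ : AlgebraicIndependent k fun i => ζ (Pi.single i 1)) :
    ∃ (lam mu : V n →+ Ω) (φ : G → Ω), R.IsCM ζ lam mu φ := by
  classical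
  have hinj : Function.Injective ζ := inj_of_algInd hζ
  have hreg : ∀ g, ∀ s ∈ R.S, ζ (R.ρ g (R.a s)) ≠ 0 := fun g s hs => R.reg_of_inj hinj g hs
  obtain ⟨f0, -, hf0, hc0⟩ := joint_eigen (fun u : V n => R.Dop ζ u) (⊤ : Submodule Ω (G → Ω))
    top_ne_bot (fun _ _ _ => Submodule.mem_top) (fun u v x _ => R.Dop_comm ζ hreg u v x)
  choose c hc using hc0
  let lam : V n →+ Ω := AddMonoidHom.mk' c (by
    intro u v
    have h := R.Dop_add ζ u v f0
    rw [hc, hc, hc, ← add_smul] at h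
    exact smul_left_injective Ω hf0 h)
  have hlamc : ∀ u, lam u = c u := fun u => rfl
  have hlam : ∀ s ∈ R.S, lam (R.a s) ≠ 0 := by
    intro t ht h0
    apply hf0
    apply R.Dop_inj hζ ht
    rw [map_zero]
    have := hc (R.a t)
    rw [← hlamc, h0, zero_smul] at this
    exact this
  let E : Submodule Ω (G → Ω) :=
    ⨅ u : V n, LinearMap.ker (R.Dop ζ u - lam u • (LinearMap.id : (G → Ω) →ₗ[Ω] (G → Ω)))
  have hE : ∀ f, f ∈ E ↔ ∀ u, R.Dop ζ u f = lam u • f := by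
    intro f
    simp only [E, Submodule.mem_iInf, LinearMap.mem_ker, LinearMap.sub_apply,
      LinearMap.smul_apply, LinearMap.id_apply, sub_eq_zero]
  have hEne : E ≠ ⊥ := by
    intro h
    have : f0 ∈ E := (hE f0).2 fun u => hc u
    rw [h, Submodule.mem_bot] at this
    exact hf0 this
  obtain ⟨φ, hφE, hφ, hd0⟩ := joint_eigen (fun v : V n => exist_Y R ζ lam v) E hEne
    (fun v f hf => (hE _).2 fun u => exist_Y_mem R ζ lam hreg hlam v f ((hE f).1 hf) u)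
    (fun u v x _ => exist_Y_comm R ζ lam hlam u v x)
  choose d hd using hd0
  let mu : V n →+ Ω := AddMonoidHom.mk' d (by
    intro u v
    have h : exist_Y R ζ lam (u + v) φ = exist_Y R ζ lam u φ + exist_Y R ζ lam v φ := by
      funext w
      simp only [exist_Y_apply, Pi.add_apply, map_add, LinearMap.add_apply]
      push_cast
      simp only [add_div, add_mul, Finset.sum_add_distrib]
      ring
    have h' : d (u + v) • φ = (d u + d v) • φ := by
      rw [add_smul, ← hd u, ← hd v, ← hd (u + v)]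
      exact h
    exact smul_left_injective Ω hφ h')
  refine ⟨lam, mu, φ, hφ, hlam, ?_, ?_⟩
  · intro u w
    have := congrFun ((hE φ).1 hφE u) w
    exact this
  · intro v w
    have := congrFun (hd v) w
    simp only [exist_Y_apply, Pi.smul_apply, smul_eq_mul] at this
    have hmu : mu v = d v := rfl
    rw [hmu, ← this]
    ring

end CM83
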