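import Pool.Agent.H.MP_83e36b_nt.cm.WBasic
import Pool.Agent.H.MP_83e36b_nt.cm.QId

/-! Module F4Act: the simple reflections of type `F_4`. -/

namespace CM83

universe u

variable (k : Type u) [Field k] [CharZero k]

/-- the coordinates `y_i` in terms of the simple roots -/
noncomputable def y4 : Fin 4 → RF k 4 :=
  ![xv k 0 + 2 * xv k 1 + 3 * xv k 2 + 2 * xv k 3, xv k 0 + xv k 1 + xv k 2, xv k 1 + xv k 2,
    xv k 2]

omit [CharZero k] in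
theorem F4Act_y0 : y4 k 0 = xv k 0 + 2 * xv k 1 + 3 * xv k 2 + 2 * xv k 3 := rfl

omit [CharZero k] in
theorem F4Act_y1 : y4 k 1 = xv k 0 + xv k 1 + xv k 2 := rfl

omit [CharZero k] in
theorem F4Act_y2 : y4 k 2 = xv k 1 + xv k 2 := rfl

omit [CharZero k] in
theorem F4Act_y3 : y4 k 3 = xv k 2 := rfl

variable {k}

omit [CharZero k] in
theorem F4Act_x0 {σ : RF k 4 ≃ₐ[k] RF k 4} (h : IsSimpleRefl k CartanMatrix.F₄ 0 σ) :
    σ (xv k 0) = - xv k 0 ∧ σ (xv k 1) = xv k 1 + xv k 0 ∧ σ (xv k 2) = xv k 2 ∧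
      σ (xv k 3) = xv k 3 := by
  have h0 := h 0
  have h1 := h 1
  have h2 := h 2
  have h3 := h 3
  simp [CartanMatrix.F₄] at h0 h1 h2 h3
  refine ⟨?_, ?_, ?_, ?_⟩
  · rw [h0]; ring
  · rw [h1]
  · rw [h2]
  · rw [h3]

omit [CharZero k] in
theorem F4Act_x1 {σ : RF k 4 ≃ₐ[k] RF k 4} (h : IsSimpleRefl k CartanMatrix.F₄ 1 σ) :
    σ (xv k 0) = xv k 0 + xv k 1 ∧ σ (xv k 1) = - xv k 1 ∧ σ (xv k 2) = xv k 2 + xv k 1 ∧
      σ (xv k 3) = xv k 3 := by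
  have h0 := h 0
  have h1 := h 1
  have h2 := h 2
  have h3 := h 3
  simp [CartanMatrix.F₄] at h0 h1 h2 h3
  refine ⟨?_, ?_, ?_, ?_⟩
  · rw [h0]
  · rw [h1]; ring
  · rw [h2]
  · rw [h3]

omit [CharZero k] in
theorem F4Act_x2 {σ : RF k 4 ≃ₐ[k] RF k 4} (h : IsSimpleRefl k CartanMatrix.F₄ 2 σ) :
    σ (xv k 0) = xv k 0 ∧ σ (xv k 1) = xv k 1 + 2 * xv k 2 ∧ σ (xv k 2) = - xv k 2 ∧
      σ (xv k 3) = xv k 3 + xv k 2 := by
  have h0 := h 0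
  have h1 := h 1
  have h2 := h 2
  have h3 := h 3
  simp [CartanMatrix.F₄] at h0 h1 h2 h3
  refine ⟨?_, ?_, ?_, ?_⟩
  · rw [h0]
  · rw [h1]
  · rw [h2]; ring
  · rw [h3]

omit [CharZero k] in
theorem F4Act_x3 {σ : RF k 4 ≃ₐ[k] RF k 4} (h : IsSimpleRefl k CartanMatrix.F₄ 3 σ) :
    σ (xv k 0) = xv k 0 ∧ σ (xv k 1) = xv k 1 ∧ σ (xv k 2) = xv k 2 + xv k 3 ∧
      σ (xv k 3) = - xv k 3 := by
  have h0 := h 0
  have h1 := h 1
  have h2 := h 2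
  have h3 := h 3
  simp [CartanMatrix.F₄] at h0 h1 h2 h3
  refine ⟨?_, ?_, ?_, ?_⟩
  · rw [h0]
  · rw [h1]
  · rw [h2]
  · rw [h3]; ring

theorem F4_s0 {σ : RF k 4 ≃ₐ[k] RF k 4} (h : IsSimpleRefl k CartanMatrix.F₄ 0 σ) :
    σ (y4 k 0) = y4 k 0 ∧ σ (y4 k 1) = y4 k 2 ∧ σ (y4 k 2) = y4 k 1 ∧ σ (y4 k 3) = y4 k 3 := by
  obtain ⟨h0, h1, h2, h3⟩ := F4Act_x0 h
  refine ⟨?_, ?_, ?_, ?_⟩ <;>
    simp only [F4Act_y0, F4Act_y1, F4Act_y2, F4Act_y3, map_add, map_mul, map_ofNat, h0, h1, h2,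
      h3] <;>
    ring

theorem F4_s1 {σ : RF k 4 ≃ₐ[k] RF k 4} (h : IsSimpleRefl k CartanMatrix.F₄ 1 σ) :
    σ (y4 k 0) = y4 k 0 ∧ σ (y4 k 1) = y4 k 1 ∧ σ (y4 k 2) = y4 k 3 ∧ σ (y4 k 3) = y4 k 2 := by
  obtain ⟨h0, h1, h2, h3⟩ := F4Act_x1 h
  refine ⟨?_, ?_, ?_, ?_⟩ <;>
    simp only [F4Act_y0, F4Act_y1, F4Act_y2, F4Act_y3, map_add, map_mul, map_ofNat, h0, h1, h2,
      h3] <;>
    ring

theorem F4_s2 {σ : RF k 4 ≃ₐ[k] RF k 4} (h : IsSimpleRefl k CartanMatrix.F₄ 2 σ) :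
    σ (y4 k 0) = y4 k 0 ∧ σ (y4 k 1) = y4 k 1 ∧ σ (y4 k 2) = y4 k 2 ∧
      σ (y4 k 3) = - y4 k 3 := by
  obtain ⟨h0, h1, h2, h3⟩ := F4Act_x2 h
  refine ⟨?_, ?_, ?_, ?_⟩ <;>
    simp only [F4Act_y0, F4Act_y1, F4Act_y2, F4Act_y3, map_add, map_mul, map_ofNat, h0, h1, h2,
      h3] <;>
    ring

theorem F4_s3 {σ : RF k 4 ≃ₐ[k] RF k 4} (h : IsSimpleRefl k CartanMatrix.F₄ 3 σ) :
    σ (y4 k 0) = (y4 k 0 + y4 k 1 + y4 k 2 + y4 k 3) / 2 ∧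
    σ (y4 k 1) = (y4 k 0 + y4 k 1 - y4 k 2 - y4 k 3) / 2 ∧
    σ (y4 k 2) = (y4 k 0 - y4 k 1 + y4 k 2 - y4 k 3) / 2 ∧
    σ (y4 k 3) = (y4 k 0 - y4 k 1 - y4 k 2 + y4 k 3) / 2 := by
  obtain ⟨h0, h1, h2, h3⟩ := F4Act_x3 h
  refine ⟨?_, ?_, ?_, ?_⟩ <;>
    simp only [F4Act_y0, F4Act_y1, F4Act_y2, F4Act_y3, map_add, map_mul, map_ofNat, h0, h1, h2,
      h3] <;>
    ring

section nat

variable {F : Type*} [Field F]

/-- the invariants are compatible with automorphisms -/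
theorem F4Act_nat (σ : F ≃+* F) (y : Fin 4 → F) {y' : Fin 4 → F} (hy : ∀ i, σ (y i) = y' i) :
    σ (qA y) = qA y' ∧ σ (qa y) = qa y' ∧ (∀ j, σ (qu y j) = qu y' j) ∧ σ (qDt y) = qDt y' := by
  have h0 := hy 0
  have h1 := hy 1
  have h2 := hy 2
  have h3 := hy 3
  have e1 : σ (qs1 y) = qs1 y' := by
    simp only [qs1, map_add, map_pow, h0, h1, h2, h3]
  have e2 : σ (qs2 y) = qs2 y' := by
    simp only [qs2, map_add, map_mul, map_pow, h0, h1, h2, h3]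
  have e3 : σ (qs3 y) = qs3 y' := by
    simp only [qs3, map_add, map_mul, map_pow, h0, h1, h2, h3]
  have e4 : σ (qP y) = qP y' := by
    simp only [qP, map_mul, h0, h1, h2, h3]
  refine ⟨e1, ?_, ?_, ?_⟩
  · simp only [qa, map_add, map_sub, map_div₀, map_mul, map_pow, map_ofNat, e1, e2, e3]
  · intro j
    fin_cases j
    · show σ (qs1 y ^ 2 - 4 * qs2 y) = qs1 y' ^ 2 - 4 * qs2 y'
      simp only [map_sub, map_mul, map_pow, map_ofNat, e1, e2]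
    · show σ (- qs1 y ^ 2 / 2 + 2 * qs2 y + 12 * qP y) =
        - qs1 y' ^ 2 / 2 + 2 * qs2 y' + 12 * qP y'
      simp only [map_add, map_neg, map_div₀, map_mul, map_pow, map_ofNat, e1, e2, e4]
    · show σ (- qs1 y ^ 2 / 2 + 2 * qs2 y - 12 * qP y) =
        - qs1 y' ^ 2 / 2 + 2 * qs2 y' - 12 * qP y'
      simp only [map_add, map_sub, map_neg, map_div₀, map_mul, map_pow, map_ofNat, e1, e2, e4]
  · simp only [qDt, map_mul, map_sub, map_pow, h0, h1, h2, h3]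

theorem F4Act_natS (σ : F ≃+* F) (y : Fin 4 → F) {y' : Fin 4 → F} (hy : ∀ i, σ (y i) = y' i) :
    σ (qS2 y) = qS2 y' ∧ σ (qS3 y) = qS3 y' ∧ σ (qDu y) = qDu y' := by
  obtain ⟨_, _, h, _⟩ := F4Act_nat σ y hy
  refine ⟨?_, ?_, ?_⟩
  · simp only [qS2, map_add, map_mul, h]
  · simp only [qS3, map_mul, h]
  · simp only [qDu, map_mul, map_sub, h]

/-- the effect of the exchange of the second and the third coordinate -/
theorem F4Act_swap1 (y y' : Fin 4 → F) (h0 : y' 0 = y 0) (h1 : y' 1 = y 2) (h2 : y' 2 = y 1)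
    (h3 : y' 3 = y 3) : qA y' = qA y ∧ qa y' = qa y ∧ qu y' = qu y ∧ qDt y' = - qDt y := by
  have e1 : qs1 y' = qs1 y := by
    simp only [qs1, h0, h1, h2, h3]
    ring
  have e2 : qs2 y' = qs2 y := by
    simp only [qs2, h0, h1, h2, h3]
    ring
  have e3 : qs3 y' = qs3 y := by
    simp only [qs3, h0, h1, h2, h3]
    ring
  have e4 : qP y' = qP y := by
    simp only [qP, h0, h1, h2, h3]
    ring
  refine ⟨e1, ?_, ?_, ?_⟩
  · simp only [qa, e1, e2, e3]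
  · simp only [qu, e1, e2, e4]
  · simp only [qDt, h0, h1, h2, h3]
    ring

/-- the effect of the exchange of the third and the fourth coordinate -/
theorem F4Act_swap2 (y y' : Fin 4 → F) (h0 : y' 0 = y 0) (h1 : y' 1 = y 1) (h2 : y' 2 = y 3)
    (h3 : y' 3 = y 2) : qA y' = qA y ∧ qa y' = qa y ∧ qu y' = qu y ∧ qDt y' = - qDt y := by
  have e1 : qs1 y' = qs1 y := by
    simp only [qs1, h0, h1, h2, h3]
    ring
  have e2 : qs2 y' = qs2 y := by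
    simp only [qs2, h0, h1, h2, h3]
    ring
  have e3 : qs3 y' = qs3 y := by
    simp only [qs3, h0, h1, h2, h3]
    ring
  have e4 : qP y' = qP y := by
    simp only [qP, h0, h1, h2, h3]
    ring
  refine ⟨e1, ?_, ?_, ?_⟩
  · simp only [qa, e1, e2, e3]
  · simp only [qu, e1, e2, e4]
  · simp only [qDt, h0, h1, h2, h3]
    ring

/-- the effect of a change of sign of the last coordinate -/
theorem F4Act_sign (y y' : Fin 4 → F) (h0 : y' 0 = y 0) (h1 : y' 1 = y 1) (h2 : y' 2 = y 2)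
    (h3 : y' 3 = - y 3) : qA y' = qA y ∧ qa y' = qa y ∧
      (qu y' 0 = qu y 0 ∧ qu y' 1 = qu y 2 ∧ qu y' 2 = qu y 1) ∧ qDt y' = qDt y := by
  have h3' : y' 3 ^ 2 = y 3 ^ 2 := by rw [h3]; ring
  have e1 : qs1 y' = qs1 y := by
    simp only [qs1, h0, h1, h2, h3']
  have e2 : qs2 y' = qs2 y := by
    simp only [qs2, h0, h1, h2, h3']
  have e3 : qs3 y' = qs3 y := by
    simp only [qs3, h0, h1, h2, h3']
  have e4 : qP y' = - qP y := by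
    simp only [qP, h0, h1, h2, h3]
    ring
  refine ⟨e1, ?_, ⟨?_, ?_, ?_⟩, ?_⟩
  · simp only [qa, e1, e2, e3]
  · rw [QId_u0, QId_u0, e1, e2]
  · rw [QId_u1, QId_u2, e1, e2, e4]
    ring
  · rw [QId_u1, QId_u2, e1, e2, e4]
    ring
  · simp only [qDt, h0, h1, h2, h3']

variable [CharZero F]

/-- the effect of the last simple reflection -/
theorem F4Act_half (y y' : Fin 4 → F) (h0 : y' 0 = (y 0 + y 1 + y 2 + y 3) / 2)
    (h1 : y' 1 = (y 0 + y 1 - y 2 - y 3) / 2) (h2 : y' 2 = (y 0 - y 1 + y 2 - y 3) / 2)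
    (h3 : y' 3 = (y 0 - y 1 - y 2 + y 3) / 2) : qA y' = qA y ∧ qa y' = qa y ∧
      (qu y' 0 = qu y 1 ∧ qu y' 1 = qu y 0 ∧ qu y' 2 = qu y 2) ∧ qDt y' = qDt y := by
  refine ⟨?_, ?_, ⟨?_, ?_, ?_⟩, ?_⟩
  · simp only [qA, qs1, h0, h1, h2, h3]
    ring
  · simp only [qa, qs1, qs2, qs3, h0, h1, h2, h3]
    ring
  · simp only [QId_u0, QId_u1, qs1, qs2, qP, h0, h1, h2, h3]
    ring
  · simp only [QId_u0, QId_u1, qs1, qs2, qP, h0, h1, h2, h3]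
    ring
  · simp only [QId_u2, qs1, qs2, qP, h0, h1, h2, h3]
    ring
  · have a1 : y' 0 ^ 2 - y' 1 ^ 2 = (y 0 + y 1) * (y 2 + y 3) := by rw [h0, h1]; ring
    have a2 : y' 0 ^ 2 - y' 2 ^ 2 = (y 0 + y 2) * (y 1 + y 3) := by rw [h0, h2]; ring
    have a3 : y' 0 ^ 2 - y' 3 ^ 2 = (y 0 + y 3) * (y 1 + y 2) := by rw [h0, h3]; ring
    have a4 : y' 1 ^ 2 - y' 2 ^ 2 = (y 0 - y 3) * (y 1 - y 2) := by rw [h1, h2]; ring
    have a5 : y' 1 ^ 2 - y' 3 ^ 2 = (y 0 - y 2) * (y 1 - y 3) := by rw [h1, h3]; ring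
    have a6 : y' 2 ^ 2 - y' 3 ^ 2 = (y 0 - y 1) * (y 2 - y 3) := by rw [h2, h3]; ring
    unfold qDt
    rw [a1, a2, a3, a4, a5, a6]
    simp only [sq_sub_sq]
    generalize y 0 + y 1 = b1
    generalize y 0 + y 2 = b2
    generalize y 0 + y 3 = b3
    generalize y 1 + y 2 = b4
    generalize y 1 + y 3 = b5
    generalize y 2 + y 3 = b6
    generalize y 0 - y 1 = c1
    generalize y 0 - y 2 = c2
    generalize y 0 - y 3 = c3
    generalize y 1 - y 2 = c4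
    generalize y 1 - y 3 = c5
    generalize y 2 - y 3 = c6
    ring

end nat

/-- all information on the simple reflections -/
theorem F4Act_all {j : Fin 4} {σ : RF k 4 ≃ₐ[k] RF k 4}
    (h : IsSimpleRefl k CartanMatrix.F₄ j σ) :
    (σ (qA (y4 k)) = qA (y4 k) ∧ σ (qa (y4 k)) = qa (y4 k) ∧ σ (qS2 (y4 k)) = qS2 (y4 k) ∧
      σ (qS3 (y4 k)) = qS3 (y4 k)) ∧
    σ (qDt (y4 k) * qDu (y4 k)) = - (qDt (y4 k) * qDu (y4 k)) := by
  have hn := F4Act_nat (σ : RF k 4 ≃+* RF k 4) (y4 k) (y' := fun i => σ (y4 k i)) (fun i => rfl)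
  have hs := F4Act_natS (σ : RF k 4 ≃+* RF k 4) (y4 k) (y' := fun i => σ (y4 k i)) (fun i => rfl)
  obtain ⟨n1, n2, _, n4⟩ := hn
  obtain ⟨s1, s2, s3⟩ := hs
  have n1' : σ (qA (y4 k)) = qA (fun i => σ (y4 k i)) := n1
  have n2' : σ (qa (y4 k)) = qa (fun i => σ (y4 k i)) := n2
  have n4' : σ (qDt (y4 k)) = qDt (fun i => σ (y4 k i)) := n4
  have s1' : σ (qS2 (y4 k)) = qS2 (fun i => σ (y4 k i)) := s1
  have s2' : σ (qS3 (y4 k)) = qS3 (fun i => σ (y4 k i)) := s2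
  have s3' : σ (qDu (y4 k)) = qDu (fun i => σ (y4 k i)) := s3
  rw [map_mul, n1', n2', n4', s1', s2', s3']
  fin_cases j
  · obtain ⟨a0, a1, a2, a3⟩ := F4_s0 h
    obtain ⟨b1, b2, b3, b4⟩ := F4Act_swap1 (y4 k) (fun i => σ (y4 k i)) a0 a1 a2 a3
    rw [b1, b2, b4]
    simp only [qS2, qS3, qDu, b3]
    refine ⟨⟨trivial, trivial, trivial, trivial⟩, ?_⟩
    ring
  · obtain ⟨a0, a1, a2, a3⟩ := F4_s1 h
    obtain ⟨b1, b2, b3, b4⟩ := F4Act_swap2 (y4 k) (fun i => σ (y4 k i)) a0 a1 a2 a3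
    rw [b1, b2, b4]
    simp only [qS2, qS3, qDu, b3]
    refine ⟨⟨trivial, trivial, trivial, trivial⟩, ?_⟩
    ring
  · obtain ⟨a0, a1, a2, a3⟩ := F4_s2 h
    obtain ⟨b1, b2, ⟨b3, b4, b5⟩, b6⟩ :=
      F4Act_sign (y4 k) (fun i => σ (y4 k i)) a0 a1 a2 a3
    rw [b1, b2, b6]
    simp only [qS2, qS3, qDu, b3, b4, b5]
    refine ⟨⟨trivial, trivial, ?_, ?_⟩, ?_⟩
    · ring
    · ring
    · ring
  · obtain ⟨a0, a1, a2, a3⟩ := F4_s3 h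
    obtain ⟨b1, b2, ⟨b3, b4, b5⟩, b6⟩ :=
      F4Act_half (y4 k) (fun i => σ (y4 k i)) a0 a1 a2 a3
    rw [b1, b2, b6]
    simp only [qS2, qS3, qDu, b3, b4, b5]
    refine ⟨⟨trivial, trivial, ?_, ?_⟩, ?_⟩
    · ring
    · ring
    · ring

/-- `A, a, S2, S3` are invariant -/
theorem F4_inv {j : Fin 4} {σ : RF k 4 ≃ₐ[k] RF k 4} (h : IsSimpleRefl k CartanMatrix.F₄ j σ) :
    σ (qA (y4 k)) = qA (y4 k) ∧ σ (qa (y4 k)) = qa (y4 k) ∧ σ (qS2 (y4 k)) = qS2 (y4 k) ∧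
      σ (qS3 (y4 k)) = qS3 (y4 k) := (F4Act_all h).1

/-- the product of the two square roots changes its sign -/
theorem F4_anti {j : Fin 4} {σ : RF k 4 ≃ₐ[k] RF k 4}
    (h : IsSimpleRefl k CartanMatrix.F₄ j σ) :
    σ (qDt (y4 k) * qDu (y4 k)) = - (qDt (y4 k) * qDu (y4 k)) := (F4Act_all h).2

/-- the variables are contained in the field generated by the `y_i` -/
theorem F4Act_mem (L : IntermediateField k (RF k 4)) (h : ∀ i, y4 k i ∈ L) (i : Fin 4) :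
    xv k i ∈ L := by
  have e3 : xv k 2 = y4 k 3 := rfl
  have e2 : xv k 1 = y4 k 2 - y4 k 3 := by
    rw [F4Act_y2, F4Act_y3]; ring
  have e1 : xv k 0 = y4 k 1 - y4 k 2 := by
    rw [F4Act_y1, F4Act_y2]; ring
  have e4 : xv k 3 = (y4 k 0 - y4 k 1 - y4 k 2 - y4 k 3) / 2 := by
    rw [F4Act_y0, F4Act_y1, F4Act_y2, F4Act_y3]; ring
  have q2 : (2 : RF k 4) ∈ L := ofNat_mem L 2
  fin_cases i
  · show xv k 0 ∈ L
    rw [e1]
    exact L.sub_mem (h 1) (h 2)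
  · show xv k 1 ∈ L
    rw [e2]
    exact L.sub_mem (h 2) (h 3)
  · show xv k 2 ∈ L
    rw [e3]
    exact h 3
  · show xv k 3 ∈ L
    rw [e4]
    exact L.div_mem (L.sub_mem (L.sub_mem (L.sub_mem (h 0) (h 1)) (h 2)) (h 3)) q2

theorem y4_algInd : AlgebraicIndependent k (y4 k) := by
  apply DiscRat.algInd_of (a := xv k) xv_algInd
  intro i
  have h := F4Act_mem (IntermediateField.adjoin k (Set.range (y4 k)))
    (fun i => IntermediateField.subset_adjoin k _ ⟨i, rfl⟩) i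
  exact isAlgebraic_algebraMap
    (⟨xv k i, h⟩ : IntermediateField.adjoin k (Set.range (y4 k)))

theorem y4_adjoin (L : IntermediateField k (RF k 4)) (h : ∀ i, y4 k i ∈ L) : L = ⊤ := by
  rw [eq_top_iff, ← adjoin_xv, IntermediateField.adjoin_le_iff]
  rintro _ ⟨i, rfl⟩
  exact F4Act_mem L h i

end CM83
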