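import Pool.Agent.H.MP_83e36b_nt.cm.F4Act

/-! Module F4Gal: the Weyl group of type `F_4` acts on the `y_i` through signed permutations and
permutations of the `u_j`. -/

namespace CM83

universe u

section General

variable {F : Type*} [Field F]

private theorem f4gal_s1 {F' : Type*} [Field F'] (f : F →+* F') (y : Fin 4 → F) :
    qs1 (fun i => f (y i)) = f (qs1 y) := by
  simp only [qs1, map_add, map_pow]

private theorem f4gal_s2 {F' : Type*} [Field F'] (f : F →+* F') (y : Fin 4 → F) :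
    qs2 (fun i => f (y i)) = f (qs2 y) := by
  simp only [qs2, map_add, map_mul, map_pow]

private theorem f4gal_s3 {F' : Type*} [Field F'] (f : F →+* F') (y : Fin 4 → F) :
    qs3 (fun i => f (y i)) = f (qs3 y) := by
  simp only [qs3, map_add, map_mul, map_pow]

private theorem f4gal_P {F' : Type*} [Field F'] (f : F →+* F') (y : Fin 4 → F) :
    qP (fun i => f (y i)) = f (qP y) := by
  simp only [qP, map_mul]

private theorem f4gal_A {F' : Type*} [Field F'] (f : F →+* F') (y : Fin 4 → F) :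
    qA (fun i => f (y i)) = f (qA y) := by
  simp only [qA, f4gal_s1]

private theorem f4gal_a {F' : Type*} [Field F'] (f : F →+* F') (y : Fin 4 → F) :
    qa (fun i => f (y i)) = f (qa y) := by
  simp only [qa, f4gal_s1, f4gal_s2, f4gal_s3, map_add, map_sub, map_mul, map_div₀, map_pow,
    map_ofNat]

private theorem f4gal_u {F' : Type*} [Field F'] (f : F →+* F') (y : Fin 4 → F) (j : Fin 3) :
    qu (fun i => f (y i)) j = f (qu y j) := by
  fin_cases j <;>
    simp [qu, f4gal_s1, f4gal_s2, f4gal_P, map_add, map_sub, map_mul, map_div₀, map_pow,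
      map_ofNat]

private theorem f4gal_S2 {F' : Type*} [Field F'] (f : F →+* F') (y : Fin 4 → F) :
    qS2 (fun i => f (y i)) = f (qS2 y) := by
  simp only [qS2, f4gal_u, map_add, map_mul]

private theorem f4gal_S3 {F' : Type*} [Field F'] (f : F →+* F') (y : Fin 4 → F) :
    qS3 (fun i => f (y i)) = f (qS3 y) := by
  simp only [qS3, f4gal_u, map_mul]

private theorem f4gal_Dt {F' : Type*} [Field F'] (f : F →+* F') (y : Fin 4 → F) :
    qDt (fun i => f (y i)) = f (qDt y) := by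
  simp only [qDt, map_sub, map_mul, map_pow]

/-- factorisations of the differences of the `u_j` -/
private theorem f4gal_u12 (y : Fin 4 → F) : qu y 1 - qu y 2 = 24 * qP y := by
  simp [qu]
  ring

private theorem f4gal_u01 [CharZero F] (y : Fin 4 → F) : qu y 0 - qu y 1 = 3 / 2 *
    ((y 0 + y 1 + y 2 - y 3) * (y 0 + y 1 - y 2 + y 3) * (y 0 - y 1 + y 2 + y 3) *
      (y 0 - y 1 - y 2 - y 3)) := by
  simp [qu, qs1, qs2, qP]
  ring

private theorem f4gal_u02 [CharZero F] (y : Fin 4 → F) : qu y 0 - qu y 2 = 3 / 2 *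
    ((y 0 + y 1 + y 2 + y 3) * (y 0 + y 1 - y 2 - y 3) * (y 0 - y 1 + y 2 - y 3) *
      (y 0 - y 1 - y 2 + y 3)) := by
  simp [qu, qs1, qs2, qP]
  ring

/-- elements with a monic equation of degree four are algebraic -/
private theorem f4gal_alg4 {K E : Type*} [Field K] [Field E] [Algebra K E]
    (M : IntermediateField K E) {z a b c d : E} (ha : a ∈ M) (hb : b ∈ M) (hc : c ∈ M)
    (hd : d ∈ M) (h : z ^ 4 + a * z ^ 3 + b * z ^ 2 + c * z + d = 0) : IsAlgebraic M z := by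
  refine ⟨Polynomial.X ^ 4 + Polynomial.C (⟨a, ha⟩ : M) * Polynomial.X ^ 3 +
    Polynomial.C (⟨b, hb⟩ : M) * Polynomial.X ^ 2 + Polynomial.C (⟨c, hc⟩ : M) * Polynomial.X +
    Polynomial.C (⟨d, hd⟩ : M), ?_, ?_⟩
  · intro h0
    have h1 := congrArg (fun p => Polynomial.coeff p 4) h0
    simp [Polynomial.coeff_X_pow] at h1
  · simpa using h

end General

variable {k : Type u} [Field k] [CharZero k]

/-- the signed permutation `(q, η)` is realised by the group -/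
private def F4GalReal (k : Type u) [Field k] [CharZero k] (q : Equiv.Perm (Fin 4))
    (η : Fin 4 → ℤ) : Prop :=
  ∃ w ∈ weylGroup k CartanMatrix.F₄, ∀ i, w (y4 k i) = (η i : RF k 4) * y4 k (q i)

private theorem f4gal_mul {q q' : Equiv.Perm (Fin 4)} {η η' : Fin 4 → ℤ}
    (h : F4GalReal k q η) (h' : F4GalReal k q' η') :
    F4GalReal k (q * q') (fun i => η' i * η (q' i)) := by
  obtain ⟨w, hw, h⟩ := h
  obtain ⟨w', hw', h'⟩ := h'
  refine ⟨w * w', mul_mem hw hw', fun i => ?_⟩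
  rw [AlgEquiv.mul_apply, h', map_mul, map_intCast, h, Int.cast_mul, Equiv.Perm.mul_apply,
    mul_assoc]

private theorem f4gal_one : F4GalReal k 1 (fun _ => 1) :=
  ⟨1, one_mem _, fun i => by simp⟩

private theorem f4gal_simple (j : Fin 4) : ∃ σ ∈ weylGroup k CartanMatrix.F₄,
    IsSimpleRefl k CartanMatrix.F₄ j σ := by
  obtain ⟨σ, hσ⟩ := exists_simpleRefl (k := k) CartanMatrix.F₄ j (by
    fin_cases j <;> rfl)
  exact ⟨σ, Subgroup.subset_closure ⟨j, hσ⟩, hσ⟩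

private theorem f4gal_sw12 : F4GalReal k (Equiv.swap 1 2) (fun _ => 1) := by
  obtain ⟨σ, hm, hσ⟩ := f4gal_simple (k := k) 0
  obtain ⟨h0, h1, h2, h3⟩ := F4_s0 hσ
  refine ⟨σ, hm, fun i => ?_⟩
  rw [Int.cast_one, one_mul]
  fin_cases i
  · exact h0
  · exact h1
  · exact h2
  · exact h3

private theorem f4gal_sw23 : F4GalReal k (Equiv.swap 2 3) (fun _ => 1) := by
  obtain ⟨σ, hm, hσ⟩ := f4gal_simple (k := k) 1
  obtain ⟨h0, h1, h2, h3⟩ := F4_s1 hσ
  refine ⟨σ, hm, fun i => ?_⟩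
  rw [Int.cast_one, one_mul]
  fin_cases i
  · exact h0
  · exact h1
  · exact h2
  · exact h3

private theorem f4gal_sg3 : F4GalReal k 1 (fun i => if i = 3 then -1 else 1) := by
  obtain ⟨σ, hm, hσ⟩ := f4gal_simple (k := k) 2
  obtain ⟨h0, h1, h2, h3⟩ := F4_s2 hσ
  refine ⟨σ, hm, fun i => ?_⟩
  fin_cases i
  · simpa using h0
  · simpa using h1
  · simpa using h2
  · simpa using h3

private theorem f4gal_sw01 : F4GalReal k (Equiv.swap 0 1) (fun _ => 1) := by
  obtain ⟨σ1, hm1, hσ1⟩ := f4gal_simple (k := k) 1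
  obtain ⟨σ2, hm2, hσ2⟩ := f4gal_simple (k := k) 2
  obtain ⟨σ3, hm3, hσ3⟩ := f4gal_simple (k := k) 3
  obtain ⟨a0, a1, a2, a3⟩ := F4_s1 hσ1
  obtain ⟨b0, b1, b2, b3⟩ := F4_s2 hσ2
  obtain ⟨c0, c1, c2, c3⟩ := F4_s3 hσ3
  have r0 : (σ2 * σ1 * σ2) (y4 k 0) = y4 k 0 := by
    rw [AlgEquiv.mul_apply, AlgEquiv.mul_apply, b0, a0, b0]
  have r1 : (σ2 * σ1 * σ2) (y4 k 1) = y4 k 1 := by
    rw [AlgEquiv.mul_apply, AlgEquiv.mul_apply, b1, a1, b1]
  have r2 : (σ2 * σ1 * σ2) (y4 k 2) = - y4 k 3 := by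
    rw [AlgEquiv.mul_apply, AlgEquiv.mul_apply, b2, a2, b3]
  have r3 : (σ2 * σ1 * σ2) (y4 k 3) = - y4 k 2 := by
    rw [AlgEquiv.mul_apply, AlgEquiv.mul_apply, b3, map_neg, map_neg, a3, b2]
  generalize hρ : σ2 * σ1 * σ2 = ρ at r0 r1 r2 r3
  have hm : ρ ∈ weylGroup k CartanMatrix.F₄ := hρ ▸ mul_mem (mul_mem hm2 hm1) hm2
  refine ⟨σ3 * ρ * σ3, mul_mem (mul_mem hm3 hm) hm3, fun i => ?_⟩
  rw [Int.cast_one, one_mul, AlgEquiv.mul_apply, AlgEquiv.mul_apply]
  fin_cases i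
  · show σ3 (ρ (σ3 (y4 k 0))) = y4 k 1
    rw [c0]
    simp only [map_add, map_sub, map_div₀, map_neg, map_ofNat, r0, r1, r2, r3, c0, c1, c2, c3]
    ring
  · show σ3 (ρ (σ3 (y4 k 1))) = y4 k 0
    rw [c1]
    simp only [map_add, map_sub, map_div₀, map_neg, map_ofNat, r0, r1, r2, r3, c0, c1, c2, c3]
    ring
  · show σ3 (ρ (σ3 (y4 k 2))) = y4 k 2
    rw [c2]
    simp only [map_add, map_sub, map_div₀, map_neg, map_ofNat, r0, r1, r2, r3, c0, c1, c2, c3]
    ring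
  · show σ3 (ρ (σ3 (y4 k 3))) = y4 k 3
    rw [c3]
    simp only [map_add, map_sub, map_div₀, map_neg, map_ofNat, r0, r1, r2, r3, c0, c1, c2, c3]
    ring

private theorem f4gal_perm (q : Equiv.Perm (Fin 4)) : F4GalReal k q (fun _ => 1) := by
  have hq : q ∈ Submonoid.closure
      (Set.range fun i : Fin 3 ↦ Equiv.swap i.castSucc i.succ) := by
    rw [Equiv.Perm.mclosure_swap_castSucc_succ]
    trivial
  induction hq using Submonoid.closure_induction with
  | mem x hx =>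
    obtain ⟨i, rfl⟩ := hx
    fin_cases i
    · exact f4gal_sw01
    · exact f4gal_sw12
    · exact f4gal_sw23
  | one => exact f4gal_one
  | mul x y _ _ hx hy =>
    have := f4gal_mul hx hy
    simpa using this

private theorem f4gal_sign (i0 : Fin 4) : F4GalReal k 1 (fun i => if i = i0 then -1 else 1) := by
  have h := f4gal_mul (f4gal_mul (f4gal_perm (k := k) (Equiv.swap i0 3)) f4gal_sg3)
    (f4gal_perm (k := k) (Equiv.swap i0 3))
  have e1 : Equiv.swap i0 3 * 1 * Equiv.swap i0 3 = 1 := by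
    rw [mul_one, Equiv.swap_mul_self]
  rw [e1] at h
  convert h using 1
  funext i
  clear h e1
  revert i i0
  decide

private theorem f4gal_signs (η : Fin 4 → ℤ) (hη : ∀ i, η i = 1 ∨ η i = -1) :
    F4GalReal k 1 η := by
  have h1 : ∀ i0 : Fin 4, F4GalReal k 1 (fun i => if i = i0 then η i0 else 1) := by
    intro i0
    rcases hη i0 with h | h
    · rw [h]
      simpa using f4gal_one (k := k)
    · rw [h]
      exact f4gal_sign i0
  have h2 := f4gal_mul (f4gal_mul (f4gal_mul (h1 0) (h1 1)) (h1 2)) (h1 3)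
  rw [mul_one, mul_one, mul_one] at h2
  convert h2 using 1
  funext i
  fin_cases i <;> simp

/-- all signed permutations belong to the group -/
theorem F4_signed (q : Equiv.Perm (Fin 4)) (η : Fin 4 → ℤ) (hη : ∀ i, η i = 1 ∨ η i = -1) :
    ∃ w ∈ weylGroup k CartanMatrix.F₄, ∀ i, w (y4 k i) = (η i : RF k 4) * y4 k (q i) := by
  have h := f4gal_mul (f4gal_perm (k := k) q) (f4gal_signs η hη)
  simpa [F4GalReal] using h

/-- elements of the group fix the invariants -/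
theorem F4_fixed {w : RF k 4 ≃ₐ[k] RF k 4} (hw : w ∈ weylGroup k CartanMatrix.F₄) :
    w (qA (y4 k)) = qA (y4 k) ∧ w (qa (y4 k)) = qa (y4 k) ∧ w (qS2 (y4 k)) = qS2 (y4 k) ∧
      w (qS3 (y4 k)) = qS3 (y4 k) := by
  unfold weylGroup at hw
  induction hw using Subgroup.closure_induction with
  | mem x hx =>
    obtain ⟨j, hj⟩ := hx
    exact F4_inv hj
  | one => simp
  | mul x y _ _ hx hy =>
    obtain ⟨a1, a2, a3, a4⟩ := hx
    obtain ⟨b1, b2, b3, b4⟩ := hy
    refine ⟨?_, ?_, ?_, ?_⟩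
    · rw [AlgEquiv.mul_apply, b1, a1]
    · rw [AlgEquiv.mul_apply, b2, a2]
    · rw [AlgEquiv.mul_apply, b3, a3]
    · rw [AlgEquiv.mul_apply, b4, a4]
  | inv x _ hx =>
    obtain ⟨a1, a2, a3, a4⟩ := hx
    refine ⟨?_, ?_, ?_, ?_⟩
    · exact (AlgEquiv.symm_apply_eq x).2 a1.symm
    · exact (AlgEquiv.symm_apply_eq x).2 a2.symm
    · exact (AlgEquiv.symm_apply_eq x).2 a3.symm
    · exact (AlgEquiv.symm_apply_eq x).2 a4.symm


/-- linear forms in the `y_i` do not vanish -/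
private theorem f4gal_lin (c : Fin 4 → ℤ) (hc : c 0 ≠ 0) :
    (c 0 : RF k 4) * y4 k 0 + (c 1 : RF k 4) * y4 k 1 + (c 2 : RF k 4) * y4 k 2 +
      (c 3 : RF k 4) * y4 k 3 ≠ 0 := by
  intro h
  have h1 := Fintype.linearIndependent_iff.1 (y4_algInd (k := k)).linearIndependent
    (fun i => (c i : k)) (by
      rw [← h, Fin.sum_univ_four]
      simp only [Algebra.smul_def, map_intCast])
  exact hc (Int.cast_eq_zero.1 (h1 0))

private theorem f4gal_y_ne (i : Fin 4) : y4 k i ≠ 0 := by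
  exact (y4_algInd (k := k)).ne_zero i

private theorem f4gal_P_ne : qP (y4 k) ≠ 0 := by
  unfold qP
  exact mul_ne_zero (mul_ne_zero (mul_ne_zero (f4gal_y_ne 0) (f4gal_y_ne 1)) (f4gal_y_ne 2))
    (f4gal_y_ne 3)

private theorem f4gal_sq_ne {i j : Fin 4} (hij : i ≠ j) : y4 k i ^ 2 - y4 k j ^ 2 ≠ 0 := by
  have key : ∀ s : k, y4 k i + algebraMap k (RF k 4) s * y4 k j ≠ 0 := by
    intro s h
    have h1 := Fintype.linearIndependent_iff.1 (y4_algInd (k := k)).linearIndependent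
      (fun l => if l = i then 1 else if l = j then s else 0) (by
        rw [← h, ← Finset.sum_erase_add _ _ (Finset.mem_univ i),
          ← Finset.sum_erase_add _ _ (Finset.mem_erase.2 ⟨hij.symm, Finset.mem_univ j⟩)]
        rw [Finset.sum_eq_zero]
        · simp [Algebra.smul_def, hij.symm]
          ring
        · intro x hx
          rw [Finset.mem_erase, Finset.mem_erase] at hx
          simp [hx.1, hx.2.1])
    have h2 := h1 i
    simp at h2
  rw [sq_sub_sq]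
  refine mul_ne_zero ?_ ?_
  · have := key 1
    rwa [map_one, one_mul] at this
  · have := key (-1)
    rwa [map_neg, map_one, neg_one_mul, ← sub_eq_add_neg] at this

private theorem f4gal_Dt_ne : qDt (y4 k) ≠ 0 := by
  unfold qDt
  refine mul_ne_zero (mul_ne_zero (mul_ne_zero (mul_ne_zero (mul_ne_zero ?_ ?_) ?_) ?_) ?_) ?_ <;>
    exact f4gal_sq_ne (by decide)

private theorem f4gal_u_inj : Function.Injective (qu (y4 k)) := by
  have h12 : qu (y4 k) 1 - qu (y4 k) 2 ≠ 0 := by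
    rw [f4gal_u12]
    exact mul_ne_zero (by norm_num) f4gal_P_ne
  have h01 : qu (y4 k) 0 - qu (y4 k) 1 ≠ 0 := by
    rw [f4gal_u01]
    refine mul_ne_zero (by norm_num) (mul_ne_zero (mul_ne_zero (mul_ne_zero ?_ ?_) ?_) ?_)
    · have := f4gal_lin (k := k) ![1, 1, 1, -1] (by decide)
      simpa [sub_eq_add_neg] using this
    · have := f4gal_lin (k := k) ![1, 1, -1, 1] (by decide)
      simpa [sub_eq_add_neg] using this
    · have := f4gal_lin (k := k) ![1, -1, 1, 1] (by decide)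
      simpa [sub_eq_add_neg] using this
    · have := f4gal_lin (k := k) ![1, -1, -1, -1] (by decide)
      simpa [sub_eq_add_neg] using this
  have h02 : qu (y4 k) 0 - qu (y4 k) 2 ≠ 0 := by
    rw [f4gal_u02]
    refine mul_ne_zero (by norm_num) (mul_ne_zero (mul_ne_zero (mul_ne_zero ?_ ?_) ?_) ?_)
    · have := f4gal_lin (k := k) ![1, 1, 1, 1] (by decide)
      simpa [sub_eq_add_neg] using this
    · have := f4gal_lin (k := k) ![1, 1, -1, -1] (by decide)
      simpa [sub_eq_add_neg] using this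
    · have := f4gal_lin (k := k) ![1, -1, 1, -1] (by decide)
      simpa [sub_eq_add_neg] using this
    · have := f4gal_lin (k := k) ![1, -1, -1, 1] (by decide)
      simpa [sub_eq_add_neg] using this
  intro i j hij
  by_contra hne
  have hij' : qu (y4 k) i - qu (y4 k) j = 0 := sub_eq_zero.2 hij
  have hji' : qu (y4 k) j - qu (y4 k) i = 0 := sub_eq_zero.2 hij.symm
  fin_cases i <;> fin_cases j
  · exact hne rfl
  · exact h01 hij'
  · exact h02 hij'
  · exact h01 hji'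
  · exact hne rfl
  · exact h12 hij'
  · exact h02 hji'
  · exact h12 hji'
  · exact hne rfl

private theorem f4gal_v {F : Type*} [Field F] [CharZero F] (y y' : Fin 4 → F)
    (h0 : y' 0 = (y 0 + y 1 + y 2 + y 3) / 2) (h1 : y' 1 = (y 0 + y 1 - y 2 - y 3) / 2)
    (h2 : y' 2 = (y 0 - y 1 + y 2 - y 3) / 2) (h3 : y' 3 = (y 0 - y 1 - y 2 + y 3) / 2) :
    ∀ j, qu y' j = qu y (Equiv.swap 0 1 j) := by
  have hs : ∀ j : Fin 3, (j = 0 ∧ Equiv.swap (0 : Fin 3) 1 j = 1) ∨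
    (j = 1 ∧ Equiv.swap (0 : Fin 3) 1 j = 0) ∨ (j = 2 ∧ Equiv.swap (0 : Fin 3) 1 j = 2) := by decide
  intro j
  rcases hs j with ⟨h, h'⟩ | ⟨h, h'⟩ | ⟨h, h'⟩ <;> rw [h', h]
  · simp only [qu, qs1, qs2, qP, h0, h1, h2, h3, Matrix.cons_val]
    ring
  · simp only [qu, qs1, qs2, qP, h0, h1, h2, h3, Matrix.cons_val]
    ring
  · simp only [qu, qs1, qs2, qP, h0, h1, h2, h3, Matrix.cons_val]
    ring

private theorem f4gal_v' {F : Type*} [Field F] [CharZero F] (y y' : Fin 4 → F)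
    (h0 : y' 0 = y 0) (h1 : y' 1 = y 1) (h2 : y' 2 = y 2) (h3 : y' 3 = - y 3) :
    ∀ j, qu y' j = qu y (Equiv.swap 1 2 j) := by
  have hs : ∀ j : Fin 3, (j = 0 ∧ Equiv.swap (1 : Fin 3) 2 j = 0) ∨
    (j = 1 ∧ Equiv.swap (1 : Fin 3) 2 j = 2) ∨ (j = 2 ∧ Equiv.swap (1 : Fin 3) 2 j = 1) := by decide
  intro j
  rcases hs j with ⟨h, h'⟩ | ⟨h, h'⟩ | ⟨h, h'⟩ <;> rw [h', h]
  · simp only [qu, qs1, qs2, qP, h0, h1, h2, h3, Matrix.cons_val]
    ring
  · simp only [qu, qs1, qs2, qP, h0, h1, h2, h3, Matrix.cons_val]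
    ring
  · simp only [qu, qs1, qs2, qP, h0, h1, h2, h3, Matrix.cons_val]
    ring

private theorem f4gal_s3u0 : ∃ w ∈ weylGroup k CartanMatrix.F₄,
    ∀ j, w (qu (y4 k) j) = qu (y4 k) (Equiv.swap 0 1 j) := by
  obtain ⟨σ, hm, hσ⟩ := f4gal_simple (k := k) 3
  obtain ⟨h0, h1, h2, h3⟩ := F4_s3 hσ
  obtain ⟨f, hf⟩ : ∃ f : RF k 4 →+* RF k 4, ∀ x, f x = σ x := ⟨(σ : RF k 4 →+* RF k 4), fun _ => rfl⟩
  have e2 := f4gal_v (y4 k) (fun i => f (y4 k i)) ((hf _).trans h0) ((hf _).trans h1)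
    ((hf _).trans h2) ((hf _).trans h3)
  refine ⟨σ, hm, fun j => ?_⟩
  rw [← e2 j, f4gal_u, hf]

private theorem f4gal_s3u1 : ∃ w ∈ weylGroup k CartanMatrix.F₄,
    ∀ j, w (qu (y4 k) j) = qu (y4 k) (Equiv.swap 1 2 j) := by
  obtain ⟨σ, hm, hσ⟩ := f4gal_simple (k := k) 2
  obtain ⟨h0, h1, h2, h3⟩ := F4_s2 hσ
  obtain ⟨f, hf⟩ : ∃ f : RF k 4 →+* RF k 4, ∀ x, f x = σ x := ⟨(σ : RF k 4 →+* RF k 4), fun _ => rfl⟩
  have e2 := f4gal_v' (y4 k) (fun i => f (y4 k i)) ((hf _).trans h0) ((hf _).trans h1)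
    ((hf _).trans h2) ((hf _).trans h3)
  refine ⟨σ, hm, fun j => ?_⟩
  rw [← e2 j, f4gal_u, hf]

/-- all permutations of the `u_j` are induced by the group -/
theorem F4_s3u (p : Equiv.Perm (Fin 3)) : ∃ w ∈ weylGroup k CartanMatrix.F₄,
    ∀ j, w (qu (y4 k) j) = qu (y4 k) (p j) := by
  have hp : p ∈ Submonoid.closure
      (Set.range fun i : Fin 2 ↦ Equiv.swap i.castSucc i.succ) := by
    rw [Equiv.Perm.mclosure_swap_castSucc_succ]
    trivial
  induction hp using Submonoid.closure_induction with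
  | mem x hx =>
    obtain ⟨i, hi⟩ := hx
    have h1 : ∀ i : Fin 2, (Equiv.swap i.castSucc i.succ = Equiv.swap (0 : Fin 3) 1) ∨
      (Equiv.swap i.castSucc i.succ = Equiv.swap (1 : Fin 3) 2) := by decide
    rcases h1 i with h | h
    · rw [hi.symm.trans h]
      exact f4gal_s3u0
    · rw [hi.symm.trans h]
      exact f4gal_s3u1
  | one => exact ⟨1, one_mem _, fun j => rfl⟩
  | mul x y _ _ hx hy =>
    obtain ⟨w, hw, h⟩ := hx
    obtain ⟨w', hw', h'⟩ := hy
    refine ⟨w * w', mul_mem hw hw', fun j => ?_⟩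
    rw [AlgEquiv.mul_apply, h', h, Equiv.Perm.mul_apply]


/-- the variables in terms of the `y_i` -/
private theorem f4gal_x : xv k 0 = y4 k 1 - y4 k 2 ∧ xv k 1 = y4 k 2 - y4 k 3 ∧
    xv k 2 = y4 k 3 ∧ xv k 3 = (y4 k 0 - y4 k 1 - y4 k 2 - y4 k 3) / 2 := by
  refine ⟨?_, ?_, ?_, ?_⟩ <;> simp [y4] <;> ring

/-- automorphisms of the algebraic closure fixing `A, a, S2, S3` act as elements of the group -/
theorem F4_gal (τ : AlgebraicClosure (RF k 4) ≃ₐ[k] AlgebraicClosure (RF k 4))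
    (h1 : τ (algebraMap (RF k 4) _ (qA (y4 k))) = algebraMap (RF k 4) _ (qA (y4 k)))
    (h2 : τ (algebraMap (RF k 4) _ (qa (y4 k))) = algebraMap (RF k 4) _ (qa (y4 k)))
    (h3 : τ (algebraMap (RF k 4) _ (qS2 (y4 k))) = algebraMap (RF k 4) _ (qS2 (y4 k)))
    (h4 : τ (algebraMap (RF k 4) _ (qS3 (y4 k))) = algebraMap (RF k 4) _ (qS3 (y4 k))) :
    ∃ w ∈ weylGroup k CartanMatrix.F₄, ∀ i, τ (algebraMap (RF k 4) _ (xv k i)) =
      algebraMap (RF k 4) _ (w (xv k i)) := by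
  obtain ⟨ι, hι⟩ : ∃ ι : RF k 4 →+* AlgebraicClosure (RF k 4),
      ι = algebraMap (RF k 4) (AlgebraicClosure (RF k 4)) := ⟨_, rfl⟩
  obtain ⟨T, hT⟩ : ∃ T : AlgebraicClosure (RF k 4) →+* AlgebraicClosure (RF k 4),
      ∀ x, T x = τ x := ⟨(τ : AlgebraicClosure (RF k 4) →+* AlgebraicClosure (RF k 4)),
        fun _ => rfl⟩
  rw [← hι, ← hT] at h1 h2 h3 h4
  have hinj : Function.Injective ι := ι.injective
  have hAA : qA (fun i => T (ι (y4 k i))) = qA (fun i => ι (y4 k i)) := by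
    rw [f4gal_A T (fun i => ι (y4 k i)), f4gal_A ι (y4 k), h1]
  have haa : qa (fun i => T (ι (y4 k i))) = qa (fun i => ι (y4 k i)) := by
    rw [f4gal_a T (fun i => ι (y4 k i)), f4gal_a ι (y4 k), h2]
  have hSS2 : qS2 (fun i => T (ι (y4 k i))) = qS2 (fun i => ι (y4 k i)) := by
    rw [f4gal_S2 T (fun i => ι (y4 k i)), f4gal_S2 ι (y4 k), h3]
  have hSS3 : qS3 (fun i => T (ι (y4 k i))) = qS3 (fun i => ι (y4 k i)) := by
    rw [f4gal_S3 T (fun i => ι (y4 k i)), f4gal_S3 ι (y4 k), h4]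
  have huinj : Function.Injective (qu (fun i => ι (y4 k i))) := by
    intro i j hij
    rw [f4gal_u ι (y4 k), f4gal_u ι (y4 k)] at hij
    exact f4gal_u_inj (hinj hij)
  obtain ⟨p, hp⟩ := perm_of_cubic
    (u := qu (fun i => T (ι (y4 k i)))) (u' := qu (fun i => ι (y4 k i)))
    (by rw [qu_sum, qu_sum]) hSS2 hSS3 huinj
  obtain ⟨w0, hw0, hw0'⟩ := F4_s3u (k := k) p
  obtain ⟨f1, f2, -, -⟩ := F4_fixed hw0
  obtain ⟨κ, hκ⟩ : ∃ κ : RF k 4 →+* AlgebraicClosure (RF k 4), ∀ x, κ x = ι (w0 x) :=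
    ⟨ι.comp (w0 : RF k 4 →+* RF k 4), fun _ => rfl⟩
  have hκinj : Function.Injective κ := κ.injective
  have hA' : qA (fun i => T (ι (y4 k i))) = qA (fun i => κ (y4 k i)) := by
    rw [hAA, f4gal_A κ (y4 k), f4gal_A ι (y4 k), hκ, f1]
  have ha' : qa (fun i => T (ι (y4 k i))) = qa (fun i => κ (y4 k i)) := by
    rw [haa, f4gal_a κ (y4 k), f4gal_a ι (y4 k), hκ, f2]
  have hu' : qu (fun i => T (ι (y4 k i))) = qu (fun i => κ (y4 k i)) := by
    funext j
    rw [hp j, f4gal_u κ (y4 k), f4gal_u ι (y4 k), hκ, hw0']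
  obtain ⟨g1, g2, g3, g4⟩ := qs_of_qu hA' ha' hu'
  obtain ⟨q, η, hη, -, hy⟩ := signed_of_qs g1 g2 g3 g4
    (by
      rw [f4gal_P κ (y4 k)]
      exact (map_ne_zero κ).2 f4gal_P_ne)
    (by
      rw [f4gal_Dt κ (y4 k)]
      exact (map_ne_zero κ).2 f4gal_Dt_ne)
  obtain ⟨w1, hw1, hw1'⟩ := F4_signed (k := k) q η hη
  have key : ∀ i, T (ι (y4 k i)) = ι ((w0 * w1) (y4 k i)) := by
    intro i
    rw [hy i, hκ, AlgEquiv.mul_apply, hw1', map_mul, map_mul, map_intCast, map_intCast]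
  refine ⟨w0 * w1, mul_mem hw0 hw1, fun i => ?_⟩
  rw [← hι, ← hT]
  obtain ⟨x0, x1, x2, x3⟩ := f4gal_x (k := k)
  fin_cases i
  · show T (ι (xv k 0)) = ι ((w0 * w1) (xv k 0))
    rw [x0]
    simp only [map_sub, key]
  · show T (ι (xv k 1)) = ι ((w0 * w1) (xv k 1))
    rw [x1]
    simp only [map_sub, key]
  · show T (ι (xv k 2)) = ι ((w0 * w1) (xv k 2))
    rw [x2]
    exact key 3
  · show T (ι (xv k 3)) = ι ((w0 * w1) (xv k 3))
    rw [x3]
    simp only [map_sub, map_div₀, key, map_ofNat]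


private theorem f4gal_closed {E : Type*} [Field E] [CharZero E] (M : Subfield E)
    (hM : ∀ z a b c d, a ∈ M → b ∈ M → c ∈ M → d ∈ M →
      z ^ 4 + a * z ^ 3 + b * z ^ 2 + c * z + d = 0 → z ∈ M) (y : Fin 4 → E)
    (h1 : qA y ∈ M) (h2 : qa y ∈ M) (h3 : qS2 y ∈ M) (h4 : qS3 y ∈ M) (i : Fin 4) : y i ∈ M := by
  have hs := qu_sum y
  have hn : ∀ n : ℕ, (n : E) ∈ M := fun n => natCast_mem M n
  have n4 : (4 : E) ∈ M := by exact_mod_cast hn 4
  have n24 : (24 : E) ∈ M := by exact_mod_cast hn 24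
  have n6 : (6 : E) ∈ M := by exact_mod_cast hn 6
  have n48 : (48 : E) ∈ M := by exact_mod_cast hn 48
  have hu2 : qu y 2 = - qu y 0 - qu y 1 := by linear_combination hs
  have hu : ∀ j, qu y j ∈ M := by
    intro j
    refine hM (qu y j) 0 (qS2 y) (- qS3 y) 0 (zero_mem _) h3 (neg_mem h4) (zero_mem _) ?_
    unfold qS2 qS3
    rw [hu2]
    have hj : j = 0 ∨ j = 1 ∨ j = 2 := by
      clear hu2 hs h1 h2 h3 h4 hM hn n4 n24 n6 n48
      revert j
      decide
    rcases hj with rfl | rfl | rfl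
    · ring
    · ring
    · rw [hu2]
      ring
  have s1 : qs1 y ∈ M := h1
  have s2 : qs2 y ∈ M := by
    have : qs2 y = (qs1 y ^ 2 - qu y 0) / 4 := by
      simp only [qu, Matrix.cons_val]
      ring
    rw [this]
    exact div_mem (sub_mem (pow_mem s1 2) (hu 0)) n4
  have hP : qP y ∈ M := by
    have : qP y = (qu y 1 - qu y 2) / 24 := by
      simp only [qu, Matrix.cons_val]
      ring
    rw [this]
    exact div_mem (sub_mem (hu 1) (hu 2)) n24
  have s3 : qs3 y ∈ M := by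
    have : qs3 y = qa y + qs1 y * qs2 y / 6 - qs1 y ^ 3 / 48 := by
      unfold qa
      ring
    rw [this]
    exact sub_mem (add_mem h2 (div_mem (mul_mem s1 s2) n6)) (div_mem (pow_mem s1 3) n48)
  have ht : y i ^ 2 ∈ M := by
    refine hM (y i ^ 2) (- qs1 y) (qs2 y) (- qs3 y) (qP y ^ 2) (neg_mem s1) s2 (neg_mem s3)
      (pow_mem hP 2) ?_
    unfold qs1 qs2 qs3 qP
    have hi : i = 0 ∨ i = 1 ∨ i = 2 ∨ i = 3 := by
      clear hu2 hs h1 h2 h3 h4 hM hn n4 n24 n6 n48 hu s1 s2 s3 hP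
      revert i
      decide
    rcases hi with rfl | rfl | rfl | rfl <;> ring
  refine hM (y i) 0 (- y i ^ 2) 0 0 (zero_mem _) ?_ (zero_mem _) (zero_mem _) ?_
  · rw [neg_mem_iff]
    exact ht
  · ring

/-- the variables are algebraic over the field of `A, a, S2, S3` -/
theorem F4_alg (L : IntermediateField k (RF k 4)) (h1 : qA (y4 k) ∈ L) (h2 : qa (y4 k) ∈ L)
    (h3 : qS2 (y4 k) ∈ L) (h4 : qS3 (y4 k) ∈ L) (i : Fin 4) :
    IsAlgebraic L (xv k i : RF k 4) := by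
  have hL : ∀ z ∈ L, z ∈ algebraicClosure L (RF k 4) := fun z hz =>
    (algebraicClosure L (RF k 4)).algebraMap_mem ⟨z, hz⟩
  have hy : ∀ i, y4 k i ∈ (algebraicClosure L (RF k 4)).toSubfield := by
    apply f4gal_closed
    · intro z a b c d ha hb hc hd h
      have h5 := f4gal_alg4 (algebraicClosure L (RF k 4)) ha hb hc hd h
      exact mem_algebraicClosure_iff.2 (h5.restrictScalars L)
    · exact hL _ h1
    · exact hL _ h2
    · exact hL _ h3
    · exact hL _ h4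
  have hyL : ∀ i, y4 k i ∈ algebraicClosure L (RF k 4) := hy
  have h2' : (2 : RF k 4) ∈ algebraicClosure L (RF k 4) := by
    have := natCast_mem (algebraicClosure L (RF k 4)) 2
    exact_mod_cast this
  rw [← mem_algebraicClosure_iff]
  obtain ⟨x0, x1, x2, x3⟩ := f4gal_x (k := k)
  fin_cases i
  · show xv k 0 ∈ _
    rw [x0]
    exact sub_mem (hyL 1) (hyL 2)
  · show xv k 1 ∈ _
    rw [x1]
    exact sub_mem (hyL 2) (hyL 3)
  · show xv k 2 ∈ _
    rw [x2]
    exact hyL 3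
  · show xv k 3 ∈ _
    rw [x3]
    exact div_mem (sub_mem (sub_mem (sub_mem (hyL 0) (hyL 1)) (hyL 2)) (hyL 3)) h2'


theorem F4_algInd : AlgebraicIndependent k
    (![qA (y4 k), qa (y4 k), qS2 (y4 k), qS3 (y4 k)] : Fin 4 → RF k 4) := by
  refine DiscRat.algInd_of (xv_algInd (k := k) (n := 4)) fun i => ?_
  refine F4_alg _ ?_ ?_ ?_ ?_ i
  · exact IntermediateField.subset_adjoin _ _ ⟨0, rfl⟩
  · exact IntermediateField.subset_adjoin _ _ ⟨1, rfl⟩
  · exact IntermediateField.subset_adjoin _ _ ⟨2, rfl⟩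
  · exact IntermediateField.subset_adjoin _ _ ⟨3, rfl⟩

end CM83
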