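import Pool.Agent.H.MP_83e36b_nt.cm.WBasic
import Pool.Agent.H.MP_83e36b_nt.cm.ChevC

/-! Module OddA: the Weyl group acting on polynomials. -/

namespace CM83

open MvPolynomial

universe u

variable (k : Type u) [Field k] {n : ℕ}

/-- the elements of the Weyl group as automorphisms of the polynomial ring -/
noncomputable def polyGroup (A : Matrix (Fin n) (Fin n) ℤ) : Subgroup (AutP k n) where
  carrier := {g | ∃ w ∈ weylGroup k A, ∀ p, algebraMap (MvPolynomial (Fin n) k) (RF k n) (g p) =
    w (algebraMap (MvPolynomial (Fin n) k) (RF k n) p)}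
  mul_mem' := by
    rintro g h ⟨w, hw, hg⟩ ⟨v, hv, hh⟩
    exact ⟨w * v, mul_mem hw hv, fun p => by
      rw [AlgEquiv.mul_apply, hg, hh, AlgEquiv.mul_apply]⟩
  one_mem' := ⟨1, one_mem _, fun p => rfl⟩
  inv_mem' := by
    rintro g ⟨w, hw, hg⟩
    refine ⟨w⁻¹, inv_mem hw, fun p => ?_⟩
    have h1 : g (g⁻¹ p) = p := g.apply_symm_apply p
    apply w.injective
    rw [← hg, h1]
    exact (w.apply_symm_apply _).symm

variable {k}

/-- the image of the variables under a matrix -/
noncomputable def oddA_hom (k : Type u) [Field k] {n : ℕ} (M : Matrix (Fin n) (Fin n) ℤ) :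
    MvPolynomial (Fin n) k →ₐ[k] MvPolynomial (Fin n) k :=
  aeval fun i => ∑ j, (M i j : MvPolynomial (Fin n) k) * X j

theorem oddA_hom_X (M : Matrix (Fin n) (Fin n) ℤ) (i : Fin n) :
    oddA_hom k M (X i) = ∑ j, (M i j : MvPolynomial (Fin n) k) * X j := by
  unfold oddA_hom
  rw [aeval_X]

theorem oddA_sum {R : Type*} [CommRing R] (M N : Matrix (Fin n) (Fin n) ℤ) (x : Fin n → R)
    (i : Fin n) : ∑ j, (N i j : R) * ∑ l, (M j l : R) * x l = ∑ l, ((N * M) i l : R) * x l := by
  simp only [Finset.mul_sum]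
  rw [Finset.sum_comm]
  refine Finset.sum_congr rfl fun l _ => ?_
  rw [Matrix.mul_apply]
  push_cast
  rw [Finset.sum_mul]
  refine Finset.sum_congr rfl fun j _ => ?_
  ring

theorem oddA_one {R : Type*} [CommRing R] (x : Fin n → R) (i : Fin n) :
    ∑ l, ((1 : Matrix (Fin n) (Fin n) ℤ) i l : R) * x l = x i := by
  classical
  rw [Finset.sum_eq_single i]
  · rw [Matrix.one_apply_eq, Int.cast_one, one_mul]
  · intro j _ hj
    rw [Matrix.one_apply_ne (Ne.symm hj), Int.cast_zero, zero_mul]
  · intro h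
    exact absurd (Finset.mem_univ i) h

theorem oddA_hom_comp (M N : Matrix (Fin n) (Fin n) ℤ) (h : N * M = 1) :
    (oddA_hom k M).comp (oddA_hom k N) = AlgHom.id k _ := by
  apply MvPolynomial.algHom_ext
  intro i
  rw [AlgHom.comp_apply, oddA_hom_X, map_sum]
  simp only [map_mul, map_intCast, oddA_hom_X]
  rw [oddA_sum, h, oddA_one, AlgHom.id_apply]

/-- every element of the Weyl group acts on the variables through an integral matrix -/
theorem weyl_matrix {A : Matrix (Fin n) (Fin n) ℤ} (hA : ∀ j, A j j = 2)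
    {w : RF k n ≃ₐ[k] RF k n} (hw : w ∈ weylGroup k A) :
    ∃ M : Matrix (Fin n) (Fin n) ℤ, IsUnit M.det ∧
      ∀ i, w (xv k i) = ∑ j, (M i j : RF k n) * xv k j := by
  classical
  unfold weylGroup at hw
  induction hw using Subgroup.closure_induction with
  | mem σ hσ =>
    obtain ⟨j, hj⟩ := hσ
    let N : Matrix (Fin n) (Fin n) ℤ := Matrix.of fun i l => if l = j then A i j else 0
    have hN : ∀ i l, N i l = if l = j then A i j else 0 := fun i l => rfl
    have hNN : N * N = (2 : ℤ) • N := by
      ext i l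
      rw [Matrix.mul_apply, Finset.sum_eq_single j]
      · rw [hN, hN, Matrix.smul_apply, hN, if_pos rfl, hA, smul_eq_mul]
        by_cases h : l = j
        · rw [if_pos h, if_pos h]
          ring
        · rw [if_neg h, if_neg h]
          ring
      · intro s _ hs
        rw [hN, if_neg hs, zero_mul]
      · intro h
        exact absurd (Finset.mem_univ j) h
    have hMM : (1 - N) * (1 - N) = 1 := by
      rw [sub_mul, mul_sub, mul_sub, hNN, one_mul, mul_one, one_mul, two_smul]
      abel
    refine ⟨1 - N, Matrix.isUnit_det_of_left_inverse hMM, fun i => ?_⟩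
    have h1 : ∀ l, ((1 - N) i l : RF k n) * xv k l =
        ((1 : Matrix (Fin n) (Fin n) ℤ) i l : RF k n) * xv k l - (N i l : RF k n) * xv k l := by
      intro l
      rw [Matrix.sub_apply]
      push_cast
      ring
    rw [hj i, Finset.sum_congr rfl fun l _ => h1 l, Finset.sum_sub_distrib, oddA_one]
    congr 1
    rw [Finset.sum_eq_single j]
    · rw [hN, if_pos rfl]
    · intro s _ hs
      rw [hN, if_neg hs, Int.cast_zero, zero_mul]
    · intro h
      exact absurd (Finset.mem_univ j) h
  | one =>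
    refine ⟨1, by rw [Matrix.det_one]; exact isUnit_one, fun i => ?_⟩
    rw [oddA_one, AlgEquiv.one_apply]
  | mul w v _ _ h1 h2 =>
    obtain ⟨M, hM, hM1⟩ := h1
    obtain ⟨N, hN, hN1⟩ := h2
    refine ⟨N * M, by rw [Matrix.det_mul]; exact hN.mul hM, fun i => ?_⟩
    rw [AlgEquiv.mul_apply, hN1, map_sum]
    simp only [map_mul, map_intCast, hM1]
    rw [oddA_sum]
  | inv w _ h1 =>
    obtain ⟨M, hM, hM1⟩ := h1
    refine ⟨M⁻¹, Matrix.isUnit_nonsing_inv_det M hM, fun i => ?_⟩
    have h2 : w (∑ j, ((M⁻¹) i j : RF k n) * xv k j) = xv k i := by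
      rw [map_sum]
      simp only [map_mul, map_intCast, hM1]
      rw [oddA_sum, Matrix.nonsing_inv_mul M hM, oddA_one]
    have h3 : w⁻¹ (w (∑ j, ((M⁻¹) i j : RF k n) * xv k j)) =
        ∑ j, ((M⁻¹) i j : RF k n) * xv k j := by
      rw [← AlgEquiv.mul_apply, inv_mul_cancel, AlgEquiv.one_apply]
    rw [h2] at h3
    exact h3

/-- every element of the Weyl group comes from the polynomial ring -/
theorem exists_poly {A : Matrix (Fin n) (Fin n) ℤ} (hA : ∀ j, A j j = 2)
    {w : RF k n ≃ₐ[k] RF k n} (hw : w ∈ weylGroup k A) :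
    ∃ g ∈ polyGroup k A, ∀ p, algebraMap (MvPolynomial (Fin n) k) (RF k n) (g p) =
      w (algebraMap (MvPolynomial (Fin n) k) (RF k n) p) := by
  obtain ⟨M, hM, hM1⟩ := weyl_matrix hA hw
  let g : AutP k n := AlgEquiv.ofAlgHom (oddA_hom k M) (oddA_hom k M⁻¹)
    (oddA_hom_comp M M⁻¹ (Matrix.nonsing_inv_mul M hM))
    (oddA_hom_comp M⁻¹ M (Matrix.mul_nonsing_inv M hM))
  have hg : ∀ p, algebraMap (MvPolynomial (Fin n) k) (RF k n) (g p) =
      w (algebraMap (MvPolynomial (Fin n) k) (RF k n) p) := by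
    intro p
    have h1 : (IsScalarTower.toAlgHom k (MvPolynomial (Fin n) k) (RF k n)).comp (oddA_hom k M) =
        (w : RF k n →ₐ[k] RF k n).comp
          (IsScalarTower.toAlgHom k (MvPolynomial (Fin n) k) (RF k n)) := by
      apply MvPolynomial.algHom_ext
      intro i
      have h2 := hM1 i
      rw [AlgHom.comp_apply, AlgHom.comp_apply, oddA_hom_X, map_sum]
      simp only [map_mul, map_intCast]
      exact h2.symm
    exact DFunLike.congr_fun h1 p
  exact ⟨g, ⟨w, hw, hg⟩, hg⟩

theorem oddA_inj : Function.Injective (algebraMap (MvPolynomial (Fin n) k) (RF k n)) :=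
  IsFractionRing.injective _ _

theorem poly_lin (A : Matrix (Fin n) (Fin n) ℤ) (hA : ∀ j, A j j = 2) :
    LinH (polyGroup k A) := by
  rintro g ⟨w, hw, hg⟩ i
  obtain ⟨M, _, hM1⟩ := weyl_matrix hA hw
  have h1 : g (X i) = ∑ j, (M i j : MvPolynomial (Fin n) k) * X j := by
    apply oddA_inj
    rw [hg]
    have h2 := hM1 i
    unfold xv at h2
    rw [h2, map_sum]
    simp only [map_mul, map_intCast]
  rw [h1]
  refine IsHomogeneous.sum _ _ _ fun j _ => ?_
  have h3 : (M i j : MvPolynomial (Fin n) k) = C (M i j : k) := by rw [map_intCast]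
  rw [h3]
  exact (isHomogeneous_X k j).C_mul _

theorem poly_finite (A : Matrix (Fin n) (Fin n) ℤ) (hfin : Finite (weylGroup k A)) :
    Finite (polyGroup k A) := by
  have h : ∀ g : polyGroup k A, ∃ w : weylGroup k A,
      ∀ p, algebraMap (MvPolynomial (Fin n) k) (RF k n) (g.1 p) =
        w.1 (algebraMap (MvPolynomial (Fin n) k) (RF k n) p) := by
    rintro ⟨g, w, hw, hg⟩
    exact ⟨⟨w, hw⟩, hg⟩
  choose f hf using h
  refine Finite.of_injective f fun g g' hgg => ?_
  apply Subtype.ext
  apply AlgEquiv.ext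
  intro p
  apply oddA_inj
  rw [hf, hf, hgg]

/-- the polynomial simple reflections -/
theorem poly_reflGen (A : Matrix (Fin n) (Fin n) ℤ) (hA : ∀ j, A j j = 2) :
    ReflGen (polyGroup k A) {g | ∃ j σ, IsSimpleRefl k A j σ ∧
      ∀ p, algebraMap (MvPolynomial (Fin n) k) (RF k n) (g p) =
        σ (algebraMap (MvPolynomial (Fin n) k) (RF k n) p)} := by
  have hsub : {g : AutP k n | ∃ j σ, IsSimpleRefl k A j σ ∧
      ∀ p, algebraMap (MvPolynomial (Fin n) k) (RF k n) (g p) =
        σ (algebraMap (MvPolynomial (Fin n) k) (RF k n) p)} ⊆ polyGroup k A := by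
    rintro g ⟨j, σ, hσ, hg⟩
    exact ⟨σ, Subgroup.subset_closure ⟨j, hσ⟩, hg⟩
  refine ⟨?_, ?_⟩
  · apply le_antisymm
    · rintro g ⟨w, hw, hg⟩
      have key : ∃ g' ∈ Subgroup.closure {g : AutP k n | ∃ j σ, IsSimpleRefl k A j σ ∧
          ∀ p, algebraMap (MvPolynomial (Fin n) k) (RF k n) (g p) =
            σ (algebraMap (MvPolynomial (Fin n) k) (RF k n) p)},
          ∀ p, algebraMap (MvPolynomial (Fin n) k) (RF k n) (g' p) =
            w (algebraMap (MvPolynomial (Fin n) k) (RF k n) p) := by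
        clear hg
        unfold weylGroup at hw
        induction hw using Subgroup.closure_induction with
        | mem σ hσ =>
          obtain ⟨g', _, hg'1⟩ := exists_poly hA (Subgroup.subset_closure hσ :
            σ ∈ weylGroup k A)
          obtain ⟨j, hj⟩ := hσ
          exact ⟨g', Subgroup.subset_closure ⟨j, σ, hj, hg'1⟩, hg'1⟩
        | one => exact ⟨1, one_mem _, fun p => rfl⟩
        | mul w v _ _ h1 h2 =>
          obtain ⟨a, ha, ha1⟩ := h1
          obtain ⟨b, hb, hb1⟩ := h2
          exact ⟨a * b, mul_mem ha hb, fun p => by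
            rw [AlgEquiv.mul_apply, ha1, hb1, AlgEquiv.mul_apply]⟩
        | inv w _ h1 =>
          obtain ⟨a, ha, ha1⟩ := h1
          refine ⟨a⁻¹, inv_mem ha, fun p => ?_⟩
          have h2 : a (a⁻¹ p) = p := a.apply_symm_apply p
          apply w.injective
          rw [← ha1, h2]
          exact (w.apply_symm_apply _).symm
      obtain ⟨g', hg', hg'1⟩ := key
      have h3 : g = g' := by
        apply AlgEquiv.ext
        intro p
        apply oddA_inj
        rw [hg, hg'1]
      rw [h3]
      exact hg'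
    · exact (Subgroup.closure_le _).2 hsub
  · rintro s ⟨j, σ, hσ, hs⟩
    refine ⟨X j, X_ne_zero j, isHomogeneous_X k j, fun p => ?_⟩
    induction p using MvPolynomial.induction_on with
    | C c =>
      have h1 : s (C c) = C c := s.commutes c
      rw [h1, sub_self]
      exact dvd_zero _
    | add p q hp hq =>
      have h1 : p + q - s (p + q) = (p - s p) + (q - s q) := by
        rw [map_add]
        ring
      rw [h1]
      exact dvd_add hp hq
    | mul_X p i hp =>
      have h2 : s (X i) = X i - (A i j : MvPolynomial (Fin n) k) * X j := by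
        apply oddA_inj
        have h4 := hσ i
        unfold xv at h4
        rw [hs, h4, map_sub, map_mul, map_intCast]
      have h3 : p * X i - s (p * X i) = (p - s p) * X i +
          X j * (s p * (A i j : MvPolynomial (Fin n) k)) := by
        rw [map_mul, h2]
        ring
      rw [h3]
      exact dvd_add (Dvd.dvd.mul_right hp _) (dvd_mul_right _ _)

/-- elements of the invariant field are quotients of invariant polynomials -/
theorem fixed_eq_div (A : Matrix (Fin n) (Fin n) ℤ) (hA : ∀ j, A j j = 2)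
    (hfin : Finite (weylGroup k A)) {z : RF k n}
    (hz : z ∈ IntermediateField.fixedField (weylGroup k A)) :
    ∃ p q : MvPolynomial (Fin n) k, InvP (polyGroup k A) p ∧ InvP (polyGroup k A) q ∧ q ≠ 0 ∧
      z = algebraMap _ (RF k n) p / algebraMap _ (RF k n) q := by
  classical
  have hfp := poly_finite (k := k) A hfin
  have hft := Fintype.ofFinite (polyGroup k A)
  obtain ⟨p, q, hq, rfl⟩ := IsFractionRing.div_surjective (MvPolynomial (Fin n) k) z
  have hq0 : q ≠ 0 := nonZeroDivisors.ne_zero hq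
  let N : MvPolynomial (Fin n) k := ∏ g : polyGroup k A, (g : AutP k n) q
  have hN0 : N ≠ 0 := Finset.prod_ne_zero_iff.2 fun g _ => by
    intro h
    apply hq0
    apply (g : AutP k n).injective
    rw [h, map_zero]
  have hNinv : InvP (polyGroup k A) N := by
    intro g hg
    change g (∏ g : polyGroup k A, (g : AutP k n) q) = _
    rw [map_prod]
    exact Fintype.prod_equiv (Equiv.mulLeft (⟨g, hg⟩ : polyGroup k A)) _ _ fun h => rfl
  obtain ⟨q', hq'⟩ : q ∣ N :=
    Finset.dvd_prod_of_mem (fun g : polyGroup k A => (g : AutP k n) q) (Finset.mem_univ 1)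
  have hq1 : algebraMap (MvPolynomial (Fin n) k) (RF k n) q ≠ 0 := fun h => hq0 (oddA_inj (by
    rw [h, map_zero]))
  have hN1 : algebraMap (MvPolynomial (Fin n) k) (RF k n) N ≠ 0 := fun h => hN0 (oddA_inj (by
    rw [h, map_zero]))
  have hz1 : algebraMap (MvPolynomial (Fin n) k) (RF k n) p /
      algebraMap (MvPolynomial (Fin n) k) (RF k n) q =
      algebraMap (MvPolynomial (Fin n) k) (RF k n) (p * q') /
        algebraMap (MvPolynomial (Fin n) k) (RF k n) N := by
    rw [div_eq_div_iff hq1 hN1, hq', map_mul, map_mul]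
    ring
  rw [hz1] at hz ⊢
  refine ⟨p * q', N, ?_, hNinv, hN0, rfl⟩
  intro g hg
  obtain ⟨w, hw, hgw⟩ := hg
  have h1 := (IntermediateField.mem_fixedField_iff _ _).1 hz w hw
  rw [map_div₀, ← hgw, ← hgw, hNinv g ⟨w, hw, hgw⟩, div_left_inj' hN1] at h1
  exact oddA_inj h1

end CM83
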