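import Pool.Agent.H.MP_83e36b_nt.cm.OddA

/-! Module OddB: an invariant quadratic form and an anti-invariant polynomial. -/

namespace CM83

open MvPolynomial

universe u

variable {k : Type u} [Field k] [CharZero k] {n : ℕ}

set_option linter.unusedSectionVars false
set_option linter.style.haveILetI false

/-- there is an invariant quadratic form -/
theorem exists_quad (A : Matrix (Fin n) (Fin n) ℤ) (hA : ∀ j, A j j = 2)
    (hfin : Finite (weylGroup k A)) (hn : 0 < n) :
    ∃ q : MvPolynomial (Fin n) k, q ≠ 0 ∧ q.IsHomogeneous 2 ∧ InvP (polyGroup k A) q := by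
  have hf : Finite (polyGroup k A) := poly_finite A hfin
  have hl : LinH (polyGroup k A) := poly_lin A hA
  let i0 : Fin n := ⟨0, hn⟩
  refine ⟨avg (polyGroup k A) (X i0 ^ 2), ?_, ?_, avg_inv _ _⟩
  swap
  · exact avg_homog hl (by simpa using (isHomogeneous_X k i0).pow 2)
  intro h0
  let e : Fin n → k := fun i => if i = i0 then 1 else 0
  have hint : ∀ g : polyGroup k A, ∃ m : ℤ, eval e ((g : AutP k n) (X i0)) = (m : k) := by
    rintro ⟨g, w, hw, hg⟩
    obtain ⟨M, -, hM⟩ := weyl_matrix hA hw
    refine ⟨M i0 i0, ?_⟩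
    have h1 : g (X i0) = ∑ j, (M i0 j : MvPolynomial (Fin n) k) * X j := by
      apply IsFractionRing.injective (MvPolynomial (Fin n) k) (RF k n)
      rw [hg, map_sum]
      refine (hM i0).trans (Finset.sum_congr rfl fun j _ => ?_)
      rw [map_mul, map_intCast]
      rfl
    change eval e (g (X i0)) = _
    rw [h1, map_sum]
    simp [e]
  choose m hm using hint
  letI := Fintype.ofFinite (polyGroup k A)
  have h2 : (∑ g : polyGroup k A, ((m g : ℤ) : k) ^ 2) = 0 := by
    have h3 := congrArg (eval e) h0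
    unfold avg at h3
    rw [map_mul, eval_C, map_sum, map_zero] at h3
    rcases mul_eq_zero.1 h3 with h4 | h4
    · exfalso
      rw [inv_eq_zero] at h4
      have h5 : Fintype.card (polyGroup k A) = 0 := by exact_mod_cast h4
      exact Fintype.card_ne_zero h5
    · rw [← h4]
      refine Finset.sum_congr rfl fun g _ => ?_
      rw [map_pow, map_pow, hm]
  have h3 : (∑ g : polyGroup k A, (m g) ^ 2) = 0 := by exact_mod_cast h2
  have h4 := (Finset.sum_eq_zero_iff_of_nonneg (fun g _ => sq_nonneg (m g))).1 h3 1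
    (Finset.mem_univ _)
  have h5 : m 1 = 0 := by
    rwa [sq_eq_zero_iff] at h4
  have h6 := hm 1
  rw [h5] at h6
  simp [e] at h6

/-- the matrix of a field automorphism acting linearly -/
def oddb_IsMat (w : RF k n ≃ₐ[k] RF k n) (M : Matrix (Fin n) (Fin n) ℤ) : Prop :=
  ∀ i, w (xv k i) = ∑ j, (M i j : RF k n) * xv k j

theorem oddb_unique {w : RF k n ≃ₐ[k] RF k n} {M N : Matrix (Fin n) (Fin n) ℤ}
    (hM : oddb_IsMat w M) (hN : oddb_IsMat w N) : M = N := by
  classical
  have h1 : ∀ (M : Matrix (Fin n) (Fin n) ℤ) (i : Fin n), ∑ j, (M i j : RF k n) * xv k j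
      = algebraMap (MvPolynomial (Fin n) k) (RF k n)
        (∑ j, (M i j : MvPolynomial (Fin n) k) * X j) := by
    intro M i
    rw [map_sum]
    refine Finset.sum_congr rfl fun j _ => ?_
    rw [map_mul, map_intCast]
    rfl
  have h2 : ∀ i, (∑ j, (M i j : MvPolynomial (Fin n) k) * X j)
      = ∑ j, (N i j : MvPolynomial (Fin n) k) * X j := by
    intro i
    apply IsFractionRing.injective (MvPolynomial (Fin n) k) (RF k n)
    rw [← h1, ← h1, ← hM i, hN i]
  ext i j
  have h3 := congrArg (eval (fun l => if l = j then (1 : k) else 0)) (h2 i)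
  rw [map_sum, map_sum] at h3
  simp at h3
  exact_mod_cast h3

theorem oddb_mul {w v : RF k n ≃ₐ[k] RF k n} {M N : Matrix (Fin n) (Fin n) ℤ}
    (hM : oddb_IsMat w M) (hN : oddb_IsMat v N) : oddb_IsMat (w * v) (N * M) := by
  intro i
  rw [AlgEquiv.mul_apply, hN i, map_sum]
  have h1 : ∀ j, w ((N i j : RF k n) * xv k j) = ∑ l, (N i j : RF k n) * (M j l : RF k n) *
      xv k l := by
    intro j
    rw [map_mul, map_intCast, hM j, Finset.mul_sum]
    exact Finset.sum_congr rfl fun l _ => by ring
  rw [Finset.sum_congr rfl fun j _ => h1 j, Finset.sum_comm]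
  refine Finset.sum_congr rfl fun l _ => ?_
  rw [Matrix.mul_apply, ← Finset.sum_mul]
  push_cast
  rfl

theorem oddb_one : oddb_IsMat (1 : RF k n ≃ₐ[k] RF k n) 1 := by
  classical
  intro i
  rw [AlgEquiv.one_apply, Finset.sum_eq_single i]
  · simp
  · intro j _ hj
    rw [Matrix.one_apply_ne hj.symm]
    simp
  · intro h
    exact absurd (Finset.mem_univ i) h

theorem oddb_refl {A : Matrix (Fin n) (Fin n) ℤ} {j : Fin n} {σ : RF k n ≃ₐ[k] RF k n}
    (hσ : IsSimpleRefl k A j σ) :
    oddb_IsMat σ ((1 : Matrix (Fin n) (Fin n) ℤ).updateCol j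
      (fun i => (1 : Matrix (Fin n) (Fin n) ℤ) i j - A i j)) := by
  classical
  intro i
  have h1 := oddb_one (k := k) (n := n) i
  rw [AlgEquiv.one_apply] at h1
  rw [hσ i, h1]
  have h2 : (A i j : RF k n) * xv k j
      = ∑ l, (if l = j then (A i j : RF k n) * xv k j else 0) := by simp
  rw [h2, ← Finset.sum_sub_distrib]
  refine Finset.sum_congr rfl fun l _ => ?_
  by_cases hl : l = j
  · subst hl
    rw [if_pos rfl, Matrix.updateCol_self]
    push_cast
    ring
  · rw [if_neg hl, Matrix.updateCol_ne hl, sub_zero]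

theorem oddb_refl_det {A : Matrix (Fin n) (Fin n) ℤ} {j : Fin n} (hj : A j j = 2) :
    ((1 : Matrix (Fin n) (Fin n) ℤ).updateCol j
      (fun i => (1 : Matrix (Fin n) (Fin n) ℤ) i j - A i j)).det = -1 := by
  rw [← Matrix.cramer_apply, Matrix.cramer_one]
  change (1 : Matrix (Fin n) (Fin n) ℤ) j j - A j j = -1
  rw [hj, Matrix.one_apply_eq]
  norm_num

/-- the sign on the Weyl group -/
theorem oddb_sign (A : Matrix (Fin n) (Fin n) ℤ) (hA : ∀ j, A j j = 2) :
    ∃ s : weylGroup k A → ℤ, (∀ w, s w * s w = 1) ∧ (∀ w v, s (w * v) = s w * s v) ∧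
      (∀ (w : weylGroup k A) (M : Matrix (Fin n) (Fin n) ℤ), oddb_IsMat (w : RF k n ≃ₐ[k] RF k n) M →
        s w = M.det) := by
  have hex : ∀ w : weylGroup k A, ∃ M : Matrix (Fin n) (Fin n) ℤ, IsUnit M.det ∧
      oddb_IsMat (w : RF k n ≃ₐ[k] RF k n) M := fun w => weyl_matrix hA w.2
  choose M hM1 hM2 using hex
  refine ⟨fun w => (M w).det, ?_, ?_, ?_⟩
  · intro w
    rcases Int.isUnit_iff.1 (hM1 w) with h | h
    · change (M w).det * (M w).det = 1
      rw [h]; norm_num
    · change (M w).det * (M w).det = 1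
      rw [h]; norm_num
  · intro w v
    have h1 := oddb_unique (hM2 (w * v)) (oddb_mul (hM2 w) (hM2 v))
    change (M (w * v)).det = (M w).det * (M v).det
    rw [h1, Matrix.det_mul, mul_comm]
  · intro w N hN
    change (M w).det = N.det
    rw [oddb_unique (hM2 w) hN]

/-- a nonzero anti-invariant rational function -/
theorem oddb_delta (A : Matrix (Fin n) (Fin n) ℤ) (hfin : Finite (weylGroup k A))
    (s : weylGroup k A → ℤ) (hs1 : ∀ w, s w * s w = 1) (hs2 : ∀ w v, s (w * v) = s w * s v) :
    ∃ δ : RF k n, δ ≠ 0 ∧ ∀ w : weylGroup k A,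
      (w : RF k n ≃ₐ[k] RF k n) δ = (s w : RF k n) * δ := by
  classical
  letI := Fintype.ofFinite (weylGroup k A)
  have hcz : CharZero (RF k n) := charZero_of_injective_algebraMap
    (algebraMap k (RF k n)).injective
  have hex : ∃ z : RF k n, ∑ w : weylGroup k A, (s w : RF k n) * (w : RF k n ≃ₐ[k] RF k n) z ≠ 0 := by
    by_contra hcon
    push Not at hcon
    let c : weylGroup k A → (RF k n →* RF k n) :=
      fun w => ((w : RF k n ≃ₐ[k] RF k n) : RF k n →* RF k n)
    have hinj : Function.Injective c := by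
      intro w v hwv
      apply Subtype.ext
      ext z
      exact DFunLike.congr_fun hwv z
    have hli := (linearIndependent_monoidHom (RF k n) (RF k n)).comp c hinj
    rw [Fintype.linearIndependent_iff] at hli
    have h1 := hli (fun w => (s w : RF k n)) (by
      funext z
      have h2 := hcon z
      rw [Finset.sum_apply]
      exact h2) 1
    have h3 : s 1 = 0 := by exact_mod_cast h1
    have h4 := hs1 1
    rw [h3] at h4
    norm_num at h4
  obtain ⟨z, hz⟩ := hex
  refine ⟨_, hz, fun w => ?_⟩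
  have h1 : ∀ v : weylGroup k A, (w : RF k n ≃ₐ[k] RF k n)
      ((s v : RF k n) * (v : RF k n ≃ₐ[k] RF k n) z)
      = (s w : RF k n) * ((s (w * v) : RF k n) *
        ((w * v : weylGroup k A) : RF k n ≃ₐ[k] RF k n) z) := by
    intro v
    rw [map_mul, map_intCast, hs2]
    have h2 : ((s w : ℤ) : RF k n) * (s w : RF k n) = 1 := by exact_mod_cast hs1 w
    have h3 : ((w * v : weylGroup k A) : RF k n ≃ₐ[k] RF k n) z
        = (w : RF k n ≃ₐ[k] RF k n) ((v : RF k n ≃ₐ[k] RF k n) z) := rfl
    rw [h3]
    push_cast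
    linear_combination (-(s v : RF k n) * (w : RF k n ≃ₐ[k] RF k n)
      ((v : RF k n ≃ₐ[k] RF k n) z)) * h2
  rw [map_sum, Finset.sum_congr rfl fun v _ => h1 v, ← Finset.mul_sum]
  congr 1
  exact Fintype.sum_bijective (fun v => w * v) (Group.mulLeft_bijective w) _ _ fun v => rfl

theorem oddb_neg_homog (g : AutP k n) (hg : ∀ i, g (X i) = - X i) {p : MvPolynomial (Fin n) k}
    {e : ℕ} (hp : p.IsHomogeneous e) : g p = (-1) ^ e * p := by
  have h1 : ∀ q : MvPolynomial (Fin n) k, g q = aeval (fun i : Fin n =>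
      (- X i : MvPolynomial (Fin n) k)) q := by
    intro q
    have h2 : (g : MvPolynomial (Fin n) k →ₐ[k] MvPolynomial (Fin n) k)
        = aeval (fun i : Fin n => (- X i : MvPolynomial (Fin n) k)) := by
      apply MvPolynomial.algHom_ext
      intro i
      rw [aeval_X]
      exact hg i
    exact DFunLike.congr_fun h2 q
  have h3 : ∀ m ∈ p.support, g (monomial m (coeff m p)) = (-1) ^ e * monomial m (coeff m p) := by
    intro m hm
    rw [h1, aeval_monomial]
    have h4 : m.degree = e := by
      by_contra hne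
      exact (mem_support_iff.1 hm) (hp.coeff_eq_zero hne)
    have h5 : (m.prod fun i (l : ℕ) => (- X i : MvPolynomial (Fin n) k) ^ l)
        = (-1) ^ e * m.prod fun i l => (X i : MvPolynomial (Fin n) k) ^ l := by
      rw [← h4, Finsupp.degree_apply, Finsupp.prod, Finsupp.prod, ← Finset.prod_pow_eq_pow_sum,
        ← Finset.prod_mul_distrib]
      refine Finset.prod_congr rfl fun i _ => ?_
      rw [neg_pow]
    rw [h5, monomial_eq]
    change C _ * _ = _
    ring
  conv_lhs => rw [p.as_sum, map_sum, Finset.sum_congr rfl h3, ← Finset.mul_sum]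
  rw [← p.as_sum]

/-- there is a homogeneous anti-invariant polynomial; its degree has the parity of `n` if `-1`
belongs to the Weyl group -/
theorem exists_anti (A : Matrix (Fin n) (Fin n) ℤ) (hA : ∀ j, A j j = 2)
    (hfin : Finite (weylGroup k A)) (h1 : ∃ w ∈ weylGroup k A, ∀ i, w (xv k i) = - xv k i)
    (hn : Odd n) :
    ∃ (p : MvPolynomial (Fin n) k) (e : ℕ), p ≠ 0 ∧ p.IsHomogeneous e ∧ Odd e ∧
      ∀ j σ, IsSimpleRefl k A j σ →
        σ (algebraMap (MvPolynomial (Fin n) k) (RF k n) p) = - algebraMap _ (RF k n) p := by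
  classical
  have hf : Finite (polyGroup k A) := poly_finite A hfin
  have hl : LinH (polyGroup k A) := poly_lin A hA
  obtain ⟨s, hs1, hs2, hs3⟩ := oddb_sign (k := k) A hA
  obtain ⟨δ, hδ0, hδ⟩ := oddb_delta A hfin s hs1 hs2
  letI := Fintype.ofFinite (polyGroup k A)
  obtain ⟨a, b, hb, hab⟩ := IsFractionRing.div_surjective (MvPolynomial (Fin n) k) δ
  have hb0 : b ≠ 0 := nonZeroDivisors.ne_zero hb
  have hinj := IsFractionRing.injective (MvPolynomial (Fin n) k) (RF k n)
  let N : MvPolynomial (Fin n) k := ∏ g : polyGroup k A, (g : AutP k n) b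
  let P : MvPolynomial (Fin n) k :=
    a * ∏ g ∈ Finset.univ.erase (1 : polyGroup k A), (g : AutP k n) b
  have hN : b * ∏ g ∈ Finset.univ.erase (1 : polyGroup k A), (g : AutP k n) b = N := by
    have h2 := Finset.mul_prod_erase (Finset.univ : Finset (polyGroup k A))
      (fun g => (g : AutP k n) b) (Finset.mem_univ 1)
    exact h2
  have hb1 : algebraMap (MvPolynomial (Fin n) k) (RF k n) b ≠ 0 := by
    intro h
    exact hb0 (hinj (h.trans (map_zero _).symm))
  have hPN : algebraMap (MvPolynomial (Fin n) k) (RF k n) P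
      = algebraMap (MvPolynomial (Fin n) k) (RF k n) N * δ := by
    rw [← hab, ← hN]
    change algebraMap (MvPolynomial (Fin n) k) (RF k n) (a * _) = _
    rw [map_mul, map_mul]
    field_simp
  have hN0 : N ≠ 0 := by
    refine Finset.prod_ne_zero_iff.2 fun g _ => ?_
    intro h
    exact hb0 ((g : AutP k n).injective (h.trans (map_zero _).symm))
  have hNinv : ∀ g ∈ polyGroup k A, g N = N := by
    intro g hg
    change g (∏ h : polyGroup k A, (h : AutP k n) b) = _
    rw [map_prod]
    exact Fintype.prod_bijective (fun h : polyGroup k A => (⟨g, hg⟩ : polyGroup k A) * h)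
      (Group.mulLeft_bijective _) _ _ fun h => rfl
  have hP0 : P ≠ 0 := by
    intro h
    rw [h, map_zero] at hPN
    rcases mul_eq_zero.1 hPN.symm with h2 | h2
    · exact hN0 (hinj (h2.trans (map_zero _).symm))
    · exact hδ0 h2
  -- action of the elements of the group on P
  have hact : ∀ (g : AutP k n) (w : RF k n ≃ₐ[k] RF k n) (hw : w ∈ weylGroup k A),
      (∀ p, algebraMap (MvPolynomial (Fin n) k) (RF k n) (g p) =
        w (algebraMap (MvPolynomial (Fin n) k) (RF k n) p)) →
      g P = (s ⟨w, hw⟩ : MvPolynomial (Fin n) k) * P := by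
    intro g w hw hg
    apply hinj
    have h2 : w (algebraMap (MvPolynomial (Fin n) k) (RF k n) N)
        = algebraMap (MvPolynomial (Fin n) k) (RF k n) N := by
      rw [← hg, hNinv g ⟨w, hw, hg⟩]
    rw [hg, hPN, map_mul, map_mul, h2, hPN, map_intCast]
    have h3 := hδ ⟨w, hw⟩
    change w δ = _ at h3
    rw [h3]
    ring
  obtain ⟨e, he⟩ : ∃ e, homogeneousComponent e P ≠ 0 := by
    by_contra hcon
    push Not at hcon
    apply hP0
    rw [← sum_homogeneousComponent P]
    exact Finset.sum_eq_zero fun i _ => hcon i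
  have hcomp : ∀ (g : AutP k n) (hg : g ∈ polyGroup k A) (c : ℤ),
      g P = (c : MvPolynomial (Fin n) k) * P →
      g (homogeneousComponent e P) = (c : MvPolynomial (Fin n) k) * homogeneousComponent e P := by
    intro g hg c hc
    rw [← act_component hl hg, hc]
    have h2 : (c : MvPolynomial (Fin n) k) = C (c : k) := by simp
    rw [h2, homogeneousComponent_C_mul]
  refine ⟨homogeneousComponent e P, e, he, homogeneousComponent_isHomogeneous e P, ?_, ?_⟩
  · obtain ⟨w, hw, hwx⟩ := h1
    obtain ⟨g, hg, hgw⟩ := exists_poly hA hw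
    have h2 : s ⟨w, hw⟩ = -1 := by
      have h3 : oddb_IsMat w (-1 : Matrix (Fin n) (Fin n) ℤ) := by
        intro i
        have h4 := oddb_one (k := k) (n := n) i
        rw [AlgEquiv.one_apply] at h4
        rw [hwx i]
        conv_lhs => rw [h4]
        rw [← Finset.sum_neg_distrib]
        refine Finset.sum_congr rfl fun j _ => ?_
        rw [Matrix.neg_apply]
        push_cast
        ring
      rw [hs3 ⟨w, hw⟩ _ h3, Matrix.det_neg, Matrix.det_one, Fintype.card_fin, mul_one]
      exact hn.neg_one_pow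
    have h3 := hcomp g hg _ (hact g w hw hgw)
    rw [h2] at h3
    have h4 : ∀ i, g (X i) = - X i := by
      intro i
      apply hinj
      rw [hgw, map_neg]
      exact hwx i
    rw [oddb_neg_homog g h4 (homogeneousComponent_isHomogeneous e P)] at h3
    by_contra hne
    rw [Nat.not_odd_iff_even] at hne
    rw [hne.neg_one_pow, one_mul] at h3
    apply he
    have h5 : (2 : MvPolynomial (Fin n) k) * homogeneousComponent e P = 0 := by
      push_cast at h3
      linear_combination h3
    rcases mul_eq_zero.1 h5 with h6 | h6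
    · exact absurd h6 two_ne_zero
    · exact h6
  · intro j σ hσ
    have hw : σ ∈ weylGroup k A := Subgroup.subset_closure ⟨j, hσ⟩
    obtain ⟨g, hg, hgw⟩ := exists_poly hA hw
    have h2 : s ⟨σ, hw⟩ = -1 := by
      rw [hs3 ⟨σ, hw⟩ _ (oddb_refl hσ), oddb_refl_det (hA j)]
    have h3 := hcomp g hg _ (hact g σ hw hgw)
    rw [h2] at h3
    rw [← hgw, h3, map_mul, map_intCast, Int.cast_neg, Int.cast_one, neg_one_mul]

end CM83
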