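import Pool.Agent.H.MP_83e36b_nt.cm.OddB
import Pool.Agent.H.MP_83e36b_nt.cm.ChevE

/-! Module OddC: the case where `-1` belongs to the group and the dimension is odd. -/

namespace CM83

open MvPolynomial

universe u

/-- a homogeneous polynomial expression of homogeneous elements only involves the monomials of the
right degree -/
theorem OddC_expand {k : Type u} [Field k] {n : ℕ} (f : Fin n → MvPolynomial (Fin n) k)
    (d : Fin n → ℕ) (hf : ∀ i, (f i).IsHomogeneous (d i)) {p : MvPolynomial (Fin n) k}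
    (hp : p ∈ Algebra.adjoin k (Set.range f)) {m : ℕ} (hpm : p.IsHomogeneous m) :
    ∃ (S : Finset (Fin n →₀ ℕ)) (c : (Fin n →₀ ℕ) → k), (∀ s ∈ S, ∑ i, d i * s i = m) ∧
      p = ∑ s ∈ S, C (c s) * ∏ i, f i ^ s i := by
  rw [Algebra.adjoin_range_eq_range_aeval] at hp
  obtain ⟨P, hP⟩ := hp
  have hP' : aeval f P = p := hP
  rw [aeval_def, eval₂_eq'] at hP'
  refine ⟨P.support.filter fun s => ∑ i, d i * s i = m, fun s => P.coeff s,
    fun s hs => (Finset.mem_filter.1 hs).2, ?_⟩
  have hT : ∀ s : Fin n →₀ ℕ, (C (P.coeff s) * ∏ i, f i ^ s i).IsHomogeneous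
      (∑ i, d i * s i) := by
    intro s
    exact (IsHomogeneous.prod _ _ _ fun i _ => (hf i).pow (s i)).C_mul _
  have h1 := homogeneousComponent_eq_self hpm
  conv_lhs => rw [← h1, ← hP']
  rw [map_sum, Finset.sum_filter]
  refine Finset.sum_congr rfl fun s _ => ?_
  rw [algebraMap_eq, homogeneousComponent_of_mem ((mem_homogeneousSubmodule _ _).2 (hT s))]
  by_cases hs : ∑ i, d i * s i = m
  · rw [if_pos hs.symm, if_pos hs]
  · rw [if_neg (Ne.symm hs), if_neg hs]

theorem OddC_algC {k : Type u} [Field k] {n : ℕ} (c : k) :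
    algebraMap (MvPolynomial (Fin n) k) (RF k n) (C c) = algebraMap k (RF k n) c := by
  rw [IsScalarTower.algebraMap_apply k (MvPolynomial (Fin n) k) (RF k n)]
  rfl

/-- a polynomial expression of homogeneous elements, divided by a power of a quadratic one -/
theorem adjoin_homog_div {k : Type u} [Field k] {n : ℕ} (f : Fin n → MvPolynomial (Fin n) k)
    (d : Fin n → ℕ) (hf : ∀ i, (f i).IsHomogeneous (d i)) (hd : ∀ i, Even (d i)) (i0 : Fin n)
    (h0 : d i0 = 2) (hf0 : f i0 ≠ 0) {p : MvPolynomial (Fin n) k}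
    (hp : p ∈ Algebra.adjoin k (Set.range f)) {e : ℕ} (hpe : p.IsHomogeneous (2 * e))
    (L : IntermediateField k (RF k n))
    (hL : ∀ i, algebraMap _ (RF k n) (f i) / algebraMap _ (RF k n) (f i0) ^ (d i / 2) ∈ L) :
    algebraMap _ (RF k n) p / algebraMap _ (RF k n) (f i0) ^ e ∈ L := by
  obtain ⟨S, c, hS, hsum⟩ := OddC_expand f d hf hp hpe
  rw [hsum, map_sum, Finset.sum_div]
  refine sum_mem fun s hs => ?_
  have hF0 : algebraMap _ (RF k n) (f i0) ≠ 0 := by
    intro h
    exact hf0 ((map_eq_zero_iff _ (IsFractionRing.injective (MvPolynomial (Fin n) k) (RF k n))).1 h)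
  have he : ∑ i, d i / 2 * s i = e := by
    have h1 : ∑ i, d i * s i = 2 * ∑ i, d i / 2 * s i := by
      rw [Finset.mul_sum]
      refine Finset.sum_congr rfl fun i _ => ?_
      obtain ⟨r, hr⟩ := hd i
      have h2 : d i / 2 = r := by omega
      rw [h2, hr]
      ring
    have h3 := hS s hs
    omega
  have hpow : algebraMap _ (RF k n) (f i0) ^ e =
      ∏ i, (algebraMap _ (RF k n) (f i0) ^ (d i / 2)) ^ s i := by
    simp only [← pow_mul]
    rw [Finset.prod_pow_eq_pow_sum, he]
  have h4 : algebraMap _ (RF k n) (C (c s) * ∏ i, f i ^ s i) / algebraMap _ (RF k n) (f i0) ^ e =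
      algebraMap k (RF k n) (c s) *
        ∏ i, (algebraMap _ (RF k n) (f i) / algebraMap _ (RF k n) (f i0) ^ (d i / 2)) ^ s i := by
    rw [hpow, map_mul, OddC_algC, map_prod, mul_div_assoc, ← Finset.prod_div_distrib]
    congr 1
    refine Finset.prod_congr rfl fun i _ => ?_
    rw [map_pow, div_pow]
  rw [h4]
  exact mul_mem (IntermediateField.algebraMap_mem _ _)
    (prod_mem fun i _ => pow_mem (hL i) _)

/-- the automorphism `-1` on homogeneous polynomials -/
theorem OddC_neg {k : Type u} [Field k] {n : ℕ} {w : RF k n ≃ₐ[k] RF k n}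
    (hw : ∀ i, w (xv k i) = - xv k i) {p : MvPolynomial (Fin n) k} {m : ℕ}
    (hp : p.IsHomogeneous m) :
    w (algebraMap _ (RF k n) p) = (-1) ^ m * algebraMap _ (RF k n) p := by
  have h1 : ∀ q : MvPolynomial (Fin n) k, algebraMap _ (RF k n) q = aeval (xv k) q := by
    intro q
    have h2 : IsScalarTower.toAlgHom k (MvPolynomial (Fin n) k) (RF k n) = aeval (xv k) := by
      apply MvPolynomial.algHom_ext
      intro i
      rw [aeval_X]
      rfl
    exact DFunLike.congr_fun h2 q
  have h2 : w (aeval (xv k) p) = aeval (fun i => - xv k i) p := by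
    have h3 : (w : RF k n →ₐ[k] RF k n).comp (aeval (xv k)) = aeval (fun i => - xv k i) := by
      apply MvPolynomial.algHom_ext
      intro i
      rw [AlgHom.comp_apply, aeval_X, aeval_X]
      exact hw i
    exact DFunLike.congr_fun h3 p
  rw [h1, h2, aeval_def, aeval_def, eval₂_eq', eval₂_eq', Finset.mul_sum]
  refine Finset.sum_congr rfl fun s hs => ?_
  have h3 : ∑ i, s i = m := by
    have h4 := hp.degree_eq_sum_deg_support hs
    rw [h4]
    exact (Finset.sum_subset (Finset.subset_univ _)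
      (fun i _ hi => Finsupp.notMem_support_iff.1 hi)).symm
  have h5 : ∏ i, (- xv k i) ^ s i = (-1) ^ m * ∏ i, xv k i ^ s i := by
    rw [← h3, ← Finset.prod_pow_eq_pow_sum, ← Finset.prod_mul_distrib]
    refine Finset.prod_congr rfl fun i _ => ?_
    rw [← neg_one_mul, mul_pow]
  rw [h5]
  ring

theorem good_odd {k : Type u} [Field k] [CharZero k] {n : ℕ} (A : Matrix (Fin n) (Fin n) ℤ)
    (hA : ∀ j, A j j = 2) (hfin : Finite (weylGroup k A))
    (h1 : ∃ w ∈ weylGroup k A, ∀ i, w (xv k i) = - xv k i) (hn : Odd n) : Good k A := by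
  have hcz : CharZero (RF k n) := charZero_of_injective_algebraMap
    (algebraMap k (RF k n)).injective
  have hinj := IsFractionRing.injective (MvPolynomial (Fin n) k) (RF k n)
  have hpf := poly_finite (k := k) A hfin
  obtain ⟨f, d, hd0, hf, hinv, hind, hgen⟩ :=
    chevalley (polyGroup k A) (poly_lin A hA) (poly_reflGen A hA)
  -- invariant polynomials are fixed
  have hfixp : ∀ p, InvP (polyGroup k A) p → ∀ w ∈ weylGroup k A,
      w (algebraMap _ (RF k n) p) = algebraMap _ (RF k n) p := by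
    intro p hp w hw
    obtain ⟨g, hg, hgw⟩ := exists_poly hA hw
    rw [← hgw, hp g hg]
  have hF : ∀ i, algebraMap _ (RF k n) (f i) ≠ 0 := by
    intro i h
    exact hind.ne_zero i ((map_eq_zero_iff _ hinj).1 h)
  -- the degrees are even
  have hdev : ∀ i, Even (d i) := by
    intro i
    obtain ⟨w, hw, hwx⟩ := h1
    have h2 := OddC_neg hwx (hf i)
    rw [hfixp _ (hinv i) w hw] at h2
    by_contra hodd
    rw [Nat.not_even_iff_odd] at hodd
    rw [hodd.neg_one_pow, neg_one_mul] at h2
    exact hF i (self_eq_neg.1 h2)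
  -- one of the degrees is two
  obtain ⟨i0, hi0⟩ : ∃ i0, d i0 = 2 := by
    obtain ⟨q, hq0, hq2, hqi⟩ := exists_quad (k := k) A hA hfin hn.pos
    obtain ⟨S, c, hS, hsum⟩ := OddC_expand f d hf (hgen q hqi) hq2
    by_contra hcon
    apply hq0
    have hS0 : S = ∅ := by
      rw [Finset.eq_empty_iff_forall_notMem]
      intro s hs
      have h2 := hS s hs
      have h4 : ∀ i, 4 ≤ d i := by
        intro i
        have h3 := hd0 i
        obtain ⟨r, hr⟩ := hdev i
        have h5 : d i ≠ 2 := fun h => hcon ⟨i, h⟩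
        omega
      have h5 : ∀ i, s i = 0 := by
        intro i
        by_contra hsi
        have h6 : d i * s i ≤ ∑ j, d j * s j :=
          Finset.single_le_sum (f := fun j => d j * s j) (fun _ _ => Nat.zero_le _)
            (Finset.mem_univ i)
        have h7 := Nat.mul_le_mul (h4 i) (Nat.one_le_iff_ne_zero.2 hsi)
        omega
      rw [Finset.sum_eq_zero (fun i _ => by rw [h5 i, mul_zero])] at h2
      omega
    rw [hsum, hS0, Finset.sum_empty]
  obtain ⟨pa, e, hpa0, hpa, ⟨r, hr⟩, hanti⟩ := exists_anti (k := k) A hA hfin h1 hn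
  have hDa : algebraMap _ (RF k n) pa ≠ 0 := fun h => hpa0 ((map_eq_zero_iff _ hinj).1 h)
  -- the square is invariant
  have hinv2 : InvP (polyGroup k A) (pa ^ 2) := by
    rintro g ⟨w, hw, hg⟩
    apply hinj
    rw [hg, map_pow]
    have h2 : algebraMap _ (RF k n) pa ^ 2 ∈ IntermediateField.fixedField (weylGroup k A) := by
      rw [mem_fixed_iff]
      intro j σ hσ
      rw [map_pow, hanti j σ hσ, neg_sq]
    rw [IntermediateField.mem_fixedField_iff] at h2
    exact h2 w hw
  have hsimple : ∀ j σ, IsSimpleRefl k A j σ → σ ∈ weylGroup k A := fun j σ hσ =>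
    Subgroup.subset_closure ⟨j, hσ⟩
  obtain ⟨F, hFdef⟩ : ∃ F : Fin n → RF k n, F = fun i => algebraMap _ (RF k n) (f i) := ⟨_, rfl⟩
  obtain ⟨D, hDdef⟩ : ∃ D : RF k n, D = algebraMap _ (RF k n) pa := ⟨_, rfl⟩
  have hFi : ∀ i, algebraMap _ (RF k n) (f i) = F i := fun i => by rw [hFdef]
  simp only [hFi] at hF
  rw [← hDdef] at hDa
  have hFσ : ∀ i, ∀ w ∈ weylGroup k A, w (F i) = F i := fun i w hw => by
    rw [← hFi]
    exact hfixp _ (hinv i) w hw
  obtain ⟨m', hm'⟩ : ∃ m' : Fin n → RF k n, m' = fun i => F i / F i0 ^ (d i / 2) := ⟨_, rfl⟩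
  have hm0 : m' i0 = 1 := by
    rw [hm']
    simp only [hi0]
    rw [Nat.div_self (by norm_num), pow_one, div_self (hF i0)]
  obtain ⟨dd, hdd⟩ : ∃ dd : RF k n, dd = D / F i0 ^ r := ⟨_, rfl⟩
  have hddσ : ∀ j σ, IsSimpleRefl k A j σ → σ dd = - dd := by
    intro j σ hσ
    rw [hdd, map_div₀, map_pow, hFσ i0 σ (hsimple j σ hσ), hDdef, hanti j σ hσ, neg_div]
  obtain ⟨t, ht⟩ : ∃ t : Fin n → RF k n, t = Function.update m' i0 (dd ^ 2) := ⟨_, rfl⟩
  have hti0 : t i0 = dd ^ 2 := by rw [ht, Function.update_self]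
  obtain ⟨K, hK⟩ : ∃ K, K = IntermediateField.adjoin k (Set.range t) := ⟨_, rfl⟩
  have htK : ∀ i, t i ∈ K := fun i => by
    rw [hK]
    exact IntermediateField.subset_adjoin k _ ⟨i, rfl⟩
  have hmK : ∀ i, m' i ∈ K := by
    intro i
    by_cases hi : i = i0
    · rw [hi, hm0]
      exact one_mem K
    · have h2 := htK i
      rwa [ht, Function.update_of_ne hi] at h2
  have hE : D ^ 2 / F i0 ^ e ∈ K := by
    have h2 := adjoin_homog_div f d hf hdev i0 hi0 (hind.ne_zero i0) (hgen _ hinv2)
      (e := e) (by rw [mul_comm]; exact hpa.pow 2) K (fun i => by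
        have h3 := hmK i
        rw [hm'] at h3
        rw [hFi, hFi]
        exact h3)
    rwa [map_pow, hFi, ← hDdef] at h2
  have hF0K : F i0 ∈ K := by
    have h2 : F i0 = t i0 / (D ^ 2 / F i0 ^ e) := by
      have h3 := hF i0
      rw [hti0, hdd, hr]
      field_simp
      ring
    rw [h2]
    exact div_mem (htK i0) hE
  have hFK : ∀ i, F i ∈ K := by
    intro i
    have h2 : F i = m' i * F i0 ^ (d i / 2) := by
      rw [hm']
      exact (div_mul_cancel₀ _ (pow_ne_zero _ (hF i0))).symm
    rw [h2]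
    exact mul_mem (hmK i) (pow_mem hF0K _)
  have hpK : ∀ p ∈ Algebra.adjoin k (Set.range f), algebraMap _ (RF k n) p ∈ K := by
    intro p hp
    induction hp using Algebra.adjoin_induction with
    | mem x hx =>
      obtain ⟨i, rfl⟩ := hx
      rw [hFi]
      exact hFK i
    | algebraMap c =>
      have h2 := OddC_algC (n := n) c
      rw [algebraMap_eq, h2]
      exact IntermediateField.algebraMap_mem _ _
    | add x y _ _ hx hy =>
      rw [map_add]
      exact add_mem hx hy
    | mul x y _ _ hx hy =>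
      rw [map_mul]
      exact mul_mem hx hy
  refine ⟨t, dd, i0, ?_, ?_, hti0.symm, hddσ⟩
  · refine DiscRat.algInd_of (a := F) ?_ fun i => ?_
    · have h2 := hind.map' (f := IsScalarTower.toAlgHom k (MvPolynomial (Fin n) k) (RF k n)) hinj
      rw [hFdef]
      exact h2
    · have h2 := hFK i
      rw [hK] at h2
      exact isAlgebraic_algebraMap (⟨F i, h2⟩ : IntermediateField.adjoin k (Set.range t))
  · apply le_antisymm
    · rw [IntermediateField.adjoin_le_iff]
      rintro _ ⟨i, rfl⟩
      rw [SetLike.mem_coe, mem_fixed_iff]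
      intro j σ hσ
      by_cases hi : i = i0
      · rw [hi, hti0, map_pow, hddσ j σ hσ, neg_sq]
      · rw [ht, Function.update_of_ne hi, hm']
        simp only [map_div₀, map_pow]
        rw [hFσ i σ (hsimple j σ hσ), hFσ i0 σ (hsimple j σ hσ)]
    · intro z hz
      obtain ⟨p, q, hp, hq, _, rfl⟩ := fixed_eq_div A hA hfin hz
      rw [← hK]
      exact div_mem (hpK p (hgen p hp)) (hpK q (hgen q hq))

end CM83
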