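import Pool.Agent.H.MP_83e36b_nt.cm.Basic

/-! Module PL: the rank two identity. -/

namespace CM83

theorem PL_det {F : Type*} [Field F] {ps pt pr qs qt qr xs xt xr x y : F}
    (hs : xs ≠ 0) (ht : xt ≠ 0) (hr : xr ≠ 0)
    (hx : xr = x * xs + y * xt) (hp : pr = x * ps + y * pt) (hq : qr = x * qs + y * qt) :
    ps / xs * (qt / xt) - qs / xs * (pt / xt) =
      (ps / xs * (qr / xr) - qs / xs * (pr / xr)) - (pt / xt * (qr / xr) - qt / xt * (pr / xr)) := by
  have h : xr * (ps * qt - qs * pt) =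
      xt * (ps * qr - qs * pr) - xs * (pt * qr - qt * pr) := by
    rw [hx, hp, hq]; ring
  field_simp
  linear_combination h

theorem RD.PL {n : ℕ} {G : Type} [Group G] (R : RD n G) {F : Type*} [Field F] [CharZero F]
    (ξ : V n →+ F) (hξ : ∀ s ∈ R.S, ξ (R.a s) ≠ 0) (h : G → F) (u v : V n) :
    ∑ s ∈ R.S, ∑ t ∈ R.S,
      ((R.B u (R.a s) * R.B v (R.a t) - R.B v (R.a s) * R.B u (R.a t) : ℚ) : F) /
        (ξ (R.a s) * ξ (R.a t)) * h (s * t) = 0 := by
  classical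
  obtain ⟨p, hp⟩ : ∃ p : G → F, p = fun s => ((R.B u (R.a s) : ℚ) : F) / ξ (R.a s) := ⟨_, rfl⟩
  obtain ⟨q, hq⟩ : ∃ q : G → F, q = fun s => ((R.B v (R.a s) : ℚ) : F) / ξ (R.a s) := ⟨_, rfl⟩
  have key : ∀ s ∈ R.S, ∀ t ∈ R.S, ∀ r ∈ R.S, s ≠ t → r * (s * t) ∈ R.S →
      p s * q t - q s * p t = (p s * q r - q s * p r) - (p t * q r - q t * p r) := by
    intro s hs t ht r hr hst hrst
    obtain ⟨x, y, hxy⟩ := R.span2 hs ht hr hst hrst
    have h1 : ξ (R.a r) = (x : F) * ξ (R.a s) + (y : F) * ξ (R.a t) := by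
      rw [hxy, map_add, map_q, map_q]
    have h2 : ∀ w : V n, ((R.B w (R.a r) : ℚ) : F) =
        (x : F) * ((R.B w (R.a s) : ℚ) : F) + (y : F) * ((R.B w (R.a t) : ℚ) : F) := by
      intro w
      rw [hxy, map_add, map_smul, map_smul, smul_eq_mul, smul_eq_mul]
      push_cast
      ring
    rw [hp, hq]
    exact PL_det (hξ s hs) (hξ t ht) (hξ r hr) h1 (h2 u) (h2 v)
  have e1 : ∀ s ∈ R.S, ∀ t ∈ R.S,
      ((R.B u (R.a s) * R.B v (R.a t) - R.B v (R.a s) * R.B u (R.a t) : ℚ) : F) /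
        (ξ (R.a s) * ξ (R.a t)) * h (s * t) = (p s * q t - q s * p t) * h (s * t) := by
    intro s hs t ht
    have a1 := hξ s hs
    have a2 := hξ t ht
    rw [hp, hq]
    push_cast
    field_simp
  rw [Finset.sum_congr rfl fun s hs => Finset.sum_congr rfl fun t ht => e1 s hs t ht]
  rw [← Finset.sum_product' R.S R.S (fun s t => (p s * q t - q s * p t) * h (s * t))]
  rw [← Finset.sum_fiberwise_of_maps_to (s := R.S ×ˢ R.S)
    (t := (R.S ×ˢ R.S).image fun x => x.1 * x.2) (g := fun x => x.1 * x.2)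
    (fun x hx => Finset.mem_image_of_mem _ hx)]
  refine Finset.sum_eq_zero fun g _ => ?_
  have e2 : ∑ x ∈ R.S ×ˢ R.S with x.1 * x.2 = g, (p x.1 * q x.2 - q x.1 * p x.2) * h (x.1 * x.2) =
      (∑ x ∈ R.S ×ˢ R.S with x.1 * x.2 = g, (p x.1 * q x.2 - q x.1 * p x.2)) * h g := by
    rw [Finset.sum_mul]
    refine Finset.sum_congr rfl fun x hx => ?_
    rw [(Finset.mem_filter.1 hx).2]
  rw [e2]
  suffices hsuff : ∑ x ∈ R.S ×ˢ R.S with x.1 * x.2 = g, (p x.1 * q x.2 - q x.1 * p x.2) = 0 by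
    rw [hsuff, zero_mul]
  by_cases hg : g = 1
  · refine Finset.sum_eq_zero fun x hx => ?_
    obtain ⟨hx1, hx2⟩ := Finset.mem_filter.1 hx
    obtain ⟨h1, h2⟩ := Finset.mem_product.1 hx1
    have h3 : x.2 = x.1 := by
      have h4 : x.1 * x.2 = x.1 * x.1 := by rw [hx2, hg, R.sq_one h1]
      exact mul_left_cancel h4
    rw [h3]; ring
  · rcases Finset.eq_empty_or_nonempty ((R.S ×ˢ R.S).filter fun x => x.1 * x.2 = g) with he | ⟨r, hr⟩
    · rw [he, Finset.sum_empty]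
    · obtain ⟨hr1, hr2⟩ := Finset.mem_filter.1 hr
      obtain ⟨hr3, hr4⟩ := Finset.mem_product.1 hr1
      have e3 : ∑ x ∈ R.S ×ˢ R.S with x.1 * x.2 = g, (p x.1 * q x.2 - q x.1 * p x.2) =
          (∑ x ∈ R.S ×ˢ R.S with x.1 * x.2 = g, (p x.1 * q r.1 - q x.1 * p r.1)) -
          ∑ x ∈ R.S ×ˢ R.S with x.1 * x.2 = g, (p x.2 * q r.1 - q x.2 * p r.1) := by
        rw [← Finset.sum_sub_distrib]
        refine Finset.sum_congr rfl fun x hx => ?_
        obtain ⟨hx1, hx2⟩ := Finset.mem_filter.1 hx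
        obtain ⟨h1, h2⟩ := Finset.mem_product.1 hx1
        refine key x.1 h1 x.2 h2 r.1 hr3 ?_ ?_
        · intro hc
          apply hg
          rw [← hx2, ← hc, R.sq_one h1]
        · rw [hx2, ← hr2, ← mul_assoc, R.sq_one hr3, one_mul]
          exact hr4
      rw [e3, sub_eq_zero]
      refine Finset.sum_bij' (fun x _ => (x.1 * x.2 * x.1, x.1)) (fun x _ => (x.2, x.2 * x.1 * x.2))
        ?_ ?_ ?_ ?_ ?_
      · intro x hx
        obtain ⟨hx1, hx2⟩ := Finset.mem_filter.1 hx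
        obtain ⟨h1, h2⟩ := Finset.mem_product.1 hx1
        refine Finset.mem_filter.2 ⟨Finset.mem_product.2 ⟨?_, h1⟩, ?_⟩
        · have := R.conj x.1 x.2 h2
          rwa [R.inv_self h1] at this
        · show x.1 * x.2 * x.1 * x.1 = g
          rw [mul_assoc, R.sq_one h1, mul_one, hx2]
      · intro x hx
        obtain ⟨hx1, hx2⟩ := Finset.mem_filter.1 hx
        obtain ⟨h1, h2⟩ := Finset.mem_product.1 hx1
        refine Finset.mem_filter.2 ⟨Finset.mem_product.2 ⟨h2, ?_⟩, ?_⟩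
        · have := R.conj x.2 x.1 h1
          rwa [R.inv_self h2] at this
        · show x.2 * (x.2 * x.1 * x.2) = g
          rw [← mul_assoc, ← mul_assoc, R.sq_one h2, one_mul, hx2]
      · intro x hx
        obtain ⟨hx1, hx2⟩ := Finset.mem_filter.1 hx
        obtain ⟨h1, h2⟩ := Finset.mem_product.1 hx1
        refine Prod.ext rfl ?_
        show x.1 * (x.1 * x.2 * x.1) * x.1 = x.2
        rw [← mul_assoc, ← mul_assoc, R.sq_one h1, one_mul, mul_assoc, R.sq_one h1, mul_one]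
      · intro x hx
        obtain ⟨hx1, hx2⟩ := Finset.mem_filter.1 hx
        obtain ⟨h1, h2⟩ := Finset.mem_product.1 hx1
        refine Prod.ext ?_ rfl
        show x.2 * (x.2 * x.1 * x.2) * x.2 = x.1
        rw [← mul_assoc, ← mul_assoc, R.sq_one h2, one_mul, mul_assoc, R.sq_one h2, mul_one]
      · intro x hx
        rfl

end CM83
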