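import Pool.Agent.H.MP_83e36b_nt.cm.Span

/-! Module Pair: the pairing of two solutions over the same point. -/

namespace CM83

variable {n : ℕ} {G : Type} [Group G] [Fintype G] {R : RD n G} {F : Type*} [Field F] [CharZero F]

omit [Fintype G] [CharZero F] in
theorem pair_bil_sum_left {ι κ : Type*} [Fintype ι] (T : Finset κ) (c : κ → F) (f : κ → ι → F)
    (g : ι → F) : bil (∑ s ∈ T, c s • f s) g = ∑ s ∈ T, c s * bil (f s) g := by
  classical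
  induction T using Finset.induction_on with
  | empty => simp [bil]
  | insert s T hs ih =>
    rw [Finset.sum_insert hs, Finset.sum_insert hs, bil_add_left, bil_smul_left, ih]

omit [Fintype G] [CharZero F] in
theorem RD.IsCM.pair_e1 {ζ lam mu : V n →+ F} {φ : G → F} (h : R.IsCM ζ lam mu φ) (u : V n) :
    R.Dop ζ u φ = lam u • φ := by
  funext w
  exact h.e1 u w

omit [Fintype G] [CharZero F] in
theorem RD.IsCM.pair_e2 {ζ lam mu : V n →+ F} {φ : G → F} (h : R.IsCM ζ lam mu φ) (v : V n) :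
    R.Xop ζ v φ = mu v • φ + ∑ s ∈ R.S, (((R.B v (R.a s) : ℚ) : F) / lam (R.a s)) • Rop s φ := by
  funext w
  rw [Pi.add_apply, Finset.sum_apply]
  exact h.e2 v w

theorem RD.IsCM.pair_lam {ζ lam mu lam' mu' : V n →+ F} {φ φ' : G → F} (h : R.IsCM ζ lam mu φ)
    (h' : R.IsCM ζ lam' mu' φ') (c : G) (hc : bil (Rop c φ) φ' ≠ 0) (u : V n) :
    lam (R.ρ c⁻¹ u) = - lam' u := by
  have h1 : bil (R.Dop ζ u (Rop c φ)) φ' = - bil (Rop c φ) (R.Dop ζ u φ') :=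
    R.Dop_antisymm ζ u _ _
  have h2 : Rop c (R.Dop ζ (R.ρ c⁻¹ u) φ) = R.Dop ζ u (Rop c φ) := by
    rw [R.Rop_Dop ζ, R.ρ_inv']
  have h3 : bil (Rop c φ) (lam' u • φ') = lam' u * bil (Rop c φ) φ' := by
    rw [bil_comm, bil_smul_left, bil_comm]
  rw [h'.pair_e1, ← h2, h.pair_e1, map_smul, bil_smul_left, h3, ← neg_mul] at h1
  exact mul_right_cancel₀ hc h1

theorem RD.IsCM.pair_zero {ζ lam mu lam' mu' : V n →+ F} {φ φ' : G → F} (h : R.IsCM ζ lam mu φ)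
    (h' : R.IsCM ζ lam' mu' φ') {c : G} (hc : bil (Rop c φ) φ' ≠ 0) {s : G} (hs : s ∈ R.S) :
    bil (Rop (s * c) φ) φ' = 0 := by
  by_contra hcon
  have h1 := h.pair_lam h' (s * c) hcon (R.a s)
  rw [mul_inv_rev, R.inv_self hs, map_mul, Module.End.mul_apply] at h1
  have h2 := h.pair_lam h' c hc (R.ρ s (R.a s))
  rw [h1, R.refl_a hs, map_neg, neg_inj] at h2
  exact h'.reg s hs (self_eq_neg.1 h2)

theorem RD.IsCM.pair_zero' {ζ lam mu lam' mu' : V n →+ F} {φ φ' : G → F} (h : R.IsCM ζ lam mu φ)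
    (h' : R.IsCM ζ lam' mu' φ') {c : G} (hc : bil (Rop c φ) φ' ≠ 0) {s : G} (hs : s ∈ R.S) :
    bil (Rop (c * s) φ) φ' = 0 := by
  have h1 := h.pair_zero h' hc (R.conj c s hs)
  rwa [inv_mul_cancel_right] at h1

theorem RD.IsCM.pair {ζ lam mu lam' mu' : V n →+ F} {φ φ' : G → F} (h : R.IsCM ζ lam mu φ)
    (h' : R.IsCM ζ lam' mu' φ') {c : G} (hc : bil (Rop c φ) φ' ≠ 0) :
    (∀ u, lam (R.ρ c⁻¹ u) = - lam' u) ∧ ∀ v, mu (R.ρ c⁻¹ v) = mu' v := by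
  refine ⟨h.pair_lam h' c hc, fun v => ?_⟩
  have h1 : bil (R.Xop ζ v (Rop c φ)) φ' = bil (Rop c φ) (R.Xop ζ v φ') := R.Xop_symm ζ v _ _
  have h3 : bil (Rop c φ) (R.Xop ζ v φ') = mu' v * bil (Rop c φ) φ' +
      ∑ s ∈ R.S, ((R.B v (R.a s) : ℚ) : F) / lam' (R.a s) * bil (Rop s φ') (Rop c φ) := by
    rw [bil_comm, h'.pair_e2, bil_add_left, bil_smul_left, pair_bil_sum_left, bil_comm φ']
  rw [h3, R.Xop_Rop, h.pair_e2, map_add, map_smul, map_sum, bil_add_left, bil_smul_left] at h1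
  have e1 : ∑ s ∈ R.S, ((R.B v (R.a s) : ℚ) : F) / lam' (R.a s) * bil (Rop s φ') (Rop c φ) = 0 := by
    refine Finset.sum_eq_zero fun s hs => ?_
    rw [bil_comm, ← inv_inv s, ← bil_Rop, Rop_Rop, inv_inv, R.inv_self hs, h.pair_zero h' hc hs,
      mul_zero]
  have e2 : bil (∑ s ∈ R.S, Rop c ((((R.B (R.ρ c⁻¹ v) (R.a s) : ℚ) : F) / lam (R.a s)) • Rop s φ))
      φ' = 0 := by
    rw [Finset.sum_congr rfl fun s _ => map_smul (Rop c) _ (Rop s φ), pair_bil_sum_left]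
    refine Finset.sum_eq_zero fun s hs => ?_
    rw [Rop_Rop, h.pair_zero' h' hc hs, mul_zero]
  rw [e1, e2, add_zero, add_zero] at h1
  exact mul_right_cancel₀ hc h1

/-- the dual point is unique up to the group -/
theorem RD.IsCM.uniq {ζ lam mu lam' mu' : V n →+ F} {φ φ' : G → F} (h : R.IsCM ζ lam mu φ)
    (h' : R.IsCM ζ lam' mu' φ') (hζ : Function.Injective ζ) :
    ∃ c : G, (∀ u, lam' u = lam (R.ρ c u)) ∧ ∀ v, mu' v = mu (R.ρ c v) := by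
  obtain ⟨c, hc⟩ := h.exists_bil_ne_zero hζ h'.ne
  obtain ⟨d, hd⟩ := h'.exists_bil_ne_zero hζ h'.ne
  obtain ⟨h1, h2⟩ := h.pair h' hc
  obtain ⟨h3, h4⟩ := h'.pair h' hd
  refine ⟨c⁻¹ * d⁻¹, fun u => ?_, fun v => ?_⟩
  · rw [map_mul, Module.End.mul_apply, h1, h3, neg_neg]
  · rw [map_mul, Module.End.mul_apply, h2, h4]

theorem RD.IsCM.exists_w1 {ζ lam mu : V n →+ F} {φ : G → F} (h : R.IsCM ζ lam mu φ)
    (hζ : Function.Injective ζ) :
    ∃ w1 : G, (∀ u, lam (R.ρ w1 u) = - lam u) ∧ ∀ v, mu (R.ρ w1 v) = mu v := by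
  obtain ⟨c, hc⟩ := h.exists_bil_ne_zero hζ h.ne
  exact ⟨c⁻¹, h.pair h hc⟩

end CM83
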