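import Pool.Agent.H.MP_83e36b_nt.cm.WBasic

/-! Module Prod1: the Galois group of `k(x)` over the invariants. -/

namespace CM83

universe u

variable {k : Type u} [Field k] [CharZero k] {n : ℕ}

omit [CharZero k] in
private lemma prod1_basis : IsTranscendenceBasis k (xv k : Fin n → RF k n) := by
  have : Algebra.IsAlgebraic (MvPolynomial (Fin n) k) (RF k n) :=
    IsLocalization.isAlgebraic (RF k n) (nonZeroDivisors (MvPolynomial (Fin n) k))
  exact (IsTranscendenceBasis.mvPolynomial (Fin n) k).algebraMap_comp

/-- `n` algebraically independent elements form a transcendence basis -/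
theorem good_alg {t : Fin n → RF k n} (ht : AlgebraicIndependent k t) (z : RF k n) :
    IsAlgebraic (IntermediateField.adjoin k (Set.range t)) z := by
  have h1 : IsTranscendenceBasis k t := by
    apply ht.isTranscendenceBasis_of_lift_trdeg_le_of_finite
    rw [← (prod1_basis (k := k) (n := n)).lift_cardinalMk_eq_trdeg]
  have := h1.isAlgebraic_field
  exact Algebra.IsAlgebraic.isAlgebraic z

omit [CharZero k] in
/-- a group whose invariants are such that all elements are algebraic over them is finite -/
private lemma prod1_finite (H : Subgroup (RF k n ≃ₐ[k] RF k n))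
    (halg : ∀ i, IsAlgebraic (IntermediateField.fixedField H) (xv k i : RF k n)) : Finite H := by
  classical
  set F := IntermediateField.fixedField H with hF
  have hroot : ∀ (w : H) (i : Fin n),
      ((w : RF k n ≃ₐ[k] RF k n) (xv k i)) ∈ (minpoly F (xv k i)).rootSet (RF k n) := by
    intro w i
    rw [Polynomial.mem_rootSet]
    refine ⟨minpoly.ne_zero (halg i).isIntegral, ?_⟩
    have h1 : ∀ a : F, (w : RF k n ≃ₐ[k] RF k n) (algebraMap F (RF k n) a)
        = algebraMap F (RF k n) a := fun a =>
      (IntermediateField.mem_fixedField_iff _ _).1 a.2 w w.2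
    let φ : RF k n →ₐ[F] RF k n :=
      { toRingHom := ((w : RF k n ≃ₐ[k] RF k n) : RF k n →+* RF k n)
        commutes' := h1 }
    have h2 : φ (xv k i) = (w : RF k n ≃ₐ[k] RF k n) (xv k i) := rfl
    rw [← h2, Polynomial.aeval_algHom_apply, minpoly.aeval, map_zero]
  let f : H → (∀ i : Fin n, (minpoly F (xv k i)).rootSet (RF k n)) :=
    fun w i => ⟨_, hroot w i⟩
  have hf : Function.Injective f := by
    intro w w' h
    apply Subtype.ext
    apply wbasic_ext
    intro i
    exact congrArg Subtype.val (congrFun h i)
  exact Finite.of_injective f hf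

/-- two embeddings of `k(x)` which agree on the invariants differ by an element of the group -/
theorem good_gal {A : Matrix (Fin n) (Fin n) ℤ} {t : Fin n → RF k n}
    (ht : AlgebraicIndependent k t)
    (hg : IntermediateField.adjoin k (Set.range t) =
      IntermediateField.fixedField (weylGroup k A))
    {Ω : Type*} [Field Ω] [Algebra k Ω] (ι τ : RF k n →ₐ[k] Ω) (h : ∀ i, τ (t i) = ι (t i)) :
    ∃ w ∈ weylGroup k A, ∀ f, τ f = ι (w f) := by
  classical
  set H := weylGroup k A with hH
  have hfin : Finite H := prod1_finite H (fun i => by rw [← hg]; exact good_alg ht _)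
  have := Fintype.ofFinite H
  -- agreement on the invariants
  have hF : ∀ a ∈ IntermediateField.fixedField H, τ a = ι a := by
    intro a ha
    rw [← hg] at ha
    induction ha using IntermediateField.adjoin_induction with
    | mem x hx => obtain ⟨i, rfl⟩ := hx; exact h i
    | algebraMap x => rw [AlgHom.commutes, AlgHom.commutes]
    | add x y _ _ h1 h2 => rw [map_add, map_add, h1, h2]
    | inv x _ h1 => rw [map_inv₀, map_inv₀, h1]
    | mul x y _ _ h1 h2 => rw [map_mul, map_mul, h1, h2]
  -- pointwise
  have hpt : ∀ z : RF k n, ∃ w : H, τ z = ι ((w : RF k n ≃ₐ[k] RF k n) z) := by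
    intro z
    let P : Polynomial (RF k n) :=
      ∏ w : H, (Polynomial.X - Polynomial.C ((w : RF k n ≃ₐ[k] RF k n) z))
    have hPfix : ∀ g : H, P.map ((g : RF k n ≃ₐ[k] RF k n) : RF k n →+* RF k n) = P := by
      intro g
      simp only [P, Polynomial.map_prod, Polynomial.map_sub, Polynomial.map_X, Polynomial.map_C]
      refine Fintype.prod_equiv (Equiv.mulLeft g) _ _ (fun w => ?_)
      rfl
    have hcoeff : ∀ j, P.coeff j ∈ IntermediateField.fixedField H := by
      intro j
      rw [IntermediateField.mem_fixedField_iff]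
      intro g hg'
      have h1 := congrArg (fun q => q.coeff j) (hPfix ⟨g, hg'⟩)
      simp only [Polynomial.coeff_map] at h1
      exact h1
    have hmap : P.map (τ : RF k n →+* Ω) = P.map (ι : RF k n →+* Ω) := by
      ext j
      rw [Polynomial.coeff_map, Polynomial.coeff_map]
      exact hF _ (hcoeff j)
    have hPz : P.eval z = 0 := by
      simp only [P, Polynomial.eval_prod, Polynomial.eval_sub, Polynomial.eval_X,
        Polynomial.eval_C]
      refine Finset.prod_eq_zero (Finset.mem_univ (1 : H)) ?_
      simp
    have h0 : (P.map (τ : RF k n →+* Ω)).eval (τ z) = 0 := by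
      have h1 := Polynomial.eval_map_apply (f := (τ : RF k n →+* Ω)) (p := P) z
      have h2 : ((τ : RF k n →+* Ω)) z = τ z := rfl
      rw [h2] at h1
      rw [h1, hPz, map_zero]
    rw [hmap] at h0
    simp only [P, Polynomial.map_prod, Polynomial.map_sub, Polynomial.map_X, Polynomial.map_C,
      Polynomial.eval_prod, Polynomial.eval_sub, Polynomial.eval_X, Polynomial.eval_C] at h0
    obtain ⟨w, _, hw⟩ := Finset.prod_eq_zero_iff.1 h0
    exact ⟨w, sub_eq_zero.1 hw⟩
  -- one element of the group for all
  have hinf : Infinite k := inferInstance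
  let V : H → Subspace k (RF k n) := fun w =>
    LinearMap.ker (τ.toLinearMap - ι.toLinearMap ∘ₗ
      ((w : RF k n ≃ₐ[k] RF k n) : RF k n →ₐ[k] RF k n).toLinearMap)
  have hcov : ⋃ w, (V w : Set (RF k n)) = Set.univ := by
    rw [Set.eq_univ_iff_forall]
    intro z
    obtain ⟨w, hw⟩ := hpt z
    rw [Set.mem_iUnion]
    refine ⟨w, ?_⟩
    rw [SetLike.mem_coe, LinearMap.mem_ker, LinearMap.sub_apply, sub_eq_zero]
    exact hw
  obtain ⟨w, hw⟩ := Subspace.exists_eq_top_of_iUnion_eq_univ hcov
  refine ⟨w, w.2, fun f => ?_⟩
  have h1 : f ∈ V w := by rw [hw]; trivial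
  rw [LinearMap.mem_ker, LinearMap.sub_apply, sub_eq_zero] at h1
  exact h1

end CM83
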