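import Pool.Agent.H.MP_83e36b_nt.cm.Prod1

/-! Module Prod2: direct sums of Cartan matrices. -/

namespace CM83

universe u

/-- the block diagonal matrix with blocks `A` and `B` -/
def blkM {n m : ℕ} (A : Matrix (Fin n) (Fin n) ℤ) (B : Matrix (Fin m) (Fin m) ℤ) :
    Matrix (Fin (n + m)) (Fin (n + m)) ℤ :=
  Matrix.reindex finSumFinEquiv finSumFinEquiv (Matrix.fromBlocks A 0 0 B)

variable {k : Type u} [Field k] [CharZero k] {n m : ℕ}

/-- the embedding of `k(x_1, ..., x_n)` -/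
theorem exists_emb (f : Fin n → Fin m) (hf : Function.Injective f) :
    ∃ ι : RF k n →ₐ[k] RF k m, ∀ i, ι (xv k i) = xv k (f i) := by
  have hinj : Function.Injective ((IsScalarTower.toAlgHom k (MvPolynomial (Fin m) k) (RF k m)).comp
      (MvPolynomial.rename f)) :=
    (IsFractionRing.injective (MvPolynomial (Fin m) k) (RF k m)).comp
      (MvPolynomial.rename_injective f hf)
  refine ⟨IsFractionRing.liftAlgHom (K := RF k n) hinj, fun i => ?_⟩
  unfold xv
  rw [IsFractionRing.liftAlgHom_apply, IsFractionRing.lift_algebraMap]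
  change algebraMap (MvPolynomial (Fin m) k) (RF k m) (MvPolynomial.rename f (MvPolynomial.X i)) = _
  rw [MvPolynomial.rename_X]

theorem prod2_ll (A : Matrix (Fin n) (Fin n) ℤ) (B : Matrix (Fin m) (Fin m) ℤ) (i j : Fin n) :
    blkM A B (Fin.castAdd m i) (Fin.castAdd m j) = A i j := by
  simp [blkM, Matrix.reindex_apply, Matrix.submatrix_apply]

theorem prod2_rr (A : Matrix (Fin n) (Fin n) ℤ) (B : Matrix (Fin m) (Fin m) ℤ) (i j : Fin m) :
    blkM A B (Fin.natAdd n i) (Fin.natAdd n j) = B i j := by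
  simp [blkM, Matrix.reindex_apply, Matrix.submatrix_apply]

theorem prod2_lr (A : Matrix (Fin n) (Fin n) ℤ) (B : Matrix (Fin m) (Fin m) ℤ) (i : Fin n)
    (j : Fin m) : blkM A B (Fin.castAdd m i) (Fin.natAdd n j) = 0 := by
  simp [blkM, Matrix.reindex_apply, Matrix.submatrix_apply]

theorem prod2_rl (A : Matrix (Fin n) (Fin n) ℤ) (B : Matrix (Fin m) (Fin m) ℤ) (i : Fin m)
    (j : Fin n) : blkM A B (Fin.natAdd n i) (Fin.castAdd m j) = 0 := by
  simp [blkM, Matrix.reindex_apply, Matrix.submatrix_apply]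

/-- simple reflections of the block diagonal matrix -/
theorem blk_refl_left {A : Matrix (Fin n) (Fin n) ℤ} {B : Matrix (Fin m) (Fin m) ℤ}
    {ιA : RF k n →ₐ[k] RF k (n + m)} (hιA : ∀ i, ιA (xv k i) = xv k (Fin.castAdd m i))
    {ιB : RF k m →ₐ[k] RF k (n + m)} (hιB : ∀ i, ιB (xv k i) = xv k (Fin.natAdd n i))
    {j : Fin n} {σ : RF k (n + m) ≃ₐ[k] RF k (n + m)}
    (h : IsSimpleRefl k (blkM A B) (Fin.castAdd m j) σ) {σ' : RF k n ≃ₐ[k] RF k n}
    (h' : IsSimpleRefl k A j σ') : (∀ f, σ (ιA f) = ιA (σ' f)) ∧ ∀ f, σ (ιB f) = ιB f := by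
  have e1 : (σ : RF k (n + m) →ₐ[k] RF k (n + m)).comp ιA =
      ιA.comp (σ' : RF k n →ₐ[k] RF k n) := by
    apply hom_ext
    intro i
    change σ (ιA (xv k i)) = ιA (σ' (xv k i))
    rw [h' i, hιA, h, prod2_ll, map_sub, map_mul, map_intCast, hιA, hιA]
  have e2 : (σ : RF k (n + m) →ₐ[k] RF k (n + m)).comp ιB = ιB := by
    apply hom_ext
    intro i
    change σ (ιB (xv k i)) = ιB (xv k i)
    rw [hιB, h, prod2_rl, Int.cast_zero, zero_mul, sub_zero]
  exact ⟨fun f => DFunLike.congr_fun e1 f, fun f => DFunLike.congr_fun e2 f⟩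

theorem blk_refl_right {A : Matrix (Fin n) (Fin n) ℤ} {B : Matrix (Fin m) (Fin m) ℤ}
    {ιA : RF k n →ₐ[k] RF k (n + m)} (hιA : ∀ i, ιA (xv k i) = xv k (Fin.castAdd m i))
    {ιB : RF k m →ₐ[k] RF k (n + m)} (hιB : ∀ i, ιB (xv k i) = xv k (Fin.natAdd n i))
    {j : Fin m} {σ : RF k (n + m) ≃ₐ[k] RF k (n + m)}
    (h : IsSimpleRefl k (blkM A B) (Fin.natAdd n j) σ) {σ' : RF k m ≃ₐ[k] RF k m}
    (h' : IsSimpleRefl k B j σ') : (∀ f, σ (ιA f) = ιA f) ∧ ∀ f, σ (ιB f) = ιB (σ' f) := by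
  have e1 : (σ : RF k (n + m) →ₐ[k] RF k (n + m)).comp ιA = ιA := by
    apply hom_ext
    intro i
    change σ (ιA (xv k i)) = ιA (xv k i)
    rw [hιA, h, prod2_lr, Int.cast_zero, zero_mul, sub_zero]
  have e2 : (σ : RF k (n + m) →ₐ[k] RF k (n + m)).comp ιB =
      ιB.comp (σ' : RF k m →ₐ[k] RF k m) := by
    apply hom_ext
    intro i
    change σ (ιB (xv k i)) = ιB (σ' (xv k i))
    rw [h' i, hιB, h, prod2_rr, map_sub, map_mul, map_intCast, hιB, hιB]
  exact ⟨fun f => DFunLike.congr_fun e1 f, fun f => DFunLike.congr_fun e2 f⟩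

/-- an auxiliary induction over the closure -/
theorem prod2_ind {N p q : ℕ} {M : Matrix (Fin p) (Fin p) ℤ}
    {G : Subgroup (RF k N ≃ₐ[k] RF k N)} {ι : RF k p →ₐ[k] RF k N} {κ : RF k q →ₐ[k] RF k N}
    (h : ∀ j (σ : RF k p ≃ₐ[k] RF k p), IsSimpleRefl k M j σ →
      ∃ g ∈ G, (∀ f, g (ι f) = ι (σ f)) ∧ ∀ f, g (κ f) = κ f)
    {v : RF k p ≃ₐ[k] RF k p} (hv : v ∈ weylGroup k M) :
    ∃ g ∈ G, (∀ f, g (ι f) = ι (v f)) ∧ ∀ f, g (κ f) = κ f := by
  unfold weylGroup at hv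
  induction hv using Subgroup.closure_induction with
  | mem x hx =>
    obtain ⟨j, hj⟩ := hx
    exact h j x hj
  | one => exact ⟨1, G.one_mem, fun f => rfl, fun f => rfl⟩
  | mul x y _ _ h1 h2 =>
    obtain ⟨g1, hg1, a1, b1⟩ := h1
    obtain ⟨g2, hg2, a2, b2⟩ := h2
    refine ⟨g1 * g2, G.mul_mem hg1 hg2, fun f => ?_, fun f => ?_⟩
    · rw [AlgEquiv.mul_apply, a2, a1, AlgEquiv.mul_apply]
    · rw [AlgEquiv.mul_apply, b2, b1]
  | inv x _ h1 =>
    obtain ⟨g1, hg1, a1, b1⟩ := h1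
    have key : ∀ z, g1⁻¹ (g1 z) = z := fun z => by
      rw [← AlgEquiv.mul_apply, inv_mul_cancel, AlgEquiv.one_apply]
    have key' : ∀ z, x (x⁻¹ z) = z := fun z => by
      rw [← AlgEquiv.mul_apply, mul_inv_cancel, AlgEquiv.one_apply]
    refine ⟨g1⁻¹, G.inv_mem hg1, fun f => ?_, fun f => ?_⟩
    · have := key (ι (x⁻¹ f))
      rwa [a1, key'] at this
    · have := key (κ f)
      rwa [b1] at this

/-- elements of the product group -/
theorem blk_group {A : Matrix (Fin n) (Fin n) ℤ} {B : Matrix (Fin m) (Fin m) ℤ}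
    (hA : ∀ j, A j j = 2) (hB : ∀ j, B j j = 2)
    {ιA : RF k n →ₐ[k] RF k (n + m)} (hιA : ∀ i, ιA (xv k i) = xv k (Fin.castAdd m i))
    {ιB : RF k m →ₐ[k] RF k (n + m)} (hιB : ∀ i, ιB (xv k i) = xv k (Fin.natAdd n i))
    {v : RF k n ≃ₐ[k] RF k n} (hv : v ∈ weylGroup k A) {w : RF k m ≃ₐ[k] RF k m}
    (hw : w ∈ weylGroup k B) :
    ∃ g ∈ weylGroup k (blkM A B), (∀ f, g (ιA f) = ιA (v f)) ∧ ∀ f, g (ιB f) = ιB (w f) := by
  obtain ⟨g1, hg1, a1, b1⟩ := prod2_ind (G := weylGroup k (blkM A B)) (ι := ιA) (κ := ιB)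
    (fun j σ hσ => by
      obtain ⟨g, hg⟩ := exists_simpleRefl (k := k) (blkM A B) (Fin.castAdd m j)
        (by rw [prod2_ll, hA])
      obtain ⟨c1, c2⟩ := blk_refl_left hιA hιB hg hσ
      exact ⟨g, Subgroup.subset_closure ⟨_, hg⟩, c1, c2⟩) hv
  obtain ⟨g2, hg2, a2, b2⟩ := prod2_ind (G := weylGroup k (blkM A B)) (ι := ιB) (κ := ιA)
    (fun j σ hσ => by
      obtain ⟨g, hg⟩ := exists_simpleRefl (k := k) (blkM A B) (Fin.natAdd n j)
        (by rw [prod2_rr, hB])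
      obtain ⟨c1, c2⟩ := blk_refl_right hιA hιB hg hσ
      exact ⟨g, Subgroup.subset_closure ⟨_, hg⟩, c2, c1⟩) hw
  refine ⟨g1 * g2, Subgroup.mul_mem _ hg1 hg2, fun f => ?_, fun f => ?_⟩
  · rw [AlgEquiv.mul_apply, b2, a1]
  · rw [AlgEquiv.mul_apply, a2, b1]

/-- algebraic elements are mapped to algebraic elements -/
theorem prod2_alg {p N : ℕ} {t : Fin p → RF k p} {ι : RF k p →ₐ[k] RF k N}
    {E : IntermediateField k (RF k N)} (hE : ∀ i, ι (t i) ∈ E) {z : RF k p}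
    (hz : IsAlgebraic (IntermediateField.adjoin k (Set.range t)) z) : IsAlgebraic E (ι z) := by
  have hle : IntermediateField.adjoin k (Set.range t) ≤ E.comap ι := by
    rw [IntermediateField.adjoin_le_iff]
    rintro _ ⟨i, rfl⟩
    exact hE i
  have hmem : ∀ a : IntermediateField.adjoin k (Set.range t), ι (a : RF k p) ∈ E := fun a =>
    hle a.2
  let φ : IntermediateField.adjoin k (Set.range t) →+* E :=
    ((ι : RF k p →+* RF k N).comp
      (algebraMap (IntermediateField.adjoin k (Set.range t)) (RF k p))).codRestrict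
      E.toSubfield hmem
  exact hz.ringHom_of_comp_eq φ (ι : RF k p →+* RF k N) φ.injective (by ext a; rfl)

theorem good_sum {A : Matrix (Fin n) (Fin n) ℤ} {B : Matrix (Fin m) (Fin m) ℤ}
    (hA : ∀ j, A j j = 2) (hB : ∀ j, B j j = 2) (h1 : Good k A) (h2 : Good k B) :
    Good k (blkM A B) := by
  obtain ⟨tA, dA, i0, hAi, hAg, hAd, hAd'⟩ := h1
  obtain ⟨tB, dB, j0, hBi, hBg, hBd, hBd'⟩ := h2
  obtain ⟨ιA, hιA⟩ := exists_emb (k := k) (Fin.castAdd m : Fin n → Fin (n + m))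
    (Fin.castAdd_injective n m)
  obtain ⟨ιB, hιB⟩ := exists_emb (k := k) (Fin.natAdd n : Fin m → Fin (n + m))
    (Fin.natAdd_injective m n)
  have fixA : ∀ i j σ, IsSimpleRefl k A j σ → σ (tA i) = tA i := fun i => by
    have h : tA i ∈ IntermediateField.fixedField (weylGroup k A) := by
      rw [← hAg]
      exact IntermediateField.subset_adjoin k _ ⟨i, rfl⟩
    exact (mem_fixed_iff A _).1 h
  have fixB : ∀ i j σ, IsSimpleRefl k B j σ → σ (tB i) = tB i := fun i => by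
    have h : tB i ∈ IntermediateField.fixedField (weylGroup k B) := by
      rw [← hBg]
      exact IntermediateField.subset_adjoin k _ ⟨i, rfl⟩
    exact (mem_fixed_iff B _).1 h
  -- the action of the simple reflections
  have act : ∀ j σ, IsSimpleRefl k (blkM A B) j σ → (∀ i, σ (ιA (tA i)) = ιA (tA i)) ∧
      (∀ i, σ (ιB (tB i)) = ιB (tB i)) ∧ σ (ιA dA * ιB dB) = -(ιA dA * ιB dB) := by
    intro j
    refine Fin.addCases (fun j' => ?_) (fun j' => ?_) j
    · intro σ hσ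
      obtain ⟨σ', hσ'⟩ := exists_simpleRefl (k := k) A j' (hA j')
      obtain ⟨c1, c2⟩ := blk_refl_left hιA hιB hσ hσ'
      refine ⟨fun i => ?_, fun i => c2 _, ?_⟩
      · rw [c1, fixA i j' σ' hσ']
      · rw [map_mul, c1, c2, hAd' j' σ' hσ', map_neg, neg_mul]
    · intro σ hσ
      obtain ⟨σ', hσ'⟩ := exists_simpleRefl (k := k) B j' (hB j')
      obtain ⟨c1, c2⟩ := blk_refl_right hιA hιB hσ hσ'
      refine ⟨fun i => c1 _, fun i => ?_, ?_⟩
      · rw [c2, fixB i j' σ' hσ']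
      · rw [map_mul, c1, c2, hBd' j' σ' hσ', map_neg, mul_neg]
  obtain ⟨t, ht⟩ : ∃ t : Fin (n + m) → RF k (n + m), t = Fin.addCases
      (fun i => if i = i0 then ιA (tA i0) * ιB (tB j0) else ιA (tA i)) (fun j => ιB (tB j)) :=
    ⟨_, rfl⟩
  have tl0 : t (Fin.castAdd m i0) = ιA (tA i0) * ιB (tB j0) := by
    rw [ht]
    simp only [Fin.addCases_left, if_true]
  have tl : ∀ i, i ≠ i0 → t (Fin.castAdd m i) = ιA (tA i) := fun i hi => by
    rw [ht]
    simp only [Fin.addCases_left, if_neg hi]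
  have tr : ∀ j, t (Fin.natAdd n j) = ιB (tB j) := fun j => by
    rw [ht]
    simp only [Fin.addCases_right]
  have hB0 : ιB (tB j0) ≠ 0 := by
    rw [map_ne_zero]
    exact hBi.ne_zero j0
  have tl0' : ιA (tA i0) = t (Fin.castAdd m i0) / t (Fin.natAdd n j0) := by
    rw [tl0, tr, mul_div_cancel_right₀ _ hB0]
  have memA : ∀ i, ιA (tA i) ∈ IntermediateField.adjoin k (Set.range t) := by
    intro i
    by_cases hi : i = i0
    · rw [hi, tl0']
      exact div_mem (IntermediateField.subset_adjoin k _ ⟨_, rfl⟩)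
        (IntermediateField.subset_adjoin k _ ⟨_, rfl⟩)
    · rw [← tl i hi]
      exact IntermediateField.subset_adjoin k _ ⟨_, rfl⟩
  have memB : ∀ j, ιB (tB j) ∈ IntermediateField.adjoin k (Set.range t) := by
    intro j
    rw [← tr]
    exact IntermediateField.subset_adjoin k _ ⟨_, rfl⟩
  refine good_of (blkM A B) t (ιA dA * ιB dB) (Fin.castAdd m i0) ?_ ?_ (fun j σ hσ =>
    (act j σ hσ).2.2) ?_ ?_
  · intro i j σ hσ
    obtain ⟨c1, c2, -⟩ := act j σ hσ
    refine Fin.addCases (fun i' => ?_) (fun i' => ?_) i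
    · by_cases hi : i' = i0
      · rw [hi, tl0, map_mul, c1, c2]
      · rw [tl i' hi, c1]
    · rw [tr, c2]
  · rw [tl0, mul_pow, ← map_pow, ← map_pow, hAd, hBd]
  · intro i
    refine Fin.addCases (fun i' => ?_) (fun i' => ?_) i
    · rw [← hιA]
      exact prod2_alg memA (good_alg hAi _)
    · rw [← hιB]
      exact prod2_alg memB (good_alg hBi _)
  · intro τ hτ
    have τA : ∀ i, τ (algebraMap (RF k (n + m)) _ (ιA (tA i))) = algebraMap _ _ (ιA (tA i)) := by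
      intro i
      by_cases hi : i = i0
      · rw [hi, tl0', map_div₀, map_div₀, hτ, hτ]
      · rw [← tl i hi, hτ]
    have τB : ∀ i, τ (algebraMap (RF k (n + m)) _ (ιB (tB i))) = algebraMap _ _ (ιB (tB i)) := by
      intro i
      rw [← tr, hτ]
    obtain ⟨v, hv, hv'⟩ := good_gal hAi hAg
      ((IsScalarTower.toAlgHom k (RF k (n + m)) (AlgebraicClosure (RF k (n + m)))).comp ιA)
      ((τ : AlgebraicClosure (RF k (n + m)) →ₐ[k] AlgebraicClosure (RF k (n + m))).comp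
        ((IsScalarTower.toAlgHom k (RF k (n + m)) (AlgebraicClosure (RF k (n + m)))).comp ιA)) τA
    obtain ⟨w, hw, hw'⟩ := good_gal hBi hBg
      ((IsScalarTower.toAlgHom k (RF k (n + m)) (AlgebraicClosure (RF k (n + m)))).comp ιB)
      ((τ : AlgebraicClosure (RF k (n + m)) →ₐ[k] AlgebraicClosure (RF k (n + m))).comp
        ((IsScalarTower.toAlgHom k (RF k (n + m)) (AlgebraicClosure (RF k (n + m)))).comp ιB)) τB
    obtain ⟨g, hg, gA, gB⟩ := blk_group hA hB hιA hιB hv hw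
    refine ⟨g, hg, fun i => ?_⟩
    refine Fin.addCases (fun i' => ?_) (fun i' => ?_) i
    · rw [← hιA, gA]
      exact hv' (xv k i')
    · rw [← hιB, gB]
      exact hw' (xv k i')

end CM83
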