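import Pool.Agent.H.MP_83e36b_nt.cm.Defs

/-! Module RegA: commuting antisymmetric operators over the real numbers. -/

namespace CM83

variable {ι : Type*} [Fintype ι]

theorem bil_self_nonneg (f : ι → ℝ) : 0 ≤ bil f f := by
  unfold bil
  exact Finset.sum_nonneg fun w _ => mul_self_nonneg _

theorem bil_self_eq_zero {f : ι → ℝ} (h : bil f f = 0) : f = 0 := by
  unfold bil at h
  rw [Finset.sum_eq_zero_iff_of_nonneg (fun w _ => mul_self_nonneg _)] at h
  funext w
  exact mul_self_eq_zero.mp (h w (Finset.mem_univ w))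

theorem rega_add_right (x y z : ι → ℝ) : bil x (y + z) = bil x y + bil x z := by
  unfold bil
  rw [← Finset.sum_add_distrib]
  exact Finset.sum_congr rfl fun w _ => by rw [Pi.add_apply, mul_add]

theorem rega_add_left (x y z : ι → ℝ) : bil (x + y) z = bil x z + bil y z := by
  unfold bil
  rw [← Finset.sum_add_distrib]
  exact Finset.sum_congr rfl fun w _ => by rw [Pi.add_apply, add_mul]

theorem rega_zero_left (x : ι → ℝ) : bil 0 x = 0 := by
  unfold bil
  exact Finset.sum_eq_zero fun w _ => by rw [Pi.zero_apply, zero_mul]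

theorem rega_zero_right (x : ι → ℝ) : bil x 0 = 0 := by
  unfold bil
  exact Finset.sum_eq_zero fun w _ => by rw [Pi.zero_apply, mul_zero]

theorem rega_comm (x y : ι → ℝ) : bil x y = bil y x := by
  unfold bil
  exact Finset.sum_congr rfl fun w _ => mul_comm _ _

/-- kernel and range meet trivially -/
theorem anti_inter {A : (ι → ℝ) →ₗ[ℝ] (ι → ℝ)} (hA : ∀ f g, bil (A f) g = - bil f (A g))
    {x y : ι → ℝ} (hx : A x = 0) (hy : x = A y) : x = 0 := by
  apply bil_self_eq_zero
  have h1 : bil (A y) x = - bil y (A x) := hA y x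
  rw [hx, rega_zero_right, neg_zero, ← hy] at h1
  exact h1

theorem anti_decomp {A : (ι → ℝ) →ₗ[ℝ] (ι → ℝ)} (hA : ∀ f g, bil (A f) g = - bil f (A g))
    (x : ι → ℝ) : ∃ p h, x = p + A h ∧ A p = 0 := by
  have hdis : Disjoint (LinearMap.ker A) (LinearMap.range A) := by
    rw [Submodule.disjoint_def]
    intro y hy hy'
    obtain ⟨z, hz⟩ := hy'
    exact anti_inter hA (LinearMap.mem_ker.mp hy) hz.symm
  have htop : LinearMap.ker A ⊔ LinearMap.range A = ⊤ := by
    apply Submodule.eq_top_of_finrank_eq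
    have h1 := Submodule.finrank_sup_add_finrank_inf_eq (LinearMap.ker A) (LinearMap.range A)
    rw [hdis.eq_bot, finrank_bot, add_zero] at h1
    rw [h1, add_comm]
    exact LinearMap.finrank_range_add_finrank_ker A
  have hx : x ∈ LinearMap.ker A ⊔ LinearMap.range A := by
    rw [htop]
    exact Submodule.mem_top
  obtain ⟨p, hp, y, ⟨h, rfl⟩, hpy⟩ := Submodule.mem_sup.mp hx
  exact ⟨p, h, hpy.symm, LinearMap.mem_ker.mp hp⟩

/-- `x ⟂ ker A` implies `x ∈ range A` -/
theorem anti_range {A : (ι → ℝ) →ₗ[ℝ] (ι → ℝ)} (hA : ∀ f g, bil (A f) g = - bil f (A g))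
    {x : ι → ℝ} (h : ∀ p, A p = 0 → bil x p = 0) : ∃ y, x = A y := by
  obtain ⟨p, y, hx, hp⟩ := anti_decomp hA x
  have h1 := h p hp
  rw [hx, rega_add_left, hA, hp, rega_zero_right, neg_zero, add_zero] at h1
  have h2 := bil_self_eq_zero h1
  exact ⟨y, by rw [hx, h2, zero_add]⟩

theorem proj_nonneg {A B : (ι → ℝ) →ₗ[ℝ] (ι → ℝ)} (hA : ∀ f g, bil (A f) g = - bil f (A g))
    (hB : ∀ f g, bil (B f) g = - bil f (B g)) (hAB : ∀ f, A (B f) = B (A f))
    {x p h p' h' : ι → ℝ} (hx : x = p + A h) (hp : A p = 0) (hx' : x = p' + B h')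
    (hp' : B p' = 0) : 0 ≤ bil p p' := by
  obtain ⟨a, k, hak, ha⟩ := anti_decomp hB p
  obtain ⟨c, d, hcd, hc⟩ := anti_decomp hB h
  have h1 : x = (a + A c) + B (k + A d) := by
    rw [hx, hcd, map_add, map_add, hAB]
    nth_rewrite 1 [hak]
    abel
  have h2 : B (a + A c) = 0 := by
    rw [map_add, ha, ← hAB, hc, map_zero, add_zero]
  have h3 : p' - (a + A c) = 0 := by
    refine anti_inter hB (x := p' - (a + A c)) (y := k + A d - h') ?_ ?_
    · rw [map_sub, hp', h2, sub_zero]
    · rw [map_sub, sub_eq_sub_iff_add_eq_add, ← hx', h1]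
      abel
  have h4 : p' = a + A c := sub_eq_zero.mp h3
  have h5 : bil p (A c) = 0 := by
    have h6 := hA p c
    rw [hp, rega_zero_left] at h6
    linarith
  have h7 : bil p a = bil a a := by
    rw [hak, rega_add_left, hB, ha, rega_zero_right, neg_zero, add_zero]
  rw [h4, rega_add_right, h5, h7, add_zero]
  exact bil_self_nonneg a

theorem list_range (L : List ((ι → ℝ) →ₗ[ℝ] (ι → ℝ)))
    (hL : ∀ A ∈ L, ∀ f g, bil (A f) g = - bil f (A g))
    (hc : ∀ A ∈ L, ∀ B ∈ L, ∀ f, A (B f) = B (A f)) (x : ι → ℝ)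
    (hx : ∀ A ∈ L, ∃ y, x = A y) : ∃ y, x = L.prod y := by
  induction L generalizing x with
  | nil => exact ⟨x, rfl⟩
  | cons A L ih =>
    have hA := hL A List.mem_cons_self
    obtain ⟨y, hy⟩ := hx A List.mem_cons_self
    obtain ⟨p, k, hpk, hp⟩ := anti_decomp hA y
    have hx1 : x = A (A k) := by rw [hy, hpk, map_add, hp, zero_add]
    obtain ⟨y', hy'⟩ := ih (fun B hB => hL B (List.mem_cons_of_mem A hB))
      (fun B hB C hC => hc B (List.mem_cons_of_mem A hB) C (List.mem_cons_of_mem A hC))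
      (A k) (fun B hB => by
        have hBm := List.mem_cons_of_mem A hB
        obtain ⟨c, d, hcd, hc0⟩ := anti_decomp (hL B hBm) (A k)
        obtain ⟨z, hz⟩ := hx B hBm
        have h1 : A c = 0 := by
          refine anti_inter (hL B hBm) (x := A c) (y := z - A d) ?_ ?_
          · rw [← hc A List.mem_cons_self B hBm, hc0, map_zero]
          · rw [map_sub, ← hz, ← hc A List.mem_cons_self B hBm, eq_sub_iff_add_eq, hx1, ← map_add,
              ← hcd]
        have h2 : bil c c = 0 := by
          have h3 : bil c (A k) = bil c c + bil c (B d) := by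
            rw [hcd, rega_add_right]
          have h4 := hA c k
          have h5 := hL B hBm c d
          rw [h1, rega_zero_left] at h4
          rw [hc0, rega_zero_left] at h5
          linarith
        refine ⟨d, ?_⟩
        rw [hcd, bil_self_eq_zero h2, zero_add])
    refine ⟨y', ?_⟩
    rw [List.prod_cons, Module.End.mul_apply, ← hy', hx1]

end CM83
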