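import Pool.Agent.H.MP_83e36b_nt.cm.Dcomm
import Pool.Agent.H.MP_83e36b_nt.cm.RegA

/-! Module RegB: the constant function one lies in the range of the operators of the roots. -/

namespace CM83

theorem RD.one_mem_range {n : ℕ} {G : Type} [Group G] [Fintype G] (R : RD n G) {ζ : V n →+ ℝ}
    (hζ : Function.Injective ζ) {t : G} (ht : t ∈ R.S) :
    ∃ h : G → ℝ, R.Dop ζ (R.a t) h = 1 := by
  have hreg : ∀ g, ∀ s ∈ R.S, ζ (R.ρ g (R.a s)) ≠ 0 := fun g s hs => R.reg_of_inj hζ g hs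
  obtain ⟨p, h, h1, hp⟩ := anti_decomp (fun f g => R.Dop_antisymm ζ (R.a t) f g) 1
  have hone : ∀ s : G, (1 : G → ℝ) = Rop s p + R.Dop ζ (R.ρ s (R.a t)) (Rop s h) := by
    intro s
    rw [← R.Rop_Dop, ← map_add, ← h1]
    rfl
  have hker : ∀ s : G, R.Dop ζ (R.ρ s (R.a t)) (Rop s p) = 0 := by
    intro s
    rw [← R.Rop_Dop, hp, map_zero]
  have hnn : ∀ s : G, 0 ≤ bil p (Rop s p) := fun s =>
    proj_nonneg (fun f g => R.Dop_antisymm ζ (R.a t) f g)
      (fun f g => R.Dop_antisymm ζ (R.ρ s (R.a t)) f g)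
      (fun f => R.Dop_comm ζ hreg (R.a t) (R.ρ s (R.a t)) f) h1 hp (hone s) (hker s)
  -- the term of t
  have hneg : ∀ f, R.Dop ζ (R.ρ t (R.a t)) f = - R.Dop ζ (R.a t) f := by
    intro f
    have h2 : R.ρ t (R.a t) = (-1 : ℚ) • R.a t := by rw [R.refl_a ht, neg_one_smul]
    rw [h2, R.Dop_smul]
    push_cast
    rw [neg_one_smul]
  have htt : Rop t p = p := by
    have h2 : p - Rop t p = 0 := by
      refine anti_inter (A := R.Dop ζ (R.a t)) (fun f g => R.Dop_antisymm ζ (R.a t) f g)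
        (x := p - Rop t p) (y := -(h + Rop t h)) ?_ ?_
      · have h3 := hker t
        rw [hneg, neg_eq_zero] at h3
        rw [map_sub, hp, h3, sub_zero]
      · have h3 := hone t
        rw [hneg, h1] at h3
        rw [map_neg, map_add]
        have h4 : p + R.Dop ζ (R.a t) h - (Rop t p + -(R.Dop ζ (R.a t)) (Rop t h)) = 0 :=
          sub_eq_zero.mpr h3
        have h5 : p - Rop t p - (-(R.Dop ζ (R.a t) h + R.Dop ζ (R.a t) (Rop t h))) =
          p + R.Dop ζ (R.a t) h - (Rop t p + -(R.Dop ζ (R.a t)) (Rop t h)) := by abel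
        rw [← sub_eq_zero, h5, h4]
    exact (sub_eq_zero.mp h2).symm
  have hrel := R.Dop_Xop ζ hreg (R.a t) (R.a t) p
  have hsum : ∑ s ∈ R.S, ((2 * R.B (R.a t) (R.a s) * R.B (R.a t) (R.a s) /
      R.B (R.a s) (R.a s) : ℚ) : ℝ) * bil p (Rop s p) = 0 := by
    have h2 : bil p (R.Dop ζ (R.a t) (R.Xop ζ (R.a t) p)) = 0 := by
      have h3 := R.Dop_antisymm ζ (R.a t) p (R.Xop ζ (R.a t) p)
      rw [hp, rega_zero_left] at h3
      linarith
    rw [hrel, hp, map_zero, zero_sub] at h2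
    have h3 : bil p (-∑ s ∈ R.S, ((2 * R.B (R.a t) (R.a s) * R.B (R.a t) (R.a s) /
      R.B (R.a s) (R.a s) : ℚ) : ℝ) • Rop s p) = - ∑ s ∈ R.S, ((2 * R.B (R.a t) (R.a s) *
      R.B (R.a t) (R.a s) / R.B (R.a s) (R.a s) : ℚ) : ℝ) * bil p (Rop s p) := by
      unfold bil
      simp only [Pi.neg_apply, Finset.sum_apply, Pi.smul_apply, smul_eq_mul, mul_neg,
        Finset.mul_sum, Finset.sum_neg_distrib]
      rw [Finset.sum_comm]
      refine congrArg _ (Finset.sum_congr rfl fun s _ => Finset.sum_congr rfl fun w _ => ?_)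
      ring
    rw [h3] at h2
    linarith
  have hcn : ∀ s ∈ R.S, (0 : ℝ) ≤ ((2 * R.B (R.a t) (R.a s) * R.B (R.a t) (R.a s) /
      R.B (R.a s) (R.a s) : ℚ) : ℝ) := by
    intro s hs
    have h2 := R.norm_pos hs
    have h3 : (0 : ℚ) ≤ 2 * R.B (R.a t) (R.a s) * R.B (R.a t) (R.a s) /
      R.B (R.a s) (R.a s) := by
      rw [mul_assoc]
      exact div_nonneg (mul_nonneg (by norm_num) (mul_self_nonneg _)) h2.le
    exact_mod_cast h3
  rw [Finset.sum_eq_zero_iff_of_nonneg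
    (fun s hs => mul_nonneg (hcn s hs) (hnn s))] at hsum
  have ht0 := hsum t ht
  have hpos := R.norm_pos ht
  have hc : ((2 * R.B (R.a t) (R.a t) * R.B (R.a t) (R.a t) /
      R.B (R.a t) (R.a t) : ℚ) : ℝ) ≠ 0 := by
    have h2 : (2 * R.B (R.a t) (R.a t) * R.B (R.a t) (R.a t) /
      R.B (R.a t) (R.a t) : ℚ) ≠ 0 := by positivity
    exact_mod_cast h2
  rw [htt] at ht0
  have hp0 : p = 0 := bil_self_eq_zero ((mul_eq_zero.mp ht0).resolve_left hc)
  exact ⟨h, by rw [h1, hp0, zero_add]⟩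

end CM83
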