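import Pool.Agent.H.MP_83e36b_nt.cm.Ops

/-! Module Sep: subspaces stable under the coordinate functions. -/

namespace CM83

variable {n : ℕ} {G : Type} [Group G] [Fintype G] (R : RD n G) {F : Type*} [Field F]

theorem RD.sep_single [DecidableEq G] {ζ : V n →+ F} (hζ : Function.Injective ζ)
    (M : Submodule F (G → F)) (hX : ∀ v, ∀ f ∈ M, R.Xop ζ v f ∈ M) {f : G → F} (hf : f ∈ M)
    {w0 : G} (h0 : f w0 ≠ 0) : (Pi.single w0 1 : G → F) ∈ M := by
  have key : ∀ T : Finset G, w0 ∉ T → ∃ f' ∈ M, f' w0 ≠ 0 ∧ ∀ w ∈ T, f' w = 0 := by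
    intro T
    induction T using Finset.induction_on with
    | empty => exact fun _ => ⟨f, hf, h0, fun w hw => absurd hw (Finset.notMem_empty w)⟩
    | insert w T hw ih =>
      intro hnot
      rw [Finset.mem_insert, not_or] at hnot
      obtain ⟨f', hf', h1, h2⟩ := ih hnot.2
      obtain ⟨v, hv⟩ := R.sep_of_inj hζ hnot.1
      refine ⟨R.Xop ζ v f' - ζ (R.ρ w v) • f', M.sub_mem (hX v f' hf') (M.smul_mem _ hf'), ?_, ?_⟩
      · change ζ (R.ρ w0 v) * f' w0 - ζ (R.ρ w v) * f' w0 ≠ 0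
        rw [← sub_mul]
        exact mul_ne_zero (sub_ne_zero.mpr hv) h1
      · intro w' hw'
        change ζ (R.ρ w' v) * f' w' - ζ (R.ρ w v) * f' w' = 0
        rw [← sub_mul]
        rcases Finset.mem_insert.mp hw' with h3 | h3
        · rw [h3, sub_self, zero_mul]
        · rw [h2 w' h3, mul_zero]
  obtain ⟨f', hf', h1, h2⟩ := key (Finset.univ.erase w0) (Finset.notMem_erase w0 _)
  have h3 : (Pi.single w0 1 : G → F) = (f' w0)⁻¹ • f' := by
    funext w
    rw [Pi.smul_apply, smul_eq_mul]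
    by_cases hw : w = w0
    · rw [hw, Pi.single_eq_same, inv_mul_cancel₀ h1]
    · rw [Pi.single_eq_of_ne hw, h2 w (Finset.mem_erase.mpr ⟨hw, Finset.mem_univ w⟩), mul_zero]
  rw [h3]
  exact M.smul_mem _ hf'

theorem sep_top_of_single [DecidableEq G] (M : Submodule F (G → F))
    (h : ∀ w, (Pi.single w 1 : G → F) ∈ M) : M = ⊤ := by
  rw [eq_top_iff]
  intro f _
  have h1 : f = ∑ w, f w • (Pi.single w 1 : G → F) := by
    funext x
    rw [Finset.sum_apply]
    simp [Pi.single_apply]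
  rw [h1]
  exact M.sum_mem fun w _ => M.smul_mem _ (h w)

theorem RD.sep_top {ζ : V n →+ F} (hζ : Function.Injective ζ) (M : Submodule F (G → F))
    (hX : ∀ v, ∀ f ∈ M, R.Xop ζ v f ∈ M) (h1 : (1 : G → F) ∈ M) : M = ⊤ := by
  classical
  refine sep_top_of_single M fun w => ?_
  exact R.sep_single hζ M hX h1 (w0 := w) one_ne_zero

theorem RD.sep_top' {ζ : V n →+ F} (hζ : Function.Injective ζ) (M : Submodule F (G → F))
    (hX : ∀ v, ∀ f ∈ M, R.Xop ζ v f ∈ M) (hR : ∀ g : G, ∀ f ∈ M, Rop g f ∈ M) {f : G → F}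
    (hf : f ∈ M) (h0 : f ≠ 0) : M = ⊤ := by
  classical
  obtain ⟨w0, hw0⟩ := Function.ne_iff.mp h0
  refine sep_top_of_single M fun w => ?_
  refine R.sep_single hζ M hX (hR (w⁻¹ * w0) f hf) (w0 := w) ?_
  change f (w * (w⁻¹ * w0)) ≠ 0
  rw [mul_inv_cancel_left]
  exact hw0

end CM83
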