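import Pool.Agent.H.MP_83e36b_nt.cm.RegB
import Pool.Agent.H.MP_83e36b_nt.cm.Sep

/-! Module RegC: the operators of the roots are injective, real case. -/

namespace CM83

/-- a product of commuting operators kills what one of them kills -/
theorem regc_prod_zero {E : Type*} [AddCommGroup E] [Module ℝ E] (L : List (E →ₗ[ℝ] E))
    (hc : ∀ A ∈ L, ∀ B ∈ L, ∀ f, A (B f) = B (A f)) {x : E} {A : E →ₗ[ℝ] E}
    (hA : A ∈ L) (hx : A x = 0) : L.prod x = 0 := by
  induction L with
  | nil => exact absurd hA List.not_mem_nil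
  | cons B L ih =>
    rw [List.prod_cons, Module.End.mul_apply]
    rcases List.mem_cons.mp hA with h | h
    · have hcomm : ∀ L' : List (E →ₗ[ℝ] E), (∀ C ∈ L', ∀ f, B (C f) = C (B f)) →
          ∀ y, B (L'.prod y) = L'.prod (B y) := by
        intro L'
        induction L' with
        | nil => exact fun _ y => rfl
        | cons C L' ih' =>
          intro h1 y
          rw [List.prod_cons, Module.End.mul_apply, Module.End.mul_apply,
            h1 C List.mem_cons_self, ih' (fun D hD => h1 D (List.mem_cons_of_mem C hD))]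
      rw [hcomm L (fun C hC => hc B List.mem_cons_self C (List.mem_cons_of_mem B hC)), ← h, hx,
        map_zero]
    · rw [ih (fun C hC D hD => hc C (List.mem_cons_of_mem B hC) D (List.mem_cons_of_mem B hD)) h,
        map_zero]

theorem regc_prod_comm {E : Type*} [AddCommGroup E] [Module ℝ E] (B : E →ₗ[ℝ] E)
    (L' : List (E →ₗ[ℝ] E)) (h1 : ∀ C ∈ L', ∀ f, B (C f) = C (B f)) (y : E) :
    B (L'.prod y) = L'.prod (B y) := by
  induction L' with
  | nil => rfl
  | cons C L' ih' =>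
    rw [List.prod_cons, Module.End.mul_apply, Module.End.mul_apply,
      h1 C List.mem_cons_self, ih' (fun D hD => h1 D (List.mem_cons_of_mem C hD))]

theorem regc_bil {ι : Type*} [Fintype ι] (L : List ((ι → ℝ) →ₗ[ℝ] (ι → ℝ)))
    (hL : ∀ A ∈ L, ∀ f g, bil (A f) g = - bil f (A g))
    (hc : ∀ A ∈ L, ∀ B ∈ L, ∀ f, A (B f) = B (A f)) (y z : ι → ℝ) (hz : L.prod z = 0) :
    bil (L.prod y) z = 0 := by
  induction L generalizing z with
  | nil =>
    change z = 0 at hz
    rw [hz, rega_zero_right]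
  | cons A L ih =>
    rw [List.prod_cons, Module.End.mul_apply] at hz ⊢
    rw [hL A List.mem_cons_self, ih (fun B hB => hL B (List.mem_cons_of_mem A hB))
      (fun B hB C hC => hc B (List.mem_cons_of_mem A hB) C (List.mem_cons_of_mem A hC)) (A z),
      neg_zero]
    rw [← regc_prod_comm A L
      (fun C hC => hc A List.mem_cons_self C (List.mem_cons_of_mem A hC)), hz]

theorem RD.Dop_inj_real {n : ℕ} {G : Type} [Group G] [Fintype G] (R : RD n G) {ζ : V n →+ ℝ}
    (hζ : Function.Injective ζ) {t : G} (ht : t ∈ R.S) :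
    Function.Injective (R.Dop ζ (R.a t)) := by
  have hreg : ∀ g, ∀ s ∈ R.S, ζ (R.ρ g (R.a s)) ≠ 0 := fun g s hs => R.reg_of_inj hζ g hs
  let Q : Submodule ℝ (G → ℝ) := ⨅ g : G, ⨅ s : R.S, LinearMap.range (R.Dop ζ (R.ρ g (R.a s)))
  have hQ : ∀ f, f ∈ Q ↔ ∀ g : G, ∀ s ∈ R.S, ∃ y, f = R.Dop ζ (R.ρ g (R.a s)) y := by
    intro f
    simp only [Q, Submodule.mem_iInf, LinearMap.mem_range]
    constructor
    · intro h g s hs
      obtain ⟨y, hy⟩ := h g ⟨s, hs⟩
      exact ⟨y, hy.symm⟩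
    · intro h g s
      obtain ⟨y, hy⟩ := h g s.1 s.2
      exact ⟨y, hy.symm⟩
  have h1 : (1 : G → ℝ) ∈ Q := by
    rw [hQ]
    intro g s hs
    obtain ⟨h, hh⟩ := R.one_mem_range hζ hs
    refine ⟨Rop g h, ?_⟩
    rw [← R.Rop_Dop, hh]
    rfl
  have hX : ∀ v, ∀ f ∈ Q, R.Xop ζ v f ∈ Q := by
    intro v f hf
    rw [hQ] at hf ⊢
    intro g s hs
    refine anti_range (fun f g => R.Dop_antisymm ζ _ f g) (fun κ hκ => ?_)
    rw [R.Xop_symm]
    set u := R.ρ g (R.a s) with hu
    set L : List ((G → ℝ) →ₗ[ℝ] (G → ℝ)) :=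
      R.S.toList.map (fun r => R.Dop ζ (R.ρ r u)) with hLdef
    have hLmem : ∀ A ∈ L, ∃ v', A = R.Dop ζ v' := by
      intro A hA
      obtain ⟨r, _, rfl⟩ := List.mem_map.mp hA
      exact ⟨_, rfl⟩
    have hLmem' : ∀ A ∈ L ++ [R.Dop ζ u], ∃ v', A = R.Dop ζ v' := by
      intro A hA
      rcases List.mem_append.mp hA with h2 | h2
      · exact hLmem A h2
      · rw [List.mem_singleton] at h2
        exact ⟨u, h2⟩
    have hanti : ∀ A ∈ L ++ [R.Dop ζ u], ∀ f g, bil (A f) g = - bil f (A g) := by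
      intro A hA f g
      obtain ⟨v', rfl⟩ := hLmem' A hA
      exact R.Dop_antisymm ζ v' f g
    have hcomm : ∀ A ∈ L ++ [R.Dop ζ u], ∀ B ∈ L ++ [R.Dop ζ u], ∀ f, A (B f) = B (A f) := by
      intro A hA B hB f
      obtain ⟨v', rfl⟩ := hLmem' A hA
      obtain ⟨v'', rfl⟩ := hLmem' B hB
      exact R.Dop_comm ζ hreg v' v'' f
    have hrange : ∀ A ∈ L ++ [R.Dop ζ u], ∃ y, f = A y := by
      intro A hA
      rcases List.mem_append.mp hA with h2 | h2
      · obtain ⟨r, _, rfl⟩ := List.mem_map.mp h2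
        obtain ⟨y, hy⟩ := hf (r * g) s hs
        refine ⟨y, ?_⟩
        rw [hy, map_mul, Module.End.mul_apply]
      · rw [List.mem_singleton] at h2
        rw [h2]
        exact hf g s hs
    obtain ⟨y, hy⟩ := list_range _ hanti hcomm f hrange
    rw [hy]
    refine regc_bil _ hanti hcomm y _ ?_
    rw [List.prod_append, List.prod_singleton, Module.End.mul_apply, R.Dop_Xop ζ hreg, hκ,
      map_zero, zero_sub, map_neg, map_sum, neg_eq_zero]
    refine Finset.sum_eq_zero fun r hr => ?_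
    rw [map_smul]
    have h2 : L.prod (Rop r κ) = 0 := by
      refine regc_prod_zero L (fun A hA B hB => hcomm A (List.mem_append_left _ hA) B
        (List.mem_append_left _ hB)) (A := R.Dop ζ (R.ρ r u)) ?_ ?_
      · exact List.mem_map.mpr ⟨r, Finset.mem_toList.mpr hr, rfl⟩
      · rw [← R.Rop_Dop, hκ, map_zero]
    rw [h2, smul_zero]
  have htop := R.sep_top hζ Q hX h1
  have hsurj : Function.Surjective (R.Dop ζ (R.a t)) := by
    intro f
    have h2 : f ∈ Q := by rw [htop]; exact Submodule.mem_top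
    obtain ⟨y, hy⟩ := (hQ f).mp h2 1 t ht
    refine ⟨y, ?_⟩
    rw [hy, map_one, Module.End.one_apply]
  exact LinearMap.injective_iff_surjective.mpr hsurj

end CM83
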