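import Pool.Agent.H.MP_83e36b_nt.cm.Sep

/-! Module Span: the translates of `φ` span all functions. -/

namespace CM83

variable {n : ℕ} {G : Type} [Group G] [Fintype G] {R : RD n G} {F : Type*} [Field F] [CharZero F]

theorem RD.IsCM.span {ζ lam mu : V n →+ F} {φ : G → F} (h : R.IsCM ζ lam mu φ)
    (hζ : Function.Injective ζ) (f : G → F) : ∃ a : G → F, ∀ w, f w = ∑ c, a c * φ (w * c) := by
  have hR : ∀ g : G, ∀ f ∈ Submodule.span F (Set.range fun c : G => Rop c φ),
      Rop g f ∈ Submodule.span F (Set.range fun c : G => Rop c φ) := by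
    intro g f hf
    induction hf using Submodule.span_induction with
    | mem x hx =>
      obtain ⟨c, rfl⟩ := hx
      show Rop g (Rop c φ) ∈ _
      rw [Rop_Rop]
      exact Submodule.subset_span ⟨g * c, rfl⟩
    | zero => rw [map_zero]; exact Submodule.zero_mem _
    | add x y _ _ hx hy => rw [map_add]; exact Submodule.add_mem _ hx hy
    | smul c x _ hx => rw [map_smul]; exact Submodule.smul_mem _ _ hx
  have hφ : φ ∈ Submodule.span F (Set.range fun c : G => Rop c φ) :=
    Submodule.subset_span ⟨1, Rop_one φ⟩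
  have hXφ : ∀ v, R.Xop ζ v φ ∈ Submodule.span F (Set.range fun c : G => Rop c φ) := by
    intro v
    have he : R.Xop ζ v φ = mu v • φ +
        ∑ s ∈ R.S, (((R.B v (R.a s) : ℚ) : F) / lam (R.a s)) • Rop s φ := by
      funext w
      rw [Pi.add_apply, Finset.sum_apply]
      exact h.e2 v w
    rw [he]
    refine Submodule.add_mem _ (Submodule.smul_mem _ _ hφ) (Submodule.sum_mem _ fun s _ => ?_)
    exact Submodule.smul_mem _ _ (Submodule.subset_span ⟨s, rfl⟩)
  have hX : ∀ v, ∀ f ∈ Submodule.span F (Set.range fun c : G => Rop c φ),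
      R.Xop ζ v f ∈ Submodule.span F (Set.range fun c : G => Rop c φ) := by
    intro v f hf
    induction hf using Submodule.span_induction with
    | mem x hx =>
      obtain ⟨c, rfl⟩ := hx
      show R.Xop ζ v (Rop c φ) ∈ _
      rw [R.Xop_Rop]
      exact hR c _ (hXφ _)
    | zero => rw [map_zero]; exact Submodule.zero_mem _
    | add x y _ _ hx hy => rw [map_add]; exact Submodule.add_mem _ hx hy
    | smul c x _ hx => rw [map_smul]; exact Submodule.smul_mem _ _ hx
  have htop := R.sep_top' hζ _ hX hR hφ h.ne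
  have hf : f ∈ Submodule.span F (Set.range fun c : G => Rop c φ) := by
    rw [htop]; exact Submodule.mem_top
  rw [Submodule.mem_span_range_iff_exists_fun] at hf
  obtain ⟨a, ha⟩ := hf
  refine ⟨a, fun w => ?_⟩
  rw [← ha, Finset.sum_apply]
  rfl

theorem RD.IsCM.Span_unit [DecidableEq G] {ζ lam mu : V n →+ F} {φ : G → F}
    (h : R.IsCM ζ lam mu φ) (hζ : Function.Injective ζ) :
    IsUnit (Matrix.of fun w c : G => φ (w * c)) := by
  rw [← Matrix.mulVec_surjective_iff_isUnit]
  intro f
  obtain ⟨a, ha⟩ := h.span hζ f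
  refine ⟨a, ?_⟩
  funext w
  rw [ha w]
  show ∑ c, φ (w * c) * a c = _
  exact Finset.sum_congr rfl fun c _ => mul_comm _ _

theorem RD.IsCM.span_left {ζ lam mu : V n →+ F} {φ : G → F} (h : R.IsCM ζ lam mu φ)
    (hζ : Function.Injective ζ) (f : G → F) : ∃ a : G → F, ∀ c, f c = ∑ w, a w * φ (w * c) := by
  classical
  have hu := h.Span_unit hζ
  rw [← Matrix.vecMul_surjective_iff_isUnit] at hu
  obtain ⟨a, ha⟩ := hu f
  refine ⟨a, fun c => ?_⟩
  rw [← ha]
  rfl

/-- the left translates are linearly independent -/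
theorem RD.IsCM.indep_left {ζ lam mu : V n →+ F} {φ : G → F} (h : R.IsCM ζ lam mu φ)
    (hζ : Function.Injective ζ) (a : G → F) (ha : ∀ c, ∑ w, a w * φ (w * c) = 0) : a = 0 := by
  classical
  have hu := h.Span_unit hζ
  rw [← Matrix.vecMul_injective_iff_isUnit] at hu
  apply hu
  show Matrix.vecMul a (Matrix.of fun w c : G => φ (w * c)) =
    Matrix.vecMul 0 (Matrix.of fun w c : G => φ (w * c))
  rw [Matrix.zero_vecMul]
  funext c
  exact ha c

theorem RD.IsCM.sum_ne_zero {ζ lam mu : V n →+ F} {φ : G → F} (h : R.IsCM ζ lam mu φ)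
    (hζ : Function.Injective ζ) : ∑ w, φ w ≠ 0 := by
  classical
  intro h0
  obtain ⟨a, ha⟩ := h.span hζ (Pi.single 1 1)
  have h1 : ∑ w, (Pi.single 1 1 : G → F) w = 1 := by
    rw [Finset.sum_pi_single']
    simp
  rw [Finset.sum_congr rfl fun w _ => ha w, Finset.sum_comm] at h1
  have h2 : ∀ c : G, ∑ w, a c * φ (w * c) = 0 := by
    intro c
    rw [← Finset.mul_sum]
    have h3 : ∑ w, φ (w * c) = ∑ w, φ w := Equiv.sum_comp (Equiv.mulRight c) φ
    rw [h3, h0, mul_zero]
  rw [Finset.sum_congr rfl fun c _ => h2 c, Finset.sum_const_zero] at h1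
  exact zero_ne_one h1

theorem RD.IsCM.exists_bil_ne_zero {ζ lam mu : V n →+ F} {φ : G → F} (h : R.IsCM ζ lam mu φ)
    (hζ : Function.Injective ζ) {ψ : G → F} (hψ : ψ ≠ 0) : ∃ c : G, bil (Rop c φ) ψ ≠ 0 := by
  classical
  by_contra hcon
  push Not at hcon
  apply hψ
  funext w
  obtain ⟨a, ha⟩ := h.span hζ (Pi.single w 1)
  have h1 : bil (Pi.single w 1 : G → F) ψ = ψ w := by
    unfold bil
    rw [Finset.sum_eq_single w]
    · simp
    · intro b _ hb
      rw [Pi.single_eq_of_ne hb, zero_mul]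
    · intro hw
      exact absurd (Finset.mem_univ w) hw
  rw [Pi.zero_apply, ← h1]
  unfold bil
  have h2 : ∀ v : G, (Pi.single w 1 : G → F) v * ψ v = ∑ c, a c * (φ (v * c) * ψ v) := by
    intro v
    rw [ha v, Finset.sum_mul]
    exact Finset.sum_congr rfl fun c _ => by ring
  rw [Finset.sum_congr rfl fun v _ => h2 v, Finset.sum_comm]
  refine Finset.sum_eq_zero fun c _ => ?_
  rw [← Finset.mul_sum]
  have h3 := hcon c
  unfold bil at h3
  have h4 : ∑ v, φ (v * c) * ψ v = 0 := h3
  rw [h4, mul_zero]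

end CM83
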