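import Pool.Agent.H.MP_83e36b_nt.cm.TypeA1
import Pool.Agent.H.DiscRat.VRat

/-! Module TypeA: the theorem for the type `A_n`. -/

namespace CM83

universe u

open NoetherAn

/-- the generators -/
noncomputable def tA (k : Type u) [Field k] [CharZero k] (n : ℕ) : Fin n → RF k n := fun i =>
  if (i : ℕ) < (n + 1) / 2 then
    (cm (zA k n)).charpoly.coeff ((n + 1) % 2 + 2 * (i : ℕ))
  else cmom (zA k n) (2 * ((i : ℕ) + 1 - (n + 1) / 2))

theorem typeA_charpoly_mem (k : Type u) [Field k] [CharZero k] {n : ℕ} (hn : 1 ≤ n) (j : ℕ) :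
    (cm (zA k n)).charpoly.coeff j ∈ IntermediateField.adjoin k (Set.range (tA k n)) := by
  have : CharZero (RF k n) := charZero_of_injective_algebraMap
    (algebraMap k (RF k n)).injective
  set K1 := IntermediateField.adjoin k (Set.range (tA k n)) with hK1
  have hdeg : (cm (zA k n)).charpoly.natDegree = n + 1 := by
    rw [Matrix.charpoly_natDegree_eq_dim]; simp
  rcases lt_trichotomy j (n + 1) with hj | hj | hj
  · by_cases hodd : Odd (n + 1 + j)
    · rw [charpoly_coeff_odd _ hodd]; exact K1.zero_mem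
    · rw [Nat.not_odd_iff_even] at hodd
      have hmod : j % 2 = (n + 1) % 2 := by
        have := Nat.even_iff.1 hodd
        omega
      have hj2 : j = (n + 1) % 2 + 2 * (j / 2) := by omega
      have hlt : j / 2 < (n + 1) / 2 := by omega
      have hg : tA k n ⟨j / 2, by omega⟩ = (cm (zA k n)).charpoly.coeff j := by
        simp only [tA]
        rw [if_pos hlt, ← hj2]
      rw [← hg]
      exact IntermediateField.subset_adjoin _ _ (Set.mem_range_self _)
  · have hm := Matrix.charpoly_monic (cm (zA k n))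
    rw [Polynomial.Monic, Polynomial.leadingCoeff, hdeg] at hm
    rw [hj, hm]
    exact K1.one_mem
  · rw [Polynomial.coeff_eq_zero_of_natDegree_lt (by rw [hdeg]; exact hj)]
    exact K1.zero_mem

theorem typeA_cmom_mem (k : Type u) [Field k] [CharZero k] {n : ℕ} (l : ℕ)
    (hl : 2 * l < n + 1) :
    cmom (zA k n) (2 * l) ∈ IntermediateField.adjoin k (Set.range (tA k n)) := by
  rcases Nat.eq_zero_or_pos l with h0 | h0
  · subst h0
    have h1 : cmom (zA k n) (2 * 0) = ∑ i, zA k n i := by
      unfold cmom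
      refine Finset.sum_congr rfl fun i _ => ?_
      rw [Nat.mul_zero, pow_zero, ← Finset.mul_sum, Finset.sum_eq_single i]
      · rw [Matrix.one_apply_eq, mul_one]
      · intro b _ hb
        exact Matrix.one_apply_ne hb.symm
      · intro h
        exact absurd (Finset.mem_univ i) h
    rw [h1, zA_sum]
    exact zero_mem _
  · have hg : tA k n ⟨l - 1 + (n + 1) / 2, by omega⟩ = cmom (zA k n) (2 * l) := by
      simp only [tA]
      rw [if_neg (by omega)]
      congr 2
      omega
    rw [← hg]
    exact IntermediateField.subset_adjoin _ _ (Set.mem_range_self _)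

/-- the coefficients of `∏ (X - z_i)` -/
theorem typeA_coeff_mem (k : Type u) [Field k] [CharZero k] {n : ℕ} (hn : 1 ≤ n) (j : ℕ) :
    (∏ i, (Polynomial.X - Polynomial.C (zA k n i))).coeff j ∈
      IntermediateField.adjoin k (Set.range (tA k n)) := by
  have : CharZero (RF k n) := charZero_of_injective_algebraMap
    (algebraMap k (RF k n)).injective
  set K1 := IntermediateField.adjoin k (Set.range (tA k n)) with hK1
  have hK : ∀ j, (cm (zA k n)).charpoly.coeff j ∈ K1.toSubfield := fun j =>
    typeA_charpoly_mem k hn j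
  have hc : ∀ l, 2 * l < n + 1 → cmom (zA k n) (2 * l) ∈ K1.toSubfield := fun l hl =>
    typeA_cmom_mem k l hl
  exact coeff_prod_mem zA_injective zA_generic.1 K1.toSubfield (mom_mem zA_injective _ hK)
    (cmom_mem zA_injective _ hK hc) j

theorem typeA_refl {k : Type u} [Field k] [CharZero k] {n : ℕ} {j : Fin n}
    {σ : RF k n ≃ₐ[k] RF k n} (h : IsSimpleRefl k (CartanMatrix.A n) j σ) :
    ((σ : RF k n →+* RF k n) : RF k n → RF k n) ∘ zA k n =
      zA k n ∘ (Equiv.swap j.castSucc j.succ) :=
  funext fun i => zA_refl h i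

theorem typeA_fix {k : Type u} [Field k] [CharZero k] {n : ℕ} (i : Fin n) {j : Fin n}
    {σ : RF k n ≃ₐ[k] RF k n} (h : IsSimpleRefl k (CartanMatrix.A n) j σ) :
    σ (tA k n i) = tA k n i := by
  have h1 := typeA_refl h
  unfold tA
  split_ifs with h2
  · have h3 := charpoly_map' (σ : RF k n →+* RF k n) (zA k n)
    rw [h1, charpoly_comp] at h3
    conv_rhs => rw [h3, Polynomial.coeff_map]
    rfl
  · have h3 := cmom_map (σ : RF k n →+* RF k n) (zA k n) (2 * ((i : ℕ) + 1 - (n + 1) / 2))
    rw [h1, cmom_comp] at h3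
    exact h3.symm

theorem typeA_sign {k : Type u} [Field k] [CharZero k] {n : ℕ} {j : Fin n}
    {σ : RF k n ≃ₐ[k] RF k n} (h : IsSimpleRefl k (CartanMatrix.A n) j σ) :
    σ (dlt (zA k n)) = - dlt (zA k n) := by
  have h1 := typeA_refl h
  have h3 := dlt_map (σ : RF k n →+* RF k n) (zA k n)
  rw [h1, dlt_comp, Equiv.Perm.sign_swap (ne_of_lt (Fin.castSucc_lt_succ (i := j)))] at h3
  have h4 : σ (dlt (zA k n)) = (((-1 : ℤˣ) : ℤ) : RF k n) * dlt (zA k n) := h3.symm
  rw [h4]
  simp

theorem typeA_alg {k : Type u} [Field k] [CharZero k] {n : ℕ} (hn : 1 ≤ n) (i : Fin (n + 1)) :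
    IsAlgebraic (IntermediateField.adjoin k (Set.range (tA k n))) (zA k n i) := by
  set K1 := IntermediateField.adjoin k (Set.range (tA k n)) with hK1
  set P : Polynomial (RF k n) := ∏ i, (Polynomial.X - Polynomial.C (zA k n i)) with hP
  have hlift : P ∈ Polynomial.lifts (algebraMap K1 (RF k n)) := by
    rw [Polynomial.lifts_iff_coeff_lifts]
    intro j
    exact ⟨⟨P.coeff j, typeA_coeff_mem k hn j⟩, rfl⟩
  obtain ⟨Q, hQ⟩ := (Polynomial.mem_lifts P).1 hlift
  have hP0 : P ≠ 0 := (Polynomial.monic_prod_of_monic _ _ fun i _ =>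
    Polynomial.monic_X_sub_C _).ne_zero
  refine ⟨Q, ?_, ?_⟩
  · rintro rfl
    apply hP0
    rw [← hQ, Polynomial.map_zero]
  · rw [Polynomial.aeval_def, Polynomial.eval₂_eq_eval_map, hQ, hP, Polynomial.eval_prod]
    apply Finset.prod_eq_zero (Finset.mem_univ i)
    simp

theorem good_A (k : Type u) [Field k] [CharZero k] {n : ℕ} (hn : 1 ≤ n) :
    Good k (CartanMatrix.A n) := by
  refine good_of (CartanMatrix.A n) (tA k n) (dlt (zA k n)) ⟨0, hn⟩
    (fun i j σ h => typeA_fix i h) ?_ (fun j σ h => typeA_sign h) ?_ ?_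
  · rw [zA_generic.2.2.2]
    simp only [tA]
    rw [if_pos (by omega)]
    rfl
  · intro i
    rw [← zA_sub]
    exact (typeA_alg hn _).sub (typeA_alg hn _)
  · intro τ hτ
    set φ : RF k n →ₐ[k] AlgebraicClosure (RF k n) :=
      IsScalarTower.toAlgHom k (RF k n) (AlgebraicClosure (RF k n)) with hφ
    have hφa : ∀ y, φ y = algebraMap (RF k n) (AlgebraicClosure (RF k n)) y := fun y => rfl
    set K1 := IntermediateField.adjoin k (Set.range (tA k n)) with hK1
    have hfix : ∀ y ∈ K1, τ (φ y) = φ y := by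
      intro y hy
      induction hy using IntermediateField.adjoin_induction with
      | mem x hx =>
        obtain ⟨i, rfl⟩ := hx
        exact hτ i
      | algebraMap x => rw [AlgHom.commutes, τ.commutes]
      | add x y _ _ hx hy => rw [map_add, map_add, hx, hy]
      | inv x _ hx => rw [map_inv₀, map_inv₀, hx]
      | mul x y _ _ hx hy => rw [map_mul, map_mul, hx, hy]
    set τ' : AlgebraicClosure (RF k n) ≃ₐ[K1.map φ] AlgebraicClosure (RF k n) :=
      AlgEquiv.ofRingEquiv (f := (τ : AlgebraicClosure (RF k n) ≃+*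
        AlgebraicClosure (RF k n))) (by
        rintro ⟨x, hx⟩
        rw [IntermediateField.mem_map] at hx
        obtain ⟨y, hy, rfl⟩ := hx
        exact hfix y hy) with hτ'
    have hco : ∀ j, (∏ i, (Polynomial.X - Polynomial.C (φ (zA k n i)))).coeff j ∈ K1.map φ := by
      intro j
      have h1 : (∏ i, (Polynomial.X - Polynomial.C (φ (zA k n i)))) =
          (∏ i, (Polynomial.X - Polynomial.C (zA k n i))).map (φ : RF k n →+* _) := by
        rw [Polynomial.map_prod]
        refine Finset.prod_congr rfl fun i _ => ?_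
        rw [Polynomial.map_sub, Polynomial.map_X, Polynomial.map_C]
        rfl
      rw [h1, Polynomial.coeff_map, IntermediateField.mem_map]
      exact ⟨_, typeA_coeff_mem k hn j, rfl⟩
    obtain ⟨π, hπ⟩ := DiscRat.exists_perm (K1.map φ) (fun i => φ (zA k n i))
      (fun a b hab => zA_injective (φ.toRingHom.injective hab)) hco τ'
    have hπ' : ∀ i, τ (φ (zA k n i)) = φ (zA k n (π i)) := fun i => congrFun hπ i
    obtain ⟨w, hw, hwz⟩ := zA_perm (k := k) π
    refine ⟨w, hw, fun i => ?_⟩
    rw [← hφa, ← hφa, ← zA_sub, map_sub, map_sub, hπ', hπ', map_sub, map_sub, hwz, hwz]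

end CM83
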