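import Pool.Agent.H.MP_83e36b_nt.cm.WBasic
import Pool.Agent.H.DiscRat.VGen

/-! Module TypeA1: the action of the Weyl group of type `A_n` on coordinates with sum zero. -/

namespace CM83

universe u

open NoetherAn

variable (k : Type u) [Field k] [CharZero k] (n : ℕ)

/-- coordinates with sum zero whose differences are the simple roots -/
noncomputable def zA : Fin (n + 1) → RF k n := fun i =>
  (∑ j : Fin n, if (i : ℕ) ≤ j then xv k j else 0) -
    (∑ j : Fin n, ((j : ℕ) + 1 : RF k n) * xv k j) / ((n : RF k n) + 1)

theorem zA_sub (i : Fin n) : zA k n i.castSucc - zA k n i.succ = xv k i := by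
  have h : (∑ j : Fin n, if ((i.castSucc : Fin (n + 1)) : ℕ) ≤ j then xv k j else 0) -
      (∑ j : Fin n, if ((i.succ : Fin (n + 1)) : ℕ) ≤ j then xv k j else 0) = xv k i := by
    rw [← Finset.sum_sub_distrib, Finset.sum_eq_single i]
    · simp
    · intro j _ hj
      have hj' : (j : ℕ) ≠ i := fun h => hj (Fin.ext h)
      simp only [Fin.val_castSucc, Fin.val_succ]
      by_cases h1 : (i : ℕ) ≤ j
      · rw [if_pos h1, if_pos (by omega), sub_self]
      · rw [if_neg h1, if_neg (by omega), sub_self]
    · intro h
      exact absurd (Finset.mem_univ i) h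
  unfold zA
  rw [sub_sub_sub_cancel_right]
  exact h

theorem TypeA1_charZero (m : ℕ) : CharZero (RF k m) :=
  (RingHom.charZero_iff (algebraMap k (RF k m)).injective).1 inferInstance

theorem TypeA1_ne : (n : RF k n) + 1 ≠ 0 := by
  have := TypeA1_charZero k n
  exact_mod_cast Nat.succ_ne_zero n

theorem zA_sum : ∑ i, zA k n i = 0 := by
  have h1 : ∀ j : Fin n, (∑ i : Fin (n + 1), if (i : ℕ) ≤ j then xv k j else 0) =
      ((j : ℕ) + 1 : RF k n) * xv k j := by
    intro j
    rw [Fin.sum_univ_eq_sum_range (fun i => if i ≤ (j : ℕ) then xv k j else 0) (n + 1),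
      ← Finset.sum_filter]
    have : (Finset.range (n + 1)).filter (fun i => i ≤ (j : ℕ)) = Finset.range (j + 1) := by
      ext i
      have := j.2
      simp only [Finset.mem_filter, Finset.mem_range]
      omega
    rw [this, Finset.sum_const, Finset.card_range, nsmul_eq_mul]
    push_cast
    ring
  unfold zA
  rw [Finset.sum_sub_distrib, Finset.sum_comm, Finset.sum_congr rfl (fun j _ => h1 j),
    Finset.sum_const, Finset.card_univ, Fintype.card_fin, nsmul_eq_mul]
  have := TypeA1_ne k n
  push_cast
  field_simp
  ring

variable {k n}

theorem TypeA1_ext {K : Type*} [Field K] [CharZero K] {u v : Fin (n + 1) → K}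
    (h : ∀ i : Fin n, u i.castSucc - u i.succ = v i.castSucc - v i.succ)
    (hs : ∑ i, u i = ∑ i, v i) : u = v := by
  have h1 : ∀ i : Fin (n + 1), u i - v i = u 0 - v 0 := by
    intro i
    induction i using Fin.induction with
    | zero => rfl
    | succ i ih => rw [← ih]; linear_combination (-1 : K) * h i
  have h2 : ∑ i, (u i - v i) = 0 := by rw [Finset.sum_sub_distrib, hs, sub_self]
  rw [Finset.sum_congr rfl (fun i _ => h1 i), Finset.sum_const, Finset.card_univ,
    Fintype.card_fin, nsmul_eq_mul] at h2
  have h3 : u 0 - v 0 = 0 := by
    rcases mul_eq_zero.1 h2 with h | h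
    · exact absurd h (by exact_mod_cast Nat.succ_ne_zero n)
    · exact h
  funext i
  have := h1 i
  rw [h3] at this
  exact sub_eq_zero.1 this

theorem zA_refl {j : Fin n} {σ : RF k n ≃ₐ[k] RF k n}
    (h : IsSimpleRefl k (CartanMatrix.A n) j σ) (i : Fin (n + 1)) :
    σ (zA k n i) = zA k n (Equiv.swap j.castSucc j.succ i) := by
  have := TypeA1_charZero k n
  have key : (fun i => σ (zA k n i)) = fun i => zA k n (Equiv.swap j.castSucc j.succ i) := by
    apply TypeA1_ext
    · intro i
      show σ (zA k n i.castSucc) - σ (zA k n i.succ) = _
      rw [← map_sub, zA_sub, h i]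
      have hij := zA_sub k n i
      have hjj := zA_sub k n j
      by_cases h1 : i = j
      · subst h1
        simp only [Equiv.swap_apply_left, Equiv.swap_apply_right]
        have : CartanMatrix.A n i i = 2 := by simp [CartanMatrix.A]
        rw [this]
        push_cast
        linear_combination (2 : RF k n) * hij - hij
      · by_cases h2 : (i : ℕ) + 1 = j
        · have e1 : i.succ = j.castSucc := Fin.ext (by simpa using h2)
          have e2 : Equiv.swap j.castSucc j.succ i.castSucc = i.castSucc := by
            apply Equiv.swap_apply_of_ne_of_ne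
            · intro h3
              have := congrArg Fin.val h3
              simp at this
              omega
            · intro h3
              have := congrArg Fin.val h3
              simp at this
              omega
          have e3 : CartanMatrix.A n i j = -1 := by
            simp [CartanMatrix.A, h1, h2]
          show _ = zA k n (Equiv.swap j.castSucc j.succ i.castSucc) -
            zA k n (Equiv.swap j.castSucc j.succ i.succ)
          rw [e2, e1, Equiv.swap_apply_left, e3]
          rw [e1] at hij
          push_cast
          linear_combination (-1 : RF k n) * hij - hjj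
        · by_cases h3 : (j : ℕ) + 1 = i
          · have e1 : i.castSucc = j.succ := Fin.ext (by simpa using h3.symm)
            have e2 : Equiv.swap j.castSucc j.succ i.succ = i.succ := by
              apply Equiv.swap_apply_of_ne_of_ne
              · intro h3
                have := congrArg Fin.val h3
                simp at this
                omega
              · intro h3
                have := congrArg Fin.val h3
                simp at this
                omega
            have e3 : CartanMatrix.A n i j = -1 := by
              simp [CartanMatrix.A, h1, h3]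
            show _ = zA k n (Equiv.swap j.castSucc j.succ i.castSucc) -
              zA k n (Equiv.swap j.castSucc j.succ i.succ)
            rw [e2, e1, Equiv.swap_apply_right, e3]
            rw [e1] at hij
            push_cast
            linear_combination (-1 : RF k n) * hij - hjj
          · have e1 : Equiv.swap j.castSucc j.succ i.succ = i.succ := by
              apply Equiv.swap_apply_of_ne_of_ne
              · intro h4
                have := congrArg Fin.val h4
                simp at this
                omega
              · intro h4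
                have := congrArg Fin.val h4
                simp at this
                exact h1 (Fin.ext this)
            have e2 : Equiv.swap j.castSucc j.succ i.castSucc = i.castSucc := by
              apply Equiv.swap_apply_of_ne_of_ne
              · intro h4
                have := congrArg Fin.val h4
                simp at this
                exact h1 (Fin.ext this)
              · intro h4
                have := congrArg Fin.val h4
                simp at this
                omega
            have e3 : CartanMatrix.A n i j = 0 := by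
              simp [CartanMatrix.A, h1, h2, h3]
            show _ = zA k n (Equiv.swap j.castSucc j.succ i.castSucc) -
              zA k n (Equiv.swap j.castSucc j.succ i.succ)
            rw [e2, e1, e3, hij]
            simp
    · show ∑ i, σ (zA k n i) = ∑ i, zA k n (Equiv.swap j.castSucc j.succ i)
      rw [Equiv.sum_comp (Equiv.swap j.castSucc j.succ) (zA k n), zA_sum, ← map_sum, zA_sum,
        map_zero]
  exact congrFun key i

theorem zA_perm (π : Equiv.Perm (Fin (n + 1))) :
    ∃ w ∈ weylGroup k (CartanMatrix.A n), ∀ i, w (zA k n i) = zA k n (π i) := by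
  have hmem : π ∈ Submonoid.closure
      (Set.range fun i : Fin n => Equiv.swap i.castSucc i.succ) := by
    rw [Equiv.Perm.mclosure_swap_castSucc_succ]
    trivial
  induction hmem using Submonoid.closure_induction with
  | mem x hx =>
    obtain ⟨j, rfl⟩ := hx
    obtain ⟨σ, hσ⟩ := exists_simpleRefl (k := k) (CartanMatrix.A n) j (by simp [CartanMatrix.A])
    exact ⟨σ, Subgroup.subset_closure ⟨j, hσ⟩, fun i => zA_refl hσ i⟩
  | one => exact ⟨1, one_mem _, fun i => rfl⟩
  | mul x y _ _ hx hy =>
    obtain ⟨w, hw, h1⟩ := hx
    obtain ⟨w', hw', h2⟩ := hy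
    refine ⟨w * w', mul_mem hw hw', fun i => ?_⟩
    rw [AlgEquiv.mul_apply, h2, h1, Equiv.Perm.mul_apply]

theorem TypeA1_lt {i l : Fin (n + 1)} (hil : i < l) : zA k n i ≠ zA k n l := by
  intro h
  have hli := (xv_algInd (k := k) (n := n)).linearIndependent
  rw [Fintype.linearIndependent_iff] at hli
  have hin : (i : ℕ) < n := by
    have := l.2
    have h2 : (i : ℕ) < l := hil
    omega
  have h1 := hli (fun j => (if (i : ℕ) ≤ j then 1 else 0) - (if (l : ℕ) ≤ j then 1 else 0)) (by
    have h2 : (∑ j : Fin n, if (i : ℕ) ≤ j then xv k j else 0) =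
        (∑ j : Fin n, if (l : ℕ) ≤ j then xv k j else 0) := by
      unfold zA at h
      exact sub_left_injective h
    rw [← sub_eq_zero, ← Finset.sum_sub_distrib] at h2
    rw [← h2]
    refine Finset.sum_congr rfl fun j _ => ?_
    split_ifs <;> simp) ⟨i, hin⟩
  have h3 : ¬ ((l : ℕ) ≤ i) := by
    have h2 : (i : ℕ) < l := hil
    omega
  simp [h3] at h1

theorem zA_injective : Function.Injective (zA k n) := by
  intro i l h
  rcases lt_trichotomy i l with h1 | h1 | h1
  · exact absurd h (TypeA1_lt h1)
  · exact h1
  · exact absurd h.symm (TypeA1_lt h1)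

theorem TypeA1_cm {K : Type*} [Field K] {m : ℕ} {x y : Fin m → K} (h : cm x = cm y) :
    kry x = kry y ∧ hnk x = hnk y ∧ dlt x = dlt y := by
  have h1 : kry x = kry y := by unfold kry; rw [h]
  have h2 : hnk x = hnk y := by unfold hnk mom; rw [h]
  exact ⟨h1, h2, by unfold dlt; rw [h1, h2]⟩

theorem TypeA1_hom : ∃ φ : RF k n →+* RF k (n + 1), ∀ i : Fin n,
    φ (xv k i) = xv k i.castSucc - xv k i.succ := by
  have ha : AlgebraicIndependent k (xv k : Fin (n + 1) → RF k (n + 1)) := xv_algInd
  let y : Fin (n + 1) → RF k (n + 1) :=
    Fin.lastCases (xv k (Fin.last n)) (fun i => xv k i.castSucc - xv k i.succ)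
  have hmem : ∀ i : Fin (n + 1), xv k i ∈ IntermediateField.adjoin k (Set.range y) := by
    intro i
    induction i using Fin.reverseInduction with
    | last =>
      have : y (Fin.last n) ∈ IntermediateField.adjoin k (Set.range y) :=
        IntermediateField.subset_adjoin _ _ ⟨_, rfl⟩
      simpa [y] using this
    | cast i ih =>
      have h1 : y i.castSucc ∈ IntermediateField.adjoin k (Set.range y) :=
        IntermediateField.subset_adjoin _ _ ⟨_, rfl⟩
      have h2 : y i.castSucc = xv k i.castSucc - xv k i.succ := by simp [y]
      have h3 : xv k i.castSucc = y i.castSucc + xv k i.succ := by rw [h2]; ring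
      rw [h3]
      exact add_mem h1 ih
  have hy : AlgebraicIndependent k y := by
    apply DiscRat.algInd_of ha
    intro i
    exact isAlgebraic_algebraMap (⟨xv k i, hmem i⟩ :
      IntermediateField.adjoin k (Set.range y))
  have hy2 : AlgebraicIndependent k (fun i : Fin n => y i.castSucc) :=
    hy.comp Fin.castSucc (Fin.castSucc_injective n)
  have hinj : Function.Injective
      ((MvPolynomial.aeval (fun i : Fin n => y i.castSucc) :
        MvPolynomial (Fin n) k →ₐ[k] RF k (n + 1)) : MvPolynomial (Fin n) k →+* RF k (n + 1)) :=
    hy2
  refine ⟨IsFractionRing.lift hinj, fun i => ?_⟩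
  unfold xv
  rw [IsFractionRing.lift_algebraMap]
  show MvPolynomial.aeval (fun i : Fin n => y i.castSucc) (MvPolynomial.X i) = _
  rw [MvPolynomial.aeval_X]
  simp [y, xv]

/-- genericity: only the differences matter -/
theorem zA_generic : (kry (zA k n)).det ≠ 0 ∧ hnk (zA k n) ≠ 0 ∧ dlt (zA k n) ≠ 0 ∧
    dlt (zA k n) ^ 2 = (cm (zA k n)).charpoly.coeff ((n + 1) % 2) := by
  obtain ⟨φ, hφ⟩ := TypeA1_hom (k := k) (n := n)
  have hc := TypeA1_charZero k (n + 1)
  have hinj : Function.Injective φ := φ.injective
  obtain ⟨-, g1, g2, g3, g4⟩ := DiscRat.kry_ne_zero_of_algInd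
    (xv_algInd (k := k) (n := n + 1))
  have hn : ((n : RF k (n + 1)) + 1) ≠ 0 := by exact_mod_cast Nat.succ_ne_zero n
  have hz : (fun i => φ (zA k n i)) = fun i => (xv k i : RF k (n + 1)) -
      (∑ l : Fin (n + 1), xv k l) / ((n : RF k (n + 1)) + 1) := by
    apply TypeA1_ext
    · intro i
      show φ (zA k n i.castSucc) - φ (zA k n i.succ) = _
      rw [← map_sub, zA_sub, hφ]
      ring
    · show ∑ i, φ (zA k n i) = _
      rw [← map_sum, zA_sum, map_zero, Finset.sum_sub_distrib, Finset.sum_const,
        Finset.card_univ, Fintype.card_fin, nsmul_eq_mul]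
      push_cast
      field_simp
      ring
  have hcm : cm (φ ∘ zA k n) = cm (xv k : Fin (n + 1) → RF k (n + 1)) := by
    ext i j
    have e : ∀ i, (φ ∘ zA k n) i = (xv k i : RF k (n + 1)) -
      (∑ l : Fin (n + 1), xv k l) / ((n : RF k (n + 1)) + 1) := fun i => congrFun hz i
    unfold cm
    rw [Matrix.of_apply, Matrix.of_apply, e i, e j]
    congr 1
    ring
  obtain ⟨h1, h2, h3⟩ := TypeA1_cm hcm
  refine ⟨?_, ?_, ?_, ?_⟩
  · intro h0
    apply g1
    rw [← h1, kry_map]
    have := (RingHom.map_det φ (kry (zA k n))).symm
    rw [h0, map_zero] at this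
    exact this
  · intro h0
    apply g2
    rw [← h2, hnk_map, h0, map_zero]
  · intro h0
    apply g3
    rw [← h3, dlt_map, h0, map_zero]
  · apply hinj
    rw [map_pow, ← dlt_map, h3, g4, ← hcm, charpoly_map', Polynomial.coeff_map]

end CM83
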