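import Mathlib

/-! Module WDefs: the action of the Weyl group of a Cartan matrix on the field of rational
functions in the simple roots. -/

namespace CM83

universe u

/-- the field `k(x_1, ..., x_n)` of rational functions in `n` variables -/
abbrev RF (k : Type u) [Field k] (n : ℕ) : Type u := FractionRing (MvPolynomial (Fin n) k)

section

variable (k : Type u) [Field k] {n : ℕ}

/-- the variables -/
noncomputable def xv (i : Fin n) : RF k n :=
  algebraMap (MvPolynomial (Fin n) k) (RF k n) (MvPolynomial.X i)

/-- `σ` acts on the variables as the `j`-th simple reflection acts on the simple roots: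
`x_i ↦ x_i - A_{ij} x_j` -/
def IsSimpleRefl (A : Matrix (Fin n) (Fin n) ℤ) (j : Fin n) (σ : RF k n ≃ₐ[k] RF k n) : Prop :=
  ∀ i, σ (xv k i) = xv k i - (A i j : RF k n) * xv k j

/-- the Weyl group: the group generated by the simple reflections -/
noncomputable def weylGroup (A : Matrix (Fin n) (Fin n) ℤ) : Subgroup (RF k n ≃ₐ[k] RF k n) :=
  Subgroup.closure {σ | ∃ j, IsSimpleRefl k A j σ}

/-- the rotation subgroup: the group generated by the products of two simple reflections -/
noncomputable def rotGroup (A : Matrix (Fin n) (Fin n) ℤ) : Subgroup (RF k n ≃ₐ[k] RF k n) :=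
  Subgroup.closure {τ | ∃ i j σ σ', IsSimpleRefl k A i σ ∧ IsSimpleRefl k A j σ' ∧ τ = σ * σ'}

/-- The invariants of the Weyl group are purely transcendental, with generators `t` one of which
is the square of an element `d` which changes its sign under all simple reflections. -/
def Good (A : Matrix (Fin n) (Fin n) ℤ) : Prop :=
  ∃ (t : Fin n → RF k n) (d : RF k n) (i0 : Fin n), AlgebraicIndependent k t ∧
    IntermediateField.adjoin k (Set.range t) = IntermediateField.fixedField (weylGroup k A) ∧
    d ^ 2 = t i0 ∧ ∀ j σ, IsSimpleRefl k A j σ → σ d = - d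

end

end CM83
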