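import Pool.Agent.H.MP_83e36b_nt.cm.XDefs

/-! Module XA: the Weyl group as a group of matrices and as a group of automorphisms. -/

namespace CM83

universe u

variable {k : Type u} [Field k] {n : ℕ}

/-- the automorphism `w` acts on the variables through the matrix `M` -/
def XA_acts (w : RF k n ≃ₐ[k] RF k n) (M : Matrix (Fin n) (Fin n) ℤ) : Prop :=
  ∀ i, w (xv k i) = ∑ l, (M i l : RF k n) * xv k l

theorem XA_one : XA_acts (1 : RF k n ≃ₐ[k] RF k n) 1 := by
  intro i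
  rw [AlgEquiv.one_apply, Finset.sum_eq_single i]
  · rw [Matrix.one_apply_eq, Int.cast_one, one_mul]
  · intro l _ hl
    rw [Matrix.one_apply_ne (Ne.symm hl), Int.cast_zero, zero_mul]
  · intro h
    exact absurd (Finset.mem_univ i) h

theorem XA_mul {w w' : RF k n ≃ₐ[k] RF k n} {M M' : Matrix (Fin n) (Fin n) ℤ}
    (h : XA_acts w M) (h' : XA_acts w' M') : XA_acts (w' * w) (M * M') := by
  intro i
  rw [AlgEquiv.mul_apply, h i, map_sum]
  have h1 : ∀ l, w' ((M i l : RF k n) * xv k l)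
      = ∑ m, ((M i l * M' l m : ℤ) : RF k n) * xv k m := by
    intro l
    rw [map_mul, map_intCast, h' l, Finset.mul_sum]
    refine Finset.sum_congr rfl fun m _ => ?_
    push_cast
    ring
  rw [Finset.sum_congr rfl fun l _ => h1 l, Finset.sum_comm]
  refine Finset.sum_congr rfl fun m _ => ?_
  rw [Matrix.mul_apply, Int.cast_sum, Finset.sum_mul]

theorem XA_refl {A : Matrix (Fin n) (Fin n) ℤ} {l : Fin n} {σ : RF k n ≃ₐ[k] RF k n}
    (h : IsSimpleRefl k A l σ) : XA_acts σ (reflMat A l) := by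
  intro i
  rw [h i]
  have h1 : ∀ m, ((reflMat A l i m : ℤ) : RF k n) * xv k m
      = (if i = m then xv k m else 0) - (if m = l then (A i l : RF k n) * xv k m else 0) := by
    intro m
    unfold reflMat
    rw [Matrix.of_apply]
    split_ifs <;> push_cast <;> ring
  rw [Finset.sum_congr rfl fun m _ => h1 m, Finset.sum_sub_distrib, Finset.sum_ite_eq,
    Finset.sum_ite_eq']
  simp

theorem weylMat_exists {A : Matrix (Fin n) (Fin n) ℤ} (hA : ∀ j, A j j = 2)
    {M : Matrix (Fin n) (Fin n) ℤ} (hM : M ∈ weylMat A) :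
    ∃ w ∈ weylGroup k A, ∀ i, w (xv k i) = ∑ l, (M i l : RF k n) * xv k l := by
  unfold weylMat at hM
  induction hM using Submonoid.closure_induction with
  | mem M hM =>
    obtain ⟨l, rfl⟩ := hM
    obtain ⟨σ, hσ⟩ := exists_simpleRefl (k := k) A l (hA l)
    exact ⟨σ, Subgroup.subset_closure ⟨l, hσ⟩, XA_refl hσ⟩
  | one => exact ⟨1, one_mem _, XA_one⟩
  | mul M M' _ _ h h' =>
    obtain ⟨w, hw, h1⟩ := h
    obtain ⟨w', hw', h1'⟩ := h'
    exact ⟨w' * w, mul_mem hw' hw, XA_mul h1 h1'⟩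

theorem rotMat_exists {A : Matrix (Fin n) (Fin n) ℤ} (hA : ∀ j, A j j = 2)
    {M : Matrix (Fin n) (Fin n) ℤ} (hM : M ∈ rotMat A) :
    ∃ w ∈ rotGroup k A, ∀ i, w (xv k i) = ∑ l, (M i l : RF k n) * xv k l := by
  unfold rotMat at hM
  induction hM using Submonoid.closure_induction with
  | mem M hM =>
    obtain ⟨i, j, rfl⟩ := hM
    obtain ⟨σ, hσ⟩ := exists_simpleRefl (k := k) A i (hA i)
    obtain ⟨σ', hσ'⟩ := exists_simpleRefl (k := k) A j (hA j)
    exact ⟨σ' * σ, Subgroup.subset_closure ⟨j, i, σ', σ, hσ', hσ, rfl⟩,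
      XA_mul (XA_refl hσ) (XA_refl hσ')⟩
  | one => exact ⟨1, one_mem _, XA_one⟩
  | mul M M' _ _ h h' =>
    obtain ⟨w, hw, h1⟩ := h
    obtain ⟨w', hw', h1'⟩ := h'
    exact ⟨w' * w, mul_mem hw' hw, XA_mul h1 h1'⟩

theorem XA_inv {A : Matrix (Fin n) (Fin n) ℤ} (hA : ∀ j, A j j = 2) {j : Fin n}
    {σ : RF k n ≃ₐ[k] RF k n} (h : IsSimpleRefl k A j σ) : σ⁻¹ = σ :=
  inv_eq_of_mul_eq_one_left (h.sq (hA j))

theorem rotMat_of_rot {A : Matrix (Fin n) (Fin n) ℤ} (hA : ∀ j, A j j = 2)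
    {w : RF k n ≃ₐ[k] RF k n} (hw : w ∈ rotGroup k A) :
    ∃ M ∈ rotMat A, ∀ i, w (xv k i) = ∑ l, (M i l : RF k n) * xv k l := by
  have key : (∃ M ∈ rotMat A, XA_acts w M) ∧ (∃ M ∈ rotMat A, XA_acts w⁻¹ M) := by
    unfold rotGroup at hw
    induction hw using Subgroup.closure_induction with
    | mem w hw =>
      obtain ⟨i, j, σ, σ', hσ, hσ', rfl⟩ := hw
      refine ⟨⟨reflMat A j * reflMat A i, Submonoid.subset_closure ⟨j, i, rfl⟩,
        XA_mul (XA_refl hσ') (XA_refl hσ)⟩, ⟨reflMat A i * reflMat A j,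
        Submonoid.subset_closure ⟨i, j, rfl⟩, ?_⟩⟩
      rw [mul_inv_rev, XA_inv hA hσ, XA_inv hA hσ']
      exact XA_mul (XA_refl hσ) (XA_refl hσ')
    | one =>
      refine ⟨⟨1, one_mem _, XA_one⟩, ⟨1, one_mem _, ?_⟩⟩
      rw [inv_one]
      exact XA_one
    | mul x y _ _ hx hy =>
      obtain ⟨⟨M, hM, h1⟩, ⟨N, hN, h2⟩⟩ := hx
      obtain ⟨⟨M', hM', h1'⟩, ⟨N', hN', h2'⟩⟩ := hy
      refine ⟨⟨M' * M, mul_mem hM' hM, XA_mul h1' h1⟩, ⟨N * N', mul_mem hN hN', ?_⟩⟩
      rw [mul_inv_rev]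
      exact XA_mul h2 h2'
    | inv x _ hx =>
      refine ⟨hx.2, ?_⟩
      rw [inv_inv]
      exact hx.1
  exact key.1

theorem rot_sign {A : Matrix (Fin n) (Fin n) ℤ}
    {d : RF k n} (hd : ∀ j σ, IsSimpleRefl k A j σ → σ d = - d)
    {w : RF k n ≃ₐ[k] RF k n} (hw : w ∈ rotGroup k A) : w d = d := by
  unfold rotGroup at hw
  induction hw using Subgroup.closure_induction with
  | mem w hw =>
    obtain ⟨i, j, σ, σ', hσ, hσ', rfl⟩ := hw
    rw [AlgEquiv.mul_apply, hd j σ' hσ', map_neg, hd i σ hσ, neg_neg]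
  | one => rfl
  | mul x y _ _ h1 h2 => rw [AlgEquiv.mul_apply, h2, h1]
  | inv x _ h1 =>
    have h3 : x⁻¹ (x d) = d := by
      rw [← AlgEquiv.mul_apply, inv_mul_cancel, AlgEquiv.one_apply]
    rwa [h1] at h3

theorem weyl_sign {A : Matrix (Fin n) (Fin n) ℤ}
    {d : RF k n} (hd : ∀ j σ, IsSimpleRefl k A j σ → σ d = - d)
    {w : RF k n ≃ₐ[k] RF k n} (hw : w ∈ weylGroup k A) : w d = d ∨ w d = - d := by
  unfold weylGroup at hw
  induction hw using Subgroup.closure_induction with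
  | mem w hw =>
    obtain ⟨j, hσ⟩ := hw
    exact Or.inr (hd j w hσ)
  | one => exact Or.inl rfl
  | mul x y _ _ h1 h2 =>
    rw [AlgEquiv.mul_apply]
    rcases h1 with h1 | h1 <;> rcases h2 with h2 | h2 <;> rw [h2]
    · exact Or.inl h1
    · rw [map_neg, h1]
      exact Or.inr rfl
    · exact Or.inr h1
    · rw [map_neg, h1, neg_neg]
      exact Or.inl rfl
  | inv x _ h1 =>
    have h3 : x⁻¹ (x d) = d := by
      rw [← AlgEquiv.mul_apply, inv_mul_cancel, AlgEquiv.one_apply]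
    rcases h1 with h1 | h1
    · rw [h1] at h3
      exact Or.inl h3
    · rw [h1, map_neg] at h3
      exact Or.inr (by rw [← h3, neg_neg, h3])

theorem XA_conj {A : Matrix (Fin n) (Fin n) ℤ} (hA : ∀ j, A j j = 2) {j : Fin n}
    {σ : RF k n ≃ₐ[k] RF k n} (hσ : IsSimpleRefl k A j σ)
    {w : RF k n ≃ₐ[k] RF k n} (hw : w ∈ rotGroup k A) : σ * w * σ ∈ rotGroup k A := by
  have hs : σ * σ = 1 := hσ.sq (hA j)
  unfold rotGroup at hw
  induction hw using Subgroup.closure_induction with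
  | mem w hw =>
    obtain ⟨i, l, τ, τ', hτ, hτ', rfl⟩ := hw
    have h1 : σ * (τ * τ') * σ = (σ * τ) * (τ' * σ) := by group
    rw [h1]
    exact mul_mem (Subgroup.subset_closure ⟨j, i, σ, τ, hσ, hτ, rfl⟩)
      (Subgroup.subset_closure ⟨l, j, τ', σ, hτ', hσ, rfl⟩)
  | one =>
    rw [mul_one, hs]
    exact one_mem _
  | mul x y _ _ h1 h2 =>
    have h3 : σ * (x * y) * σ = (σ * x * σ) * (σ * y * σ) := by
      calc σ * (x * y) * σ = σ * x * 1 * y * σ := by group
        _ = σ * x * (σ * σ) * y * σ := by rw [hs]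
        _ = (σ * x * σ) * (σ * y * σ) := by group
    rw [h3]
    exact mul_mem h1 h2
  | inv x _ h1 =>
    have h3 : σ * x⁻¹ * σ = (σ * x * σ)⁻¹ := by
      rw [mul_inv_rev, mul_inv_rev, XA_inv hA hσ, mul_assoc]
    rw [h3]
    exact inv_mem h1

theorem mem_rot_of_sign [CharZero k] {A : Matrix (Fin n) (Fin n) ℤ} (hA : ∀ j, A j j = 2)
    {d : RF k n} (hd0 : d ≠ 0) (hd : ∀ j σ, IsSimpleRefl k A j σ → σ d = - d)
    {w : RF k n ≃ₐ[k] RF k n} (hw : w ∈ weylGroup k A) (hwd : w d = d) :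
    w ∈ rotGroup k A := by
  have key : w ∈ rotGroup k A ∨ ∃ j σ, IsSimpleRefl k A j σ ∧ w * σ ∈ rotGroup k A := by
    clear hwd
    unfold weylGroup at hw
    induction hw using Subgroup.closure_induction with
    | mem w hw =>
      obtain ⟨j, hσ⟩ := hw
      exact Or.inr ⟨j, w, hσ, Subgroup.subset_closure ⟨j, j, w, w, hσ, hσ, rfl⟩⟩
    | one => exact Or.inl (one_mem _)
    | mul x y _ _ h1 h2 =>
      rcases h1 with h1 | ⟨j, σ, hσ, h1⟩ <;> rcases h2 with h2 | ⟨j', σ', hσ', h2⟩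
      · exact Or.inl (mul_mem h1 h2)
      · refine Or.inr ⟨j', σ', hσ', ?_⟩
        rw [mul_assoc]
        exact mul_mem h1 h2
      · refine Or.inr ⟨j, σ, hσ, ?_⟩
        have hs : σ * σ = 1 := hσ.sq (hA j)
        have h3 : x * y * σ = (x * σ) * (σ * y * σ) := by
          calc x * y * σ = x * 1 * y * σ := by group
            _ = x * (σ * σ) * y * σ := by rw [hs]
            _ = (x * σ) * (σ * y * σ) := by group
        rw [h3]
        exact mul_mem h1 (XA_conj hA hσ h2)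
      · refine Or.inl ?_
        have hs : σ * σ = 1 := hσ.sq (hA j)
        have hs' : σ' * σ' = 1 := hσ'.sq (hA j')
        have h3 : x * y = (x * σ) * (σ * (y * σ') * σ) * (σ * σ') := by
          calc x * y = x * 1 * y * 1 := by group
            _ = x * (σ * σ) * y * (σ' * σ') := by rw [hs, hs']
            _ = x * (σ * σ) * y * σ' * 1 * σ' := by group
            _ = x * (σ * σ) * y * σ' * (σ * σ) * σ' := by rw [hs]
            _ = (x * σ) * (σ * (y * σ') * σ) * (σ * σ') := by group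
        rw [h3]
        exact mul_mem (mul_mem h1 (XA_conj hA hσ h2))
          (Subgroup.subset_closure ⟨j, j', σ, σ', hσ, hσ', rfl⟩)
    | inv x _ h1 =>
      rcases h1 with h1 | ⟨j, σ, hσ, h1⟩
      · exact Or.inl (inv_mem h1)
      · refine Or.inr ⟨j, σ, hσ, ?_⟩
        have hs : σ * σ = 1 := hσ.sq (hA j)
        have h2 := XA_conj hA hσ (inv_mem h1)
        have h3 : σ * (x * σ)⁻¹ * σ = x⁻¹ * σ := by
          rw [mul_inv_rev, XA_inv hA hσ, ← mul_assoc, hs, one_mul]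
        rwa [h3] at h2
  rcases key with h | ⟨j, σ, hσ, h⟩
  · exact h
  · exfalso
    have h1 := rot_sign hd h
    rw [AlgEquiv.mul_apply, hd j σ hσ, map_neg, hwd] at h1
    have : CharZero (RF k n) :=
      charZero_of_injective_algebraMap (algebraMap k (RF k n)).injective
    exact hd0 (self_eq_neg.1 h1.symm)

end CM83
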