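import Pool.Agent.H.MP_83e36b_nt.cm.XDefs

/-! Module XB: the embeddings of `P(x_1, ..., x_n)` on the blocks of variables. -/

namespace CM83

universe u v

variable {P : Type*} [Field P] {L : Type u} [Field L] [Algebra P L] {ι : Type v} {n : ℕ}

theorem rfl_hom_ext {Ω : Type*} [Field Ω] {f g : RFL L ι n →+* Ω}
    (h1 : ∀ a : L, f (algebraMap L (RFL L ι n) a) = g (algebraMap L (RFL L ι n) a))
    (h2 : ∀ j i, f (xl L j i) = g (xl L j i)) : f = g := by
  have h3 : f.comp (algebraMap (MvPolynomial (ι × Fin n) L) (RFL L ι n)) =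
      g.comp (algebraMap (MvPolynomial (ι × Fin n) L) (RFL L ι n)) := by
    apply MvPolynomial.ringHom_ext
    · intro a
      have h4 := h1 a
      rw [IsScalarTower.algebraMap_apply L (MvPolynomial (ι × Fin n) L) (RFL L ι n)] at h4
      exact h4
    · intro p
      exact h2 p.1 p.2
  have h4 : ∀ a : MvPolynomial (ι × Fin n) L,
      f (algebraMap (MvPolynomial (ι × Fin n) L) (RFL L ι n) a)
      = g (algebraMap (MvPolynomial (ι × Fin n) L) (RFL L ι n) a) := fun a =>
    DFunLike.congr_fun h3 a
  refine RingHom.ext fun x => ?_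
  obtain ⟨a, b, _, rfl⟩ := IsFractionRing.div_surjective (MvPolynomial (ι × Fin n) L) x
  rw [map_div₀, map_div₀, h4, h4]

theorem xl_algInd : AlgebraicIndependent L (fun p : ι × Fin n => xl L p.1 p.2) := by
  have h := (MvPolynomial.algebraicIndependent_X (ι × Fin n) L).map'
    (f := IsScalarTower.toAlgHom L (MvPolynomial (ι × Fin n) L) (RFL L ι n))
    (IsFractionRing.injective _ _)
  exact h

theorem adjoin_xl : IntermediateField.adjoin L (Set.range fun p : ι × Fin n => xl L p.1 p.2) =
    ⊤ := by
  rw [eq_top_iff]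
  intro f _
  have key : ∀ a : MvPolynomial (ι × Fin n) L,
      algebraMap (MvPolynomial (ι × Fin n) L) (RFL L ι n) a ∈
      IntermediateField.adjoin L (Set.range fun p : ι × Fin n => xl L p.1 p.2) := by
    intro a
    induction a using MvPolynomial.induction_on with
    | C c =>
      have h : algebraMap (MvPolynomial (ι × Fin n) L) (RFL L ι n) (MvPolynomial.C c)
          = algebraMap L (RFL L ι n) c := by
        rw [IsScalarTower.algebraMap_apply L (MvPolynomial (ι × Fin n) L) (RFL L ι n)]
        rfl
      rw [h]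
      exact IntermediateField.algebraMap_mem _ _
    | add p q hp hq =>
      rw [map_add]
      exact add_mem hp hq
    | mul_X p i hp =>
      rw [map_mul]
      exact mul_mem hp (IntermediateField.subset_adjoin L _ ⟨i, rfl⟩)
  obtain ⟨a, b, _, rfl⟩ := IsFractionRing.div_surjective (MvPolynomial (ι × Fin n) L) f
  exact div_mem (key a) (key b)

theorem exists_block (j : ι) :
    ∃ e : RF P n →ₐ[P] RFL L ι n, ∀ i, e (xv P i) = xl L j i := by
  set φ : MvPolynomial (Fin n) P →ₐ[P] MvPolynomial (ι × Fin n) L :=
    MvPolynomial.aeval (fun i => MvPolynomial.X (j, i)) with hφ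
  have hφ2 : ∀ p, φ p = MvPolynomial.map (algebraMap P L)
      (MvPolynomial.rename (fun i => (j, i)) p) := by
    intro p
    induction p using MvPolynomial.induction_on with
    | C c =>
      rw [MvPolynomial.rename_C, MvPolynomial.map_C, hφ, MvPolynomial.aeval_C]
      rfl
    | add p q hp hq => rw [map_add, map_add, map_add, hp, hq]
    | mul_X p i hp =>
      rw [map_mul, map_mul, map_mul, hp, MvPolynomial.rename_X, MvPolynomial.map_X, hφ,
        MvPolynomial.aeval_X]
  have hφi : Function.Injective φ := by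
    intro p q hpq
    rw [hφ2, hφ2] at hpq
    have h1 := MvPolynomial.map_injective (algebraMap P L) (algebraMap P L).injective hpq
    exact MvPolynomial.rename_injective _ (fun a b hab => (Prod.mk.inj hab).2) h1
  have hinj : Function.Injective
      ((IsScalarTower.toAlgHom P (MvPolynomial (ι × Fin n) L) (RFL L ι n)).comp φ) :=
    (IsFractionRing.injective (MvPolynomial (ι × Fin n) L) (RFL L ι n)).comp hφi
  refine ⟨IsFractionRing.liftAlgHom (K := RF P n) hinj, fun i => ?_⟩
  unfold xv
  rw [IsFractionRing.liftAlgHom_apply, IsFractionRing.lift_algebraMap]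
  change algebraMap (MvPolynomial (ι × Fin n) L) (RFL L ι n) (φ (MvPolynomial.X i)) = _
  rw [hφ, MvPolynomial.aeval_X]
  rfl

/-- ring homomorphisms out of `P(x_1, ..., x_n)` -/
theorem xb_ext {Ω : Type*} [Field Ω] {f g : RF P n →+* Ω}
    (h1 : ∀ a : P, f (algebraMap P (RF P n) a) = g (algebraMap P (RF P n) a))
    (h2 : ∀ i, f (xv P i) = g (xv P i)) : f = g := by
  have h3 : f.comp (algebraMap (MvPolynomial (Fin n) P) (RF P n)) =
      g.comp (algebraMap (MvPolynomial (Fin n) P) (RF P n)) := by
    apply MvPolynomial.ringHom_ext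
    · intro a
      have h4 := h1 a
      rw [IsScalarTower.algebraMap_apply P (MvPolynomial (Fin n) P) (RF P n)] at h4
      exact h4
    · intro p
      exact h2 p
  have h4 : ∀ a : MvPolynomial (Fin n) P,
      f (algebraMap (MvPolynomial (Fin n) P) (RF P n) a)
      = g (algebraMap (MvPolynomial (Fin n) P) (RF P n) a) := fun a =>
    DFunLike.congr_fun h3 a
  refine RingHom.ext fun x => ?_
  obtain ⟨a, b, _, rfl⟩ := IsFractionRing.div_surjective (MvPolynomial (Fin n) P) x
  rw [map_div₀, map_div₀, h4, h4]

theorem block_act {j j' : ι} {e e' : RF P n →ₐ[P] RFL L ι n}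
    (he : ∀ i, e (xv P i) = xl L j i) (he' : ∀ i, e' (xv P i) = xl L j' i)
    (g : RFL L ι n →+* RFL L ι n)
    (hgP : ∀ a : P, g (algebraMap L (RFL L ι n) (algebraMap P L a)) =
      algebraMap L (RFL L ι n) (algebraMap P L a))
    {w : RF P n ≃ₐ[P] RF P n} {M : Matrix (Fin n) (Fin n) ℤ}
    (hw : ∀ i, w (xv P i) = ∑ l, (M i l : RF P n) * xv P l)
    (hg : ∀ i, g (xl L j i) = ∑ l, (M i l : RFL L ι n) * xl L j' l) (f : RF P n) :
    g (e f) = e' (w f) := by
  have htow : ∀ a : P, algebraMap P (RFL L ι n) a = algebraMap L (RFL L ι n) (algebraMap P L a) :=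
    fun a => IsScalarTower.algebraMap_apply P L (RFL L ι n) a
  have h : g.comp (e : RF P n →+* RFL L ι n) =
      (e' : RF P n →+* RFL L ι n).comp (w : RF P n →+* RF P n) := by
    apply xb_ext
    · intro a
      change g (e (algebraMap P (RF P n) a)) = e' (w (algebraMap P (RF P n) a))
      rw [e.commutes, w.commutes, e'.commutes, htow, hgP]
    · intro i
      change g (e (xv P i)) = e' (w (xv P i))
      rw [he, hg, hw, map_sum]
      refine Finset.sum_congr rfl fun l _ => ?_
      rw [map_mul, map_intCast, he']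
  exact DFunLike.congr_fun h f

end CM83
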