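import Pool.Agent.H.MP_83e36b_nt.cm.XA
import Pool.Agent.H.MP_83e36b_nt.cm.XB
import Pool.Agent.H.MP_83e36b_nt.cm.Prod1

/-! Module XC: the invariants of `(W^+)^ι`. -/

namespace CM83

universe u v

theorem algInd_of_fin {k Ω : Type*} [Field k] [Field Ω] [Algebra k Ω] {κ : Type*} [Finite κ]
    {a x : κ → Ω} (ha : AlgebraicIndependent k a)
    (h : ∀ i, IsAlgebraic (IntermediateField.adjoin k (Set.range x)) (a i)) :
    AlgebraicIndependent k x := by
  have e : κ ≃ Fin (Nat.card κ) := Finite.equivFin κ
  have hr : Set.range (x ∘ e.symm) = Set.range x := EquivLike.range_comp x e.symm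
  have h1 : AlgebraicIndependent k (x ∘ e.symm) := by
    apply DiscRat.algInd_of (a := a ∘ e.symm) (ha.comp _ e.symm.injective)
    intro i
    rw [hr]
    exact h _
  have h2 : x = (x ∘ e.symm) ∘ e := by
    ext i
    simp
  rw [h2]
  exact h1.comp _ e.injective

variable {P : Type*} [Field P] [CharZero P] {L : Type u} [Field L] [Algebra P L]
  {ι : Type v} {n : ℕ}

theorem xc_push {K E F : Type*} [Field K] [Field E] [Field F] {k : Type*} [Field k] [Algebra k E]
    [Algebra K F] (g : E →+* F) {S : Set E} {T : IntermediateField K F}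
    (hk : ∀ a : k, g (algebraMap k E a) ∈ T) (hS : ∀ a ∈ S, g a ∈ T) {z : E}
    (hz : IsAlgebraic (IntermediateField.adjoin k S) z) : IsAlgebraic T (g z) := by
  have hmem : ∀ a : IntermediateField.adjoin k S, g (a : E) ∈ T := by
    rintro ⟨a, ha⟩
    change g a ∈ T
    induction ha using IntermediateField.adjoin_induction with
    | mem x hx => exact hS x hx
    | algebraMap x => exact hk x
    | add x y _ _ h1 h2 => rw [map_add]; exact add_mem h1 h2
    | inv x _ h1 => rw [map_inv₀]; exact inv_mem h1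
    | mul x y _ _ h1 h2 => rw [map_mul]; exact mul_mem h1 h2
  let φ : IntermediateField.adjoin k S →+* T :=
    (g.comp (algebraMap (IntermediateField.adjoin k S) E)).codRestrict T.toSubfield hmem
  exact hz.ringHom_of_comp_eq φ g φ.injective (by ext a; rfl)

theorem xc_alg {e : ι → RF P n →ₐ[P] RFL L ι n} (he : ∀ j i, e j (xv P i) = xl L j i)
    {s : Fin n → RF P n} (hs : AlgebraicIndependent P s) (f : RFL L ι n) :
    IsAlgebraic (IntermediateField.adjoin L
      (Set.range fun p : ι × Fin n => e p.1 (s p.2))) f := by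
  set T := IntermediateField.adjoin L (Set.range fun p : ι × Fin n => e p.1 (s p.2)) with hT
  have h1 : ∀ (j : ι) (i : Fin n), IsAlgebraic T (xl L j i) := by
    intro j i
    rw [← he]
    refine xc_push (k := P) (e j : RF P n →+* RFL L ι n) ?_ ?_ (good_alg hs (xv P i))
    · intro a
      have : (e j : RF P n →+* RFL L ι n) (algebraMap P (RF P n) a) =
          algebraMap L (RFL L ι n) (algebraMap P L a) := by
        rw [← IsScalarTower.algebraMap_apply P L (RFL L ι n)]
        exact (e j).commutes a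
      rw [this]
      exact IntermediateField.algebraMap_mem _ _
    · rintro _ ⟨i', rfl⟩
      exact IntermediateField.subset_adjoin L _ ⟨(j, i'), rfl⟩
  have hle : (⊤ : IntermediateField L (RFL L ι n)) ≤
      (algebraicClosure T (RFL L ι n)).restrictScalars L := by
    rw [← adjoin_xl, IntermediateField.adjoin_le_iff]
    rintro _ ⟨p, rfl⟩
    rw [SetLike.mem_coe, IntermediateField.mem_restrictScalars, mem_algebraicClosure_iff]
    exact h1 p.1 p.2
  have hx := hle (IntermediateField.mem_top (x := f))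
  rwa [IntermediateField.mem_restrictScalars, mem_algebraicClosure_iff] at hx

theorem xc_fixed [CharZero L] {A : Matrix (Fin n) (Fin n) ℤ} (hA : ∀ j, A j j = 2)
    {t : Fin n → RF P n} {d : RF P n} {i0 : Fin n} (ht : AlgebraicIndependent P t)
    (hg : IntermediateField.adjoin P (Set.range t) =
      IntermediateField.fixedField (weylGroup P A))
    (hd : d ^ 2 = t i0) (hd' : ∀ j σ, IsSimpleRefl P A j σ → σ d = - d)
    {e : ι → RF P n →ₐ[P] RFL L ι n} (he : ∀ j i, e j (xv P i) = xl L j i)
    (f : RFL L ι n)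
    (hf : ∀ M : ι → Matrix (Fin n) (Fin n) ℤ, (∀ j, M j ∈ rotMat A) →
      ∀ φ : RFL L ι n →+* RFL L ι n,
        (∀ a : L, φ (algebraMap L (RFL L ι n) a) = algebraMap L (RFL L ι n) a) →
        (∀ j i, φ (xl L j i) = ∑ l, (M j i l : RFL L ι n) * xl L j l) → φ f = f) :
    f ∈ IntermediateField.adjoin L
      (Set.range fun p : ι × Fin n => e p.1 (Function.update t i0 d p.2)) := by
  set s := Function.update t i0 d with hs
  have hsi : AlgebraicIndependent P s := (rot_of_good hA ht hg hd hd').1
  have hd0 : d ≠ 0 := by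
    intro h
    have := ht.ne_zero i0
    rw [← hd, h] at this
    exact this (by ring)
  set T := IntermediateField.adjoin L (Set.range fun p : ι × Fin n => e p.1 (s p.2)) with hT
  let Ω := AlgebraicClosure (RFL L ι n)
  let α : RFL L ι n →ₐ[L] Ω := IsScalarTower.toAlgHom L (RFL L ι n) Ω
  have hcz : CharZero Ω := charZero_of_injective_algebraMap (algebraMap L Ω).injective
  let K : IntermediateField L Ω := T.map α
  have halg : Algebra.IsAlgebraic K Ω := by
    have h0 : Algebra.IsAlgebraic T Ω := by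
      have : Algebra.IsAlgebraic T (RFL L ι n) := ⟨fun x => xc_alg he hsi x⟩
      exact Algebra.IsAlgebraic.trans T (RFL L ι n) Ω
    refine ⟨fun x => ?_⟩
    have hx := h0.isAlgebraic x
    have hmem : ∀ a : T, algebraMap T Ω a ∈ K := fun a => ⟨a, a.2, rfl⟩
    let φ : T →+* K := (algebraMap T Ω).codRestrict K.toSubfield hmem
    exact hx.ringHom_of_comp_eq φ (RingHom.id Ω) φ.injective (by ext a; rfl)
  suffices hK : α f ∈ K by
    obtain ⟨y, hy, hyf⟩ := hK
    rw [← α.injective hyf]
    exact hy
  apply DiscRat.mem_of_fixed K (α f)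
  intro τ
  have hτK : ∀ y ∈ K, τ y = y := fun y hy => τ.commutes ⟨y, hy⟩
  have hτL : ∀ a : L, τ (algebraMap L Ω a) = algebraMap L Ω a := fun a =>
    hτK _ (IntermediateField.algebraMap_mem _ _)
  have hτs : ∀ j i, τ (α (e j (s i))) = α (e j (s i)) := fun j i =>
    hτK _ ⟨_, IntermediateField.subset_adjoin L _ ⟨(j, i), rfl⟩, rfl⟩
  have hτt : ∀ j i, τ (α (e j (t i))) = α (e j (t i)) := by
    intro j i
    by_cases hi : i = i0
    · subst hi
      have h1 := hτs j i
      rw [hs, Function.update_self] at h1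
      rw [← hd, map_pow, map_pow, map_pow, h1]
    · have h1 := hτs j i
      rwa [hs, Function.update_of_ne hi] at h1
  have hτP : ∀ a : P, τ (algebraMap P Ω a) = algebraMap P Ω a := by
    intro a
    rw [IsScalarTower.algebraMap_apply P L Ω]
    exact hτL _
  have hw : ∀ j : ι, ∃ M ∈ rotMat A, ∀ i, τ (α (xl L j i)) =
      α (∑ l, (M i l : RFL L ι n) * xl L j l) := by
    intro j
    let ij : RF P n →ₐ[P] Ω := (IsScalarTower.toAlgHom P (RFL L ι n) Ω).comp (e j)
    have hij : ∀ x, ij x = α (e j x) := fun x => rfl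
    let τj : RF P n →ₐ[P] Ω :=
      { toRingHom := (τ : Ω →+* Ω).comp (ij : RF P n →+* Ω)
        commutes' := fun a => by
          change τ (ij (algebraMap P (RF P n) a)) = _
          rw [ij.commutes, hτP] }
    have hτj : ∀ x, τj x = τ (α (e j x)) := fun x => rfl
    obtain ⟨w, hwW, hww⟩ := good_gal ht hg ij τj (fun i => by rw [hij, hτj, hτt])
    have hwd : w d = d := by
      have h1 := hww d
      rw [hτj, hij] at h1
      have h2 := hτs j i0
      rw [hs, Function.update_self] at h2
      rw [h2] at h1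
      exact ((e j).injective (α.injective h1)).symm
    have hwr : w ∈ rotGroup P A := mem_rot_of_sign hA hd0 hd' hwW hwd
    obtain ⟨M, hM, hMw⟩ := rotMat_of_rot hA hwr
    refine ⟨M, hM, fun i => ?_⟩
    rw [← he, ← hτj, hww, hij, hMw, map_sum]
    congr 1
    refine Finset.sum_congr rfl fun l _ => ?_
    rw [map_mul, map_intCast, he]
  choose M hM hMτ using hw
  have hex : ∀ x : RFL L ι n, ∃ y : RFL L ι n, α y = τ (α x) := by
    intro x
    have hx : x ∈ IntermediateField.adjoin L (Set.range fun p : ι × Fin n => xl L p.1 p.2) := by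
      rw [adjoin_xl]
      exact IntermediateField.mem_top
    induction hx using IntermediateField.adjoin_induction with
    | mem x hx =>
      obtain ⟨p, rfl⟩ := hx
      exact ⟨_, (hMτ p.1 p.2).symm⟩
    | algebraMap x =>
      refine ⟨algebraMap L _ x, ?_⟩
      rw [α.commutes, hτL]
    | add x y _ _ h1 h2 =>
      obtain ⟨x', hx'⟩ := h1
      obtain ⟨y', hy'⟩ := h2
      exact ⟨x' + y', by rw [map_add, map_add, map_add, hx', hy']⟩
    | inv x _ h1 =>
      obtain ⟨x', hx'⟩ := h1
      exact ⟨x'⁻¹, by rw [map_inv₀, map_inv₀, map_inv₀, hx']⟩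
    | mul x y _ _ h1 h2 =>
      obtain ⟨x', hx'⟩ := h1
      obtain ⟨y', hy'⟩ := h2
      exact ⟨x' * y', by rw [map_mul, map_mul, map_mul, hx', hy']⟩
  choose φ hφ using hex
  have hαi : ∀ x y : RFL L ι n, α x = α y → x = y := fun x y h => α.injective h
  let Φ : RFL L ι n →+* RFL L ι n :=
    { toFun := φ
      map_one' := hαi _ _ (by rw [hφ, map_one, map_one])
      map_mul' := fun x y => hαi _ _ (by rw [hφ, map_mul, map_mul, map_mul, hφ, hφ])
      map_zero' := hαi _ _ (by rw [hφ, map_zero, map_zero])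
      map_add' := fun x y => hαi _ _ (by rw [hφ, map_add, map_add, map_add, hφ, hφ]) }
  have hΦ : ∀ x, α (Φ x) = τ (α x) := hφ
  have hfin := hf M hM Φ (fun a => hαi _ _ (by rw [hΦ, α.commutes, hτL]))
    (fun j i => hαi _ _ (by rw [hΦ, hMτ]))
  rw [← hΦ, hfin]

end CM83
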